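import Mathlib
import Pool.Agent.W446.AS.Virt
import Pool.Agent.W540.BE.Rep

/-! # Virtual characters: products, conjugates, mean values, norms -/

set_option autoImplicit false
set_option linter.unusedSectionVars false

namespace Pool.Agent.TH820.LG

open Pool.Agent.H541R3.ART Pool.Agent.W446.AS ComplexConjugate
open Pool.Agent.H302R5 (push)

section basic
variable {G : Type} [Group G] [Finite G]

lemma virt_char {V : Type} [AddCommGroup V] [Module ℂ V] [FiniteDimensional ℂ V]
    (ρ : Representation ℂ G V) : Virt ρ.character := char_mem _ ρ rfl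

lemma virt_add {a b : G → ℂ} (ha : Virt a) (hb : Virt b) : Virt (fun g => a g + b g) :=
  add_mem (S := AddSubgroup (G → ℂ)) ha hb

lemma virt_sub {a b : G → ℂ} (ha : Virt a) (hb : Virt b) : Virt (fun g => a g - b g) :=
  sub_mem (S := AddSubgroup (G → ℂ)) ha hb

lemma virt_neg {a : G → ℂ} (ha : Virt a) : Virt (fun g => - a g) :=
  neg_mem (S := AddSubgroup (G → ℂ)) ha

lemma virt_zero : Virt (fun _ : G => (0 : ℂ)) := zero_mem (AddSubgroup.closure (Irr G))

lemma virt_lin (ψ : G →* ℂˣ) : Virt (fun g => ((ψ g : ℂˣ) : ℂ)) := by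
  have h := virt_char (linRep ψ)
  have h2 : (linRep ψ).character = fun g => ((ψ g : ℂˣ) : ℂ) := funext fun g => linRep_char ψ g
  rw [h2] at h
  exact h

lemma virt_mul {a b : G → ℂ} (ha : Virt a) (hb : Virt b) : Virt (fun g => a g * b g) := by
  induction ha using AddSubgroup.closure_induction with
  | mem χ hχ =>
    induction hb using AddSubgroup.closure_induction with
    | mem ψ hψ =>
      obtain ⟨n, ρ, -, rfl⟩ := hχ
      obtain ⟨m, σ, -, rfl⟩ := hψ
      have h := virt_char (ρ.tprod σ)
      rw [Representation.char_tensor] at h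
      exact h
    | zero =>
      simp only [Pi.zero_apply, mul_zero]
      exact virt_zero
    | add x y _ _ hx hy =>
      simp only [Pi.add_apply, mul_add]
      exact virt_add hx hy
    | neg x _ hx =>
      simp only [Pi.neg_apply, mul_neg]
      exact virt_neg hx
  | zero =>
    simp only [Pi.zero_apply, zero_mul]
    exact virt_zero
  | add x y _ _ hx hy =>
    simp only [Pi.add_apply, add_mul]
    exact virt_add hx hy
  | neg x _ hx =>
    simp only [Pi.neg_apply, neg_mul]
    exact virt_neg hx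

lemma virt_inv {a : G → ℂ} (ha : Virt a) : Virt (fun g => a g⁻¹) := by
  induction ha using AddSubgroup.closure_induction with
  | mem χ hχ =>
    obtain ⟨n, ρ, -, rfl⟩ := hχ
    have h := virt_char ρ.dual
    have h2 : ρ.dual.character = fun g => ρ.character g⁻¹ := funext fun g => ρ.char_dual g
    rw [h2] at h
    exact h
  | zero => exact virt_zero
  | add x y _ _ hx hy => exact virt_add hx hy
  | neg x _ hx => exact virt_neg hx

lemma inv_conj {a : G → ℂ} (ha : Virt a) (g : G) : a g⁻¹ = conj (a g) := by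
  induction ha using AddSubgroup.closure_induction with
  | mem χ hχ =>
    obtain ⟨n, ρ, -, rfl⟩ := hχ
    refine (Pool.Agent.W540.BE.trace_conj (ρ g) (ρ g⁻¹) ?_ (m := Nat.card G) Nat.card_pos ?_).symm
    · rw [← map_mul, mul_inv_cancel, map_one]
    · rw [← map_pow, pow_card_eq_one', map_one]
  | zero => simp
  | add x y _ _ hx hy => rw [Pi.add_apply, Pi.add_apply, map_add, hx, hy]
  | neg x _ hx => rw [Pi.neg_apply, Pi.neg_apply, map_neg, hx]

lemma virt_conj {a : G → ℂ} (ha : Virt a) : Virt (fun g => conj (a g)) := by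
  have h := virt_inv ha
  have h2 : (fun g => a g⁻¹) = fun g => conj (a g) := funext fun g => inv_conj ha g
  rw [h2] at h
  exact h

/-- the mean value is an integer -/
lemma mean_int [Fintype G] {a : G → ℂ} (ha : Virt a) : ∃ k : ℤ, ∑ g, a g = k * Nat.card G := by
  classical
  induction ha using AddSubgroup.closure_induction with
  | mem χ hχ =>
    obtain ⟨n, ρ, -, rfl⟩ := hχ
    have hG : (Nat.card G : ℂ) ≠ 0 := by exact_mod_cast Nat.card_pos.ne'
    have : Invertible (Nat.card G : ℂ) := invertibleOfNonzero hG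
    have h := ρ.card_inv_mul_sum_char_eq_finrank
    refine ⟨Module.finrank ℂ ρ.invariants, ?_⟩
    push_cast
    rw [← h, mul_comm, ← mul_assoc, mul_inv_cancel₀ hG, one_mul]
  | zero => exact ⟨0, by simp⟩
  | add x y _ _ hx hy =>
    obtain ⟨k, hk⟩ := hx
    obtain ⟨l, hl⟩ := hy
    exact ⟨k + l, by simp only [Pi.add_apply, Finset.sum_add_distrib, hk, hl]; push_cast; ring⟩
  | neg x _ hx =>
    obtain ⟨k, hk⟩ := hx
    exact ⟨-k, by simp only [Pi.neg_apply, Finset.sum_neg_distrib, hk]; push_cast; ring⟩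

/-- the sum of the squares is a natural multiple of the order -/
lemma normsq_nat [Fintype G] {a : G → ℂ} (ha : Virt a) :
    ∃ k : ℕ, ∑ g, ‖a g‖ ^ 2 = k * Nat.card G := by
  obtain ⟨k, hk⟩ := mean_int (virt_mul ha (virt_conj ha))
  have h1 : ((∑ g, ‖a g‖ ^ 2 : ℝ) : ℂ) = ((k * Nat.card G : ℝ) : ℂ) := by
    push_cast
    rw [← hk]
    refine Finset.sum_congr rfl fun g _ => ?_
    rw [Complex.mul_conj, Complex.normSq_eq_norm_sq]
    push_cast
    rfl
  have h2 : ∑ g, ‖a g‖ ^ 2 = (k : ℝ) * Nat.card G := by exact_mod_cast h1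
  have hc : (0 : ℝ) < Nat.card G := by exact_mod_cast Nat.card_pos
  have h3 : 0 ≤ k := by
    by_contra hneg
    push Not at hneg
    have h4 : (k : ℝ) < 0 := by exact_mod_cast hneg
    have h5 : 0 ≤ ∑ g, ‖a g‖ ^ 2 := Finset.sum_nonneg fun g _ => by positivity
    rw [h2] at h5
    nlinarith
  obtain ⟨m, rfl⟩ := Int.eq_ofNat_of_zero_le h3
  exact ⟨m, by rw [h2]; simp⟩

/-- a virtual character of small norm vanishes -/
lemma virt_eq_zero [Fintype G] {a : G → ℂ} (ha : Virt a)
    (h : ∑ g, ‖a g‖ ^ 2 < Nat.card G) (g : G) : a g = 0 := by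
  obtain ⟨k, hk⟩ := normsq_nat ha
  have hc : (0 : ℝ) < Nat.card G := by exact_mod_cast Nat.card_pos
  have hk0 : k = 0 := by
    by_contra hne
    have h1 : (1 : ℝ) ≤ k := by exact_mod_cast Nat.one_le_iff_ne_zero.2 hne
    rw [hk] at h
    nlinarith
  rw [hk0] at hk
  have h2 : ∑ g, ‖a g‖ ^ 2 = 0 := by rw [hk]; simp
  have h3 := (Finset.sum_eq_zero_iff_of_nonneg (fun g _ => by positivity)).1 h2 g (Finset.mem_univ g)
  have h4 : ‖a g‖ = 0 := by
    have := pow_eq_zero_iff (two_ne_zero) |>.1 h3
    exact this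
  exact norm_eq_zero.1 h4

end basic

end Pool.Agent.TH820.LG
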