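import Pool.Agent.W353.SP.NDefs

/-!
# Tauberian averages over the intermediate fields of a Galois extension: definitions

`X` is a smooth projective variety over a number field `K`, of dimension `d`, and `m` an integer,
`0 ≤ m ≤ d`; `ρ` is the representation on the algebraic classes.
-/

set_option autoImplicit false

namespace Pool.Agent.TH820.LG

open NumberField IsDedekindDomain Filter Topology
open Pool.Agent.W353.SP (IsTrace IsTwistedTrace average)
open Pool.Agent.W353.TD (rank)
open Pool.Agent.W353.AT (twistRank)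

section
variable {K : Type} [Field K] [NumberField K] {l : ℕ} {V : Type} [AddCommGroup V] [Module ℚ V]

/-- The averages `T⁻¹ ∑_{q_v ≤ T} Re b_v log(q_v) / q_v^m`, `b_v` the trace of the geometric Frobenius on
`H^{2m}(X) ⊗ χ` at the primes `v` of `K` outside a finite set, tend to `twistRank ρ χ - δ` for
`T → ∞`. -/
def TwistAverage (X : Set (MvPolynomial (Fin l) (𝓞 K))) (d m N : ℕ)
    (ρ : Representation ℚ Gal(AlgebraicClosure K/K) V) {n : ℕ}
    (χ : Representation ℂ Gal(AlgebraicClosure K/K) (Fin n → ℂ)) (δ : ℤ) : Prop :=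
  ∃ (R : Finset (HeightOneSpectrum (𝓞 K))) (b : HeightOneSpectrum (𝓞 K) → ℂ),
    IsTwistedTrace X d (2 * m) N χ R b ∧
    Tendsto (fun T : ℕ => average m R b T) atTop (𝓝 ((twistRank ρ χ : ℝ) - δ))

/-- The difference between the values of `T⁻¹ ∑_{q_w ≤ T} b_w log(q_w) / q_w^m - rank` over the fields `E`
and `E'`, `b_w` the traces of the geometric Frobenius on `H^{2m}(X)` at the primes `w` of `E` and of `E'`,
tends to `0` for `T → ∞`. -/
def SameAverages (X : Set (MvPolynomial (Fin l) (𝓞 K))) (d m N : ℕ)
    (ρ : Representation ℚ Gal(AlgebraicClosure K/K) V)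
    (E E' : IntermediateField K (AlgebraicClosure K)) [NumberField E] [NumberField E'] : Prop :=
  ∀ (R : Finset (HeightOneSpectrum (𝓞 E))) (b : HeightOneSpectrum (𝓞 E) → ℂ)
    (R' : Finset (HeightOneSpectrum (𝓞 E'))) (b' : HeightOneSpectrum (𝓞 E') → ℂ),
    IsTrace X d (2 * m) N R b → IsTrace X d (2 * m) N R' b' →
    Tendsto (fun T : ℕ => (average m R b T - rank ρ E) - (average m R' b' T - rank ρ E')) atTop
      (𝓝 0)

end

end Pool.Agent.TH820.LG
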