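import Mathlib
import Pool.Agent.TH820.LG.A
import Pool.Agent.W353.SN.Big

/-! # Bounded virtual characters of a symmetric group times an abelian group -/

set_option autoImplicit false
set_option linter.unusedSectionVars false

namespace Pool.Agent.TH820.LG

open Pool.Agent.H541R3.ART Pool.Agent.W446.AS ComplexConjugate
open Pool.Agent.H302R5 (push)

section fourier
variable {X : Type} [CommGroup X] [Finite X]

/-- the characters of a finite abelian group -/
lemma fourier_zero [Fintype X] (f : X → ℂ)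
    (h : ∀ μ : X →* ℂˣ, ∑ x, f x * (((μ x)⁻¹ : ℂˣ) : ℂ) = 0) (y : X) : f y = 0 := by
  classical
  have h1 : ∀ ψ : AddChar (Additive X) ℂ,
      ∑ x : X, f x * ψ (Additive.ofMul x⁻¹) = 0 := by
    intro ψ
    let μ : X →* ℂˣ := MonoidHom.toHomUnits
      { toFun := fun x => ψ (Additive.ofMul x)
        map_one' := by simp
        map_mul' := fun a b => by rw [ofMul_mul, AddChar.map_add_eq_mul] }
    have h2 := h μ
    rw [← h2]
    refine Finset.sum_congr rfl fun x _ => ?_
    rw [← map_inv]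
    rfl
  have h3 : ∑ ψ : AddChar (Additive X) ℂ, ψ (Additive.ofMul y) *
      ∑ x : X, f x * ψ (Additive.ofMul x⁻¹) = 0 :=
    Finset.sum_eq_zero fun ψ _ => by rw [h1, mul_zero]
  have h4 : ∑ ψ : AddChar (Additive X) ℂ, ψ (Additive.ofMul y) *
      ∑ x : X, f x * ψ (Additive.ofMul x⁻¹) =
      ∑ x : X, f x * ∑ ψ : AddChar (Additive X) ℂ, ψ (Additive.ofMul (y * x⁻¹)) := by
    simp only [Finset.mul_sum]
    rw [Finset.sum_comm]
    refine Finset.sum_congr rfl fun x _ => Finset.sum_congr rfl fun ψ _ => ?_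
    rw [ofMul_mul, AddChar.map_add_eq_mul]
    ring
  rw [h4] at h3
  have h5 : ∀ x : X, ∑ ψ : AddChar (Additive X) ℂ, ψ (Additive.ofMul (y * x⁻¹)) =
      if x = y then (Fintype.card X : ℂ) else 0 := by
    intro x
    rw [AddChar.sum_apply_eq_ite]
    have e : (Additive.ofMul (y * x⁻¹) = 0) ↔ x = y := by
      rw [ofMul_eq_zero, mul_inv_eq_one, eq_comm]
    have e2 : Fintype.card (Additive X) = Fintype.card X := Fintype.card_congr Additive.toMul
    simp only [e, e2]
  simp only [h5, mul_ite, mul_zero, Finset.sum_ite_eq', Finset.mem_univ, if_true] at h3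
  have h6 : (Fintype.card X : ℂ) ≠ 0 := by exact_mod_cast Fintype.card_ne_zero
  exact (mul_eq_zero.1 h3).resolve_right h6

end fourier

open Equiv Equiv.Perm Pool.Agent.W353.SN in
/-- **Even permutations.** -/
theorem sn_step (N : ℝ) : ∃ n₀ : ℕ, ∀ (ι : Type) [Fintype ι] [DecidableEq ι],
    n₀ ≤ Fintype.card ι → ∀ (X : Type) [CommGroup X] [Finite X] (ϑ : Perm ι × X → ℂ),
    Virt ϑ → (∀ g, ‖ϑ g‖ ≤ N) → ∀ (π : Perm ι) (x : X), sign π = 1 → ϑ (π, x) = ϑ (1, x) := by
  classical
  obtain ⟨n₀, hn₀⟩ := big N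
  refine ⟨n₀, fun ι _ _ hι X _ _ ϑ hϑ hN π x hπ => ?_⟩
  have : Fintype X := Fintype.ofFinite X
  have hX0 : (Fintype.card X : ℂ) ≠ 0 := by exact_mod_cast Fintype.card_ne_zero
  have hX0' : (0 : ℝ) < Fintype.card X := by exact_mod_cast Fintype.card_pos
  suffices hz : ∀ y : X, (fun y => ϑ (π, y) - ϑ (1, y)) y = 0 from sub_eq_zero.1 (hz x)
  refine fourier_zero _ fun μ => ?_
  -- the coefficient
  set c : Perm ι → ℂ := fun g => (Fintype.card X : ℂ)⁻¹ * ∑ y, ϑ (g, y) * (((μ y)⁻¹ : ℂˣ) : ℂ)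
    with hc
  have hμn : ∀ y, ‖(((μ y)⁻¹ : ℂˣ) : ℂ)‖ = 1 := by
    intro y
    have h1 : ((μ y)⁻¹) ^ (Fintype.card X) = 1 := by
      rw [inv_pow, ← map_pow, pow_card_eq_one, map_one, inv_one]
    have h2 : ‖(((μ y)⁻¹ : ℂˣ) : ℂ)‖ ^ (Fintype.card X) = 1 := by
      rw [← norm_pow, ← Units.val_pow_eq_pow_val, h1]
      simp
    exact (pow_eq_one_iff_of_nonneg (norm_nonneg _) Fintype.card_ne_zero).1 h2
  have hcl : ∀ g u, c (u * g * u⁻¹) = c g := by
    intro g u
    rw [hc]
    simp only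
    congr 1
    refine Finset.sum_congr rfl fun y _ => ?_
    have h1 := hϑ.conj (g, y) (u, 1)
    have h2 : ((u, 1) * (g, y) * (u, 1)⁻¹ : Perm ι × X) = (u * g * u⁻¹, y) := by
      ext <;> simp
    rw [h2] at h1
    rw [h1]
  have hbd : ∀ g, ‖c g‖ ≤ N := by
    intro g
    rw [hc]
    simp only
    rw [norm_mul, norm_inv, Complex.norm_natCast]
    have h1 : ‖∑ y, ϑ (g, y) * (((μ y)⁻¹ : ℂˣ) : ℂ)‖ ≤ ∑ _y : X, N := by
      refine (norm_sum_le _ _).trans (Finset.sum_le_sum fun y _ => ?_)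
      rw [norm_mul, hμn, mul_one]
      exact hN _
    rw [Finset.sum_const, Finset.card_univ, nsmul_eq_mul] at h1
    rw [inv_mul_le_iff₀ hX0']
    exact h1
  have hint : ∀ H : Subgroup (Perm ι), ∃ k : ℤ, ∑ᶠ h : H, c h = k * Nat.card H := by
    intro H
    have : Fintype H := Fintype.ofFinite H
    have h1 : Virt (fun z : H × X => ϑ ((z.1 : Perm ι), z.2) * (((μ z.2)⁻¹ : ℂˣ) : ℂ)) := by
      have h2 : Virt (fun z : H × X => ϑ ((z.1 : Perm ι), z.2)) :=
        hϑ.comp (MonoidHom.prodMap H.subtype (MonoidHom.id X))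
      have h3 := virt_lin ((μ⁻¹).comp (MonoidHom.snd H X))
      exact virt_mul h2 h3
    obtain ⟨k, hk⟩ := mean_int h1
    refine ⟨k, ?_⟩
    rw [finsum_eq_sum_of_fintype]
    rw [hc]
    simp only
    rw [← Finset.mul_sum]
    rw [Fintype.sum_prod_type] at hk
    simp only at hk
    rw [hk, Nat.card_prod, Nat.card_eq_fintype_card (α := X)]
    push_cast
    field_simp
  have hre : c π = c 1 := by
    apply Complex.ext
    · obtain ⟨a, b, hab⟩ := hn₀ ι hι (fun g => (c g).re) (fun g u => by simp only [hcl])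
        (fun r => by
          obtain ⟨k, hk⟩ := hint (yg r)
          have : Fintype (yg r) := Fintype.ofFinite _
          refine ⟨k, ?_⟩
          rw [finsum_eq_sum_of_fintype] at hk ⊢
          rw [← Complex.re_sum, hk]
          simp)
        (fun g => (Complex.abs_re_le_norm _).trans (hbd g))
      have h1 := hab π
      have h2 := hab 1
      rw [hπ] at h1
      rw [Equiv.Perm.sign_one] at h2
      simp only at h1 h2
      rw [h1, h2]
    · obtain ⟨a, b, hab⟩ := hn₀ ι hι (fun g => (c g).im) (fun g u => by simp only [hcl])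
        (fun r => by
          obtain ⟨k, hk⟩ := hint (yg r)
          have : Fintype (yg r) := Fintype.ofFinite _
          refine ⟨0, ?_⟩
          rw [finsum_eq_sum_of_fintype] at hk ⊢
          rw [← Complex.im_sum, hk]
          simp)
        (fun g => (Complex.abs_im_le_norm _).trans (hbd g))
      have h1 := hab π
      have h2 := hab 1
      rw [hπ] at h1
      rw [Equiv.Perm.sign_one] at h2
      simp only at h1 h2
      rw [h1, h2]
  rw [hc] at hre
  simp only at hre
  have h7 := mul_left_cancel₀ (inv_ne_zero hX0) hre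
  simp only [sub_mul, Finset.sum_sub_distrib]
  rw [h7, sub_self]

end Pool.Agent.TH820.LG
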