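import Mathlib
import Pool.Agent.TH820.LG.B

/-! # Coefficients of bounded virtual characters of abelian groups and of powers -/

set_option autoImplicit false
set_option linter.unusedSectionVars false

namespace Pool.Agent.TH820.LG

open Pool.Agent.H541R3.ART Pool.Agent.W446.AS ComplexConjugate
open Pool.Agent.H302R5 (push)

/-- Bessel's inequality for functions on a finite set -/
lemma bessel {Ω κ : Type*} [Fintype Ω] [DecidableEq κ] (S : Finset κ) (φ : κ → Ω → ℂ)
    (f : Ω → ℂ) (M : ℝ) (hM : 0 < M)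
    (h : ∀ i ∈ S, ∀ j ∈ S, ∑ w, φ i w * conj (φ j w) = if i = j then (M : ℂ) else 0) :
    ∑ i ∈ S, ‖∑ w, f w * conj (φ i w)‖ ^ 2 ≤ M * ∑ w, ‖f w‖ ^ 2 := by
  set a : κ → ℂ := fun i => ∑ w, f w * conj (φ i w) with ha
  set T : Ω → ℂ := fun w => ∑ i ∈ S, a i * φ i w with hT
  set A : ℝ := ∑ i ∈ S, ‖a i‖ ^ 2 with hA
  have hAc : (A : ℂ) = ∑ i ∈ S, a i * conj (a i) := by
    rw [hA]
    push_cast
    exact Finset.sum_congr rfl fun i _ => by rw [Complex.mul_conj, Complex.normSq_eq_norm_sq]; simp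
  have h1 : ∑ w, f w * conj (T w) = A := by
    rw [hAc]
    simp only [hT, map_sum, map_mul, Finset.mul_sum]
    rw [Finset.sum_comm]
    refine Finset.sum_congr rfl fun i _ => ?_
    have e : ∀ w, f w * (conj (a i) * conj (φ i w)) = conj (a i) * (f w * conj (φ i w)) :=
      fun w => by ring
    simp only [e]
    rw [← Finset.mul_sum]
    rw [ha]
    ring
  have h2 : ∑ w, T w * conj (T w) = M * A := by
    rw [hAc, Finset.mul_sum]
    have e1 : ∀ w, T w * conj (T w) =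
        ∑ i ∈ S, ∑ j ∈ S, a i * conj (a j) * (φ i w * conj (φ j w)) := by
      intro w
      simp only [hT, map_sum, map_mul]
      rw [Finset.sum_mul_sum]
      exact Finset.sum_congr rfl fun i _ => Finset.sum_congr rfl fun j _ => by ring
    simp only [e1]
    rw [Finset.sum_comm]
    refine Finset.sum_congr rfl fun i hi => ?_
    rw [Finset.sum_comm]
    have e2 : ∀ j ∈ S, ∑ w, a i * conj (a j) * (φ i w * conj (φ j w)) =
        if i = j then a i * conj (a j) * (M : ℂ) else 0 := by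
      intro j hj
      rw [← Finset.mul_sum, h i hi j hj, mul_ite, mul_zero]
    rw [Finset.sum_congr rfl e2, Finset.sum_ite_eq, if_pos hi]
    ring
  have h3 : ((∑ w, ‖(M : ℂ) * f w - T w‖ ^ 2 : ℝ) : ℂ) =
      ((M * (M * ∑ w, ‖f w‖ ^ 2 - A) : ℝ) : ℂ) := by
    have h4 : ∑ w, conj (f w) * T w = A := by
      have := congrArg conj h1
      rw [map_sum] at this
      simp only [map_mul, Complex.conj_conj, Complex.conj_ofReal] at this
      exact this
    have h5 : ((∑ w, ‖f w‖ ^ 2 : ℝ) : ℂ) = ∑ w, f w * conj (f w) := by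
      push_cast
      exact Finset.sum_congr rfl fun i _ => by
        rw [Complex.mul_conj, Complex.normSq_eq_norm_sq]; simp
    have h6 : ((∑ w, ‖(M : ℂ) * f w - T w‖ ^ 2 : ℝ) : ℂ) =
        ∑ w, ((M : ℂ) * f w - T w) * conj ((M : ℂ) * f w - T w) := by
      push_cast
      exact Finset.sum_congr rfl fun i _ => by
        rw [Complex.mul_conj, Complex.normSq_eq_norm_sq]; simp
    rw [h6]
    have h7 : ∀ w, ((M : ℂ) * f w - T w) * conj ((M : ℂ) * f w - T w) =
        (M : ℂ) * M * (f w * conj (f w)) - M * (f w * conj (T w)) - M * (conj (f w) * T w) +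
          T w * conj (T w) := by
      intro w
      rw [map_sub, map_mul, Complex.conj_ofReal]
      ring
    simp only [h7, Finset.sum_add_distrib, Finset.sum_sub_distrib]
    rw [← Finset.mul_sum, ← Finset.mul_sum, ← Finset.mul_sum, h1, h2, h4, ← h5]
    push_cast
    ring
  have h8 : ∑ w, ‖(M : ℂ) * f w - T w‖ ^ 2 = M * (M * ∑ w, ‖f w‖ ^ 2 - A) := by
    exact_mod_cast h3
  have h9 : 0 ≤ M * (M * ∑ w, ‖f w‖ ^ 2 - A) := by
    rw [← h8]
    exact Finset.sum_nonneg fun w _ => by positivity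
  have h10 := nonneg_of_mul_nonneg_right h9 hM
  linarith

section abelian
variable {Y : Type} [CommGroup Y] [Finite Y]

lemma lin_norm (μ : Y →* ℂˣ) (y : Y) : ‖((μ y : ℂˣ) : ℂ)‖ = 1 := by
  have h1 : (μ y) ^ (Nat.card Y) = 1 := by
    rw [← map_pow, pow_card_eq_one', map_one]
  have h2 : ‖((μ y : ℂˣ) : ℂ)‖ ^ (Nat.card Y) = 1 := by
    rw [← norm_pow, ← Units.val_pow_eq_pow_val, h1]
    simp
  exact (pow_eq_one_iff_of_nonneg (norm_nonneg _) Nat.card_pos.ne').1 h2

lemma lin_inv (μ : Y →* ℂˣ) (y : Y) : (((μ y)⁻¹ : ℂˣ) : ℂ) = conj ((μ y : ℂˣ) : ℂ) := by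
  rw [Units.val_inv_eq_inv_val]
  rw [Complex.inv_def, Complex.normSq_eq_norm_sq, lin_norm]
  simp

/-- coefficients, times the order -/
noncomputable def cf [Fintype Y] (f : Y → ℂ) (μ : Y →* ℂˣ) : ℂ :=
  ∑ y, f y * (((μ y)⁻¹ : ℂˣ) : ℂ)

variable [Fintype Y]

lemma cf_int {f : Y → ℂ} (hf : Virt f) (μ : Y →* ℂˣ) : ∃ k : ℤ, cf f μ = k * Nat.card Y := by
  have h1 := mean_int (virt_mul hf (virt_lin (μ⁻¹)))
  exact h1

lemma lin_ortho [DecidableEq (Y →* ℂˣ)] (μ ν : Y →* ℂˣ) :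
    ∑ y, ((μ y : ℂˣ) : ℂ) * conj ((ν y : ℂˣ) : ℂ) = if μ = ν then ((Nat.card Y : ℝ) : ℂ) else 0 := by
  simp only [← lin_inv]
  split_ifs with h
  · subst h
    simp
  · obtain ⟨z, hz⟩ : ∃ z, μ z ≠ ν z := by
      by_contra hcon
      push Not at hcon
      exact h (MonoidHom.ext hcon)
    have h1 : (((μ z : ℂˣ) : ℂ) * (((ν z)⁻¹ : ℂˣ) : ℂ)) *
        ∑ y, ((μ y : ℂˣ) : ℂ) * (((ν y)⁻¹ : ℂˣ) : ℂ) =
        ∑ y, ((μ y : ℂˣ) : ℂ) * (((ν y)⁻¹ : ℂˣ) : ℂ) := by
      rw [Finset.mul_sum]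
      conv_rhs => rw [← Equiv.sum_comp (Equiv.mulLeft z)]
      refine Finset.sum_congr rfl fun y _ => ?_
      rw [Equiv.coe_mulLeft, map_mul, map_mul, mul_inv]
      push_cast
      ring
    have h2 : ((μ z : ℂˣ) : ℂ) * (((ν z)⁻¹ : ℂˣ) : ℂ) ≠ 1 := by
      intro h3
      apply hz
      rw [← Units.val_mul, Units.val_eq_one, mul_inv_eq_one] at h3
      exact h3
    by_contra h0
    exact h2 (mul_right_cancel₀ h0 (by rw [h1, one_mul]))

/-- at most `N²` characters share a nonzero coefficient -/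
lemma card_supp {f : Y → ℂ} (hf : Virt f) {N : ℝ} (hN : ∀ y, ‖f y‖ ≤ N)
    (S : Finset (Y →* ℂˣ)) (hS : ∀ μ ∈ S, cf f μ ≠ 0) : (S.card : ℝ) ≤ N ^ 2 := by
  classical
  have hY : (0 : ℝ) < Nat.card Y := by exact_mod_cast Nat.card_pos
  have h1 := bessel S (fun μ y => ((μ y : ℂˣ) : ℂ)) f (Nat.card Y) hY
    (fun μ _ ν _ => lin_ortho μ ν)
  have h2 : ∀ μ ∈ S, ((Nat.card Y : ℝ)) ^ 2 ≤ ‖∑ y, f y * conj ((μ y : ℂˣ) : ℂ)‖ ^ 2 := by
    intro μ hμ
    obtain ⟨k, hk⟩ := cf_int hf μ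
    have h3 : ∑ y, f y * conj ((μ y : ℂˣ) : ℂ) = cf f μ := by
      unfold cf
      simp only [lin_inv]
    have hk0 : k ≠ 0 := by
      rintro rfl
      exact hS μ hμ (by rw [hk]; simp)
    have h4 : (1 : ℝ) ≤ |(k : ℝ)| := by
      exact_mod_cast Int.one_le_abs hk0
    rw [h3, hk, norm_mul, Complex.norm_intCast, Complex.norm_natCast]
    have h5 : (Nat.card Y : ℝ) ≤ |(k : ℝ)| * Nat.card Y := by nlinarith
    exact pow_le_pow_left₀ hY.le h5 2
  have h3 := Finset.sum_le_sum h2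
  rw [Finset.sum_const, nsmul_eq_mul] at h3
  have h4 : ∑ y, ‖f y‖ ^ 2 ≤ Nat.card Y * N ^ 2 := by
    have : ∑ y, ‖f y‖ ^ 2 ≤ ∑ _y : Y, N ^ 2 :=
      Finset.sum_le_sum fun y _ => pow_le_pow_left₀ (norm_nonneg _) (hN y) 2
    rw [Finset.sum_const, nsmul_eq_mul, Finset.card_univ, ← Nat.card_eq_fintype_card] at this
    exact this
  have h5 : (S.card : ℝ) * (Nat.card Y : ℝ) ^ 2 ≤ Nat.card Y * (Nat.card Y * N ^ 2) :=
    h3.trans (h1.trans (mul_le_mul_of_nonneg_left h4 hY.le))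
  have h6 : 0 ≤ ((Nat.card Y : ℝ)) ^ 2 * (N ^ 2 - S.card) := by nlinarith
  have h7 := nonneg_of_mul_nonneg_right h6 (by positivity)
  linarith

lemma cf_comp (f : Y → ℂ) (τ : Y ≃* Y) (hτ : ∀ y, f (τ y) = f y) (μ : Y →* ℂˣ) :
    cf f (μ.comp τ.toMonoidHom) = cf f μ := by
  unfold cf
  conv_rhs => rw [← Equiv.sum_comp τ.toEquiv]
  refine Finset.sum_congr rfl fun y _ => ?_
  change f y * (((μ (τ y))⁻¹ : ℂˣ) : ℂ) = f (τ y) * (((μ (τ y))⁻¹ : ℂˣ) : ℂ)
  rw [hτ]

lemma inv_of_coef (f : Y → ℂ) (z : Y) (h : ∀ μ : Y →* ℂˣ, cf f μ ≠ 0 → μ z = 1) (y : Y) :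
    f (y * z) = f y := by
  have h1 : ∀ μ : Y →* ℂˣ, ∑ x, (f (x * z) - f x) * (((μ x)⁻¹ : ℂˣ) : ℂ) = 0 := by
    intro μ
    have h2 : ∑ x, f (x * z) * (((μ x)⁻¹ : ℂˣ) : ℂ) = ((μ z : ℂˣ) : ℂ) * cf f μ := by
      unfold cf
      rw [Finset.mul_sum]
      conv_rhs => rw [← Equiv.sum_comp (Equiv.mulRight z)]
      refine Finset.sum_congr rfl fun x _ => ?_
      rw [Equiv.coe_mulRight, map_mul, mul_inv]
      push_cast
      have : ((μ z : ℂˣ) : ℂ) ≠ 0 := (μ z).ne_zero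
      field_simp
    simp only [sub_mul, Finset.sum_sub_distrib]
    rw [h2]
    change _ - cf f μ = 0
    by_cases h0 : cf f μ = 0
    · rw [h0]; simp
    · rw [h μ h0]; simp
  exact sub_eq_zero.1 (fourier_zero (fun x => f (x * z) - f x) h1 y)

/-- **Frobenius invariance.** -/
theorem frob_inv {f : Y → ℂ} (hf : Virt f) {N : ℝ} (hN : ∀ y, ‖f y‖ ≤ N) {E : ℕ}
    (hE : N ^ 2 ≤ E) (τ : Y ≃* Y) (hτ : ∀ y, f (τ y) = f y) (z : Y)
    (hz : ∀ d : ℕ, 1 ≤ d → d ≤ E → ∃ c : Y, z = c⁻¹ * (τ ^ d : MulAut Y) c) (y : Y) :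
    f (y * z) = f y := by
  classical
  refine inv_of_coef f z (fun μ hμ => ?_) y
  set g : ℕ → (Y →* ℂˣ) := fun i => μ.comp ((τ ^ i : MulAut Y) : Y ≃* Y).toMonoidHom with hg
  have hgi : ∀ i, cf f (g i) ≠ 0 := by
    intro i
    have h1 : ∀ y, f ((τ ^ i : MulAut Y) y) = f y := by
      intro y
      induction i with
      | zero => simp
      | succ n ih => rw [pow_succ', MulAut.mul_apply]; exact (hτ _).trans ih
    rw [hg]
    simp only
    rw [cf_comp f (τ ^ i : MulAut Y) h1]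
    exact hμ
  obtain ⟨i, hi, j, hj, hij, he⟩ : ∃ i ∈ Finset.range (E + 1), ∃ j ∈ Finset.range (E + 1),
      i ≠ j ∧ g i = g j := by
    have hc : ((Finset.range (E + 1)).image g).card < (Finset.range (E + 1)).card := by
      have h1 := card_supp hf hN ((Finset.range (E + 1)).image g) (by
        intro ν hν
        obtain ⟨i, -, rfl⟩ := Finset.mem_image.1 hν
        exact hgi i)
      have h2 : (((Finset.range (E + 1)).image g).card : ℝ) ≤ E := h1.trans hE
      rw [Finset.card_range]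
      have h3 : ((Finset.range (E + 1)).image g).card ≤ E := by exact_mod_cast h2
      omega
    obtain ⟨i, hi, j, hj, hne, he⟩ := Finset.exists_ne_map_eq_of_card_lt_of_maps_to hc
      (fun i hi => Finset.mem_image_of_mem g hi)
    exact ⟨i, hi, j, hj, hne, he⟩
  rw [Finset.mem_range] at hi hj
  wlog hlt : i < j generalizing i j
  · exact this j hj i hi hij.symm he.symm (by omega)
  obtain ⟨c, hc⟩ := hz (j - i) (by omega) (by omega)
  have h1 := DFunLike.congr_fun he ((τ ^ i : MulAut Y).symm c)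
  rw [hg] at h1
  simp only [MonoidHom.comp_apply] at h1
  have h2 : ((τ ^ i : MulAut Y) : Y ≃* Y).toMonoidHom ((τ ^ i : MulAut Y).symm c) = c :=
    (τ ^ i : MulAut Y).apply_symm_apply c
  have h3 : ((τ ^ j : MulAut Y) : Y ≃* Y).toMonoidHom ((τ ^ i : MulAut Y).symm c) =
      (τ ^ (j - i) : MulAut Y) c := by
    have e : (τ ^ j : MulAut Y) = τ ^ (j - i) * τ ^ i := by
      rw [← pow_add]
      congr 1
      omega
    change (τ ^ j : MulAut Y) _ = _
    rw [e, MulAut.mul_apply]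
    exact congrArg _ ((τ ^ i : MulAut Y).apply_symm_apply c)
  rw [h2, h3] at h1
  rw [hc, map_mul, map_inv, h1, inv_mul_cancel]

/-- **Symmetric invariance.** -/
theorem sym_inv {ι : Type*} [Fintype ι] {f : Y → ℂ} (hf : Virt f) {N : ℝ}
    (hN : ∀ y, ‖f y‖ ≤ N) {E : ℕ} (hE : N ^ 2 ≤ E) (hι : 2 * E + 4 < Fintype.card ι)
    (z : ι → ι → Y) (hz : ∀ i j k, z i k * z k j = z i j)
    (τ : ι → ι → (Y ≃* Y)) (hτ : ∀ i j y, f (τ i j y) = f y)
    (hτ1 : ∀ i k r, i ≠ k → r ≠ i → r ≠ k → τ i k (z k r) = z i r)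
    (hτ2 : ∀ i k' k r, k ≠ i → k ≠ k' → r ≠ i → r ≠ k' → τ i k' (z k r) = z k r)
    (i j : ι) (y : Y) : f (y * z i j) = f y := by
  classical
  refine inv_of_coef f _ (fun μ hμ => ?_) y
  have key : ∀ i : ι, ((Finset.univ : Finset ι).filter fun k => μ (z i k) ≠ 1).card ≤ E + 1 := by
    intro i
    by_contra hcon
    push Not at hcon
    set K := (Finset.univ : Finset ι).filter fun k => μ (z i k) ≠ 1 with hK
    have hii : z i i = 1 := by
      have := hz i i i
      exact mul_eq_left.1 this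
    have hiK : i ∉ K := by
      rw [hK, Finset.mem_filter, hii, map_one]
      simp
    obtain ⟨r, hr⟩ : K.Nonempty := Finset.card_pos.1 (by omega)
    have hri : r ≠ i := fun h => hiK (h ▸ hr)
    have hK' : E < (K.erase r).card := by
      rw [Finset.card_erase_of_mem hr]
      omega
    set g : ι → (Y →* ℂˣ) := fun k => μ.comp (τ i k).toMonoidHom with hg
    have hc : ((K.erase r).image g).card < (K.erase r).card := by
      have h1 := card_supp hf hN ((K.erase r).image g) (by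
        intro ν hν
        obtain ⟨k, -, rfl⟩ := Finset.mem_image.1 hν
        rw [hg]
        simp only
        rw [cf_comp f (τ i k) (hτ i k)]
        exact hμ)
      have h2 : (((K.erase r).image g).card : ℝ) ≤ E := h1.trans hE
      have h3 : ((K.erase r).image g).card ≤ E := by exact_mod_cast h2
      omega
    obtain ⟨k, hk, k', hk', hne, he⟩ := Finset.exists_ne_map_eq_of_card_lt_of_maps_to hc
      (fun i hi => Finset.mem_image_of_mem g hi)
    obtain ⟨hkr, hkK⟩ := Finset.mem_erase.1 hk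
    obtain ⟨hkr', hkK'⟩ := Finset.mem_erase.1 hk'
    have hki : k ≠ i := fun h => hiK (h ▸ hkK)
    have hki' : k' ≠ i := fun h => hiK (h ▸ hkK')
    have h1 := DFunLike.congr_fun he (z k r)
    rw [hg] at h1
    simp only [MonoidHom.comp_apply] at h1
    change μ (τ i k (z k r)) = μ (τ i k' (z k r)) at h1
    rw [hτ1 i k r hki.symm hri hkr.symm, hτ2 i k' k r hki hne hri hkr'.symm, ← hz i r k,
      map_mul] at h1
    have h2 : μ (z i k) = 1 := mul_eq_right.1 h1
    rw [hK, Finset.mem_filter] at hkK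
    exact hkK.2 h2
  obtain ⟨k, hk⟩ : ∃ k : ι, k ∉ ((Finset.univ : Finset ι).filter fun k => μ (z i k) ≠ 1) ∪
      ((Finset.univ : Finset ι).filter fun k => μ (z j k) ≠ 1) := by
    by_contra hcon
    push Not at hcon
    have h1 : (Finset.univ : Finset ι) ⊆ ((Finset.univ : Finset ι).filter fun k => μ (z i k) ≠ 1) ∪
      ((Finset.univ : Finset ι).filter fun k => μ (z j k) ≠ 1) := fun k _ => hcon k
    have h2 := Finset.card_le_card h1
    have h3 := Finset.card_union_le ((Finset.univ : Finset ι).filter fun k => μ (z i k) ≠ 1)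
      ((Finset.univ : Finset ι).filter fun k => μ (z j k) ≠ 1)
    have h4 := key i
    have h5 := key j
    rw [Finset.card_univ] at h2
    omega
  rw [Finset.mem_union, not_or, Finset.mem_filter, Finset.mem_filter] at hk
  have hk1 : μ (z i k) = 1 := by
    by_contra h
    exact hk.1 ⟨Finset.mem_univ _, h⟩
  have hk2 : μ (z j k) = 1 := by
    by_contra h
    exact hk.2 ⟨Finset.mem_univ _, h⟩
  have h1 := hz i k j
  rw [← h1, map_mul, hk2, mul_one] at hk1
  exact hk1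

end abelian

end Pool.Agent.TH820.LG
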