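import Mathlib
import Pool.Agent.TH820.LG.C

/-! # Bounded symmetric virtual characters of powers of a finite group -/

set_option autoImplicit false
set_option linter.unusedSectionVars false

namespace Pool.Agent.TH820.LG

open Pool.Agent.H541R3.ART Pool.Agent.W446.AS ComplexConjugate
open Pool.Agent.H302R5 (push)

lemma card_bessel {Ω κ : Type*} [Fintype Ω] (S : Finset κ) (φ : κ → Ω → ℂ)
    (f : Ω → ℂ) (M : ℝ) (hM : 0 < M) (hM' : (Fintype.card Ω : ℝ) = M) {N : ℝ}
    (hN : ∀ w, ‖f w‖ ≤ N)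
    (h : ∀ i ∈ S, ∑ w, φ i w * conj (φ i w) = (M : ℂ))
    (h' : ∀ i ∈ S, ∀ j ∈ S, i ≠ j → ∑ w, φ i w * conj (φ j w) = 0)
    (h2 : ∀ i ∈ S, M ≤ ‖∑ w, f w * conj (φ i w)‖) : (S.card : ℝ) ≤ N ^ 2 := by
  classical
  have h1 := bessel S φ f M hM (by
    intro i hi j hj
    split_ifs with hij
    · subst hij
      exact h i hi
    · exact h' i hi j hj hij)
  have h3 : ∑ i ∈ S, M ^ 2 ≤ ∑ i ∈ S, ‖∑ w, f w * conj (φ i w)‖ ^ 2 :=
    Finset.sum_le_sum fun i hi => pow_le_pow_left₀ hM.le (h2 i hi) 2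
  rw [Finset.sum_const, nsmul_eq_mul] at h3
  have h4 : ∑ y, ‖f y‖ ^ 2 ≤ M * N ^ 2 := by
    have : ∑ y, ‖f y‖ ^ 2 ≤ ∑ _y : Ω, N ^ 2 :=
      Finset.sum_le_sum fun y _ => pow_le_pow_left₀ (norm_nonneg _) (hN y) 2
    rw [Finset.sum_const, nsmul_eq_mul, Finset.card_univ, hM'] at this
    exact this
  have h5 : (S.card : ℝ) * M ^ 2 ≤ M * (M * N ^ 2) :=
    h3.trans (h1.trans (mul_le_mul_of_nonneg_left h4 hM.le))
  have h6 : 0 ≤ M ^ 2 * (N ^ 2 - S.card) := by nlinarith
  have h7 := nonneg_of_mul_nonneg_right h6 (by positivity)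
  linarith

section power
variable {H : Type} [Group H] [Finite H]

/-- irreducible characters of degree one -/
lemma irr_one {χ : H → ℂ} (hχ : χ ∈ Irr H) (h1 : χ 1 = 1) :
    ∃ ψ : H →* ℂˣ, ∀ h, χ h = ((ψ h : ℂˣ) : ℂ) := by
  obtain ⟨n, ρ, -, rfl⟩ := hχ
  rw [Representation.char_one, Module.finrank_fin_fun] at h1
  have hn : n = 1 := by exact_mod_cast h1
  subst hn
  refine ⟨MonoidHom.toHomUnits ((LinearMap.det : ((Fin 1 → ℂ) →ₗ[ℂ] (Fin 1 → ℂ)) →* ℂ).comp ρ),
    fun h => ?_⟩
  rw [MonoidHom.coe_toHomUnits]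
  change LinearMap.trace ℂ _ (ρ h) = LinearMap.det (ρ h)
  rw [LinearMap.trace_eq_matrix_trace ℂ (Pi.basisFun ℂ (Fin 1)),
    ← LinearMap.det_toMatrix (Pi.basisFun ℂ (Fin 1)), Matrix.det_fin_one, Matrix.trace]
  simp

/-- the regular representation -/
def regRep (H : Type) [Group H] : Representation ℂ H (H → ℂ) where
  toFun g := { toFun := fun f x => f (g⁻¹ * x), map_add' := fun _ _ => rfl,
               map_smul' := fun _ _ => rfl }
  map_one' := by
    ext f x
    simp
  map_mul' a b := by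
    refine LinearMap.ext fun f => funext fun x => ?_
    change f ((a * b)⁻¹ * x) = f (b⁻¹ * (a⁻¹ * x))
    rw [mul_inv_rev, mul_assoc]

lemma reg_virt [DecidableEq H] : Virt (fun h : H => if h = 1 then (Nat.card H : ℂ) else 0) := by
  classical
  have : Fintype H := Fintype.ofFinite H
  have h := virt_char (regRep H)
  convert h using 1
  funext g
  change _ = LinearMap.trace ℂ _ (regRep H g)
  rw [LinearMap.trace_eq_matrix_trace ℂ (Pi.basisFun ℂ H), Matrix.trace]
  have h1 : ∀ x : H, (LinearMap.toMatrix (Pi.basisFun ℂ H) (Pi.basisFun ℂ H) (regRep H g)).diag x =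
      if g = 1 then (1 : ℂ) else 0 := by
    intro x
    rw [Matrix.diag_apply, LinearMap.toMatrix_apply, Pi.basisFun_repr, Pi.basisFun_apply]
    change (Pi.single x 1 : H → ℂ) (g⁻¹ * x) = _
    rw [Pi.single_apply]
    have e : (g⁻¹ * x = x) ↔ g = 1 := by
      constructor
      · intro h
        have := mul_eq_right.1 h
        simpa using this
      · rintro rfl
        simp
    simp only [e]
  simp only [h1]
  rw [Finset.sum_const, Finset.card_univ, nsmul_eq_mul, mul_ite, mul_one, mul_zero,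
    Nat.card_eq_fintype_card]

lemma reg_expand [DecidableEq H] (h : H) :
    ∑ χ ∈ irrF H, χ 1 * χ h = if h = 1 then (Nat.card H : ℂ) else 0 := by
  classical
  have : Fintype H := Fintype.ofFinite H
  have h1 := Virt.expand (reg_virt (H := H)) h
  rw [h1]
  refine Finset.sum_congr rfl fun χ hχ => ?_
  congr 1
  rw [pr_eq]
  simp only [ite_mul, zero_mul, Finset.sum_ite_eq', Finset.mem_univ, if_true, inv_one]
  rw [← mul_assoc, inv_mul_cancel₀ card_ne, one_mul]

variable {ι : Type} [Fintype ι] [DecidableEq ι]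

/-- coefficients of products -/
noncomputable def cP [Fintype H] (F : (ι → H) → ℂ) (p : ι → H → ℂ) : ℂ :=
  ∑ b, F b * ∏ i, p i (b i)⁻¹

variable [Fintype H]

lemma prod_virt (s : Finset ι) (p : ι → H → ℂ) (hp : ∀ i, p i ∈ Irr H) :
    Virt (fun b : ι → H => ∏ i ∈ s, p i (b i)⁻¹) := by
  classical
  induction s using Finset.induction_on with
  | empty =>
    simp only [Finset.prod_empty]
    have := virt_lin (1 : (ι → H) →* ℂˣ)
    simpa using this
  | insert a s ha ih =>
    simp only [Finset.prod_insert ha]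
    have h1 : Virt (p a) := AddSubgroup.subset_closure (hp a)
    have h2 : Virt (fun b : ι → H => p a (b a)⁻¹) :=
      (virt_inv h1).comp (Pi.evalMonoidHom (fun _ : ι => H) a)
    exact virt_mul h2 ih

lemma cP_int {F : (ι → H) → ℂ} (hF : Virt F) {p : ι → H → ℂ} (hp : ∀ i, p i ∈ Irr H) :
    ∃ k : ℤ, cP F p = k * Nat.card (ι → H) :=
  mean_int (virt_mul hF (prod_virt Finset.univ p hp))

lemma irr_conj_val {χ : H → ℂ} (hχ : χ ∈ Irr H) (h : H) : χ h⁻¹ = conj (χ h) :=
  inv_conj (AddSubgroup.subset_closure hχ) h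

lemma prod_ortho {p q : ι → H → ℂ} (hp : ∀ i, p i ∈ Irr H)
    (hq : ∀ i, q i ∈ Irr H) :
    (p = q → ∑ b : ι → H, (∏ i, p i (b i)) * conj (∏ i, q i (b i)) =
      ((Nat.card (ι → H) : ℝ) : ℂ)) ∧
    (p ≠ q → ∑ b : ι → H, (∏ i, p i (b i)) * conj (∏ i, q i (b i)) = 0) := by
  classical
  have h1 : ∀ b : ι → H, (∏ i, p i (b i)) * conj (∏ i, q i (b i)) =
      ∏ i, p i (b i) * q i (b i)⁻¹ := by
    intro b
    rw [map_prod, ← Finset.prod_mul_distrib]
    exact Finset.prod_congr rfl fun i _ => by rw [irr_conj_val (hq i)]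
  simp only [h1]
  have h2 : ∑ b : ι → H, ∏ i, p i (b i) * q i (b i)⁻¹ = ∏ i, ∑ h, p i h * q i h⁻¹ := by
    rw [Finset.prod_univ_sum, Fintype.piFinset_univ]
  rw [h2]
  refine ⟨fun h => ?_, fun h => ?_⟩
  · subst h
    have h3 : ∀ i, ∑ h, p i h * p i h⁻¹ = (Nat.card H : ℂ) := fun i => pair_self (hp i)
    simp only [h3]
    rw [Finset.prod_const, Finset.card_univ, Nat.card_eq_fintype_card (α := ι → H),
      Fintype.card_fun, Nat.card_eq_fintype_card]
    push_cast
    rfl
  · obtain ⟨i, hi⟩ : ∃ i, p i ≠ q i := by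
      by_contra hcon
      push Not at hcon
      exact h (funext hcon)
    exact Finset.prod_eq_zero (Finset.mem_univ i) (pair_ne (hp i) (hq i) hi)

lemma card_suppP {F : (ι → H) → ℂ} (hF : Virt F) {N : ℝ} (hN : ∀ b, ‖F b‖ ≤ N)
    (S : Finset (ι → H → ℂ)) (hS0 : ∀ p ∈ S, ∀ i, p i ∈ Irr H) (hS : ∀ p ∈ S, cP F p ≠ 0) :
    (S.card : ℝ) ≤ N ^ 2 := by
  have hY : (0 : ℝ) < Nat.card (ι → H) := by exact_mod_cast Nat.card_pos
  have hY2 : (Fintype.card (ι → H) : ℝ) = Nat.card (ι → H) := by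
    rw [Nat.card_eq_fintype_card]
  have h0 : ∀ p ∈ S, (Nat.card (ι → H) : ℝ) ≤ ‖∑ b, F b * conj (∏ i, p i (b i))‖ := by
    intro p hp
    obtain ⟨k, hk⟩ := cP_int hF (hS0 p hp)
    have h3 : ∑ b, F b * conj (∏ i, p i (b i)) = cP F p := by
      unfold cP
      refine Finset.sum_congr rfl fun b _ => ?_
      rw [map_prod]
      congr 1
      exact Finset.prod_congr rfl fun i _ => by rw [irr_conj_val (hS0 p hp i)]
    have hk0 : k ≠ 0 := by
      rintro rfl
      exact hS p hp (by rw [hk]; simp)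
    have h4 : (1 : ℝ) ≤ |(k : ℝ)| := by
      exact_mod_cast Int.one_le_abs hk0
    rw [h3, hk, norm_mul, Complex.norm_intCast, Complex.norm_natCast]
    nlinarith
  have h5 : ∀ p ∈ S, ∑ b : ι → H, (∏ i, p i (b i)) * conj (∏ i, p i (b i)) =
      ((Nat.card (ι → H) : ℝ) : ℂ) := fun p hp => (prod_ortho (hS0 p hp) (hS0 p hp)).1 rfl
  have h6 : ∀ p ∈ S, ∀ q ∈ S, p ≠ q →
      ∑ b : ι → H, (∏ i, p i (b i)) * conj (∏ i, q i (b i)) = 0 :=
    fun p hp q hq => (prod_ortho (hS0 p hp) (hS0 q hq)).2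
  exact card_bessel (Ω := ι → H) (κ := ι → H → ℂ) S (fun p b => ∏ i, p i (b i)) F
    (Nat.card (ι → H) : ℝ) hY hY2 hN h5 h6 h0

lemma cP_sym (F : (ι → H) → ℂ) (hs : ∀ (σ : Equiv.Perm ι) b, F (b ∘ σ) = F b)
    (σ : Equiv.Perm ι) (p : ι → H → ℂ) : cP F (p ∘ σ) = cP F p := by
  classical
  unfold cP
  conv_rhs => rw [← Equiv.sum_comp (Equiv.arrowCongr σ (Equiv.refl H))]
  refine Finset.sum_congr rfl fun b _ => ?_
  have e1 : (Equiv.arrowCongr σ (Equiv.refl H)) b = b ∘ σ.symm := rfl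
  rw [e1, hs]
  congr 1
  conv_rhs => rw [← Equiv.prod_comp σ]
  refine Finset.prod_congr rfl fun i _ => ?_
  simp

/-- nonconstant tuples have coefficient zero -/
lemma cP_const {F : (ι → H) → ℂ} (hF : Virt F) {N : ℝ} (hN : ∀ b, ‖F b‖ ≤ N)
    (hs : ∀ (σ : Equiv.Perm ι) b, F (b ∘ σ) = F b) {E : ℕ} (hE : N ^ 2 ≤ E)
    (hι : 2 * E < Fintype.card ι) {p : ι → H → ℂ} (hp : ∀ i, p i ∈ Irr H) (h0 : cP F p ≠ 0)
    (i j : ι) : p i = p j := by
  classical
  have key : ∀ i : ι, ((Finset.univ : Finset ι).filter fun k => p k ≠ p i).card ≤ E := by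
    intro i
    set K := (Finset.univ : Finset ι).filter fun k => p k ≠ p i with hK
    have hinj : Set.InjOn (fun k => p ∘ Equiv.swap i k) K := by
      intro k hk k' hk' he
      by_contra hne
      have h1 : (p ∘ Equiv.swap i k) k = (p ∘ Equiv.swap i k') k := congrFun he k
      simp only [Function.comp_apply, Equiv.swap_apply_right] at h1
      have hk1 : p k ≠ p i := (Finset.mem_filter.1 hk).2
      have hki : k ≠ i := fun h => hk1 (by rw [h])
      rw [Equiv.swap_apply_of_ne_of_ne hki hne] at h1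
      exact hk1 h1.symm
    have h1 := card_suppP hF hN (K.image fun k => p ∘ Equiv.swap i k) (by
      intro q hq j
      obtain ⟨k, -, rfl⟩ := Finset.mem_image.1 hq
      exact hp _) (by
      intro q hq
      obtain ⟨k, -, rfl⟩ := Finset.mem_image.1 hq
      rw [cP_sym F hs]
      exact h0)
    rw [Finset.card_image_of_injOn hinj] at h1
    exact_mod_cast h1.trans hE
  obtain ⟨k, hk⟩ : ∃ k : ι, k ∉ ((Finset.univ : Finset ι).filter fun k => p k ≠ p i) ∪
      ((Finset.univ : Finset ι).filter fun k => p k ≠ p j) := by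
    by_contra hcon
    push Not at hcon
    have h1 : (Finset.univ : Finset ι) ⊆ ((Finset.univ : Finset ι).filter fun k => p k ≠ p i) ∪
      ((Finset.univ : Finset ι).filter fun k => p k ≠ p j) := fun k _ => hcon k
    have h2 := Finset.card_le_card h1
    have h3 := Finset.card_union_le ((Finset.univ : Finset ι).filter fun k => p k ≠ p i)
      ((Finset.univ : Finset ι).filter fun k => p k ≠ p j)
    have h4 := key i
    have h5 := key j
    rw [Finset.card_univ] at h2
    omega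
  rw [Finset.mem_union, not_or, Finset.mem_filter, Finset.mem_filter] at hk
  have hk1 : p k = p i := by
    by_contra h
    exact hk.1 ⟨Finset.mem_univ _, h⟩
  have hk2 : p k = p j := by
    by_contra h
    exact hk.2 ⟨Finset.mem_univ _, h⟩
  rw [← hk1, hk2]

/-- the coefficient of the restriction to one factor -/
lemma pr_single (F : (ι → H) → ℂ) (i₀ : ι) {χ : H → ℂ} (hχ : χ ∈ Irr H)
    (hc : ∀ p : ι → H → ℂ, (∀ i, p i ∈ Irr H) → cP F p ≠ 0 → ∀ i j, p i = p j) :
    (∑ h, F (Pi.mulSingle i₀ h) * χ h⁻¹) * (Nat.card H : ℂ) ^ (Fintype.card ι - 1) =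
      (χ 1) ^ (Fintype.card ι - 1) * cP F (fun _ => χ) := by
  classical
  set t : ι → Finset (H → ℂ) := fun i => if i = i₀ then {χ} else irrF H with ht
  set w : ι → (H → ℂ) → ℂ := fun i ψ => if i = i₀ then 1 else ψ 1 with hw
  set g : ι → H → ℂ := fun i h => ∑ ψ ∈ t i, w i ψ * ψ h⁻¹ with hg
  have hg0 : ∀ h, g i₀ h = χ h⁻¹ := by
    intro h
    simp only [hg, ht, hw, if_true, Finset.sum_singleton, one_mul]
  have hg1 : ∀ i, i ≠ i₀ → ∀ h, g i h = if h = 1 then (Nat.card H : ℂ) else 0 := by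
    intro i hi h
    simp only [hg, ht, hw, if_neg hi]
    rw [reg_expand]
    simp only [inv_eq_one]
  have hL : ∑ b, F b * ∏ i, g i (b i) =
      (∑ h, F (Pi.mulSingle i₀ h) * χ h⁻¹) * (Nat.card H : ℂ) ^ (Fintype.card ι - 1) := by
    have hinj : Function.Injective (fun h : H => (Pi.mulSingle i₀ h : ι → H)) := by
      intro a b hab
      have := congrFun hab i₀
      simpa using this
    have h1 : ∑ b, F b * ∏ i, g i (b i) =
        ∑ b ∈ (Finset.univ : Finset H).image (fun h : H => (Pi.mulSingle i₀ h : ι → H)),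
          F b * ∏ i, g i (b i) := by
      symm
      refine Finset.sum_subset (Finset.subset_univ _) fun b _ hb => ?_
      obtain ⟨i, hi, hbi⟩ : ∃ i, i ≠ i₀ ∧ b i ≠ 1 := by
        by_contra hcon
        push Not at hcon
        apply hb
        rw [Finset.mem_image]
        refine ⟨b i₀, Finset.mem_univ _, ?_⟩
        funext i
        by_cases h : i = i₀
        · subst h
          simp
        · rw [hcon i h]
          exact Pi.mulSingle_eq_of_ne h _
      rw [Finset.prod_eq_zero (Finset.mem_univ i), mul_zero]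
      rw [hg1 i hi, if_neg hbi]
    rw [h1, Finset.sum_image (fun _ _ _ _ h => hinj h), Finset.sum_mul]
    refine Finset.sum_congr rfl fun h _ => ?_
    rw [mul_assoc]
    congr 1
    rw [Fintype.prod_eq_mul_prod_compl i₀, hg0, Pi.mulSingle_eq_same]
    congr 1
    have h2 : ∀ i ∈ ({i₀}ᶜ : Finset ι), g i ((Pi.mulSingle i₀ h : ι → H) i) = (Nat.card H : ℂ) := by
      intro i hi
      have hi' : i ≠ i₀ := by simpa using hi
      rw [hg1 i hi', Pi.mulSingle_eq_of_ne hi', if_pos rfl]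
    rw [Finset.prod_congr rfl h2, Finset.prod_const, Finset.card_compl, Finset.card_singleton]
  have hR : ∑ b, F b * ∏ i, g i (b i) =
      ∑ p ∈ Fintype.piFinset t, (∏ i, w i (p i)) * cP F p := by
    have h1 : ∀ b : ι → H, F b * ∏ i, g i (b i) =
        ∑ p ∈ Fintype.piFinset t, (∏ i, w i (p i)) * (F b * ∏ i, p i (b i)⁻¹) := by
      intro b
      simp only [hg]
      rw [Finset.prod_univ_sum, Finset.mul_sum]
      refine Finset.sum_congr rfl fun p _ => ?_
      rw [Finset.prod_mul_distrib]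
      ring
    simp only [h1]
    rw [Finset.sum_comm]
    refine Finset.sum_congr rfl fun p _ => ?_
    rw [← Finset.mul_sum]
    rfl
  rw [← hL, hR]
  rw [Finset.sum_eq_single (fun _ => χ)]
  · congr 1
    rw [Fintype.prod_eq_mul_prod_compl i₀]
    have h2 : ∀ i ∈ ({i₀}ᶜ : Finset ι), w i χ = χ 1 := by
      intro i hi
      have hi' : i ≠ i₀ := by simpa using hi
      simp only [hw, if_neg hi']
    rw [Finset.prod_congr rfl h2, Finset.prod_const, Finset.card_compl, Finset.card_singleton]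
    simp [hw]
  · intro p hp hne
    rw [Fintype.mem_piFinset] at hp
    have hpI : ∀ i, p i ∈ Irr H := by
      intro i
      have := hp i
      simp only [ht] at this
      split_ifs at this with h
      · rw [Finset.mem_singleton.1 this]; exact hχ
      · exact mem_irrF.1 this
    have hp0 : p i₀ = χ := by
      have := hp i₀
      simp only [ht, if_true, Finset.mem_singleton] at this
      exact this
    by_contra hcon
    have h3 := hc p hpI (right_ne_zero_of_mul hcon)
    exact hne (funext fun i => by rw [h3 i i₀, hp0])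
  · intro h
    exfalso
    apply h
    rw [Fintype.mem_piFinset]
    intro i
    simp only [ht]
    split_ifs
    · simp
    · exact mem_irrF.2 hχ

/-- **Powers.** A bounded virtual character of a power of a finite group which is invariant under
all permutations of the factors depends, on one factor, only on the linear characters. -/
theorem power_lin {F : (ι → H) → ℂ} (hF : Virt F) {N : ℝ} (hN : ∀ b, ‖F b‖ ≤ N)
    (hs : ∀ (σ : Equiv.Perm ι) b, F (b ∘ σ) = F b) {E : ℕ} (hE : N ^ 2 ≤ E)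
    (hι : 2 * E < Fintype.card ι) (hι2 : N < 2 ^ (Fintype.card ι - 1)) (i₀ : ι) {h h' : H}
    (hh : ∀ ψ : H →* ℂˣ, ψ h = ψ h') : F (Pi.mulSingle i₀ h) = F (Pi.mulSingle i₀ h') := by
  classical
  have hH : (0 : ℝ) < Nat.card H := by exact_mod_cast Nat.card_pos
  have hHc : (Nat.card H : ℂ) ≠ 0 := by exact_mod_cast Nat.card_pos.ne'
  have hN0 : 0 ≤ N := (norm_nonneg _).trans (hN 1)
  have hf : Virt (fun h : H => F (Pi.mulSingle i₀ h)) :=
    hF.comp (MonoidHom.mulSingle (fun _ : ι => H) i₀)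
  rw [Virt.expand hf h, Virt.expand hf h']
  refine Finset.sum_congr rfl fun χ hχF => ?_
  have hχ : χ ∈ Irr H := mem_irrF.1 hχF
  by_cases hm : pr (fun h : H => F (Pi.mulSingle i₀ h)) χ = 0
  · rw [hm, zero_mul, zero_mul]
  congr 1
  obtain ⟨d, hd0, hd⟩ := irr_deg_pos hχ
  have h1 := pr_single F i₀ hχ (fun p hp h0 => cP_const hF hN hs hE hι hp h0)
  obtain ⟨k, hk⟩ := cP_int hF (p := fun _ => χ) (fun _ => hχ)
  have h2 : pr (fun h : H => F (Pi.mulSingle i₀ h)) χ = (d : ℂ) ^ (Fintype.card ι - 1) * k := by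
    rw [sum_eq_pr, hk, hd] at h1
    have h3 : Nat.card (ι → H) = Nat.card H * Nat.card H ^ (Fintype.card ι - 1) := by
      rw [Nat.card_eq_fintype_card, Fintype.card_fun, ← Nat.card_eq_fintype_card (α := H),
        ← pow_succ']
      congr 1
      omega
    rw [h3] at h1
    push_cast at h1
    have h4 : (Nat.card H : ℂ) * (Nat.card H : ℂ) ^ (Fintype.card ι - 1) ≠ 0 :=
      mul_ne_zero hHc (pow_ne_zero _ hHc)
    apply mul_right_cancel₀ h4
    linear_combination h1
  have hk0 : k ≠ 0 := by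
    rintro rfl
    apply hm
    rw [h2]
    simp
  have h3 : ‖pr (fun h : H => F (Pi.mulSingle i₀ h)) χ‖ ≤ N := by
    have h4 := bessel {χ} (fun (ψ : H → ℂ) h => ψ h) (fun h : H => F (Pi.mulSingle i₀ h))
      (Nat.card H) hH (by
        intro a ha b hb
        rw [Finset.mem_singleton] at ha hb
        subst ha
        subst hb
        rw [if_pos rfl]
        rw [Complex.ofReal_natCast, ← pair_self hχ]
        exact Finset.sum_congr rfl fun h _ => by rw [irr_conj_val hχ])
    rw [Finset.sum_singleton] at h4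
    have h5 : ∑ h, F (Pi.mulSingle i₀ h) * conj (χ h) =
        pr (fun h : H => F (Pi.mulSingle i₀ h)) χ * Nat.card H := by
      rw [← sum_eq_pr]
      exact Finset.sum_congr rfl fun h _ => by rw [irr_conj_val hχ]
    rw [h5, norm_mul, Complex.norm_natCast, mul_pow] at h4
    have h6 : ∑ h : H, ‖F (Pi.mulSingle i₀ h)‖ ^ 2 ≤ Nat.card H * N ^ 2 := by
      have : ∑ h : H, ‖F (Pi.mulSingle i₀ h)‖ ^ 2 ≤ ∑ _y : H, N ^ 2 :=
        Finset.sum_le_sum fun y _ => pow_le_pow_left₀ (norm_nonneg _) (hN _) 2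
      rw [Finset.sum_const, nsmul_eq_mul, Finset.card_univ, ← Nat.card_eq_fintype_card] at this
      exact this
    have h7 : ‖pr (fun h : H => F (Pi.mulSingle i₀ h)) χ‖ ^ 2 * (Nat.card H : ℝ) ^ 2 ≤
        N ^ 2 * (Nat.card H : ℝ) ^ 2 := by
      refine h4.trans ((mul_le_mul_of_nonneg_left h6 hH.le).trans ?_)
      apply le_of_eq
      ring
    have h8 := le_of_mul_le_mul_right h7 (by positivity)
    exact (pow_le_pow_iff_left₀ (norm_nonneg _) hN0 two_ne_zero).1 h8
  have hd1 : d = 1 := by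
    by_contra hne
    have hd2 : 2 ≤ d := by omega
    rw [h2, norm_mul, norm_pow, Complex.norm_natCast, Complex.norm_intCast] at h3
    have h4 : (1 : ℝ) ≤ |(k : ℝ)| := by
      exact_mod_cast Int.one_le_abs hk0
    have h5 : (2 : ℝ) ^ (Fintype.card ι - 1) ≤ (d : ℝ) ^ (Fintype.card ι - 1) :=
      pow_le_pow_left₀ (by norm_num) (by exact_mod_cast hd2) _
    have h6 : (2 : ℝ) ^ (Fintype.card ι - 1) ≤ N := by
      refine le_trans ?_ h3
      refine h5.trans ?_
      have h7 : (0 : ℝ) ≤ (d : ℝ) ^ (Fintype.card ι - 1) := by positivity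
      nlinarith
    linarith
  obtain ⟨ψ, hψ⟩ := irr_one hχ (by rw [hd, hd1]; simp)
  rw [hψ, hψ, hh]

end power

end Pool.Agent.TH820.LG
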