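import Pool.Agent.TH526.DS.CamDefs

/-!
# Extensions with a large linear group: definitions

`K` is a number field, `M ⊆ F` are finite Galois extensions of `K`.
-/

set_option autoImplicit false

namespace Pool.Agent.TH820.LG

open NumberField IsDedekindDomain Filter Topology Polynomial
open Pool.Agent.W353.EH (edgePoint size HasOrder)
open Pool.Agent.W353.TD (rank Defect)
open Pool.Agent.W353.AT (IsTwistedSystem TwistOrder TwistDefect twistRank)
open Pool.Agent.TH526.DS (IsNew)

/-- For a homomorphism `f` of `SL_n(k)` to a group `Q` and `x ∈ Q`: there is `a ∈ GL_n(k)` with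
`x f(s) x⁻¹ = f(a s a⁻¹)` for all `s ∈ SL_n(k)`. -/
def ActsLinearly {n : ℕ} {k : Type} [Field k] {Q : Type} [Group Q]
    (f : Matrix.SpecialLinearGroup (Fin n) k →* Q) (x : Q) : Prop :=
  ∃ a : GL (Fin n) k, ∀ s t : Matrix.SpecialLinearGroup (Fin n) k,
    (a : Matrix (Fin n) (Fin n) k) * (s : Matrix (Fin n) (Fin n) k) =
      (t : Matrix (Fin n) (Fin n) k) * (a : Matrix (Fin n) (Fin n) k) → x * f s = f t * x

section
variable {K : Type} [Field K]

/-- `Gal(F/M)` is the image of a homomorphism `f` of `SL_n(k)` to `Gal(F/K)`, and every element of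
`Gal(F/K)` acts on it as an element of `GL_n(k)`. -/
def IsLinearOver (k : Type) [Field k] (n : ℕ) (M F : IntermediateField K (AlgebraicClosure K)) :
    Prop :=
  ∃ f : Matrix.SpecialLinearGroup (Fin n) k →* Gal(F/K),
    (∀ σ : Gal(F/K), (∃ s, f s = σ) ↔ ∀ x : F, (x : AlgebraicClosure K) ∈ M → σ x = x) ∧
    ∀ σ : Gal(F/K), ActsLinearly f σ

/-- `Gal(F/M)` is a quotient of `SL_n(k)` for a finite field `k`, on which every element of `Gal(F/K)`
acts as an element of `GL_n(k)`: there is a homomorphism `f` of `SL_n(k)` onto `Gal(F/M)`, and for every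
`σ ∈ Gal(F/K)` there is `a ∈ GL_n(k)` with `σ f(s) σ⁻¹ = f(a s a⁻¹)` for all `s ∈ SL_n(k)`. -/
def IsLinearPair (n : ℕ) (M F : IntermediateField K (AlgebraicClosure K)) : Prop :=
  ∃ (k : Type) (_ : Field k) (_ : Finite k), IsLinearOver k n M F

end

section
variable {K : Type} [Field K] [NumberField K] {l : ℕ}

/-- For every irreducible representation `χ` of `Gal(F/K)` that is not trivial on `Gal(F/M)`,
`L(H^i(X) ⊗ χ, s)` has a meromorphic continuation to a neighbourhood of `i/2 + 1 + iτ`. -/
def NewContinued (X : Set (MvPolynomial (Fin l) (𝓞 K))) (d i N : ℕ)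
    (M F : IntermediateField K (AlgebraicClosure K)) (τ : ℝ) : Prop :=
  ∀ (r : ℕ) (χ : Representation ℂ Gal(AlgebraicClosure K/K) (Fin r → ℂ)), IsNew M F χ →
    ∃ k : ℤ, TwistOrder X d i N χ τ k

/-- For every irreducible representation `χ` of `Gal(F/K)` that is not trivial on `Gal(F/M)`, every
meromorphic continuation of `L(H^i(X) ⊗ χ, s)` to a neighbourhood of `i/2 + 1 + iτ` has neither a zero
nor a pole at this point. -/
def NewRegular (X : Set (MvPolynomial (Fin l) (𝓞 K))) (d i N : ℕ)
    (M F : IntermediateField K (AlgebraicClosure K)) (τ : ℝ) : Prop :=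
  ∀ (r : ℕ) (χ : Representation ℂ Gal(AlgebraicClosure K/K) (Fin r → ℂ)), IsNew M F χ →
    ∀ k : ℤ, TwistOrder X d i N χ τ k → k = 0

/-- The difference between the values of `log |L(i/2 + 1 + iτ + ε)| / log(1/ε)` for `L(H^i(X_E), s)` and
`L(H^i(X_{E'}), s)` tends to `0` as `ε → 0+`, and the orders of these two functions at `i/2 + 1 + iτ`, if
they exist, are equal. -/
def SameEdge (X : Set (MvPolynomial (Fin l) (𝓞 K))) (d i N : ℕ) (τ : ℝ)
    (E E' : IntermediateField K (AlgebraicClosure K)) [NumberField E] [NumberField E'] : Prop :=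
  (∀ (B : HeightOneSpectrum (𝓞 E) → ℂ[X]) (B' : HeightOneSpectrum (𝓞 E') → ℂ[X]),
    W353.EH.IsEulerSystem X d i N τ B → W353.EH.IsEulerSystem X d i N τ B' →
    Tendsto (fun ε : ℝ => size i τ B ε - size i τ B' ε) (𝓝[>] 0) (𝓝 0)) ∧
  ∀ k k' : ℤ, W353.EH.OrderOver X d i N E τ k → W353.EH.OrderOver X d i N E' τ k' → k = k'

/-- Let `n ≥ n₀`, let `M ⊆ F` be finite Galois extensions of `K` such that `Gal(F/M)` is a quotient of
`SL_n(k)` on which `Gal(F/K)` acts through `GL_n(k)`, for a finite field `k`, and let `τ` be real.  Suppose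
that `L(H^i(X) ⊗ χ, s)` has a meromorphic continuation to a neighbourhood of `i/2 + 1 + iτ` for all
irreducible representations `χ` of `Gal(F/K)` that are not trivial on `Gal(F/M)`.
* All these functions have neither a zero nor a pole at `i/2 + 1 + iτ`.
* Let `E` be any field with `K ⊆ E ⊆ F`.  The difference between the values of
`log |L(i/2 + 1 + iτ + ε)| / log(1/ε)` for `L(H^i(X_E), s)` and `L(H^i(X_{E ∩ M}), s)` tends to `0` as
`ε → 0+`, and the orders of these two functions at `i/2 + 1 + iτ`, if they exist, are equal. -/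
def LinearOrders (X : Set (MvPolynomial (Fin l) (𝓞 K))) (d i N n₀ : ℕ) : Prop :=
  ∀ (n : ℕ) (M F : IntermediateField K (AlgebraicClosure K)) [NumberField M] [NumberField F]
    (τ : ℝ), n₀ ≤ n → IsGalois K M → IsGalois K F → M ≤ F → IsLinearPair n M F →
    NewContinued X d i N M F τ →
    NewRegular X d i N M F τ ∧
    ∀ (E : IntermediateField K (AlgebraicClosure K)) [NumberField E] [NumberField ↥(E ⊓ M)],
      E ≤ F → SameEdge X d i N τ E (E ⊓ M)

/-- For every irreducible representation `χ` of `Gal(F/K)` that is not trivial on `Gal(F/M)`, the defect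
of `χ` exists. -/
def NewDefects (X : Set (MvPolynomial (Fin l) (𝓞 K))) (d m N : ℕ) {V : Type}
    [AddCommGroup V] [Module ℚ V] (ρ : Representation ℚ Gal(AlgebraicClosure K/K) V)
    (M F : IntermediateField K (AlgebraicClosure K)) : Prop :=
  ∀ (r : ℕ) (χ : Representation ℂ Gal(AlgebraicClosure K/K) (Fin r → ℂ)), IsNew M F χ →
    ∃ δ : ℤ, TwistDefect X d m N ρ χ δ

/-- For every irreducible representation `χ` of `Gal(F/K)` that is not trivial on `Gal(F/M)`, the defect
of `χ`, if it exists, is `0`. -/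
def NewDefectsZero (X : Set (MvPolynomial (Fin l) (𝓞 K))) (d m N : ℕ) {V : Type}
    [AddCommGroup V] [Module ℚ V] (ρ : Representation ℚ Gal(AlgebraicClosure K/K) V)
    (M F : IntermediateField K (AlgebraicClosure K)) : Prop :=
  ∀ (r : ℕ) (χ : Representation ℂ Gal(AlgebraicClosure K/K) (Fin r → ℂ)), IsNew M F χ →
    ∀ δ : ℤ, TwistDefect X d m N ρ χ δ → δ = 0

/-- The difference between the values of `log |L(m + 1 + ε)| / log(1/ε) - rank` for `L(H^{2m}(X_E), s)`
and `L(H^{2m}(X_{E'}), s)` tends to `0` as `ε → 0+`, and the defects over `E` and over `E'`, if they exist,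
are equal. -/
def SameDefects (X : Set (MvPolynomial (Fin l) (𝓞 K))) (d m N : ℕ) {V : Type}
    [AddCommGroup V] [Module ℚ V] (ρ : Representation ℚ Gal(AlgebraicClosure K/K) V)
    (E E' : IntermediateField K (AlgebraicClosure K)) [NumberField E] [NumberField E'] : Prop :=
  (∀ (B : HeightOneSpectrum (𝓞 E) → ℂ[X]) (B' : HeightOneSpectrum (𝓞 E') → ℂ[X]),
    W353.EF.IsEulerSystem X d (2 * m) N B → W353.EF.IsEulerSystem X d (2 * m) N B' →
    Tendsto (fun ε : ℝ => (W353.EF.size (2 * m) B ε - rank ρ E) -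
      (W353.EF.size (2 * m) B' ε - rank ρ E')) (𝓝[>] 0) (𝓝 0)) ∧
  ∀ δ δ' : ℤ, Defect X d m N ρ E δ → Defect X d m N ρ E' δ' → δ = δ'

/-- Let `n ≥ n₀`, let `M ⊆ F` be finite Galois extensions of `K` such that `Gal(F/M)` is a quotient of
`SL_n(k)` on which `Gal(F/K)` acts through `GL_n(k)`, for a finite field `k`.  Suppose that the defect
exists for all irreducible representations `χ` of `Gal(F/K)` that are not trivial on `Gal(F/M)`.
* All these defects are zero.
* Let `E` be any field with `K ⊆ E ⊆ F`.  The difference between the values of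
`log |L(m + 1 + ε)| / log(1/ε) - rank` for `L(H^{2m}(X_E), s)` and `L(H^{2m}(X_{E ∩ M}), s)` tends to `0` as
`ε → 0+`, and the defects over `E` and over `E ∩ M`, if they exist, are equal. -/
def LinearDefects (X : Set (MvPolynomial (Fin l) (𝓞 K))) (d m N : ℕ) {V : Type}
    [AddCommGroup V] [Module ℚ V] (ρ : Representation ℚ Gal(AlgebraicClosure K/K) V)
    (n₀ : ℕ) : Prop :=
  ∀ (n : ℕ) (M F : IntermediateField K (AlgebraicClosure K)) [NumberField M] [NumberField F],
    n₀ ≤ n → IsGalois K M → IsGalois K F → M ≤ F → IsLinearPair n M F →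
    NewDefects X d m N ρ M F →
    NewDefectsZero X d m N ρ M F ∧
    ∀ (E : IntermediateField K (AlgebraicClosure K)) [NumberField E] [NumberField ↥(E ⊓ M)],
      E ≤ F → SameDefects X d m N ρ E (E ⊓ M)

end

end Pool.Agent.TH820.LG
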