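import Mathlib
import Pool.Agent.TH820.LG.D

/-! # Bounded virtual characters: the abstract setting -/

set_option autoImplicit false
set_option linter.unusedSectionVars false

namespace Pool.Agent.TH820.LG

open Pool.Agent.H541R3.ART Pool.Agent.W446.AS ComplexConjugate
open Pool.Agent.H302R5 (push)
open Equiv (Perm)

/-- `θ` is a virtual character bounded by `N` on every finite group mapping to the elements
whose image under `D` lies in `Δ`. -/
structure BV {Γ C : Type} [Group Γ] [CommGroup C] (D : Γ →* C) (Δ : Subgroup C) (N : ℝ)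
    (θ : Γ → ℂ) : Prop where
  virt : ∀ (B : Type) [Group B] [Finite B] (φ : B →* Γ), (∀ b, D (φ b) ∈ Δ) →
    Virt (fun b => θ (φ b))
  bdd : ∀ g, D g ∈ Δ → ‖θ g‖ ≤ N

section
variable {Γ C : Type} [Group Γ] [CommGroup C] {D : Γ →* C} {Δ : Subgroup C} {N : ℝ}
  {θ : Γ → ℂ}

lemma BV.mono (h : BV D Δ N θ) {M : ℝ} (hM : N ≤ M) : BV D Δ M θ :=
  ⟨h.virt, fun g hg => (h.bdd g hg).trans hM⟩

lemma BV.conj [Finite Γ] (h : BV D Δ N θ) {x g : Γ} (hx : D x ∈ Δ) (hg : D g ∈ Δ) :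
    θ (g * x * g⁻¹) = θ x := by
  have h1 := h.virt (Δ.comap D) (Δ.comap D).subtype (fun b => b.2)
  exact h1.conj ⟨x, hx⟩ ⟨g, hg⟩

lemma BV.conj' [Finite Γ] (h : BV D Δ N θ) {x g c : Γ} (hx : D x ∈ Δ) (hc : c * x = x * c)
    (hgc : D (g * c) ∈ Δ) : θ (g * x * g⁻¹) = θ x := by
  have h1 := h.conj hx hgc
  have h2 : g * c * x * (g * c)⁻¹ = g * x * g⁻¹ := by
    rw [mul_assoc g c x, hc, mul_inv_rev]
    group
  rwa [h2] at h1

/-- **Frobenius.** -/
theorem BV.frob (h : BV D Δ N θ) {E : ℕ} (hE : N ^ 2 ≤ E) {A Z : Type} [CommGroup A] [Finite A]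
    [CommGroup Z] [Finite Z] [Finite Γ] (φ : A →* Γ) (ζ : Z →* Γ)
    (hφζ : ∀ a z, φ a * ζ z = ζ z * φ a)
    (τ : A ≃* A) (g : Γ) (hg : ∀ a, g * φ a * g⁻¹ = φ (τ a)) (hgζ : ∀ z, g * ζ z = ζ z * g)
    (l : A) (hl : D (g * φ l) ∈ Δ) (w : A)
    (hw : ∀ d : ℕ, 1 ≤ d → d ≤ E → ∃ c : A, w = c⁻¹ * (τ ^ d : MulAut A) c ∧ D (φ c) ∈ Δ)
    (hE1 : 1 ≤ E) (a : A) (z : Z) (haz : D (φ a * ζ z) ∈ Δ) :
    θ (φ (a * w) * ζ z) = θ (φ a * ζ z) := by
  classical
  let Y : Subgroup (A × Z) := Δ.comap ((D.comp φ).coprod (D.comp ζ))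
  have hY : ∀ y : A × Z, y ∈ Y ↔ D (φ y.1) * D (ζ y.2) ∈ Δ := fun y => Iff.rfl
  have : Fintype Y := Fintype.ofFinite Y
  have hDτ : ∀ a, D (φ (τ a)) = D (φ a) := by
    intro a
    rw [← hg, map_mul, map_mul, map_inv, mul_comm (D g), mul_inv_cancel_right]
  let F : Y →* Γ := (MonoidHom.noncommCoprod φ ζ (fun a z => hφζ a z)).comp Y.subtype
  have hF : ∀ y : Y, F y = φ y.1.1 * ζ y.1.2 := fun y => rfl
  have hV : Virt (fun y : Y => θ (F y)) := h.virt Y F (fun y => by
    rw [hF, map_mul]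
    exact (hY y.1).1 y.2)
  let T : Y ≃* Y :=
    { toFun := fun y => ⟨(τ y.1.1, y.1.2), (hY _).2 (by
        rw [hDτ]
        exact (hY _).1 y.2)⟩
      invFun := fun y => ⟨(τ.symm y.1.1, y.1.2), (hY _).2 (by
        have h1 := hDτ (τ.symm y.1.1)
        rw [MulEquiv.apply_symm_apply] at h1
        rw [← h1]
        exact (hY _).1 y.2)⟩
      left_inv := fun y => by
        apply Subtype.ext
        apply Prod.ext
        · exact τ.symm_apply_apply _
        · rfl
      right_inv := fun y => by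
        apply Subtype.ext
        apply Prod.ext
        · exact τ.apply_symm_apply _
        · rfl
      map_mul' := fun x y => by
        apply Subtype.ext
        apply Prod.ext
        · exact map_mul τ _ _
        · rfl }
  have hT : ∀ y : Y, (T y).1 = (τ y.1.1, y.1.2) := fun y => rfl
  have hTd : ∀ (d : ℕ) (y : Y), ((T ^ d : MulAut Y) y).1 = ((τ ^ d : MulAut A) y.1.1, y.1.2) := by
    intro d y
    induction d with
    | zero => rfl
    | succ n ih =>
      have h1 : (T ^ (n + 1) : MulAut Y) y = T ((T ^ n : MulAut Y) y) := by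
        rw [pow_succ', MulAut.mul_apply]
      have h2 : (τ ^ (n + 1) : MulAut A) y.1.1 = τ ((τ ^ n : MulAut A) y.1.1) := by
        rw [pow_succ', MulAut.mul_apply]
      rw [h1, hT, ih, h2]
  obtain ⟨c1, hc1, hc1'⟩ := hw 1 le_rfl hE1
  have hw1 : (w, (1 : Z)) ∈ Y := by
    rw [hY]
    simp only [map_one, mul_one]
    rw [hc1, pow_one, map_mul, map_mul, map_inv, map_inv, hDτ, inv_mul_cancel]
    exact Δ.one_mem
  have haz' : (a, z) ∈ Y := by
    rw [hY, ← map_mul]
    exact haz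
  have hinv : ∀ y : Y, θ (F (T y)) = θ (F y) := by
    intro y
    have hx : D (F y) ∈ Δ := by
      rw [hF, map_mul]
      exact (hY y.1).1 y.2
    have hc : φ l * F y = F y * φ l := by
      rw [hF, ← mul_assoc, ← map_mul, mul_comm l, map_mul, mul_assoc, mul_assoc, hφζ]
    have h1 := h.conj' hx hc hl
    rw [← h1]
    congr 1
    rw [hF, hF, hT]
    simp only
    rw [← hg, mul_assoc (g * φ y.1.1)]
    have h2 : g⁻¹ * ζ y.1.2 = ζ y.1.2 * g⁻¹ := by
      rw [inv_mul_eq_iff_eq_mul, ← mul_assoc, hgζ, mul_inv_cancel_right]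
    rw [h2]
    group
  have h1 := frob_inv hV (fun y => h.bdd _ (by
    rw [hF, map_mul]
    exact (hY y.1).1 y.2)) hE T hinv ⟨(w, 1), hw1⟩ (by
      intro d hd1 hd2
      obtain ⟨c, hc, hc'⟩ := hw d hd1 hd2
      have hcY : (c, (1 : Z)) ∈ Y := by
        rw [hY]
        simp only [map_one, mul_one]
        exact hc'
      refine ⟨⟨(c, 1), hcY⟩, ?_⟩
      apply Subtype.ext
      apply Prod.ext
      · change w = c⁻¹ * ((T ^ d : MulAut Y) ⟨(c, 1), hcY⟩).1.1
        rw [hTd]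
        exact hc
      · change (1 : Z) = 1⁻¹ * ((T ^ d : MulAut Y) ⟨(c, 1), hcY⟩).1.2
        rw [hTd]
        simp) ⟨(a, z), haz'⟩
  rw [hF, hF] at h1
  simpa using h1

/-- **Permutations.** -/
theorem BV.sym (h : BV D Δ N θ) {E : ℕ} (hE : N ^ 2 ≤ E) [Finite Γ] {A Z ι : Type} [CommGroup A]
    [Finite A] [CommGroup Z] [Finite Z] [Fintype ι] [DecidableEq ι]
    (hι : 2 * E + 4 < Fintype.card ι) (φ : (ι → A) →* Γ) (ζ : Z →* Γ)
    (hφζ : ∀ a z, φ a * ζ z = ζ z * φ a)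
    (hP : ∀ i j : ι, ∃ g : Γ, (∀ t, g * φ t * g⁻¹ = φ (t ∘ Equiv.swap i j)) ∧
      (∀ z, g * ζ z = ζ z * g) ∧ D g ∈ Δ)
    (t t' : ι → A) (ht : ∏ i, t i = ∏ i, t' i) (z : Z) (htz : D (φ t * ζ z) ∈ Δ) :
    θ (φ t' * ζ z) = θ (φ t * ζ z) := by
  classical
  have : Nonempty ι := Fintype.card_pos_iff.1 (by omega)
  obtain ⟨i₀⟩ := this
  let Y : Subgroup ((ι → A) × Z) := Δ.comap ((D.comp φ).coprod (D.comp ζ))
  have hY : ∀ y : (ι → A) × Z, y ∈ Y ↔ D (φ y.1) * D (ζ y.2) ∈ Δ := fun y => Iff.rfl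
  have : Fintype Y := Fintype.ofFinite Y
  choose g hg1 hg2 hg3 using hP
  have hDg : ∀ i j t, D (φ (t ∘ Equiv.swap i j)) = D (φ t) := by
    intro i j t
    rw [← hg1, map_mul, map_mul, map_inv, mul_comm (D (g i j)), mul_inv_cancel_right]
  let F : Y →* Γ := (MonoidHom.noncommCoprod φ ζ (fun a z => hφζ a z)).comp Y.subtype
  have hF : ∀ y : Y, F y = φ y.1.1 * ζ y.1.2 := fun y => rfl
  have hFD : ∀ y : Y, D (F y) ∈ Δ := fun y => by
    rw [hF, map_mul]
    exact (hY y.1).1 y.2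
  have hV : Virt (fun y : Y => θ (F y)) := h.virt Y F hFD
  let T : ι → ι → (Y ≃* Y) := fun i j =>
    { toFun := fun y => ⟨(y.1.1 ∘ Equiv.swap i j, y.1.2), (hY _).2 (by
        rw [hDg]
        exact (hY _).1 y.2)⟩
      invFun := fun y => ⟨(y.1.1 ∘ Equiv.swap i j, y.1.2), (hY _).2 (by
        rw [hDg]
        exact (hY _).1 y.2)⟩
      left_inv := fun y => by
        apply Subtype.ext
        apply Prod.ext
        · funext k
          simp
        · rfl
      right_inv := fun y => by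
        apply Subtype.ext
        apply Prod.ext
        · funext k
          simp
        · rfl
      map_mul' := fun x y => rfl }
  have hT : ∀ i j (y : Y), (T i j y).1 = (y.1.1 ∘ Equiv.swap i j, y.1.2) := fun i j y => rfl
  have hinv : ∀ i j (y : Y), θ (F (T i j y)) = θ (F y) := by
    intro i j y
    have h1 := h.conj (hFD y) (hg3 i j)
    rw [← h1]
    congr 1
    rw [hF, hF, hT]
    simp only
    rw [← hg1, mul_assoc (g i j * φ y.1.1)]
    have h2 : (g i j)⁻¹ * ζ y.1.2 = ζ y.1.2 * (g i j)⁻¹ := by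
      rw [inv_mul_eq_iff_eq_mul, ← mul_assoc, hg2, mul_inv_cancel_right]
    rw [h2]
    group
  -- the elements z i j
  have hDs : ∀ i j a, D (φ (Pi.mulSingle i a)) = D (φ (Pi.mulSingle j a)) := by
    intro i j a
    have h1 := hDg i j (Pi.mulSingle i a)
    rw [← h1]
    congr 2
    funext k
    simp only [Function.comp_apply]
    rw [Pi.mulSingle_apply, Pi.mulSingle_apply]
    by_cases hk : k = j
    · subst hk
      simp
    · rw [if_neg hk, if_neg]
      intro h2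
      apply hk
      rw [Equiv.swap_apply_eq_iff, Equiv.swap_apply_left] at h2
      exact h2
  have hzY : ∀ i j a, ((Pi.mulSingle i a * (Pi.mulSingle j a)⁻¹ : ι → A), (1 : Z)) ∈ Y := by
    intro i j a
    rw [hY]
    simp only [map_mul, map_inv, map_one, mul_one]
    rw [hDs i j, mul_inv_cancel]
    exact Δ.one_mem
  let zz : A → ι → ι → Y := fun a i j => ⟨_, hzY i j a⟩
  have hsw : ∀ (i k r : ι) (a : A), (Pi.mulSingle r a : ι → A) ∘ Equiv.swap i k =
      Pi.mulSingle (Equiv.swap i k r) a := by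
    intro i k r a
    funext s
    simp only [Function.comp_apply, Pi.mulSingle_apply]
    congr 1
    rw [Equiv.swap_apply_eq_iff]
  have hsi : ∀ (a : A) (i j : ι) (y : Y), θ (F (y * zz a i j)) = θ (F y) := by
    intro a i j y
    refine sym_inv hV (fun y => h.bdd _ (hFD y)) hE hι (zz a) ?_ T hinv ?_ ?_ i j y
    · intro i j k
      apply Subtype.ext
      apply Prod.ext
      · change (Pi.mulSingle i a * (Pi.mulSingle k a)⁻¹) * (Pi.mulSingle k a * (Pi.mulSingle j a)⁻¹) =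
          (Pi.mulSingle i a * (Pi.mulSingle j a)⁻¹ : ι → A)
        group
      · change (1 : Z) * 1 = 1
        simp
    · intro i k r hik hri hrk
      apply Subtype.ext
      rw [hT]
      apply Prod.ext
      · change ((Pi.mulSingle k a * (Pi.mulSingle r a)⁻¹ : ι → A) ∘ Equiv.swap i k) =
          Pi.mulSingle i a * (Pi.mulSingle r a)⁻¹
        have e : ((Pi.mulSingle k a * (Pi.mulSingle r a)⁻¹ : ι → A) ∘ Equiv.swap i k) =
          ((Pi.mulSingle k a : ι → A) ∘ Equiv.swap i k) *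
            ((Pi.mulSingle r a : ι → A) ∘ Equiv.swap i k)⁻¹ := rfl
        rw [e, hsw, hsw, Equiv.swap_apply_right, Equiv.swap_apply_of_ne_of_ne hri hrk]
      · rfl
    · intro i k' k r h1 h2 h3 h4
      apply Subtype.ext
      rw [hT]
      apply Prod.ext
      · change ((Pi.mulSingle k a * (Pi.mulSingle r a)⁻¹ : ι → A) ∘ Equiv.swap i k') =
          Pi.mulSingle k a * (Pi.mulSingle r a)⁻¹
        have e : ((Pi.mulSingle k a * (Pi.mulSingle r a)⁻¹ : ι → A) ∘ Equiv.swap i k') =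
          ((Pi.mulSingle k a : ι → A) ∘ Equiv.swap i k') *
            ((Pi.mulSingle r a : ι → A) ∘ Equiv.swap i k')⁻¹ := rfl
        rw [e, hsw, hsw, Equiv.swap_apply_of_ne_of_ne h1 h2, Equiv.swap_apply_of_ne_of_ne h3 h4]
      · rfl
  have hprod : ∀ (u : ι → A) (s : Finset ι) (y : Y),
      θ (F (y * ∏ i ∈ s, zz (u i) i i₀)) = θ (F y) := by
    intro u s
    induction s using Finset.induction_on with
    | empty => intro y; simp
    | insert a s ha ih =>
      intro y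
      rw [Finset.prod_insert ha, ← mul_assoc, ih, hsi]
  have htY : (t, z) ∈ Y := by
    rw [hY, ← map_mul]
    exact htz
  set u : ι → A := t⁻¹ * t' with hu
  have hu1 : ∏ i, u i = 1 := by
    rw [hu]
    simp only [Pi.mul_apply, Pi.inv_apply, Finset.prod_mul_distrib, Finset.prod_inv_distrib]
    rw [ht, inv_mul_cancel]
  have h1 := hprod u Finset.univ ⟨(t, z), htY⟩
  have h2 : (((⟨(t, z), htY⟩ : Y) * ∏ i, zz (u i) i i₀ : Y) : (ι → A) × Z) = (t', z) := by
    have h3 : ((∏ i, zz (u i) i i₀ : Y) : (ι → A) × Z) = (u, 1) := by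
      rw [Subgroup.val_finsetProd]
      have h4 : ∀ i, ((zz (u i) i i₀ : Y) : (ι → A) × Z) =
        (Pi.mulSingle i (u i) * (Pi.mulSingle i₀ (u i))⁻¹, 1) := fun i => rfl
      simp only [h4]
      apply Prod.ext
      · rw [Prod.fst_prod]
        simp only [Finset.prod_mul_distrib, Finset.prod_inv_distrib]
        rw [Finset.univ_prod_mulSingle]
        have h5 : ∏ i, (Pi.mulSingle i₀ (u i) : ι → A) = 1 := by
          have h6 : ∏ i, (Pi.mulSingle i₀ (u i) : ι → A) = Pi.mulSingle i₀ (∏ i, u i) :=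
            (map_prod (MonoidHom.mulSingle (fun _ : ι => A) i₀) u Finset.univ).symm
          rw [h6, hu1, Pi.mulSingle_one]
        rw [h5, inv_one, mul_one]
      · rw [Prod.snd_prod]
        simp
    rw [Subgroup.coe_mul, h3]
    apply Prod.ext
    · change t * u = t'
      rw [hu, mul_inv_cancel_left]
    · change z * 1 = z
      simp
  rw [hF, hF, h2] at h1
  exact h1

/-- **Powers.** -/
theorem BV.power (h : BV D Δ N θ) {E : ℕ} (hE : N ^ 2 ≤ E) [Finite Γ] {H ι : Type} [Group H]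
    [Finite H] [Fintype ι] [DecidableEq ι]
    (hι : 2 * E < Fintype.card ι) (hι2 : N < 2 ^ (Fintype.card ι - 1)) (φ : (ι → H) →* Γ)
    (hφ : ∀ b, D (φ b) ∈ Δ)
    (hP : ∀ σ : Perm ι, ∃ g : Γ, (∀ t, g * φ t * g⁻¹ = φ (t ∘ σ)) ∧ D g ∈ Δ)
    (i₀ : ι) {x y : H} (hxy : ∀ ψ : H →* ℂˣ, ψ x = ψ y) :
    θ (φ (Pi.mulSingle i₀ x)) = θ (φ (Pi.mulSingle i₀ y)) := by
  classical
  have : Fintype H := Fintype.ofFinite H
  refine power_lin (F := fun b => θ (φ b)) (h.virt (ι → H) φ hφ) (fun b => h.bdd _ (hφ b)) ?_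
    hE hι hι2 i₀ hxy
  intro σ b
  obtain ⟨g, hg, hgD⟩ := hP σ
  rw [← hg]
  exact h.conj (hφ b) hgD

end

end Pool.Agent.TH820.LG
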