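import Pool.Agent.TH820.LG.Defs

/-!
# Extensions whose Galois group is a large linear group: definitions

`F` is a finite Galois extension of the number field `K` whose Galois group is a quotient of a group `H`
with `SL_n(k) ⊆ H ⊆ GL_n(k)`, `k` a finite field.
-/

set_option autoImplicit false

namespace Pool.Agent.TH820.LG

open NumberField

section
variable {K : Type} [Field K]

/-- `Gal(F/K)` is a quotient of a group `H` with `SL_n(k) ⊆ H ⊆ GL_n(k)`. -/
def IsQuotientOfLinear (k : Type) [Field k] (n : ℕ)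
    (F : IntermediateField K (AlgebraicClosure K)) : Prop :=
  ∃ (H : Subgroup (GL (Fin n) k)) (φ : H →* Gal(F/K)),
    (∀ g : GL (Fin n) k, Matrix.GeneralLinearGroup.det g = 1 → g ∈ H) ∧ Function.Surjective φ

/-- `F/K` is a Galois extension and `Gal(F/K)` is a quotient of a group `H` with
`SL_n(k) ⊆ H ⊆ GL_n(k)`, for some finite field `k`.  For example `Gal(F/K)` is `SL_n(k)`, `GL_n(k)`,
`PSL_n(k)` or `PGL_n(k)`. -/
def IsLinearExtension (n : ℕ) (F : IntermediateField K (AlgebraicClosure K)) : Prop :=
  IsGalois K F ∧ ∃ (k : Type) (_ : Field k) (_ : Finite k), IsQuotientOfLinear k n F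

/-- `E₀` is the largest subfield of `E` that is an abelian extension of `K`. -/
def IsMaxAbelian (E₀ E : IntermediateField K (AlgebraicClosure K)) : Prop :=
  E₀ ≤ E ∧ IsAbelianGalois K E₀ ∧
    ∀ E' : IntermediateField K (AlgebraicClosure K), E' ≤ E → IsAbelianGalois K E' → E' ≤ E₀

/-- `χ` is an irreducible representation of `Gal(F/K)` of dimension `r ≠ 1`. -/
def IsNonabelian (F : IntermediateField K (AlgebraicClosure K)) {r : ℕ}
    (χ : Representation ℂ Gal(AlgebraicClosure K/K) (Fin r → ℂ)) : Prop :=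
  r ≠ 1 ∧ χ.IsIrreducible ∧ ∀ u ∈ F.fixingSubgroup, χ u = 1

end

section
variable {K : Type} [Field K] [NumberField K] {l : ℕ}

/-- Let `n ≥ n₀`, let `F/K` be a Galois extension whose Galois group is a quotient of a group `H` with
`SL_n(k) ⊆ H ⊆ GL_n(k)` for a finite field `k`, and `τ` real.  Suppose that `L(H^i(X) ⊗ χ, s)` has a
meromorphic continuation to a neighbourhood of `i/2 + 1 + iτ` for all irreducible representations `χ` of
`Gal(F/K)` of dimension `≠ 1`.
* All these functions have neither a zero nor a pole at `i/2 + 1 + iτ`.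
* Let `E` be any field with `K ⊆ E ⊆ F` and `E₀` its largest subfield that is abelian over `K`.  The
difference between the values of `log |L(i/2 + 1 + iτ + ε)| / log(1/ε)` for `L(H^i(X_E), s)` and
`L(H^i(X_{E₀}), s)` tends to `0` as `ε → 0+`, and the orders of these two functions at `i/2 + 1 + iτ`, if
they exist, are equal. -/
def ExtensionOrders (X : Set (MvPolynomial (Fin l) (𝓞 K))) (d i N n₀ : ℕ) : Prop :=
  ∀ (n : ℕ) (F : IntermediateField K (AlgebraicClosure K)) [NumberField F] (τ : ℝ), n₀ ≤ n →
    IsLinearExtension n F →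
    (∀ (r : ℕ) (χ : Representation ℂ Gal(AlgebraicClosure K/K) (Fin r → ℂ)), IsNonabelian F χ →
      ∃ k : ℤ, W353.AT.TwistOrder X d i N χ τ k) →
    (∀ (r : ℕ) (χ : Representation ℂ Gal(AlgebraicClosure K/K) (Fin r → ℂ)), IsNonabelian F χ →
      ∀ k : ℤ, W353.AT.TwistOrder X d i N χ τ k → k = 0) ∧
    ∀ (E₀ E : IntermediateField K (AlgebraicClosure K)) [NumberField E₀] [NumberField E], E ≤ F →
      IsMaxAbelian E₀ E → SameEdge X d i N τ E E₀

/-- Let `n ≥ n₀` and let `F/K` be a Galois extension whose Galois group is a quotient of a group `H` with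
`SL_n(k) ⊆ H ⊆ GL_n(k)` for a finite field `k`.  Suppose that the defect exists for all irreducible
representations `χ` of `Gal(F/K)` of dimension `≠ 1`.
* All these defects are zero.
* Let `E` be any field with `K ⊆ E ⊆ F` and `E₀` its largest subfield that is abelian over `K`.  The
difference between the values of `log |L(m + 1 + ε)| / log(1/ε) - rank` for `L(H^{2m}(X_E), s)` and
`L(H^{2m}(X_{E₀}), s)` tends to `0` as `ε → 0+`, and the defects over `E` and over `E₀`, if they exist,
are equal. -/
def ExtensionDefects (X : Set (MvPolynomial (Fin l) (𝓞 K))) (d m N : ℕ) {V : Type}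
    [AddCommGroup V] [Module ℚ V] (ρ : Representation ℚ Gal(AlgebraicClosure K/K) V)
    (n₀ : ℕ) : Prop :=
  ∀ (n : ℕ) (F : IntermediateField K (AlgebraicClosure K)) [NumberField F], n₀ ≤ n →
    IsLinearExtension n F →
    (∀ (r : ℕ) (χ : Representation ℂ Gal(AlgebraicClosure K/K) (Fin r → ℂ)), IsNonabelian F χ →
      ∃ δ : ℤ, W353.AT.TwistDefect X d m N ρ χ δ) →
    (∀ (r : ℕ) (χ : Representation ℂ Gal(AlgebraicClosure K/K) (Fin r → ℂ)), IsNonabelian F χ →
      ∀ δ : ℤ, W353.AT.TwistDefect X d m N ρ χ δ → δ = 0) ∧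
    ∀ (E₀ E : IntermediateField K (AlgebraicClosure K)) [NumberField E₀] [NumberField E], E ≤ F →
      IsMaxAbelian E₀ E → SameDefects X d m N ρ E E₀

end

end Pool.Agent.TH820.LG
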