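import Mathlib
import Pool.Agent.TH820.LG.E

/-! # Bounded virtual characters: abelian wreath products -/

set_option autoImplicit false
set_option linter.unusedSectionVars false

namespace Pool.Agent.TH820.LG

open Pool.Agent.H541R3.ART Pool.Agent.W446.AS ComplexConjugate
open Pool.Agent.H302R5 (push)
open Equiv (Perm)

/-- **Wreath products.** -/
theorem wreath (N : ℝ) : ∃ n₀ : ℕ, ∀ (ι : Type) [Fintype ι] [DecidableEq ι],
    n₀ ≤ Fintype.card ι → ∀ (Γ C A Z : Type) [Group Γ] [Finite Γ] [CommGroup C] [CommGroup A]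
    [Finite A] [CommGroup Z] [Finite Z] (D : Γ →* C) (Δ : Subgroup C) (θ : Γ → ℂ),
    BV D Δ N θ → ∀ (φ : (ι → A) →* Γ) (ζ : Z →* Γ) (P : Perm ι →* Γ),
    (∀ t z, φ t * ζ z = ζ z * φ t) → (∀ σ z, P σ * ζ z = ζ z * P σ) →
    (∀ σ t, P σ * φ t * (P σ)⁻¹ = φ (t ∘ (σ⁻¹ : Perm ι))) → (∀ σ, D (P σ) ∈ Δ) →
    ∀ (c : Perm ι), Equiv.Perm.sign c = 1 → ∀ (t : ι → A) (z : Z), D (φ t * ζ z) ∈ Δ →
    (∀ t' : ι → A, ∏ i, t' i = ∏ i, t i → θ (φ t' * ζ z * P c) = θ (φ t * ζ z * P c)) →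
    θ (φ t * ζ z * P c) = θ (φ t * ζ z) := by
  classical
  obtain ⟨n₁, hn₁⟩ := sn_step N
  obtain ⟨E, hE⟩ := exists_nat_ge (N ^ 2)
  refine ⟨max n₁ (2 * E + 5), ?_⟩
  intro ι _ _ hι Γ C A Z _ _ _ _ _ _ _ D Δ θ h φ ζ P hφζ hPζ hPφ hPD c hc t z htz hfib
  have hι1 : n₁ ≤ Fintype.card ι := (le_max_left _ _).trans hι
  have hι2 : 2 * E + 4 < Fintype.card ι := lt_of_lt_of_le (by omega) ((le_max_right _ _).trans hι)
  have : Nonempty ι := Fintype.card_pos_iff.1 (by omega)
  obtain ⟨i₀⟩ := this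
  have hDP : ∀ σ t, D (φ (t ∘ (σ⁻¹ : Perm ι))) = D (φ t) := by
    intro σ t
    rw [← hPφ, map_mul, map_mul, map_inv, mul_comm (D (P σ)), mul_inv_cancel_right]
  have hDs : ∀ i a, D (φ (Pi.mulSingle i a)) = D (φ (Pi.mulSingle i₀ a)) := by
    intro i a
    rw [← hDP (Equiv.swap i i₀) (Pi.mulSingle i a), Equiv.swap_inv]
    congr 2
    funext s
    simp only [Function.comp_apply, Pi.mulSingle_apply]
    congr 1
    rw [Equiv.swap_apply_eq_iff, Equiv.swap_apply_left]
  have hDprod : ∀ t : ι → A, D (φ t) = D (φ (Pi.mulSingle i₀ (∏ i, t i))) := by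
    intro t
    have h1 : t = ∏ i, Pi.mulSingle i (t i) := (Finset.univ_prod_mulSingle t).symm
    have h6 : Pi.mulSingle i₀ (∏ i, t i) = ∏ i, (Pi.mulSingle i₀ (t i) : ι → A) :=
      (map_prod (MonoidHom.mulSingle (fun _ : ι => A) i₀) t Finset.univ)
    conv_lhs => rw [h1]
    rw [h6]
    have h7 := map_prod (D.comp φ) (fun i => (Pi.mulSingle i (t i) : ι → A)) Finset.univ
    have h8 := map_prod (D.comp φ) (fun i => (Pi.mulSingle i₀ (t i) : ι → A)) Finset.univ
    rw [MonoidHom.comp_apply] at h7 h8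
    rw [h7, h8]
    exact Finset.prod_congr rfl fun i _ => hDs i (t i)
  let Y : Subgroup ((ι → A) × Z) := Δ.comap ((D.comp φ).coprod (D.comp ζ))
  have hY : ∀ y : (ι → A) × Z, y ∈ Y ↔ D (φ y.1) * D (ζ y.2) ∈ Δ := fun y => Iff.rfl
  let X : Subgroup (A × Z) :=
    Δ.comap (((D.comp φ).comp (MonoidHom.mulSingle (fun _ : ι => A) i₀)).coprod (D.comp ζ))
  have hX : ∀ x : A × Z, x ∈ X ↔ D (φ (Pi.mulSingle i₀ x.1)) * D (ζ x.2) ∈ Δ :=
    fun y => Iff.rfl
  let f₁ : Y →* Γ := (MonoidHom.noncommCoprod φ ζ (fun a z => hφζ a z)).comp Y.subtype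
  have hf₁ : ∀ y : Y, f₁ y = φ y.1.1 * ζ y.1.2 := fun y => rfl
  let act : Perm ι →* MulAut Y :=
    { toFun := fun σ =>
        { toFun := fun y => ⟨(y.1.1 ∘ (σ⁻¹ : Perm ι), y.1.2), (hY _).2 (by
            rw [hDP]
            exact (hY _).1 y.2)⟩
          invFun := fun y => ⟨(y.1.1 ∘ σ, y.1.2), (hY _).2 (by
            have := hDP σ⁻¹ y.1.1
            rw [inv_inv] at this
            rw [this]
            exact (hY _).1 y.2)⟩
          left_inv := fun y => by
            apply Subtype.ext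
            apply Prod.ext
            · funext k
              simp
            · rfl
          right_inv := fun y => by
            apply Subtype.ext
            apply Prod.ext
            · funext k
              simp
            · rfl
          map_mul' := fun x y => rfl }
      map_one' := rfl
      map_mul' := fun σ τ => by
        apply MulEquiv.ext
        intro y
        rfl }
  have hact : ∀ σ (y : Y), (act σ y).1 = (y.1.1 ∘ (σ⁻¹ : Perm ι), y.1.2) := fun σ y => rfl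
  let B := Y ⋊[act] Perm ι
  have hBfin : Finite B := Finite.of_equiv _ (SemidirectProduct.equivProd (φ := act)).symm
  have : Fintype B := Fintype.ofFinite B
  let Φ : B →* Γ := SemidirectProduct.lift f₁ P (by
    intro σ
    apply MonoidHom.ext
    intro y
    change f₁ (act σ y) = P σ * f₁ y * (P σ)⁻¹
    rw [hf₁, hf₁, hact]
    simp only
    rw [← hPφ, mul_assoc (P σ * φ y.1.1)]
    have h2 : (P σ)⁻¹ * ζ y.1.2 = ζ y.1.2 * (P σ)⁻¹ := by
      rw [inv_mul_eq_iff_eq_mul, ← mul_assoc, hPζ, mul_inv_cancel_right]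
    rw [h2]
    group)
  have hΦ : ∀ b : B, Φ b = f₁ b.left * P b.right := fun b => rfl
  have hΦD : ∀ b : B, D (Φ b) ∈ Δ := by
    intro b
    rw [hΦ, map_mul, hf₁, map_mul]
    exact Δ.mul_mem ((hY _).1 b.left.2) (hPD _)
  let q : Y → X := fun y => ⟨(∏ i, y.1.1 i, y.1.2), (hX _).2 (by
    rw [← hDprod]
    exact (hY _).1 y.2)⟩
  have hq : ∀ y : Y, (q y).1 = (∏ i, y.1.1 i, y.1.2) := fun y => rfl
  let Pm : B →* Perm ι × X :=
    { toFun := fun b => (b.right, q b.left)
      map_one' := by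
        apply Prod.ext
        · rfl
        · apply Subtype.ext
          apply Prod.ext
          · change ∏ i : ι, (1 : A) = 1
            simp
          · rfl
      map_mul' := fun a b => by
        apply Prod.ext
        · rfl
        · apply Subtype.ext
          apply Prod.ext
          · change ∏ i, (a.left.1.1 i * b.left.1.1 ((a.right⁻¹ : Perm ι) i)) =
              (∏ i, a.left.1.1 i) * ∏ i, b.left.1.1 i
            rw [Finset.prod_mul_distrib]
            congr 1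
            exact Equiv.prod_comp (a.right⁻¹ : Perm ι) (fun i => b.left.1.1 i)
          · rfl }
  have hPm : ∀ b : B, Pm b = (b.right, q b.left) := fun b => rfl
  have hPms : Function.Surjective Pm := by
    rintro ⟨σ, x⟩
    refine ⟨⟨⟨(Pi.mulSingle i₀ x.1.1, x.1.2), x.2⟩, σ⟩, ?_⟩
    rw [hPm]
    apply Prod.ext
    · rfl
    · apply Subtype.ext
      apply Prod.ext
      · change ∏ i, (Pi.mulSingle i₀ x.1.1 : ι → A) i = x.1.1
        simp
      · rfl
  have hV : Virt (fun b : B => θ (Φ b)) := h.virt B Φ hΦD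
  have hVp := Virt.push hPms hV
  have hker : Fintype Pm.ker := Fintype.ofFinite _
  have hkc : (Nat.card Pm.ker : ℂ) ≠ 0 := by exact_mod_cast Nat.card_pos.ne'
  have hpn : ∀ g, ‖push Pm (fun b : B => θ (Φ b)) g‖ ≤ N := by
    intro g
    obtain ⟨b, rfl⟩ := hPms g
    rw [push_apply, norm_mul, norm_inv, Complex.norm_natCast]
    have h1 : ‖∑ n : Pm.ker, θ (Φ (b * n))‖ ≤ ∑ _n : Pm.ker, N :=
      (norm_sum_le _ _).trans (Finset.sum_le_sum fun n _ => h.bdd _ (hΦD _))
    rw [Finset.sum_const, Finset.card_univ, nsmul_eq_mul, ← Nat.card_eq_fintype_card] at h1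
    have h2 : (0 : ℝ) < Nat.card Pm.ker := by exact_mod_cast Nat.card_pos
    rw [inv_mul_le_iff₀ h2]
    exact h1
  have hkerp : ∀ n : Pm.ker, (n : B).right = 1 ∧ ∏ i, (n : B).left.1.1 i = 1 ∧
      (n : B).left.1.2 = 1 := by
    intro n
    have h1 : Pm (n : B) = 1 := n.2
    rw [hPm] at h1
    have h2 := congrArg Prod.fst h1
    have h3 := congrArg (fun x => (Prod.snd x).1.1) h1
    have h4 := congrArg (fun x => (Prod.snd x).1.2) h1
    exact ⟨h2, h3, h4⟩
  have htY : (t, z) ∈ Y := by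
    rw [hY, ← map_mul]
    exact htz
  -- constancy on the two fibres
  have hconst : ∀ b : B, (∀ n : Pm.ker, θ (Φ (b * n)) = θ (Φ b)) →
      push Pm (fun b : B => θ (Φ b)) (Pm b) = θ (Φ b) := by
    intro b hb
    rw [push_apply, Finset.sum_congr rfl (fun n _ => hb n), Finset.sum_const, Finset.card_univ,
      nsmul_eq_mul, ← Nat.card_eq_fintype_card, ← mul_assoc, inv_mul_cancel₀ hkc, one_mul]
  let b1 : B := ⟨⟨(t, z), htY⟩, c⟩
  let b2 : B := ⟨⟨(t, z), htY⟩, 1⟩
  have hb1 : Φ b1 = φ t * ζ z * P c := rfl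
  have hb2 : Φ b2 = φ t * ζ z := by
    change φ t * ζ z * P 1 = _
    rw [map_one, mul_one]
  have e1 : push Pm (fun b : B => θ (Φ b)) (Pm b1) = θ (Φ b1) := by
    refine hconst b1 fun n => ?_
    obtain ⟨h1, h2, h3⟩ := hkerp n
    have h4 : Φ (b1 * n) = φ (t * ((n : B).left.1.1 ∘ (c⁻¹ : Perm ι))) * ζ z * P c := by
      rw [hΦ, hf₁]
      change φ (t * ((n : B).left.1.1 ∘ (c⁻¹ : Perm ι))) * ζ (z * (n : B).left.1.2) *
        P (c * (n : B).right) = _
      rw [h1, h3, mul_one, mul_one]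
    rw [h4, hb1]
    apply hfib
    simp only [Pi.mul_apply, Finset.prod_mul_distrib, Function.comp_apply]
    rw [Equiv.prod_comp (c⁻¹ : Perm ι) (fun i => (n : B).left.1.1 i), h2, mul_one]
  have e2 : push Pm (fun b : B => θ (Φ b)) (Pm b2) = θ (Φ b2) := by
    refine hconst b2 fun n => ?_
    obtain ⟨h1, h2, h3⟩ := hkerp n
    have h4 : Φ (b2 * n) = φ (t * ((n : B).left.1.1)) * ζ z := by
      rw [hΦ, hf₁]
      change φ (t * ((n : B).left.1.1 ∘ ((1 : Perm ι)⁻¹ : Perm ι))) * ζ (z * (n : B).left.1.2) *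
        P (1 * (n : B).right) = _
      rw [h1, h3, mul_one, one_mul, map_one, mul_one, inv_one]
      rfl
    rw [h4, hb2]
    refine h.sym hE hι2 φ ζ hφζ (fun i j => ⟨P (Equiv.swap i j), fun t => ?_, fun z => hPζ _ z,
      hPD _⟩) t _ ?_ z htz
    · rw [hPφ, Equiv.swap_inv]
    · simp only [Pi.mul_apply, Finset.prod_mul_distrib]
      rw [h2, mul_one]
  have hfin := hn₁ ι hι1 X (push Pm (fun b : B => θ (Φ b))) hVp hpn c (q ⟨(t, z), htY⟩) hc
  rw [← hb1, ← hb2, ← e1, ← e2]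
  exact hfin

end Pool.Agent.TH820.LG
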