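import Mathlib

/-! # Arithmetic of `(Q^l - 1)/(Q - 1)` -/

set_option autoImplicit false

namespace Pool.Agent.TH820.LG

lemma geom_mod {Q l p : ℕ} (h : Q ≡ 1 [MOD p]) : (∑ i ∈ Finset.range l, Q ^ i) ≡ l [MOD p] := by
  induction l with
  | zero => simp [Nat.ModEq]
  | succ n ih =>
    rw [Finset.sum_range_succ]
    have h1 := h.pow n
    rw [one_pow] at h1
    exact ih.add h1

theorem arith {q m l D : ℕ} (hq : 2 ≤ q) (hl : l.Prime) (h2 : l ≠ 2) (hm : 0 < m) (hd : l ∣ m)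
    (hlD : ¬ l ∣ D) :
    ∃ j : ℕ, (q ^ m - 1) ∣ (1 + (q ^ D - 1) ^ 2 * j) * (l * (q ^ (m / l) - 1)) := by
  obtain ⟨s, rfl⟩ := hd
  have hl0 := hl.pos
  have hs : 0 < s := Nat.pos_of_mul_pos_left hm
  rw [Nat.mul_div_cancel_left s hl0]
  set Q := q ^ s with hQ
  have hQ2 : 2 ≤ Q := hq.trans (Nat.le_self_pow hs.ne' q)
  have hD : 0 < D := by
    rcases Nat.eq_zero_or_pos D with h | h
    · subst h
      exact absurd (dvd_zero l) hlD
    · exact h
  set F := ∑ i ∈ Finset.range l, Q ^ i with hF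
  have hqm : q ^ (l * s) - 1 = F * (Q - 1) := by
    rw [mul_comm l s, pow_mul, ← hQ, hF]
    rw [Nat.geomSum_eq hQ2]
    exact (Nat.div_mul_cancel (Nat.sub_one_dvd_pow_sub_one Q l)).symm
  have hFpos : 0 < F := by
    rw [hF]
    exact Finset.sum_pos (fun i _ => by positivity) (by simpa using hl0.ne')
  set g := Nat.gcd F l with hg
  have hgpos : 0 < g := Nat.gcd_pos_of_pos_left _ hFpos
  obtain ⟨F', hF'⟩ : g ∣ F := Nat.gcd_dvd_left _ _
  have hcop : Nat.Coprime F' (q ^ D - 1) := by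
    by_contra hcon
    obtain ⟨p, hp, hp1, hp2⟩ := Nat.Prime.not_coprime_iff_dvd.1 hcon
    have hpF : p ∣ F := by
      rw [hF']
      exact hp1.mul_left g
    have hpm : p ∣ q ^ (l * s) - 1 := by
      rw [hqm]
      exact hpF.mul_right _
    have h3 : p ∣ q ^ (Nat.gcd (l * s) D) - 1 := by
      rw [← Nat.pow_sub_one_gcd_pow_sub_one]
      exact Nat.dvd_gcd hpm hp2
    have h4 : Nat.gcd (l * s) D ∣ s := by
      have h5 : Nat.Coprime (Nat.gcd (l * s) D) l := by
        rw [Nat.coprime_comm, Nat.Prime.coprime_iff_not_dvd hl]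
        intro h6
        exact hlD (h6.trans (Nat.gcd_dvd_right _ _))
      exact h5.dvd_of_dvd_mul_left (Nat.gcd_dvd_left _ _)
    have h5 : p ∣ Q - 1 := h3.trans (by
      obtain ⟨r, hr⟩ := h4
      have h6 : Q = (q ^ Nat.gcd (l * s) D) ^ r := by
        rw [← pow_mul, ← hr]
      rw [h6]
      exact Nat.sub_one_dvd_pow_sub_one _ _)
    have h6 : Q ≡ 1 [MOD p] := by
      have := (Nat.modEq_iff_dvd' (by omega : 1 ≤ Q)).2 h5
      exact this.symm
    have h7 := geom_mod (l := l) h6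
    have h8 : p ∣ l := by
      have h9 : l ≡ 0 [MOD p] := h7.symm.trans ((Nat.modEq_zero_iff_dvd).2 hpF)
      exact (Nat.modEq_zero_iff_dvd).1 h9
    have h9 : p = l := (Nat.prime_dvd_prime_iff_eq hp hl).1 h8
    subst h9
    have : Fact p.Prime := ⟨hp⟩
    have hodd : Odd p := hp.odd_of_ne_two h2
    have h10 : ¬ p ∣ Q := by
      intro h11
      have h12 : p ∣ Q - (Q - 1) := Nat.dvd_sub h11 h5
      have h13 : Q - (Q - 1) = 1 := by omega
      rw [h13] at h12
      exact hp.one_lt.ne' (Nat.dvd_one.1 h12)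
    have h11 : padicValNat p (Q ^ p - 1 ^ p) = padicValNat p (Q - 1) + padicValNat p p :=
      padicValNat.pow_sub_pow hodd (by omega) h5 h10 hp.ne_zero
    rw [one_pow, padicValNat_self] at h11
    have h12 : Q ^ p - 1 = F * (Q - 1) := by
      rw [← hqm, hQ, ← pow_mul, mul_comm s p]
    rw [h12, padicValNat.mul hFpos.ne' (by omega)] at h11
    have h13 : padicValNat p F = 1 := by omega
    have h14 : g = p := by
      rw [hg]
      exact Nat.gcd_eq_right hpF
    have hF'pos : F' ≠ 0 := by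
      rintro rfl
      rw [mul_zero] at hF'
      omega
    rw [hF', padicValNat.mul hgpos.ne' hF'pos, h14, padicValNat_self] at h13
    have h15 : padicValNat p F' = 0 := by omega
    rw [padicValNat.eq_zero_iff] at h15
    rcases h15 with h | h | h
    · exact hp.one_lt.ne' h
    · exact hF'pos h
    · exact h hp1
  have hcop2 : Nat.Coprime ((q ^ D - 1) ^ 2) F' := (Nat.Coprime.pow_right 2 hcop).symm
  -- CRT
  obtain ⟨k, hk1, hk2⟩ := Nat.chineseRemainder hcop2 1 0
  have hM : 0 < (q ^ D - 1) ^ 2 := by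
    have h3 : 2 ≤ q ^ D := hq.trans (Nat.le_self_pow hD.ne' q)
    have h4 : 0 < q ^ D - 1 := by omega
    positivity
  have hF'pos : 0 < F' := by
    rcases Nat.eq_zero_or_pos F' with h | h
    · rw [h, mul_zero] at hF'
      omega
    · exact h
  set k' := k + (q ^ D - 1) ^ 2 * F' with hk'
  have hk'1 : k' ≡ 1 [MOD (q ^ D - 1) ^ 2] := by
    rw [hk']
    exact (Nat.ModEq.add hk1 ((Nat.modEq_zero_iff_dvd).2 (dvd_mul_right _ _))).trans (by simp [Nat.ModEq])
  have hk'2 : F' ∣ k' := by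
    rw [hk']
    exact dvd_add ((Nat.modEq_zero_iff_dvd).1 hk2) (dvd_mul_left _ _)
  have hk'0 : 1 ≤ k' := by
    rw [hk']
    have : 0 < (q ^ D - 1) ^ 2 * F' := by positivity
    omega
  obtain ⟨j, hj⟩ := (Nat.modEq_iff_dvd' hk'0).1 hk'1.symm
  refine ⟨j, ?_⟩
  have h3 : 1 + (q ^ D - 1) ^ 2 * j = k' := by omega
  rw [h3, hqm]
  obtain ⟨r, hr⟩ := hk'2
  obtain ⟨w, hw⟩ : g ∣ l := Nat.gcd_dvd_right _ _
  refine ⟨r * w, ?_⟩
  rw [hr, hF']
  conv_lhs => rw [hw]
  ring

end Pool.Agent.TH820.LG
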