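import Mathlib
import Pool.Agent.TH820.LG.F
import Pool.Agent.TH820.LG.G

/-! # Linear groups: direct sums, fields, Frobenius -/

set_option autoImplicit false
set_option linter.unusedSectionVars false

namespace Pool.Agent.TH820.LG

section ds
variable {K W U : Type} [Field K] [AddCommGroup W] [Module K W] [AddCommGroup U] [Module K U]

/-- direct sum of automorphisms -/
def ds (g : W ≃ₗ[K] W) (h : U ≃ₗ[K] U) : (W × U) ≃ₗ[K] (W × U) := LinearEquiv.prodCongr g h

@[simp] lemma ds_apply (g : W ≃ₗ[K] W) (h : U ≃ₗ[K] U) (w : W) (u : U) :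
    ds g h (w, u) = (g w, h u) := rfl

lemma ds_mul (g g' : W ≃ₗ[K] W) (h h' : U ≃ₗ[K] U) :
    ds g h * ds g' h' = ds (g * g') (h * h') := rfl

lemma ds_one : ds (1 : W ≃ₗ[K] W) (1 : U ≃ₗ[K] U) = 1 := rfl

lemma ds_inv (g : W ≃ₗ[K] W) (h : U ≃ₗ[K] U) : (ds g h)⁻¹ = ds g⁻¹ h⁻¹ := rfl

lemma det_ds [FiniteDimensional K W] [FiniteDimensional K U] (g : W ≃ₗ[K] W) (h : U ≃ₗ[K] U) :
    LinearEquiv.det (ds g h) = LinearEquiv.det g * LinearEquiv.det h := by
  apply Units.ext
  rw [Units.val_mul, LinearEquiv.coe_det, LinearEquiv.coe_det, LinearEquiv.coe_det,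
    ← LinearMap.det_prodMap]
  rfl

/-- the first summand -/
def dsl (K W U : Type) [Field K] [AddCommGroup W] [Module K W] [AddCommGroup U] [Module K U] :
    (W ≃ₗ[K] W) →* ((W × U) ≃ₗ[K] (W × U)) where
  toFun g := ds g 1
  map_one' := rfl
  map_mul' _ _ := rfl

/-- the second summand -/
def dsr (K W U : Type) [Field K] [AddCommGroup W] [Module K W] [AddCommGroup U] [Module K U] :
    (U ≃ₗ[K] U) →* ((W × U) ≃ₗ[K] (W × U)) where
  toFun g := ds 1 g
  map_one' := rfl
  map_mul' _ _ := rfl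

lemma dsl_dsr (g : W ≃ₗ[K] W) (h : U ≃ₗ[K] U) : dsl K W U g * dsr K W U h = ds g h := rfl

lemma dsl_dsr_comm (g : W ≃ₗ[K] W) (h : U ≃ₗ[K] U) :
    dsl K W U g * dsr K W U h = dsr K W U h * dsl K W U g := rfl

end ds

instance finite_le {K V : Type} [Field K] [AddCommGroup V] [Module K V] [Finite V] :
    Finite (V ≃ₗ[K] V) :=
  Finite.of_injective (fun g : V ≃ₗ[K] V => (g : V → V)) DFunLike.coe_injective

section cj
variable {K V V' : Type} [Field K] [AddCommGroup V] [Module K V] [AddCommGroup V'] [Module K V']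

/-- transport of automorphisms -/
def cj (e : V ≃ₗ[K] V') : (V ≃ₗ[K] V) ≃* (V' ≃ₗ[K] V') where
  toFun g := e.symm.trans (g.trans e)
  invFun g := e.trans (g.trans e.symm)
  left_inv g := by ext; simp
  right_inv g := by ext; simp
  map_mul' g h := by ext; simp

@[simp] lemma cj_apply (e : V ≃ₗ[K] V') (g : V ≃ₗ[K] V) (v : V') :
    cj e g v = e (g (e.symm v)) := rfl

lemma det_cj (e : V ≃ₗ[K] V') (g : V ≃ₗ[K] V) :
    LinearEquiv.det (cj e g) = LinearEquiv.det g := LinearEquiv.det_conj g e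

lemma BV.cj {Δ : Subgroup Kˣ} {N : ℝ} {θ : (V' ≃ₗ[K] V') → ℂ}
    (h : BV (LinearEquiv.det : (V' ≃ₗ[K] V') →* Kˣ) Δ N θ) (e : V ≃ₗ[K] V') :
    BV (LinearEquiv.det : (V ≃ₗ[K] V) →* Kˣ) Δ N (fun g => θ (cj e g)) := by
  refine ⟨fun B _ _ φ hφ => ?_, fun g hg => h.bdd _ (by rw [det_cj]; exact hg)⟩
  exact h.virt B ((LG.cj e).toMonoidHom.comp φ) (fun b => by
    change LinearEquiv.det (LG.cj e (φ b)) ∈ Δ
    rw [det_cj]
    exact hφ b)

end cj

section mulL
variable (K L : Type) [Field K] [Field L] [Algebra K L]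

/-- multiplication by units -/
def mulL : Lˣ →* (L ≃ₗ[K] L) where
  toFun u :=
    { toFun := fun x => (u : L) * x
      map_add' := fun x y => mul_add _ _ _
      map_smul' := fun c x => by simp
      invFun := fun x => ((u⁻¹ : Lˣ) : L) * x
      left_inv := fun x => by simp
      right_inv := fun x => by simp }
  map_one' := by ext; simp
  map_mul' a b := by ext; simp [mul_assoc]

@[simp] lemma mulL_apply (u : Lˣ) (x : L) : mulL K L u x = (u : L) * x := rfl

lemma det_mulL (u : Lˣ) :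
    LinearEquiv.det (mulL K L u) = Units.map (Algebra.norm K : L →* K) u := by
  apply Units.ext
  rw [LinearEquiv.coe_det, Units.coe_map, Algebra.norm_apply]
  rfl

variable [Finite L]

lemma det_mulL_surj (c : Kˣ) : ∃ u : Lˣ, LinearEquiv.det (mulL K L u) = c := by
  obtain ⟨u, hu⟩ := FiniteField.unitsMap_norm_surjective K L c
  exact ⟨u, by rw [det_mulL, hu]⟩

end mulL

section frob
variable {K L U : Type} [Field K] [Finite K] [Field L] [Algebra K L] [FiniteDimensional K L]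
  [AddCommGroup U] [Module K U] [FiniteDimensional K U] {Δ : Subgroup Kˣ} {N : ℝ}
  {θ : ((L × U) ≃ₗ[K] (L × U)) → ℂ}

lemma frob_block (h : BV (LinearEquiv.det : ((L × U) ≃ₗ[K] (L × U)) →* Kˣ) Δ N θ) {E : ℕ}
    (hE : N ^ 2 ≤ E) (hE1 : 1 ≤ E) (a : Lˣ) (b : U ≃ₗ[K] U)
    (hab : LinearEquiv.det (ds (mulL K L a) b) ∈ Δ) (j : ℕ) :
    θ (ds (mulL K L (a ^ (1 + (Nat.card K ^ E.factorial - 1) ^ 2 * j))) b) =
      θ (ds (mulL K L a) b) := by
  classical
  have : Fintype K := Fintype.ofFinite K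
  have : Finite L := Module.finite_of_finite K
  have : Finite U := Module.finite_of_finite K
  set q := Nat.card K with hq
  have hq2 : 2 ≤ q := Finite.one_lt_card
  let F := FiniteField.frobeniusAlgEquivOfAlgebraic K L
  have hF : ∀ x : L, F x = x ^ q := by
    intro x
    rw [hq, Nat.card_eq_fintype_card]
    rfl
  let τ : Lˣ ≃* Lˣ := Units.mapEquiv (F : L ≃* L)
  have hτ : ∀ x : Lˣ, τ x = x ^ q := by
    intro x
    apply Units.ext
    rw [Units.val_pow_eq_pow_val, ← hF]
    rfl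
  have hτd : ∀ (d : ℕ) (x : Lˣ), (τ ^ d : MulAut Lˣ) x = x ^ (q ^ d) := by
    intro d x
    induction d with
    | zero => simp
    | succ n ih =>
      have h1 : (τ ^ (n + 1) : MulAut Lˣ) x = τ ((τ ^ n : MulAut Lˣ) x) := by
        rw [pow_succ', MulAut.mul_apply]
      rw [h1, ih, hτ, ← pow_mul, pow_succ]
  let _ : CommGroup (Subgroup.zpowers b) :=
    { (inferInstance : Group (Subgroup.zpowers b)) with
      mul_comm := fun x y => by
        obtain ⟨i, hi⟩ := x.2
        obtain ⟨k, hk⟩ := y.2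
        apply Subtype.ext
        simp only [Subgroup.coe_mul]
        rw [← hi, ← hk]
        change b ^ i * b ^ k = b ^ k * b ^ i
        rw [← zpow_add, ← zpow_add, add_comm] }
  let φ : Lˣ →* ((L × U) ≃ₗ[K] (L × U)) := (dsl K L U).comp (mulL K L)
  let ζ : Subgroup.zpowers b →* ((L × U) ≃ₗ[K] (L × U)) :=
    (dsr K L U).comp (Subgroup.zpowers b).subtype
  let g : (L × U) ≃ₗ[K] (L × U) := ds F.toLinearEquiv 1
  obtain ⟨l, hl⟩ := det_mulL_surj K L (LinearEquiv.det F.toLinearEquiv)⁻¹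
  have hφD : ∀ x, LinearEquiv.det (φ x) = Units.map (Algebra.norm K : L →* K) x := by
    intro x
    change LinearEquiv.det (ds (mulL K L x) (1 : U ≃ₗ[K] U)) = _
    rw [det_ds, map_one, mul_one, det_mulL]
  have hw : a * a ^ ((q ^ E.factorial - 1) ^ 2 * j) =
      a ^ (1 + (q ^ E.factorial - 1) ^ 2 * j) := by
    rw [pow_add, pow_one]
  rw [← hw]
  have hD : 0 < E.factorial := Nat.factorial_pos E
  refine h.frob hE φ ζ (fun _ _ => rfl) τ g ?_ (fun _ => rfl) l ?_ _ ?_ hE1 a
    ⟨b, Subgroup.mem_zpowers b⟩ hab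
  · intro x
    apply LinearEquiv.ext
    rintro ⟨v, w⟩
    change (F ((x : L) * F.symm v), w) = (F x * v, w)
    rw [map_mul, AlgEquiv.apply_symm_apply]
  · change LinearEquiv.det (ds F.toLinearEquiv 1 * ds (mulL K L l) 1) ∈ Δ
    rw [map_mul, det_ds, det_ds, map_one, mul_one, mul_one, hl, mul_inv_cancel]
    exact Δ.one_mem
  · intro d hd1 hd2
    have hdD : d ∣ E.factorial := Nat.dvd_factorial hd1 hd2
    obtain ⟨R, hR⟩ : q ^ d - 1 ∣ q ^ E.factorial - 1 := by
      obtain ⟨r, hr⟩ := hdD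
      rw [hr, pow_mul]
      exact Nat.sub_one_dvd_pow_sub_one _ _
    obtain ⟨R', hR'⟩ : q - 1 ∣ q ^ E.factorial - 1 := Nat.sub_one_dvd_pow_sub_one _ _
    refine ⟨a ^ (R * ((q - 1) * R') * j), ?_, ?_⟩
    · rw [hτd]
      have hqd : 1 ≤ q ^ d := Nat.one_le_pow _ _ (by omega)
      have h1 : (a ^ (R * ((q - 1) * R') * j)) ^ (q ^ d) =
          (a ^ (R * ((q - 1) * R') * j)) * (a ^ (R * ((q - 1) * R') * j)) ^ (q ^ d - 1) := by
        rw [← pow_succ']
        congr 1
        omega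
      rw [h1, inv_mul_cancel_left, ← pow_mul]
      congr 1
      rw [pow_two]
      nth_rewrite 1 [hR]
      rw [hR']
      ring
    · rw [hφD]
      have h2 : Units.map (Algebra.norm K : L →* K) (a ^ (R * ((q - 1) * R') * j)) = 1 := by
        rw [map_pow]
        have h3 : (Units.map (Algebra.norm K : L →* K) a) ^ (q - 1) = 1 := by
          have := pow_card_eq_one' (x := Units.map (Algebra.norm K : L →* K) a)
          rwa [Nat.card_units, ← hq] at this
        have h4 : R * ((q - 1) * R') * j = (q - 1) * (R * R' * j) := by ring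
        rw [h4, pow_mul, h3, one_pow]
      rw [h2]
      exact Δ.one_mem

end frob

end Pool.Agent.TH820.LG
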