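import Mathlib
import Pool.Agent.TH820.LG.H

/-! # Endomorphisms annihilated by an irreducible polynomial of the right degree -/

set_option autoImplicit false
set_option linter.unusedSectionVars false

namespace Pool.Agent.TH820.LG

open Polynomial Module

section
variable {M W : Type*} [Field M] [AddCommGroup W] [Module M W] [FiniteDimensional M W]

/-- evaluation at a vector -/
noncomputable def evl (T : W →ₗ[M] W) (w : W) : M[X] →ₗ[M] W :=
  (LinearMap.applyₗ w) ∘ₗ (aeval T).toLinearMap

lemma evl_apply (T : W →ₗ[M] W) (w : W) (r : M[X]) : evl T w r = aeval T r w := rfl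

lemma evl_X (T : W →ₗ[M] W) (w : W) (r : M[X]) : evl T w (X * r) = T (evl T w r) := by
  rw [evl_apply, evl_apply, map_mul, aeval_X]
  rfl

lemma evl_ker {p : M[X]} (hp : Irreducible p) (T : W →ₗ[M] W) (hT : aeval T p = 0) {w : W}
    (hw : w ≠ 0) (r : M[X]) : evl T w r = 0 ↔ p ∣ r := by
  constructor
  · intro h
    by_contra hn
    obtain ⟨u, v, huv⟩ := (hp.coprime_iff_not_dvd.2 hn)
    apply hw
    have h1 := congrArg (fun s => evl T w s) huv
    simp only [map_add] at h1
    have h2 : evl T w (u * p) = 0 := by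
      rw [evl_apply, map_mul, hT, mul_zero]
      rfl
    have h3 : evl T w (v * r) = 0 := by
      rw [evl_apply, map_mul]
      change aeval T v (evl T w r) = 0
      rw [h, map_zero]
    have h4 : evl T w 1 = w := by
      rw [evl_apply, map_one]
      rfl
    rw [h2, h3, h4, zero_add] at h1
    exact h1.symm
  · rintro ⟨s, rfl⟩
    rw [evl_apply, map_mul, hT, zero_mul]
    rfl

lemma evl_surj {p : M[X]} (hp : Irreducible p) (T : W →ₗ[M] W) (hT : aeval T p = 0) {w : W}
    (hw : w ≠ 0) (hd : finrank M W = p.natDegree) : Function.Surjective (evl T w) := by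
  classical
  set g : degreeLT M p.natDegree →ₗ[M] W := (evl T w) ∘ₗ (degreeLT M p.natDegree).subtype with hg
  have hinj : Function.Injective g := by
    rw [injective_iff_map_eq_zero]
    intro r hr
    have h1 : p ∣ (r : M[X]) := (evl_ker hp T hT hw _).1 hr
    have h2 := mem_degreeLT.1 r.2
    apply Subtype.ext
    refine eq_zero_of_dvd_of_degree_lt h1 ?_
    rwa [degree_eq_natDegree hp.ne_zero]
  have hfin : FiniteDimensional M (degreeLT M p.natDegree) :=
    Module.Finite.equiv (degreeLTEquiv M p.natDegree).symm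
  have hfr : finrank M (degreeLT M p.natDegree) = finrank M W := by
    rw [(degreeLTEquiv M p.natDegree).finrank_eq, finrank_fin_fun, hd]
  have hs := (LinearMap.injective_iff_surjective_of_finrank_eq_finrank hfr).1 hinj
  intro x
  obtain ⟨r, hr⟩ := hs x
  exact ⟨r, hr⟩

end

theorem cyc_iso {M W W' : Type*} [Field M] [AddCommGroup W] [Module M W]
    [FiniteDimensional M W] [AddCommGroup W'] [Module M W'] [FiniteDimensional M W']
    {p : M[X]} (hp : Irreducible p) (T : W →ₗ[M] W) (T' : W' →ₗ[M] W') (hT : aeval T p = 0)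
    (hT' : aeval T' p = 0) (hd : finrank M W = p.natDegree) (hd' : finrank M W' = p.natDegree) :
    ∃ g : W ≃ₗ[M] W', ∀ w, g (T w) = T' (g w) := by
  have hpd : 0 < p.natDegree := hp.natDegree_pos
  have : Nontrivial W := Module.nontrivial_of_finrank_pos (R := M) (by omega)
  have : Nontrivial W' := Module.nontrivial_of_finrank_pos (R := M) (by omega)
  obtain ⟨w, hw⟩ := exists_ne (0 : W)
  obtain ⟨w', hw'⟩ := exists_ne (0 : W')
  have hs := evl_surj hp T hT hw hd
  have hs' := evl_surj hp T' hT' hw' hd'
  have hk : LinearMap.ker (evl T w) = LinearMap.ker (evl T' w') := by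
    ext r
    rw [LinearMap.mem_ker, LinearMap.mem_ker, evl_ker hp T hT hw, evl_ker hp T' hT' hw']
  let g : W ≃ₗ[M] W' := ((evl T w).quotKerEquivOfSurjective hs).symm.trans
    ((Submodule.quotEquivOfEq _ _ hk).trans ((evl T' w').quotKerEquivOfSurjective hs'))
  have hg : ∀ r, g (evl T w r) = evl T' w' r := by
    intro r
    have h1 : ((evl T w).quotKerEquivOfSurjective hs).symm (evl T w r) =
        Submodule.Quotient.mk r := by
      rw [LinearEquiv.symm_apply_eq]
      rfl
    change ((evl T' w').quotKerEquivOfSurjective hs') ((Submodule.quotEquivOfEq _ _ hk)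
      (((evl T w).quotKerEquivOfSurjective hs).symm (evl T w r))) = _
    rw [h1]
    rfl
  refine ⟨g, fun x => ?_⟩
  obtain ⟨r, rfl⟩ := hs x
  rw [← evl_X, hg, hg, evl_X]

end Pool.Agent.TH820.LG
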