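import Mathlib
import Pool.Agent.TH820.LG.I

/-! # Kummer blocks -/

set_option autoImplicit false
set_option linter.unusedSectionVars false

namespace Pool.Agent.TH820.LG

open Polynomial Module
open Equiv (Perm)

section rs
variable (K : Type) {M W : Type} [Field K] [Field M] [Algebra K M] [AddCommGroup W] [Module K W]
  [Module M W] [IsScalarTower K M W]

/-- restriction of scalars -/
def rs : (W ≃ₗ[M] W) →* (W ≃ₗ[K] W) where
  toFun f := f.restrictScalars K
  map_one' := rfl
  map_mul' _ _ := rfl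

@[simp] lemma rs_apply (f : W ≃ₗ[M] W) (w : W) : rs K f w = f w := rfl

lemma det_rs (f : W ≃ₗ[M] W) :
    LinearEquiv.det (rs K f) = Units.map (Algebra.norm K : M →* K) (LinearEquiv.det f) := by
  apply Units.ext
  rw [LinearEquiv.coe_det, Units.coe_map, LinearEquiv.coe_det]
  exact LinearMap.det_restrictScalars (R := K) (S := M) (f := (f : W →ₗ[M] W))

end rs

section dgpm
variable (ι M : Type) [Fintype ι] [DecidableEq ι] [Field M]

/-- diagonal automorphisms -/
def dg : (ι → Mˣ) →* ((ι → M) ≃ₗ[M] (ι → M)) where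
  toFun t :=
    { toFun := fun v i => (t i : M) * v i
      map_add' := fun x y => by ext; simp [mul_add]
      map_smul' := fun c x => by ext; simp; ring
      invFun := fun v i => ((t i)⁻¹ : Mˣ) * v i
      left_inv := fun x => by ext; simp
      right_inv := fun x => by ext; simp }
  map_one' := by ext; simp
  map_mul' a b := by ext; simp [mul_assoc]

@[simp] lemma dg_apply (t : ι → Mˣ) (v : ι → M) (i : ι) : dg ι M t v i = (t i : M) * v i := rfl

lemma det_dg (t : ι → Mˣ) : LinearEquiv.det (dg ι M t) = ∏ i, t i := by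
  apply Units.ext
  rw [LinearEquiv.coe_det, Units.coe_prod]
  have h1 := LinearMap.det_pi (R := M) (M := M) (fun i : ι => LinearMap.mulLeft M (t i : M))
  simp only [LinearMap.det_mulLeft] at h1
  rw [← h1]
  congr 1

/-- permutations of the coordinates -/
def pm : Perm ι →* ((ι → M) ≃ₗ[M] (ι → M)) where
  toFun σ :=
    { toFun := fun v i => v (σ⁻¹ i)
      map_add' := fun x y => rfl
      map_smul' := fun c x => rfl
      invFun := fun v i => v (σ i)
      left_inv := fun x => by ext; simp
      right_inv := fun x => by ext; simp }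
  map_one' := by ext; simp
  map_mul' a b := by ext; simp

@[simp] lemma pm_apply (σ : Perm ι) (v : ι → M) (i : ι) : pm ι M σ v i = v (σ⁻¹ i) := rfl

/-- signs -/
def sg : ℤˣ →* Mˣ := Units.map (Int.castRingHom M : ℤ →* M)

lemma det_pm (σ : Perm ι) : LinearEquiv.det (pm ι M σ) = sg M (Equiv.Perm.sign σ) := by
  apply Units.ext
  rw [LinearEquiv.coe_det, ← LinearMap.det_toMatrix']
  have h1 : LinearMap.toMatrix' ((pm ι M σ : (ι → M) ≃ₗ[M] (ι → M)) : (ι → M) →ₗ[M] (ι → M)) =
      (σ⁻¹ : Perm ι).permMatrix M := by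
    ext i j
    rw [LinearMap.toMatrix'_apply]
    rw [Equiv.Perm.permMatrix, PEquiv.toMatrix_apply, Equiv.toPEquiv_apply]
    change (Pi.single j 1 : ι → M) (σ⁻¹ i) = _
    rw [Pi.single_apply]
    simp only [Option.mem_def, Option.some.injEq]
  rw [h1, Matrix.det_permutation, Equiv.Perm.sign_inv]
  rfl

lemma pm_dg (σ : Perm ι) (t : ι → Mˣ) :
    pm ι M σ * dg ι M t = dg ι M (t ∘ (σ⁻¹ : Perm ι)) * pm ι M σ := by
  ext v i
  rfl

end dgpm

/-- the product over a cyclic progression -/
lemma prod_cyc {M : Type*} [CommMonoid M] {l : ℕ} [NeZero l] (t : ZMod l → M) (i : ZMod l) :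
    ∏ j ∈ Finset.range l, t (i - (j : ZMod l)) = ∏ j, t j := by
  have h1 : ∏ j ∈ Finset.range l, t (i - (j : ZMod l)) = ∏ x : ZMod l, t (i - x) := by
    refine Finset.prod_bij (fun j _ => (j : ZMod l)) (fun _ _ => Finset.mem_univ _) ?_ ?_
      (fun _ _ => rfl)
    · intro a ha b hb hab
      rw [Finset.mem_range] at ha hb
      rw [ZMod.natCast_eq_natCast_iff', Nat.mod_eq_of_lt ha, Nat.mod_eq_of_lt hb] at hab
      exact hab
    · intro x _
      exact ⟨x.val, Finset.mem_range.2 (ZMod.val_lt x), ZMod.natCast_zmod_val x⟩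
  rw [h1]
  exact Equiv.prod_comp (Equiv.subLeft i) t

/-- the monomial automorphism -/
lemma mono_pow {M : Type} [Field M] {l : ℕ} [NeZero l] (t : ZMod l → Mˣ) (k : ℕ)
    (v : ZMod l → M) (i : ZMod l) :
    (((dg (ZMod l) M t * pm (ZMod l) M (Equiv.addRight 1) :
      (ZMod l → M) ≃ₗ[M] (ZMod l → M)) : (ZMod l → M) →ₗ[M] (ZMod l → M)) ^ k) v i =
      (∏ j ∈ Finset.range k, (t (i - (j : ZMod l)) : M)) * v (i - (k : ZMod l)) := by
  induction k generalizing v i with
  | zero => simp
  | succ n ih =>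
    rw [pow_succ, Module.End.mul_apply, ih, Finset.prod_range_succ, mul_assoc]
    congr 1
    change (t (i - (n : ZMod l)) : M) * v ((Equiv.addRight (1 : ZMod l))⁻¹ (i - (n : ZMod l))) = _
    have h1 : (Equiv.addRight (1 : ZMod l))⁻¹ (i - (n : ZMod l)) = i - ((n + 1 : ℕ) : ZMod l) := by
      change i - (n : ZMod l) + -1 = _
      push_cast
      ring
    rw [h1]

end Pool.Agent.TH820.LG
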