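import Mathlib
import Pool.Agent.TH820.LG.K

/-! # Blocks whose degree has a large prime factor -/

set_option autoImplicit false
set_option linter.unusedSectionVars false

namespace Pool.Agent.TH820.LG

open Polynomial Module
open Equiv (Perm)

/-- **Large blocks.** -/
theorem big_block (N : ℝ) : ∃ L₀ : ℕ, 3 ≤ L₀ ∧ ∀ (l : ℕ), l.Prime → L₀ ≤ l →
    ∀ (K L U : Type) [Field K] [Finite K] [Field L] [Algebra K L] [FiniteDimensional K L]
    [AddCommGroup U] [Module K U] [FiniteDimensional K U], l ∣ finrank K L →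
    ∀ (Δ : Subgroup Kˣ) (θ : ((L × U) ≃ₗ[K] (L × U)) → ℂ),
    BV (LinearEquiv.det : ((L × U) ≃ₗ[K] (L × U)) →* Kˣ) Δ N θ →
    ∀ (a : Lˣ) (b : U ≃ₗ[K] U), LinearEquiv.det (ds (mulL K L a) b) ∈ Δ →
    ∃ g : L ≃ₗ[K] L, LinearEquiv.det g = LinearEquiv.det (mulL K L a) ∧
      finrank K (LinearMap.range ((g : L →ₗ[K] L) - 1)) * l ≤ finrank K L ∧
      θ (ds (mulL K L a) b) = θ (ds g b) := by
  classical
  obtain ⟨n₀, hn₀⟩ := kum_block N
  obtain ⟨E₀, hE₀⟩ := exists_nat_ge (N ^ 2)
  set E := E₀ + 1 with hE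
  have hEN : N ^ 2 ≤ (E : ℝ) := hE₀.trans (by rw [hE]; push_cast; linarith)
  refine ⟨max n₀ (E + 3), (by omega : 3 ≤ E + 3).trans (le_max_right _ _), ?_⟩
  intro l hl hnl K L U _ _ _ _ _ _ _ _ hdvd Δ θ h a b hab
  have hfact : Fact l.Prime := ⟨hl⟩
  have hlE : E + 3 ≤ l := (le_max_right _ _).trans hnl
  have hl2 : l ≠ 2 := by omega
  have : Fintype K := Fintype.ofFinite K
  have : Finite L := Module.finite_of_finite K
  have hm : 0 < finrank K L := finrank_pos
  set m := finrank K L with hmdef
  set q := Nat.card K with hq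
  have hq2 : 2 ≤ q := Finite.one_lt_card
  have hlD : ¬ l ∣ E.factorial := by
    rw [hl.dvd_factorial]
    omega
  obtain ⟨j, hj⟩ := arith hq2 hl hl2 hm hdvd hlD
  have hfb := frob_block h hEN (by omega) a b hab j
  rw [← hq] at hfb
  set y : Lˣ := a ^ (1 + (q ^ E.factorial - 1) ^ 2 * j) with hy
  obtain ⟨s, hs⟩ := hdvd
  have hs0 : 0 < s := Nat.pos_of_mul_pos_left (hs ▸ hm)
  have hms : m / l = s := by rw [hs, Nat.mul_div_cancel_left s hl.pos]
  rw [hms] at hj
  have hcardL : Nat.card L = q ^ m := by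
    rw [hmdef, hq]
    exact Module.natCard_eq_pow_finrank
  have hcard : Nat.card Lˣ = q ^ m - 1 := by
    rw [Nat.card_units, hcardL]
  have hypow : y ^ (l * (q ^ s - 1)) = 1 := by
    obtain ⟨r, hr⟩ := hj
    rw [hy, ← pow_mul, hr, ← hcard, pow_mul, pow_card_eq_one', one_pow]
  -- determinants
  have hdet : LinearEquiv.det (mulL K L y) = LinearEquiv.det (mulL K L a) := by
    rw [hy, pow_add, pow_one, map_mul, map_mul]
    have h1 : LinearEquiv.det (mulL K L (a ^ ((q ^ E.factorial - 1) ^ 2 * j))) = 1 := by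
      rw [map_pow, map_pow]
      obtain ⟨R', hR'⟩ : q - 1 ∣ q ^ E.factorial - 1 := Nat.sub_one_dvd_pow_sub_one _ _
      have h3 : (LinearEquiv.det (mulL K L a)) ^ (q - 1) = 1 := by
        have := pow_card_eq_one' (x := LinearEquiv.det (mulL K L a))
        rwa [Nat.card_units, ← hq] at this
      have h4 : (q ^ E.factorial - 1) ^ 2 * j = (q - 1) * (R' * (q ^ E.factorial - 1) * j) := by
        rw [pow_two]
        nth_rewrite 1 [hR']
        ring
      rw [h4, pow_mul, h3, one_pow]
    rw [h1, mul_one]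
  clear_value y
  -- the subfield
  set F := FiniteField.frobeniusAlgEquivOfAlgebraic K L with hF
  have hFs : ∀ x : L, (F ^ s) x = x ^ (q ^ s) := by
    intro x
    have h1 : ∀ k : ℕ, (F ^ k) x = x ^ (q ^ k) := by
      intro k
      induction k with
      | zero => simp
      | succ n ih =>
        rw [pow_succ', AlgEquiv.mul_apply, ih]
        change (x ^ q ^ n) ^ Fintype.card K = _
        rw [← Nat.card_eq_fintype_card, ← hq, ← pow_mul, pow_succ]
    exact h1 s
  have hordF : orderOf F = m := FiniteField.orderOf_frobeniusAlgEquivOfAlgebraic K L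
  have hordFs : orderOf (F ^ s) = l := by
    rw [orderOf_pow_of_dvd hs0.ne' (by rw [hordF, hs]; exact dvd_mul_left _ _), hordF, hs,
      Nat.mul_div_cancel _ hs0]
  set M : IntermediateField K L := IntermediateField.fixedField (Subgroup.zpowers (F ^ s)) with hM
  have hfr : finrank M L = l := by
    rw [hM, IntermediateField.finrank_fixedField_eq_card, Nat.card_zpowers, hordFs]
  have hmem : ∀ x : L, x ^ (q ^ s) = x → x ∈ M := by
    intro x hx
    rw [hM, IntermediateField.mem_fixedField_iff]
    intro f hf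
    have h1 : Subgroup.zpowers (F ^ s) ≤ MulAction.stabilizer (L ≃ₐ[K] L) x := by
      rw [Subgroup.zpowers_le, MulAction.mem_stabilizer_iff]
      change (F ^ s) x = x
      rw [hFs, hx]
    exact MulAction.mem_stabilizer_iff.1 (h1 hf)
  have hfrKM : finrank K M * l = m := by
    rw [← hfr]
    exact Module.finrank_mul_finrank K M L
  have hQ1 : 1 ≤ q ^ s := Nat.one_le_pow _ _ (by omega)
  have hpw : ∀ u : Lˣ, u ^ (q ^ s - 1) = 1 → (u : L) ∈ M := by
    intro u hu
    apply hmem
    have h1 : u ^ (q ^ s) = u := by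
      have h2 : q ^ s = (q ^ s - 1) + 1 := by omega
      rw [h2, pow_succ, hu, one_mul]
    rw [← Units.val_pow_eq_pow_val, h1]
  have hyl : ((y ^ l : Lˣ) : L) ∈ M := hpw _ (by rw [← pow_mul, hypow])
  -- the unit `a'` of `M`
  set a₀ : M := ⟨((y ^ l : Lˣ) : L), hyl⟩ with ha₀
  have ha₀0 : a₀ ≠ 0 := by
    intro h0
    have h1 := congrArg (fun z : M => (z : L)) h0
    exact (y ^ l).ne_zero h1
  set a' : Mˣ := Units.mk0 a₀ ha₀0 with ha'
  have hya : (y : L) ^ l = algebraMap M L a' := by
    rw [← Units.val_pow_eq_pow_val]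
    rfl
  have hcase : (∀ b : M, b ^ l ≠ a') ∨ (∃ b : Mˣ, algebraMap M L b = y) := by
    by_cases hb : ∃ b : M, b ^ l = a'
    · right
      obtain ⟨b, hb⟩ := hb
      have hb0 : b ≠ 0 := by
        rintro rfl
        rw [zero_pow hl.ne_zero] at hb
        exact a'.ne_zero hb.symm
      -- the root of unity
      have hbL : (b : L) ≠ 0 := by
        intro h0
        exact hb0 (Subtype.ext h0)
      set z : Lˣ := y * (Units.mk0 (b : L) hbL)⁻¹ with hz
      have hzl : z ^ l = 1 := by
        apply Units.ext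
        rw [hz, mul_pow, Units.val_mul, inv_pow, Units.val_inv_eq_inv_val,
          Units.val_pow_eq_pow_val, Units.val_pow_eq_pow_val, Units.val_mk0, hya, ← hb, map_pow]
        change (b : L) ^ l * ((b : L) ^ l)⁻¹ = 1
        exact mul_inv_cancel₀ (pow_ne_zero _ hbL)
      have hzM : (z : L) ∈ M := by
        by_cases hz1 : z = 1
        · rw [hz1]
          exact M.one_mem
        · have hoz : orderOf z = l := orderOf_eq_prime hzl hz1
          have h1 : l ∣ q ^ m - 1 := by
            rw [← hcard, ← hoz]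
            exact orderOf_dvd_natCard z
          have h2 : ((q ^ s : ℕ) : ZMod l) = 1 := by
            have h3 : (((q ^ s) ^ l - 1 : ℕ) : ZMod l) = 0 := by
              rw [ZMod.natCast_eq_zero_iff]
              have h4 : (q ^ s) ^ l = q ^ m := by
                rw [← pow_mul, hs, mul_comm]
              rw [h4]
              exact h1
            rw [Nat.cast_sub (Nat.one_le_pow _ _ (by omega)), Nat.cast_pow, ZMod.pow_card,
              Nat.cast_one, sub_eq_zero] at h3
            exact h3
          have h3 : l ∣ q ^ s - 1 := by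
            rw [← ZMod.natCast_eq_zero_iff, Nat.cast_sub hQ1, h2, Nat.cast_one, sub_self]
          apply hpw
          obtain ⟨r, hr⟩ := h3
          rw [hr, pow_mul, hzl, one_pow]
      have hyM : (y : L) ∈ M := by
        have h1 : (y : L) = (z : L) * (b : L) := by
          rw [hz, Units.val_mul, Units.val_inv_eq_inv_val, Units.val_mk0, mul_assoc,
            inv_mul_cancel₀ hbL, mul_one]
        rw [h1]
        exact M.mul_mem hzM b.2
      refine ⟨Units.mk0 ⟨(y : L), hyM⟩ ?_, rfl⟩
      intro h0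
      have h1 := congrArg (fun z : M => (z : L)) h0
      exact y.ne_zero h1
    · left
      push Not at hb
      exact hb
  have hDy : LinearEquiv.det (ds (mulL K L y) b) ∈ Δ := by
    rw [det_ds, hdet, ← det_ds]
    exact hab
  have : Finite U := Module.finite_of_finite K
  obtain ⟨g, hg1, hg2, hg3⟩ := hn₀ l ((le_max_left _ _).trans hnl) hl2 K M L U hfr Δ θ h y a' hya
    hcase b hDy
  refine ⟨g, hg1.trans hdet, ?_, ?_⟩
  · calc finrank K (LinearMap.range ((g : L →ₗ[K] L) - 1)) * l ≤ finrank K M * l :=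
        Nat.mul_le_mul_right _ hg2
      _ = m := hfrKM
  · rw [← hfb, hg3]

end Pool.Agent.TH820.LG
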