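import Mathlib
import Pool.Agent.TH820.LG.L

/-! # Linear characters of groups between `SL` and `GL` -/

set_option autoImplicit false
set_option linter.unusedSectionVars false

namespace Pool.Agent.TH820.LG

open Module Matrix
open Equiv (Perm)

section transv
variable {K : Type} [Field K] {s : ℕ}

lemma tv_aux {i j : Fin s} (hij : i ≠ j) (c : K) :
    (c • (LinearMap.proj j : (Fin s → K) →ₗ[K] K)) (Pi.single i (1 : K)) = 0 := by
  simp [Pi.single_eq_of_ne hij.symm]

/-- elementary transvections -/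
noncomputable def tv (i j : Fin s) (hij : i ≠ j) (c : K) : (Fin s → K) ≃ₗ[K] (Fin s → K) :=
  LinearEquiv.transvection (tv_aux hij c)

lemma tv_apply {i j : Fin s} (hij : i ≠ j) (c : K) (v : Fin s → K) :
    tv i j hij c v = v + (c * v j) • Pi.single i (1 : K) := by
  unfold tv
  rw [LinearEquiv.transvection.apply]
  rfl

lemma det_tv {i j : Fin s} (hij : i ≠ j) (c : K) : LinearEquiv.det (tv i j hij c) = 1 :=
  LinearEquiv.transvection.det_eq_one _

lemma tv_comm {i j k : Fin s} (hij : i ≠ j) (hik : i ≠ k) (hkj : k ≠ j) (c : K) :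
    tv i k hik c * tv k j hkj 1 = tv i j hij c * (tv k j hkj 1 * tv i k hik c) := by
  apply LinearEquiv.ext
  intro v
  rw [LinearEquiv.mul_apply, LinearEquiv.mul_apply, LinearEquiv.mul_apply]
  simp only [tv_apply]
  funext l
  simp only [Pi.add_apply, Pi.smul_apply, smul_eq_mul, Pi.single_apply]
  have h1 : k ≠ i := hik.symm
  have h2 : j ≠ i := hij.symm
  have h3 : j ≠ k := hkj.symm
  by_cases hl : l = i
  · subst hl
    simp [hik, h2, h3]
    ring
  · by_cases hl2 : l = k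
    · subst hl2
      simp [hl, h2, h3]
    · simp [hl, hl2]

end transv

section lin
variable {K : Type} [Field K] {s : ℕ} (Δ : Subgroup Kˣ)

/-- the group of automorphisms with determinant in `Δ` -/
noncomputable abbrev GD (K : Type) [Field K] (s : ℕ) (Δ : Subgroup Kˣ) : Subgroup ((Fin s → K) ≃ₗ[K] (Fin s → K)) :=
  Δ.comap LinearEquiv.det

variable {Δ}

lemma psi_tv (hs : 3 ≤ s) (ψ : GD K s Δ →* ℂˣ) {i j : Fin s} (hij : i ≠ j) (c : K)
    (hm : tv i j hij c ∈ GD K s Δ) : ψ ⟨tv i j hij c, hm⟩ = 1 := by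
  have hmem : ∀ (i j : Fin s) (hij : i ≠ j) (c : K), tv i j hij c ∈ GD K s Δ := by
    intro i j hij c
    rw [Subgroup.mem_comap, det_tv]
    exact Δ.one_mem
  obtain ⟨k, hk1, hk2⟩ : ∃ k : Fin s, k ≠ i ∧ k ≠ j := by
    have h1 : ({i, j} : Finset (Fin s)).card < (Finset.univ : Finset (Fin s)).card := by
      rw [Finset.card_univ, Fintype.card_fin]
      exact lt_of_le_of_lt Finset.card_le_two (by omega)
    obtain ⟨k, -, hk⟩ := Finset.exists_mem_notMem_of_card_lt_card h1
    refine ⟨k, ?_, ?_⟩ <;> rintro rfl <;> simp at hk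
  have h1 := tv_comm hij hk1.symm hk2 c
  have h2 : (⟨_, hmem i k hk1.symm c⟩ : GD K s Δ) * ⟨_, hmem k j hk2 1⟩ =
      ⟨_, hm⟩ * (⟨_, hmem k j hk2 1⟩ * ⟨_, hmem i k hk1.symm c⟩) := Subtype.ext h1
  have h3 := congrArg ψ h2
  rw [map_mul, map_mul, map_mul, mul_comm (ψ ⟨_, hmem k j hk2 1⟩)] at h3
  exact mul_eq_right.1 h3.symm

/-- Gauss elimination -/
lemma gauss (h : (Fin s → K) ≃ₗ[K] (Fin s → K)) :
    ∃ (L L' : List (TransvectionStruct (Fin s) K)) (D : Fin s → Kˣ),
      h = (L.map fun t => tv t.i t.j t.hij t.c).prod * dg (Fin s) K D *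
        (L'.map fun t => tv t.i t.j t.hij t.c).prod := by
  classical
  obtain ⟨L, L', D, hM⟩ := Matrix.Pivot.exists_list_transvec_mul_diagonal_mul_list_transvec
    (LinearMap.toMatrix' (h : (Fin s → K) →ₗ[K] (Fin s → K)))
  have hdet : (LinearMap.toMatrix' (h : (Fin s → K) →ₗ[K] (Fin s → K))).det ≠ 0 := by
    rw [LinearMap.det_toMatrix', ← LinearEquiv.coe_det]
    exact (LinearEquiv.det h).ne_zero
  rw [hM, det_mul, det_mul, TransvectionStruct.det_toMatrix_prod,
    TransvectionStruct.det_toMatrix_prod, det_diagonal, one_mul, mul_one] at hdet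
  have hD : ∀ i, D i ≠ 0 := fun i hi => hdet (Finset.prod_eq_zero (Finset.mem_univ i) hi)
  have htv : ∀ t : TransvectionStruct (Fin s) K,
      LinearMap.toMatrix' ((tv t.i t.j t.hij t.c : (Fin s → K) ≃ₗ[K] (Fin s → K)) :
        (Fin s → K) →ₗ[K] (Fin s → K)) = t.toMatrix := by
    intro t
    obtain ⟨i, j, hij, c⟩ := t
    ext a b
    rw [LinearMap.toMatrix'_apply]
    change tv i j hij c (Pi.single b 1) a = (transvection i j c) a b
    rw [tv_apply, transvection, Matrix.add_apply, Matrix.one_apply, Matrix.single_apply,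
      Pi.add_apply, Pi.smul_apply, Pi.single_apply, Pi.single_apply, Pi.single_apply, smul_eq_mul]
    congr 1
    by_cases h2 : i = a
    · subst h2
      by_cases h3 : j = b
      · subst h3
        simp
      · simp [h3]
    · have h2' : ¬ a = i := fun h => h2 h.symm
      simp [h2, h2']
  have hlist : ∀ L : List (TransvectionStruct (Fin s) K),
      LinearMap.toMatrix' (((L.map fun t => tv t.i t.j t.hij t.c).prod :
        (Fin s → K) ≃ₗ[K] (Fin s → K)) : (Fin s → K) →ₗ[K] (Fin s → K)) =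
        (L.map TransvectionStruct.toMatrix).prod := by
    intro L
    induction L with
    | nil => 
      simp only [List.map_nil, List.prod_nil]
      exact LinearMap.toMatrix'_id
    | cons t L ih =>
      simp only [List.map_cons, List.prod_cons]
      rw [← ih, ← htv, ← LinearMap.toMatrix'_mul]
      rfl
  refine ⟨L, L', fun i => Units.mk0 (D i) (hD i), ?_⟩
  apply LinearEquiv.toLinearMap_injective
  apply LinearMap.toMatrix'.injective
  rw [hM]
  have e1 : (((L.map fun t => tv t.i t.j t.hij t.c).prod *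
      dg (Fin s) K (fun i => Units.mk0 (D i) (hD i)) *
        (L'.map fun t => tv t.i t.j t.hij t.c).prod : (Fin s → K) ≃ₗ[K] (Fin s → K)) :
        (Fin s → K) →ₗ[K] (Fin s → K)) =
      ((((L.map fun t => tv t.i t.j t.hij t.c).prod : (Fin s → K) ≃ₗ[K] (Fin s → K)) :
        (Fin s → K) →ₗ[K] (Fin s → K)) *
      ((dg (Fin s) K (fun i => Units.mk0 (D i) (hD i)) : (Fin s → K) ≃ₗ[K] (Fin s → K)) :
        (Fin s → K) →ₗ[K] (Fin s → K)) *
      (((L'.map fun t => tv t.i t.j t.hij t.c).prod : (Fin s → K) ≃ₗ[K] (Fin s → K)) :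
        (Fin s → K) →ₗ[K] (Fin s → K)) : (Fin s → K) →ₗ[K] (Fin s → K)) := rfl
  rw [e1, LinearMap.toMatrix'_mul, LinearMap.toMatrix'_mul, hlist, hlist]
  congr 2
  ext a b
  rw [LinearMap.toMatrix'_apply]
  change _ = ((Units.mk0 (D a) (hD a) : Kˣ) : K) * (Pi.single b 1 : Fin s → K) a
  rw [diagonal_apply, Pi.single_apply]
  by_cases h1 : a = b <;> simp [h1]

/-- linear characters see only the diagonal part -/
lemma psi_diag (hs : 3 ≤ s) (h : (Fin s → K) ≃ₗ[K] (Fin s → K)) (hh : h ∈ GD K s Δ) :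
    ∃ (D : Fin s → Kˣ) (hD : dg (Fin s) K D ∈ GD K s Δ),
      LinearEquiv.det h = LinearEquiv.det (dg (Fin s) K D) ∧
      ∀ ψ : GD K s Δ →* ℂˣ, ψ ⟨h, hh⟩ = ψ ⟨dg (Fin s) K D, hD⟩ := by
  obtain ⟨L, L', D, hL⟩ := gauss h
  have hmem : ∀ (i j : Fin s) (hij : i ≠ j) (c : K), tv i j hij c ∈ GD K s Δ := by
    intro i j hij c
    rw [Subgroup.mem_comap, det_tv]
    exact Δ.one_mem
  have hl : ∀ L : List (TransvectionStruct (Fin s) K),
      LinearEquiv.det (L.map fun t => tv t.i t.j t.hij t.c).prod = 1 ∧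
      ∀ (hm : (L.map fun t => tv t.i t.j t.hij t.c).prod ∈ GD K s Δ) (ψ : GD K s Δ →* ℂˣ),
        ψ ⟨_, hm⟩ = 1 := by
    intro L
    induction L with
    | nil =>
      refine ⟨by simp, fun hm ψ => ?_⟩
      exact map_one ψ
    | cons t L ih =>
      obtain ⟨ih1, ih2⟩ := ih
      refine ⟨by simp [det_tv, ih1], fun hm ψ => ?_⟩
      have hm1 : (L.map fun t => tv t.i t.j t.hij t.c).prod ∈ GD K s Δ := by
        rw [Subgroup.mem_comap, ih1]
        exact Δ.one_mem
      have e : (⟨_, hm⟩ : GD K s Δ) = ⟨_, hmem t.i t.j t.hij t.c⟩ * ⟨_, hm1⟩ := by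
        apply Subtype.ext
        simp
      rw [e, map_mul, ih2, psi_tv hs, mul_one]
  have hdet : LinearEquiv.det h = LinearEquiv.det (dg (Fin s) K D) := by
    rw [hL, map_mul, map_mul, (hl L).1, (hl L').1, one_mul, mul_one]
  have hD : dg (Fin s) K D ∈ GD K s Δ := by
    rw [Subgroup.mem_comap, ← hdet]
    exact hh
  have hm1 : (L.map fun t => tv t.i t.j t.hij t.c).prod ∈ GD K s Δ := by
    rw [Subgroup.mem_comap, (hl L).1]
    exact Δ.one_mem
  have hm2 : (L'.map fun t => tv t.i t.j t.hij t.c).prod ∈ GD K s Δ := by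
    rw [Subgroup.mem_comap, (hl L').1]
    exact Δ.one_mem
  refine ⟨D, hD, hdet, fun ψ => ?_⟩
  have e : (⟨h, hh⟩ : GD K s Δ) = ⟨_, hm1⟩ * ⟨_, hD⟩ * ⟨_, hm2⟩ := by
    apply Subtype.ext
    exact hL
  rw [e, map_mul, map_mul, (hl L).2, (hl L').2, one_mul, mul_one]

end lin

end Pool.Agent.TH820.LG
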