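import Mathlib
import Pool.Agent.TH820.LG.M1

/-! # Elements with many fixed vectors -/

set_option autoImplicit false
set_option linter.unusedSectionVars false

namespace Pool.Agent.TH820.LG

open Module
open Equiv (Perm)

section pi
variable {K U : Type} [Field K] [AddCommGroup U] [Module K U] {R : ℕ}

/-- blockwise automorphisms -/
def piE (K U : Type) [Field K] [AddCommGroup U] [Module K U] (R : ℕ) :
    (Fin R → (U ≃ₗ[K] U)) →* ((Fin R → U) ≃ₗ[K] (Fin R → U)) where
  toFun b := LinearEquiv.piCongrRight b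
  map_one' := rfl
  map_mul' _ _ := rfl

@[simp] lemma piE_apply (b : Fin R → (U ≃ₗ[K] U)) (v : Fin R → U) (i : Fin R) :
    piE K U R b v i = b i (v i) := rfl

lemma det_piE [FiniteDimensional K U] (b : Fin R → (U ≃ₗ[K] U)) :
    LinearEquiv.det (piE K U R b) = ∏ i, LinearEquiv.det (b i) := by
  apply Units.ext
  rw [LinearEquiv.coe_det, Units.coe_prod]
  simp only [LinearEquiv.coe_det]
  rw [← LinearMap.det_pi]
  rfl

end pi

/-- an automorphism of `K^t` of given determinant -/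
def sc (K : Type) [Field K] (t : ℕ) (d : Kˣ) : (Fin (t + 1) → K) ≃ₗ[K] (Fin (t + 1) → K) :=
  dg (Fin (t + 1)) K (Pi.mulSingle 0 d)

lemma det_sc (K : Type) [Field K] (t : ℕ) (d : Kˣ) : LinearEquiv.det (sc K t d) = d := by
  rw [sc, det_dg]
  simp

section block
variable {K : Type} [Field K] [Finite K] {s R t : ℕ} {Δ : Subgroup Kˣ} {N : ℝ}
  {θ : (((Fin (R + 1) → (Fin s → K)) × (Fin (t + 1) → K)) ≃ₗ[K]
    ((Fin (R + 1) → (Fin s → K)) × (Fin (t + 1) → K))) → ℂ}

lemma pow_block1 (h : BV LinearEquiv.det Δ N θ) {E : ℕ} (hE : N ^ 2 ≤ E)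
    (hR : 2 * E < R + 1) (hR2 : N < 2 ^ R) {x y : GD K s Δ}
    (hxy : ∀ ψ : GD K s Δ →* ℂˣ, ψ x = ψ y) :
    θ (ds (piE K (Fin s → K) (R + 1) (Pi.mulSingle 0 (x : (Fin s → K) ≃ₗ[K] (Fin s → K)))) 1) =
      θ (ds (piE K (Fin s → K) (R + 1) (Pi.mulSingle 0 (y : (Fin s → K) ≃ₗ[K] (Fin s → K)))) 1) := by
  classical
  let φ : (Fin (R + 1) → GD K s Δ) →* (((Fin (R + 1) → (Fin s → K)) × (Fin (t + 1) → K)) ≃ₗ[K]
    ((Fin (R + 1) → (Fin s → K)) × (Fin (t + 1) → K))) :=
    { toFun := fun b => ds (piE K (Fin s → K) (R + 1)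
        (fun i => (b i : (Fin s → K) ≃ₗ[K] (Fin s → K)))) 1
      map_one' := rfl
      map_mul' := fun _ _ => rfl }
  have hφ : ∀ b, φ b = ds (piE K (Fin s → K) (R + 1)
        (fun i => (b i : (Fin s → K) ≃ₗ[K] (Fin s → K)))) 1 := fun _ => rfl
  have hφD : ∀ b, LinearEquiv.det (φ b) ∈ Δ := by
    intro b
    rw [hφ, det_ds, map_one, mul_one, det_piE]
    exact Δ.prod_mem fun i _ => (b i).2
  have h1 := h.power hE (ι := Fin (R + 1)) (H := GD K s Δ) (by rw [Fintype.card_fin]; exact hR)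
    (by rw [Fintype.card_fin]; exact hR2) φ hφD (by
      intro σ
      set P0 := LinearEquiv.funCongrLeft K (Fin s → K) σ with hP0
      refine ⟨ds P0 (sc K t (LinearEquiv.det P0)⁻¹), fun b => ?_, ?_⟩
      · rw [mul_inv_eq_iff_eq_mul, hφ, hφ, ds_mul, ds_mul, mul_one, one_mul]
        congr 1
        apply LinearEquiv.ext
        intro v
        funext i
        rfl
      · rw [det_ds, det_sc, mul_inv_cancel]
        exact Δ.one_mem) 0 hxy
  have e : ∀ x : GD K s Δ, φ (Pi.mulSingle 0 x) =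
      ds (piE K (Fin s → K) (R + 1) (Pi.mulSingle 0 (x : (Fin s → K) ≃ₗ[K] (Fin s → K)))) 1 := by
    intro x
    rw [hφ]
    congr 2
    funext i
    by_cases hi : i = 0
    · subst hi
      rw [Pi.mulSingle_eq_same, Pi.mulSingle_eq_same]
    · rw [Pi.mulSingle_eq_of_ne hi, Pi.mulSingle_eq_of_ne hi]
      rfl
  rw [e, e] at h1
  exact h1

lemma pow_block2 (h : BV LinearEquiv.det Δ N θ) {E : ℕ} (hE : N ^ 2 ≤ E)
    (hs : 2 * E + 4 < s) (D D' : Fin s → Kˣ) (hDD : ∏ i, D i = ∏ i, D' i)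
    (hD : dg (Fin s) K D ∈ GD K s Δ) :
    θ (ds (piE K (Fin s → K) (R + 1) (Pi.mulSingle 0 (dg (Fin s) K D'))) 1) =
      θ (ds (piE K (Fin s → K) (R + 1) (Pi.mulSingle 0 (dg (Fin s) K D))) 1) := by
  classical
  let φ : (Fin s → Kˣ) →* (((Fin (R + 1) → (Fin s → K)) × (Fin (t + 1) → K)) ≃ₗ[K]
    ((Fin (R + 1) → (Fin s → K)) × (Fin (t + 1) → K))) :=
    (dsl K (Fin (R + 1) → (Fin s → K)) (Fin (t + 1) → K)).comp
      ((piE K (Fin s → K) (R + 1)).comp
        ((MonoidHom.mulSingle (fun _ : Fin (R + 1) => ((Fin s → K) ≃ₗ[K] (Fin s → K))) 0).comp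
          (dg (Fin s) K)))
  have hφ : ∀ t, φ t = ds (piE K (Fin s → K) (R + 1) (Pi.mulSingle 0 (dg (Fin s) K t))) 1 :=
    fun _ => rfl
  have h1 := h.sym hE (A := Kˣ) (Z := Unit) (ι := Fin s) (by rw [Fintype.card_fin]; exact hs)
    φ 1 (fun _ _ => by simp) (by
      intro i j
      set P1 := piE K (Fin s → K) (R + 1) (Pi.mulSingle 0 (pm (Fin s) K (Equiv.swap i j))) with hP1
      refine ⟨ds P1 (sc K t (LinearEquiv.det P1)⁻¹), fun b => ?_, fun _ => by simp, ?_⟩
      · rw [mul_inv_eq_iff_eq_mul, hφ, hφ, ds_mul, ds_mul, mul_one, one_mul, hP1, ← map_mul,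
          ← map_mul, ← Pi.mulSingle_mul, ← Pi.mulSingle_mul, pm_dg, Equiv.swap_inv]
      · rw [det_ds, det_sc, mul_inv_cancel]
        exact Δ.one_mem) D D' hDD () (by
      rw [hφ, MonoidHom.one_apply, mul_one, det_ds, map_one, mul_one, det_piE]
      rw [Finset.prod_eq_single 0]
      · rw [Pi.mulSingle_eq_same]
        exact hD
      · intro i _ hi
        rw [Pi.mulSingle_eq_of_ne hi, map_one]
      · intro h0
        exact absurd (Finset.mem_univ _) h0)
  rw [MonoidHom.one_apply, mul_one, mul_one, hφ, hφ] at h1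
  exact h1

/-- On one block, only the determinant matters. -/
lemma pow_block (h : BV LinearEquiv.det Δ N θ) {E : ℕ} (hE : N ^ 2 ≤ E)
    (hs : 2 * E + 4 < s) (hR : 2 * E < R + 1) (hR2 : N < 2 ^ R)
    (x y : (Fin s → K) ≃ₗ[K] (Fin s → K)) (hx : LinearEquiv.det x ∈ Δ)
    (hxy : LinearEquiv.det x = LinearEquiv.det y) :
    θ (ds (piE K (Fin s → K) (R + 1) (Pi.mulSingle 0 x)) 1) =
      θ (ds (piE K (Fin s → K) (R + 1) (Pi.mulSingle 0 y)) 1) := by
  have hy : LinearEquiv.det y ∈ Δ := hxy ▸ hx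
  obtain ⟨D, hD, hD1, hD2⟩ := psi_diag (Δ := Δ) (by omega) x hx
  obtain ⟨D', hD', hD1', hD2'⟩ := psi_diag (Δ := Δ) (by omega) y hy
  have h1 := pow_block1 (t := t) h hE hR hR2 hD2
  have h2 := pow_block1 (t := t) h hE hR hR2 hD2'
  have h3 : ∏ i, D i = ∏ i, D' i := by
    rw [← det_dg (Fin s) K D, ← det_dg (Fin s) K D', ← hD1, ← hD1', hxy]
  have h4 := pow_block2 (t := t) (R := R) h hE hs D D' h3 hD
  simp only at h1 h2
  rw [h1, h2, h4]

end block

section rank
variable {K V : Type} [Field K] [AddCommGroup V] [Module K V] [FiniteDimensional K V]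

lemma exists_sub (W : Submodule K V) (r : ℕ) (h : r ≤ finrank K W) :
    ∃ U : Submodule K V, U ≤ W ∧ finrank K U = r := by
  let b := Module.finBasis K W
  let f : Fin r → V := fun i => (b (Fin.castLE h i) : V)
  have hf : LinearIndependent K f := by
    have h1 : LinearIndependent K (fun i : Fin (finrank K W) => ((b i : W) : V)) :=
      b.linearIndependent.map' W.subtype (Submodule.ker_subtype W)
    exact h1.comp _ (Fin.castLE_injective h)
  refine ⟨Submodule.span K (Set.range f), ?_, ?_⟩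
  · rw [Submodule.span_le]
    rintro _ ⟨i, rfl⟩
    exact (b _).2
  · rw [finrank_span_eq_card hf, Fintype.card_fin]

/-- an automorphism which is the identity on the second factor and modulo the first -/
lemma exists_ds {U W : Type} [AddCommGroup U] [Module K U] [AddCommGroup W] [Module K W]
    (y : (U × W) ≃ₗ[K] (U × W)) (h1 : ∀ v, (y v).2 = v.2) (h2 : ∀ w, y (0, w) = (0, w)) :
    ∃ g : U ≃ₗ[K] U, y = ds g 1 := by
  have h3 : ∀ v, (y.symm v).2 = v.2 := by
    intro v
    have := h1 (y.symm v)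
    rw [y.apply_symm_apply] at this
    exact this.symm
  have h4 : ∀ u, y (u, 0) = ((y (u, 0)).1, 0) := fun u => Prod.ext rfl (h1 _)
  have h5 : ∀ u, y.symm (u, 0) = ((y.symm (u, 0)).1, 0) := fun u => Prod.ext rfl (h3 _)
  let g : U ≃ₗ[K] U :=
    { toFun := fun u => (y (u, 0)).1
      map_add' := fun a b => by
        have : ((a + b, 0) : U × W) = (a, 0) + (b, 0) := by simp
        rw [this, map_add]
        rfl
      map_smul' := fun c a => by
        have : ((c • a, 0) : U × W) = c • (a, 0) := by simp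
        rw [this, map_smul]
        rfl
      invFun := fun u => (y.symm (u, 0)).1
      left_inv := fun u => by
        simp only
        rw [← h4, y.symm_apply_apply]
      right_inv := fun u => by
        simp only
        rw [← h5, y.apply_symm_apply] }
  refine ⟨g, ?_⟩
  apply LinearEquiv.ext
  rintro ⟨u, w⟩
  have e : ((u, w) : U × W) = (u, 0) + (0, w) := by simp
  rw [e, map_add, h2, h4]
  rw [← e]
  change _ = (g u, w)
  simp only [Prod.mk_add_mk, add_zero, zero_add]
  rfl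

lemma split_rank (x : V ≃ₗ[K] V) {r s : ℕ}
    (hr : finrank K (LinearMap.range ((x : V →ₗ[K] V) - 1)) ≤ r) (hs : 2 * r ≤ s)
    {W : Type} [AddCommGroup W] [Module K W] [FiniteDimensional K W]
    (hW : finrank K W + s = finrank K V) :
    ∃ (e : ((Fin s → K) × W) ≃ₗ[K] V) (g : (Fin s → K) ≃ₗ[K] (Fin s → K)),
      x = cj e (ds g 1) := by
  classical
  set N1 := LinearMap.range ((x : V →ₗ[K] V) - 1) with hN1
  set N0 := LinearMap.ker ((x : V →ₗ[K] V) - 1) with hN0
  have hrk : finrank K N1 + finrank K N0 = finrank K V :=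
    LinearMap.finrank_range_add_finrank_ker _
  obtain ⟨B0, hB0d, hB0s⟩ := IsModularLattice.exists_disjoint_and_sup_eq
    (inf_le_right : N1 ⊓ N0 ≤ N0)
  have hB0 : B0 ≤ N0 := hB0s ▸ le_sup_right
  have hfB0 : finrank K V ≤ finrank K B0 + 2 * r := by
    have h1 := Submodule.finrank_sup_add_finrank_inf_eq (N1 ⊓ N0) B0
    rw [hB0s, hB0d.eq_bot, finrank_bot] at h1
    have h2 : finrank K (N1 ⊓ N0 : Submodule K V) ≤ finrank K N1 :=
      Submodule.finrank_mono inf_le_left
    omega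
  obtain ⟨B, hB, hBr⟩ := exists_sub B0 (finrank K W) (by omega)
  have hdis : Disjoint N1 B := by
    rw [disjoint_iff_inf_le]
    have h1 : N1 ⊓ B ≤ (N1 ⊓ N0) ⊓ B0 :=
      le_inf (le_inf inf_le_left (inf_le_right.trans (hB.trans hB0))) (inf_le_right.trans hB)
    exact h1.trans hB0d.eq_bot.le
  obtain ⟨A, hNA, hAB⟩ := hdis.exists_isCompl
  have hfA : finrank K A = s := by
    have h1 := Submodule.finrank_add_eq_of_isCompl hAB
    omega
  let eA : (Fin s → K) ≃ₗ[K] A := LinearEquiv.ofFinrankEq _ _ (by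
    rw [Module.finrank_fin_fun, hfA])
  let eB : W ≃ₗ[K] B := LinearEquiv.ofFinrankEq _ _ hBr.symm
  let e : ((Fin s → K) × W) ≃ₗ[K] V :=
    (LinearEquiv.prodCongr eA eB).trans (Submodule.prodEquivOfIsCompl A B hAB)
  have he : ∀ u w, e (u, w) = (eA u : V) + (eB w : V) := fun u w => rfl
  have hes : ∀ v : V, v ∈ A → (e.symm v).2 = 0 := by
    intro v hv
    have h1 : e (eA.symm ⟨v, hv⟩, 0) = v := by
      rw [he]
      simp
    rw [← h1, e.symm_apply_apply]
  obtain ⟨g, hg⟩ := exists_ds ((cj e).symm x) (by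
    intro v
    change (e.symm (x (e v))).2 = v.2
    have h1 : x (e v) = e v + (x (e v) - e v) := by abel
    have h2 : x (e v) - e v ∈ A := hNA ⟨e v, rfl⟩
    rw [h1, map_add, e.symm_apply_apply, Prod.snd_add, hes _ h2, add_zero]) (by
    intro w
    change e.symm (x (e (0, w))) = (0, w)
    have h1 : e (0, w) = (eB w : V) := by
      rw [he]
      simp
    have h2 : ((eB w : B) : V) ∈ N0 := hB0 (hB (eB w).2)
    have h3 : x (eB w : V) = (eB w : V) := by
      have h4 : (x : V →ₗ[K] V) (eB w : V) - (eB w : V) = 0 := h2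
      exact sub_eq_zero.1 h4
    rw [h1, h3, ← h1, e.symm_apply_apply])
  refine ⟨e, g, ?_⟩
  rw [← hg, MulEquiv.apply_symm_apply]

end rank

/-- **Elements with many fixed vectors.** -/
theorem small_rank (N : ℝ) : ∃ R₀ : ℕ, ∀ (K V : Type) [Field K] [Finite K] [AddCommGroup V]
    [Module K V] [FiniteDimensional K V] (Δ : Subgroup Kˣ) (θ : (V ≃ₗ[K] V) → ℂ),
    BV LinearEquiv.det Δ N θ → ∀ (r : ℕ), (r + 1) * R₀ ≤ finrank K V → ∀ x y : V ≃ₗ[K] V,
    finrank K (LinearMap.range ((x : V →ₗ[K] V) - 1)) ≤ r →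
    finrank K (LinearMap.range ((y : V →ₗ[K] V) - 1)) ≤ r →
    LinearEquiv.det x ∈ Δ → LinearEquiv.det x = LinearEquiv.det y → θ x = θ y := by
  classical
  obtain ⟨E, hE⟩ := exists_nat_ge (N ^ 2)
  obtain ⟨R1, hR1⟩ := pow_unbounded_of_one_lt N (one_lt_two : (1 : ℝ) < 2)
  set R := R1 + 2 * E with hR
  refine ⟨(R + 1) * (2 * E + 7) + 1, ?_⟩
  intro K V _ _ _ _ _ Δ θ h r hn x y hx hy hxΔ hxy
  have : Finite V := Module.finite_of_finite K
  set s := 2 * r + 2 * E + 5 with hs
  have hn2 : (R + 1) * s + 1 ≤ finrank K V := by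
    refine le_trans ?_ hn
    have h1 : s ≤ (r + 1) * (2 * E + 7) := by
      rw [hs]
      nlinarith
    calc (R + 1) * s + 1 ≤ (R + 1) * ((r + 1) * (2 * E + 7)) + (r + 1) :=
        add_le_add (Nat.mul_le_mul_left _ h1) (by omega)
      _ = (r + 1) * ((R + 1) * (2 * E + 7) + 1) := by ring
  obtain ⟨t, ht⟩ : ∃ t, finrank K V = (R + 1) * s + (t + 1) :=
    ⟨finrank K V - ((R + 1) * s + 1), by omega⟩
  have hsR : s ≤ (R + 1) * s := Nat.le_mul_of_pos_left _ (by omega)
  have hR2 : N < 2 ^ R := by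
    refine hR1.trans_le ?_
    exact pow_le_pow_right₀ (by norm_num) (by omega)
  have hW : finrank K ((Fin R → (Fin s → K)) × (Fin (t + 1) → K)) + s = finrank K V := by
    rw [Module.finrank_prod, Module.finrank_pi_fintype, Module.finrank_fin_fun, ht]
    simp only [Module.finrank_fin_fun]
    rw [Finset.sum_const, Finset.card_univ, Fintype.card_fin, smul_eq_mul]
    ring
  obtain ⟨e, g, hg⟩ := split_rank x hx (s := s) (by omega) hW
  obtain ⟨e', g', hg'⟩ := split_rank y hy (s := s) (by omega) hW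
  have hgd : LinearEquiv.det g = LinearEquiv.det x := by
    rw [hg, det_cj, det_ds, map_one, mul_one]
  have hgd' : LinearEquiv.det g' = LinearEquiv.det y := by
    rw [hg', det_cj, det_ds, map_one, mul_one]
  -- move `y` to the first decomposition
  have h1 : θ y = θ (cj e (ds g' 1)) := by
    set G : V ≃ₗ[K] V := e.symm.trans e' with hG
    have h2 : y = G * cj e (ds g' 1) * G⁻¹ := by
      rw [eq_mul_inv_iff_mul_eq]
      apply LinearEquiv.ext
      intro v
      rw [hg']
      change e' (ds g' 1 (e'.symm (e' (e.symm v)))) = e' (e.symm (e (ds g' 1 (e.symm v))))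
      rw [e'.symm_apply_apply, e.symm_apply_apply]
    have h3 : LinearEquiv.det (cj e (ds g' 1)) = LinearEquiv.det y := by
      rw [det_cj, det_ds, map_one, mul_one, hgd']
    conv_lhs => rw [h2]
    refine h.conj' (c := cj e (ds 1 (ds 1 (sc K t (LinearEquiv.det G)⁻¹)))) ?_ ?_ ?_
    · rw [h3, ← hxy]
      exact hxΔ
    · rw [← map_mul, ← map_mul, ds_mul, ds_mul, one_mul, one_mul, mul_one, mul_one]
    · rw [map_mul, det_cj, det_ds, det_ds, det_sc, map_one, map_one, one_mul, one_mul,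
        mul_inv_cancel]
      exact Δ.one_mem
  -- pass to the block form
  let E0 : ((Fin (R + 1) → (Fin s → K)) × (Fin (t + 1) → K)) ≃ₗ[K]
      ((Fin s → K) × ((Fin R → (Fin s → K)) × (Fin (t + 1) → K))) :=
    (LinearEquiv.prodCongr (Fin.consLinearEquiv K (fun _ : Fin (R + 1) => (Fin s → K))).symm
      (LinearEquiv.refl K _)).trans (LinearEquiv.prodAssoc K _ _ _)
  have hE0 : ∀ g : (Fin s → K) ≃ₗ[K] (Fin s → K),
      cj E0 (ds (piE K (Fin s → K) (R + 1) (Pi.mulSingle 0 g)) 1) = ds g 1 := by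
    intro g
    apply (cj E0).symm.injective
    rw [MulEquiv.symm_apply_apply]
    apply LinearEquiv.ext
    rintro ⟨v, w⟩
    change (_, _) = E0.symm (ds g 1 (E0 (v, w)))
    have e1 : E0 (v, w) = (v 0, (fun i => v i.succ, w)) := rfl
    have e2 : ∀ a b c, E0.symm (a, (b, c)) = (Fin.cons a b, c) := fun a b c => rfl
    rw [e1, ds_apply]
    change (_, _) = E0.symm (g (v 0), ((fun i => v i.succ), w))
    rw [e2]
    apply Prod.ext
    · funext i
      refine Fin.cases ?_ (fun i => ?_) i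
      · change piE K (Fin s → K) (R + 1) (Pi.mulSingle 0 g) v 0 = _
        rw [piE_apply, Pi.mulSingle_eq_same]
        rfl
      · change piE K (Fin s → K) (R + 1) (Pi.mulSingle 0 g) v i.succ = _
        rw [piE_apply, Pi.mulSingle_eq_of_ne (Fin.succ_ne_zero i)]
        rfl
    · rfl
  have h4 := pow_block ((h.cj e).cj E0) hE (by omega) (by omega) hR2 g g' (by
    rw [hgd]; exact hxΔ) (by rw [hgd, hgd', hxy])
  simp only [hE0] at h4
  rw [h1, ← h4, ← hg]

end Pool.Agent.TH820.LG
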