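import Mathlib
import Pool.Agent.TH820.LG.M2

/-! # Replacing a block inside a larger space -/

set_option autoImplicit false
set_option linter.unusedSectionVars false

namespace Pool.Agent.TH820.LG

open Module Polynomial

section rk
variable {K V V' U : Type} [Field K] [AddCommGroup V] [Module K V] [FiniteDimensional K V]
  [AddCommGroup V'] [Module K V'] [FiniteDimensional K V'] [AddCommGroup U] [Module K U]
  [FiniteDimensional K U]

/-- rank of `g - 1` -/
noncomputable def rk (g : V ≃ₗ[K] V) : ℕ := finrank K (LinearMap.range ((g : V →ₗ[K] V) - 1))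

lemma rk_le (g : V ≃ₗ[K] V) : rk g ≤ finrank K V := Submodule.finrank_le _

lemma rk_cj (e : V ≃ₗ[K] V') (g : V ≃ₗ[K] V) : rk (cj e g) = rk g := by
  unfold rk
  have h1 : LinearMap.range (((cj e g : V' ≃ₗ[K] V') : V' →ₗ[K] V') - 1) =
      (LinearMap.range ((g : V →ₗ[K] V) - 1)).map (e : V →ₗ[K] V') := by
    ext v
    simp only [LinearMap.mem_range, Submodule.mem_map]
    constructor
    · rintro ⟨w, rfl⟩
      refine ⟨((g : V →ₗ[K] V) - 1) (e.symm w), ⟨e.symm w, rfl⟩, ?_⟩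
      change e (g (e.symm w) - e.symm w) = e (g (e.symm w)) - w
      rw [map_sub, e.apply_symm_apply]
    · rintro ⟨_, ⟨w, rfl⟩, rfl⟩
      refine ⟨e w, ?_⟩
      change e (g (e.symm (e w))) - e w = e (g w - w)
      rw [map_sub, e.symm_apply_apply]
  rw [h1]
  exact LinearEquiv.finrank_map_eq e _

lemma rk_ds (g : V ≃ₗ[K] V) (h : U ≃ₗ[K] U) : rk (ds g h) ≤ rk g + rk h := by
  unfold rk
  have h1 : LinearMap.range (((ds g h : (V × U) ≃ₗ[K] (V × U)) : (V × U) →ₗ[K] (V × U)) - 1) ≤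
      (LinearMap.range ((g : V →ₗ[K] V) - 1)).prod (LinearMap.range ((h : U →ₗ[K] U) - 1)) := by
    rintro _ ⟨⟨v, u⟩, rfl⟩
    exact ⟨⟨v, rfl⟩, ⟨u, rfl⟩⟩
  refine (Submodule.finrank_mono h1).trans ?_
  rw [LinearMap.prod_eq_sup_map]
  refine (Submodule.finrank_add_le_finrank_add_finrank _ _).trans ?_
  exact add_le_add (Submodule.finrank_map_le _ _) (Submodule.finrank_map_le _ _)

end rk

/-- the replacement of a block -/
lemma block_W {K W U : Type} [Field K] [Finite K] [AddCommGroup W] [Module K W]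
    [FiniteDimensional K W] [AddCommGroup U] [Module K U] [FiniteDimensional K U] {l : ℕ}
    {N : ℝ} {Δ : Subgroup Kˣ}
    (hbig : ∀ (L U : Type) [Field L] [Algebra K L] [FiniteDimensional K L]
      [AddCommGroup U] [Module K U] [FiniteDimensional K U], l ∣ finrank K L →
      ∀ (θ : ((L × U) ≃ₗ[K] (L × U)) → ℂ),
      BV (LinearEquiv.det : ((L × U) ≃ₗ[K] (L × U)) →* Kˣ) Δ N θ →
      ∀ (a : Lˣ) (b : U ≃ₗ[K] U), LinearEquiv.det (ds (mulL K L a) b) ∈ Δ →
      ∃ g : L ≃ₗ[K] L, LinearEquiv.det g = LinearEquiv.det (mulL K L a) ∧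
        finrank K (LinearMap.range ((g : L →ₗ[K] L) - 1)) * l ≤ finrank K L ∧
        θ (ds (mulL K L a) b) = θ (ds g b))
    {θ : ((W × U) ≃ₗ[K] (W × U)) → ℂ}
    (h : BV (LinearEquiv.det : ((W × U) ≃ₗ[K] (W × U)) →* Kˣ) Δ N θ) (y : W ≃ₗ[K] W)
    {f : K[X]} (hf : Irreducible f) (hy : aeval (y : W →ₗ[K] W) f = 0)
    (hd : finrank K W = f.natDegree) (hl : l ∣ f.natDegree) (b : U ≃ₗ[K] U)
    (hyb : LinearEquiv.det (ds y b) ∈ Δ) :
    ∃ g : W ≃ₗ[K] W, LinearEquiv.det g = LinearEquiv.det y ∧ rk g * l ≤ finrank K W ∧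
      θ (ds y b) = θ (ds g b) := by
  classical
  have : Fact (Irreducible f) := ⟨hf⟩
  let pb := AdjoinRoot.powerBasis hf.ne_zero
  have hfin : FiniteDimensional K (AdjoinRoot f) := pb.finite
  have hfr : finrank K (AdjoinRoot f) = f.natDegree := by
    rw [pb.finrank, AdjoinRoot.powerBasis_dim]
  have hroot : aeval (Algebra.lmul K (AdjoinRoot f) (AdjoinRoot.root f)) f = 0 := by
    have h1 : aeval (Algebra.lmul K (AdjoinRoot f) (AdjoinRoot.root f)) f =
        Algebra.lmul K (AdjoinRoot f) (aeval (AdjoinRoot.root f) f) :=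
      aeval_algHom_apply (Algebra.lmul K (AdjoinRoot f)) (AdjoinRoot.root f) f
    rw [h1]
    have h2 : aeval (AdjoinRoot.root f) f = 0 := by
      rw [AdjoinRoot.aeval_eq, AdjoinRoot.mk_self]
    rw [h2, map_zero]
  obtain ⟨c, hc⟩ := cyc_iso hf (y : W →ₗ[K] W) (Algebra.lmul K (AdjoinRoot f) (AdjoinRoot.root f))
    hy hroot hd hfr
  have hr0 : AdjoinRoot.root f ≠ 0 := by
    intro h0
    have hpos : 0 < finrank K W := by rw [hd]; exact hf.natDegree_pos
    have : Nontrivial W := Module.nontrivial_of_finrank_pos (R := K) hpos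
    obtain ⟨w, hw⟩ := exists_ne (0 : W)
    have h1 := hc w
    rw [h0, map_zero] at h1
    change c (y w) = 0 at h1
    rw [LinearEquiv.map_eq_zero_iff, LinearEquiv.map_eq_zero_iff] at h1
    exact hw h1
  let a : (AdjoinRoot f)ˣ := Units.mk0 _ hr0
  have hy2 : y = cj c.symm (mulL K (AdjoinRoot f) a) := by
    apply LinearEquiv.ext
    intro w
    change y w = c.symm ((a : AdjoinRoot f) * c w)
    rw [LinearEquiv.eq_symm_apply]
    exact hc w
  let e : (AdjoinRoot f × U) ≃ₗ[K] (W × U) := LinearEquiv.prodCongr c.symm (LinearEquiv.refl K U)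
  have he : ∀ (g : AdjoinRoot f ≃ₗ[K] AdjoinRoot f), cj e (ds g b) = ds (cj c.symm g) b :=
    fun g => rfl
  obtain ⟨g, hg1, hg2, hg3⟩ := hbig (AdjoinRoot f) U (by rw [hfr]; exact hl)
    (fun g => θ (cj e g)) (h.cj e) a b (by
      rw [← det_cj e, he, ← hy2]
      exact hyb)
  refine ⟨cj c.symm g, ?_, ?_, ?_⟩
  · rw [det_cj, hg1, hy2, det_cj]
  · rw [rk_cj, hd, ← hfr]
    exact hg2
  · simp only [he] at hg3
    rw [← hy2] at hg3
    exact hg3

end Pool.Agent.TH820.LG
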