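import Mathlib
import Pool.Agent.TH820.LG.P1

/-! # Primary components -/

set_option autoImplicit false
set_option linter.unusedSectionVars false

namespace Pool.Agent.TH820.LG

open Module Polynomial

section inter
variable {K V V' : Type} [Field K] [AddCommGroup V] [Module K V] [AddCommGroup V'] [Module K V']

/-- intertwining maps commute with polynomials -/
lemma aeval_inter (π : V' →ₗ[K] V) (x' : V' →ₗ[K] V') (x : V →ₗ[K] V)
    (h : ∀ v, π (x' v) = x (π v)) (p : K[X]) (v : V') :
    π (aeval x' p v) = aeval x p (π v) := by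
  induction p using Polynomial.induction_on' with
  | add p q hp hq => rw [map_add, map_add, LinearMap.add_apply, LinearMap.add_apply, map_add, hp, hq]
  | monomial n a =>
    rw [aeval_monomial, aeval_monomial]
    rw [Module.End.mul_apply, Module.End.mul_apply, Module.algebraMap_end_apply,
      Module.algebraMap_end_apply, map_smul]
    congr 1
    induction n generalizing v with
    | zero => simp
    | succ n ih => rw [pow_succ, pow_succ, Module.End.mul_apply, Module.End.mul_apply, ih, h]

end inter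

section pcs
variable {K V : Type} [Field K] [AddCommGroup V] [Module K V]

/-- primary components -/
def pcs (x : V →ₗ[K] V) (f : K[X]) : Submodule K V where
  carrier := {v | ∃ k : ℕ, aeval x (f ^ k) v = 0}
  zero_mem' := ⟨0, by simp⟩
  add_mem' := by
    rintro a b ⟨k, hk⟩ ⟨l, hl⟩
    refine ⟨k + l, ?_⟩
    have h1 : aeval x (f ^ (k + l)) a = 0 := by
      rw [pow_add, mul_comm, map_mul, Module.End.mul_apply, hk, map_zero]
    have h2 : aeval x (f ^ (k + l)) b = 0 := by
      rw [pow_add, map_mul, Module.End.mul_apply, hl, map_zero]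
    rw [map_add, h1, h2, add_zero]
  smul_mem' := by
    rintro c a ⟨k, hk⟩
    exact ⟨k, by rw [map_smul, hk, smul_zero]⟩

lemma mem_pcs {x : V →ₗ[K] V} {f : K[X]} {v : V} :
    v ∈ pcs x f ↔ ∃ k : ℕ, aeval x (f ^ k) v = 0 := Iff.rfl

/-- dimensions of the primary components -/
noncomputable def pd (x : V →ₗ[K] V) (f : K[X]) : ℕ := finrank K (pcs x f)

/-- the annihilator of a vector of a primary component -/
lemma ann_pow {x : V →ₗ[K] V} {f : K[X]} (hf : Irreducible f) {v : V} (hv : v ≠ 0)
    (hm : v ∈ pcs x f) : ∃ k : ℕ, 1 ≤ k ∧ ∀ p : K[X], aeval x p v = 0 ↔ f ^ k ∣ p := by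
  classical
  obtain ⟨k₀, hk₀⟩ := hm
  have hex : ∃ k, aeval x (f ^ k) v = 0 := ⟨k₀, hk₀⟩
  set k := Nat.find hex with hk
  have hk1 : aeval x (f ^ k) v = 0 := Nat.find_spec hex
  have hk2 : ∀ j, j < k → aeval x (f ^ j) v ≠ 0 := fun j hj => Nat.find_min hex hj
  have hkpos : 1 ≤ k := by
    rcases Nat.eq_zero_or_pos k with h | h
    · rw [h, pow_zero, map_one] at hk1
      exact absurd hk1 hv
    · exact h
  refine ⟨k, hkpos, fun p => ⟨fun hp => ?_, ?_⟩⟩
  · by_contra hn
    have hp0 : p ≠ 0 := by
      rintro rfl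
      exact hn (dvd_zero _)
    obtain ⟨p', hp', hfp'⟩ : ∃ p', p = f ^ (multiplicity f p) * p' ∧ ¬ f ∣ p' := by
      have hfin : FiniteMultiplicity f p := FiniteMultiplicity.of_not_isUnit hf.not_isUnit hp0
      obtain ⟨c, hc, hc2⟩ := hfin.exists_eq_pow_mul_and_not_dvd
      exact ⟨c, hc, hc2⟩
    set j := multiplicity f p with hj
    have hjk : j < k := by
      by_contra hge
      push Not at hge
      apply hn
      rw [hp']
      exact (pow_dvd_pow f hge).mul_right _
    have hcop : IsCoprime (f ^ (k - j)) p' := (hf.coprime_iff_not_dvd.2 hfp').pow_left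
    obtain ⟨a, b, hab⟩ := hcop
    apply hk2 j hjk
    have h1 : f ^ j = a * f ^ k + b * p := by
      have h2 : f ^ k = f ^ j * f ^ (k - j) := by
        rw [← pow_add]
        congr 1
        omega
      rw [h2]
      linear_combination (-(f ^ j)) * hab - b * hp'
    rw [h1, map_add, LinearMap.add_apply, map_mul, map_mul, Module.End.mul_apply,
      Module.End.mul_apply, hk1, hp, map_zero, map_zero, add_zero]
  · rintro ⟨q, rfl⟩
    rw [mul_comm, map_mul, Module.End.mul_apply, hk1, map_zero]

variable [FiniteDimensional K V]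

/-- the cyclic subspace has at least the dimension of the degree of the annihilator -/
lemma deg_le_range (x : V →ₗ[K] V) (v : V) (g : K[X]) (h : ∀ p, aeval x p v = 0 → g ∣ p) :
    g.natDegree ≤ finrank K (LinearMap.range (evl x v)) := by
  classical
  by_cases hg0 : g = 0
  · rw [hg0]
    simp
  set φ : degreeLT K g.natDegree →ₗ[K] LinearMap.range (evl x v) :=
    (evl x v).rangeRestrict ∘ₗ (degreeLT K g.natDegree).subtype with hφ
  have hinj : Function.Injective φ := by
    rw [injective_iff_map_eq_zero]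
    intro r hr
    have h1 : g ∣ (r : K[X]) := h _ (congrArg Subtype.val hr)
    have h2 := mem_degreeLT.1 r.2
    apply Subtype.ext
    refine eq_zero_of_dvd_of_degree_lt h1 ?_
    rwa [degree_eq_natDegree hg0]
  have hfin : FiniteDimensional K (degreeLT K g.natDegree) :=
    Module.Finite.equiv (degreeLTEquiv K g.natDegree).symm
  have h3 := LinearMap.finrank_le_finrank_of_injective hinj
  rwa [(degreeLTEquiv K g.natDegree).finrank_eq, finrank_fin_fun] at h3

lemma range_le_deg (x : V →ₗ[K] V) (v : V) {g : K[X]} (hg : g ≠ 0) (h : aeval x g v = 0) :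
    finrank K (LinearMap.range (evl x v)) ≤ g.natDegree := by
  classical
  set φ : degreeLT K g.natDegree →ₗ[K] LinearMap.range (evl x v) :=
    (evl x v).rangeRestrict ∘ₗ (degreeLT K g.natDegree).subtype with hφ
  have hsurj : Function.Surjective φ := by
    rintro ⟨_, ⟨p, rfl⟩⟩
    have hlt : p % g ∈ degreeLT K g.natDegree := by
      rw [mem_degreeLT, ← degree_eq_natDegree hg]
      exact EuclideanDomain.mod_lt p hg
    refine ⟨⟨p % g, hlt⟩, ?_⟩
    apply Subtype.ext
    change aeval x (p % g) v = aeval x p v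
    conv_rhs => rw [← EuclideanDomain.div_add_mod p g]
    rw [map_add, LinearMap.add_apply, mul_comm, map_mul, Module.End.mul_apply, h, map_zero,
      zero_add]
  have hfin : FiniteDimensional K (degreeLT K g.natDegree) :=
    Module.Finite.equiv (degreeLTEquiv K g.natDegree).symm
  have h3 := LinearMap.finrank_le_finrank_of_surjective hsurj
  rwa [(degreeLTEquiv K g.natDegree).finrank_eq, finrank_fin_fun] at h3

end pcs

/-- dimensions of primary spaces are multiples of the degree -/
lemma dvd_finrank {K : Type} [Field K] {f : K[X]} (hf : Irreducible f) (n : ℕ) :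
    ∀ (W : Type) [AddCommGroup W] [Module K W] [FiniteDimensional K W] (y : W →ₗ[K] W) (k : ℕ),
    finrank K W = n → aeval y (f ^ k) = 0 → f.natDegree ∣ n := by
  induction n using Nat.strong_induction_on with
  | _ n ih =>
    intro W _ _ _ y k hn hk
    rcases Nat.eq_zero_or_pos n with h0 | hpos
    · rw [h0]; exact dvd_zero _
    have : Nontrivial W := Module.nontrivial_of_finrank_pos (R := K) (by omega)
    -- a vector killed by `f`
    obtain ⟨w, hw0, hw⟩ : ∃ w : W, w ≠ 0 ∧ aeval y f w = 0 := by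
      obtain ⟨v, hv⟩ := exists_ne (0 : W)
      obtain ⟨j, hj1, hj⟩ := ann_pow hf hv (x := y) (mem_pcs.2 ⟨k, by rw [hk]; rfl⟩)
      refine ⟨aeval y (f ^ (j - 1)) v, ?_, ?_⟩
      · intro h1
        rw [hj] at h1
        have h2 := (pow_dvd_pow_iff hf.ne_zero hf.not_isUnit).1 h1
        omega
      · rw [← Module.End.mul_apply, ← map_mul, ← pow_succ', hj]
        have : j - 1 + 1 = j := by omega
        rw [this]
    set C := LinearMap.range (evl y w) with hC
    have hCd : finrank K C = f.natDegree := by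
      apply le_antisymm (range_le_deg y w hf.ne_zero hw)
      refine deg_le_range y w f fun p hp => ?_
      by_contra hnd
      obtain ⟨a, b, hab⟩ := hf.coprime_iff_not_dvd.2 hnd
      apply hw0
      have h1 : aeval y (a * f + b * p) w = w := by rw [hab, map_one]; rfl
      rw [← h1, map_add, LinearMap.add_apply, map_mul, map_mul, Module.End.mul_apply,
        Module.End.mul_apply, hw, hp, map_zero, map_zero, add_zero]
    have hCy : C ≤ C.comap y := by
      rintro _ ⟨p, rfl⟩
      exact ⟨X * p, evl_X y w p⟩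
    set y' := C.mapQ C y hCy with hy'
    have hk' : aeval y' (f ^ k) = 0 := by
      refine LinearMap.ext fun v => ?_
      obtain ⟨v, rfl⟩ := C.mkQ_surjective v
      rw [← aeval_inter C.mkQ y y' (fun v => rfl), hk]
      simp
    have hsum := C.finrank_quotient_add_finrank
    have hdpos := hf.natDegree_pos
    have h1 := ih (finrank K (W ⧸ C)) (by omega) (W ⧸ C) y' k rfl hk'
    have h2 : n = finrank K (W ⧸ C) + f.natDegree := by omega
    rw [h2]
    exact (Nat.dvd_add_self_right).2 h1

/-- small primary spaces are simple -/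
lemma simple_block {K W : Type} [Field K] [AddCommGroup W] [Module K W] [FiniteDimensional K W]
    {f : K[X]} (hf : Irreducible f) (y : W →ₗ[K] W) {k : ℕ} (hk : aeval y (f ^ k) = 0)
    (h0 : finrank K W ≠ 0) (h2 : finrank K W < 2 * f.natDegree) :
    aeval y f = 0 ∧ finrank K W = f.natDegree := by
  have h3 := dvd_finrank hf (finrank K W) W y k rfl hk
  have hd : finrank K W = f.natDegree := by
    obtain ⟨c, hc⟩ := h3
    rw [hc] at h2 h0 ⊢
    have h4 : c < 2 := by
      by_contra hge
      push Not at hge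
      have := Nat.mul_le_mul_left f.natDegree hge
      omega
    have h5 : c ≠ 0 := by
      rintro rfl
      simp at h0
    have h6 : c = 1 := by omega
    rw [h6, mul_one]
  refine ⟨?_, hd⟩
  by_contra hne
  obtain ⟨v, hv⟩ : ∃ v, aeval y f v ≠ 0 := by
    by_contra hcon
    push Not at hcon
    exact hne (LinearMap.ext hcon)
  have hv0 : v ≠ 0 := by
    rintro rfl
    exact hv (map_zero _)
  obtain ⟨j, hj1, hj⟩ := ann_pow hf hv0 (x := y) (mem_pcs.2 ⟨k, by rw [hk]; rfl⟩)
  have hj2 : 2 ≤ j := by
    by_contra hlt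
    have h5 : j = 1 := by omega
    rw [h5, pow_one] at hj
    exact hv ((hj f).2 dvd_rfl)
  have h6 := (deg_le_range y v (f ^ j) fun p hp => (hj p).1 hp).trans (Submodule.finrank_le _)
  rw [natDegree_pow] at h6
  have := Nat.mul_le_mul_right f.natDegree hj2
  omega

section split
variable {K V : Type} [Field K] [AddCommGroup V] [Module K V] [FiniteDimensional K V]

lemma pd_mono {V' : Type} [AddCommGroup V'] [Module K V'] [FiniteDimensional K V']
    (π : V' →ₗ[K] V) (hπ : Function.Injective π) (x' : V' →ₗ[K] V') (x : V →ₗ[K] V)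
    (h : ∀ v, π (x' v) = x (π v)) (f : K[X]) : pd x' f ≤ pd x f := by
  unfold pd
  have h1 : (pcs x' f).map π ≤ pcs x f := by
    rintro _ ⟨v, ⟨k, hk⟩, rfl⟩
    refine ⟨k, ?_⟩
    rw [← aeval_inter π x' x h, hk, map_zero]
  have h2 := Submodule.finrank_mono h1
  rwa [← (Submodule.equivMapOfInjective π hπ _).finrank_eq] at h2

/-- coprime decomposition -/
lemma split_coprime (x : V ≃ₗ[K] V) {p₁ p₂ : K[X]} (hc : IsCoprime p₁ p₂)
    (h : aeval (x : V →ₗ[K] V) (p₁ * p₂) = 0) :
    ∃ (W V' : Submodule K V) (e : (W × V') ≃ₗ[K] V) (y : W ≃ₗ[K] W) (x' : V' ≃ₗ[K] V'),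
      x = cj e (ds y x') ∧ aeval (y : W →ₗ[K] W) p₁ = 0 ∧ aeval (x' : V' →ₗ[K] V') p₂ = 0 ∧
      W = LinearMap.ker (aeval (x : V →ₗ[K] V) p₁) ∧
      (∀ v : V', ((x' v : V') : V) = x v) := by
  set W := LinearMap.ker (aeval (x : V →ₗ[K] V) p₁) with hW
  set V' := LinearMap.ker (aeval (x : V →ₗ[K] V) p₂) with hV'
  have hdis : Disjoint W V' := disjoint_ker_aeval_of_isCoprime _ hc
  have hsup : W ⊔ V' = ⊤ := by
    rw [hW, hV', sup_ker_aeval_eq_ker_aeval_mul_of_coprime _ hc, h, LinearMap.ker_zero]
  have hcompl : IsCompl W V' := ⟨hdis, codisjoint_iff.2 hsup⟩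
  have hcomm : ∀ (p : K[X]) (v : V), aeval (x : V →ₗ[K] V) p v = 0 →
      aeval (x : V →ₗ[K] V) p (x v) = 0 := by
    intro p v hv
    have h1 := aeval_inter (x : V →ₗ[K] V) (x : V →ₗ[K] V) (x : V →ₗ[K] V) (fun _ => rfl) p v
    rw [hv, map_zero] at h1
    exact h1.symm
  have hx1 : ∀ v ∈ W, (x : V →ₗ[K] V) v ∈ W := fun v hv => hcomm _ _ hv
  have hx2 : ∀ v ∈ V', (x : V →ₗ[K] V) v ∈ V' := fun v hv => hcomm _ _ hv
  let y : W ≃ₗ[K] W := LinearEquiv.ofInjectiveEndo ((x : V →ₗ[K] V).restrict hx1) (by
    intro a b hab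
    apply Subtype.ext
    apply x.injective
    exact congrArg Subtype.val hab)
  let x' : V' ≃ₗ[K] V' := LinearEquiv.ofInjectiveEndo ((x : V →ₗ[K] V).restrict hx2) (by
    intro a b hab
    apply Subtype.ext
    apply x.injective
    exact congrArg Subtype.val hab)
  let e := Submodule.prodEquivOfIsCompl W V' hcompl
  have hy : ∀ v : W, ((y v : W) : V) = x v := fun v => rfl
  have hx' : ∀ v : V', ((x' v : V') : V) = x v := fun v => rfl
  refine ⟨W, V', e, y, x', ?_, ?_, ?_, rfl, hx'⟩
  · have h1 : ∀ w, e (ds y x' w) = x (e w) := by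
      rintro ⟨a, b⟩
      change ((y a : W) : V) + ((x' b : V') : V) = x ((a : V) + (b : V))
      rw [map_add, hy, hx']
    apply LinearEquiv.ext
    intro v
    rw [cj_apply, h1, e.apply_symm_apply]
  · refine LinearMap.ext fun v => ?_
    apply Subtype.ext
    have h1 := aeval_inter W.subtype (y : W →ₗ[K] W) (x : V →ₗ[K] V) (fun _ => rfl) p₁ v
    change W.subtype (aeval (y : W →ₗ[K] W) p₁ v) = 0
    rw [h1]
    exact v.2
  · refine LinearMap.ext fun v => ?_
    apply Subtype.ext
    have h1 := aeval_inter V'.subtype (x' : V' →ₗ[K] V') (x : V →ₗ[K] V) (fun _ => rfl) p₂ v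
    change V'.subtype (aeval (x' : V' →ₗ[K] V') p₂ v) = 0
    rw [h1]
    exact v.2

end split

end Pool.Agent.TH820.LG
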