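import Mathlib
import Pool.Agent.TH820.LG.P2

/-! # Assembly of the replacements -/

set_option autoImplicit false
set_option linter.unusedSectionVars false

namespace Pool.Agent.TH820.LG

open Module Polynomial

/-- degrees with a large prime factor -/
def Lg (L₀ m : ℕ) : Prop := ∃ l : ℕ, l.Prime ∧ L₀ ≤ l ∧ l ∣ m

open Classical in
/-- the total dimension of the components of smooth degree -/
noncomputable def smd {K V : Type} [Field K] [AddCommGroup V] [Module K V] (L₀ : ℕ)
    (F : Finset K[X]) (x : V →ₗ[K] V) : ℕ :=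
  ∑ f ∈ F, if Lg L₀ f.natDegree then 0 else pd x f

theorem assemble (N : ℝ) : ∃ L₁ : ℕ, 3 ≤ L₁ ∧ ∀ L₀ : ℕ, L₁ ≤ L₀ → ∀ (K : Type) [Field K] [Finite K]
    (Δ : Subgroup Kˣ)
    (F : Finset K[X]), (∀ f ∈ F, f.Monic ∧ Irreducible f) →
    ∀ (V U : Type) [AddCommGroup V] [Module K V] [FiniteDimensional K V] [AddCommGroup U]
    [Module K U] [FiniteDimensional K U] (θ : ((V × U) ≃ₗ[K] (V × U)) → ℂ),
    BV (LinearEquiv.det : ((V × U) ≃ₗ[K] (V × U)) →* Kˣ) Δ N θ →
    ∀ (x : V ≃ₗ[K] V) (b : U ≃ₗ[K] U) (k : ℕ),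
    aeval (x : V →ₗ[K] V) (∏ f ∈ F, f ^ k) = 0 →
    (∀ f ∈ F, Lg L₀ f.natDegree → pd (x : V →ₗ[K] V) f < 2 * f.natDegree) →
    LinearEquiv.det (ds x b) ∈ Δ →
    ∃ g : V ≃ₗ[K] V, LinearEquiv.det g = LinearEquiv.det x ∧
      rk g * L₀ ≤ L₀ * smd L₀ F (x : V →ₗ[K] V) + finrank K V ∧
      θ (ds x b) = θ (ds g b) := by
  classical
  obtain ⟨L₁, hL₁, hbig⟩ := big_block N
  refine ⟨L₁, hL₁, ?_⟩
  intro L₀ hL₀ K _ _ Δ F
  induction F using Finset.induction_on with
  | empty =>
    intro _ V U _ _ _ _ _ _ θ h x b k hk _ _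
    rw [Finset.prod_empty, map_one] at hk
    have hsub : Subsingleton V := by
      refine ⟨fun a b => ?_⟩
      have h1 : (1 : V →ₗ[K] V) a = (1 : V →ₗ[K] V) b := by rw [hk]; rfl
      exact h1
    have hfr : finrank K V = 0 := Module.finrank_zero_of_subsingleton
    have h1 := rk_le x
    refine ⟨x, rfl, ?_, rfl⟩
    have h2 : rk x = 0 := by omega
    rw [h2, zero_mul]
    exact Nat.zero_le _
  | insert f F hfF ih =>
    intro hF V U _ _ _ _ _ _ θ h x b k hk hns hxb
    have hfm : f.Monic := (hF f (Finset.mem_insert_self _ _)).1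
    have hfi : Irreducible f := (hF f (Finset.mem_insert_self _ _)).2
    have hF' : ∀ g ∈ F, g.Monic ∧ Irreducible g := fun g hg => hF g (Finset.mem_insert_of_mem hg)
    rw [Finset.prod_insert hfF] at hk
    have hcop : IsCoprime (f ^ k) (∏ g ∈ F, g ^ k) := by
      refine IsCoprime.prod_right fun g hg => ?_
      refine IsCoprime.pow ?_
      rw [hfi.coprime_iff_not_dvd]
      intro hd
      have h1 : Associated f g := hfi.associated_of_dvd (hF' g hg).2 hd
      have h2 := eq_of_monic_of_associated hfm (hF' g hg).1 h1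
      exact hfF (h2 ▸ hg)
    obtain ⟨W, V', e, y, x', hx, hy, hx', hW, hinc⟩ := split_coprime x hcop hk
    have hfr : finrank K W + finrank K V' = finrank K V := by
      rw [← Module.finrank_prod]
      exact e.finrank_eq
    have hWpd : finrank K W ≤ pd (x : V →ₗ[K] V) f := by
      apply Submodule.finrank_mono
      rw [hW]
      intro v hv
      exact ⟨k, hv⟩
    have hpd : ∀ g, pd (x' : V' →ₗ[K] V') g ≤ pd (x : V →ₗ[K] V) g := fun g =>
      pd_mono V'.subtype V'.injective_subtype _ _ (fun v => hinc v) g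
    -- the inductive hypothesis
    let e1 : (V' × (W × U)) ≃ₗ[K] (V × U) :=
      ((LinearEquiv.prodAssoc K V' W U).symm.trans
        (LinearEquiv.prodCongr ((LinearEquiv.prodComm K V' W).trans e) (LinearEquiv.refl K U)))
    have he1 : ∀ (a : V' ≃ₗ[K] V') (c : W ≃ₗ[K] W),
        cj e1 (ds a (ds c b)) = ds (cj e (ds c a)) b := by
      intro a c
      apply (cj e1).symm.injective
      rw [MulEquiv.symm_apply_apply]
      apply LinearEquiv.ext
      rintro ⟨v, w, u⟩
      change (a v, (c w, b u)) = e1.symm (e (ds c a (e.symm (e (w, v)))), b u)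
      rw [e.symm_apply_apply, LinearEquiv.eq_symm_apply]
      rfl
    have hx2 : ds x b = cj e1 (ds x' (ds y b)) := by
      rw [he1, ← hx]
    obtain ⟨g', hg'1, hg'2, hg'3⟩ := ih hF' V' (W × U) (fun g => θ (cj e1 g)) (h.cj e1) x' (ds y b) k
      hx' (fun g hg hL => (hpd g).trans_lt (hns g (Finset.mem_insert_of_mem hg) hL)) (by
        rw [← det_cj e1, ← hx2]
        exact hxb)
    simp only [← hx2, he1] at hg'3
    have hsmd : smd L₀ F (x' : V' →ₗ[K] V') ≤ smd L₀ F (x : V →ₗ[K] V) := by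
      refine Finset.sum_le_sum fun g _ => ?_
      split_ifs
      · exact le_rfl
      · exact hpd g
    have hsmi : smd L₀ (insert f F) (x : V →ₗ[K] V) =
        (if Lg L₀ f.natDegree then 0 else pd (x : V →ₗ[K] V) f) + smd L₀ F (x : V →ₗ[K] V) := by
      unfold smd
      rw [Finset.sum_insert hfF]
    have hdetx : LinearEquiv.det x = LinearEquiv.det y * LinearEquiv.det x' := by
      conv_lhs => rw [hx]
      rw [det_cj, det_ds]
    have hDg : LinearEquiv.det (ds (cj e (ds y g')) b) ∈ Δ := by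
      rw [det_ds, det_cj, det_ds, hg'1, ← hdetx, ← det_ds]
      exact hxb
    by_cases hL : Lg L₀ f.natDegree
    · rw [if_pos hL, zero_add] at hsmi
      rw [hsmi]
      by_cases hW0 : finrank K W = 0
      · refine ⟨cj e (ds y g'), ?_, ?_, hg'3⟩
        · rw [det_cj, det_ds, hg'1, ← hdetx]
        · have h1 := rk_le y
          have h2 := rk_ds y g'
          rw [rk_cj]
          have h3 : rk (ds y g') ≤ rk g' := by omega
          calc rk (ds y g') * L₀ ≤ rk g' * L₀ := Nat.mul_le_mul_right _ h3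
            _ ≤ L₀ * smd L₀ F (x' : V' →ₗ[K] V') + finrank K V' := hg'2
            _ ≤ L₀ * smd L₀ F (x : V →ₗ[K] V) + finrank K V :=
              add_le_add (Nat.mul_le_mul_left _ hsmd) (by omega)
      · obtain ⟨hy1, hWd⟩ := simple_block hfi (y : W →ₗ[K] W) hy hW0
          (hWpd.trans_lt (hns f (Finset.mem_insert_self _ _) hL))
        obtain ⟨l, hl, hlL, hlf⟩ := hL
        let e2 : (W × (V' × U)) ≃ₗ[K] (V × U) :=
          ((LinearEquiv.prodAssoc K W V' U).symm.trans
            (LinearEquiv.prodCongr e (LinearEquiv.refl K U)))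
        have he2 : ∀ (c : W ≃ₗ[K] W) (a : V' ≃ₗ[K] V'),
            cj e2 (ds c (ds a b)) = ds (cj e (ds c a)) b := by
          intro c a
          apply (cj e2).symm.injective
          rw [MulEquiv.symm_apply_apply]
          apply LinearEquiv.ext
          rintro ⟨w, v, u⟩
          change (c w, (a v, b u)) = e2.symm (e (ds c a (e.symm (e (w, v)))), b u)
          rw [e.symm_apply_apply, LinearEquiv.eq_symm_apply]
          rfl
        obtain ⟨y2, hy21, hy22, hy23⟩ := block_W
          (fun L U _ _ _ _ _ _ hd θ hθ => hbig l hl (hL₀.trans hlL) K L U hd Δ θ hθ)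
          (h.cj e2) y hfi hy1 hWd hlf (ds g' b) (by
            rw [← det_cj e2, he2]
            exact hDg)
        simp only [he2] at hy23
        refine ⟨cj e (ds y2 g'), ?_, ?_, hg'3.trans hy23⟩
        · rw [det_cj, det_ds, hg'1, hy21, ← hdetx]
        · have h2 := rk_ds y2 g'
          rw [rk_cj]
          have h4 : rk y2 * L₀ ≤ finrank K W := (Nat.mul_le_mul_left _ hlL).trans hy22
          calc rk (ds y2 g') * L₀ ≤ (rk y2 + rk g') * L₀ := Nat.mul_le_mul_right _ h2
            _ = rk y2 * L₀ + rk g' * L₀ := add_mul _ _ _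
            _ ≤ finrank K W + (L₀ * smd L₀ F (x' : V' →ₗ[K] V') + finrank K V') :=
              add_le_add h4 hg'2
            _ ≤ finrank K W + (L₀ * smd L₀ F (x : V →ₗ[K] V) + finrank K V') :=
              Nat.add_le_add_left (Nat.add_le_add_right (Nat.mul_le_mul_left _ hsmd) _) _
            _ = L₀ * smd L₀ F (x : V →ₗ[K] V) + finrank K V := by omega
    · rw [if_neg hL] at hsmi
      rw [hsmi]
      refine ⟨cj e (ds y g'), ?_, ?_, hg'3⟩
      · rw [det_cj, det_ds, hg'1, ← hdetx]
      · have h1 := rk_le y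
        have h2 := rk_ds y g'
        rw [rk_cj]
        have h3 : rk y ≤ pd (x : V →ₗ[K] V) f := h1.trans hWpd
        calc rk (ds y g') * L₀ ≤ (rk y + rk g') * L₀ := Nat.mul_le_mul_right _ h2
          _ = rk y * L₀ + rk g' * L₀ := add_mul _ _ _
          _ ≤ pd (x : V →ₗ[K] V) f * L₀ +
              (L₀ * smd L₀ F (x' : V' →ₗ[K] V') + finrank K V') :=
            add_le_add (Nat.mul_le_mul_right _ h3) hg'2
          _ ≤ pd (x : V →ₗ[K] V) f * L₀ +
              (L₀ * smd L₀ F (x : V →ₗ[K] V) + finrank K V) :=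
            Nat.add_le_add_left (add_le_add (Nat.mul_le_mul_left _ hsmd) (by omega)) _
          _ = L₀ * (pd (x : V →ₗ[K] V) f + smd L₀ F (x : V →ₗ[K] V)) + finrank K V := by ring

end Pool.Agent.TH820.LG
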