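import Mathlib
import Pool.Agent.TH820.LG.P3

/-! # Counting automorphisms with prescribed values -/

set_option autoImplicit false
set_option linter.unusedSectionVars false

namespace Pool.Agent.TH820.LG

open Module Polynomial

section count
variable {K V : Type} [Field K] [Finite K] [AddCommGroup V] [Module K V] [FiniteDimensional K V]

/-- the automorphisms with determinant in `Δ` -/
noncomputable abbrev GV (K V : Type) [Field K] [AddCommGroup V] [Module K V] (Δ : Subgroup Kˣ) :
    Subgroup (V ≃ₗ[K] V) := Δ.comap LinearEquiv.det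

/-- transitivity of the special linear group -/
lemma sl_trans {j : ℕ} (hj : j < finrank K V) {t s : Fin j → V} (ht : LinearIndependent K t)
    (hs : LinearIndependent K s) :
    ∃ x : V ≃ₗ[K] V, LinearEquiv.det x = 1 ∧ ∀ i, x (t i) = s i := by
  classical
  let bt := Basis.sumExtend ht
  let bs := Basis.sumExtend hs
  have hbt : ∀ i, bt (Sum.inl i) = t i := fun i => by
    simp only [bt, Basis.sumExtend, Basis.reindex_apply, Basis.extend_apply_self]
    rfl
  have hbs : ∀ i, bs (Sum.inl i) = s i := fun i => by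
    simp only [bs, Basis.sumExtend, Basis.reindex_apply, Basis.extend_apply_self]
    rfl
  have hft := Module.Finite.finite_basis bt
  have hfs := Module.Finite.finite_basis bs
  have hft2 : Finite (Basis.sumExtendIndex ht) := Finite.of_injective _ (Sum.inr_injective (α := Fin j))
  have hfs2 : Finite (Basis.sumExtendIndex hs) := Finite.of_injective _ (Sum.inr_injective (α := Fin j))
  have : Fintype (Basis.sumExtendIndex ht) := Fintype.ofFinite _
  have : Fintype (Basis.sumExtendIndex hs) := Fintype.ofFinite _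
  have hct : j + Fintype.card (Basis.sumExtendIndex ht) = finrank K V := by
    rw [Module.finrank_eq_card_basis bt, Fintype.card_sum, Fintype.card_fin]
  have hcs : j + Fintype.card (Basis.sumExtendIndex hs) = finrank K V := by
    rw [Module.finrank_eq_card_basis bs, Fintype.card_sum, Fintype.card_fin]
  let e : Basis.sumExtendIndex ht ≃ Basis.sumExtendIndex hs :=
    Fintype.equivOfCardEq (by omega)
  let x0 : V ≃ₗ[K] V := bt.equiv bs (Equiv.sumCongr (Equiv.refl (Fin j)) e)
  have hx0 : ∀ i, x0 (t i) = s i := by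
    intro i
    rw [← hbt, ← hbs]
    change bt.equiv bs _ (bt (Sum.inl i)) = _
    rw [Basis.equiv_apply]
    rfl
  have hne : Nonempty (Basis.sumExtendIndex hs) := Fintype.card_pos_iff.1 (by omega)
  obtain ⟨k⟩ := hne
  let c : V ≃ₗ[K] V := cj bs.equivFun.symm (dg (Fin j ⊕ Basis.sumExtendIndex hs) K
    (Pi.mulSingle (Sum.inr k) (LinearEquiv.det x0)⁻¹))
  have hc : ∀ i, c (s i) = s i := by
    intro i
    rw [← hbs]
    change bs.equivFun.symm (dg (Fin j ⊕ Basis.sumExtendIndex hs) K
      (Pi.mulSingle (Sum.inr k) (LinearEquiv.det x0)⁻¹) (bs.equivFun (bs (Sum.inl i)))) = _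
    rw [LinearEquiv.symm_apply_eq]
    funext a
    rw [dg_apply, Basis.equivFun_self]
    by_cases ha : Sum.inl i = a
    · subst ha
      rw [Pi.mulSingle_eq_of_ne (by simp)]
      simp
    · rw [if_neg ha, mul_zero]
  have hcd : LinearEquiv.det c = (LinearEquiv.det x0)⁻¹ := by
    rw [det_cj, det_dg]
    simp
  refine ⟨c * x0, ?_, fun i => ?_⟩
  · rw [map_mul, hcd, inv_mul_cancel]
  · rw [LinearEquiv.mul_apply, hx0, hc]

variable [Finite V] [Fintype V] [DecidableEq V] {Δ : Subgroup Kˣ}

/-- the independent tuples -/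
noncomputable def indT (K V : Type) [Field K] [AddCommGroup V] [Module K V] [Fintype V]
    (j : ℕ) : Finset (Fin j → V) := by
  classical
  exact Finset.univ.filter fun t => LinearIndependent K t

lemma mem_indT {j : ℕ} {t : Fin j → V} : t ∈ indT K V j ↔ LinearIndependent K t := by
  classical
  unfold indT
  rw [Finset.mem_filter]
  simp

/-- the automorphisms mapping `t` to `s` -/
noncomputable def mp (Δ : Subgroup Kˣ) {j : ℕ} (t s : Fin j → V) : Set (GV K V Δ) :=
  {x | ∀ i, (x : V ≃ₗ[K] V) (t i) = s i}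

lemma mp_card {j : ℕ} (hj : j < finrank K V) {t s : Fin j → V} (ht : t ∈ indT K V j)
    (hs : s ∈ indT K V j) : (mp Δ t s).ncard * (indT K V j).card = Nat.card (GV K V Δ) := by
  classical
  have : Fintype (GV K V Δ) := Fintype.ofFinite _
  have h1 : ∀ s ∈ indT K V j, (mp Δ t s).ncard = (mp Δ t t).ncard := by
    intro s hs
    obtain ⟨x, hx1, hx2⟩ := sl_trans hj (mem_indT.1 ht) (mem_indT.1 hs)
    have hx : x ∈ GV K V Δ := by
      rw [Subgroup.mem_comap, hx1]
      exact Δ.one_mem
    refine Set.ncard_congr (fun y _ => (⟨x, hx⟩ : GV K V Δ)⁻¹ * y) ?_ ?_ ?_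
    · intro y hy i
      have h2 := hy i
      change x.symm ((y : V ≃ₗ[K] V) (t i)) = t i
      rw [h2, ← hx2, LinearEquiv.symm_apply_apply]
    · intro a b _ _ hab
      exact mul_left_cancel hab
    · intro b hb
      refine ⟨(⟨x, hx⟩ : GV K V Δ) * b, ?_, by simp⟩
      intro i
      change x ((b : V ≃ₗ[K] V) (t i)) = s i
      rw [hb i, hx2]
  have h2 : ∑ s ∈ indT K V j, (mp Δ t s).ncard = Nat.card (GV K V Δ) := by
    have h3 : (Finset.univ : Finset (GV K V Δ)).card =
        ∑ s ∈ indT K V j, (Finset.univ.filter fun x : GV K V Δ =>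
          (fun i => (x : V ≃ₗ[K] V) (t i)) = s).card := by
      refine Finset.card_eq_sum_card_fiberwise ?_
      intro x _
      rw [Finset.mem_coe, mem_indT]
      exact (mem_indT.1 ht).map' ((x : V ≃ₗ[K] V) : V →ₗ[K] V)
        (LinearMap.ker_eq_bot.2 (x : V ≃ₗ[K] V).injective)
    rw [Nat.card_eq_fintype_card, ← Finset.card_univ, h3]
    refine Finset.sum_congr rfl fun s _ => ?_
    rw [← Set.ncard_coe_finset]
    congr 1
    ext x
    simp only [mp, Set.mem_ofPred_eq, Finset.coe_filter, Finset.mem_univ, true_and]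
    exact ⟨fun h => funext h, fun h i => congrFun h i⟩
  rw [Finset.sum_congr rfl h1, Finset.sum_const, smul_eq_mul] at h2
  rw [h1 s hs, mul_comm]
  exact h2

lemma mp_le_one {t s : Fin (finrank K V) → V} (ht : t ∈ indT K V (finrank K V)) :
    (mp Δ t s).ncard ≤ 1 := by
  classical
  rw [Set.ncard_le_one (Set.toFinite _)]
  intro a ha b hb
  have hsp : Submodule.span K (Set.range t) = ⊤ :=
    (mem_indT.1 ht).span_eq_top_of_card_eq_finrank' (by simp)
  apply Subtype.ext
  apply LinearEquiv.toLinearMap_injective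
  refine LinearMap.ext_on_range hsp fun i => ?_
  exact (ha i).trans (hb i).symm

lemma indT_card_le : (indT K V (finrank K V)).card ≤ Nat.card (V ≃ₗ[K] V) := by
  classical
  have : Fintype (V ≃ₗ[K] V) := Fintype.ofFinite _
  have hb := Module.finBasis K V
  have hf : ∀ t ∈ indT K V (finrank K V), ∃ x : V ≃ₗ[K] V, ∀ i, x (hb i) = t i := by
    intro t ht
    have hsp : ⊤ ≤ Submodule.span K (Set.range t) :=
      ((mem_indT.1 ht).span_eq_top_of_card_eq_finrank' (by simp)).ge
    let bt := Basis.mk (mem_indT.1 ht) hsp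
    refine ⟨hb.equiv bt (Equiv.refl _), fun i => ?_⟩
    rw [Basis.equiv_apply]
    simp [bt]
  choose! F hF using hf
  rw [Nat.card_eq_fintype_card, ← Finset.card_univ]
  refine Finset.card_le_card_of_injOn F (fun _ _ => Finset.mem_coe.2 (Finset.mem_univ _)) ?_
  intro a ha b hb' hab
  funext i
  rw [← hF a ha, ← hF b hb', hab]

/-- the order of the general linear group -/
lemma card_GL [Nontrivial V] :
    Nat.card (V ≃ₗ[K] V) * Nat.card Δ = Nat.card (GV K V Δ) * (Nat.card K - 1) := by
  classical
  have hsurj : Function.Surjective (LinearEquiv.det : (V ≃ₗ[K] V) →* Kˣ) := by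
    intro d
    obtain ⟨m, hm⟩ : ∃ m, finrank K V = m + 1 :=
      ⟨finrank K V - 1, by have := Module.finrank_pos (R := K) (M := V); omega⟩
    let e : (Fin (m + 1) → K) ≃ₗ[K] V := LinearEquiv.ofFinrankEq _ _ (by
      rw [Module.finrank_fin_fun, hm])
    exact ⟨cj e (sc K m d), by rw [det_cj, det_sc]⟩
  have h1 := Subgroup.index_comap_of_surjective Δ hsurj
  have h2 := (GV K V Δ).card_mul_index
  have h3 := Δ.card_mul_index
  rw [Nat.card_units] at h3
  rw [← h2, ← h3, h1]
  ring

end count

end Pool.Agent.TH820.LG
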