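import Mathlib
import Pool.Agent.TH820.LG.Q1

/-! # Counting cyclic vectors -/

set_option autoImplicit false
set_option linter.unusedSectionVars false

namespace Pool.Agent.TH820.LG

open Module Polynomial

section cyc
variable {K V : Type} [Field K] [Finite K] [AddCommGroup V] [Module K V] [FiniteDimensional K V]
  [Finite V] [Fintype V] [DecidableEq V] {Δ : Subgroup Kˣ}

/-- the vectors with annihilator generated by `g` -/
def cyc (x : V →ₗ[K] V) (g : K[X]) : Set V := {v | ∀ p : K[X], aeval x p v = 0 ↔ g ∣ p}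

/-- the orbit tuple -/
noncomputable def tup (x : V →ₗ[K] V) (d : ℕ) (v : V) : Fin d → V := fun i =>
  aeval x ((X : K[X]) ^ (i : ℕ)) v

/-- the shifted tuple -/
noncomputable def shf (g : K[X]) (t : Fin g.natDegree → V) : Fin g.natDegree → V := fun i =>
  if h : (i : ℕ) + 1 < g.natDegree then t ⟨i + 1, h⟩ else
    - ∑ k : Fin g.natDegree, g.coeff k • t k

lemma tup_indep (x : V →ₗ[K] V) {g : K[X]} (hg : g.Monic) {v : V} (hv : v ∈ cyc x g) :
    LinearIndependent K (tup x g.natDegree v) := by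
  classical
  rw [Fintype.linearIndependent_iff]
  intro c hc i
  set p : K[X] := ∑ k : Fin g.natDegree, C (c k) * X ^ (k : ℕ) with hp
  have h1 : aeval x p v = 0 := by
    rw [hp, map_sum, LinearMap.sum_apply, ← hc]
    refine Finset.sum_congr rfl fun k _ => ?_
    rw [map_mul, aeval_C, Module.End.mul_apply, Module.algebraMap_end_apply]
    rfl
  have h2 : g ∣ p := (hv p).1 h1
  have h3 : p.degree < g.degree := by
    rw [degree_eq_natDegree hg.ne_zero]
    refine (degree_sum_fin_lt c)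
  have h4 := eq_zero_of_dvd_of_degree_lt h2 h3
  have h5 : p.coeff i = c i := by
    rw [hp, finsetSum_coeff]
    simp only [coeff_C_mul, coeff_X_pow]
    rw [Finset.sum_eq_single i]
    · simp
    · intro b _ hb
      rw [if_neg, mul_zero]
      intro h
      exact hb (Fin.ext h.symm)
    · intro h
      exact absurd (Finset.mem_univ _) h
  rw [← h5, h4, coeff_zero]

lemma tup_shift (x : V →ₗ[K] V) {g : K[X]} (hg : g.Monic) {v : V} (hv : v ∈ cyc x g)
    (i : Fin g.natDegree) : x (tup x g.natDegree v i) = shf g (tup x g.natDegree v) i := by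
  classical
  have h1 : ∀ k : ℕ, x (aeval x ((X : K[X]) ^ k) v) = aeval x ((X : K[X]) ^ (k + 1)) v := by
    intro k
    rw [pow_succ', map_mul, aeval_X]
    rfl
  unfold shf
  split_ifs with h
  · exact h1 _
  · change x (aeval x ((X : K[X]) ^ (i : ℕ)) v) = _
    rw [h1]
    have hi : (i : ℕ) + 1 = g.natDegree := by
      have := i.2
      omega
    rw [hi]
    have h2 : aeval x g v = 0 := (hv g).2 dvd_rfl
    rw [hg.as_sum, map_add, LinearMap.add_apply, map_sum, LinearMap.sum_apply] at h2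
    have h3 : ∑ k : Fin g.natDegree, g.coeff k • tup x g.natDegree v k =
        ∑ k ∈ Finset.range g.natDegree, (aeval x (C (g.coeff k) * X ^ k)) v := by
      rw [Finset.sum_range]
      refine Finset.sum_congr rfl fun k _ => ?_
      rw [map_mul, aeval_C, Module.End.mul_apply, Module.algebraMap_end_apply]
      rfl
    rw [h3]
    exact eq_neg_of_add_eq_zero_left h2

/-- counting pairs -/
lemma sum_cyc_le (g : K[X]) (hg : g.Monic) (hd : 0 < g.natDegree) [Fintype (GV K V Δ)] :
    ∑ x : GV K V Δ, (cyc ((x : V ≃ₗ[K] V) : V →ₗ[K] V) g).ncard ≤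
      ∑ t ∈ indT K V g.natDegree, (mp Δ t (shf g t)).ncard := by
  classical
  have h1 : ∀ x : GV K V Δ, (cyc ((x : V ≃ₗ[K] V) : V →ₗ[K] V) g).ncard ≤
      ((indT K V g.natDegree).filter fun t => x ∈ mp Δ t (shf g t)).card := by
    intro x
    rw [← Set.ncard_coe_finset]
    refine Set.ncard_le_ncard_of_injOn (tup ((x : V ≃ₗ[K] V) : V →ₗ[K] V) g.natDegree) ?_ ?_
      (Set.toFinite _)
    · intro v hv
      rw [Finset.coe_filter]
      exact ⟨mem_indT.2 (tup_indep _ hg hv), fun i => tup_shift _ hg hv i⟩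
    · intro v _ w _ hvw
      have := congrFun hvw ⟨0, hd⟩
      simpa [tup] using this
  refine (Finset.sum_le_sum fun x _ => h1 x).trans ?_
  apply le_of_eq
  have h2 : ∀ t ∈ indT K V g.natDegree, (mp Δ t (shf g t)).ncard =
      (Finset.univ.filter fun x : GV K V Δ => x ∈ mp Δ t (shf g t)).card := by
    intro t _
    rw [← Set.ncard_coe_finset]
    congr 1
    ext x
    simp
  rw [Finset.sum_congr rfl h2]
  simp only [Finset.card_filter]
  rw [Finset.sum_comm]

lemma sum_cyc_lt (g : K[X]) (hg : g.Monic) (hd : 0 < g.natDegree)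
    (hn : g.natDegree < finrank K V) [Fintype (GV K V Δ)] :
    ∑ x : GV K V Δ, (cyc ((x : V ≃ₗ[K] V) : V →ₗ[K] V) g).ncard ≤ Nat.card (GV K V Δ) := by
  classical
  refine (sum_cyc_le g hg hd).trans ?_
  rcases Nat.eq_zero_or_pos (indT K V g.natDegree).card with h0 | hpos
  · rw [Finset.card_eq_zero.1 h0]
    simp
  have h1 : ∀ t ∈ indT K V g.natDegree, (mp Δ t (shf g t)).ncard * (indT K V g.natDegree).card ≤
      Nat.card (GV K V Δ) := by
    intro t ht
    by_cases hs : shf g t ∈ indT K V g.natDegree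
    · exact (mp_card hn ht hs).le
    · have h2 : mp Δ t (shf g t) = ∅ := by
        rw [Set.eq_empty_iff_forall_notMem]
        intro x hx
        apply hs
        rw [mem_indT]
        have h3 : shf g t = fun i => (x : V ≃ₗ[K] V) (t i) := funext fun i => (hx i).symm
        rw [h3]
        exact (mem_indT.1 ht).map' ((x : V ≃ₗ[K] V) : V →ₗ[K] V)
          (LinearMap.ker_eq_bot.2 (x : V ≃ₗ[K] V).injective)
      rw [h2, Set.ncard_empty, zero_mul]
      exact Nat.zero_le _
  have h2 := Finset.sum_le_sum h1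
  rw [← Finset.sum_mul, Finset.sum_const, smul_eq_mul, mul_comm (indT K V g.natDegree).card] at h2
  exact Nat.le_of_mul_le_mul_right h2 hpos

lemma sum_cyc_eq (g : K[X]) (hg : g.Monic) (hd : 0 < g.natDegree)
    (hn : g.natDegree = finrank K V) [Fintype (GV K V Δ)] :
    ∑ x : GV K V Δ, (cyc ((x : V ≃ₗ[K] V) : V →ₗ[K] V) g).ncard ≤ Nat.card (V ≃ₗ[K] V) := by
  classical
  refine (sum_cyc_le g hg hd).trans ?_
  have key : ∀ (d : ℕ) (S : (Fin d → V) → (Fin d → V)), d = finrank K V →
      ∑ t ∈ indT K V d, (mp Δ t (S t)).ncard ≤ Nat.card (V ≃ₗ[K] V) := by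
    rintro d S rfl
    have h1 : ∀ t ∈ indT K V (finrank K V), (mp Δ t (S t)).ncard ≤ 1 :=
      fun t ht => mp_le_one ht
    have h2 := Finset.sum_le_sum h1
    rw [Finset.sum_const, smul_eq_mul, mul_one] at h2
    exact h2.trans indT_card_le
  exact key g.natDegree (shf g) hn

/-- kernels of powers -/
lemma le_finrank_ker (x : V →ₗ[K] V) {f : K[X]} (hf : Irreducible f) {j : ℕ}
    (h : j * f.natDegree ≤ pd x f) :
    j * f.natDegree ≤ finrank K (LinearMap.ker (aeval x (f ^ j))) := by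
  classical
  by_cases hle : pcs x f ≤ LinearMap.ker (aeval x (f ^ j))
  · exact h.trans (Submodule.finrank_mono hle)
  · obtain ⟨v, hv, hv2⟩ := Set.not_subset.1 hle
    have hv2' : aeval x (f ^ j) v ≠ 0 := hv2
    have hv0 : v ≠ 0 := by
      rintro rfl
      exact hv2' (map_zero _)
    obtain ⟨k, hk1, hk⟩ := ann_pow hf hv0 hv
    have hjk : j < k := by
      by_contra hge
      push Not at hge
      exact hv2' ((hk _).2 (pow_dvd_pow f hge))
    set u := aeval x (f ^ (k - j)) v with hu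
    have hann : ∀ p, aeval x p u = 0 → f ^ j ∣ p := by
      intro p hp
      rw [hu, ← Module.End.mul_apply, ← map_mul, hk] at hp
      have e : f ^ k = f ^ j * f ^ (k - j) := by
        rw [← pow_add]
        congr 1
        omega
      rw [e] at hp
      exact (mul_dvd_mul_iff_right (pow_ne_zero _ hf.ne_zero)).1 hp
    have h1 := deg_le_range x u (f ^ j) hann
    rw [natDegree_pow] at h1
    refine h1.trans (Submodule.finrank_mono ?_)
    rintro _ ⟨p, rfl⟩
    rw [LinearMap.mem_ker, evl_apply, ← Module.End.mul_apply, ← map_mul, hu,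
      ← Module.End.mul_apply, ← map_mul, hk]
    refine ⟨p, ?_⟩
    have e : f ^ k = f ^ j * f ^ (k - j) := by
      rw [← pow_add]
      congr 1
      omega
    rw [e]
    ring

lemma pow_le_cyc (x : V →ₗ[K] V) {f : K[X]} (hf : Irreducible f) {j : ℕ}
    (h : j * f.natDegree ≤ pd x f) :
    Nat.card K ^ (j * f.natDegree) ≤ 1 + ∑ k ∈ Finset.Icc 1 j, (cyc x (f ^ k)).ncard := by
  classical
  have h1 := le_finrank_ker x hf h
  have h2 : Nat.card (LinearMap.ker (aeval x (f ^ j))) =
      Nat.card K ^ finrank K (LinearMap.ker (aeval x (f ^ j))) := Module.natCard_eq_pow_finrank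
  have hq : 1 ≤ Nat.card K := Nat.card_pos
  refine (Nat.pow_le_pow_right hq h1).trans ?_
  rw [← h2]
  have h3 : ((LinearMap.ker (aeval x (f ^ j)) : Submodule K V) : Set V) ⊆
      {0} ∪ ⋃ k ∈ Finset.Icc 1 j, cyc x (f ^ k) := by
    intro v hv
    by_cases hv0 : v = 0
    · left; exact hv0
    · right
      obtain ⟨k, hk1, hk⟩ := ann_pow hf hv0 (x := x) ⟨j, hv⟩
      rw [Set.mem_iUnion₂]
      refine ⟨k, ?_, hk⟩
      rw [Finset.mem_Icc]
      refine ⟨hk1, ?_⟩
      exact (pow_dvd_pow_iff hf.ne_zero hf.not_isUnit).1 ((hk _).1 hv)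
  have h4 : Nat.card (LinearMap.ker (aeval x (f ^ j))) =
      ((LinearMap.ker (aeval x (f ^ j)) : Submodule K V) : Set V).ncard := rfl
  rw [h4]
  refine (Set.ncard_le_ncard h3 (Set.toFinite _)).trans ?_
  refine (Set.ncard_union_le _ _).trans ?_
  rw [Set.ncard_singleton]
  apply Nat.add_le_add_left
  exact Finset.set_ncard_biUnion_le _ _

/-- the automorphisms with a large `f`-component -/
noncomputable def cnt (Δ : Subgroup Kˣ) (V : Type) [AddCommGroup V] [Module K V] (f : K[X])
    (j : ℕ) : ℕ :=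
  {x : GV K V Δ | j * f.natDegree ≤ pd ((x : V ≃ₗ[K] V) : V →ₗ[K] V) f}.ncard

lemma cnt_mul (f : K[X]) (hf : Irreducible f) (j : ℕ) [Fintype (GV K V Δ)] :
    cnt Δ V f j * (Nat.card K ^ (j * f.natDegree) - 1) ≤
      ∑ k ∈ Finset.Icc 1 j, ∑ x : GV K V Δ, (cyc ((x : V ≃ₗ[K] V) : V →ₗ[K] V) (f ^ k)).ncard := by
  classical
  rw [Finset.sum_comm]
  unfold cnt
  have h1 : {x : GV K V Δ | j * f.natDegree ≤ pd ((x : V ≃ₗ[K] V) : V →ₗ[K] V) f}.ncard =
      (Finset.univ.filter fun x : GV K V Δ =>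
        j * f.natDegree ≤ pd ((x : V ≃ₗ[K] V) : V →ₗ[K] V) f).card := by
    rw [← Set.ncard_coe_finset]
    congr 1
    ext x
    simp
  rw [h1, ← smul_eq_mul, ← Finset.sum_const]
  refine (Finset.sum_le_sum fun x hx => ?_).trans (Finset.sum_le_univ_sum_of_nonneg fun x => Nat.zero_le _)
  have h2 := pow_le_cyc ((x : V ≃ₗ[K] V) : V →ₗ[K] V) hf (Finset.mem_filter.1 hx).2
  omega

lemma cnt_lt (f : K[X]) (hf : Irreducible f) (hfm : f.Monic) {j : ℕ}
    (hn : j * f.natDegree < finrank K V) :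
    cnt Δ V f j * (Nat.card K ^ (j * f.natDegree) - 1) ≤ j * Nat.card (GV K V Δ) := by
  classical
  have : Fintype (GV K V Δ) := Fintype.ofFinite _
  refine (cnt_mul f hf j).trans ?_
  have h1 : ∀ k ∈ Finset.Icc 1 j,
      ∑ x : GV K V Δ, (cyc ((x : V ≃ₗ[K] V) : V →ₗ[K] V) (f ^ k)).ncard ≤ Nat.card (GV K V Δ) := by
    intro k hk
    rw [Finset.mem_Icc] at hk
    refine sum_cyc_lt (f ^ k) (hfm.pow k) ?_ ?_
    · rw [natDegree_pow]
      have := hf.natDegree_pos
      have := hk.1
      positivity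
    · rw [natDegree_pow]
      exact (Nat.mul_le_mul_right _ hk.2).trans_lt hn
  have h2 := Finset.sum_le_sum h1
  rw [Finset.sum_const, Nat.card_Icc, smul_eq_mul] at h2
  simpa using h2

lemma cnt_eq (f : K[X]) (hf : Irreducible f) (hfm : f.Monic) {j : ℕ} (hj : 1 ≤ j)
    (hn : j * f.natDegree = finrank K V) :
    cnt Δ V f j * (Nat.card K ^ (j * f.natDegree) - 1) ≤
      (j - 1) * Nat.card (GV K V Δ) + Nat.card (V ≃ₗ[K] V) := by
  classical
  have : Fintype (GV K V Δ) := Fintype.ofFinite _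
  refine (cnt_mul f hf j).trans ?_
  have hsplit : Finset.Icc 1 j = insert j (Finset.Icc 1 (j - 1)) := by
    ext k
    simp only [Finset.mem_Icc, Finset.mem_insert]
    omega
  rw [hsplit, Finset.sum_insert (by simp only [Finset.mem_Icc]; omega), add_comm]
  apply Nat.add_le_add
  · have h1 : ∀ k ∈ Finset.Icc 1 (j - 1),
        ∑ x : GV K V Δ, (cyc ((x : V ≃ₗ[K] V) : V →ₗ[K] V) (f ^ k)).ncard ≤
          Nat.card (GV K V Δ) := by
      intro k hk
      rw [Finset.mem_Icc] at hk
      have hfp := hf.natDegree_pos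
      refine sum_cyc_lt (f ^ k) (hfm.pow k) ?_ ?_
      · rw [natDegree_pow]
        have := hk.1
        positivity
      · rw [natDegree_pow, ← hn]
        exact (Nat.mul_lt_mul_right hfp).2 (by omega)
    have h2 := Finset.sum_le_sum h1
    rw [Finset.sum_const, Nat.card_Icc, smul_eq_mul] at h2
    simpa using h2
  · refine sum_cyc_eq (f ^ j) (hfm.pow j) ?_ ?_
    · rw [natDegree_pow]
      have := hf.natDegree_pos
      positivity
    · rw [natDegree_pow, hn]

lemma cnt_gt (f : K[X]) {j : ℕ} (hn : finrank K V < j * f.natDegree) : cnt Δ V f j = 0 := by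
  unfold cnt
  rw [Set.ncard_eq_zero]
  rw [Set.eq_empty_iff_forall_notMem]
  intro x hx
  have h1 : pd ((x : V ≃ₗ[K] V) : V →ₗ[K] V) f ≤ finrank K V := Submodule.finrank_le _
  have h2 : j * f.natDegree ≤ pd ((x : V ≃ₗ[K] V) : V →ₗ[K] V) f := hx
  omega

end cyc

end Pool.Agent.TH820.LG
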