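import Mathlib
import Pool.Agent.TH820.LG.Q2

/-! # Counting irreducible polynomials -/

set_option autoImplicit false
set_option linter.unusedSectionVars false

namespace Pool.Agent.TH820.LG

open Module Polynomial

section irr
variable {K : Type} [Field K]

lemma irr_count {m : ℕ} (S : Finset K[X])
    (hS : ∀ f ∈ S, f.Monic ∧ Irreducible f ∧ f.natDegree = m) {A : K[X]} (hA : A ≠ 0)
    (hd : ∀ f ∈ S, f ∣ A) : S.card * m ≤ A.natDegree := by
  classical
  have h1 : ∏ f ∈ S, f ∣ A := by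
    refine Finset.prod_dvd_of_coprime ?_ hd
    intro f hf g hg hfg
    rw [Function.onFun, (hS f hf).2.1.coprime_iff_not_dvd]
    intro h
    exact hfg (eq_of_monic_of_associated (hS f hf).1 (hS g hg).1
      ((hS f hf).2.1.associated_of_dvd (hS g hg).2.1 h))
  have h2 := natDegree_le_of_dvd h1 hA
  rw [natDegree_prod_of_monic _ _ (fun f hf => (hS f hf).1)] at h2
  rw [Finset.sum_congr rfl (fun f hf => (hS f hf).2.2), Finset.sum_const, smul_eq_mul] at h2
  exact h2

variable [Finite K]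

lemma dvd_frob {f : K[X]} (hf : Irreducible f) :
    f ∣ X ^ (Nat.card K ^ f.natDegree) - X := by
  classical
  have : Fact (Irreducible f) := ⟨hf⟩
  let pb := AdjoinRoot.powerBasis hf.ne_zero
  have hfin : FiniteDimensional K (AdjoinRoot f) := pb.finite
  have hfr : finrank K (AdjoinRoot f) = f.natDegree := by
    rw [pb.finrank, AdjoinRoot.powerBasis_dim]
  have : Finite (AdjoinRoot f) := Module.finite_of_finite K
  have : Fintype (AdjoinRoot f) := Fintype.ofFinite _
  have hc : Fintype.card (AdjoinRoot f) = Nat.card K ^ f.natDegree := by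
    rw [← Nat.card_eq_fintype_card, ← hfr]
    exact Module.natCard_eq_pow_finrank
  rw [← AdjoinRoot.mk_eq_zero, map_sub, map_pow, AdjoinRoot.mk_X, ← hc, FiniteField.pow_card,
    sub_self]

lemma irr_count_all {m : ℕ} (hm : 1 ≤ m) (S : Finset K[X])
    (hS : ∀ f ∈ S, f.Monic ∧ Irreducible f ∧ f.natDegree = m) :
    S.card * m ≤ Nat.card K ^ m := by
  have hq : 1 < Nat.card K := Finite.one_lt_card
  have h1 : 1 < Nat.card K ^ m := Nat.one_lt_pow (by omega) hq
  have h2 := irr_count S hS (A := X ^ (Nat.card K ^ m) - X)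
    (FiniteField.X_pow_card_sub_X_ne_zero K h1) (fun f hf => by
      rw [← (hS f hf).2.2]
      exact dvd_frob (hS f hf).2.1)
  rwa [FiniteField.X_pow_card_sub_X_natDegree_eq K h1] at h2

end irr

section det
variable {K V : Type} [Field K] [Finite K] [AddCommGroup V] [Module K V] [FiniteDimensional K V]

lemma pcs_kill (x : V →ₗ[K] V) {f : K[X]} (hf : Irreducible f) {v : V} (hv : v ∈ pcs x f) :
    aeval x (f ^ finrank K V) v = 0 := by
  by_cases hv0 : v = 0
  · rw [hv0, map_zero]
  obtain ⟨k, hk1, hk⟩ := ann_pow hf hv0 hv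
  have h1 := (deg_le_range x v (f ^ k) fun p hp => (hk p).1 hp).trans (Submodule.finrank_le _)
  rw [natDegree_pow] at h1
  have h2 := hf.natDegree_pos
  have h3 : k ≤ finrank K V := by nlinarith
  rw [hk]
  exact pow_dvd_pow f h3

/-- dimensions of primary components are multiples of the degree -/
lemma dvd_pd (x : V →ₗ[K] V) {f : K[X]} (hf : Irreducible f) : f.natDegree ∣ pd x f := by
  have hx : ∀ v ∈ pcs x f, x v ∈ pcs x f := by
    rintro v ⟨k, hk⟩
    refine ⟨k, ?_⟩
    have h1 := aeval_inter x x x (fun _ => rfl) (f ^ k) v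
    rw [hk, map_zero] at h1
    exact h1.symm
  refine dvd_finrank hf _ (pcs x f) (x.restrict hx) (finrank K V) rfl ?_
  refine LinearMap.ext fun v => ?_
  apply Subtype.ext
  have h1 := aeval_inter (pcs x f).subtype (x.restrict hx) x (fun _ => rfl) (f ^ finrank K V) v
  change (pcs x f).subtype (aeval (x.restrict hx) (f ^ finrank K V) v) = 0
  rw [h1]
  exact pcs_kill x hf v.2

/-- an automorphism with irreducible characteristic polynomial -/
lemma dvd_of_full (Δ : Subgroup Kˣ) {f : K[X]} (hf : Irreducible f)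
    (hd : f.natDegree = finrank K V) {x : V ≃ₗ[K] V} (hx : LinearEquiv.det x ∈ Δ)
    (h : f.natDegree ≤ pd (x : V →ₗ[K] V) f) :
    f ∣ X ^ ((Nat.card K ^ f.natDegree - 1) / (Nat.card K - 1) * Nat.card Δ) - 1 := by
  classical
  have : Fact (Irreducible f) := ⟨hf⟩
  let pb := AdjoinRoot.powerBasis hf.ne_zero
  have hfin : FiniteDimensional K (AdjoinRoot f) := pb.finite
  have hfr : finrank K (AdjoinRoot f) = f.natDegree := by
    rw [pb.finrank, AdjoinRoot.powerBasis_dim]
  have : Finite (AdjoinRoot f) := Module.finite_of_finite K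
  have hfpos := hf.natDegree_pos
  have htop : pcs (x : V →ₗ[K] V) f = ⊤ := by
    apply Submodule.eq_top_of_finrank_eq
    apply le_antisymm (Submodule.finrank_le _)
    rw [← hd]
    exact h
  have hk : aeval (x : V →ₗ[K] V) (f ^ finrank K V) = 0 := by
    refine LinearMap.ext fun v => ?_
    exact pcs_kill _ hf (by rw [htop]; exact Submodule.mem_top)
  obtain ⟨h1, -⟩ := simple_block hf (x : V →ₗ[K] V) hk (by omega) (by omega)
  have hroot : aeval (Algebra.lmul K (AdjoinRoot f) (AdjoinRoot.root f)) f = 0 := by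
    have h1 : aeval (Algebra.lmul K (AdjoinRoot f) (AdjoinRoot.root f)) f =
        Algebra.lmul K (AdjoinRoot f) (aeval (AdjoinRoot.root f) f) :=
      aeval_algHom_apply (Algebra.lmul K (AdjoinRoot f)) (AdjoinRoot.root f) f
    rw [h1]
    have h2 : aeval (AdjoinRoot.root f) f = 0 := by
      rw [AdjoinRoot.aeval_eq, AdjoinRoot.mk_self]
    rw [h2, map_zero]
  obtain ⟨c, hc⟩ := cyc_iso hf (x : V →ₗ[K] V) (Algebra.lmul K (AdjoinRoot f) (AdjoinRoot.root f))
    h1 hroot hd.symm hfr
  have hdet : LinearMap.det (x : V →ₗ[K] V) = Algebra.norm K (AdjoinRoot.root f) := by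
    rw [Algebra.norm_apply, ← LinearMap.det_conj (x : V →ₗ[K] V) c]
    congr 1
    refine LinearMap.ext fun v => ?_
    change c (x (c.symm v)) = _
    have := hc (c.symm v)
    rw [c.apply_symm_apply] at this
    exact this
  have hpow : (LinearEquiv.det x) ^ (Nat.card Δ) = 1 := by
    have h2 : (⟨LinearEquiv.det x, hx⟩ : Δ) ^ (Nat.card Δ) = 1 := pow_card_eq_one'
    have h3 : ((⟨LinearEquiv.det x, hx⟩ : Δ) ^ (Nat.card Δ) : Δ).1 = 1 := by
      rw [h2]
      rfl
    rwa [Subgroup.coe_pow] at h3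
  have hpow2 : (Algebra.norm K (AdjoinRoot.root f)) ^ (Nat.card Δ) = 1 := by
    rw [← hdet, ← LinearEquiv.coe_det, ← Units.val_pow_eq_pow_val, hpow, Units.val_one]
  have hcard : Nat.card (AdjoinRoot f) = Nat.card K ^ f.natDegree := by
    rw [← hfr]
    exact Module.natCard_eq_pow_finrank
  have h4 := FiniteField.algebraMap_norm_eq_pow (K := K) (K' := AdjoinRoot f)
    (x := AdjoinRoot.root f)
  rw [← AdjoinRoot.mk_eq_zero, map_sub, map_pow, AdjoinRoot.mk_X, map_one, pow_mul, ← hcard, ← h4,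
    ← map_pow, hpow2, map_one, sub_self]

end det

section main
variable {K V : Type} [Field K] [Finite K] [AddCommGroup V] [Module K V] [FiniteDimensional K V]
  [Finite V] [Fintype V] [DecidableEq V] {Δ : Subgroup Kˣ}

/-- irreducible characteristic polynomials -/
lemma full_sum {m : ℕ} (hm : 1 ≤ m) (hmn : m = finrank K V) (S : Finset K[X])
    (hS : ∀ f ∈ S, f.Monic ∧ Irreducible f ∧ f.natDegree = m) :
    m * ∑ f ∈ S, cnt Δ V f 1 ≤ Nat.card (GV K V Δ) := by
  classical
  set q := Nat.card K with hq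
  have hq2 : 2 ≤ q := Finite.one_lt_card
  have hqm : 1 < q ^ m := Nat.one_lt_pow (by omega) hq2
  set T := S.filter fun f => cnt Δ V f 1 ≠ 0 with hT
  have h1 : ∑ f ∈ S, cnt Δ V f 1 = ∑ f ∈ T, cnt Δ V f 1 := by
    rw [hT, Finset.sum_filter_ne_zero]
  set e := (q ^ m - 1) / (q - 1) * Nat.card Δ with he
  have hpos : 0 < (q ^ m - 1) / (q - 1) := by
    refine Nat.div_pos ?_ (by omega)
    have : q ≤ q ^ m := Nat.le_self_pow (by omega) q
    omega
  have hΔ : 0 < Nat.card Δ := Nat.card_pos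
  have he0 : e ≠ 0 := by
    rw [he]
    positivity
  have hcardT : T.card * m ≤ e := by
    have hA1 : (X ^ e - 1 : K[X]) = X ^ e - C 1 := by rw [C_1]
    have hA : (X ^ e - 1 : K[X]) ≠ 0 := by
      rw [hA1]
      exact (monic_X_pow_sub_C (1 : K) he0).ne_zero
    have h2 := irr_count T (fun f hf => hS f (Finset.mem_filter.1 hf).1) hA (by
        intro f hf
        obtain ⟨hf1, hf2⟩ := Finset.mem_filter.1 hf
        obtain ⟨x, hx⟩ : {x : GV K V Δ | 1 * f.natDegree ≤
            pd ((x : V ≃ₗ[K] V) : V →ₗ[K] V) f}.Nonempty := by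
          rw [Set.nonempty_iff_ne_empty]
          intro h
          apply hf2
          unfold cnt
          rw [h, Set.ncard_empty]
        have h3 := dvd_of_full Δ (hS f hf1).2.1 ((hS f hf1).2.2.trans hmn) x.2 (by
          have := hx
          simpa using this)
        rw [(hS f hf1).2.2] at h3
        exact h3)
    have h3 : (X ^ e - 1 : K[X]).natDegree = e := by
      rw [hA1, natDegree_X_pow_sub_C]
    rwa [h3] at h2
  have hVn : Nontrivial V := Module.nontrivial_of_finrank_pos (R := K) (by omega)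
  have hGL := card_GL (K := K) (V := V) (Δ := Δ)
  have h2 : ∀ f ∈ T, cnt Δ V f 1 * (q ^ m - 1) ≤ Nat.card (V ≃ₗ[K] V) := by
    intro f hf
    have hf1 := (Finset.mem_filter.1 hf).1
    have h3 := cnt_eq (Δ := Δ) (V := V) f (hS f hf1).2.1 (hS f hf1).1 (j := 1) le_rfl (by
      rw [one_mul, (hS f hf1).2.2, hmn])
    rw [one_mul, (hS f hf1).2.2] at h3
    simpa using h3
  have h3 := Finset.sum_le_sum h2
  rw [← Finset.sum_mul, Finset.sum_const, smul_eq_mul] at h3
  rw [h1]
  have hqm1 : 0 < q ^ m - 1 := by omega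
  have hdvd : (q ^ m - 1) / (q - 1) * (q - 1) = q ^ m - 1 :=
    Nat.div_mul_cancel (Nat.sub_one_dvd_pow_sub_one q m)
  have h4 : m * (∑ f ∈ T, cnt Δ V f 1) * (q ^ m - 1) ≤ Nat.card (GV K V Δ) * (q ^ m - 1) := by
    calc m * (∑ f ∈ T, cnt Δ V f 1) * (q ^ m - 1)
        = m * ((∑ f ∈ T, cnt Δ V f 1) * (q ^ m - 1)) := mul_assoc _ _ _
      _ ≤ m * (T.card * Nat.card (V ≃ₗ[K] V)) := Nat.mul_le_mul_left _ h3
      _ = (T.card * m) * Nat.card (V ≃ₗ[K] V) := by ring
      _ ≤ e * Nat.card (V ≃ₗ[K] V) := Nat.mul_le_mul_right _ hcardT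
      _ = (q ^ m - 1) / (q - 1) * (Nat.card (V ≃ₗ[K] V) * Nat.card Δ) := by rw [he]; ring
      _ = (q ^ m - 1) / (q - 1) * (Nat.card (GV K V Δ) * (q - 1)) := by rw [hGL]
      _ = Nat.card (GV K V Δ) * ((q ^ m - 1) / (q - 1) * (q - 1)) := by ring
      _ = Nat.card (GV K V Δ) * (q ^ m - 1) := by rw [hdvd]
  exact Nat.le_of_mul_le_mul_right h4 hqm1

end main

end Pool.Agent.TH820.LG
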