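import Mathlib
import Pool.Agent.TH820.LG.Q3

/-! # First moments -/

set_option autoImplicit false
set_option linter.unusedSectionVars false

namespace Pool.Agent.TH820.LG

open Module Polynomial

lemma geo_sum (n : ℕ) (hn : 1 ≤ n) :
    ∑ j ∈ Finset.Icc 2 n, ((j : ℝ) + 2) * (1 / 2) ^ (j - 1) = 5 - ((n : ℝ) + 4) * (1 / 2) ^ (n - 1) := by
  induction n, hn using Nat.le_induction with
  | base => norm_num
  | succ n hn ih =>
    rw [← Finset.insert_Icc_right_eq_Icc_add_one (by omega : 2 ≤ n + 1), Finset.sum_insert (by simp), ih]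
    have h1 : n + 1 - 1 = (n - 1) + 1 := by omega
    rw [h1, pow_succ]
    push_cast
    ring

lemma geo_sum2 (a n : ℕ) :
    ∑ m ∈ Finset.Icc a n, (1 / 2 : ℝ) ^ m ≤ 2 * (1 / 2) ^ a := by
  have h1 : ∑ m ∈ Finset.Icc a n, (1 / 2 : ℝ) ^ m ≤ ∑' m : ℕ, (1 / 2 : ℝ) ^ (a + m) := by
    have hs : Summable (fun m : ℕ => (1 / 2 : ℝ) ^ (a + m)) := by
      simp only [pow_add]
      exact summable_geometric_two.mul_left _
    have h2 : ∑ m ∈ Finset.Icc a n, (1 / 2 : ℝ) ^ m =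
        ∑ m ∈ (Finset.Icc a n).image (fun m => m - a), (1 / 2 : ℝ) ^ (a + m) := by
      rw [Finset.sum_image]
      · refine Finset.sum_congr rfl fun m hm => ?_
        rw [Finset.mem_Icc] at hm
        congr 1
        omega
      · intro x hx y hy hxy
        simp only [Finset.coe_Icc, Set.mem_Icc] at hx hy
        simp only at hxy
        omega
    rw [h2]
    exact hs.sum_le_tsum _ (fun m _ => by positivity)
  refine h1.trans (le_of_eq ?_)
  simp only [pow_add]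
  rw [tsum_mul_left, tsum_geometric_two]
  ring

section mom
variable {K V : Type} [Field K] [Finite K] [AddCommGroup V] [Module K V] [FiniteDimensional K V]
  [Finite V] [Fintype V] [DecidableEq V] {Δ : Subgroup Kˣ}

lemma card_GL_le [Nontrivial V] :
    Nat.card (V ≃ₗ[K] V) ≤ Nat.card (GV K V Δ) * (Nat.card K - 1) := by
  rw [← card_GL]
  exact Nat.le_mul_of_pos_right _ Nat.card_pos

/-- real bounds -/
lemma cnt_real_lt {f : K[X]} (hf : Irreducible f) (hfm : f.Monic) {j : ℕ} (hj : 1 ≤ j)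
    (hn : j * f.natDegree < finrank K V) :
    (cnt Δ V f j : ℝ) ≤ 2 * j * Nat.card (GV K V Δ) / (Nat.card K : ℝ) ^ (j * f.natDegree) := by
  have h1 := cnt_lt (Δ := Δ) (V := V) f hf hfm hn
  have hq : 1 < Nat.card K := Finite.one_lt_card
  have hjm : j * f.natDegree ≠ 0 := by
    have := hf.natDegree_pos
    positivity
  have hQ : 1 < Nat.card K ^ (j * f.natDegree) := Nat.one_lt_pow hjm hq
  set Q := Nat.card K ^ (j * f.natDegree) with hQd
  have hQR : ((Nat.card K : ℝ)) ^ (j * f.natDegree) = (Q : ℝ) := by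
    rw [hQd]; push_cast; rfl
  rw [hQR, le_div_iff₀ (by exact_mod_cast (by omega : 0 < Q))]
  have h2 : (cnt Δ V f j : ℝ) * (Q - 1) ≤ j * Nat.card (GV K V Δ) := by
    have h3 : ((Q - 1 : ℕ) : ℝ) = (Q : ℝ) - 1 := by
      rw [Nat.cast_sub hQ.le]
      simp
    rw [← h3]
    exact_mod_cast h1
  have h4 : (2 : ℝ) ≤ Q := by exact_mod_cast hQ
  have h5 : (0 : ℝ) ≤ cnt Δ V f j := Nat.cast_nonneg _
  nlinarith

lemma cnt_real_two {f : K[X]} (hf : Irreducible f) (hfm : f.Monic) {j : ℕ} (hj : 2 ≤ j) :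
    (cnt Δ V f j : ℝ) ≤ 2 * (j + Nat.card K) * Nat.card (GV K V Δ) /
      (Nat.card K : ℝ) ^ (j * f.natDegree) := by
  have hq : 1 < Nat.card K := Finite.one_lt_card
  have hfpos := hf.natDegree_pos
  have hg : (0 : ℝ) ≤ Nat.card (GV K V Δ) := Nat.cast_nonneg _
  rcases lt_trichotomy (j * f.natDegree) (finrank K V) with h | h | h
  · refine (cnt_real_lt hf hfm (by omega) h).trans ?_
    apply div_le_div_of_nonneg_right _ (by positivity)
    have : (0 : ℝ) ≤ Nat.card K := Nat.cast_nonneg _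
    nlinarith [mul_nonneg this hg]
  · have hVn : Nontrivial V := Module.nontrivial_of_finrank_pos (R := K) (by
      rw [← h]
      positivity)
    have h1 := cnt_eq (Δ := Δ) (V := V) f hf hfm (by omega : 1 ≤ j) h
    have h2 := card_GL_le (K := K) (V := V) (Δ := Δ)
    have hjm : j * f.natDegree ≠ 0 := by positivity
    have hQ : 1 < Nat.card K ^ (j * f.natDegree) := Nat.one_lt_pow hjm hq
    set Q := Nat.card K ^ (j * f.natDegree) with hQd
    have hQR : ((Nat.card K : ℝ)) ^ (j * f.natDegree) = (Q : ℝ) := by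
      rw [hQd]; push_cast; rfl
    rw [hQR, le_div_iff₀ (by exact_mod_cast (by omega : 0 < Q))]
    have h3 : cnt Δ V f j * (Q - 1) ≤ (j + Nat.card K) * Nat.card (GV K V Δ) := by
      refine h1.trans ((Nat.add_le_add_left h2 _).trans ?_)
      rw [mul_comm (Nat.card (GV K V Δ)), ← Nat.add_mul]
      exact Nat.mul_le_mul_right _ (by omega)
    have h4 : (cnt Δ V f j : ℝ) * (Q - 1) ≤ (j + Nat.card K) * Nat.card (GV K V Δ) := by
      have h5 : ((Q - 1 : ℕ) : ℝ) = (Q : ℝ) - 1 := by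
        rw [Nat.cast_sub hQ.le]
        simp
      rw [← h5]
      exact_mod_cast h3
    have h6 : (2 : ℝ) ≤ Q := by exact_mod_cast hQ
    have h7 : (0 : ℝ) ≤ cnt Δ V f j := Nat.cast_nonneg _
    nlinarith
  · rw [cnt_gt f h]
    simp only [Nat.cast_zero]
    positivity

lemma pow_aux {m j : ℕ} (hm : 1 ≤ m) (hj : 2 ≤ j) {q : ℝ} (hq : 2 ≤ q) :
    q ^ m * ((j + q) / q ^ (j * m)) ≤ ((j : ℝ) + 2) * (1 / 2) ^ (j - 1) := by
  have hq0 : 0 < q := by linarith
  have h1 : q ^ (j * m) = q ^ m * q ^ ((j - 1) * m) := by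
    rw [← pow_add]
    congr 1
    obtain ⟨k, rfl⟩ : ∃ k, j = k + 1 := ⟨j - 1, by omega⟩
    simp
    ring
  have h2 : q ^ m * ((j + q) / q ^ (j * m)) = (j + q) / q ^ ((j - 1) * m) := by
    rw [h1]
    field_simp
  rw [h2]
  have h3 : q ^ (j - 1) ≤ q ^ ((j - 1) * m) :=
    pow_le_pow_right₀ (by linarith) (Nat.le_mul_of_pos_right _ hm)
  have h4 : (j + q) / q ^ ((j - 1) * m) ≤ (j + q) / q ^ (j - 1) :=
    div_le_div_of_nonneg_left (by positivity) (by positivity) h3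
  refine h4.trans ?_
  rw [div_le_iff₀ (by positivity)]
  have h5 : ((1 : ℝ) / 2) ^ (j - 1) * q ^ (j - 1) = (q / 2) ^ (j - 1) := by
    rw [← mul_pow]
    congr 1
    ring
  rw [mul_assoc, h5]
  have h6 : q / 2 ≤ (q / 2) ^ (j - 1) := by
    have : (1 : ℝ) ≤ q / 2 := by linarith
    exact le_self_pow₀ this (by omega)
  have hj0 : (0 : ℝ) ≤ j := Nat.cast_nonneg _
  have h7 : ((j : ℝ) + 2) * (q / 2) ≤ ((j : ℝ) + 2) * (q / 2) ^ (j - 1) :=
    mul_le_mul_of_nonneg_left h6 (by positivity)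
  nlinarith

/-- the sum of the dimensions, for a fixed degree -/
lemma sum_pd (m : ℕ) (hm : 1 ≤ m) (hmn : m ≤ finrank K V) (S : Finset K[X])
    (hS : ∀ f ∈ S, f.Monic ∧ Irreducible f ∧ f.natDegree = m) [Fintype (GV K V Δ)] :
    ∑ f ∈ S, ∑ x : GV K V Δ, (pd ((x : V ≃ₗ[K] V) : V →ₗ[K] V) f : ℝ) ≤
      12 * Nat.card (GV K V Δ) := by
  classical
  set n := finrank K V with hn
  set g : ℝ := ((Nat.card (GV K V Δ) : ℕ) : ℝ) with hg
  set q : ℝ := ((Nat.card K : ℕ) : ℝ) with hq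
  have hg0 : 0 ≤ g := Nat.cast_nonneg _
  have hq2 : 2 ≤ q := by
    rw [hq]
    exact_mod_cast (Finite.one_lt_card : 1 < Nat.card K)
  have hSc : (S.card : ℝ) * m ≤ q ^ m := by
    have := irr_count_all hm S hS
    rw [hq]
    exact_mod_cast this
  -- rewriting in terms of `cnt`
  have h1 : ∀ f ∈ S, ∑ x : GV K V Δ, (pd ((x : V ≃ₗ[K] V) : V →ₗ[K] V) f : ℝ) =
      m * ∑ j ∈ Finset.Icc 1 n, (cnt Δ V f j : ℝ) := by
    intro f hf
    obtain ⟨hf1, hf2, hf3⟩ := hS f hf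
    have h2 : ∀ x : GV K V Δ, (pd ((x : V ≃ₗ[K] V) : V →ₗ[K] V) f : ℝ) =
        m * ∑ j ∈ Finset.Icc 1 n,
          (if j * f.natDegree ≤ pd ((x : V ≃ₗ[K] V) : V →ₗ[K] V) f then (1 : ℝ) else 0) := by
      intro x
      obtain ⟨a, ha⟩ := dvd_pd ((x : V ≃ₗ[K] V) : V →ₗ[K] V) hf2
      have hle : pd ((x : V ≃ₗ[K] V) : V →ₗ[K] V) f ≤ n := Submodule.finrank_le _
      rw [hf3] at ha ⊢
      rw [ha] at hle ⊢
      have han : a ≤ n := by nlinarith
      have h3 : ∀ j ∈ Finset.Icc 1 n, (if j * m ≤ m * a then (1 : ℝ) else 0) =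
          if j ≤ a then 1 else 0 := by
        intro j _
        congr 1
        rw [mul_comm m a, eq_iff_iff]
        exact Nat.mul_le_mul_right_iff hm
      rw [Finset.sum_congr rfl h3, ← Finset.sum_filter]
      have h4 : (Finset.Icc 1 n).filter (fun j => j ≤ a) = Finset.Icc 1 a := by
        ext j
        simp only [Finset.mem_filter, Finset.mem_Icc]
        omega
      rw [h4, Finset.sum_const, Nat.card_Icc]
      push_cast
      simp
    rw [Finset.sum_congr rfl (fun x _ => h2 x), ← Finset.mul_sum, Finset.sum_comm]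
    congr 1
    refine Finset.sum_congr rfl fun j _ => ?_
    rw [← Finset.sum_filter, Finset.sum_const, nsmul_eq_mul, mul_one]
    unfold cnt
    rw [← Set.ncard_coe_finset]
    congr 2
    ext x
    simp
  rw [Finset.sum_congr rfl h1, ← Finset.mul_sum, Finset.sum_comm]
  have hn1 : 1 ≤ n := hm.trans hmn
  have hsplit : Finset.Icc 1 n = insert 1 (Finset.Icc 2 n) := by
    ext k
    simp only [Finset.mem_Icc, Finset.mem_insert]
    omega
  rw [hsplit, Finset.sum_insert (by simp), mul_add]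
  -- the term j = 1
  have hfirst : (m : ℝ) * ∑ f ∈ S, (cnt Δ V f 1 : ℝ) ≤ 2 * g := by
    rcases hmn.lt_or_eq with hlt | heq
    · have h2 : ∀ f ∈ S, (cnt Δ V f 1 : ℝ) ≤ 2 * g / q ^ m := by
        intro f hf
        obtain ⟨hf1, hf2, hf3⟩ := hS f hf
        have h3 := cnt_real_lt (Δ := Δ) (V := V) hf2 hf1 (j := 1) le_rfl (by
          rw [one_mul, hf3]; exact hlt)
        rw [one_mul, hf3, Nat.cast_one, mul_one] at h3
        exact h3
      have h3 := Finset.sum_le_sum h2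
      rw [Finset.sum_const, nsmul_eq_mul] at h3
      have hqm : 0 < q ^ m := by positivity
      calc (m : ℝ) * ∑ f ∈ S, (cnt Δ V f 1 : ℝ) ≤ m * (S.card * (2 * g / q ^ m)) :=
            mul_le_mul_of_nonneg_left h3 (Nat.cast_nonneg _)
        _ = (S.card * m) * (2 * g / q ^ m) := by ring
        _ ≤ q ^ m * (2 * g / q ^ m) := mul_le_mul_of_nonneg_right hSc (by positivity)
        _ = 2 * g := by field_simp
    · have h2 := full_sum (Δ := Δ) (V := V) hm heq S hS
      have h3 : (m : ℝ) * ∑ f ∈ S, (cnt Δ V f 1 : ℝ) ≤ g := by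
        rw [hg]
        exact_mod_cast h2
      linarith
  -- the terms j ≥ 2
  have hrest : (m : ℝ) * ∑ j ∈ Finset.Icc 2 n, ∑ f ∈ S, (cnt Δ V f j : ℝ) ≤ 10 * g := by
    have h2 : ∀ j ∈ Finset.Icc 2 n, (m : ℝ) * ∑ f ∈ S, (cnt Δ V f j : ℝ) ≤
        2 * g * (((j : ℝ) + 2) * (1 / 2) ^ (j - 1)) := by
      intro j hj
      rw [Finset.mem_Icc] at hj
      have h3 : ∀ f ∈ S, (cnt Δ V f j : ℝ) ≤ 2 * (j + q) * g / q ^ (j * m) := by
        intro f hf
        obtain ⟨hf1, hf2, hf3⟩ := hS f hf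
        have h3 := cnt_real_two (Δ := Δ) (V := V) hf2 hf1 hj.1
        rw [hf3] at h3
        exact h3
      have h4 := Finset.sum_le_sum h3
      rw [Finset.sum_const, nsmul_eq_mul] at h4
      calc (m : ℝ) * ∑ f ∈ S, (cnt Δ V f j : ℝ) ≤ m * (S.card * (2 * (j + q) * g / q ^ (j * m))) :=
            mul_le_mul_of_nonneg_left h4 (Nat.cast_nonneg _)
        _ = (S.card * m) * (2 * (j + q) * g / q ^ (j * m)) := by ring
        _ ≤ q ^ m * (2 * (j + q) * g / q ^ (j * m)) :=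
            mul_le_mul_of_nonneg_right hSc (by positivity)
        _ = 2 * g * (q ^ m * ((j + q) / q ^ (j * m))) := by ring
        _ ≤ 2 * g * (((j : ℝ) + 2) * (1 / 2) ^ (j - 1)) :=
            mul_le_mul_of_nonneg_left (pow_aux hm hj.1 hq2) (by positivity)
    rw [Finset.mul_sum]
    refine (Finset.sum_le_sum h2).trans ?_
    rw [← Finset.mul_sum, geo_sum n hn1]
    have h5 : 0 ≤ ((n : ℝ) + 4) * (1 / 2) ^ (n - 1) := by positivity
    nlinarith
  linarith

lemma sum_rep (m : ℕ) (hm : 1 ≤ m) (S : Finset K[X])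
    (hS : ∀ f ∈ S, f.Monic ∧ Irreducible f ∧ f.natDegree = m) :
    ∑ f ∈ S, (cnt Δ V f 2 : ℝ) ≤ 8 * (1 / 2) ^ m * Nat.card (GV K V Δ) := by
  classical
  set g : ℝ := ((Nat.card (GV K V Δ) : ℕ) : ℝ) with hg
  set q : ℝ := ((Nat.card K : ℕ) : ℝ) with hq
  have hg0 : 0 ≤ g := Nat.cast_nonneg _
  have hq2 : 2 ≤ q := by
    rw [hq]
    exact_mod_cast (Finite.one_lt_card : 1 < Nat.card K)
  have hSc : (S.card : ℝ) ≤ q ^ m := by
    have h1 := irr_count_all hm S hS
    have h2 : S.card ≤ Nat.card K ^ m := (Nat.le_mul_of_pos_right _ hm).trans h1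
    rw [hq]
    exact_mod_cast h2
  have h3 : ∀ f ∈ S, (cnt Δ V f 2 : ℝ) ≤ 2 * (2 + q) * g / q ^ (2 * m) := by
    intro f hf
    obtain ⟨hf1, hf2, hf3⟩ := hS f hf
    have h3 := cnt_real_two (Δ := Δ) (V := V) hf2 hf1 (le_refl 2)
    rw [hf3, Nat.cast_ofNat] at h3
    exact h3
  have h4 := Finset.sum_le_sum h3
  rw [Finset.sum_const, nsmul_eq_mul] at h4
  refine h4.trans ?_
  have hqm : 0 < q ^ m := by positivity
  have h5 : (S.card : ℝ) * (2 * (2 + q) * g / q ^ (2 * m)) ≤ q ^ m * (2 * (2 + q) * g / q ^ (2 * m)) :=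
    mul_le_mul_of_nonneg_right hSc (by positivity)
  refine h5.trans ?_
  have h6 : q ^ m * (2 * (2 + q) * g / q ^ (2 * m)) = 2 * (2 + q) * g / q ^ m := by
    rw [two_mul m, pow_add]
    field_simp
  rw [h6, div_le_iff₀ hqm]
  have h7 : (1 / 2 : ℝ) ^ m * q ^ m = (q / 2) ^ m := by
    rw [← mul_pow]
    congr 1
    ring
  have h8 : q / 2 ≤ (q / 2) ^ m := le_self_pow₀ (by linarith) (by omega)
  calc 2 * (2 + q) * g ≤ 4 * q * g := by nlinarith
    _ = 8 * (q / 2) * g := by ring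
    _ ≤ 8 * (q / 2) ^ m * g := by
        apply mul_le_mul_of_nonneg_right _ hg0
        linarith
    _ = 8 * (1 / 2) ^ m * g * q ^ m := by rw [← h7]; ring

end mom

end Pool.Agent.TH820.LG
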