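import Mathlib
import Pool.Agent.TH820.LG.Q4

/-! # Typical elements -/

set_option autoImplicit false
set_option linter.unusedSectionVars false

namespace Pool.Agent.TH820.LG

open Module Polynomial

section irrs
variable (K : Type) [Field K] [Finite K]

lemma irrs_finite (m : ℕ) (hm : 1 ≤ m) :
    {f : K[X] | f.Monic ∧ Irreducible f ∧ f.natDegree = m}.Finite := by
  by_contra hinf
  obtain ⟨S, hS, hc⟩ := Set.Infinite.exists_subset_card_eq hinf (Nat.card K ^ m + 1)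
  have h1 := irr_count_all hm S (fun f hf => hS hf)
  have h2 : S.card ≤ Nat.card K ^ m := (Nat.le_mul_of_pos_right _ hm).trans h1
  omega

open Classical in
/-- the monic irreducible polynomials of degree `m` -/
noncomputable def irrs (m : ℕ) : Finset K[X] :=
  if h : {f : K[X] | f.Monic ∧ Irreducible f ∧ f.natDegree = m}.Finite then h.toFinset else ∅

lemma mem_irrs {m : ℕ} (hm : 1 ≤ m) {f : K[X]} :
    f ∈ irrs K m ↔ f.Monic ∧ Irreducible f ∧ f.natDegree = m := by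
  unfold irrs
  rw [dif_pos (irrs_finite K m hm), Set.Finite.mem_toFinset]
  rfl

open Classical in
/-- the monic irreducible polynomials of degree at most `n` -/
noncomputable def allIrr (n : ℕ) : Finset K[X] := (Finset.Icc 1 n).biUnion (irrs K)

lemma mem_allIrr {n : ℕ} {f : K[X]} :
    f ∈ allIrr K n ↔ f.Monic ∧ Irreducible f ∧ f.natDegree ≤ n := by
  classical
  unfold allIrr
  rw [Finset.mem_biUnion]
  constructor
  · rintro ⟨m, hm, hf⟩
    rw [Finset.mem_Icc] at hm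
    obtain ⟨h1, h2, h3⟩ := (mem_irrs K hm.1).1 hf
    exact ⟨h1, h2, h3 ▸ hm.2⟩
  · rintro ⟨h1, h2, h3⟩
    have h4 := h2.natDegree_pos
    exact ⟨f.natDegree, Finset.mem_Icc.2 ⟨h4, h3⟩, (mem_irrs K h4).2 ⟨h1, h2, rfl⟩⟩

lemma sum_allIrr (n : ℕ) (w : K[X] → ℝ) :
    ∑ f ∈ allIrr K n, w f = ∑ m ∈ Finset.Icc 1 n, ∑ f ∈ irrs K m, w f := by
  classical
  unfold allIrr
  refine Finset.sum_biUnion ?_
  intro a ha b hb hab
  rw [Function.onFun, Finset.disjoint_left]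
  intro f hf hf2
  have ha' : 1 ≤ a := (Finset.mem_Icc.1 (Finset.mem_coe.1 ha)).1
  have hb' : 1 ≤ b := (Finset.mem_Icc.1 (Finset.mem_coe.1 hb)).1
  exact hab (((mem_irrs K ha').1 hf).2.2.symm.trans ((mem_irrs K hb').1 hf2).2.2)

lemma dvd_prod_pow (n : ℕ) (d : ℕ) : ∀ p : K[X], p.Monic → p.natDegree = d → d ≤ n →
    p ∣ (∏ f ∈ allIrr K n, f) ^ d := by
  induction d using Nat.strong_induction_on with
  | _ d ih =>
    intro p hp hd hn
    by_cases h1 : p = 1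
    · rw [h1]; exact one_dvd _
    have hdp : 0 < d := by
      rcases Nat.eq_zero_or_pos d with h0 | h0
      · exact absurd ((Monic.natDegree_eq_zero hp).1 (hd.trans h0)) h1
      · exact h0
    have hnu : ¬ IsUnit p := by
      intro hu
      exact h1 (hp.eq_one_of_isUnit hu)
    obtain ⟨f, hfm, hfi, hfp⟩ := exists_monic_irreducible_factor p hnu
    obtain ⟨r, hr⟩ := hfp
    have hrm : r.Monic := Monic.of_mul_monic_left hfm (hr ▸ hp)
    have hdeg : f.natDegree + r.natDegree = d := by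
      rw [← hd, hr, hfm.natDegree_mul hrm]
    have hfp := hfi.natDegree_pos
    have h2 := ih r.natDegree (by omega) r hrm rfl (by omega)
    have h3 : f ∣ ∏ f ∈ allIrr K n, f :=
      Finset.dvd_prod_of_mem _ ((mem_allIrr K).2 ⟨hfm, hfi, by omega⟩)
    rw [hr]
    have h4 : (∏ f ∈ allIrr K n, f) * (∏ f ∈ allIrr K n, f) ^ r.natDegree ∣
        (∏ f ∈ allIrr K n, f) ^ d := by
      rw [← pow_succ']
      exact pow_dvd_pow _ (by omega)
    exact (mul_dvd_mul h3 h2).trans h4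

end irrs

lemma smooth_card (L₀ n : ℕ) [DecidablePred fun m => ¬ Lg L₀ m] :
    ((Finset.Icc 1 n).filter fun m => ¬ Lg L₀ m).card ≤ 2 ^ L₀.primesBelow.card * n.sqrt := by
  refine le_trans (Finset.card_le_card ?_) (Nat.smoothNumbersUpTo_card_le n L₀)
  intro m hm
  rw [Finset.mem_filter, Finset.mem_Icc] at hm
  rw [Nat.mem_smoothNumbersUpTo]
  refine ⟨hm.1.2, ?_⟩
  rw [Nat.mem_smoothNumbers]
  refine ⟨by omega, fun p hp => ?_⟩
  by_contra hge
  push Not at hge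
  exact hm.2 ⟨p, Nat.prime_of_mem_primeFactorsList hp, hge, Nat.dvd_of_mem_primeFactorsList hp⟩

section bad
variable {K V : Type} [Field K] [Finite K] [AddCommGroup V] [Module K V] [FiniteDimensional K V]
  [Finite V] [Fintype V] [DecidableEq V] {Δ : Subgroup Kˣ}

/-- too many dimensions of smooth degree -/
lemma bad_one (L₀ s : ℕ) [Fintype (GV K V Δ)] :
    ((s : ℝ) + 1) * ({x : GV K V Δ | s < smd L₀ (allIrr K (finrank K V))
      ((x : V ≃ₗ[K] V) : V →ₗ[K] V)}.ncard : ℝ) ≤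
      12 * Nat.card (GV K V Δ) * (2 ^ L₀.primesBelow.card * (finrank K V).sqrt : ℕ) := by
  classical
  set n := finrank K V with hn
  set g : ℝ := ((Nat.card (GV K V Δ) : ℕ) : ℝ) with hg
  have hg0 : 0 ≤ g := Nat.cast_nonneg _
  set B := Finset.univ.filter fun x : GV K V Δ =>
    s < smd L₀ (allIrr K n) ((x : V ≃ₗ[K] V) : V →ₗ[K] V) with hB
  have h1 : {x : GV K V Δ | s < smd L₀ (allIrr K n) ((x : V ≃ₗ[K] V) : V →ₗ[K] V)}.ncard =
      B.card := by
    rw [← Set.ncard_coe_finset]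
    congr 1
    ext x
    simp [hB]
  rw [h1]
  have h2 : ((s : ℝ) + 1) * B.card ≤
      ∑ x : GV K V Δ, (smd L₀ (allIrr K n) ((x : V ≃ₗ[K] V) : V →ₗ[K] V) : ℝ) := by
    have h3 : ∑ _x ∈ B, ((s : ℝ) + 1) ≤
        ∑ x ∈ B, (smd L₀ (allIrr K n) ((x : V ≃ₗ[K] V) : V →ₗ[K] V) : ℝ) := by
      refine Finset.sum_le_sum fun x hx => ?_
      have := (Finset.mem_filter.1 hx).2
      exact_mod_cast this
    rw [Finset.sum_const, nsmul_eq_mul] at h3
    rw [mul_comm]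
    exact h3.trans (Finset.sum_le_univ_sum_of_nonneg fun x => Nat.cast_nonneg _)
  refine h2.trans ?_
  have h3 : ∀ x : GV K V Δ, (smd L₀ (allIrr K n) ((x : V ≃ₗ[K] V) : V →ₗ[K] V) : ℝ) =
      ∑ f ∈ allIrr K n, (if Lg L₀ f.natDegree then (0 : ℝ) else
        (pd ((x : V ≃ₗ[K] V) : V →ₗ[K] V) f : ℝ)) := by
    intro x
    unfold smd
    push_cast
    rfl
  simp only [h3]
  rw [Finset.sum_comm, sum_allIrr]
  have h4 : ∀ m ∈ Finset.Icc 1 n, ∑ f ∈ irrs K m, ∑ x : GV K V Δ,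
      (if Lg L₀ f.natDegree then (0 : ℝ) else (pd ((x : V ≃ₗ[K] V) : V →ₗ[K] V) f : ℝ)) ≤
      if ¬ Lg L₀ m then 12 * g else 0 := by
    intro m hm
    rw [Finset.mem_Icc] at hm
    have hS : ∀ f ∈ irrs K m, f.Monic ∧ Irreducible f ∧ f.natDegree = m :=
      fun f hf => (mem_irrs K hm.1).1 hf
    by_cases hL : ¬ Lg L₀ m
    · rw [if_pos hL]
      have h5 : ∑ f ∈ irrs K m, ∑ x : GV K V Δ,
          (if Lg L₀ f.natDegree then (0 : ℝ) else (pd ((x : V ≃ₗ[K] V) : V →ₗ[K] V) f : ℝ)) =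
          ∑ f ∈ irrs K m, ∑ x : GV K V Δ, (pd ((x : V ≃ₗ[K] V) : V →ₗ[K] V) f : ℝ) := by
        refine Finset.sum_congr rfl fun f hf => Finset.sum_congr rfl fun x _ => ?_
        rw [(hS f hf).2.2, if_neg hL]
      rw [h5]
      exact sum_pd m hm.1 hm.2 _ hS
    · rw [if_neg hL]
      rw [not_not] at hL
      apply le_of_eq
      refine Finset.sum_eq_zero fun f hf => Finset.sum_eq_zero fun x _ => ?_
      rw [(hS f hf).2.2, if_pos hL]
  refine (Finset.sum_le_sum h4).trans ?_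
  rw [← Finset.sum_filter, Finset.sum_const, nsmul_eq_mul, mul_comm]
  have h5 : (((Finset.Icc 1 n).filter fun m => ¬ Lg L₀ m).card : ℝ) ≤
      ((2 ^ L₀.primesBelow.card * n.sqrt : ℕ) : ℝ) := by
    exact_mod_cast smooth_card L₀ n
  exact mul_le_mul_of_nonneg_left h5 (by positivity)

/-- repeated components -/
lemma bad_two (L₀ : ℕ) (hL₀ : 1 ≤ L₀) [Fintype (GV K V Δ)] :
    ({x : GV K V Δ | ∃ f ∈ allIrr K (finrank K V), Lg L₀ f.natDegree ∧
      2 * f.natDegree ≤ pd ((x : V ≃ₗ[K] V) : V →ₗ[K] V) f}.ncard : ℝ) ≤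
      16 * (1 / 2) ^ L₀ * Nat.card (GV K V Δ) := by
  classical
  set n := finrank K V with hn
  set g : ℝ := ((Nat.card (GV K V Δ) : ℕ) : ℝ) with hg
  have hg0 : 0 ≤ g := Nat.cast_nonneg _
  have h1 : {x : GV K V Δ | ∃ f ∈ allIrr K n, Lg L₀ f.natDegree ∧
      2 * f.natDegree ≤ pd ((x : V ≃ₗ[K] V) : V →ₗ[K] V) f} ⊆
      ⋃ f ∈ (allIrr K n).filter fun f => Lg L₀ f.natDegree,
        {x : GV K V Δ | 2 * f.natDegree ≤ pd ((x : V ≃ₗ[K] V) : V →ₗ[K] V) f} := by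
    rintro x ⟨f, hf, hL, hx⟩
    rw [Set.mem_iUnion₂]
    exact ⟨f, Finset.mem_filter.2 ⟨hf, hL⟩, hx⟩
  have h2 : ({x : GV K V Δ | ∃ f ∈ allIrr K n, Lg L₀ f.natDegree ∧
      2 * f.natDegree ≤ pd ((x : V ≃ₗ[K] V) : V →ₗ[K] V) f}.ncard : ℝ) ≤
      ∑ f ∈ (allIrr K n).filter fun f => Lg L₀ f.natDegree, (cnt Δ V f 2 : ℝ) := by
    have h3 := (Set.ncard_le_ncard h1 (Set.toFinite _)).trans (Finset.set_ncard_biUnion_le _ _)
    exact_mod_cast h3
  refine h2.trans ?_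
  rw [Finset.sum_filter, sum_allIrr]
  have h4 : ∀ m ∈ Finset.Icc 1 n, ∑ f ∈ irrs K m,
      (if Lg L₀ f.natDegree then (cnt Δ V f 2 : ℝ) else 0) ≤
      if L₀ ≤ m then 8 * g * (1 / 2) ^ m else 0 := by
    intro m hm
    rw [Finset.mem_Icc] at hm
    have hS : ∀ f ∈ irrs K m, f.Monic ∧ Irreducible f ∧ f.natDegree = m :=
      fun f hf => (mem_irrs K hm.1).1 hf
    by_cases hL : Lg L₀ m
    · have hle : L₀ ≤ m := by
        obtain ⟨l, hl, hl2, hl3⟩ := hL
        exact hl2.trans (Nat.le_of_dvd (by omega) hl3)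
      rw [if_pos hle]
      have h5 : ∑ f ∈ irrs K m, (if Lg L₀ f.natDegree then (cnt Δ V f 2 : ℝ) else 0) =
          ∑ f ∈ irrs K m, (cnt Δ V f 2 : ℝ) :=
        Finset.sum_congr rfl fun f hf => by rw [(hS f hf).2.2, if_pos hL]
      rw [h5]
      refine (sum_rep m hm.1 _ hS).trans (le_of_eq ?_)
      rw [← hg]
      ring
    · have h5 : ∑ f ∈ irrs K m, (if Lg L₀ f.natDegree then (cnt Δ V f 2 : ℝ) else 0) = 0 :=
        Finset.sum_eq_zero fun f hf => by rw [(hS f hf).2.2, if_neg hL]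
      rw [h5]
      split_ifs
      · positivity
      · exact le_rfl
  refine (Finset.sum_le_sum h4).trans ?_
  rw [← Finset.sum_filter]
  have h5 : (Finset.Icc 1 n).filter (fun m => L₀ ≤ m) = Finset.Icc L₀ n := by
    ext m
    simp only [Finset.mem_filter, Finset.mem_Icc]
    omega
  rw [h5, ← Finset.mul_sum]
  have h6 := geo_sum2 L₀ n
  calc 8 * g * ∑ m ∈ Finset.Icc L₀ n, (1 / 2 : ℝ) ^ m ≤ 8 * g * (2 * (1 / 2) ^ L₀) :=
        mul_le_mul_of_nonneg_left h6 (by positivity)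
    _ = 16 * (1 / 2) ^ L₀ * g := by ring

end bad

end Pool.Agent.TH820.LG
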