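import Mathlib
import Pool.Agent.TH820.LG.Q5

/-! # Bounded virtual characters of linear groups -/

set_option autoImplicit false
set_option linter.unusedSectionVars false

namespace Pool.Agent.TH820.LG

open Module Polynomial Pool.Agent.W446.AS

/-- `sc` as a homomorphism -/
def scHom (K : Type) [Field K] (t : ℕ) :
    Kˣ →* ((Fin (t + 1) → K) ≃ₗ[K] (Fin (t + 1) → K)) :=
  (dg (Fin (t + 1)) K).comp (MonoidHom.mulSingle (fun _ : Fin (t + 1) => Kˣ) 0)

lemma scHom_apply (K : Type) [Field K] (t : ℕ) (d : Kˣ) : scHom K t d = sc K t d := rfl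

lemma rk_sc (K : Type) [Field K] (t : ℕ) (d : Kˣ) : rk (sc K t d) ≤ 1 := by
  classical
  unfold rk
  have h1 : LinearMap.range (((sc K t d : (Fin (t + 1) → K) ≃ₗ[K] (Fin (t + 1) → K)) :
      (Fin (t + 1) → K) →ₗ[K] (Fin (t + 1) → K)) - 1) ≤
      LinearMap.range (LinearMap.single K (fun _ : Fin (t + 1) => K) 0) := by
    rintro _ ⟨v, rfl⟩
    refine ⟨((d : K) - 1) * v 0, ?_⟩
    change Pi.single 0 (((d : K) - 1) * v 0) = sc K t d v - v
    funext i
    rw [Pi.sub_apply, sc, dg_apply]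
    by_cases hi : i = 0
    · subst hi
      rw [Pi.single_eq_same, Pi.mulSingle_eq_same]
      ring
    · rw [Pi.single_eq_of_ne hi, Pi.mulSingle_eq_of_ne hi]
      simp
  refine (Submodule.finrank_mono h1).trans ?_
  refine (LinearMap.finrank_range_le _).trans ?_
  rw [Module.finrank_self]

lemma kill_all {K V : Type} [Field K] [Finite K] [AddCommGroup V] [Module K V]
    [FiniteDimensional K V] (x : V →ₗ[K] V) :
    aeval x (∏ f ∈ allIrr K (finrank K V), f ^ finrank K V) = 0 := by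
  rw [Finset.prod_pow]
  obtain ⟨r, hr⟩ := dvd_prod_pow K (finrank K V) (finrank K V) x.charpoly x.charpoly_monic
    x.charpoly_natDegree le_rfl
  rw [hr, map_mul, LinearMap.aeval_self_charpoly, zero_mul]

/-- **Typical elements.** -/
theorem typical (N : ℝ) (ε : ℝ) (hε : 0 < ε) : ∃ n₀ : ℕ, ∀ (K V : Type) [Field K] [Finite K]
    [AddCommGroup V] [Module K V] [FiniteDimensional K V] (Δ : Subgroup Kˣ)
    (θ : (V ≃ₗ[K] V) → ℂ), BV LinearEquiv.det Δ N θ → n₀ ≤ finrank K V →
    ∃ B : Set (GV K V Δ), (B.ncard : ℝ) ≤ ε * Nat.card (GV K V Δ) ∧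
      ∀ x : GV K V Δ, x ∉ B → ∀ y : V ≃ₗ[K] V,
        LinearEquiv.det (x : V ≃ₗ[K] V) = LinearEquiv.det y → rk y ≤ 1 → θ x = θ y := by
  classical
  obtain ⟨L₁, hL₁, hass⟩ := assemble N
  obtain ⟨R₀, hR₀⟩ := small_rank N
  obtain ⟨L₂, hL₂⟩ : ∃ L₂ : ℕ, (1 / 2 : ℝ) ^ L₂ < ε / 32 :=
    exists_pow_lt_of_lt_one (by positivity) (by norm_num)
  set c := 4 * (R₀ + 1) with hc
  set L₀ := max L₁ (max L₂ c) with hL₀
  have hL₀1 : L₁ ≤ L₀ := le_max_left _ _
  have hL₀2 : L₂ ≤ L₀ := (le_max_left _ _).trans (le_max_right _ _)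
  have hL₀3 : c ≤ L₀ := (le_max_right _ _).trans (le_max_right _ _)
  set A : ℝ := 12 * (2 : ℝ) ^ L₀.primesBelow.card * c with hA
  have hA0 : 0 ≤ A := by positivity
  obtain ⟨n₁, hn₁⟩ := exists_nat_ge ((2 * A / ε) ^ 2)
  refine ⟨max n₁ (max (2 * c) 2), ?_⟩
  intro K V _ _ _ _ _ Δ θ h hn
  have : Finite V := Module.finite_of_finite K
  have : Fintype V := Fintype.ofFinite V
  have : Fintype (GV K V Δ) := Fintype.ofFinite _
  set n := finrank K V with hnd
  have hnn₁ : n₁ ≤ n := (le_max_left _ _).trans hn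
  have hnc : 2 * c ≤ n := (le_max_left _ _).trans ((le_max_right _ _).trans hn)
  have hn2 : 2 ≤ n := (le_max_right _ _).trans ((le_max_right _ _).trans hn)
  have hc0 : 0 < c := by omega
  set s := n / c with hs
  set B1 : Set (GV K V Δ) := {x | s < smd L₀ (allIrr K n) ((x : V ≃ₗ[K] V) : V →ₗ[K] V)} with hB1
  set B2 : Set (GV K V Δ) := {x | ∃ f ∈ allIrr K n, Lg L₀ f.natDegree ∧
      2 * f.natDegree ≤ pd ((x : V ≃ₗ[K] V) : V →ₗ[K] V) f} with hB2
  set g : ℝ := ((Nat.card (GV K V Δ) : ℕ) : ℝ) with hg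
  have hg0 : 0 ≤ g := Nat.cast_nonneg _
  refine ⟨B1 ∪ B2, ?_, ?_⟩
  · have h1 := bad_one (K := K) (V := V) (Δ := Δ) L₀ s
    have h2 := bad_two (K := K) (V := V) (Δ := Δ) L₀ (by omega)
    have h3 : ((B1 ∪ B2).ncard : ℝ) ≤ B1.ncard + B2.ncard := by
      exact_mod_cast Set.ncard_union_le B1 B2
    have h4 : (B2.ncard : ℝ) ≤ ε / 2 * g := by
      refine h2.trans ?_
      have h5 : (1 / 2 : ℝ) ^ L₀ ≤ (1 / 2 : ℝ) ^ L₂ :=
        pow_le_pow_of_le_one (by norm_num) (by norm_num) hL₀2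
      have h6 : 16 * (1 / 2 : ℝ) ^ L₀ ≤ ε / 2 := by linarith
      exact mul_le_mul_of_nonneg_right h6 hg0
    have h5 : (B1.ncard : ℝ) ≤ ε / 2 * g := by
      have hs1 : (n : ℝ) / c ≤ (s : ℝ) + 1 := by
        rw [div_le_iff₀ (by exact_mod_cast hc0)]
        have := Nat.lt_div_mul_add hc0 (a := n)
        have h6 : n ≤ (s + 1) * c := by
          rw [hs]
          nlinarith
        exact_mod_cast h6
      have hsq : ((n.sqrt : ℕ) : ℝ) ≤ Real.sqrt n := Real.nat_sqrt_le_real_sqrt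
      have h6 : ((n : ℝ) / c) * B1.ncard ≤ 12 * g * ((2 : ℝ) ^ L₀.primesBelow.card * Real.sqrt n) := by
        refine le_trans (mul_le_mul_of_nonneg_right hs1 (Nat.cast_nonneg _)) (h1.trans ?_)
        push_cast
        refine mul_le_mul_of_nonneg_left ?_ (by positivity)
        exact mul_le_mul_of_nonneg_left hsq (by positivity)
      have hnpos : (0 : ℝ) < n := by
        have : 0 < n := by omega
        exact_mod_cast this
      have hcpos : (0 : ℝ) < c := by exact_mod_cast hc0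
      have h7 : Real.sqrt n * Real.sqrt n = n := Real.mul_self_sqrt hnpos.le
      have hsp : 0 < Real.sqrt n := Real.sqrt_pos.2 hnpos
      have h8 : Real.sqrt n * B1.ncard ≤ A * g := by
        have h9 : ((n : ℝ) / c) * B1.ncard * c = n * B1.ncard := by
          field_simp
        have h10 : (n : ℝ) * B1.ncard ≤ A * g * Real.sqrt n := by
          rw [← h9, hA]
          have := mul_le_mul_of_nonneg_right h6 hcpos.le
          linarith
        have h11 : Real.sqrt n * (Real.sqrt n * B1.ncard) ≤ Real.sqrt n * (A * g) := by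
          calc Real.sqrt n * (Real.sqrt n * B1.ncard) = n * B1.ncard := by rw [← mul_assoc, h7]
            _ ≤ A * g * Real.sqrt n := h10
            _ = Real.sqrt n * (A * g) := by ring
        exact le_of_mul_le_mul_left h11 hsp
      have h9 : 2 * A / ε ≤ Real.sqrt n := by
        apply Real.le_sqrt_of_sq_le
        exact hn₁.trans (by exact_mod_cast hnn₁)
      have h10 : A ≤ ε / 2 * Real.sqrt n := by
        rw [div_le_iff₀ hε] at h9
        linarith
      have h11 : Real.sqrt n * B1.ncard ≤ Real.sqrt n * (ε / 2 * g) := by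
        refine h8.trans ?_
        have := mul_le_mul_of_nonneg_right h10 hg0
        linarith
      exact le_of_mul_le_mul_left h11 hsp
    linarith
  · intro x hx y hxy hy
    rw [Set.mem_union, not_or] at hx
    obtain ⟨hx1, hx2⟩ := hx
    have hx1' : smd L₀ (allIrr K n) ((x : V ≃ₗ[K] V) : V →ₗ[K] V) ≤ s := by
      by_contra hcon
      exact hx1 (not_le.1 hcon)
    have hx2' : ∀ f ∈ allIrr K n, Lg L₀ f.natDegree →
        pd ((x : V ≃ₗ[K] V) : V →ₗ[K] V) f < 2 * f.natDegree := by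
      intro f hf hL
      by_contra hcon
      exact hx2 ⟨f, hf, hL, not_lt.1 hcon⟩
    let e : (V × PUnit.{1}) ≃ₗ[K] V := LinearEquiv.prodUnique
    have he : ∀ g : V ≃ₗ[K] V, cj e (ds g 1) = g := by
      intro g
      apply LinearEquiv.ext
      intro v
      rfl
    obtain ⟨z, hz1, hz2, hz3⟩ := hass L₀ hL₀1 K Δ (allIrr K n)
      (fun f hf => ⟨((mem_allIrr K).1 hf).1, ((mem_allIrr K).1 hf).2.1⟩) V PUnit.{1}
      (fun g => θ (cj e g)) (h.cj e) (x : V ≃ₗ[K] V) 1 n (kill_all _) hx2' (by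
        rw [← det_cj e, he]
        exact x.2)
    simp only [he] at hz3
    rw [hz3]
    -- the rank
    have hL₀pos : 0 < L₀ := lt_of_lt_of_le hc0 hL₀3
    have hrk : rk z ≤ s + n / L₀ := by
      have h1 : rk z * L₀ ≤ L₀ * s + n :=
        hz2.trans (Nat.add_le_add_right (Nat.mul_le_mul_left _ hx1') _)
      have h2 : rk z ≤ (L₀ * s + n) / L₀ := (Nat.le_div_iff_mul_le hL₀pos).2 h1
      rwa [Nat.mul_add_div hL₀pos] at h2
    have hnL : n / L₀ ≤ s := Nat.div_le_div_left hL₀3 hc0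
    have hs1 : 1 ≤ s := by
      rw [hs, Nat.le_div_iff_mul_le hc0]
      omega
    have hR : (2 * s + 1) * R₀ ≤ n := by
      have h1 : s * c ≤ n := Nat.div_mul_le_self n c
      rw [hc] at h1 hnc
      nlinarith
    exact hR₀ K V Δ θ h (2 * s) hR z y (by
      have : rk z ≤ 2 * s := by omega
      exact this) (by
      have : rk y ≤ 2 * s := by omega
      exact this) (by rw [hz1]; exact x.2) (by rw [hz1, hxy])

/-- **Main theorem.** Bounded virtual characters of the groups between the special and the general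
linear group of large dimension depend only on the determinant. -/
theorem linear_groups (N : ℝ) : ∃ n₀ : ℕ, ∀ (K V : Type) [Field K] [Finite K]
    [AddCommGroup V] [Module K V] [FiniteDimensional K V] (Δ : Subgroup Kˣ)
    (θ : (V ≃ₗ[K] V) → ℂ), BV LinearEquiv.det Δ N θ → n₀ ≤ finrank K V →
    ∀ x y : V ≃ₗ[K] V, LinearEquiv.det x ∈ Δ → LinearEquiv.det x = LinearEquiv.det y →
      θ x = θ y := by
  classical
  obtain ⟨n₀, hn₀⟩ := typical N (1 / (4 * N ^ 2 + 1)) (by positivity)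
  refine ⟨max n₀ 1, ?_⟩
  intro K V _ _ _ _ _ Δ θ h hn
  have : Finite V := Module.finite_of_finite K
  have : Fintype V := Fintype.ofFinite V
  have : Fintype (GV K V Δ) := Fintype.ofFinite _
  obtain ⟨B, hB, hgood⟩ := hn₀ K V Δ θ h ((le_max_left _ _).trans hn)
  obtain ⟨t, ht⟩ : ∃ t, finrank K V = t + 1 :=
    ⟨finrank K V - 1, by have := (le_max_right n₀ 1).trans hn; omega⟩
  let e : (Fin (t + 1) → K) ≃ₗ[K] V := LinearEquiv.ofFinrankEq _ _ (by
    rw [Module.finrank_fin_fun, ht])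
  -- the reference elements
  let H : (V ≃ₗ[K] V) →* (V ≃ₗ[K] V) :=
    (cj e).toMonoidHom.comp ((scHom K t).comp LinearEquiv.det)
  have hH : ∀ x, H x = cj e (sc K t (LinearEquiv.det x)) := fun x => rfl
  have hHd : ∀ x, LinearEquiv.det (H x) = LinearEquiv.det x := by
    intro x
    rw [hH, det_cj, det_sc]
  have hHr : ∀ x, rk (H x) ≤ 1 := by
    intro x
    rw [hH, rk_cj]
    exact rk_sc K t _
  have hV1 : Virt (fun x : GV K V Δ => θ x) := h.virt _ (GV K V Δ).subtype (fun x => x.2)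
  have hV2 : Virt (fun x : GV K V Δ => θ (H x)) :=
    h.virt _ (H.comp (GV K V Δ).subtype) (fun x => by
      change LinearEquiv.det (H x) ∈ Δ
      rw [hHd]
      exact x.2)
  have hD : Virt (fun x : GV K V Δ => θ x - θ (H x)) := virt_sub hV1 hV2
  have hzero : ∀ x : GV K V Δ, θ x - θ (H x) = 0 := by
    intro x
    refine virt_eq_zero hD ?_ x
    have hbd : ∀ x : GV K V Δ, ‖θ x - θ (H x)‖ ^ 2 ≤ if x ∈ B then 4 * N ^ 2 else 0 := by
      intro x
      split_ifs with hx
      · have h1 : ‖θ (x : V ≃ₗ[K] V)‖ ≤ N := h.bdd _ x.2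
        have h2 : ‖θ (H x)‖ ≤ N := h.bdd _ (by rw [hHd]; exact x.2)
        have h3 : ‖θ x - θ (H x)‖ ≤ 2 * N := (norm_sub_le _ _).trans (by linarith)
        have h4 := pow_le_pow_left₀ (norm_nonneg _) h3 2
        linarith
      · rw [hgood x hx (H x) (hHd x).symm (hHr x), sub_self]
        simp
    refine (Finset.sum_le_sum fun x _ => hbd x).trans_lt ?_
    rw [← Finset.sum_filter, Finset.sum_const, nsmul_eq_mul]
    have h1 : ((Finset.univ.filter fun x : GV K V Δ => x ∈ B).card : ℝ) = B.ncard := by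
      rw [← Set.ncard_coe_finset]
      congr 2
      ext x
      simp
    rw [h1]
    have hg : (0 : ℝ) < Nat.card (GV K V Δ) := by exact_mod_cast Nat.card_pos
    have h2 : (B.ncard : ℝ) * (4 * N ^ 2 + 1) ≤ Nat.card (GV K V Δ) := by
      rw [one_div, inv_mul_eq_div, le_div_iff₀ (by positivity)] at hB
      exact hB
    rcases Nat.eq_zero_or_pos B.ncard with h0 | hpos
    · rw [h0]
      simpa using hg
    · have : (0 : ℝ) < B.ncard := by exact_mod_cast hpos
      nlinarith
  intro x y hx hxy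
  have hy : LinearEquiv.det y ∈ Δ := hxy ▸ hx
  have h1 := sub_eq_zero.1 (hzero ⟨x, hx⟩)
  have h2 := sub_eq_zero.1 (hzero ⟨y, hy⟩)
  have h3 : H x = H y := by rw [hH, hH, hxy]
  change θ x = θ (H x) at h1
  change θ y = θ (H y) at h2
  rw [h1, h2, h3]

end Pool.Agent.TH820.LG
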