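import Mathlib
import Pool.Agent.TH820.LG.R

/-! # Blocks, with an arbitrary second factor -/

set_option autoImplicit false
set_option linter.unusedSectionVars false

namespace Pool.Agent.TH820.LG

open Polynomial Module
open Equiv (Perm)

lemma D_eq {K L B C : Type} [Field K] [AddCommGroup L] [Module K L] [Group B] [CommGroup C]
    {D : (L ≃ₗ[K] L) × B →* C} (hD : ∀ x : L ≃ₗ[K] L, LinearEquiv.det x = 1 → D (x, 1) = 1)
    {x y : L ≃ₗ[K] L} (h : LinearEquiv.det x = LinearEquiv.det y) (b : B) :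
    D (x, b) = D (y, b) := by
  have h1 : ((x, b) : (L ≃ₗ[K] L) × B) = (x * y⁻¹, 1) * (y, b) := by
    ext <;> simp
  rw [h1, map_mul, hD _ (by rw [map_mul, map_inv, h, mul_inv_cancel]), one_mul]

lemma frob_G {K L B C : Type} [Field K] [Finite K] [Field L] [Algebra K L]
    [FiniteDimensional K L] [Group B] [Finite B] [CommGroup C] {D : (L ≃ₗ[K] L) × B →* C}
    (hD1 : ∀ x : L ≃ₗ[K] L, LinearEquiv.det x = 1 → D (x, 1) = 1) {Δ : Subgroup C} {N : ℝ}
    {θ : (L ≃ₗ[K] L) × B → ℂ} (h : BV D Δ N θ) {E : ℕ}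
    (hE : N ^ 2 ≤ E) (hE1 : 1 ≤ E) (a : Lˣ) (b : B)
    (hab : D (mulL K L a, b) ∈ Δ) (j : ℕ) :
    θ (mulL K L (a ^ (1 + (Nat.card K ^ E.factorial - 1) ^ 2 * j)), b) =
      θ (mulL K L a, b) := by
  classical
  have : Fintype K := Fintype.ofFinite K
  have : Finite L := Module.finite_of_finite K
  set q := Nat.card K with hq
  have hq2 : 2 ≤ q := Finite.one_lt_card
  let F := FiniteField.frobeniusAlgEquivOfAlgebraic K L
  have hF : ∀ x : L, F x = x ^ q := by
    intro x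
    rw [hq, Nat.card_eq_fintype_card]
    rfl
  let τ : Lˣ ≃* Lˣ := Units.mapEquiv (F : L ≃* L)
  have hτ : ∀ x : Lˣ, τ x = x ^ q := by
    intro x
    apply Units.ext
    rw [Units.val_pow_eq_pow_val, ← hF]
    rfl
  have hτd : ∀ (d : ℕ) (x : Lˣ), (τ ^ d : MulAut Lˣ) x = x ^ (q ^ d) := by
    intro d x
    induction d with
    | zero => simp
    | succ n ih =>
      have h1 : (τ ^ (n + 1) : MulAut Lˣ) x = τ ((τ ^ n : MulAut Lˣ) x) := by
        rw [pow_succ', MulAut.mul_apply]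
      rw [h1, ih, hτ, ← pow_mul, pow_succ]
  let _ : CommGroup (Subgroup.zpowers b) :=
    { (inferInstance : Group (Subgroup.zpowers b)) with
      mul_comm := fun x y => by
        obtain ⟨i, hi⟩ := x.2
        obtain ⟨k, hk⟩ := y.2
        apply Subtype.ext
        simp only [Subgroup.coe_mul]
        rw [← hi, ← hk]
        change b ^ i * b ^ k = b ^ k * b ^ i
        rw [← zpow_add, ← zpow_add, add_comm] }
  let φ : Lˣ →* (L ≃ₗ[K] L) × B := (MonoidHom.inl (L ≃ₗ[K] L) B).comp (mulL K L)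
  have hφ : ∀ x, φ x = (mulL K L x, 1) := fun x => rfl
  let ζ : Subgroup.zpowers b →* (L ≃ₗ[K] L) × B :=
    (MonoidHom.inr (L ≃ₗ[K] L) B).comp (Subgroup.zpowers b).subtype
  have hζ : ∀ z : Subgroup.zpowers b, ζ z = (1, (z : B)) := fun x => rfl
  have hφζ : ∀ x (z : Subgroup.zpowers b), φ x * ζ z = (mulL K L x, (z : B)) := by
    intro x z
    rw [hφ, hζ, Prod.mk_mul_mk, mul_one, one_mul]
  let g : (L ≃ₗ[K] L) × B := (F.toLinearEquiv, 1)
  obtain ⟨l, hl⟩ := det_mulL_surj K L (LinearEquiv.det F.toLinearEquiv)⁻¹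
  have hw : a * a ^ ((q ^ E.factorial - 1) ^ 2 * j) =
      a ^ (1 + (q ^ E.factorial - 1) ^ 2 * j) := by
    rw [pow_add, pow_one]
  rw [← hw]
  have hmain := h.frob hE φ ζ (fun x z => by
      rw [hφ, hζ, Prod.mk_mul_mk, Prod.mk_mul_mk, mul_one, one_mul, one_mul, mul_one]) τ g
    (by
      intro x
      rw [hφ, hφ]
      refine Prod.ext ?_ ?_
      · apply LinearEquiv.ext
        intro v
        change F ((x : L) * F.symm v) = F x * v
        rw [map_mul, AlgEquiv.apply_symm_apply]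
      · change (1 : B) * 1 * 1⁻¹ = 1
        simp)
    (fun z => by
      rw [hζ]
      change ((F.toLinearEquiv : L ≃ₗ[K] L), (1 : B)) * (1, (z : B)) = (1, (z : B)) * (_, 1)
      rw [Prod.mk_mul_mk, Prod.mk_mul_mk, mul_one, one_mul, one_mul, mul_one]) l
    (by
      rw [hφ]
      change D (((F.toLinearEquiv : L ≃ₗ[K] L), (1 : B)) * (mulL K L l, 1)) ∈ Δ
      rw [Prod.mk_mul_mk, one_mul, hD1 _ (by rw [map_mul, hl, mul_inv_cancel])]
      exact Δ.one_mem) (a ^ ((q ^ E.factorial - 1) ^ 2 * j)) ?_ hE1 a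
    ⟨b, Subgroup.mem_zpowers b⟩ (by
      rw [hφζ]
      exact hab)
  · rw [hφζ, hφζ] at hmain
    exact hmain
  · intro d hd1 hd2
    have hdD : d ∣ E.factorial := Nat.dvd_factorial hd1 hd2
    obtain ⟨R, hR⟩ : q ^ d - 1 ∣ q ^ E.factorial - 1 := by
      obtain ⟨r, hr⟩ := hdD
      rw [hr, pow_mul]
      exact Nat.sub_one_dvd_pow_sub_one _ _
    obtain ⟨R', hR'⟩ : q - 1 ∣ q ^ E.factorial - 1 := Nat.sub_one_dvd_pow_sub_one _ _
    refine ⟨a ^ (R * ((q - 1) * R') * j), ?_, ?_⟩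
    · rw [hτd]
      have hqd : 1 ≤ q ^ d := Nat.one_le_pow _ _ (by omega)
      have h1 : (a ^ (R * ((q - 1) * R') * j)) ^ (q ^ d) =
          (a ^ (R * ((q - 1) * R') * j)) * (a ^ (R * ((q - 1) * R') * j)) ^ (q ^ d - 1) := by
        rw [← pow_succ']
        congr 1
        omega
      rw [h1, inv_mul_cancel_left, ← pow_mul]
      congr 1
      rw [pow_two]
      nth_rewrite 1 [hR]
      rw [hR']
      ring
    · rw [hφ, hD1]
      · exact Δ.one_mem
      · rw [det_mulL, map_pow]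
        have h3 : (Units.map (Algebra.norm K : L →* K) a) ^ (q - 1) = 1 := by
          have := pow_card_eq_one' (x := Units.map (Algebra.norm K : L →* K) a)
          rwa [Nat.card_units, ← hq] at this
        have h4 : R * ((q - 1) * R') * j = (q - 1) * (R * R' * j) := by ring
        rw [h4, pow_mul, h3, one_pow]

end Pool.Agent.TH820.LG
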