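import Mathlib
import Pool.Agent.TH820.LG.T1

/-! # Kummer blocks, with an arbitrary second factor -/

set_option autoImplicit false
set_option linter.unusedSectionVars false

namespace Pool.Agent.TH820.LG

open Polynomial Module
open Equiv (Perm)

theorem kum_G (N : ℝ) : ∃ n₀ : ℕ, ∀ (l : ℕ) [Fact l.Prime], n₀ ≤ l → l ≠ 2 →
    ∀ (K M L B C : Type) [Field K] [Finite K] [Field M] [Field L] [Algebra K M] [Algebra M L]
    [Algebra K L] [IsScalarTower K M L] [FiniteDimensional K L] [FiniteDimensional M L]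
    [FiniteDimensional K M] [Group B] [Finite B] [CommGroup C], finrank M L = l →
    ∀ (D : (L ≃ₗ[K] L) × B →* C) (Δ : Subgroup C) (θ : (L ≃ₗ[K] L) × B → ℂ),
    (∀ x : L ≃ₗ[K] L, LinearEquiv.det x = 1 → D (x, 1) = 1) → BV D Δ N θ →
    ∀ (y : Lˣ) (a : Mˣ), (y : L) ^ l = algebraMap M L a →
    ((∀ b : M, b ^ l ≠ a) ∨ (∃ b : Mˣ, algebraMap M L b = y)) →
    ∀ b : B, D (mulL K L y, b) ∈ Δ →
    ∃ g : L ≃ₗ[K] L, LinearEquiv.det g = LinearEquiv.det (mulL K L y) ∧
      finrank K (LinearMap.range ((g : L →ₗ[K] L) - 1)) ≤ finrank K M ∧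
      θ (mulL K L y, b) = θ (g, b) := by
  classical
  obtain ⟨n₁, hn₁⟩ := wreath N
  obtain ⟨E, hE⟩ := exists_nat_ge (N ^ 2)
  refine ⟨max n₁ (2 * E + 5), ?_⟩
  intro l hl hnl hl2 K M L B C _ _ _ _ _ _ _ _ _ _ _ _ _ _ hfr D Δ θ hD1 h y a hya hcase b hb
  have hlp : l.Prime := hl.out
  have : NeZero l := ⟨hlp.ne_zero⟩
  have hodd : Odd l := hlp.odd_of_ne_two hl2
  have hι1 : n₁ ≤ Fintype.card (ZMod l) := by rw [ZMod.card]; exact (le_max_left _ _).trans hnl
  have hι2 : 2 * E + 4 < Fintype.card (ZMod l) := by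
    rw [ZMod.card]
    exact lt_of_lt_of_le (by omega) ((le_max_right _ _).trans hnl)
  have : Finite M := Module.finite_of_finite K
  have : Finite L := Module.finite_of_finite K
  let e : (ZMod l → M) ≃ₗ[M] L := LinearEquiv.ofFinrankEq _ _ (by
    rw [Module.finrank_fintype_fun_eq_card, ZMod.card, hfr])
  let _ : CommGroup (Subgroup.zpowers b) :=
    { (inferInstance : Group (Subgroup.zpowers b)) with
      mul_comm := fun x y => by
        obtain ⟨i, hi⟩ := x.2
        obtain ⟨k, hk⟩ := y.2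
        apply Subtype.ext
        simp only [Subgroup.coe_mul]
        rw [← hi, ← hk]
        change b ^ i * b ^ k = b ^ k * b ^ i
        rw [← zpow_add, ← zpow_add, add_comm] }
  let R : ((ZMod l → M) ≃ₗ[M] (ZMod l → M)) →* (L ≃ₗ[K] L) × B :=
    (MonoidHom.inl (L ≃ₗ[K] L) B).comp ((rs K).comp (cj e).toMonoidHom)
  have hR : ∀ f, R f = (rs K (cj e f), 1) := fun f => rfl
  let ζ : Subgroup.zpowers b →* (L ≃ₗ[K] L) × B :=
    (MonoidHom.inr (L ≃ₗ[K] L) B).comp (Subgroup.zpowers b).subtype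
  have hζ : ∀ z : Subgroup.zpowers b, ζ z = (1, (z : B)) := fun x => rfl
  have hRζ : ∀ f z, R f * ζ z = ζ z * R f := by
    intro f z
    rw [hR, hζ, Prod.mk_mul_mk, Prod.mk_mul_mk, mul_one, one_mul, one_mul, mul_one]
  let φ : (ZMod l → Mˣ) →* (L ≃ₗ[K] L) × B := R.comp (dg (ZMod l) M)
  let P : Perm (ZMod l) →* (L ≃ₗ[K] L) × B := R.comp (pms (ZMod l) M)
  have hPD : ∀ σ, D (P σ) ∈ Δ := by
    intro σ
    change D (R (pms (ZMod l) M σ)) ∈ Δ
    rw [hR, hD1 _ (by rw [det_rs, det_cj, det_pms hodd, map_one])]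
    exact Δ.one_mem
  have hPφ : ∀ σ t, P σ * φ t * (P σ)⁻¹ = φ (t ∘ (σ⁻¹ : Perm (ZMod l))) := by
    intro σ t
    change R (pms (ZMod l) M σ) * R (dg (ZMod l) M t) * (R (pms (ZMod l) M σ))⁻¹ =
      R (dg (ZMod l) M (t ∘ (σ⁻¹ : Perm (ZMod l))))
    rw [← map_inv, ← map_mul, ← map_mul, pms_dg]
  set t0 : ZMod l → Mˣ := Pi.mulSingle 0 a with ht0
  have ht0p : ∏ i, t0 i = a := by
    rw [ht0]
    simp
  set g : L ≃ₗ[K] L := rs K (cj e (dg (ZMod l) M t0)) with hg
  have hrank : finrank K (LinearMap.range ((g : L →ₗ[K] L) - 1)) ≤ finrank K M := by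
    -- the range is the image of one coordinate
    let f : M →ₗ[K] L := (e.toLinearMap.restrictScalars K) ∘ₗ
      ((LinearMap.single M (fun _ : ZMod l => M) 0).restrictScalars K)
    have h1 : LinearMap.range ((g : L →ₗ[K] L) - 1) ≤ LinearMap.range f := by
      rintro _ ⟨x, rfl⟩
      refine ⟨((a : M) - 1) * (e.symm x) 0, ?_⟩
      change e (Pi.single 0 (((a : M) - 1) * (e.symm x) 0)) = g x - x
      rw [hg, rs_apply, cj_apply]
      conv_rhs => rw [← e.apply_symm_apply x, e.symm_apply_apply, ← map_sub]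
      congr 1
      funext i
      rw [Pi.sub_apply, dg_apply, ht0]
      by_cases hi : i = 0
      · subst hi
        rw [Pi.single_eq_same, Pi.mulSingle_eq_same]
        ring
      · rw [Pi.single_eq_of_ne hi, Pi.mulSingle_eq_of_ne hi]
        simp
    exact (Submodule.finrank_mono h1).trans (LinearMap.finrank_range_le f)
  have hφζ : ∀ t, φ t * ζ ⟨b, Subgroup.mem_zpowers b⟩ = (rs K (cj e (dg (ZMod l) M t)), b) := by
    intro t
    change R (dg (ZMod l) M t) * ζ ⟨b, Subgroup.mem_zpowers b⟩ = _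
    rw [hR, hζ, Prod.mk_mul_mk, mul_one, one_mul]
  rcases hcase with h1 | ⟨b', hb'⟩
  · -- the irreducible case
    have hirr := X_pow_sub_C_irreducible_of_prime hlp h1
    set c : Perm (ZMod l) := Equiv.addRight 1 with hc
    have hsc : Equiv.Perm.sign c = 1 := by
      have h2 : c ^ l = 1 := by
        ext i
        have h3 : ∀ k : ℕ, (c ^ k) i = i + k := by
          intro k
          induction k with
          | zero => simp
          | succ n ih =>
            rw [pow_succ', Equiv.Perm.mul_apply, ih]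
            change i + n + 1 = _
            push_cast
            ring
        rw [h3]
        simp
      have h3 : (Equiv.Perm.sign c) ^ l = 1 := by rw [← map_pow, h2, map_one]
      obtain ⟨k, hk⟩ := hodd
      have h4 : (Equiv.Perm.sign c) ^ l = Equiv.Perm.sign c := by
        have h5 : (Equiv.Perm.sign c) ^ l = (Equiv.Perm.sign c) ^ (2 * k) * Equiv.Perm.sign c := by
          rw [← pow_succ]
          congr 1
        rw [h5, pow_mul, Int.units_sq, one_pow, one_mul]
      rw [← h4, h3]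
    have hpc : pms (ZMod l) M c = pm (ZMod l) M c := by
      change pm (ZMod l) M c * dg (ZMod l) M (fun _ => sg M (Equiv.Perm.sign c)) = _
      have h2 : (fun _ : ZMod l => sg M (Equiv.Perm.sign c)) = 1 := by
        funext i
        rw [hsc, map_one]
        rfl
      rw [h2, map_one, mul_one]
    have hconj : ∀ t : ZMod l → Mˣ, ∏ i, t i = a → ∃ G : L ≃ₗ[K] L,
        G * mulL K L y * G⁻¹ = rs K (cj e (dg (ZMod l) M t * pm (ZMod l) M c)) := by
      intro t ht
      set T : (ZMod l → M) →ₗ[M] (ZMod l → M) :=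
        ((dg (ZMod l) M t * pm (ZMod l) M c : (ZMod l → M) ≃ₗ[M] (ZMod l → M)) :
          (ZMod l → M) →ₗ[M] (ZMod l → M)) with hT
      have hTp : aeval T (X ^ l - Polynomial.C (a : M)) = 0 := by
        rw [map_sub, map_pow, aeval_X, aeval_C]
        refine LinearMap.ext fun v => funext fun i => ?_
        rw [LinearMap.sub_apply, Pi.sub_apply, hT, hc, mono_pow]
        rw [prod_cyc (fun j => (t j : M)) i]
        have h2 : ∏ j, (t j : M) = (a : M) := by
          rw [← ht, Units.coe_prod]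
        rw [h2]
        simp [Algebra.algebraMap_eq_smul_one]
      have hyp : aeval (Algebra.lmul M L (y : L)) (X ^ l - Polynomial.C (a : M)) = 0 := by
        rw [map_sub, map_pow, aeval_X, aeval_C, ← map_pow, hya]
        refine LinearMap.ext fun v => ?_
        simp [Algebra.algebraMap_eq_smul_one]
      obtain ⟨g0, hg0⟩ := cyc_iso hirr (Algebra.lmul M L (y : L)) T hyp hTp
        (by rw [natDegree_X_pow_sub_C, hfr])
        (by rw [natDegree_X_pow_sub_C, Module.finrank_fintype_fun_eq_card, ZMod.card])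
      refine ⟨rs K (g0.trans e), ?_⟩
      rw [mul_inv_eq_iff_eq_mul]
      apply LinearEquiv.ext
      intro x
      change e (g0 ((y : L) * x)) = e (T (e.symm (e (g0 x))))
      rw [e.symm_apply_apply, ← hg0]
      rfl
    have hdet : LinearEquiv.det (mulL K L y) = LinearEquiv.det g := by
      obtain ⟨G, hG⟩ := hconj t0 ht0p
      have h2 := congrArg LinearEquiv.det hG
      rw [map_mul, map_mul, map_inv, mul_comm (LinearEquiv.det G), mul_inv_cancel_right] at h2
      rw [h2, hg, det_rs, det_cj, det_rs, det_cj, map_mul, det_pm, hsc, map_one, mul_one]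
    have hD0 : D (φ t0 * ζ ⟨b, Subgroup.mem_zpowers b⟩) ∈ Δ := by
      rw [hφζ, ← hg, D_eq hD1 hdet.symm]
      exact hb
    have hfibre : ∀ t : ZMod l → Mˣ, ∏ i, t i = a →
        θ (φ t * ζ ⟨b, Subgroup.mem_zpowers b⟩ * P c) = θ (mulL K L y, b) := by
      intro t ht
      obtain ⟨G, hG⟩ := hconj t ht
      obtain ⟨u, hu⟩ := det_mulL_surj K L (LinearEquiv.det G)⁻¹
      have h2 : φ t * ζ ⟨b, Subgroup.mem_zpowers b⟩ * P c =
          (G, 1) * (mulL K L y, b) * (G, 1)⁻¹ := by
        have h3 : φ t * ζ ⟨b, Subgroup.mem_zpowers b⟩ * P c =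
            (rs K (cj e (dg (ZMod l) M t * pm (ZMod l) M c)), b) := by
          rw [hφζ]
          change (rs K (cj e (dg (ZMod l) M t)), b) * (rs K (cj e (pms (ZMod l) M c)), (1 : B)) = _
          rw [Prod.mk_mul_mk, mul_one, hpc, ← map_mul, ← map_mul]
        rw [h3, ← hG, Prod.inv_mk, Prod.mk_mul_mk, Prod.mk_mul_mk, one_mul, inv_one, mul_one]
      rw [h2]
      refine h.conj' (c := (mulL K L u, 1)) hb ?_ ?_
      · rw [Prod.mk_mul_mk, Prod.mk_mul_mk, ← map_mul, ← map_mul, mul_comm u y, one_mul, mul_one]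
      · rw [Prod.mk_mul_mk, one_mul, hD1 _ (by rw [map_mul, hu, mul_inv_cancel])]
        exact Δ.one_mem
    have hw := hn₁ (ZMod l) hι1 ((L ≃ₗ[K] L) × B) C Mˣ (Subgroup.zpowers b)
      D Δ θ h φ ζ P (fun _ _ => hRζ _ _) (fun _ _ => hRζ _ _) hPφ hPD c hsc t0
      ⟨b, Subgroup.mem_zpowers b⟩ hD0 (fun t' ht' => by
        rw [ht0p] at ht'
        rw [hfibre t' ht', hfibre t0 ht0p])
    refine ⟨g, hdet.symm, hrank, ?_⟩
    rw [hfibre t0 ht0p] at hw
    rw [hw, hφζ]
  · -- the scalar case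
    have hba : b' ^ l = a := by
      apply Units.ext
      apply (algebraMap M L).injective
      rw [← hya, ← hb', Units.val_pow_eq_pow_val, map_pow]
    have hy : mulL K L y = rs K (cj e (dg (ZMod l) M (fun _ => b'))) := by
      apply LinearEquiv.ext
      intro x
      rw [rs_apply, cj_apply, mulL_apply, ← hb']
      have h2 : dg (ZMod l) M (fun _ => b') (e.symm x) = (b' : M) • (e.symm x) := by
        funext i
        rfl
      rw [h2, map_smul, e.apply_symm_apply, Algebra.smul_def]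
    have hconst : ∏ _i : ZMod l, b' = a := by
      rw [Finset.prod_const, Finset.card_univ, ZMod.card, hba]
    have hdet : LinearEquiv.det (mulL K L y) = LinearEquiv.det g := by
      rw [hy, hg, det_rs, det_cj, det_rs, det_cj, det_dg, det_dg, hconst, ht0p]
    refine ⟨g, hdet.symm, hrank, ?_⟩
    have hD0 : D (φ t0 * ζ ⟨b, Subgroup.mem_zpowers b⟩) ∈ Δ := by
      rw [hφζ, ← hg, D_eq hD1 hdet.symm]
      exact hb
    have h3 := h.sym hE hι2 φ ζ (fun _ _ => hRζ _ _) (fun i j => ⟨P (Equiv.swap i j), fun t => by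
      rw [hPφ, Equiv.swap_inv], fun _ => hRζ _ _, hPD _⟩) t0 (fun _ => b') (by
        rw [ht0p, hconst]) ⟨b, Subgroup.mem_zpowers b⟩ hD0
    rw [hφζ, hφζ, ← hg, ← hy] at h3
    exact h3

end Pool.Agent.TH820.LG
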