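import Mathlib
import Pool.Agent.TH820.LG.T3

/-! # Assembly, with an arbitrary second factor -/

set_option autoImplicit false
set_option linter.unusedSectionVars false

namespace Pool.Agent.TH820.LG

open Module Polynomial

lemma BV.comap {Γ Γ' C : Type} [Group Γ] [Group Γ'] [CommGroup C] {D : Γ →* C} {Δ : Subgroup C}
    {N : ℝ} {θ : Γ → ℂ} (h : BV D Δ N θ) (f : Γ' →* Γ) :
    BV (D.comp f) Δ N (fun g => θ (f g)) :=
  ⟨fun B _ _ φ hφ => h.virt B (f.comp φ) hφ, fun g hg => h.bdd _ hg⟩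

/-- the replacement of a block -/
lemma block_G {K W B C : Type} [Field K] [Finite K] [AddCommGroup W] [Module K W]
    [FiniteDimensional K W] [Group B] [Finite B] [CommGroup C] {l : ℕ}
    {N : ℝ} {Δ : Subgroup C}
    (hbig : ∀ (L : Type) [Field L] [Algebra K L] [FiniteDimensional K L], l ∣ finrank K L →
      ∀ (D : (L ≃ₗ[K] L) × B →* C) (θ : (L ≃ₗ[K] L) × B → ℂ),
      (∀ x : L ≃ₗ[K] L, LinearEquiv.det x = 1 → D (x, 1) = 1) → BV D Δ N θ →
      ∀ (a : Lˣ) (b : B), D (mulL K L a, b) ∈ Δ →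
      ∃ g : L ≃ₗ[K] L, LinearEquiv.det g = LinearEquiv.det (mulL K L a) ∧
        finrank K (LinearMap.range ((g : L →ₗ[K] L) - 1)) * l ≤ finrank K L ∧
        θ (mulL K L a, b) = θ (g, b))
    {D : (W ≃ₗ[K] W) × B →* C} (hD1 : ∀ x : W ≃ₗ[K] W, LinearEquiv.det x = 1 → D (x, 1) = 1)
    {θ : (W ≃ₗ[K] W) × B → ℂ} (h : BV D Δ N θ) (y : W ≃ₗ[K] W)
    {f : K[X]} (hf : Irreducible f) (hy : aeval (y : W →ₗ[K] W) f = 0)
    (hd : finrank K W = f.natDegree) (hl : l ∣ f.natDegree) (b : B)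
    (hyb : D (y, b) ∈ Δ) :
    ∃ g : W ≃ₗ[K] W, LinearEquiv.det g = LinearEquiv.det y ∧ rk g * l ≤ finrank K W ∧
      θ (y, b) = θ (g, b) := by
  classical
  have : Fact (Irreducible f) := ⟨hf⟩
  let pb := AdjoinRoot.powerBasis hf.ne_zero
  have hfin : FiniteDimensional K (AdjoinRoot f) := pb.finite
  have hfr : finrank K (AdjoinRoot f) = f.natDegree := by
    rw [pb.finrank, AdjoinRoot.powerBasis_dim]
  have hroot : aeval (Algebra.lmul K (AdjoinRoot f) (AdjoinRoot.root f)) f = 0 := by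
    have h1 : aeval (Algebra.lmul K (AdjoinRoot f) (AdjoinRoot.root f)) f =
        Algebra.lmul K (AdjoinRoot f) (aeval (AdjoinRoot.root f) f) :=
      aeval_algHom_apply (Algebra.lmul K (AdjoinRoot f)) (AdjoinRoot.root f) f
    rw [h1]
    have h2 : aeval (AdjoinRoot.root f) f = 0 := by
      rw [AdjoinRoot.aeval_eq, AdjoinRoot.mk_self]
    rw [h2, map_zero]
  obtain ⟨c, hc⟩ := cyc_iso hf (y : W →ₗ[K] W) (Algebra.lmul K (AdjoinRoot f) (AdjoinRoot.root f))
    hy hroot hd hfr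
  have hr0 : AdjoinRoot.root f ≠ 0 := by
    intro h0
    have hpos : 0 < finrank K W := by rw [hd]; exact hf.natDegree_pos
    have : Nontrivial W := Module.nontrivial_of_finrank_pos (R := K) hpos
    obtain ⟨w, hw⟩ := exists_ne (0 : W)
    have h1 := hc w
    rw [h0, map_zero] at h1
    change c (y w) = 0 at h1
    rw [LinearEquiv.map_eq_zero_iff, LinearEquiv.map_eq_zero_iff] at h1
    exact hw h1
  let a : (AdjoinRoot f)ˣ := Units.mk0 _ hr0
  have hy2 : y = cj c.symm (mulL K (AdjoinRoot f) a) := by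
    apply LinearEquiv.ext
    intro w
    change y w = c.symm ((a : AdjoinRoot f) * c w)
    rw [LinearEquiv.eq_symm_apply]
    exact hc w
  let e : (AdjoinRoot f ≃ₗ[K] AdjoinRoot f) × B →* (W ≃ₗ[K] W) × B :=
    MonoidHom.prodMap (cj c.symm).toMonoidHom (MonoidHom.id B)
  have he : ∀ (g : AdjoinRoot f ≃ₗ[K] AdjoinRoot f) (b : B), e (g, b) = (cj c.symm g, b) :=
    fun g b => rfl
  obtain ⟨g, hg1, hg2, hg3⟩ := hbig (AdjoinRoot f) (by rw [hfr]; exact hl)
    (D.comp e) (fun g => θ (e g)) (fun x hx => by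
      rw [MonoidHom.comp_apply, he]
      exact hD1 _ (by rw [det_cj, hx])) (h.comap e) a b (by
      rw [MonoidHom.comp_apply, he, ← hy2]
      exact hyb)
  refine ⟨cj c.symm g, ?_, ?_, ?_⟩
  · rw [det_cj, hg1, hy2, det_cj]
  · rw [rk_cj, hd, ← hfr]
    exact hg2
  · simp only [he] at hg3
    rw [← hy2] at hg3
    exact hg3

theorem assemble_G (N : ℝ) : ∃ L₁ : ℕ, 3 ≤ L₁ ∧ ∀ L₀ : ℕ, L₁ ≤ L₀ → ∀ (K : Type) [Field K] [Finite K]
    (C : Type) [CommGroup C] (Δ : Subgroup C)
    (F : Finset K[X]), (∀ f ∈ F, f.Monic ∧ Irreducible f) →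
    ∀ (V B : Type) [AddCommGroup V] [Module K V] [FiniteDimensional K V] [Group B] [Finite B]
    (D : (V ≃ₗ[K] V) × B →* C) (θ : (V ≃ₗ[K] V) × B → ℂ),
    (∀ x : V ≃ₗ[K] V, LinearEquiv.det x = 1 → D (x, 1) = 1) → BV D Δ N θ →
    ∀ (x : V ≃ₗ[K] V) (b : B) (k : ℕ),
    aeval (x : V →ₗ[K] V) (∏ f ∈ F, f ^ k) = 0 →
    (∀ f ∈ F, Lg L₀ f.natDegree → pd (x : V →ₗ[K] V) f < 2 * f.natDegree) →
    D (x, b) ∈ Δ →
    ∃ g : V ≃ₗ[K] V, LinearEquiv.det g = LinearEquiv.det x ∧
      rk g * L₀ ≤ L₀ * smd L₀ F (x : V →ₗ[K] V) + finrank K V ∧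
      θ (x, b) = θ (g, b) := by
  classical
  obtain ⟨L₁, hL₁, hbig⟩ := big_G N
  refine ⟨L₁, hL₁, ?_⟩
  intro L₀ hL₀ K _ _ C _ Δ F
  induction F using Finset.induction_on with
  | empty =>
    intro _ V B _ _ _ _ _ D θ hD1 h x b k hk _ _
    rw [Finset.prod_empty, map_one] at hk
    have hsub : Subsingleton V := by
      refine ⟨fun a b => ?_⟩
      have h1 : (1 : V →ₗ[K] V) a = (1 : V →ₗ[K] V) b := by rw [hk]; rfl
      exact h1
    have hfr : finrank K V = 0 := Module.finrank_zero_of_subsingleton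
    have h1 := rk_le x
    refine ⟨x, rfl, ?_, rfl⟩
    have h2 : rk x = 0 := by omega
    rw [h2, zero_mul]
    exact Nat.zero_le _
  | insert f F hfF ih =>
    intro hF V B _ _ _ _ _ D θ hD1 h x b k hk hns hxb
    have hfm : f.Monic := (hF f (Finset.mem_insert_self _ _)).1
    have hfi : Irreducible f := (hF f (Finset.mem_insert_self _ _)).2
    have hF' : ∀ g ∈ F, g.Monic ∧ Irreducible g := fun g hg => hF g (Finset.mem_insert_of_mem hg)
    rw [Finset.prod_insert hfF] at hk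
    have hcop : IsCoprime (f ^ k) (∏ g ∈ F, g ^ k) := by
      refine IsCoprime.prod_right fun g hg => ?_
      refine IsCoprime.pow ?_
      rw [hfi.coprime_iff_not_dvd]
      intro hd
      have h1 : Associated f g := hfi.associated_of_dvd (hF' g hg).2 hd
      have h2 := eq_of_monic_of_associated hfm (hF' g hg).1 h1
      exact hfF (h2 ▸ hg)
    obtain ⟨W, V', e, y, x', hx, hy, hx', hW, hinc⟩ := split_coprime x hcop hk
    have hfr : finrank K W + finrank K V' = finrank K V := by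
      rw [← Module.finrank_prod]
      exact e.finrank_eq
    have hWpd : finrank K W ≤ pd (x : V →ₗ[K] V) f := by
      apply Submodule.finrank_mono
      rw [hW]
      intro v hv
      exact ⟨k, hv⟩
    have hpd : ∀ g, pd (x' : V' →ₗ[K] V') g ≤ pd (x : V →ₗ[K] V) g := fun g =>
      pd_mono V'.subtype V'.injective_subtype _ _ (fun v => hinc v) g
    -- the inductive hypothesis
    have : Finite W := Module.finite_of_finite K
    have : Finite V' := Module.finite_of_finite K
    let e0 : (W ≃ₗ[K] W) × (V' ≃ₗ[K] V') →* (V ≃ₗ[K] V) :=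
      (cj e).toMonoidHom.comp (MonoidHom.noncommCoprod (dsl K W V') (dsr K W V')
        (fun a b => dsl_dsr_comm a b))
    have he0 : ∀ c a, e0 (c, a) = cj e (ds c a) := fun c a => rfl
    let e1 : (V' ≃ₗ[K] V') × ((W ≃ₗ[K] W) × B) →* (V ≃ₗ[K] V) × B :=
      (MonoidHom.prodMap e0 (MonoidHom.id B)).comp
        { toFun := fun p => ((p.2.1, p.1), p.2.2)
          map_one' := rfl
          map_mul' := fun p q => rfl }
    have he1 : ∀ (a : V' ≃ₗ[K] V') (c : W ≃ₗ[K] W) (b : B),
        e1 (a, (c, b)) = (cj e (ds c a), b) := fun a c b => rfl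
    have hx2 : (x, b) = e1 (x', (y, b)) := by
      rw [he1, ← hx]
    obtain ⟨g', hg'1, hg'2, hg'3⟩ := ih hF' V' ((W ≃ₗ[K] W) × B) (D.comp e1)
      (fun g => θ (e1 g)) (fun z hz => by
        change D (e1 (z, ((1 : W ≃ₗ[K] W), (1 : B)))) = 1
        rw [he1]
        exact hD1 _ (by rw [det_cj, det_ds, hz, map_one, mul_one])) (h.comap e1) x' (y, b) k
      hx' (fun g hg hL => (hpd g).trans_lt (hns g (Finset.mem_insert_of_mem hg) hL)) (by
        rw [MonoidHom.comp_apply, ← hx2]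
        exact hxb)
    simp only [← hx2, he1] at hg'3
    have hsmd : smd L₀ F (x' : V' →ₗ[K] V') ≤ smd L₀ F (x : V →ₗ[K] V) := by
      refine Finset.sum_le_sum fun g _ => ?_
      split_ifs
      · exact le_rfl
      · exact hpd g
    have hsmi : smd L₀ (insert f F) (x : V →ₗ[K] V) =
        (if Lg L₀ f.natDegree then 0 else pd (x : V →ₗ[K] V) f) + smd L₀ F (x : V →ₗ[K] V) := by
      unfold smd
      rw [Finset.sum_insert hfF]
    have hdetx : LinearEquiv.det x = LinearEquiv.det y * LinearEquiv.det x' := by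
      conv_lhs => rw [hx]
      rw [det_cj, det_ds]
    have hDg : D (cj e (ds y g'), b) ∈ Δ := by
      rw [D_eq hD1 (y := x) (by rw [det_cj, det_ds, hg'1, ← hdetx])]
      exact hxb
    by_cases hL : Lg L₀ f.natDegree
    · rw [if_pos hL, zero_add] at hsmi
      rw [hsmi]
      by_cases hW0 : finrank K W = 0
      · refine ⟨cj e (ds y g'), ?_, ?_, hg'3⟩
        · rw [det_cj, det_ds, hg'1, ← hdetx]
        · have h1 := rk_le y
          have h2 := rk_ds y g'
          rw [rk_cj]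
          have h3 : rk (ds y g') ≤ rk g' := by omega
          calc rk (ds y g') * L₀ ≤ rk g' * L₀ := Nat.mul_le_mul_right _ h3
            _ ≤ L₀ * smd L₀ F (x' : V' →ₗ[K] V') + finrank K V' := hg'2
            _ ≤ L₀ * smd L₀ F (x : V →ₗ[K] V) + finrank K V :=
              add_le_add (Nat.mul_le_mul_left _ hsmd) (by omega)
      · obtain ⟨hy1, hWd⟩ := simple_block hfi (y : W →ₗ[K] W) hy hW0
          (hWpd.trans_lt (hns f (Finset.mem_insert_self _ _) hL))
        obtain ⟨l, hl, hlL, hlf⟩ := hL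
        let e2 : (W ≃ₗ[K] W) × ((V' ≃ₗ[K] V') × B) →* (V ≃ₗ[K] V) × B :=
          (MonoidHom.prodMap e0 (MonoidHom.id B)).comp
            { toFun := fun p => ((p.1, p.2.1), p.2.2)
              map_one' := rfl
              map_mul' := fun p q => rfl }
        have he2 : ∀ (c : W ≃ₗ[K] W) (a : V' ≃ₗ[K] V') (b : B),
            e2 (c, (a, b)) = (cj e (ds c a), b) := fun c a b => rfl
        obtain ⟨y2, hy21, hy22, hy23⟩ := block_G
          (fun L _ _ _ hd D θ hD hθ => hbig l hl (hL₀.trans hlL) K L ((V' ≃ₗ[K] V') × B) C hd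
            D Δ θ hD hθ)
          (D := D.comp e2) (fun z hz => by
            change D (e2 (z, ((1 : V' ≃ₗ[K] V'), (1 : B)))) = 1
            rw [he2]
            exact hD1 _ (by rw [det_cj, det_ds, hz, map_one, mul_one]))
          (h.comap e2) y hfi hy1 hWd hlf (g', b) (by
            rw [MonoidHom.comp_apply, he2]
            exact hDg)
        simp only [he2] at hy23
        refine ⟨cj e (ds y2 g'), ?_, ?_, hg'3.trans hy23⟩
        · rw [det_cj, det_ds, hg'1, hy21, ← hdetx]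
        · have h2 := rk_ds y2 g'
          rw [rk_cj]
          have h4 : rk y2 * L₀ ≤ finrank K W := (Nat.mul_le_mul_left _ hlL).trans hy22
          calc rk (ds y2 g') * L₀ ≤ (rk y2 + rk g') * L₀ := Nat.mul_le_mul_right _ h2
            _ = rk y2 * L₀ + rk g' * L₀ := add_mul _ _ _
            _ ≤ finrank K W + (L₀ * smd L₀ F (x' : V' →ₗ[K] V') + finrank K V') :=
              add_le_add h4 hg'2
            _ ≤ finrank K W + (L₀ * smd L₀ F (x : V →ₗ[K] V) + finrank K V') :=
              Nat.add_le_add_left (Nat.add_le_add_right (Nat.mul_le_mul_left _ hsmd) _) _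
            _ = L₀ * smd L₀ F (x : V →ₗ[K] V) + finrank K V := by omega
    · rw [if_neg hL] at hsmi
      rw [hsmi]
      refine ⟨cj e (ds y g'), ?_, ?_, hg'3⟩
      · rw [det_cj, det_ds, hg'1, ← hdetx]
      · have h1 := rk_le y
        have h2 := rk_ds y g'
        rw [rk_cj]
        have h3 : rk y ≤ pd (x : V →ₗ[K] V) f := h1.trans hWpd
        calc rk (ds y g') * L₀ ≤ (rk y + rk g') * L₀ := Nat.mul_le_mul_right _ h2
          _ = rk y * L₀ + rk g' * L₀ := add_mul _ _ _
          _ ≤ pd (x : V →ₗ[K] V) f * L₀ +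
              (L₀ * smd L₀ F (x' : V' →ₗ[K] V') + finrank K V') :=
            add_le_add (Nat.mul_le_mul_right _ h3) hg'2
          _ ≤ pd (x : V →ₗ[K] V) f * L₀ +
              (L₀ * smd L₀ F (x : V →ₗ[K] V) + finrank K V) :=
            Nat.add_le_add_left (add_le_add (Nat.mul_le_mul_left _ hsmd) (by omega)) _
          _ = L₀ * (pd (x : V →ₗ[K] V) f + smd L₀ F (x : V →ₗ[K] V)) + finrank K V := by ring

end Pool.Agent.TH820.LG
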