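import Mathlib
import Pool.Agent.TH820.LG.T4

/-! # Products and split elements -/

set_option autoImplicit false
set_option linter.unusedSectionVars false

namespace Pool.Agent.TH820.LG

open Module Polynomial Pool.Agent.W446.AS

/-- products with abelian groups -/
lemma prod_trick {G Z : Type} [Group G] [Finite G] [CommGroup Z] [Finite Z] {F : G × Z → ℂ}
    (hF : Virt F) {N : ℝ} (hN : ∀ g, ‖F g‖ ≤ N) {x y : G}
    (h : ∀ c : G → ℂ, Virt c → (∀ g, ‖c g‖ ≤ N) → c x = c y) (z : Z) : F (x, z) = F (y, z) := by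
  classical
  have : Fintype Z := Fintype.ofFinite Z
  have hZ0 : (Fintype.card Z : ℂ) ≠ 0 := by exact_mod_cast Fintype.card_ne_zero
  have hZ0' : (0 : ℝ) < Fintype.card Z := by exact_mod_cast Fintype.card_pos
  suffices hz : ∀ z : Z, (fun z => F (x, z) - F (y, z)) z = 0 from sub_eq_zero.1 (hz z)
  refine fourier_zero _ fun μ => ?_
  set c : G → ℂ := fun g => (Fintype.card Z : ℂ)⁻¹ * ∑ w, F (g, w) * (((μ w)⁻¹ : ℂˣ) : ℂ)
    with hc
  have hμn : ∀ y, ‖(((μ y)⁻¹ : ℂˣ) : ℂ)‖ = 1 := by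
    intro y
    have h1 : ((μ y)⁻¹) ^ (Fintype.card Z) = 1 := by
      rw [inv_pow, ← map_pow, pow_card_eq_one, map_one, inv_one]
    have h2 : ‖(((μ y)⁻¹ : ℂˣ) : ℂ)‖ ^ (Fintype.card Z) = 1 := by
      rw [← norm_pow, ← Units.val_pow_eq_pow_val, h1]
      simp
    exact (pow_eq_one_iff_of_nonneg (norm_nonneg _) Fintype.card_ne_zero).1 h2
  have hbd : ∀ g, ‖c g‖ ≤ N := by
    intro g
    rw [hc]
    simp only
    rw [norm_mul, norm_inv, Complex.norm_natCast]
    have h1 : ‖∑ w, F (g, w) * (((μ w)⁻¹ : ℂˣ) : ℂ)‖ ≤ ∑ _w : Z, N := by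
      refine (norm_sum_le _ _).trans (Finset.sum_le_sum fun w _ => ?_)
      rw [norm_mul, hμn, mul_one]
      exact hN _
    rw [Finset.sum_const, Finset.card_univ, nsmul_eq_mul] at h1
    rw [inv_mul_le_iff₀ hZ0']
    exact h1
  have hvirt : Virt c := by
    let Z' : Subgroup (G × Z) := (MonoidHom.inr G Z).range
    have hZ' : Z' ≤ Subgroup.center (G × Z) := by
      rintro _ ⟨z, rfl⟩
      rw [Subgroup.mem_center_iff]
      rintro ⟨g, w⟩
      rw [MonoidHom.inr_apply, Prod.mk_mul_mk, Prod.mk_mul_mk, mul_one, one_mul, mul_comm]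
    let e : Z ≃* Z' := MonoidHom.ofInjective (f := MonoidHom.inr G Z)
      (fun a b h => (Prod.ext_iff.1 h).2)
    have he : ∀ w : Z, ((e w : Z') : G × Z) = (1, w) := fun w => rfl
    have h1 := Virt.lam (μ := μ.comp e.symm.toMonoidHom) hZ' hF
    have h2 := h1.comp (MonoidHom.inl G Z)
    have : Fintype Z' := Fintype.ofFinite _
    have h3 : (fun g => lam Z' (μ.comp e.symm.toMonoidHom) F (MonoidHom.inl G Z g)) = c := by
      funext g
      rw [lam_eq, hc]
      simp only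
      rw [← Equiv.sum_comp e.toEquiv, Nat.card_congr e.symm.toEquiv, Nat.card_eq_fintype_card]
      congr 1
      refine Finset.sum_congr rfl fun w _ => ?_
      have h4 : (e.toEquiv w : Z') = e w := rfl
      rw [h4, he, MonoidHom.inl_apply, Prod.mk_mul_mk, mul_one, one_mul]
      have h5 : (μ.comp e.symm.toMonoidHom) (e w) = μ w := by
        change μ (e.symm (e w)) = μ w
        rw [e.symm_apply_apply]
      rw [h5]
    rw [h3] at h2
    exact h2
  have hre := h c hvirt hbd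
  rw [hc] at hre
  simp only at hre
  have h7 := mul_left_cancel₀ (inv_ne_zero hZ0) hre
  simp only [sub_mul, Finset.sum_sub_distrib]
  rw [h7, sub_self]

/-- a section of the determinant -/
lemma exists_sec (K W : Type) [Field K] [AddCommGroup W] [Module K W] [FiniteDimensional K W]
    (h : 0 < finrank K W) : ∃ κ : Kˣ →* (W ≃ₗ[K] W), ∀ d, LinearEquiv.det (κ d) = d := by
  obtain ⟨t, ht⟩ : ∃ t, finrank K W = t + 1 := ⟨finrank K W - 1, by omega⟩
  let e : (Fin (t + 1) → K) ≃ₗ[K] W := LinearEquiv.ofFinrankEq _ _ (by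
    rw [Module.finrank_fin_fun, ht])
  refine ⟨(cj e).toMonoidHom.comp (scHom K t), fun d => ?_⟩
  change LinearEquiv.det (cj e (sc K t d)) = d
  rw [det_cj, det_sc]

/-- powers of one element -/
lemma zpow_comm {Γ : Type} [Group Γ] {a z : Γ} (h : a * z = z * a) (w : Subgroup.zpowers z) :
    a * (w : Γ) = (w : Γ) * a := by
  obtain ⟨i, hi⟩ := w.2
  rw [← hi]
  exact (Commute.zpow_right (show Commute a z from h) i)

/-- **Elements with a fixed vector that splits off.** -/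
theorem one_split (N : ℝ) : ∃ n₀ : ℕ, ∀ (K U W P C : Type) [Field K] [Finite K] [AddCommGroup U]
    [Module K U] [FiniteDimensional K U] [AddCommGroup W] [Module K W] [FiniteDimensional K W]
    [Group P] [Finite P] [CommGroup C] (D : ((U × W) ≃ₗ[K] (U × W)) × P →* C) (Δ : Subgroup C)
    (θ : ((U × W) ≃ₗ[K] (U × W)) × P → ℂ),
    (∀ x : (U × W) ≃ₗ[K] (U × W), LinearEquiv.det x = 1 → D (x, 1) = 1) → BV D Δ N θ →
    n₀ ≤ finrank K U → 0 < finrank K W → ∀ (x y : U ≃ₗ[K] U) (p : P),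
    LinearEquiv.det x = LinearEquiv.det y → D (ds x 1, p) ∈ Δ →
    θ (ds x 1, p) = θ (ds y 1, p) := by
  classical
  obtain ⟨n₀, hn₀⟩ := linear_groups N
  refine ⟨n₀, ?_⟩
  intro K U W P C _ _ _ _ _ _ _ _ _ _ _ D Δ θ hD1 h hn hW x y p hxy hx
  have : Finite U := Module.finite_of_finite K
  have : Finite W := Module.finite_of_finite K
  obtain ⟨κ, hκ⟩ := exists_sec K W hW
  let ι : (U ≃ₗ[K] U) →* ((U × W) ≃ₗ[K] (U × W)) × P :=
    { toFun := fun u => (ds u (κ (LinearEquiv.det u)⁻¹), 1)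
      map_one' := by rw [map_one, inv_one, map_one, ds_one]; rfl
      map_mul' := fun u v => by
        rw [map_mul, mul_inv, map_mul, Prod.mk_mul_mk, ds_mul, mul_one] }
  have hι : ∀ u, ι u = (ds u (κ (LinearEquiv.det u)⁻¹), 1) := fun u => rfl
  have hιD : ∀ u, D (ι u) = 1 := by
    intro u
    rw [hι]
    apply hD1
    rw [det_ds, hκ, mul_inv_cancel]
  let z : ((U × W) ≃ₗ[K] (U × W)) × P := (ds 1 (κ (LinearEquiv.det x)), p)
  have hzD : D z ∈ Δ := by
    have h1 : D z = D (ds x 1, p) := D_eq hD1 (by rw [det_ds, det_ds, hκ, map_one, map_one, one_mul, mul_one]) p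
    rw [h1]
    exact hx
  have hzc : ∀ u, ι u * z = z * ι u := by
    intro u
    change ((ds u (κ (LinearEquiv.det u)⁻¹), (1 : P)) : ((U × W) ≃ₗ[K] (U × W)) × P) *
      (ds 1 (κ (LinearEquiv.det x)), p) = (ds 1 (κ (LinearEquiv.det x)), p) *
      (ds u (κ (LinearEquiv.det u)⁻¹), (1 : P))
    rw [Prod.mk_mul_mk, Prod.mk_mul_mk, ds_mul, ds_mul, ← map_mul, ← map_mul, mul_one, one_mul,
      mul_one, one_mul, mul_comm (LinearEquiv.det u)⁻¹]
  let _ : CommGroup (Subgroup.zpowers z) :=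
    { (inferInstance : Group (Subgroup.zpowers z)) with
      mul_comm := fun x y => by
        obtain ⟨i, hi⟩ := x.2
        obtain ⟨k, hk⟩ := y.2
        apply Subtype.ext
        simp only [Subgroup.coe_mul]
        rw [← hi, ← hk]
        change z ^ i * z ^ k = z ^ k * z ^ i
        rw [← zpow_add, ← zpow_add, add_comm] }
  let Φ : (U ≃ₗ[K] U) × Subgroup.zpowers z →* ((U × W) ≃ₗ[K] (U × W)) × P :=
    MonoidHom.noncommCoprod ι (Subgroup.zpowers z).subtype
      (fun u w => zpow_comm (hzc u) w)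
  have hΦ : ∀ u w, Φ (u, w) = ι u * (w : ((U × W) ≃ₗ[K] (U × W)) × P) := fun u w => rfl
  have hΦD : ∀ v, D (Φ v) ∈ Δ := by
    rintro ⟨u, w⟩
    rw [hΦ, map_mul, hιD, one_mul]
    obtain ⟨i, hi⟩ := w.2
    rw [← hi]
    change D (z ^ i) ∈ Δ
    rw [map_zpow]
    exact Δ.zpow_mem hzD i
  have hF : Virt (fun v => θ (Φ v)) := h.virt _ Φ hΦD
  have hFN : ∀ v, ‖θ (Φ v)‖ ≤ N := fun v => h.bdd _ (hΦD v)
  have hmain := prod_trick hF hFN (x := x) (y := y) (fun c hc hcN =>
    hn₀ K U ⊤ c ⟨fun B _ _ φ _ => hc.comp φ, fun g _ => hcN g⟩ hn x y (Subgroup.mem_top _) hxy)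
    ⟨z, Subgroup.mem_zpowers z⟩
  have hv : ∀ u : U ≃ₗ[K] U, LinearEquiv.det x = LinearEquiv.det u →
      Φ (u, ⟨z, Subgroup.mem_zpowers z⟩) = (ds u 1, p) := by
    intro u hu
    rw [hΦ]
    change ((ds u (κ (LinearEquiv.det u)⁻¹), (1 : P)) : ((U × W) ≃ₗ[K] (U × W)) × P) *
      (ds 1 (κ (LinearEquiv.det x)), p) = _
    rw [Prod.mk_mul_mk, ds_mul, ← map_mul, hu, inv_mul_cancel, map_one, mul_one, one_mul]
  rw [hv x rfl, hv y hxy] at hmain
  exact hmain

end Pool.Agent.TH820.LG
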