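import Mathlib
import Pool.Agent.TH820.LG.T5

/-! # Bounded virtual characters of extensions of linear groups -/

set_option autoImplicit false
set_option linter.unusedSectionVars false

namespace Pool.Agent.TH820.LG

open Module Polynomial Pool.Agent.W446.AS

/-- **Counting untypical elements.** -/
theorem count_bad (L₁ c : ℕ) (hc0 : 0 < c) (ε : ℝ) (hε : 0 < ε) : ∃ L₀ n₀ : ℕ, L₁ ≤ L₀ ∧ c ≤ L₀ ∧
    ∀ (K V : Type) [Field K] [Finite K] [AddCommGroup V] [Module K V] [FiniteDimensional K V]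
    (Δ : Subgroup Kˣ), n₀ ≤ finrank K V →
    ∃ B : Set (GV K V Δ), (B.ncard : ℝ) ≤ ε * Nat.card (GV K V Δ) ∧
      ∀ x : GV K V Δ, x ∉ B →
        smd L₀ (allIrr K (finrank K V)) ((x : V ≃ₗ[K] V) : V →ₗ[K] V) ≤ finrank K V / c ∧
        ∀ f ∈ allIrr K (finrank K V), Lg L₀ f.natDegree →
          pd ((x : V ≃ₗ[K] V) : V →ₗ[K] V) f < 2 * f.natDegree := by
  classical
  obtain ⟨L₂, hL₂⟩ : ∃ L₂ : ℕ, (1 / 2 : ℝ) ^ L₂ < ε / 32 :=
    exists_pow_lt_of_lt_one (by positivity) (by norm_num)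
  set L₀ := max L₁ (max L₂ c) with hL₀
  have hL₀1 : L₁ ≤ L₀ := le_max_left _ _
  have hL₀2 : L₂ ≤ L₀ := (le_max_left _ _).trans (le_max_right _ _)
  have hL₀3 : c ≤ L₀ := (le_max_right _ _).trans (le_max_right _ _)
  set A : ℝ := 12 * (2 : ℝ) ^ L₀.primesBelow.card * c with hA
  have hA0 : 0 ≤ A := by positivity
  obtain ⟨n₁, hn₁⟩ := exists_nat_ge ((2 * A / ε) ^ 2)
  refine ⟨L₀, max n₁ (max (2 * c) 2), hL₀1, hL₀3, ?_⟩
  intro K V _ _ _ _ _ Δ hn
  have : Finite V := Module.finite_of_finite K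
  have : Fintype V := Fintype.ofFinite V
  have : Fintype (GV K V Δ) := Fintype.ofFinite _
  set n := finrank K V with hnd
  have hnn₁ : n₁ ≤ n := (le_max_left _ _).trans hn
  have hnc : 2 * c ≤ n := (le_max_left _ _).trans ((le_max_right _ _).trans hn)
  have hn2 : 2 ≤ n := (le_max_right _ _).trans ((le_max_right _ _).trans hn)
  set s := n / c with hs
  set B1 : Set (GV K V Δ) := {x | s < smd L₀ (allIrr K n) ((x : V ≃ₗ[K] V) : V →ₗ[K] V)} with hB1
  set B2 : Set (GV K V Δ) := {x | ∃ f ∈ allIrr K n, Lg L₀ f.natDegree ∧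
      2 * f.natDegree ≤ pd ((x : V ≃ₗ[K] V) : V →ₗ[K] V) f} with hB2
  set g : ℝ := ((Nat.card (GV K V Δ) : ℕ) : ℝ) with hg
  have hg0 : 0 ≤ g := Nat.cast_nonneg _
  refine ⟨B1 ∪ B2, ?_, ?_⟩
  · have h1 := bad_one (K := K) (V := V) (Δ := Δ) L₀ s
    have h2 := bad_two (K := K) (V := V) (Δ := Δ) L₀ (by omega)
    have h3 : ((B1 ∪ B2).ncard : ℝ) ≤ B1.ncard + B2.ncard := by
      exact_mod_cast Set.ncard_union_le B1 B2
    have h4 : (B2.ncard : ℝ) ≤ ε / 2 * g := by
      refine h2.trans ?_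
      have h5 : (1 / 2 : ℝ) ^ L₀ ≤ (1 / 2 : ℝ) ^ L₂ :=
        pow_le_pow_of_le_one (by norm_num) (by norm_num) hL₀2
      have h6 : 16 * (1 / 2 : ℝ) ^ L₀ ≤ ε / 2 := by linarith
      exact mul_le_mul_of_nonneg_right h6 hg0
    have h5 : (B1.ncard : ℝ) ≤ ε / 2 * g := by
      have hs1 : (n : ℝ) / c ≤ (s : ℝ) + 1 := by
        rw [div_le_iff₀ (by exact_mod_cast hc0)]
        have := Nat.lt_div_mul_add hc0 (a := n)
        have h6 : n ≤ (s + 1) * c := by
          rw [hs]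
          nlinarith
        exact_mod_cast h6
      have hsq : ((n.sqrt : ℕ) : ℝ) ≤ Real.sqrt n := Real.nat_sqrt_le_real_sqrt
      have h6 : ((n : ℝ) / c) * B1.ncard ≤ 12 * g * ((2 : ℝ) ^ L₀.primesBelow.card * Real.sqrt n) := by
        refine le_trans (mul_le_mul_of_nonneg_right hs1 (Nat.cast_nonneg _)) (h1.trans ?_)
        push_cast
        refine mul_le_mul_of_nonneg_left ?_ (by positivity)
        exact mul_le_mul_of_nonneg_left hsq (by positivity)
      have hnpos : (0 : ℝ) < n := by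
        have : 0 < n := by omega
        exact_mod_cast this
      have hcpos : (0 : ℝ) < c := by exact_mod_cast hc0
      have h7 : Real.sqrt n * Real.sqrt n = n := Real.mul_self_sqrt hnpos.le
      have hsp : 0 < Real.sqrt n := Real.sqrt_pos.2 hnpos
      have h8 : Real.sqrt n * B1.ncard ≤ A * g := by
        have h9 : ((n : ℝ) / c) * B1.ncard * c = n * B1.ncard := by
          field_simp
        have h10 : (n : ℝ) * B1.ncard ≤ A * g * Real.sqrt n := by
          rw [← h9, hA]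
          have := mul_le_mul_of_nonneg_right h6 hcpos.le
          linarith
        have h11 : Real.sqrt n * (Real.sqrt n * B1.ncard) ≤ Real.sqrt n * (A * g) := by
          calc Real.sqrt n * (Real.sqrt n * B1.ncard) = n * B1.ncard := by rw [← mul_assoc, h7]
            _ ≤ A * g * Real.sqrt n := h10
            _ = Real.sqrt n * (A * g) := by ring
        exact le_of_mul_le_mul_left h11 hsp
      have h9 : 2 * A / ε ≤ Real.sqrt n := by
        apply Real.le_sqrt_of_sq_le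
        exact hn₁.trans (by exact_mod_cast hnn₁)
      have h10 : A ≤ ε / 2 * Real.sqrt n := by
        rw [div_le_iff₀ hε] at h9
        linarith
      have h11 : Real.sqrt n * B1.ncard ≤ Real.sqrt n * (ε / 2 * g) := by
        refine h8.trans ?_
        have := mul_le_mul_of_nonneg_right h10 hg0
        linarith
      exact le_of_mul_le_mul_left h11 hsp
    linarith
  · intro x hx
    rw [Set.mem_union, not_or] at hx
    obtain ⟨hx1, hx2⟩ := hx
    refine ⟨?_, ?_⟩
    · by_contra hcon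
      exact hx1 (not_le.1 hcon)
    · intro f hf hL
      by_contra hcon
      exact hx2 ⟨f, hf, hL, not_lt.1 hcon⟩

/-- preimages under surjective homomorphisms -/
lemma ncard_preimage {G H : Type} [Group G] [Finite G] [Group H] [Finite H] (π : G →* H)
    (hπ : Function.Surjective π) (S : Set H) :
    ((π ⁻¹' S).ncard : ℝ) * Nat.card H = S.ncard * Nat.card G := by
  classical
  have : Fintype G := Fintype.ofFinite G
  have : Fintype H := Fintype.ofFinite H
  have hk : ∀ h : H, (Finset.univ.filter fun g => π g = h).card =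
      (Finset.univ.filter fun g => π g = 1).card := by
    intro h
    exact MonoidHom.card_fiber_eq_of_mem_range π (hπ h) (hπ 1)
  set k := (Finset.univ.filter fun g => π g = 1).card with hkd
  have hS : ∀ S : Set H, (π ⁻¹' S).ncard = S.ncard * k := by
    intro S
    have h1 : (π ⁻¹' S).ncard = (Finset.univ.filter fun g => π g ∈ S).card := by
      rw [← Set.ncard_coe_finset]
      congr 1
      ext g
      simp
    have h2 : S.ncard = (Finset.univ.filter fun h => h ∈ S).card := by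
      rw [← Set.ncard_coe_finset]
      congr 1
      ext g
      simp
    rw [h1, h2, Finset.card_eq_sum_card_fiberwise (f := π) (t := Finset.univ.filter fun h => h ∈ S)
      (fun g hg => by simpa using hg), Finset.sum_const_nat]
    intro h hh
    rw [← hk h]
    congr 1
    ext g
    simp only [Finset.mem_filter, Finset.mem_univ, true_and] at hh ⊢
    constructor
    · exact fun hg => hg.2
    · rintro rfl
      exact ⟨hh, rfl⟩
  have h1 := hS S
  have h2 := hS Set.univ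
  rw [Set.preimage_univ, Set.ncard_univ, Set.ncard_univ] at h2
  rw [h1, h2]
  push_cast
  ring

/-- the conjugates of split elements -/
lemma conj_split {K V U W P C : Type} [Field K] [Finite K] [AddCommGroup V] [Module K V]
    [FiniteDimensional K V] [AddCommGroup U] [Module K U] [FiniteDimensional K U]
    [AddCommGroup W] [Module K W] [FiniteDimensional K W] [Group P] [Finite P] [CommGroup C]
    {D : (V ≃ₗ[K] V) × P →* C} (hD1 : ∀ x : V ≃ₗ[K] V, LinearEquiv.det x = 1 → D (x, 1) = 1)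
    {Δ : Subgroup C} {N : ℝ} {θ : (V ≃ₗ[K] V) × P → ℂ} (h : BV D Δ N θ)
    (hW : 0 < finrank K W) (e e' : (U × W) ≃ₗ[K] V) (g : U ≃ₗ[K] U) (p : P)
    (hg : D (cj e (ds g 1), p) ∈ Δ) : θ (cj e' (ds g 1), p) = θ (cj e (ds g 1), p) := by
  have : Finite V := Module.finite_of_finite K
  obtain ⟨κ, hκ⟩ := exists_sec K W hW
  let a : V ≃ₗ[K] V := e.symm.trans e'
  have ha : ∀ v, a (e v) = e' v := fun v => by
    change e' (e.symm (e v)) = e' v
    rw [e.symm_apply_apply]
  have hconj : ((a, 1) : (V ≃ₗ[K] V) × P) * (cj e (ds g 1), p) * (a, 1)⁻¹ =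
      (cj e' (ds g 1), p) := by
    rw [mul_inv_eq_iff_eq_mul, Prod.mk_mul_mk, Prod.mk_mul_mk, one_mul, mul_one]
    refine Prod.ext ?_ rfl
    apply LinearEquiv.ext
    intro v
    change a (e (ds g 1 (e.symm v))) = e' (ds g 1 (e'.symm (a v)))
    rw [ha]
    congr 2
    change e.symm v = e'.symm (e' (e.symm v))
    rw [e'.symm_apply_apply]
  rw [← hconj]
  refine h.conj' (c := (cj e (ds 1 (κ (LinearEquiv.det a)⁻¹)), 1)) hg ?_ ?_
  · rw [Prod.mk_mul_mk, Prod.mk_mul_mk, ← map_mul, ← map_mul, ds_mul, ds_mul, one_mul, mul_one,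
      mul_one, one_mul, mul_one, one_mul]
  · rw [Prod.mk_mul_mk, one_mul, hD1]
    · exact Δ.one_mem
    · rw [map_mul, det_cj, det_ds, hκ, map_one, one_mul, mul_inv_cancel]

/-- **Typical elements.** -/
theorem typical_G (N : ℝ) (ε : ℝ) (hε : 0 < ε) : ∃ n₀ : ℕ, ∀ (K V P C : Type) [Field K] [Finite K]
    [AddCommGroup V] [Module K V] [FiniteDimensional K V] [Group P] [Finite P] [CommGroup C]
    (D : (V ≃ₗ[K] V) × P →* C) (Δ : Subgroup C) (θ : (V ≃ₗ[K] V) × P → ℂ),
    (∀ x : V ≃ₗ[K] V, LinearEquiv.det x = 1 → D (x, 1) = 1) → BV D Δ N θ → n₀ ≤ finrank K V →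
    ∃ B : Set (Δ.comap D), (B.ncard : ℝ) ≤ ε * Nat.card (Δ.comap D) ∧
      ∀ x : Δ.comap D, x ∉ B → ∀ y : V ≃ₗ[K] V,
        LinearEquiv.det (x : (V ≃ₗ[K] V) × P).1 = LinearEquiv.det y → rk y ≤ 1 →
        θ x = θ (y, (x : (V ≃ₗ[K] V) × P).2) := by
  classical
  obtain ⟨L₁, hL₁, hass⟩ := assemble_G N
  obtain ⟨n₁, hone⟩ := one_split N
  obtain ⟨L₀, n₂, hL₀1, hL₀3, hcount⟩ := count_bad L₁ 8 (by norm_num) ε hε
  refine ⟨max (n₁ + 1) (max n₂ 8), ?_⟩
  intro K V P C _ _ _ _ _ _ _ _ D Δ θ hD1 h hn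
  have hnn₁ : n₁ + 1 ≤ finrank K V := (le_max_left _ _).trans hn
  have hnn₂ : n₂ ≤ finrank K V := (le_max_left _ _).trans ((le_max_right _ _).trans hn)
  have hn8 : 8 ≤ finrank K V := (le_max_right _ _).trans ((le_max_right _ _).trans hn)
  have : Finite V := Module.finite_of_finite K
  set n := finrank K V with hnd
  -- the projection
  let Δ' : Subgroup Kˣ := ((Δ.comap D).map (MonoidHom.fst (V ≃ₗ[K] V) P)).map LinearEquiv.det
  have hmem : ∀ x : V ≃ₗ[K] V, x ∈ GV K V Δ' → ∃ p : P, D (x, p) ∈ Δ := by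
    rintro x ⟨x', ⟨⟨x'', p⟩, hp, rfl⟩, hx'⟩
    refine ⟨p, ?_⟩
    rw [← D_eq hD1 (x := x'') hx' p]
    exact hp
  let π : Δ.comap D →* GV K V Δ' :=
    { toFun := fun x => ⟨(x : (V ≃ₗ[K] V) × P).1, ⟨_, ⟨(x : (V ≃ₗ[K] V) × P), x.2, rfl⟩, rfl⟩⟩
      map_one' := rfl
      map_mul' := fun x y => rfl }
  have hπv : ∀ x, ((π x : GV K V Δ') : V ≃ₗ[K] V) = (x : (V ≃ₗ[K] V) × P).1 := fun x => rfl
  have hπ : Function.Surjective π := by
    intro x
    obtain ⟨p, hp⟩ := hmem x x.2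
    exact ⟨⟨((x : V ≃ₗ[K] V), p), hp⟩, Subtype.ext rfl⟩
  obtain ⟨B, hB, hgood⟩ := hcount K V Δ' hnn₂
  refine ⟨π ⁻¹' B, ?_, ?_⟩
  · have h1 := ncard_preimage π hπ B
    have h2 : (0 : ℝ) < Nat.card (GV K V Δ') := by exact_mod_cast Nat.card_pos
    have h3 : (0 : ℝ) ≤ Nat.card (Δ.comap D) := Nat.cast_nonneg _
    have h4 : ((π ⁻¹' B).ncard : ℝ) * Nat.card (GV K V Δ') ≤
        (ε * Nat.card (Δ.comap D)) * Nat.card (GV K V Δ') := by
      rw [h1]
      calc (B.ncard : ℝ) * Nat.card (Δ.comap D) ≤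
          (ε * Nat.card (GV K V Δ')) * Nat.card (Δ.comap D) :=
            mul_le_mul_of_nonneg_right hB h3
        _ = _ := by ring
    exact le_of_mul_le_mul_right h4 h2
  · intro x hx y hxy hy
    obtain ⟨hx1, hx2⟩ := hgood (π x) hx
    rw [hπv] at hx1 hx2
    obtain ⟨⟨x₁, p⟩, hxm⟩ := x
    change LinearEquiv.det x₁ = LinearEquiv.det y at hxy
    change θ (x₁, p) = θ (y, p)
    have hxm' : D (x₁, p) ∈ Δ := hxm
    obtain ⟨z, hz1, hz2, hz3⟩ := hass L₀ hL₀1 K C Δ (allIrr K n)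
      (fun f hf => ⟨((mem_allIrr K).1 hf).1, ((mem_allIrr K).1 hf).2.1⟩) V P D θ hD1 h x₁ p n
      (kill_all _) hx2 hxm'
    rw [hz3]
    -- the rank
    have hL₀pos : 0 < L₀ := lt_of_lt_of_le (by norm_num) hL₀3
    have hrk : rk z ≤ n / 8 + n / L₀ := by
      have h1 : rk z * L₀ ≤ L₀ * (n / 8) + n :=
        hz2.trans (Nat.add_le_add_right (Nat.mul_le_mul_left _ hx1) _)
      have h2 : rk z ≤ (L₀ * (n / 8) + n) / L₀ := (Nat.le_div_iff_mul_le hL₀pos).2 h1
      rwa [Nat.mul_add_div hL₀pos] at h2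
    have hnL : n / L₀ ≤ n / 8 := Nat.div_le_div_left hL₀3 (by norm_num)
    have hrk2 : 2 * rk z ≤ n - 1 := by omega
    obtain ⟨e, g, hg⟩ := split_rank (s := n - 1) z (r := rk z) le_rfl hrk2 (W := K)
      (by rw [Module.finrank_self]; omega)
    obtain ⟨e', g', hg'⟩ := split_rank (s := n - 1) y (r := 1) hy (by omega) (W := K)
      (by rw [Module.finrank_self]; omega)
    have hK1 : 0 < finrank K K := by rw [Module.finrank_self]; exact one_pos
    have hdet : LinearEquiv.det g = LinearEquiv.det g' := by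
      have h1 : LinearEquiv.det g = LinearEquiv.det z := by
        rw [hg, det_cj, det_ds, map_one, mul_one]
      have h2 : LinearEquiv.det g' = LinearEquiv.det y := by
        rw [hg', det_cj, det_ds, map_one, mul_one]
      rw [h1, h2, hz1, hxy]
    let E : (((Fin (n - 1) → K) × K) ≃ₗ[K] ((Fin (n - 1) → K) × K)) × P →* (V ≃ₗ[K] V) × P :=
      MonoidHom.prodMap (cj e).toMonoidHom (MonoidHom.id P)
    have hE : ∀ u p, E (u, p) = (cj e u, p) := fun u p => rfl
    have hzD : D (z, p) ∈ Δ := by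
      rw [D_eq hD1 hz1]
      exact hxm'
    have h1 := hone K (Fin (n - 1) → K) K P C (D.comp E) Δ (fun v => θ (E v)) (fun x hx => by
        rw [MonoidHom.comp_apply, hE]
        exact hD1 _ (by rw [det_cj, hx])) (h.comap E)
      (by rw [Module.finrank_fin_fun]; omega) hK1 g g' p hdet (by
        rw [MonoidHom.comp_apply, hE, ← hg]
        exact hzD)
    simp only [hE] at h1
    have h2 := conj_split hD1 h hK1 e e' g' p (by
      rw [D_eq hD1 (y := z) (by rw [det_cj, det_ds, ← hdet, hg, det_cj, det_ds])]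
      exact hzD)
    rw [← hg, ← h2, ← hg'] at h1
    exact h1

/-- **Main theorem.** -/
theorem linear_G (N : ℝ) : ∃ n₀ : ℕ, ∀ (K V P C : Type) [Field K] [Finite K]
    [AddCommGroup V] [Module K V] [FiniteDimensional K V] [Group P] [Finite P] [CommGroup C]
    (D : (V ≃ₗ[K] V) × P →* C) (Δ : Subgroup C) (θ : (V ≃ₗ[K] V) × P → ℂ),
    (∀ x : V ≃ₗ[K] V, LinearEquiv.det x = 1 → D (x, 1) = 1) → BV D Δ N θ → n₀ ≤ finrank K V →
    ∀ (x y : V ≃ₗ[K] V) (p : P), D (x, p) ∈ Δ → LinearEquiv.det x = LinearEquiv.det y →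
      θ (x, p) = θ (y, p) := by
  classical
  obtain ⟨n₀, hn₀⟩ := typical_G N (1 / (4 * N ^ 2 + 1)) (by positivity)
  refine ⟨max n₀ 1, ?_⟩
  intro K V P C _ _ _ _ _ _ _ _ D Δ θ hD1 h hn
  have : Finite V := Module.finite_of_finite K
  have : Fintype (Δ.comap D) := Fintype.ofFinite _
  obtain ⟨B, hB, hgood⟩ := hn₀ K V P C D Δ θ hD1 h ((le_max_left _ _).trans hn)
  obtain ⟨t, ht⟩ : ∃ t, finrank K V = t + 1 :=
    ⟨finrank K V - 1, by have := (le_max_right n₀ 1).trans hn; omega⟩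
  let e : (Fin (t + 1) → K) ≃ₗ[K] V := LinearEquiv.ofFinrankEq _ _ (by
    rw [Module.finrank_fin_fun, ht])
  -- the reference elements
  let H₀ : (V ≃ₗ[K] V) →* (V ≃ₗ[K] V) :=
    (cj e).toMonoidHom.comp ((scHom K t).comp LinearEquiv.det)
  have hH : ∀ x, H₀ x = cj e (sc K t (LinearEquiv.det x)) := fun x => rfl
  have hHd : ∀ x, LinearEquiv.det (H₀ x) = LinearEquiv.det x := by
    intro x
    rw [hH, det_cj, det_sc]
  have hHr : ∀ x, rk (H₀ x) ≤ 1 := by
    intro x
    rw [hH, rk_cj]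
    exact rk_sc K t _
  let H : (V ≃ₗ[K] V) × P →* (V ≃ₗ[K] V) × P := MonoidHom.prodMap H₀ (MonoidHom.id P)
  have hHH : ∀ x, H x = (H₀ x.1, x.2) := fun x => rfl
  have hHD : ∀ x, D (H x) = D x := by
    rintro ⟨x, p⟩
    exact D_eq hD1 (hHd x) p
  have hV1 : Virt (fun x : Δ.comap D => θ x) := h.virt _ (Δ.comap D).subtype (fun x => x.2)
  have hV2 : Virt (fun x : Δ.comap D => θ (H x)) :=
    h.virt _ (H.comp (Δ.comap D).subtype) (fun x => by
      change D (H x) ∈ Δ
      rw [hHD]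
      exact x.2)
  have hDv : Virt (fun x : Δ.comap D => θ x - θ (H x)) := virt_sub hV1 hV2
  have hzero : ∀ x : Δ.comap D, θ x - θ (H x) = 0 := by
    intro x
    refine virt_eq_zero hDv ?_ x
    have hbd : ∀ x : Δ.comap D, ‖θ x - θ (H x)‖ ^ 2 ≤ if x ∈ B then 4 * N ^ 2 else 0 := by
      intro x
      split_ifs with hx
      · have h1 : ‖θ (x : (V ≃ₗ[K] V) × P)‖ ≤ N := h.bdd _ x.2
        have h2 : ‖θ (H x)‖ ≤ N := h.bdd _ (by rw [hHD]; exact x.2)
        have h3 : ‖θ x - θ (H x)‖ ≤ 2 * N := (norm_sub_le _ _).trans (by linarith)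
        have h4 := pow_le_pow_left₀ (norm_nonneg _) h3 2
        linarith
      · rw [hgood x hx (H₀ (x : (V ≃ₗ[K] V) × P).1) (hHd _).symm (hHr _), hHH, sub_self]
        simp
    refine (Finset.sum_le_sum fun x _ => hbd x).trans_lt ?_
    rw [← Finset.sum_filter, Finset.sum_const, nsmul_eq_mul]
    have h1 : ((Finset.univ.filter fun x : Δ.comap D => x ∈ B).card : ℝ) = B.ncard := by
      rw [← Set.ncard_coe_finset]
      congr 2
      ext x
      simp
    rw [h1]
    have hg : (0 : ℝ) < Nat.card (Δ.comap D) := by exact_mod_cast Nat.card_pos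
    have h2 : (B.ncard : ℝ) * (4 * N ^ 2 + 1) ≤ Nat.card (Δ.comap D) := by
      rw [one_div, inv_mul_eq_div, le_div_iff₀ (by positivity)] at hB
      exact hB
    rcases Nat.eq_zero_or_pos B.ncard with h0 | hpos
    · rw [h0]
      simpa using hg
    · have : (0 : ℝ) < B.ncard := by exact_mod_cast hpos
      nlinarith
  intro x y p hx hxy
  have hy : D (y, p) ∈ Δ := by
    rw [← D_eq hD1 hxy]
    exact hx
  have h1 := sub_eq_zero.1 (hzero ⟨(x, p), hx⟩)
  have h2 := sub_eq_zero.1 (hzero ⟨(y, p), hy⟩)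
  have h3 : H (x, p) = H (y, p) := by rw [hHH, hHH, hH, hH, hxy]
  change θ (x, p) = θ (H (x, p)) at h1
  change θ (y, p) = θ (H (y, p)) at h2
  rw [h1, h2, h3]

end Pool.Agent.TH820.LG
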