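import Mathlib
import Pool.Agent.TH820.LG.T6

/-! # Normal subgroups that are quotients of special linear groups -/

set_option autoImplicit false
set_option linter.unusedSectionVars false

namespace Pool.Agent.TH820.LG

open Module Pool.Agent.W446.AS

section ext
variable {G Q P C : Type} [Group G] [Group Q] [Group P] [CommGroup C]

/-- the difference of the determinants -/
def dD (d : G →* C) (α : P →* G) : G × P →* C :=
  (d.comp (MonoidHom.fst G P)) * (d.comp (α.comp (MonoidHom.snd G P)))⁻¹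

lemma dD_apply (d : G →* C) (α : P →* G) (y : G) (p : P) :
    dD d α (y, p) = d y * (d (α p))⁻¹ := rfl

lemma dD_mem (d : G →* C) (α : P →* G) (w : G × P) (hw : w ∈ (dD d α).ker) :
    w.1 * (α w.2)⁻¹ ∈ d.ker := by
  obtain ⟨y, p⟩ := w
  rw [MonoidHom.mem_ker, map_mul, map_inv]
  exact hw

/-- the elements of the kernel -/
def dS (d : G →* C) (α : P →* G) (w : (dD d α).ker) : d.ker :=
  ⟨(w : G × P).1 * (α (w : G × P).2)⁻¹, dD_mem d α w w.2⟩

lemma dS_mul (d : G →* C) (α : P →* G) (w w' : (dD d α).ker) :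
    dS d α (w * w') = dS d α w * MulAut.conjNormal (α (w : G × P).2) (dS d α w') := by
  apply Subtype.ext
  change (w : G × P).1 * (w' : G × P).1 * (α ((w : G × P).2 * (w' : G × P).2))⁻¹ =
    (w : G × P).1 * (α (w : G × P).2)⁻¹ *
      (α (w : G × P).2 * ((w' : G × P).1 * (α (w' : G × P).2)⁻¹) * (α (w : G × P).2)⁻¹)
  rw [map_mul]
  group

lemma dS_one (d : G →* C) (α : P →* G) : dS d α 1 = 1 := by
  apply Subtype.ext
  change (1 : G) * (α 1)⁻¹ = 1
  rw [map_one, inv_one, one_mul]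

/-- the homomorphism to `Q` -/
def dF (d : G →* C) (α : P →* G) (f : d.ker →* Q) (ξ : P →* Q)
    (hP : ∀ (p : P) (s : d.ker), ξ p * f s * (ξ p)⁻¹ = f (MulAut.conjNormal (α p) s)) :
    (dD d α).ker →* Q where
  toFun w := f (dS d α w) * ξ (w : G × P).2
  map_one' := by
    rw [dS_one, map_one, one_mul]
    exact map_one ξ
  map_mul' w w' := by
    rw [dS_mul, map_mul, ← hP]
    have h1 : ξ ((w * w' : (dD d α).ker) : G × P).2 = ξ (w : G × P).2 * ξ (w' : G × P).2 :=
      map_mul ξ _ _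
    rw [h1]
    group

end ext

/-- **Rigidity, abstract form.** -/
theorem rigid_abs {G Q C : Type} [Group G] [Finite G] [Group Q] [Finite Q] [CommGroup C]
    (d : G →* C) (N : ℝ)
    (hlin : ∀ (P : Type) [Group P] [Finite P] (D : G × P →* C) (ϑ : G × P → ℂ),
      (∀ x, d x = 1 → D (x, 1) = 1) → BV D ⊥ N ϑ → ∀ (x y : G) (p : P), D (x, p) = 1 →
      d x = d y → ϑ (x, p) = ϑ (y, p))
    (f : d.ker →* Q) (hf : ∀ x : Q, ∃ a : G, ∀ s, x * f s * x⁻¹ = f (MulAut.conjNormal a s))
    (θ : Q → ℂ) (hθ : Virt θ) (hN : ∀ g, ‖θ g‖ ≤ N) (x : Q) (s : d.ker) :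
    θ (x * f s) = θ x := by
  classical
  obtain ⟨a, ha⟩ := hf x
  let T : Subgroup (Q × G) :=
    { carrier := {w | ∀ s, w.1 * f s * w.1⁻¹ = f (MulAut.conjNormal w.2 s)}
      one_mem' := fun s => by simp
      mul_mem' := by
        rintro ⟨x, a⟩ ⟨y, b⟩ hx hy s
        have h1 : x * y * f s * (x * y)⁻¹ = x * (y * f s * y⁻¹) * x⁻¹ := by group
        change x * y * f s * (x * y)⁻¹ = f (MulAut.conjNormal (a * b) s)
        have hx' : ∀ s, x * f s * x⁻¹ = f (MulAut.conjNormal a s) := hx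
        have hy' : ∀ s, y * f s * y⁻¹ = f (MulAut.conjNormal b s) := hy
        rw [h1, hy', hx', map_mul, MulAut.mul_apply]
      inv_mem' := by
        rintro ⟨x, a⟩ hx s
        have hx' : ∀ s, x * f s * x⁻¹ = f (MulAut.conjNormal a s) := hx
        change x⁻¹ * f s * x⁻¹⁻¹ = f (MulAut.conjNormal a⁻¹ s)
        have h1 := hx' (MulAut.conjNormal a⁻¹ s)
        have h2 : MulAut.conjNormal a (MulAut.conjNormal a⁻¹ s) = s := by
          rw [← MulAut.mul_apply, ← map_mul, mul_inv_cancel, map_one, MulAut.one_apply]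
        rw [h2] at h1
        rw [← h1]
        group }
  let P : Subgroup (Q × G) := Subgroup.zpowers (x, a)
  have haT : (x, a) ∈ T := ha
  have hPT : P ≤ T := (Subgroup.zpowers_le (H := T)).2 haT
  let ξ : P →* Q := (MonoidHom.fst Q G).comp P.subtype
  let α : P →* G := (MonoidHom.snd Q G).comp P.subtype
  have hP : ∀ (p : P) s, ξ p * f s * (ξ p)⁻¹ = f (MulAut.conjNormal (α p) s) :=
    fun p s => hPT p.2 s
  let D : G × P →* C := dD d α
  let F₀ : D.ker →* Q := dF d α f ξ hP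
  have hF₀ : ∀ w : D.ker, F₀ w = f (dS d α w) * ξ (w : G × P).2 := fun w => rfl
  let ϑ : G × P → ℂ := fun w => if h : w ∈ D.ker then θ (F₀ ⟨w, h⟩) else 0
  have hϑ : ∀ (w) (h : w ∈ D.ker), ϑ w = θ (F₀ ⟨w, h⟩) := fun w h => dif_pos h
  have hBV : BV D ⊥ N ϑ := by
    refine ⟨fun B _ _ φ hφ => ?_, fun g hg => ?_⟩
    · have hφ' : ∀ b, φ b ∈ D.ker := fun b => MonoidHom.mem_ker.2 (Subgroup.mem_bot.1 (hφ b))
      have h1 := hθ.comp (F₀.comp (φ.codRestrict D.ker hφ'))
      have h2 : (fun b => ϑ (φ b)) = fun b => θ ((F₀.comp (φ.codRestrict D.ker hφ')) b) := by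
        funext b
        exact hϑ _ (hφ' b)
      rw [h2]
      exact h1
    · have hg' : g ∈ D.ker := MonoidHom.mem_ker.2 (Subgroup.mem_bot.1 hg)
      rw [hϑ g hg']
      exact hN _
  have hD1 : ∀ y : G, d y = 1 → D (y, 1) = 1 := by
    intro y hy
    change dD d α (y, 1) = 1
    rw [dD_apply, hy, map_one, map_one, inv_one, one_mul]
  let p : P := ⟨(x, a), Subgroup.mem_zpowers _⟩
  have hαp : α p = a := rfl
  have hξp : ξ p = x := rfl
  obtain ⟨s', hs'⟩ : ∃ s' : d.ker, s' = MulAut.conjNormal a s := ⟨_, rfl⟩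
  have hdet : d ((s' : G) * a) = d a := by
    rw [map_mul, MonoidHom.mem_ker.1 s'.2, one_mul]
  have hk1 : (a, p) ∈ D.ker := by
    rw [MonoidHom.mem_ker]
    change d a * (d (α p))⁻¹ = 1
    rw [hαp, mul_inv_cancel]
  have hk2 : ((s' : G) * a, p) ∈ D.ker := by
    rw [MonoidHom.mem_ker]
    change d ((s' : G) * a) * (d (α p))⁻¹ = 1
    rw [hαp, hdet, mul_inv_cancel]
  have hmain := hlin P D ϑ hD1 hBV ((s' : G) * a) a p (MonoidHom.mem_ker.1 hk2) hdet
  rw [hϑ _ hk1, hϑ _ hk2, hF₀, hF₀] at hmain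
  have e1 : dS d α ⟨((s' : G) * a, p), hk2⟩ = s' := by
    apply Subtype.ext
    change (s' : G) * a * a⁻¹ = s'
    rw [mul_inv_cancel_right]
  have e2 : dS d α ⟨(a, p), hk1⟩ = 1 := by
    apply Subtype.ext
    change a * a⁻¹ = 1
    rw [mul_inv_cancel]
  rw [e1, e2, map_one, one_mul] at hmain
  change θ (f s' * x) = θ x at hmain
  rw [hs', ← ha s, inv_mul_cancel_right] at hmain
  exact hmain

/-- **Rigidity.** Let `S` be the image of `SL_n(K)` in a finite group `Q` all of whose elements act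
on the image as elements of `GL_n(K)`; bounded virtual characters of `Q` are constant on the cosets
of `S` if `n` is large. -/
theorem rigid (N : ℝ) : ∃ n₀ : ℕ, ∀ (n : ℕ) (K Q : Type) [Field K] [Finite K] [Group Q] [Finite Q]
    (f : Matrix.SpecialLinearGroup (Fin n) K →* Q), n₀ ≤ n →
    (∀ x : Q, ∃ a : GL (Fin n) K, ∀ s t : Matrix.SpecialLinearGroup (Fin n) K,
      (a : Matrix (Fin n) (Fin n) K) * (s : Matrix (Fin n) (Fin n) K) =
        (t : Matrix (Fin n) (Fin n) K) * (a : Matrix (Fin n) (Fin n) K) → x * f s = f t * x) →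
    ∀ θ : Q → ℂ, Virt θ → (∀ g, ‖θ g‖ ≤ N) → ∀ x s, θ (x * f s) = θ x := by
  classical
  obtain ⟨n₀, hn₀⟩ := linear_G N
  refine ⟨n₀, ?_⟩
  intro n K Q _ _ _ _ f hn hf θ hθ hN x s
  let d : GL (Fin n) K →* Kˣ := Matrix.GeneralLinearGroup.det
  let L : GL (Fin n) K ≃* ((Fin n → K) ≃ₗ[K] (Fin n → K)) :=
    Matrix.GeneralLinearGroup.toLin.trans
      (LinearMap.GeneralLinearGroup.generalLinearEquiv K (Fin n → K))
  have hL : ∀ g, LinearEquiv.det (L g) = d g := by
    intro g
    apply Units.ext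
    rw [LinearEquiv.coe_det]
    change LinearMap.det (Matrix.toLin' (g : Matrix (Fin n) (Fin n) K)) = _
    rw [LinearMap.det_toLin']
    rfl
  let j : d.ker →* Matrix.SpecialLinearGroup (Fin n) K :=
    { toFun := fun g => ⟨((g : GL (Fin n) K) : Matrix (Fin n) (Fin n) K), by
        have h1 := congrArg Units.val (MonoidHom.mem_ker.1 g.2)
        exact h1⟩
      map_one' := rfl
      map_mul' := fun g h => rfl }
  have hj : ∀ g : d.ker, ((j g : Matrix.SpecialLinearGroup (Fin n) K) :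
    Matrix (Fin n) (Fin n) K) = ((g : GL (Fin n) K) : Matrix (Fin n) (Fin n) K) := fun g => rfl
  have hfin : Finite (GL (Fin n) K) := inferInstance
  have hmain := rigid_abs d N (fun P _ _ D ϑ hD hϑ x y p hx hxy => by
    let E : ((Fin n → K) ≃ₗ[K] (Fin n → K)) × P →* GL (Fin n) K × P :=
      MonoidHom.prodMap L.symm.toMonoidHom (MonoidHom.id P)
    have hE : ∀ u p, E (u, p) = (L.symm u, p) := fun u p => rfl
    have h1 := hn₀ K (Fin n → K) P Kˣ (D.comp E) ⊥ (fun v => ϑ (E v)) (fun u hu => by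
      rw [MonoidHom.comp_apply, hE]
      apply hD
      rw [← hL, L.apply_symm_apply]
      exact hu) (hϑ.comap E) (by rw [Module.finrank_fin_fun]; exact hn) (L x) (L y) p (by
        rw [MonoidHom.comp_apply, hE, L.symm_apply_apply, hx]
        exact one_mem _) (by rw [hL, hL, hxy])
    simp only [hE, L.symm_apply_apply] at h1
    exact h1) (f.comp j) (fun x => by
      obtain ⟨a, ha⟩ := hf x
      refine ⟨a, fun s => ?_⟩
      have h1 := ha (j s) (j (MulAut.conjNormal a s)) (by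
        rw [hj, hj]
        have h2 : (a * (s : GL (Fin n) K) : GL (Fin n) K) =
            ((MulAut.conjNormal a s : d.ker) : GL (Fin n) K) * a := by
          rw [MulAut.conjNormal_apply, inv_mul_cancel_right]
        exact congrArg (fun u : GL (Fin n) K => (u : Matrix (Fin n) (Fin n) K)) h2)
      change x * f (j s) * x⁻¹ = f (j (MulAut.conjNormal a s))
      rw [h1, mul_inv_cancel_right]) θ hθ hN x
  -- all elements of `SL_n(K)` are obtained
  have hs : ∃ g : d.ker, j g = s := by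
    refine ⟨⟨Matrix.SpecialLinearGroup.toGL s, ?_⟩, ?_⟩
    · rw [MonoidHom.mem_ker]
      apply Units.ext
      change Matrix.det (s : Matrix (Fin n) (Fin n) K) = 1
      exact s.2
    · apply Subtype.ext
      rfl
  obtain ⟨g, rfl⟩ := hs
  exact hmain g

end Pool.Agent.TH820.LG
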