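import Mathlib
import Pool.Agent.TH820.LG.S
import Pool.Agent.TH526.DS.Cam

/-! # Irreducible characters that are not trivial on a normal subgroup -/

set_option autoImplicit false
set_option linter.unusedSectionVars false

namespace Pool.Agent.TH820.LG

open Pool.Agent.H541R3.ART Pool.Agent.W446.AS

section
variable {Q : Type} [Group Q] [Finite Q]

open Classical in
/-- a chosen representation for each irreducible character -/
noncomputable def repM (χ : Q → ℂ) : Σ n : ℕ, Representation ℂ Q (Fin n → ℂ) :=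
  if h : χ ∈ Irr Q then ⟨h.choose, h.choose_spec.choose⟩ else ⟨0, 1⟩

lemma repM_spec {χ : Q → ℂ} (h : χ ∈ Irr Q) :
    (repM χ).2.IsIrreducible ∧ χ = (repM χ).2.character := by
  unfold repM
  rw [dif_pos h]
  exact h.choose_spec.choose_spec

lemma repM_one {χ : Q → ℂ} (h : χ ∈ Irr Q) : χ 1 = ((repM χ).1 : ℂ) := by
  have h1 := congrFun (repM_spec h).2 1
  rw [h1, Representation.char_one, Module.finrank_fin_fun]

lemma comb_irr [Fintype Q] (g : Q) (u : ℂ) (hu : ‖u‖ = 1) :
    ∑ q, ‖∑ χ ∈ irrF Q, (((u * χ g).re : ℝ) : ℂ) * χ q⁻¹‖ ≤ Nat.card Q := by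
  classical
  have h1 := Pool.Agent.W353.L1.comb_le (irrF Q) (fun χ => (repM χ).2)
    (fun χ hχ => (repM_spec (mem_irrF.1 hχ)).1)
    (fun χ hχ ψ hψ hne => ⟨fun e => hne (by
      rw [(repM_spec (mem_irrF.1 hχ)).2, (repM_spec (mem_irrF.1 hψ)).2]
      exact Representation.char_iso e)⟩)
    (by
      have h2 := reg_expand (H := Q) 1
      rw [if_pos rfl] at h2
      have h3 : ((∑ χ ∈ irrF Q, (repM χ).1 ^ 2 : ℕ) : ℂ) = (Nat.card Q : ℂ) := by
        rw [← h2]
        push_cast
        refine Finset.sum_congr rfl fun χ hχ => ?_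
        rw [repM_one (mem_irrF.1 hχ), sq]
      exact_mod_cast h3) g u hu
  refine le_trans (le_of_eq ?_) h1
  refine Finset.sum_congr rfl fun q _ => ?_
  congr 1
  refine Finset.sum_congr rfl fun χ hχ => ?_
  rw [← (repM_spec (mem_irrF.1 hχ)).2]

open Classical in
/-- the mean values over the cosets of `S` vanish -/
def isN [Fintype Q] (S : Subgroup Q) (χ : Q → ℂ) : Prop :=
  ∀ g, ∑ x, (if x ∈ S then (1 : ℂ) else 0) * χ (g * x) = 0

open Classical in
lemma old_sum [Fintype Q] (S : Subgroup Q) [S.Normal] {χ : Q → ℂ} (hχ : χ ∈ Irr Q)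
    (h : ¬ isN S χ) (g : Q) :
    ∑ x, (if x ∈ S then (1 : ℂ) else 0) * χ (g * x) = Nat.card S * χ g := by
  obtain ⟨n, ρ, hρ, rfl⟩ := hχ
  have htriv : ∀ a ∈ S, ρ a = 1 := by
    by_contra hcon
    push Not at hcon
    exact h fun g => Pool.Agent.TH526.DS.char_sum_zero ρ hρ S hcon g
  have h1 : ∀ x, (if x ∈ S then (1 : ℂ) else 0) * ρ.character (g * x) =
      (if x ∈ S then (1 : ℂ) else 0) * ρ.character g := by
    intro x
    by_cases hx : x ∈ S
    · have h2 : ρ.character (g * x) = ρ.character g := by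
        unfold Representation.character
        rw [map_mul, htriv x hx, mul_one]
      rw [h2]
    · rw [if_neg hx, zero_mul, zero_mul]
  rw [Finset.sum_congr rfl fun x _ => h1 x, ← Finset.sum_mul, Finset.sum_boole,
    Nat.card_eq_fintype_card, Fintype.card_subtype]

open Classical in
lemma comb_new [Fintype Q] (S : Subgroup Q) [S.Normal] (g : Q) (u : ℂ) (hu : ‖u‖ = 1) :
    ∑ q, ‖∑ χ ∈ (irrF Q).filter (isN S), (((u * χ g).re : ℝ) : ℂ) * χ q⁻¹‖ ≤
      2 * Nat.card Q := by
  have h0 := comb_irr g u hu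
  set f : Q → ℂ := fun q => ∑ χ ∈ irrF Q, (((u * χ g).re : ℝ) : ℂ) * χ q⁻¹ with hf
  set fo : Q → ℂ := fun q => ∑ χ ∈ (irrF Q).filter (fun χ => ¬ isN S χ),
    (((u * χ g).re : ℝ) : ℂ) * χ q⁻¹ with hfo
  have hS : (0 : ℝ) < Nat.card S := by exact_mod_cast Nat.card_pos
  have h1 : ∀ q, ∑ x, (if x ∈ S then (1 : ℂ) else 0) * f (x⁻¹ * q) = Nat.card S * fo q := by
    intro q
    rw [hf, hfo]
    simp only [Finset.mul_sum]
    rw [Finset.sum_comm, ← Finset.sum_filter_add_sum_filter_not (irrF Q) (isN S)]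
    have e1 : ∀ χ ∈ (irrF Q).filter (isN S), ∑ x, (if x ∈ S then (1 : ℂ) else 0) *
        ((((u * χ g).re : ℝ) : ℂ) * χ (x⁻¹ * q)⁻¹) = 0 := by
      intro χ hχ
      have h2 : isN S χ := (Finset.mem_filter.1 hχ).2
      have h3 := h2 q⁻¹
      have e2 : ∀ x, (if x ∈ S then (1 : ℂ) else 0) *
          ((((u * χ g).re : ℝ) : ℂ) * χ (x⁻¹ * q)⁻¹) =
          (((u * χ g).re : ℝ) : ℂ) * ((if x ∈ S then (1 : ℂ) else 0) * χ (q⁻¹ * x)) := by
        intro x
        rw [mul_inv_rev, inv_inv]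
        ring
      rw [Finset.sum_congr rfl fun x _ => e2 x, ← Finset.mul_sum, h3, mul_zero]
    have e2 : ∀ χ ∈ (irrF Q).filter (fun χ => ¬ isN S χ),
        ∑ x, (if x ∈ S then (1 : ℂ) else 0) * ((((u * χ g).re : ℝ) : ℂ) * χ (x⁻¹ * q)⁻¹) =
        Nat.card S * ((((u * χ g).re : ℝ) : ℂ) * χ q⁻¹) := by
      intro χ hχ
      have h2 : ¬ isN S χ := (Finset.mem_filter.1 hχ).2
      have h3 := old_sum S (mem_irrF.1 (Finset.mem_filter.1 hχ).1) h2 q⁻¹
      have e2 : ∀ x, (if x ∈ S then (1 : ℂ) else 0) *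
          ((((u * χ g).re : ℝ) : ℂ) * χ (x⁻¹ * q)⁻¹) =
          (((u * χ g).re : ℝ) : ℂ) * ((if x ∈ S then (1 : ℂ) else 0) * χ (q⁻¹ * x)) := by
        intro x
        rw [mul_inv_rev, inv_inv]
        ring
      rw [Finset.sum_congr rfl fun x _ => e2 x, ← Finset.mul_sum, h3]
      ring
    rw [Finset.sum_congr rfl e1, Finset.sum_congr rfl e2, Finset.sum_const_zero, zero_add]
  have h2 : ∑ q, ‖fo q‖ ≤ Nat.card Q := by
    have h3 : (Nat.card S : ℝ) * ∑ q, ‖fo q‖ ≤ Nat.card S * Nat.card Q := by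
      calc (Nat.card S : ℝ) * ∑ q, ‖fo q‖ = ∑ q, ‖(Nat.card S : ℂ) * fo q‖ := by
            rw [Finset.mul_sum]
            refine Finset.sum_congr rfl fun q _ => ?_
            rw [norm_mul, Complex.norm_natCast]
        _ ≤ ∑ q, ∑ x, (if x ∈ S then (1 : ℝ) else 0) * ‖f (x⁻¹ * q)‖ := by
            refine Finset.sum_le_sum fun q _ => ?_
            rw [← h1]
            refine (norm_sum_le _ _).trans (le_of_eq ?_)
            refine Finset.sum_congr rfl fun x _ => ?_
            rw [norm_mul]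
            congr 1
            split_ifs <;> simp
        _ = ∑ x, (if x ∈ S then (1 : ℝ) else 0) * ∑ q, ‖f q‖ := by
            rw [Finset.sum_comm]
            refine Finset.sum_congr rfl fun x _ => ?_
            rw [← Finset.mul_sum]
            congr 1
            exact Equiv.sum_comp (Equiv.mulLeft x⁻¹) (fun q => ‖f q‖)
        _ ≤ ∑ x : Q, (if x ∈ S then (1 : ℝ) else 0) * Nat.card Q := by
            refine Finset.sum_le_sum fun x _ => mul_le_mul_of_nonneg_left h0 ?_
            split_ifs <;> norm_num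
        _ = Nat.card S * Nat.card Q := by
            rw [← Finset.sum_mul, Finset.sum_boole, Nat.card_eq_fintype_card (α := S),
              Fintype.card_subtype]
    exact le_of_mul_le_mul_left h3 hS
  have h3 : ∀ q, ∑ χ ∈ (irrF Q).filter (isN S), (((u * χ g).re : ℝ) : ℂ) * χ q⁻¹ =
      f q - fo q := by
    intro q
    rw [hf, hfo, eq_sub_iff_add_eq]
    exact Finset.sum_filter_add_sum_filter_not (irrF Q) (isN S) _
  calc ∑ q, ‖∑ χ ∈ (irrF Q).filter (isN S), (((u * χ g).re : ℝ) : ℂ) * χ q⁻¹‖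
      ≤ ∑ q, (‖f q‖ + ‖fo q‖) := by
        refine Finset.sum_le_sum fun q _ => ?_
        rw [h3]
        exact norm_sub_le _ _
    _ ≤ 2 * Nat.card Q := by
        rw [Finset.sum_add_distrib, two_mul]
        exact add_le_add h0 h2

/-- **Rigidity kills the new characters.** -/
lemma zero_of_const [Fintype Q] (S : Subgroup Q) (m : (Q → ℂ) → ℤ)
    (hm : ∀ χ ∈ Irr Q, ¬ isN S χ → m χ = 0)
    (hconst : ∀ g, ∀ s ∈ S, (theta m : Q → ℂ) (g * s) = theta m g) (χ : Q → ℂ) (hχ : χ ∈ Irr Q) :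
    m χ = 0 := by
  classical
  have hS : (Nat.card S : ℂ) ≠ 0 := by exact_mod_cast Nat.card_pos.ne'
  have h1 : ∀ g, (theta m : Q → ℂ) g = 0 := by
    intro g
    have h2 : ∑ x, (if x ∈ S then (1 : ℂ) else 0) * (theta m : Q → ℂ) (g * x) =
        Nat.card S * theta m g := by
      have h3 : ∀ x, (if x ∈ S then (1 : ℂ) else 0) * (theta m : Q → ℂ) (g * x) =
          (if x ∈ S then (1 : ℂ) else 0) * theta m g := by
        intro x
        by_cases hx : x ∈ S
        · rw [hconst g x hx]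
        · rw [if_neg hx, zero_mul, zero_mul]
      rw [Finset.sum_congr rfl fun x _ => h3 x, ← Finset.sum_mul, Finset.sum_boole,
        Nat.card_eq_fintype_card, Fintype.card_subtype]
    have h4 : ∑ x, (if x ∈ S then (1 : ℂ) else 0) * (theta m : Q → ℂ) (g * x) = 0 := by
      unfold theta
      simp only [Finset.mul_sum]
      rw [Finset.sum_comm]
      refine Finset.sum_eq_zero fun χ hχ => ?_
      by_cases hN : isN S χ
      · have e2 : ∀ x, (if x ∈ S then (1 : ℂ) else 0) * ((m χ : ℂ) * χ (g * x)) =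
            (m χ : ℂ) * ((if x ∈ S then (1 : ℂ) else 0) * χ (g * x)) := fun x => by ring
        rw [Finset.sum_congr rfl fun x _ => e2 x, ← Finset.mul_sum, hN g, mul_zero]
      · rw [hm χ (mem_irrF.1 hχ) hN]
        simp
    rw [h2] at h4
    exact (mul_eq_zero.1 h4).resolve_left hS
  have h2 := theta_pair m hχ
  simp only [h1, zero_mul, Finset.sum_const_zero] at h2
  have h3 : (m χ : ℂ) = 0 := by
    rcases mul_eq_zero.1 h2.symm with h | h
    · exact h
    · exact absurd h (by exact_mod_cast Nat.card_pos.ne')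
  exact_mod_cast h3

end

end Pool.Agent.TH820.LG
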