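import Mathlib
import Pool.Agent.TH820.LG.V1

/-! # Rigid pairs of number fields -/

set_option autoImplicit false
set_option linter.unusedSectionVars false

namespace Pool.Agent.TH820.LG

open Complex Filter Topology ComplexConjugate NumberField IsDedekindDomain Polynomial
  Pool.Agent.W401.Cheb Pool.Agent.W540.BE Pool.Agent.W353.L1 Pool.Agent.W353.AT
open Pool.Agent.W353.NF (act act_apply fixn fixn_inv cz abs_cz fixn_le SzH vx)
open Pool.Agent.W353.TP (HX)
open Pool.Agent.H341R2 (lam)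
open Pool.Agent.TH526.DS (IsNew heightFactor normal_fix sup1 exists_unit char_sum_zero)
open Pool.Agent.H541R3.ART (theta irrF mem_irrF)
open Pool.Agent.W446.AS (Virt theta_virt)

section
variable {K : Type} [Field K] [NumberField K]

/-- Bounded virtual characters of `Gal(F/K)` are constant on the cosets of `Gal(F/M)`. -/
def RigidPair (c : ℝ) (M F : IntermediateField K (AlgebraicClosure K)) : Prop :=
  ∀ (_ : F.fixingSubgroup.Normal) (θ : GK K ⧸ F.fixingSubgroup → ℂ), Virt θ →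
    (∀ g, ‖θ g‖ ≤ c) → ∀ (g : GK K ⧸ F.fixingSubgroup), ∀ a ∈ M.fixingSubgroup,
      θ (g * QuotientGroup.mk a) = θ g

variable {T : HeightOneSpectrum (𝓞 K) → ℝ} {s : ℝ} (hs : 0 ≤ s) (hT : ∀ v, |T v| ≤ s)
  {σ : HeightOneSpectrum (𝓞 K) → GK K} (hσ : ∀ v, IsFrob v (σ v)) {τ : ℝ}
  {M F : IntermediateField K (AlgebraicClosure K)} [NumberField M] [NumberField F]
  (hM : IsGalois K M) (hF : IsGalois K F) (hMF : M ≤ F)

include hs hT hσ hM hF hMF in
/-- **Integral limits of the new characters are zero.** -/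
theorem new_zero (hrig : RigidPair (2 * (s * heightFactor τ)) M F)
    (H : ∀ (n : ℕ) (χ : Representation ℂ (GK K) (Fin n → ℂ)), IsNew M F χ →
      ∃ δ : ℤ, Lim T σ ⟨n, χ⟩ τ δ) {n : ℕ}
    (χ : Representation ℂ (GK K) (Fin n → ℂ)) (hχ : IsNew M F χ) {δ : ℤ}
    (h : Lim T σ ⟨n, χ⟩ τ δ) : δ = 0 := by
  classical
  obtain ⟨hUo, hUn⟩ := normal_fix F hF
  obtain ⟨hAo, hAn⟩ := normal_fix M hM
  have hfin : Finite (GK K ⧸ F.fixingSubgroup) := Subgroup.quotient_finite_of_isOpen _ hUo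
  let _ : Fintype (GK K ⧸ F.fixingSubgroup) := Fintype.ofFinite _
  set Ab : Subgroup (GK K ⧸ F.fixingSubgroup) :=
    M.fixingSubgroup.map (QuotientGroup.mk' F.fixingSubgroup) with hAb
  have hAbn : Ab.Normal := hAn.map _ (QuotientGroup.mk'_surjective _)
  set x : (GK K ⧸ F.fixingSubgroup → ℂ) → MRep (GK K) := fun ψ => infl F.fixingSubgroup (repM ψ)
    with hx
  have hxtriv : ∀ ψ, ∀ u ∈ F.fixingSubgroup, (x ψ).2 u = 1 := fun ψ u hu => infl_triv _ _ u hu
  have hxchar : ∀ ψ ∈ Pool.Agent.H541R3.ART.Irr (GK K ⧸ F.fixingSubgroup), ∀ g,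
      (x ψ).2.character g = ψ (QuotientGroup.mk g) := by
    intro ψ hψ g
    have h1 : (x ψ).2.character g = (repM ψ).2.character (QuotientGroup.mk g) :=
      infl_char F.fixingSubgroup (repM ψ) g
    rw [h1]
    exact (congrFun (repM_spec hψ).2 (QuotientGroup.mk g)).symm
  have hnew : ∀ ψ ∈ Pool.Agent.H541R3.ART.Irr (GK K ⧸ F.fixingSubgroup), isN Ab ψ →
      IsNew M F (x ψ).2 := by
    intro ψ hψ hN
    refine ⟨infl_irr _ _ (repM_spec hψ).1, hxtriv ψ, ?_⟩
    by_contra hcon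
    push Not at hcon
    have h1 := hN 1
    have h2 : ∀ y, (if y ∈ Ab then (1 : ℂ) else 0) * ψ (1 * y) =
        (if y ∈ Ab then (1 : ℂ) else 0) * ψ 1 := by
      intro y
      by_cases hy : y ∈ Ab
      · obtain ⟨a, ha, rfl⟩ := hy
        rw [one_mul]
        have h3 : ψ (QuotientGroup.mk' F.fixingSubgroup a) = ψ 1 := by
          have h4 := hxchar ψ hψ a
          have h5 := hxchar ψ hψ 1
          change ψ (QuotientGroup.mk a) = ψ (QuotientGroup.mk 1)
          have h6 : (x ψ).2 a = (x ψ).2 1 := by rw [hcon a ha, map_one]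
          rw [← h4, ← h5]
          unfold Representation.character
          rw [h6]
        rw [h3]
      · rw [if_neg hy, zero_mul, zero_mul]
    rw [Finset.sum_congr rfl fun y _ => h2 y, ← Finset.sum_mul, mul_eq_zero] at h1
    rcases h1 with h1 | h1
    · rw [Finset.sum_boole, Nat.cast_eq_zero, Finset.card_eq_zero,
        Finset.filter_eq_empty_iff] at h1
      exact h1 (Finset.mem_univ 1) Ab.one_mem
    · rw [repM_one hψ, Nat.cast_eq_zero] at h1
      have h3 := (repM_spec hψ).1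
      have h4 : 0 < (repM ψ).1 := by
        have h5 := dim_pos F.fixingSubgroup (fun _ : Unit => (x ψ).2) (fun _ => hxtriv ψ)
          (k := ()) (infl_irr _ _ (repM_spec hψ).1)
        exact h5
      omega
  -- the multiplicities
  set m : (GK K ⧸ F.fixingSubgroup → ℂ) → ℤ := fun ψ =>
    if hψ : ψ ∈ Pool.Agent.H541R3.ART.Irr (GK K ⧸ F.fixingSubgroup) ∧ isN Ab ψ then
      (H _ _ (hnew ψ hψ.1 hψ.2)).choose else 0 with hm
  have hmlim : ∀ ψ, ∀ hψ : ψ ∈ Pool.Agent.H541R3.ART.Irr (GK K ⧸ F.fixingSubgroup) ∧ isN Ab ψ,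
      Lim T σ (x ψ) τ (m ψ) := by
    intro ψ hψ
    rw [hm]
    simp only
    rw [dif_pos hψ]
    exact (H _ _ (hnew ψ hψ.1 hψ.2)).choose_spec
  have hm0 : ∀ ψ ∈ Pool.Agent.H541R3.ART.Irr (GK K ⧸ F.fixingSubgroup), ¬ isN Ab ψ →
      m ψ = 0 := fun ψ _ hN => dif_neg fun h => hN h.2
  have hh : 0 ≤ heightFactor τ := by
    unfold heightFactor
    have := Real.pi_pos
    split_ifs <;> positivity
  set S := (irrF (GK K ⧸ F.fixingSubgroup)).filter (isN Ab) with hS
  have hSmem : ∀ ψ ∈ S, ψ ∈ Pool.Agent.H541R3.ART.Irr (GK K ⧸ F.fixingSubgroup) ∧ isN Ab ψ :=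
    fun ψ hψ => ⟨mem_irrF.1 (Finset.mem_filter.1 hψ).1, (Finset.mem_filter.1 hψ).2⟩
  have hbound : ∀ g, ‖(theta m : GK K ⧸ F.fixingSubgroup → ℂ) g‖ ≤
      2 * (s * heightFactor τ) := by
    intro g
    obtain ⟨u, hu1, hu2⟩ := exists_unit ((theta m : GK K ⧸ F.fixingSubgroup → ℂ) g)
    rw [← hu2]
    set c : (GK K ⧸ F.fixingSubgroup → ℂ) → ℝ := fun ψ => (u * ψ g).re with hc
    have h1 : (u * (theta m : GK K ⧸ F.fixingSubgroup → ℂ) g).re = ∑ ψ ∈ S, c ψ * m ψ := by
      unfold theta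
      rw [Finset.mul_sum, Complex.re_sum, hS, Finset.sum_filter]
      refine Finset.sum_congr rfl fun ψ hψ => ?_
      by_cases hN : isN Ab ψ
      · rw [if_pos hN, hc]
        simp only
        have e2 : u * ((m ψ : ℂ) * ψ g) = ((m ψ : ℝ) : ℂ) * (u * ψ g) := by
          push_cast
          ring
        rw [e2, Complex.re_ofReal_mul]
        ring
      · rw [if_neg hN, hm0 ψ (mem_irrF.1 hψ) hN]
        simp
    rw [h1]
    have h2 : nrm F.fixingSubgroup τ (comb F.fixingSubgroup S (fun ψ => (x ψ).2) hxtriv c) ≤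
        2 * heightFactor τ := by
      refine (nrm_le _ τ _).trans ?_
      have h3 : avR F.fixingSubgroup (fun q => ‖comb F.fixingSubgroup S (fun ψ => (x ψ).2)
          hxtriv c q‖) ≤ 2 := by
        have h4 := comb_new Ab g u hu1
        have e3 : ∀ q, comb F.fixingSubgroup S (fun ψ => (x ψ).2) hxtriv c q =
            ∑ ψ ∈ (irrF (GK K ⧸ F.fixingSubgroup)).filter (isN Ab),
              (((u * ψ g).re : ℝ) : ℂ) * ψ q⁻¹ := by
          intro q
          unfold comb
          refine Finset.sum_congr rfl fun ψ hψ => ?_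
          rw [hc]
          congr 1
          obtain ⟨w, rfl⟩ := QuotientGroup.mk_surjective q
          have h5 := hxchar ψ (hSmem ψ hψ).1 w⁻¹
          exact h5
        unfold avR
        rw [finsum_eq_sum_of_fintype]
        simp only [e3]
        have h0 : (0 : ℝ) < Nat.card (GK K ⧸ F.fixingSubgroup) := by exact_mod_cast Nat.card_pos
        rw [inv_mul_le_iff₀ h0, mul_comm]
        exact h4
      have h5 : heightFactor τ = if τ = 0 then 1 else 2 / Real.pi := by
        unfold heightFactor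
        split_ifs <;> rfl
      rw [← h5, mul_comm (2 : ℝ)]
      exact mul_le_mul_of_nonneg_left h3 hh
    have h3 : ∑ ψ ∈ S, c ψ * m ψ ≤
        s * nrm F.fixingSubgroup τ (comb F.fixingSubgroup S (fun ψ => (x ψ).2) hxtriv c) := by
      refine le_of_forall_pos_le_add fun η hη => ?_
      have h4 := sup1 F.fixingSubgroup hUo S (fun ψ => (x ψ).2) hxtriv τ σ hσ hs hT
        (x := fun ψ ε => (EP (nm K) ε fun v => T v * RR (x ψ).2 τ σ v) / lam ε)
        (fun k _ => by
          simp only [sub_self]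
          exact tendsto_const_nhds) c hη
      have h5 : Tendsto (fun ε : ℝ => ∑ ψ ∈ S, c ψ *
          ((EP (nm K) ε fun v => T v * RR (x ψ).2 τ σ v) / lam ε)) (𝓝[>] 0)
          (𝓝 (∑ ψ ∈ S, c ψ * m ψ)) :=
        tendsto_finsetSum _ fun ψ hψ => (hmlim ψ (hSmem ψ hψ)).const_mul _
      exact le_of_tendsto h5 (h4.mono fun ε hε => (le_abs_self _).trans hε)
    calc ∑ ψ ∈ S, c ψ * m ψ ≤ s * nrm F.fixingSubgroup τ
          (comb F.fixingSubgroup S (fun ψ => (x ψ).2) hxtriv c) := h3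
      _ ≤ s * (2 * heightFactor τ) := mul_le_mul_of_nonneg_left h2 hs
      _ = 2 * (s * heightFactor τ) := by ring
  have hconst : ∀ g, ∀ a ∈ Ab, (theta m : GK K ⧸ F.fixingSubgroup → ℂ) (g * a) =
      theta m g := by
    rintro g _ ⟨a, ha, rfl⟩
    exact hrig hUn (theta m) (theta_virt m) hbound g a ha
  -- the given representation
  set ψ : GK K ⧸ F.fixingSubgroup → ℂ := (qrep F.fixingSubgroup χ hχ.2.1).character with hψd
  have hψ : ψ ∈ Pool.Agent.H541R3.ART.Irr (GK K ⧸ F.fixingSubgroup) :=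
    ⟨n, qrep F.fixingSubgroup χ hχ.2.1, qrep_irr _ χ hχ.2.1 hχ.1, rfl⟩
  have hN : isN Ab ψ := by
    obtain ⟨a, ha, hane⟩ := hχ.2.2
    intro g
    convert char_sum_zero (qrep F.fixingSubgroup χ hχ.2.1) (qrep_irr _ χ hχ.2.1 hχ.1) Ab
      ⟨QuotientGroup.mk a, ⟨a, ha, rfl⟩, hane⟩ g
  have hz := zero_of_const Ab m hm0 hconst ψ hψ
  have hl := hmlim ψ ⟨hψ, hN⟩
  rw [hz] at hl
  have hRR : ∀ v, RR (x ψ).2 τ σ v = RR χ τ σ v := by
    intro v
    unfold RR
    rw [hxchar ψ hψ]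
    rfl
  unfold Lim at hl h
  simp only [hRR] at hl
  have h9 := tendsto_nhds_unique h hl
  exact_mod_cast h9

end

end Pool.Agent.TH820.LG
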