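import Mathlib
import Pool.Agent.TH820.LG.V2

/-! # Permutation characters -/

set_option autoImplicit false
set_option linter.unusedSectionVars false

namespace Pool.Agent.TH820.LG

open Complex Filter Topology ComplexConjugate NumberField IsDedekindDomain Polynomial
  Pool.Agent.W401.Cheb Pool.Agent.W540.BE Pool.Agent.W353.L1 Pool.Agent.W353.AT
open Pool.Agent.W353.NF (act act_apply act_trans fixn fixn_inv cz abs_cz fixn_le SzH vx)
open Pool.Agent.W353.TP (HX)
open Pool.Agent.H341R2 (lam)
open Pool.Agent.TH526.DS (IsNew heightFactor normal_fix sup1 exists_unit char_sum_zero list_split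
  list_swap fd_of_nf)

/-- mean values of permutation characters over normal subgroups -/
lemma avg_perm {Q X Y : Type} [Group Q] [Fintype Q] [Fintype X] [Fintype Y] [DecidableEq X]
    [DecidableEq Y] (ρX : Q →* Equiv.Perm X) (ρY : Q →* Equiv.Perm Y) (A : Subgroup Q)
    [DecidablePred (· ∈ A)] (R : X → Y)
    (hR : ∀ q x, R (ρX q x) = ρY q (R x)) (hRs : Function.Surjective R)
    (hA : ∀ a ∈ A, ∀ y, ρY a y = y) (htr : ∀ x x', R x = R x' → ∃ a ∈ A, ρX a x = x') (g : Q) :
    ∑ q ∈ Finset.univ.filter (· ∈ A), (Finset.univ.filter fun x => ρX (g * q) x = x).card =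
      Nat.card A * (Finset.univ.filter fun y => ρY g y = y).card := by
  classical
  set Nn : X → X → ℕ := fun x x' => (Finset.univ.filter fun a => a ∈ A ∧ ρX a x = x').card
    with hNn
  have h1 : ∀ x x', R x = R x' → Nn x x' = Nn x x := by
    intro x x' h
    obtain ⟨b, hb, hbx⟩ := htr x' x h.symm
    refine Finset.card_bij (fun a _ => b * a) (fun a ha => ?_) (fun a _ a' _ h => ?_)
      (fun a ha => ?_)
    · rw [Finset.mem_filter] at ha ⊢
      refine ⟨Finset.mem_univ _, A.mul_mem hb ha.2.1, ?_⟩
      rw [map_mul, Equiv.Perm.mul_apply, ha.2.2, hbx]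
    · exact mul_left_cancel h
    · rw [Finset.mem_filter] at ha
      refine ⟨b⁻¹ * a, ?_, by rw [mul_inv_cancel_left]⟩
      rw [Finset.mem_filter]
      refine ⟨Finset.mem_univ _, A.mul_mem (A.inv_mem hb) ha.2.1, ?_⟩
      rw [map_mul, Equiv.Perm.mul_apply, ha.2.2, map_inv, Equiv.Perm.inv_eq_iff_eq, hbx]
  have h2 : ∀ x x', R x = R x' → Nn x x' = Nn x' x' := by
    intro x x' h
    obtain ⟨b, hb, hbx⟩ := htr x' x h.symm
    refine Finset.card_bij (fun a _ => a * b) (fun a ha => ?_) (fun a _ a' _ h => ?_)
      (fun a ha => ?_)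
    · rw [Finset.mem_filter] at ha ⊢
      refine ⟨Finset.mem_univ _, A.mul_mem ha.2.1 hb, ?_⟩
      rw [map_mul, Equiv.Perm.mul_apply, hbx, ha.2.2]
    · exact mul_right_cancel h
    · rw [Finset.mem_filter] at ha
      refine ⟨a * b⁻¹, ?_, by rw [inv_mul_cancel_right]⟩
      rw [Finset.mem_filter]
      refine ⟨Finset.mem_univ _, A.mul_mem ha.2.1 (A.inv_mem hb), ?_⟩
      rw [map_mul, Equiv.Perm.mul_apply, map_inv]
      have h3 : (ρX b)⁻¹ x = x' := by rw [Equiv.Perm.inv_eq_iff_eq, hbx]
      rw [h3, ha.2.2]
  have hcA : Nat.card A = (Finset.univ.filter fun a => a ∈ A).card := by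
    rw [Nat.card_eq_fintype_card, Fintype.card_subtype]
  have h3 : ∀ y, ∑ x ∈ Finset.univ.filter (fun x => R x = y), Nn x x = Nat.card A := by
    intro y
    obtain ⟨x₀, hx₀⟩ := hRs y
    have h4 : ∀ x ∈ Finset.univ.filter (fun x => R x = y), Nn x x =
        ((Finset.univ.filter fun a => a ∈ A).filter fun a => ρX a x₀ = x).card := by
      intro x hx
      rw [Finset.mem_filter] at hx
      rw [← h2 x₀ x (by rw [hx₀, hx.2]), hNn]
      simp only
      congr 1
      ext a
      simp
    rw [Finset.sum_congr rfl h4, hcA]
    symm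
    refine Finset.card_eq_sum_card_fiberwise fun a ha => ?_
    have ha' : a ∈ A := by simpa using ha
    have h5 : R (ρX a x₀) = y := by rw [hR, hA a ha', hx₀]
    simpa using h5
  calc ∑ q ∈ Finset.univ.filter (· ∈ A), (Finset.univ.filter fun x => ρX (g * q) x = x).card
      = ∑ q ∈ Finset.univ.filter (· ∈ A), ∑ x, if ρX (g * q) x = x then 1 else 0 := by
        refine Finset.sum_congr rfl fun q _ => ?_
        rw [Finset.card_filter]
    _ = ∑ x, ∑ q ∈ Finset.univ.filter (· ∈ A), if ρX (g * q) x = x then 1 else 0 :=
        Finset.sum_comm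
    _ = ∑ x, if ρY g (R x) = R x then Nn x x else 0 := by
        refine Finset.sum_congr rfl fun x _ => ?_
        rw [← Finset.card_filter]
        split_ifs with hx
        · have h4 : Nn x (ρX g⁻¹ x) = Nn x x := by
            refine h1 _ _ ?_
            rw [hR, map_inv, eq_comm, Equiv.Perm.inv_eq_iff_eq]
            exact hx.symm
          rw [← h4, hNn]
          simp only
          congr 1
          ext q
          simp only [Finset.mem_filter, Finset.mem_univ, true_and]
          refine and_congr_right fun _ => ?_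
          rw [map_mul, Equiv.Perm.mul_apply, map_inv, Equiv.Perm.eq_inv_iff_eq]
        · rw [Finset.card_eq_zero, Finset.filter_eq_empty_iff]
          intro q hq h
          have hq' : q ∈ A := by simpa using hq
          apply hx
          have h5 := congrArg R h
          rw [hR, map_mul, Equiv.Perm.mul_apply, hA q hq'] at h5
          exact h5
    _ = ∑ x ∈ Finset.univ.filter (fun x => ρY g (R x) = R x), Nn x x := by
        rw [Finset.sum_filter]
    _ = ∑ y ∈ Finset.univ.filter (fun y => ρY g y = y),
        ∑ x ∈ (Finset.univ.filter (fun x => ρY g (R x) = R x)).filter (fun x => R x = y),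
          Nn x x := by
        symm
        refine Finset.sum_fiberwise_of_maps_to (g := R) (fun x hx => ?_) _
        simpa using hx
    _ = ∑ y ∈ Finset.univ.filter (fun y => ρY g y = y), Nat.card A := by
        refine Finset.sum_congr rfl fun y hy => ?_
        rw [← h3 y]
        refine Finset.sum_congr ?_ fun _ _ => rfl
        ext x
        simp only [Finset.mem_filter, Finset.mem_univ, true_and] at hy ⊢
        constructor
        · exact fun h => h.2
        · rintro rfl
          exact ⟨hy, rfl⟩
    _ = Nat.card A * (Finset.univ.filter fun y => ρY g y = y).card := by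
        rw [Finset.sum_const, smul_eq_mul, mul_comm]

section
variable {K : Type} [Field K] [NumberField K]

/-- the fixing subgroup of an intersection -/
lemma fix_inf (E M : IntermediateField K (AlgebraicClosure K)) [NumberField E] :
    (E ⊓ M).fixingSubgroup = E.fixingSubgroup ⊔ M.fixingSubgroup := by
  have hfd := fd_of_nf E
  have hE : IsOpen (E.fixingSubgroup : Set (GK K)) := IntermediateField.fixingSubgroup_isOpen E
  have hO : IsOpen ((E.fixingSubgroup ⊔ M.fixingSubgroup : Subgroup (GK K)) : Set (GK K)) :=
    Subgroup.isOpen_mono le_sup_left hE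
  let C : ClosedSubgroup (GK K) :=
    ⟨E.fixingSubgroup ⊔ M.fixingSubgroup, Subgroup.isClosed_of_isOpen _ hO⟩
  have h1 : (IntermediateField.fixedField C.1).fixingSubgroup = C.1 :=
    InfiniteGalois.fixingSubgroup_fixedField C
  have h2 : IntermediateField.fixedField C.1 = E ⊓ M := by
    refine le_antisymm (le_inf ?_ ?_) ?_
    · have h3 := IntermediateField.fixedField_le (F := K) (E := AlgebraicClosure K)
        (H1 := E.fixingSubgroup) (H2 := C.1) le_sup_left
      rwa [InfiniteGalois.fixedField_fixingSubgroup] at h3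
    · have h3 := IntermediateField.fixedField_le (F := K) (E := AlgebraicClosure K)
        (H1 := M.fixingSubgroup) (H2 := C.1) le_sup_right
      rwa [InfiniteGalois.fixedField_fixingSubgroup] at h3
    · rw [IntermediateField.le_iff_le]
      exact sup_le (IntermediateField.fixingSubgroup_le inf_le_left)
        (IntermediateField.fixingSubgroup_le inf_le_right)
  rw [h2] at h1
  exact h1

lemma act_one_of {E F : IntermediateField K (AlgebraicClosure K)} [NumberField E] (h : E ≤ F)
    (hn : F.fixingSubgroup.Normal) (u : GK K) (hu : u ∈ F.fixingSubgroup) : act K E u = 1 := by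
  refine Equiv.ext fun i => ?_
  obtain ⟨g, rfl⟩ := act_trans K E E.val i
  have h1 : g⁻¹ * u * g ∈ E.fixingSubgroup := by
    have h2 := hn.conj_mem u hu g⁻¹
    rw [inv_inv] at h2
    exact IntermediateField.fixingSubgroup_le h h2
  have h2 : act K E (g⁻¹ * u * g) E.val = E.val := by
    rw [act_fix_iff, IntermediateField.fieldRange_val]
    exact h1
  change act K E u (act K E g E.val) = act K E g E.val
  conv_rhs => rw [← h2]
  rw [← Equiv.Perm.mul_apply, ← Equiv.Perm.mul_apply, ← map_mul, ← map_mul]
  congr 2
  group

/-- restriction of embeddings -/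
noncomputable def res (E M : IntermediateField K (AlgebraicClosure K))
    (i : E →ₐ[K] AlgebraicClosure K) : ↥(E ⊓ M) →ₐ[K] AlgebraicClosure K :=
  i.comp (IntermediateField.inclusion inf_le_left)

lemma res_act (E M : IntermediateField K (AlgebraicClosure K)) [NumberField E]
    [NumberField ↥(E ⊓ M)] (g : GK K) (i : E →ₐ[K] AlgebraicClosure K) :
    res E M (act K E g i) = act K ↥(E ⊓ M) g (res E M i) := rfl

lemma res_val (E M : IntermediateField K (AlgebraicClosure K)) :
    res E M E.val = (E ⊓ M).val := rfl

lemma res_surj (E M : IntermediateField K (AlgebraicClosure K)) [NumberField E]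
    [NumberField ↥(E ⊓ M)] : Function.Surjective (res E M) := by
  intro j
  obtain ⟨g, rfl⟩ := act_trans K ↥(E ⊓ M) (E ⊓ M).val j
  exact ⟨act K E g E.val, by rw [res_act, res_val]⟩

lemma res_trans (E M : IntermediateField K (AlgebraicClosure K)) [NumberField E]
    [NumberField ↥(E ⊓ M)] (hM : M.fixingSubgroup.Normal) (i j : E →ₐ[K] AlgebraicClosure K)
    (h : res E M i = res E M j) : ∃ a ∈ M.fixingSubgroup, act K E a i = j := by
  obtain ⟨g, rfl⟩ := act_trans K E E.val i
  obtain ⟨k, rfl⟩ := act_trans K E E.val j
  rw [res_act, res_act, res_val] at h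
  have h1 : g⁻¹ * k ∈ (E ⊓ M).fixingSubgroup := by
    have h2 : act K ↥(E ⊓ M) (g⁻¹ * k) (E ⊓ M).val = (E ⊓ M).val := by
      rw [map_mul, Equiv.Perm.mul_apply, ← h, map_inv, Equiv.Perm.inv_eq_iff_eq]
    rw [act_fix_iff, IntermediateField.fieldRange_val] at h2
    exact h2
  rw [fix_inf, Subgroup.mem_sup_of_normal_right] at h1
  obtain ⟨e, he, a, ha, hea⟩ := h1
  -- `g⁻¹ k = e a = (e a e⁻¹) e`
  have hk : k = g * (e * a * e⁻¹) * g⁻¹ * g * e := by
    have h2 : k = g * (e * a) := by rw [hea, mul_inv_cancel_left]
    rw [h2]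
    group
  refine ⟨g * (e * a * e⁻¹) * g⁻¹, hM.conj_mem _ (hM.conj_mem _ ha e) g, ?_⟩
  have he2 : act K E e E.val = E.val := by
    rw [act_fix_iff, IntermediateField.fieldRange_val]
    exact he
  conv_rhs => rw [hk, map_mul, Equiv.Perm.mul_apply, he2, map_mul, Equiv.Perm.mul_apply]

open Classical in
/-- **The new part of the permutation character.** -/
theorem exists_listE {M F E : IntermediateField K (AlgebraicClosure K)} [NumberField M]
    [NumberField F] [NumberField E] [NumberField ↥(E ⊓ M)] (hM : IsGalois K M)
    (hF : IsGalois K F) (hMF : M ≤ F) (hEF : E ≤ F) :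
    ∃ L : List (MRep (GK K)), (∀ x ∈ L, IsNew M F x.2) ∧
      ∀ g, (fixn K E g : ℂ) - fixn K ↥(E ⊓ M) g = (L.map fun x => x.2.character g).sum := by
  obtain ⟨hUo, hUn⟩ := normal_fix F hF
  obtain ⟨hAo, hAn⟩ := normal_fix M hM
  set U : Subgroup (GK K) := F.fixingSubgroup with hU
  set A : Subgroup (GK K) := M.fixingSubgroup with hA
  have hUA : U ≤ A := IntermediateField.fixingSubgroup_le hMF
  have hfin : Finite (GK K ⧸ U) := Subgroup.quotient_finite_of_isOpen U hUo
  let _ : Fintype (GK K ⧸ U) := Fintype.ofFinite _
  have hact : ∀ u ∈ U, act K E u = 1 := fun u hu => act_one_of hEF hUn u hu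
  have hact' : ∀ u ∈ A, act K ↥(E ⊓ M) u = 1 := fun u hu =>
    act_one_of (F := M) inf_le_right hAn u hu
  obtain ⟨L, hL, hfix⟩ := fix_decomp K E U hact
  set p : MRep (GK K) → Prop := fun x => ∀ a ∈ A, x.2 a = 1 with hp
  refine ⟨L.filter fun x => ¬ p x, fun x hx => ?_, fun g => ?_⟩
  · rw [List.mem_filter] at hx
    obtain ⟨h1, h2⟩ := hx
    refine ⟨(hL x h1).1, (hL x h1).2, ?_⟩
    have h3 : ¬ p x := by simpa using h2
    rw [hp] at h3
    push Not at h3
    exact h3
  · -- the average over `A`
    set Ab : Subgroup (GK K ⧸ U) := A.map (QuotientGroup.mk' U) with hAb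
    have hAbn : Ab.Normal := hAn.map _ (QuotientGroup.mk'_surjective U)
    have hmem : ∀ g : GK K, (QuotientGroup.mk g : GK K ⧸ U) ∈ Ab ↔ g ∈ A := by
      intro g
      rw [hAb, Subgroup.mem_map]
      constructor
      · rintro ⟨a, ha, hag⟩
        have h1 : (QuotientGroup.mk a : GK K ⧸ U) = QuotientGroup.mk g := hag
        rw [QuotientGroup.eq] at h1
        have h2 := A.mul_mem ha (hUA h1)
        rwa [mul_inv_cancel_left] at h2
      · intro h
        exact ⟨g, h, rfl⟩
    set w : GK K ⧸ U → ℂ := fun q => if q ∈ Ab then 1 else 0 with hw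
    set cA : ℂ := ∑ q, w q with hcA
    have hcard : cA = Nat.card Ab := by
      rw [hcA, hw]
      simp only
      rw [Finset.sum_boole, Nat.card_eq_fintype_card, Fintype.card_subtype]
    have hcA0 : cA ≠ 0 := by
      rw [hcard]
      exact_mod_cast Nat.card_pos.ne'
    -- the characters
    have hchar : ∀ x ∈ L, ∀ q : GK K ⧸ U, x.2.character (g * q.out) = if hx : (∀ u ∈ U, x.2 u = 1)
        then (qrep U x.2 hx).character (QuotientGroup.mk g * q) else 0 := by
      intro x hx q
      rw [dif_pos (hL x hx).2]
      conv_rhs => rw [← QuotientGroup.out_eq' q]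
      rfl
    have hav : ∀ x ∈ L, ∑ q, w q * x.2.character (g * q.out) =
        if p x then cA * x.2.character g else 0 := by
      intro x hx
      by_cases h : p x
      · rw [if_pos h, hcA, Finset.sum_mul]
        refine Finset.sum_congr rfl fun q _ => ?_
        by_cases hq : q ∈ Ab
        · have h1 : q.out ∈ A := by
            rw [← hmem, QuotientGroup.out_eq']
            exact hq
          have h2 : x.2.character (g * q.out) = x.2.character g := by
            unfold Representation.character
            rw [map_mul, h _ h1, mul_one]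
          rw [h2]
        · have : w q = 0 := if_neg hq
          rw [this, zero_mul, zero_mul]
      · rw [if_neg h]
        have h3 : ∃ a ∈ Ab, (qrep U x.2 (hL x hx).2) a ≠ 1 := by
          rw [hp] at h
          push Not at h
          obtain ⟨a, ha, hane⟩ := h
          exact ⟨QuotientGroup.mk a, (hmem a).2 ha, hane⟩
        have h4 := char_sum_zero (qrep U x.2 (hL x hx).2) (qrep_irr U x.2 (hL x hx).2 (hL x hx).1)
          Ab h3 (QuotientGroup.mk g)
        rw [← h4]
        refine Finset.sum_congr rfl fun q _ => ?_
        rw [hchar x hx q, dif_pos (hL x hx).2]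
    have hsum1 : ∑ q, w q * (fixn K E (g * q.out) : ℂ) =
        cA * ((L.filter p).map fun x => x.2.character g).sum := by
      have h1 : ∑ q, w q * (fixn K E (g * q.out) : ℂ) =
          ∑ q, w q * (L.map fun x => x.2.character (g * q.out)).sum :=
        Finset.sum_congr rfl fun q _ => by rw [hfix]
      rw [h1, list_swap Finset.univ w (fun x q => x.2.character (g * q.out)) L]
      have h2 : ∀ L' : List (MRep (GK K)), (∀ x ∈ L', x ∈ L) →
          (L'.map fun x => ∑ q, w q * x.2.character (g * q.out)).sum =
          cA * ((L'.filter p).map fun x => x.2.character g).sum := by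
        intro L' hL'
        induction L' with
        | nil => simp
        | cons a L' ih =>
          rw [List.map_cons, List.sum_cons, ih fun y hy => hL' y (List.mem_cons_of_mem _ hy),
            hav a (hL' a List.mem_cons_self)]
          by_cases h : p a
          · rw [if_pos h, List.filter_cons_of_pos (by simpa using h), List.map_cons,
              List.sum_cons]
            ring
          · rw [if_neg h, List.filter_cons_of_neg (by simpa using h), zero_add]
      exact h2 L fun x hx => hx
    have hsum2 : ∑ q, w q * (fixn K E (g * q.out) : ℂ) = cA * fixn K ↥(E ⊓ M) g := by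
      let ρX : GK K ⧸ U →* Equiv.Perm (E →ₐ[K] AlgebraicClosure K) :=
        QuotientGroup.lift U (act K E) hact
      let ρY : GK K ⧸ U →* Equiv.Perm (↥(E ⊓ M) →ₐ[K] AlgebraicClosure K) :=
        QuotientGroup.lift U (act K ↥(E ⊓ M)) fun u hu => hact' u (hUA hu)
      have hX : ∀ γ : GK K, ρX (QuotientGroup.mk γ) = act K E γ := fun γ => rfl
      have hY : ∀ γ : GK K, ρY (QuotientGroup.mk γ) = act K ↥(E ⊓ M) γ := fun γ => rfl
      have h1 := avg_perm ρX ρY Ab (res E M)
        (fun q x => by
          obtain ⟨γ, rfl⟩ := QuotientGroup.mk_surjective q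
          rw [hX, hY, res_act])
        (res_surj E M)
        (fun q hq y => by
          obtain ⟨γ, rfl⟩ := QuotientGroup.mk_surjective q
          rw [hY, hact' γ ((hmem γ).1 hq)]
          rfl)
        (fun i j h => by
          obtain ⟨a, ha, haij⟩ := res_trans E M hAn i j h
          exact ⟨QuotientGroup.mk a, (hmem a).2 ha, by rw [hX]; exact haij⟩)
        (QuotientGroup.mk g)
      have h2 : ∀ q : GK K ⧸ U, fixn K E (g * q.out) =
          (Finset.univ.filter fun x => ρX (QuotientGroup.mk g * q) x = x).card := by
        intro q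
        have h3 : ρX (QuotientGroup.mk g * q) = act K E (g * q.out) := by
          conv_lhs => rw [← QuotientGroup.out_eq' q]
          exact hX (g * q.out)
        rw [h3]
        unfold fixn
        rw [Nat.card_eq_fintype_card, Fintype.card_subtype]
      have h3 : fixn K ↥(E ⊓ M) g =
          (Finset.univ.filter fun y => ρY (QuotientGroup.mk g) y = y).card := by
        rw [hY]
        unfold fixn
        rw [Nat.card_eq_fintype_card, Fintype.card_subtype]
      rw [h3, hcard]
      have h4 : ∑ q, w q * (fixn K E (g * q.out) : ℂ) =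
          ((∑ q ∈ Finset.univ.filter (· ∈ Ab),
            (Finset.univ.filter fun x => ρX (QuotientGroup.mk g * q) x = x).card : ℕ) : ℂ) := by
        push_cast
        rw [Finset.sum_filter]
        refine Finset.sum_congr rfl fun q _ => ?_
        rw [h2, hw]
        simp only
        split_ifs <;> simp
      rw [h4, h1]
      push_cast
      rfl
    have h5 : (fixn K ↥(E ⊓ M) g : ℂ) = ((L.filter p).map fun x => x.2.character g).sum := by
      rw [hsum1] at hsum2
      exact (mul_left_cancel₀ hcA0 hsum2).symm
    rw [h5, hfix g, list_split p]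
    ring

end

end Pool.Agent.TH820.LG
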