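import Mathlib
import Pool.Agent.TH820.LG.V3

/-! # The sizes over the intermediate fields of a rigid pair -/

set_option autoImplicit false
set_option linter.unusedSectionVars false

namespace Pool.Agent.TH820.LG

open Complex Filter Topology ComplexConjugate NumberField IsDedekindDomain Polynomial
  Pool.Agent.W401.Cheb Pool.Agent.W540.BE Pool.Agent.W353.L1 Pool.Agent.W353.AT
open Pool.Agent.W353.NF (act act_apply act_trans fixn fixn_inv cz abs_cz fixn_le SzH vx)
open Pool.Agent.W353.TP (HX)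
open Pool.Agent.H341R2 (lam)
open Pool.Agent.TH526.DS (IsNew heightFactor normal_fix fd_of_nf)

section
variable {K : Type} [Field K] [NumberField K]

variable {T : HeightOneSpectrum (𝓞 K) → ℝ} {s : ℝ} (hs : 0 ≤ s) (hT : ∀ v, |T v| ≤ s)
  {σ : HeightOneSpectrum (𝓞 K) → GK K} (hσ : ∀ v, IsFrob v (σ v)) {τ : ℝ}
  {M F E : IntermediateField K (AlgebraicClosure K)} [NumberField M] [NumberField F]
  [NumberField E] [NumberField ↥(E ⊓ M)]
  (hM : IsGalois K M) (hF : IsGalois K F) (hMF : M ≤ F) (hEF : E ≤ F)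

include hs hT hσ hM hF hMF hEF in
/-- **The difference of the permutation characters.** -/
theorem new_has (hrig : RigidPair (2 * (s * heightFactor τ)) M F)
    (H : ∀ (n : ℕ) (χ : Representation ℂ (GK K) (Fin n → ℂ)), IsNew M F χ →
      ∃ δ : ℤ, Lim T σ ⟨n, χ⟩ τ δ) :
    Has (fun v => T v * (((fixn K E (σ v) : ℝ) - fixn K ↥(E ⊓ M) (σ v)) * cz τ v)) 0 := by
  classical
  obtain ⟨hUo, hUn⟩ := normal_fix F hF
  have hfin : Finite (GK K ⧸ F.fixingSubgroup) := Subgroup.quotient_finite_of_isOpen _ hUo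
  obtain ⟨Ls, hLs, hfix⟩ := exists_listE hM hF hMF hEF
  have h1 := has_list hs hT σ F.fixingSubgroup τ (fun _ => (0 : ℝ)) Ls (fun x hx => by
    refine ⟨(hLs x hx).2.1, ?_⟩
    have hnew : IsNew M F x.2 := hLs x hx
    obtain ⟨δ, hδx⟩ := H x.1 x.2 hnew
    have h2 := new_zero hs hT hσ hM hF hMF hrig H x.2 hnew hδx
    rw [h2, Int.cast_zero] at hδx
    exact hδx)
  refine h1.congr (fun v => ?_) ?_
  · congr 1
    have e1 : ∀ L' : List (MRep (GK K)), (L'.map fun x => RR x.2 τ σ v).sum =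
        ((L'.map fun x => x.2.character (σ v)⁻¹).sum * zz τ v).re := by
      intro L'
      induction L' with
      | nil => simp
      | cons x L' ih =>
        rw [List.map_cons, List.sum_cons, ih, List.map_cons, List.sum_cons, add_mul,
          Complex.add_re]
        rfl
    rw [e1, ← hfix, fixn_inv, fixn_inv]
    unfold cz
    have e2 : ((fixn K E (σ v) : ℕ) : ℂ) - ((fixn K ↥(E ⊓ M) (σ v) : ℕ) : ℂ) =
        (((fixn K E (σ v) : ℝ) - fixn K ↥(E ⊓ M) (σ v) : ℝ) : ℂ) := by push_cast; rfl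
    rw [e2, Complex.re_ofReal_mul]
  · simp

include hs hT hσ hM hF hMF hEF in
/-- **The difference of the sizes.** -/
theorem new_sizes (hrig : RigidPair (2 * (s * heightFactor τ)) M F)
    (H : ∀ (n : ℕ) (χ : Representation ℂ (GK K) (Fin n → ℂ)), IsNew M F χ →
      ∃ δ : ℤ, Lim T σ ⟨n, χ⟩ τ δ)
    {T' : HX K → ℝ} (hTT : ∀ x, T' x = T (vx x)) {A B : ℝ → ℝ}
    (hA : SzH T' (fun v => fixn K E (σ v) * cz τ v) A)
    (hB : SzH T' (fun v => fixn K ↥(E ⊓ M) (σ v) * cz τ v) B) :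
    Tendsto (fun ε => A ε - B ε) (𝓝[>] 0) (𝓝 0) := by
  have h1 := new_has hs hT hσ hM hF hMF hEF hrig H
  have h2 : SzH T' (fun v => (fixn K E (σ v) * cz τ v) + (-1) * (fixn K ↥(E ⊓ M) (σ v) * cz τ v))
      (fun ε => A ε + (-1) * B ε) := by
    refine hA.add (hB.const_mul (-1)) (N := s) (B := Module.finrank ℚ E * 1)
      (B' := Module.finrank ℚ ↥(E ⊓ M) * 1) (fun x => ?_) (fun v => ?_) (fun v => ?_)
    · rw [hTT]
      exact hT _
    · rw [abs_mul, abs_of_nonneg (Nat.cast_nonneg _)]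
      exact mul_le_mul (fixn_le _) (abs_cz _ _) (abs_nonneg _) (Nat.cast_nonneg _)
    · rw [abs_mul, abs_neg, abs_one, one_mul, abs_mul, abs_of_nonneg (Nat.cast_nonneg _)]
      exact mul_le_mul (fixn_le _) (abs_cz _ _) (abs_nonneg _) (Nat.cast_nonneg _)
  have h3 := lim_of_has (T' := T) hTT (h2.congr (Ψ' := fun v =>
    ((fixn K E (σ v) : ℝ) - fixn K ↥(E ⊓ M) (σ v)) * cz τ v) (X' := fun ε => A ε - B ε)
    (fun v => by ring) (fun ε => by ring)) h1
  exact h3

end

end Pool.Agent.TH820.LG
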