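import Mathlib
import Pool.Agent.TH820.LG.V4
import Pool.Agent.TH820.LG.Defs
import Pool.Agent.TH526.DS.CamMain

/-! # Extensions with a large linear group: orders and defects -/

set_option autoImplicit false
set_option linter.unusedSectionVars false

namespace Pool.Agent.TH820.LG

open Complex Filter Topology ComplexConjugate NumberField IsDedekindDomain Polynomial
  Pool.Agent.W401.Cheb Pool.Agent.W540.BE Pool.Agent.W353.L1 Pool.Agent.W353.AT
open Pool.Agent.W353.NF (act fixn cz TT size_fix SzH vx)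
open Pool.Agent.W353.TP (HX)
open Pool.Agent.H341R2 (lam)
open Pool.Agent.W353.EF (LFun)
open Pool.Agent.W353.EH (edgePoint size)
open Pool.Agent.W353.TD (ch rank IsPart Defect syD syD_real size_D tF_sub_le)
open Pool.Agent.W353.PV (tF size_X size_X0 syX syX_real lim_ord)
open Pool.Agent.TH526.DS (IsNew heightFactor normal_fix isNew_artin heightFactor_zero)
open Pool.Agent.W446.AS (Virt)

section
variable {K : Type} [Field K] [NumberField K]

/-- a virtual character along an isomorphism -/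
lemma virt_iso {G H : Type} [Group G] [Finite G] [Group H] [Finite H] (e : G ≃* H) {θ : G → ℂ}
    (h : Virt θ) : Virt (fun x => θ (e.symm x)) := h.comp e.symm.toMonoidHom

/-- **Linear pairs are rigid.** -/
theorem linear_rigid (c : ℝ) : ∃ n₀ : ℕ, ∀ (K : Type) [Field K] [NumberField K] (n : ℕ)
    (M F : IntermediateField K (AlgebraicClosure K)) [NumberField F], n₀ ≤ n → IsGalois K F →
    IsLinearPair n M F → RigidPair c M F := by
  classical
  obtain ⟨n₀, hn₀⟩ := rigid c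
  refine ⟨n₀, ?_⟩
  intro K _ _ n M F _ hn hF hlin hUn θ hθ hb g a ha
  obtain ⟨k, hk1, hk2, f, hrange, hconj⟩ := hlin
  obtain ⟨hUo, -⟩ := normal_fix F hF
  have hfin : Finite (GK K ⧸ F.fixingSubgroup) := Subgroup.quotient_finite_of_isOpen _ hUo
  let r : GK K →* Gal(F/K) := AlgEquiv.restrictNormalHom F
  have hr : Function.Surjective r := AlgEquiv.restrictNormalHom_surjective _
  have hrker : r.ker = F.fixingSubgroup := IntermediateField.restrictNormalHom_ker F
  let e : GK K ⧸ F.fixingSubgroup ≃* Gal(F/K) :=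
    (QuotientGroup.quotientMulEquivOfEq hrker.symm).trans
      (QuotientGroup.quotientKerEquivOfSurjective r hr)
  have he : ∀ γ : GK K, e (QuotientGroup.mk γ) = r γ := fun γ => rfl
  have hfin2 : Finite Gal(F/K) := Finite.of_equiv _ e.toEquiv
  have hmain := hn₀ n k Gal(F/K) f hn hconj (fun x => θ (e.symm x)) (virt_iso e hθ)
    (fun x => hb _)
  obtain ⟨s, hs⟩ := (hrange (r a)).2 (fun x hx => by
    apply Subtype.ext
    have h1 : ((r a x : F) : AlgebraicClosure K) = a (x : AlgebraicClosure K) :=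
      AlgEquiv.restrictNormal_commutes a F x
    rw [h1]
    exact (IntermediateField.mem_fixingSubgroup_iff M a).1 ha _ hx)
  have h1 := hmain (e g) s
  rw [hs] at h1
  simp only [map_mul, MulEquiv.symm_apply_apply] at h1
  have h2 : e.symm (r a) = QuotientGroup.mk a := by
    rw [MulEquiv.symm_apply_eq, he]
  rw [h2] at h1
  exact h1

variable {l : ℕ} {X : Set (MvPolynomial (Fin l) (𝓞 K))}
  {d m i N : ℕ} {V : Type} [AddCommGroup V] [Module ℚ V] [FiniteDimensional ℚ V]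
  {ρ : Representation ℚ (GK K) V}

theorem hf_le_one (τ : ℝ) : 0 ≤ heightFactor τ ∧ heightFactor τ ≤ 1 := by
  unfold heightFactor
  have h := Real.pi_pos
  have h2 := Real.pi_gt_three
  split_ifs
  · exact ⟨zero_le_one, le_rfl⟩
  · refine ⟨by positivity, ?_⟩
    rw [div_le_one h]
    linarith

theorem RigidPair.mono {c c' : ℝ} (h : c' ≤ c) {M F : IntermediateField K (AlgebraicClosure K)}
    (hr : RigidPair c M F) : RigidPair c' M F :=
  fun hU θ hθ hb => hr hU θ hθ fun g => (hb g).trans h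

/-- **The orders over rigid pairs.** -/
theorem rigid_orders (hi : i ≤ 2 * d) {M F : IntermediateField K (AlgebraicClosure K)}
    [NumberField M] [NumberField F] (τ : ℝ) (hM : IsGalois K M) (hF : IsGalois K F)
    (hMF : M ≤ F) (hrig : RigidPair (2 * N) M F)
    (H : ∀ (r : ℕ) (χ : Representation ℂ (GK K) (Fin r → ℂ)), IsNew M F χ →
      ∃ k : ℤ, TwistOrder X d i N χ τ k) :
    (∀ (r : ℕ) (χ : Representation ℂ (GK K) (Fin r → ℂ)), IsNew M F χ →
      ∀ k : ℤ, TwistOrder X d i N χ τ k → k = 0) ∧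
    ∀ (E : IntermediateField K (AlgebraicClosure K)) [NumberField E] [NumberField ↥(E ⊓ M)],
      E ≤ F →
      (∀ (B : HeightOneSpectrum (𝓞 E) → ℂ[X]) (B' : HeightOneSpectrum (𝓞 ↥(E ⊓ M)) → ℂ[X]),
        W353.EH.IsEulerSystem X d i N τ B → W353.EH.IsEulerSystem X d i N τ B' →
        Tendsto (fun ε : ℝ => size i τ B ε - size i τ B' ε) (𝓝[>] 0) (𝓝 0)) ∧
      ∀ k k' : ℤ, W353.EH.OrderOver X d i N E τ k →
        W353.EH.OrderOver X d i N (E ⊓ M : IntermediateField K (AlgebraicClosure K)) τ k' →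
        k = k' := by
  classical
  choose σ hσ using exists_isFrob (F := K)
  have hT : ∀ v, |tF X d i N K v| ≤ (N : ℝ) := fun v => abs_tr_le _ _ _
  have hs0 : (0 : ℝ) ≤ N := Nat.cast_nonneg _
  have hrig' : RigidPair (2 * ((N : ℝ) * heightFactor τ)) M F := hrig.mono (by
    have h1 := mul_le_mul_of_nonneg_left (hf_le_one τ).2 hs0
    linarith)
  have hlimk : ∀ (r : ℕ) (χ : Representation ℂ (GK K) (Fin r → ℂ)), IsNew M F χ → ∀ k : ℤ,
      TwistOrder X d i N χ τ k → Lim (tF X d i N K) σ ⟨r, χ⟩ τ ((-k : ℤ) : ℝ) := by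
    intro r χ hχ k hk
    obtain ⟨hUo, hUn⟩ := normal_fix F hF
    have hfin : Finite (GK K ⧸ F.fixingSubgroup) := Subgroup.quotient_finite_of_isOpen _ hUo
    obtain ⟨B, hB, hord⟩ := hk
    have h1 := (tw_size hi F.fixingSubgroup χ hχ.2.1 τ B hB σ hσ).2
    have h2 := h1.add (tw_lim hi F.fixingSubgroup χ hχ.2.1 τ B hB hord)
    unfold Lim
    rw [zero_add] at h2
    push_cast
    refine h2.congr fun ε => ?_
    ring
  have e0 : ((((i : ℝ) / 2 : ℝ) : ℂ) + 1 + (τ : ℂ) * Complex.I) = edgePoint i τ := edge_eq τ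
  have H' : ∀ (r : ℕ) (χ : Representation ℂ (GK K) (Fin r → ℂ)), IsNew M F χ →
      ∃ δ : ℤ, Lim (tF X d i N K) σ ⟨r, χ⟩ τ δ := by
    intro r χ hχ
    obtain ⟨k, hk⟩ := H r χ hχ
    exact ⟨-k, hlimk r χ hχ k hk⟩
  refine ⟨fun r χ hχ k hk => ?_, fun E _ _ hEF => ?_⟩
  · have h1 := new_zero hs0 hT hσ hM hF hMF hrig' H' χ hχ (hlimk r χ hχ k hk)
    omega
  · have hsz : ∀ (E : IntermediateField K (AlgebraicClosure K)) [NumberField E]
        (B : HeightOneSpectrum (𝓞 E) → ℂ[X]), W353.EH.IsEulerSystem X d i N τ B →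
        (∀ᶠ ε : ℝ in 𝓝[>] 0, LFun B (edgePoint i τ + ε) ≠ 0) ∧
        SzH (TT (syX X d i N)) (fun v => fixn K E (σ v) * cz τ v) (size i τ B) := by
      intro E _ B hB
      have h := size_X hi B hB.1 τ (by rw [e0]; exact hB.2) (fun _ : Fin 0 => (1 : 𝓞 E))
      rw [e0] at h
      exact ⟨h.1, size_fix _ (syX_real X d i N) σ hσ h.2⟩
    have hTT : ∀ x, TT (syX X d i N) x = tF X d i N K (vx x) := by
      intro x
      have e3 : TT (syX X d i N) x =
          ∑ _j ∈ ({()} : Finset Unit), (((tF X d i N K (vx x) : ℝ) : ℂ)).re := rfl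
      rw [e3, Finset.sum_singleton, Complex.ofReal_re]
    have hmain : ∀ (B : HeightOneSpectrum (𝓞 E) → ℂ[X])
        (B' : HeightOneSpectrum (𝓞 ↥(E ⊓ M)) → ℂ[X]),
        W353.EH.IsEulerSystem X d i N τ B → W353.EH.IsEulerSystem X d i N τ B' →
        Tendsto (fun ε : ℝ => size i τ B ε - size i τ B' ε) (𝓝[>] 0) (𝓝 0) :=
      fun B B' hB hB' => new_sizes hs0 hT hσ hM hF hMF hEF hrig' H' hTT (hsz E B hB).2
        (hsz (E ⊓ M) B' hB').2
    refine ⟨hmain, ?_⟩
    have hord : ∀ (E : IntermediateField K (AlgebraicClosure K)) [NumberField E]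
        (B : HeightOneSpectrum (𝓞 E) → ℂ[X]), W353.EH.IsEulerSystem X d i N τ B → ∀ k : ℤ,
        W353.EH.HasOrder i τ B k → Tendsto (size i τ B) (𝓝[>] 0) (𝓝 (-(k : ℝ))) := by
      intro E _ B hB k hk
      obtain ⟨Λ, h1, h2, h3⟩ := hk
      exact lim_ord (hsz E B hB).1 h1 (h2.mono fun s hs hs' => hs (by
        rw [edge_re] at hs'
        exact hs')) h3
    rintro k k' ⟨hn1, B, hB, h1⟩ ⟨hn2, B', hB', h2⟩
    have h3 := hmain B B' hB hB'
    have h4 := (hord E B hB k h1).sub (hord (E ⊓ M) B' hB' k' h2)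
    have h5 := tendsto_nhds_unique h3 h4
    have h6 : (k : ℝ) = k' := by linarith
    exact_mod_cast h6

/-- **The defects over rigid pairs.** -/
theorem rigid_defects (hmd : m ≤ d) (hpart : IsPart X d m N ρ)
    {M F : IntermediateField K (AlgebraicClosure K)}
    [NumberField M] [NumberField F] (hM : IsGalois K M) (hF : IsGalois K F)
    (hMF : M ≤ F) (hrig : RigidPair (2 * ((N - Module.finrank ℚ V : ℕ) : ℝ)) M F)
    (H : ∀ (r : ℕ) (χ : Representation ℂ (GK K) (Fin r → ℂ)), IsNew M F χ →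
      ∃ δ : ℤ, TwistDefect X d m N ρ χ δ) :
    (∀ (r : ℕ) (χ : Representation ℂ (GK K) (Fin r → ℂ)), IsNew M F χ →
      ∀ δ : ℤ, TwistDefect X d m N ρ χ δ → δ = 0) ∧
    ∀ (E : IntermediateField K (AlgebraicClosure K)) [NumberField E] [NumberField ↥(E ⊓ M)],
      E ≤ F →
      (∀ (B : HeightOneSpectrum (𝓞 E) → ℂ[X]) (B' : HeightOneSpectrum (𝓞 ↥(E ⊓ M)) → ℂ[X]),
        W353.EF.IsEulerSystem X d (2 * m) N B → W353.EF.IsEulerSystem X d (2 * m) N B' →
        Tendsto (fun ε : ℝ => (W353.EF.size (2 * m) B ε - rank ρ E) -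
          (W353.EF.size (2 * m) B' ε - rank ρ (E ⊓ M))) (𝓝[>] 0) (𝓝 0)) ∧
      ∀ δ δ' : ℤ, Defect X d m N ρ E δ → Defect X d m N ρ (E ⊓ M) δ' → δ = δ' := by
  classical
  have hi : 2 * m ≤ 2 * d := by omega
  choose σ hσ using exists_isFrob (F := K)
  obtain ⟨hρ, hV⟩ := hpart
  have hgood : ∀ᶠ v in cofinite, |tF X d (2 * m) N K v - ch ρ (σ v)⁻¹| ≤
      (N - Module.finrank ℚ V : ℕ) := by
    refine hV.mono fun v hv => ?_
    obtain ⟨α, h1, h2⟩ := hv (σ v) (hσ v)
    exact tF_sub_le (ρ := ρ) hi (σ := σ v) h1 h2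
  set s : ℕ := N - Module.finrank ℚ V with hs
  have hT : ∀ v, |tC ρ X d (2 * m) N s σ v| ≤ (s : ℝ) := fun v => abs_tC _ _ _ _ _ _ _ _
  have hs0 : (0 : ℝ) ≤ s := Nat.cast_nonneg _
  have hrig' : RigidPair (2 * ((s : ℝ) * heightFactor 0)) M F := hrig.mono (by
    rw [heightFactor_zero, mul_one])
  -- the defects as limits
  have hlimδ : ∀ (r : ℕ) (χ : Representation ℂ (GK K) (Fin r → ℂ)), IsNew M F χ → ∀ δ : ℤ,
      TwistDefect X d m N ρ χ δ →
      Lim (tC ρ X d (2 * m) N s σ) σ ⟨r, χ⟩ 0 ((-δ : ℤ) : ℝ) := by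
    intro r χ hχ δ hδ
    obtain ⟨B, hB, hlim⟩ := hδ
    have h1 := (tw_C (s := s) hi hσ hgood hρ ⟨r, χ⟩ (isNew_artin hF hχ) B hB).2
    have h2 := h1.add (hlim.sub_const (twistRank ρ χ : ℝ))
    unfold Lim
    have e : (0 : ℝ) + ((twistRank ρ χ : ℝ) - δ - twistRank ρ χ) = ((-δ : ℤ) : ℝ) := by
      push_cast
      ring
    rw [e] at h2
    refine h2.congr fun ε => ?_
    ring
  have H' : ∀ (r : ℕ) (χ : Representation ℂ (GK K) (Fin r → ℂ)), IsNew M F χ →
      ∃ δ : ℤ, Lim (tC ρ X d (2 * m) N s σ) σ ⟨r, χ⟩ 0 δ := by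
    intro r χ hχ
    obtain ⟨δ, hδ⟩ := H r χ hχ
    exact ⟨-δ, hlimδ r χ hχ δ hδ⟩
  refine ⟨fun r χ hχ δ hδ => ?_, fun E _ _ hEF => ?_⟩
  · have h1 := new_zero hs0 hT hσ hM hF hMF hrig' H' χ hχ (hlimδ r χ hχ δ hδ)
    omega
  · have hSz : ∀ (E : IntermediateField K (AlgebraicClosure K)) [NumberField E]
        (B : HeightOneSpectrum (𝓞 E) → ℂ[X]), W353.EF.IsEulerSystem X d (2 * m) N B →
        SzH (TT (syD ρ X d (2 * m) N s σ)) (fun v => fixn K E (σ v) * cz 0 v)
          (fun ε => W353.EF.size (2 * m) B ε - rank ρ E) := by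
      intro E _ B hB
      have h1 := size_X0 hi B hB.1 hB.2 (fun _ : Fin 0 => (1 : 𝓞 E))
      have h2 := size_D ρ X d (2 * m) N s σ hσ hgood hρ _ _ h1.2 E.val
      have h3 := size_fix _ (syD_real ρ X d (2 * m) N s σ) σ hσ h2
      have hr : rank ρ E = Module.finrank ℚ (W353.TD.inv ρ E.val.fieldRange.fixingSubgroup) := by
        rw [W353.TD.inv_eq, IntermediateField.fieldRange_val]
        rfl
      refine h3.congr (fun v => rfl) (fun ε => ?_)
      rw [hr]
      rfl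
    have hTT : ∀ x, TT (syD ρ X d (2 * m) N s σ) x = tC ρ X d (2 * m) N s σ (vx x) := by
      intro x
      have e3 : TT (syD ρ X d (2 * m) N s σ) x =
          ∑ _j ∈ ({()} : Finset Unit), (((W353.TD.tD ρ X d (2 * m) N s σ x : ℝ) : ℂ)).re := rfl
      rw [e3, Finset.sum_singleton, Complex.ofReal_re]
      rfl
    have hmain : ∀ (B : HeightOneSpectrum (𝓞 E) → ℂ[X])
        (B' : HeightOneSpectrum (𝓞 ↥(E ⊓ M)) → ℂ[X]),
        W353.EF.IsEulerSystem X d (2 * m) N B → W353.EF.IsEulerSystem X d (2 * m) N B' →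
        Tendsto (fun ε : ℝ => (W353.EF.size (2 * m) B ε - rank ρ E) -
          (W353.EF.size (2 * m) B' ε - rank ρ (E ⊓ M))) (𝓝[>] 0) (𝓝 0) := fun B B' hB hB' =>
      new_sizes hs0 hT hσ hM hF hMF hEF hrig' H' hTT (hSz E B hB) (hSz (E ⊓ M) B' hB')
    refine ⟨hmain, ?_⟩
    rintro δ δ' ⟨hn1, B, hB, h1⟩ ⟨hn2, B', hB', h2⟩
    have h3 := hmain B B' hB hB'
    have h4 := (h1.sub_const (rank ρ E : ℝ)).sub (h2.sub_const (rank ρ (E ⊓ M) : ℝ))
    have h5 := tendsto_nhds_unique h3 h4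
    have h6 : (δ : ℝ) = δ' := by linarith
    exact_mod_cast h6

end

/-- **The orders over linear pairs.** -/
theorem linearOrders (N : ℕ) : ∃ n₀ : ℕ, ∀ (K : Type) [Field K] [NumberField K] (l d i : ℕ)
    (X : Set (MvPolynomial (Fin l) (𝓞 K))), i ≤ 2 * d → LinearOrders X d i N n₀ := by
  obtain ⟨n₀, hn₀⟩ := linear_rigid (2 * N)
  refine ⟨n₀, ?_⟩
  intro K _ _ l d i X hi n M F _ _ τ hn hM hF hMF hlin H
  exact rigid_orders hi τ hM hF hMF (hn₀ K n M F hn hF hlin) H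

/-- **The defects over linear pairs.** -/
theorem linearDefects (s : ℕ) : ∃ n₀ : ℕ, ∀ (K : Type) [Field K] [NumberField K] (l d m N : ℕ)
    (X : Set (MvPolynomial (Fin l) (𝓞 K))) (V : Type) [AddCommGroup V] [Module ℚ V]
    [FiniteDimensional ℚ V] (ρ : Representation ℚ (GK K) V), m ≤ d → IsPart X d m N ρ →
    N ≤ Module.finrank ℚ V + s → LinearDefects X d m N ρ n₀ := by
  obtain ⟨n₀, hn₀⟩ := linear_rigid (2 * s)
  refine ⟨n₀, ?_⟩
  intro K _ _ l d m N X V _ _ _ ρ hmd hpart hNs n M F _ _ hn hM hF hMF hlin H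
  refine rigid_defects hmd hpart hM hF hMF ((hn₀ K n M F hn hF hlin).mono ?_) H
  have h1 : ((N - Module.finrank ℚ V : ℕ) : ℝ) ≤ s := by
    exact_mod_cast (by omega : N - Module.finrank ℚ V ≤ s)
  linarith

end Pool.Agent.TH820.LG
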