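import Mathlib
import Pool.Agent.TH820.LG.Main
import Pool.Agent.TH820.LG.ExtDefs

/-! # Extensions whose Galois group is a large linear group: reduction to linear pairs -/

set_option autoImplicit false
set_option linter.unusedSectionVars false

namespace Pool.Agent.TH820.LG

open Complex Filter Topology ComplexConjugate NumberField IsDedekindDomain Polynomial
  Pool.Agent.W401.Cheb Pool.Agent.W540.BE Pool.Agent.W353.L1 Pool.Agent.W353.AT
open Pool.Agent.TH526.DS (IsNew normal_fix)
open Pool.Agent.W446.AS (Virt Irred irred_iff)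

/-- linear characters of `SL_n(k)` -/
theorem sl_lin : ∃ n₁ : ℕ, ∀ (n : ℕ) (k : Type) [Field k] [Finite k], n₁ ≤ n →
    ∀ (φ : Matrix.SpecialLinearGroup (Fin n) k →* ℂˣ) (s : Matrix.SpecialLinearGroup (Fin n) k),
      φ s = 1 := by
  classical
  obtain ⟨n₁, h⟩ := rigid 1
  refine ⟨n₁, ?_⟩
  intro n k _ _ hn φ s
  have h1 := h n k (Matrix.SpecialLinearGroup (Fin n) k) (MonoidHom.id _) hn (fun x => by
    refine ⟨(x : GL (Fin n) k), fun s t hst => ?_⟩
    apply Subtype.ext
    rw [Matrix.SpecialLinearGroup.coe_mul, Matrix.SpecialLinearGroup.coe_mul]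
    exact hst) (fun g => ((φ g : ℂˣ) : ℂ)) (virt_lin φ) (fun g => by
    have h2 : ((φ g : ℂˣ) : ℂ) ^ Nat.card (Matrix.SpecialLinearGroup (Fin n) k) = 1 := by
      rw [← Units.val_pow_eq_pow_val, ← map_pow, pow_card_eq_one', map_one, Units.val_one]
    exact (norm_eq_one_of_pow_eq_one h2 Nat.card_pos.ne').le) 1 s
  rw [one_mul, map_one, MonoidHom.id_apply] at h1
  exact Units.ext h1

/-- homomorphisms of `SL_n(k)` to commutative groups -/
theorem sl_comm : ∃ n₁ : ℕ, ∀ (n : ℕ) (k : Type) [Field k] [Finite k], n₁ ≤ n →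
    ∀ (A : Type) [Group A] [Finite A], (∀ a b : A, a * b = b * a) →
      ∀ (φ : Matrix.SpecialLinearGroup (Fin n) k →* A)
        (s : Matrix.SpecialLinearGroup (Fin n) k), φ s = 1 := by
  classical
  obtain ⟨n₁, h⟩ := sl_lin
  refine ⟨n₁, ?_⟩
  intro n k _ _ hn A _ _ hA φ s
  by_contra hs
  let _ : CommGroup A := { (inferInstance : Group A) with mul_comm := hA }
  obtain ⟨ψ, hψ⟩ := CommGroup.exists_apply_ne_one_of_hasEnoughRootsOfUnity A ℂ hs
  exact hψ (h n k hn (ψ.comp φ) s)

/-- an irreducible representation with commuting operators -/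
theorem dim_one {G : Type} [Group G] {r : ℕ} (χ : Representation ℂ G (Fin r → ℂ))
    (h : χ.IsIrreducible) (hc : ∀ g h, χ g * χ h = χ h * χ g) : r = 1 := by
  have h1 : Irred χ := (irred_iff χ).2 h
  have h2 : ∀ g, ∃ c : ℂ, ∀ v, χ g v = c • v := fun g => h1.scalar (χ g) fun a v => by
    have := congrArg (fun T => T v) (hc g a)
    exact this
  obtain ⟨hnt, h3⟩ := h1
  obtain ⟨v, hv⟩ := exists_ne (0 : Fin r → ℂ)
  rcases h3 (ℂ ∙ v) (by
    intro g w hw
    obtain ⟨c, hc⟩ := h2 g
    rw [hc]
    exact Submodule.smul_mem _ _ hw) with h4 | h4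
  · exact absurd ((Submodule.span_singleton_eq_bot).1 h4) hv
  · have h5 : Module.finrank ℂ (Fin r → ℂ) = 1 := by
      rw [← finrank_top ℂ (Fin r → ℂ), ← h4, finrank_span_singleton hv]
    rwa [Module.finrank_fin_fun] at h5

/-- a one-dimensional representation is trivial on elements with determinant one -/
theorem one_of_det {T : (Fin 1 → ℂ) →ₗ[ℂ] (Fin 1 → ℂ)} (h : LinearMap.det T = 1) : T = 1 := by
  obtain ⟨c, hc⟩ : ∃ c : ℂ, T = c • 1 := by
    refine ⟨T (fun _ => 1) 0, ?_⟩
    refine LinearMap.ext fun v => ?_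
    have h1 : v = v 0 • (fun _ => (1 : ℂ)) := by
      funext i
      rw [Subsingleton.elim i 0]
      simp
    funext i
    rw [Subsingleton.elim i 0]
    conv_lhs => rw [h1, map_smul]
    simp [mul_comm]
  rw [hc, LinearMap.det_smul, Module.finrank_fin_fun, pow_one, map_one, mul_one] at h
  rw [hc, h, one_smul]

theorem ext_pair : ∃ n₁ : ℕ, ∀ (K : Type) [Field K] [NumberField K] (n : ℕ)
    (F : IntermediateField K (AlgebraicClosure K)) [NumberField F], n₁ ≤ n →
    IsLinearExtension n F → ∃ M : IntermediateField K (AlgebraicClosure K),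
      NumberField M ∧ IsGalois K M ∧ M ≤ F ∧ IsLinearPair n M F ∧
      (∀ (r : ℕ) (χ : Representation ℂ (GK K) (Fin r → ℂ)), IsNonabelian F χ ↔ IsNew M F χ) ∧
      ∀ E₀ E : IntermediateField K (AlgebraicClosure K), E ≤ F → IsMaxAbelian E₀ E →
        E₀ = E ⊓ M := by
  classical
  obtain ⟨n₁, hn₁⟩ := sl_comm
  refine ⟨n₁, ?_⟩
  intro K _ _ n F _ hn hlin
  obtain ⟨hF, k, _, _, H, φ, hH, hφ⟩ := hlin
  obtain ⟨hUo, hUn⟩ := normal_fix F hF
  have hfin : Finite (GK K ⧸ F.fixingSubgroup) := Subgroup.quotient_finite_of_isOpen _ hUo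
  let ρ : GK K →* Gal(F/K) := AlgEquiv.restrictNormalHom F
  have hρ : Function.Surjective ρ := AlgEquiv.restrictNormalHom_surjective _
  have hρker : ρ.ker = F.fixingSubgroup := IntermediateField.restrictNormalHom_ker F
  have hρx : ∀ (g : GK K) (x : F), ((ρ g x : F) : AlgebraicClosure K) =
      g (x : AlgebraicClosure K) := fun g x => AlgEquiv.restrictNormal_commutes g F x
  have hfinG : Finite Gal(F/K) := Finite.of_equiv _
    ((QuotientGroup.quotientMulEquivOfEq hρker.symm).trans
      (QuotientGroup.quotientKerEquivOfSurjective ρ hρ)).toEquiv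
  -- the embedding of `SL_n(k)`
  have hdet : ∀ s : Matrix.SpecialLinearGroup (Fin n) k,
      Matrix.GeneralLinearGroup.det (s : GL (Fin n) k) = 1 := by
    intro s
    apply Units.ext
    exact s.2
  let j : Matrix.SpecialLinearGroup (Fin n) k →* H :=
    (Matrix.SpecialLinearGroup.toGL).codRestrict H (fun s => hH _ (hdet s))
  have hj : ∀ s, ((j s : H) : GL (Fin n) k) = (s : GL (Fin n) k) := fun s => rfl
  have hjr : ∀ h : H, Matrix.GeneralLinearGroup.det (h : GL (Fin n) k) = 1 → ∃ s, j s = h := by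
    intro h hh
    refine ⟨⟨((h : GL (Fin n) k) : Matrix (Fin n) (Fin n) k), ?_⟩, ?_⟩
    · exact congrArg Units.val hh
    · apply Subtype.ext
      apply Units.ext
      rfl
  let f : Matrix.SpecialLinearGroup (Fin n) k →* Gal(F/K) := φ.comp j
  let N : Subgroup (GK K) := f.range.comap ρ
  have hUN : F.fixingSubgroup ≤ N := by
    intro g hg
    rw [← hρker, MonoidHom.mem_ker] at hg
    change ρ g ∈ f.range
    rw [hg]
    exact one_mem _
  have hNo : IsOpen (N : Set (GK K)) := Subgroup.isOpen_mono hUN hUo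
  have hNc : ∀ g h : GK K, g * h * g⁻¹ * h⁻¹ ∈ N := by
    intro g h
    obtain ⟨x, hx⟩ := hφ (ρ g)
    obtain ⟨y, hy⟩ := hφ (ρ h)
    obtain ⟨s, hs⟩ := hjr (x * y * x⁻¹ * y⁻¹) (by
      simp only [Subgroup.coe_mul, Subgroup.coe_inv, map_mul, map_inv]
      rw [mul_comm (Matrix.GeneralLinearGroup.det (x : GL (Fin n) k)), mul_inv_cancel_right,
        mul_inv_cancel])
    refine ⟨s, ?_⟩
    change φ (j s) = _
    rw [hs]
    simp only [map_mul, map_inv, hx, hy]
  have hNn : N.Normal := by
    constructor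
    intro m hm g
    have h1 := N.mul_mem (hNc g m) hm
    rwa [inv_mul_cancel_right] at h1
  have hNcl : IsClosed (N : Set (GK K)) := Subgroup.isClosed_of_isOpen N hNo
  let M : IntermediateField K (AlgebraicClosure K) := IntermediateField.fixedField N
  have hMfix : M.fixingSubgroup = N :=
    InfiniteGalois.fixingSubgroup_fixedField (⟨N, hNcl⟩ : ClosedSubgroup (GK K))
  have hMo := (InfiniteGalois.isOpen_and_normal_iff_finite_and_isGalois M).1
    (by rw [hMfix]; exact ⟨hNo, hNn⟩)
  have hMfd : FiniteDimensional K M := hMo.1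
  have hMg : IsGalois K M := hMo.2
  have hMnf : NumberField M := NumberField.of_module_finite K M
  have hMF : M ≤ F := by
    intro x hx
    rw [← InfiniteGalois.fixedField_fixingSubgroup F, IntermediateField.mem_fixedField_iff]
    intro g hg
    exact (IntermediateField.mem_fixedField_iff N x).1 hx g (hUN hg)
  have hmemN : ∀ g : GK K, g ∈ N ↔ ∀ x ∈ M, g x = x := by
    intro g
    rw [← hMfix]
    exact IntermediateField.mem_fixingSubgroup_iff M g
  have hcommM : ∀ a b : Gal(M/K), a * b = b * a := by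
    intro a b
    obtain ⟨g, rfl⟩ := AlgEquiv.restrictNormalHom_surjective (F := K) (K₁ := M)
      (AlgebraicClosure K) a
    obtain ⟨h, rfl⟩ := AlgEquiv.restrictNormalHom_surjective (F := K) (K₁ := M)
      (AlgebraicClosure K) b
    rw [← map_mul, ← map_mul]
    have h1 : (AlgEquiv.restrictNormalHom M) (g * h * g⁻¹ * h⁻¹) = (1 : Gal(M/K)) := by
      rw [← MonoidHom.mem_ker, IntermediateField.restrictNormalHom_ker M, hMfix]
      exact hNc g h
    have h2 : g * h = (g * h * g⁻¹ * h⁻¹) * (h * g) := by group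
    rw [h2, map_mul, h1, one_mul]
  have hMab : IsAbelianGalois K M := { hMg with is_comm := ⟨hcommM⟩ }
  refine ⟨M, hMnf, hMg, hMF, ?_, ?_, ?_⟩
  · -- the linear pair
    refine ⟨k, inferInstance, inferInstance, f, ?_, ?_⟩
    · intro σ
      obtain ⟨g, rfl⟩ := hρ σ
      have h1 : (∃ s, f s = ρ g) ↔ g ∈ N := Iff.rfl
      rw [h1, hmemN]
      constructor
      · intro h x hx
        apply Subtype.ext
        rw [hρx]
        exact h _ hx
      · intro h x hx
        have h2 := congrArg Subtype.val (h ⟨x, hMF hx⟩ hx)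
        rw [hρx] at h2
        exact h2
    · intro σ
      obtain ⟨x, hx⟩ := hφ σ
      refine ⟨(x : GL (Fin n) k), fun s t hst => ?_⟩
      have h1 : x * j s = j t * x := by
        apply Subtype.ext
        apply Units.ext
        exact hst
      rw [← hx]
      change φ x * φ (j s) = φ (j t) * φ x
      rw [← map_mul, ← map_mul, h1]
  · -- the representations
    intro r χ
    constructor
    · rintro ⟨hr, hirr, hU⟩
      refine ⟨hirr, hU, ?_⟩
      by_contra hcon
      push Not at hcon
      refine hr (dim_one χ hirr fun g h => ?_)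
      have h1 : χ (g * h * g⁻¹ * h⁻¹) = 1 := hcon _ (by rw [hMfix]; exact hNc g h)
      have h2 : g * h = (g * h * g⁻¹ * h⁻¹) * (h * g) := by group
      rw [← map_mul, ← map_mul, h2, map_mul, h1, one_mul]
    · rintro ⟨hirr, hU, a, ha, haχ⟩
      refine ⟨?_, hirr, hU⟩
      rintro rfl
      rw [hMfix] at ha
      obtain ⟨s, hs⟩ := ha
      -- the determinant factors through `Gal(F/K)`
      let χu : GK K →* ((Fin 1 → ℂ) →ₗ[ℂ] (Fin 1 → ℂ))ˣ := MonoidHom.toHomUnits χ
      let d : GK K →* ℂˣ := (Units.map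
        (LinearMap.det : ((Fin 1 → ℂ) →ₗ[ℂ] (Fin 1 → ℂ)) →* ℂ)).comp χu
      have hd : ∀ g, ((d g : ℂˣ) : ℂ) = LinearMap.det (χ g) := fun g => rfl
      have hdU : ρ.ker ≤ d.ker := by
        intro u hu
        rw [hρker] at hu
        rw [MonoidHom.mem_ker]
        apply Units.ext
        rw [hd, hU u hu, map_one]
        rfl
      let d' : Gal(F/K) →* ℂˣ := (QuotientGroup.lift ρ.ker d hdU).comp
        (QuotientGroup.quotientKerEquivOfSurjective ρ hρ).symm.toMonoidHom
      have hd' : ∀ g, d' (ρ g) = d g := by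
        intro g
        have h3 : (QuotientGroup.quotientKerEquivOfSurjective ρ hρ).symm (ρ g) =
            QuotientGroup.mk g := by
          rw [MulEquiv.symm_apply_eq]
          rfl
        change (QuotientGroup.lift ρ.ker d hdU)
          ((QuotientGroup.quotientKerEquivOfSurjective ρ hρ).symm (ρ g)) = _
        rw [h3]
        rfl
      have hfinr : Finite (d'.comp f).range :=
        Finite.of_surjective _ (d'.comp f).rangeRestrict_surjective
      have h4 := hn₁ n k hn (d'.comp f).range (fun x y => mul_comm x y)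
        (d'.comp f).rangeRestrict s
      have h5 : d' (f s) = 1 := congrArg Subtype.val h4
      rw [hs, hd'] at h5
      refine haχ (one_of_det ?_)
      rw [← hd, h5]
      rfl
  · -- the maximal abelian subfields
    intro E₀ E hEF hE₀
    obtain ⟨h1, h2, h3⟩ := hE₀
    refine le_antisymm (le_inf h1 ?_) (h3 _ inf_le_left ?_)
    · -- `E₀ ≤ M`
      have hE₀F : E₀ ≤ F := h1.trans hEF
      have hE₀g : IsGalois K E₀ := h2.toIsGalois
      intro x hx
      rw [IntermediateField.mem_fixedField_iff]
      intro g hg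
      obtain ⟨s, hs⟩ := hg
      let π : GK K →* Gal(E₀/K) := AlgEquiv.restrictNormalHom E₀
      have hker : ρ.ker ≤ π.ker := by
        rw [hρker, IntermediateField.restrictNormalHom_ker E₀]
        exact IntermediateField.fixingSubgroup_le hE₀F
      let π' : Gal(F/K) →* Gal(E₀/K) := (QuotientGroup.lift ρ.ker π hker).comp
        (QuotientGroup.quotientKerEquivOfSurjective ρ hρ).symm.toMonoidHom
      have hπ' : ∀ g, π' (ρ g) = π g := by
        intro g
        have h3 : (QuotientGroup.quotientKerEquivOfSurjective ρ hρ).symm (ρ g) =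
            QuotientGroup.mk g := by
          rw [MulEquiv.symm_apply_eq]
          rfl
        change (QuotientGroup.lift ρ.ker π hker)
          ((QuotientGroup.quotientKerEquivOfSurjective ρ hρ).symm (ρ g)) = _
        rw [h3]
        rfl
      have hfinr : Finite (π'.comp f).range :=
        Finite.of_surjective _ (π'.comp f).rangeRestrict_surjective
      have h4 := hn₁ n k hn (π'.comp f).range (fun x y => by
          apply Subtype.ext
          exact h2.is_comm.comm _ _)
        (π'.comp f).rangeRestrict s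
      have h5 : π' (f s) = 1 := congrArg Subtype.val h4
      rw [hs, hπ'] at h5
      have h6 := congrArg (fun σ : Gal(E₀/K) => ((σ ⟨x, hx⟩ : E₀) : AlgebraicClosure K)) h5
      have h7 : ((π g ⟨x, hx⟩ : E₀) : AlgebraicClosure K) = g x :=
        AlgEquiv.restrictNormal_commutes g E₀ ⟨x, hx⟩
      rw [← h7]
      exact h6
    · exact IsAbelianGalois.of_algHom (IntermediateField.inclusion
        (inf_le_right : E ⊓ M ≤ M))

end Pool.Agent.TH820.LG
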