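import Mathlib
import Pool.Agent.TH820.LG.Ext

/-! # Extensions whose Galois group is a large linear group: orders and defects -/

set_option autoImplicit false
set_option linter.unusedSectionVars false

namespace Pool.Agent.TH820.LG

open Complex Filter Topology ComplexConjugate NumberField IsDedekindDomain Polynomial
  Pool.Agent.W401.Cheb Pool.Agent.W540.BE Pool.Agent.W353.L1 Pool.Agent.W353.AT
open Pool.Agent.W353.TD (IsPart)

/-- **The orders over linear extensions.** -/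
theorem extensionOrders (N : ℕ) : ∃ n₀ : ℕ, ∀ (K : Type) [Field K] [NumberField K] (l d i : ℕ)
    (X : Set (MvPolynomial (Fin l) (𝓞 K))), i ≤ 2 * d → ExtensionOrders X d i N n₀ := by
  obtain ⟨n₀, hn₀⟩ := linearOrders N
  obtain ⟨n₁, hn₁⟩ := ext_pair
  refine ⟨max n₀ n₁, ?_⟩
  intro K _ _ l d i X hi n F _ τ hn hlin H
  obtain ⟨M, hMnf, hMg, hMF, hpair, hiff, hmax⟩ := hn₁ K n F ((le_max_right _ _).trans hn) hlin
  have hmain := hn₀ K l d i X hi n M F τ ((le_max_left _ _).trans hn) hMg hlin.1 hMF hpair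
    (fun r χ hχ => H r χ ((hiff r χ).2 hχ))
  refine ⟨fun r χ hχ k hk => hmain.1 r χ ((hiff r χ).1 hχ) k hk, ?_⟩
  intro E₀ E _ _ hEF hE₀
  have he := hmax E₀ E hEF hE₀
  subst he
  exact hmain.2 E hEF

/-- **The defects over linear extensions.** -/
theorem extensionDefects (s : ℕ) : ∃ n₀ : ℕ, ∀ (K : Type) [Field K] [NumberField K] (l d m N : ℕ)
    (X : Set (MvPolynomial (Fin l) (𝓞 K))) (V : Type) [AddCommGroup V] [Module ℚ V]
    [FiniteDimensional ℚ V] (ρ : Representation ℚ (GK K) V), m ≤ d → IsPart X d m N ρ →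
    N ≤ Module.finrank ℚ V + s → ExtensionDefects X d m N ρ n₀ := by
  obtain ⟨n₀, hn₀⟩ := linearDefects s
  obtain ⟨n₁, hn₁⟩ := ext_pair
  refine ⟨max n₀ n₁, ?_⟩
  intro K _ _ l d m N X V _ _ _ ρ hmd hpart hNs n F _ hn hlin H
  obtain ⟨M, hMnf, hMg, hMF, hpair, hiff, hmax⟩ := hn₁ K n F ((le_max_right _ _).trans hn) hlin
  have hmain := hn₀ K l d m N X V ρ hmd hpart hNs n M F ((le_max_left _ _).trans hn) hMg hlin.1
    hMF hpair (fun r χ hχ => H r χ ((hiff r χ).2 hχ))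
  refine ⟨fun r χ hχ δ hδ => hmain.1 r χ ((hiff r χ).1 hχ) δ hδ, ?_⟩
  intro E₀ E _ _ hEF hE₀
  have he := hmax E₀ E hEF hE₀
  subst he
  exact hmain.2 E hEF

end Pool.Agent.TH820.LG
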