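import Mathlib
import Pool.Agent.TH820.LG.ExtMain
import Pool.Agent.TH820.LG.ECDefs
import Pool.Agent.W353.NF.EC
import Pool.Agent.W353.L1.EC

/-! # Elliptic curves over extensions with a large linear group -/

set_option autoImplicit false
set_option linter.unusedSectionVars false

namespace Pool.Agent.TH820.LG.EC

open Complex Filter Topology ComplexConjugate NumberField IsDedekindDomain Polynomial
  Pool.Agent.W401.Cheb Pool.Agent.W540.BE Pool.Agent.W353.L1 Pool.Agent.W353.AT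
open Pool.Agent
open Pool.Agent.W353.NF (act fixn cz TT size_fix SzH vx)
open Pool.Agent.W353.TP (HX)
open Pool.Agent.W353.AB (tE tEH syE norm_tE tE_ker)
open Pool.Agent.H341R2 (lam lam_tendsto)
open Pool.Agent.W353.PV (lim_ord)
open Pool.Agent.TH526.DS (IsNew heightFactor normal_fix)
open Pool.Agent.Results.MP_bf61d2_nt.NonabelianTwists (IsEulerFactor eulerProduct)

section
variable {K : Type} [Field K] [NumberField K]

/-- the Frobenius eigenvalues, with their sum -/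
theorem ec_sum (W : WeierstrassCurve (𝓞 K)) (hΔ : W.Δ ≠ 0) {n : ℕ}
    (ρ : Representation ℂ (GK K) (Fin n → ℂ)) (B : HeightOneSpectrum (𝓞 K) → Polynomial ℂ)
    (hB : ∀ᶠ v in cofinite, ∀ σ : GK K, IsFrob v σ → ∀ z : ℂ,
      (B v).eval z = LinearMap.det (1 - ((trv W v : ℂ) * z) • ρ σ⁻¹ +
        (((nm K v : ℕ) : ℂ) * z ^ 2) • (ρ σ⁻¹) ^ 2)) :
    ∃ α : HeightOneSpectrum (𝓞 K) → Fin 2 → ℂ,
      (∀ᶠ v in cofinite, ∀ j, ‖α v j‖ = (nm K v : ℝ) ^ (1 / 2 : ℝ)) ∧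
      (∀ᶠ v in cofinite, (∑ j, α v j) = (trv W v : ℂ)) ∧
      ∀ᶠ v in cofinite, ∀ σ : GK K, IsFrob v σ → ∀ z : ℂ,
        (B v).eval z = ∏ j, LinearMap.det (1 - (α v j * z) • ρ σ⁻¹) := by
  have h6 : (6 : 𝓞 K) ≠ 0 := by norm_num
  have hgood : ∀ᶠ v : HeightOneSpectrum (𝓞 K) in cofinite,
      (6 : 𝓞 K) ∉ v.asIdeal ∧ W.Δ ∉ v.asIdeal := by
    rw [Filter.eventually_cofinite]
    refine ((finite_mem_prime h6).union (finite_mem_prime hΔ)).subset fun v hv => ?_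
    rw [Set.mem_ofPred_eq, not_and_or, not_not, not_not] at hv
    exact hv
  have hex : ∀ v : HeightOneSpectrum (𝓞 K), ∃ α : Fin 2 → ℂ,
      ((6 : 𝓞 K) ∉ v.asIdeal ∧ W.Δ ∉ v.asIdeal) →
        (∀ j, ‖α j‖ = (nm K v : ℝ) ^ (1 / 2 : ℝ)) ∧ α 0 + α 1 = (trv W v : ℂ) ∧
          α 0 * α 1 = ((nm K v : ℕ) : ℂ) := by
    intro v
    by_cases h : (6 : 𝓞 K) ∉ v.asIdeal ∧ W.Δ ∉ v.asIdeal
    · have hpos : (0 : ℝ) < nm K v := by
        have := two_le_nm v
        exact_mod_cast (by omega : 0 < nm K v)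
      obtain ⟨α, h1, h2, h3⟩ := exists_roots hpos (hasse_v W v h.1 h.2)
      refine ⟨α, fun _ => ⟨h1, ?_, ?_⟩⟩
      · rw [h2]; simp
      · rw [h3]; simp
    · exact ⟨0, fun h' => absurd h' h⟩
  choose α hα using hex
  refine ⟨α, hgood.mono fun v hv => (hα v hv).1, hgood.mono fun v hv => ?_, ?_⟩
  · rw [Fin.sum_univ_two, (hα v hv).2.1]
  · filter_upwards [hgood, hB] with v h1 h2
    intro σ hσ z
    rw [det_two, (hα v h1).2.1, (hα v h1).2.2]
    exact h2 σ hσ z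

/-- the normalised trace -/
noncomputable def tW (W : WeierstrassCurve (𝓞 K)) (v : HeightOneSpectrum (𝓞 K)) : ℝ :=
  (tE W.c₄ W.c₆ v).re

theorem abs_tW (W : WeierstrassCurve (𝓞 K)) (v : HeightOneSpectrum (𝓞 K)) : |tW W v| ≤ 2 :=
  (Complex.abs_re_le_norm _).trans (norm_tE _ _ v)

theorem disc_ne (W : WeierstrassCurve (𝓞 K)) (hΔ : W.Δ ≠ 0) : W.c₄ ^ 3 - W.c₆ ^ 2 ≠ 0 := by
  rw [← W.c_relation]
  exact mul_ne_zero (by norm_num) hΔ

/-- the normalised trace at almost all primes -/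
theorem tW_good (W : WeierstrassCurve (𝓞 K)) (hΔ : W.Δ ≠ 0) :
    ∀ᶠ v : HeightOneSpectrum (𝓞 K) in cofinite,
      tW W v = (trv W v : ℝ) * (Real.sqrt (nm K v))⁻¹ := by
  have h6 : (6 : 𝓞 K) ≠ 0 := by norm_num
  have hgood : ∀ᶠ v : HeightOneSpectrum (𝓞 K) in cofinite,
      (6 : 𝓞 K) ∉ v.asIdeal ∧ W.c₄ ^ 3 - W.c₆ ^ 2 ∉ v.asIdeal := by
    rw [Filter.eventually_cofinite]
    refine ((finite_mem_prime h6).union (finite_mem_prime (disc_ne W hΔ))).subset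
      fun v hv => ?_
    rw [Set.mem_ofPred_eq, not_and_or, not_not, not_not] at hv
    exact hv
  filter_upwards [hgood] with v hv
  have hΔv : W.Δ ∉ v.asIdeal := fun h => hv.2 (by
    rw [← W.c_relation]
    exact v.asIdeal.mul_mem_left _ h)
  have hmin : H341R2.EC.IsMinAt (W.map (algebraMap (𝓞 K) K)) v W := by
    refine ⟨⟨1, by rw [one_smul]⟩, fun W' hW' n hn => ?_⟩
    rcases n with _ | n
    · rw [pow_zero, Ideal.one_eq_top]; trivial
    · exact absurd (Ideal.pow_le_self (Nat.succ_ne_zero n) hn) hΔv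
  have h1 := H341R2.EC.count_good (E := W.map (algebraMap (𝓞 K) K)) (l := 1) (P := W.c₄)
    (Q := W.c₆) (d := 1) one_ne_zero (by
      rw [WeierstrassCurve.map_c₄]; simp) (by
      rw [WeierstrassCurve.map_c₆]; simp) (v := v) (V := W) (by
      have h2 := W353.NF.isMinAt_one _ v W hmin
      simpa using h2) hv.1 (fun h => v.isPrime.ne_top ((Ideal.eq_top_iff_one _).2 h)) hv.2
  have h2 : H341R2.chi (1 : 𝓞 K) v = 1 := by
    unfold H341R2.chi
    rw [map_one, map_one]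
  have h3 : (trv W v : ℤ) = -(H341R2.EC.csumv W.c₄ W.c₆ v) := by
    have h4 := h1.2
    rw [h2, one_mul] at h4
    have h5 : (trv W v : ℤ) = (nm K v : ℤ) + 1 - ((H341R2.EC.aff (H341R2.EC.red v W) : ℤ) + 1) :=
      rfl
    have h6' : (H921R2.TatePole.nm v : ℤ) = (nm K v : ℤ) := rfl
    rw [h5, h4, h6']
    ring
  have h7 : tE W.c₄ W.c₆ v = (((trv W v : ℝ) * (Real.sqrt (nm K v))⁻¹ : ℝ) : ℂ) := by
    unfold tE
    rw [if_pos ⟨hv.1, hv.2⟩, h3]
    push_cast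
    rfl
  unfold tW
  rw [h7, Complex.ofReal_re]

/-- the edge point -/
theorem edge_half (τ : ℝ) : ((1 / 2 : ℝ) : ℂ) + 1 + (τ : ℂ) * I = 3 / 2 + τ * I := by
  push_cast
  ring

theorem edge_half_re (τ : ℝ) : (3 / 2 + (τ : ℂ) * I : ℂ).re = 3 / 2 := by
  simp

/-- limits of the sizes from the orders -/
theorem lim_size {L : ℂ → ℂ} {τ : ℝ}
    (hL : ∀ᶠ ε : ℝ in 𝓝[>] 0, L (3 / 2 + τ * I + ε) ≠ 0) {m : ℤ} (hm : HasOrder L τ m) :
    Tendsto (size L τ) (𝓝[>] 0) (𝓝 (-(m : ℝ))) := by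
  obtain ⟨Λ, h1, h2, h3⟩ := hm
  exact lim_ord hL h1 (h2.mono fun s hs hs' => hs (by
    rw [edge_half_re] at hs'
    exact hs')) h3

/-- the orders of the twists as limits -/
theorem lim_twist (W : WeierstrassCurve (𝓞 K)) (hΔ : W.Δ ≠ 0) (U : Subgroup (GK K)) [U.Normal]
    [Finite (GK K ⧸ U)] {r : ℕ} (χ : Representation ℂ (GK K) (Fin r → ℂ))
    (hχ : ∀ u ∈ U, χ u = 1) {τ : ℝ} {m : ℤ} (hm : TwistOrder W χ τ m)
    {σ : HeightOneSpectrum (𝓞 K) → GK K} (hσ : ∀ v, IsFrob v (σ v)) :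
    Lim (tW W) σ ⟨r, χ⟩ τ ((-m : ℤ) : ℝ) := by
  classical
  obtain ⟨B, hB, hB0, hord⟩ := hm
  obtain ⟨α, h1, h2, h3⟩ := ec_sum W hΔ χ B hB
  have h4 := size_corr (1 / 2) α h1 (h2.mono fun v hv => by rw [hv, Complex.intCast_im]) U χ hχ τ B
    h3 (by
      intro v
      have e := hB0 v
      rw [← edge_half] at e
      exact e) (eulerProduct B) (fun s _ => rfl) σ hσ
  rw [edge_half] at h4
  have h5 := h4.2.add (lim_size h4.1 hord)
  -- the comparison of the coefficients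
  set φ : HeightOneSpectrum (𝓞 K) → ℝ := fun v =>
    (tW W v - tr (1 / 2) α v) * RR χ τ σ v with hφ
  have hR : ∀ v, |RR χ τ σ v| ≤ r := fun v => abs_RR_le U χ hχ _ _ _
  have htr : ∀ v, |tr (1 / 2) α v| ≤ 2 := fun v => by
    have := abs_tr_le (1 / 2) α v
    simpa using this
  have hb1 : ∀ v, |tW W v * RR χ τ σ v| ≤ 2 * r := by
    intro v
    rw [abs_mul]
    exact mul_le_mul (abs_tW W v) (hR v) (abs_nonneg _) (by norm_num)
  have hb2 : ∀ v, |(-1) * (tr (1 / 2) α v * RR χ τ σ v)| ≤ 2 * r := by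
    intro v
    rw [abs_mul, abs_neg, abs_one, one_mul, abs_mul]
    exact mul_le_mul (htr v) (hR v) (abs_nonneg _) (by norm_num)
  have hφ2 : ∀ v, φ v = tW W v * RR χ τ σ v + (-1) * (tr (1 / 2) α v * RR χ τ σ v) := by
    intro v
    rw [hφ]
    ring
  have hφB : ∀ v, |φ v| ≤ 2 * r + 2 * r := by
    intro v
    rw [hφ2]
    exact (abs_add_le _ _).trans (add_le_add (hb1 v) (hb2 v))
  have hgood : ∀ᶠ v in cofinite, φ v = 0 := by
    filter_upwards [h1, h2, tW_good W hΔ] with v g1 g2 g3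
    have g4 : tr (1 / 2) α v = tW W v := by
      unfold tr
      rw [if_pos ⟨g1, by rw [g2, Complex.intCast_im]⟩, g2, g3, Complex.intCast_re,
        Real.rpow_neg (Nat.cast_nonneg _), Real.sqrt_eq_rpow]
    rw [hφ]
    simp only
    rw [g4, sub_self, zero_mul]
  have hbad : {v | ¬ φ v = 0}.Finite := by
    rwa [Filter.eventually_cofinite] at hgood
  have hφ0 : Tendsto (fun ε : ℝ => (EP (nm K) ε φ) / lam ε) (𝓝[>] 0) (𝓝 0) := by
    have hbd : ∀ ε : ℝ, 0 < ε → |EP (nm K) ε φ| ≤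
        hbad.toFinset.card * (2 * r + 2 * r) := by
      intro ε hε
      refine EP_finsupp normSys hbad.toFinset φ (fun v hv => ?_) _ (fun v => hφB v) hε
      rw [Set.Finite.mem_toFinset] at hv
      by_contra h
      exact hv h
    rw [tendsto_zero_iff_abs_tendsto_zero]
    have h3 : Tendsto (fun ε : ℝ => (hbad.toFinset.card * (2 * r + 2 * r) : ℝ) /
        lam ε) (𝓝[>] 0) (𝓝 0) := tendsto_const_nhds.div_atTop lam_tendsto
    refine squeeze_zero' (Eventually.of_forall fun ε => abs_nonneg _) ?_ h3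
    filter_upwards [self_mem_nhdsWithin, lam_tendsto.eventually_gt_atTop 0] with ε hε hε'
    rw [Function.comp_apply, abs_div, abs_of_pos hε']
    exact div_le_div_of_nonneg_right (hbd ε hε) hε'.le
  have h6 := h5.add hφ0
  have e0 : (0 : ℝ) + -(m : ℝ) + 0 = ((-m : ℤ) : ℝ) := by
    push_cast
    ring
  rw [e0] at h6
  unfold Lim
  refine h6.congr' ?_
  filter_upwards [self_mem_nhdsWithin] with ε hε
  have hε' : (0 : ℝ) < ε := hε
  have e1 : EP (nm K) ε φ = (EP (nm K) ε fun v => tW W v * RR χ τ σ v) +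
      -(EP (nm K) ε fun v => tr (1 / 2) α v * RR χ τ σ v) := by
    have e2 : EP (nm K) ε φ = EP (nm K) ε (fun v => tW W v * RR χ τ σ v +
        (-1) * (tr (1 / 2) α v * RR χ τ σ v)) := by
      congr 1
      funext v
      exact hφ2 v
    rw [e2, EP_add normSys hε' hb1 hb2, EP_const_mul]
    ring
  have e3 : (fun v => ((tr (1 / 2) α v : ℂ) * (χ.character (σ v)⁻¹ * zz τ v)).re) =
      fun v => tr (1 / 2) α v * RR χ τ σ v := by
    funext v
    rw [Complex.re_ofReal_mul]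
    rfl
  rw [e1, e3]
  unfold size
  ring

/-- **Orders over rigid pairs.** -/
theorem rigid_orders (W : WeierstrassCurve (𝓞 K)) (hΔ : W.Δ ≠ 0)
    {M F : IntermediateField K (AlgebraicClosure K)} [NumberField M] [NumberField F] (τ : ℝ)
    (hM : IsGalois K M) (hF : IsGalois K F) (hMF : M ≤ F) (hrig : RigidPair 4 M F)
    (H : ∀ (r : ℕ) (χ : Representation ℂ (GK K) (Fin r → ℂ)), IsNew M F χ →
      ∃ m : ℤ, TwistOrder W χ τ m) :
    (∀ (r : ℕ) (χ : Representation ℂ (GK K) (Fin r → ℂ)), IsNew M F χ →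
      ∀ m : ℤ, TwistOrder W χ τ m → m = 0) ∧
    ∀ (F' : IntermediateField K (AlgebraicClosure K)) [NumberField F'] [NumberField ↥(F' ⊓ M)],
      F' ≤ F → SameEdge W τ F' (F' ⊓ M) := by
  classical
  choose σ hσ using exists_isFrob (F := K)
  have hT : ∀ v, |tW W v| ≤ (2 : ℝ) := abs_tW W
  have hs0 : (0 : ℝ) ≤ 2 := by norm_num
  have hrig' : RigidPair (2 * ((2 : ℝ) * heightFactor τ)) M F := hrig.mono (by
    have h1 := (hf_le_one τ).2
    linarith)
  obtain ⟨hUo, hUn⟩ := normal_fix F hF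
  have hfin : Finite (GK K ⧸ F.fixingSubgroup) := Subgroup.quotient_finite_of_isOpen _ hUo
  have hlimk : ∀ (r : ℕ) (χ : Representation ℂ (GK K) (Fin r → ℂ)), IsNew M F χ → ∀ m : ℤ,
      TwistOrder W χ τ m → Lim (tW W) σ ⟨r, χ⟩ τ ((-m : ℤ) : ℝ) :=
    fun r χ hχ m hm => lim_twist W hΔ F.fixingSubgroup χ hχ.2.1 hm hσ
  have H' : ∀ (r : ℕ) (χ : Representation ℂ (GK K) (Fin r → ℂ)), IsNew M F χ →
      ∃ δ : ℤ, Lim (tW W) σ ⟨r, χ⟩ τ δ := by
    intro r χ hχ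
    obtain ⟨k, hk⟩ := H r χ hχ
    exact ⟨-k, hlimk r χ hχ k hk⟩
  refine ⟨fun r χ hχ k hk => ?_, fun E _ _ hEF => ?_⟩
  · have h1 := new_zero hs0 hT hσ hM hF hMF hrig' H' χ hχ (hlimk r χ hχ k hk)
    omega
  · have hsz : ∀ (E : IntermediateField K (AlgebraicClosure K)) [NumberField E]
        (V : HeightOneSpectrum (𝓞 E) → WeierstrassCurve (𝓞 E)),
        MinimalModels (baseChange W E) V →
        (∀ᶠ ε : ℝ in 𝓝[>] 0, LSeries V (3 / 2 + τ * I + ε) ≠ 0) ∧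
        SzH (TT (syE W.c₄ W.c₆)) (fun v => fixn K E (σ v) * cz τ v) (size (LSeries V) τ) := by
      intro E _ V hV
      have h := W353.NF.size_EF (F := E) (W.map (algebraMap (𝓞 K) K)) (l := 1) (P := W.c₄)
        (Q := W.c₆) one_ne_zero (by rw [WeierstrassCurve.map_c₄]; simp)
        (by rw [WeierstrassCurve.map_c₆]; simp) (disc_ne W hΔ) V hV τ
      exact ⟨h.1, size_fix _ (W353.NF.syE_real _ _) σ hσ h.2⟩
    have hTT : ∀ x, TT (syE W.c₄ W.c₆) x = tW W (vx x) := by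
      intro x
      have e3 : TT (syE W.c₄ W.c₆) x =
          ∑ _j ∈ ({()} : Finset Unit), (tEH W.c₄ W.c₆ x).re := rfl
      rw [e3, Finset.sum_singleton]
      unfold tW vx
      rcases x with ⟨p, ψ⟩
      have h1 := tE_ker (RingHom.id (𝓞 K)) W.c₄ W.c₆ p ψ
      rw [RingHom.comp_id] at h1
      rw [← h1]
      rfl
    have hmain : ∀ (V : HeightOneSpectrum (𝓞 E) → WeierstrassCurve (𝓞 E))
        (V' : HeightOneSpectrum (𝓞 ↥(E ⊓ M)) → WeierstrassCurve (𝓞 ↥(E ⊓ M))),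
        MinimalModels (baseChange W E) V → MinimalModels (baseChange W (E ⊓ M)) V' →
        Tendsto (fun ε : ℝ => size (LSeries V) τ ε - size (LSeries V') τ ε) (𝓝[>] 0) (𝓝 0) :=
      fun V V' hV hV' => new_sizes hs0 hT hσ hM hF hMF hEF hrig' H' hTT (hsz E V hV).2
        (hsz (E ⊓ M) V' hV').2
    refine ⟨hmain, ?_⟩
    rintro k k' ⟨V, hV, h1⟩ ⟨V', hV', h2⟩
    have h3 := hmain V V' hV hV'
    have h4 := (lim_size (hsz E V hV).1 h1).sub (lim_size (hsz (E ⊓ M) V' hV').1 h2)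
    have h5 := tendsto_nhds_unique h3 h4
    have h6 : (k : ℝ) = k' := by linarith
    exact_mod_cast h6

end

/-- **Elliptic curves over linear pairs.** -/
theorem pairOrders : ∃ n₀ : ℕ, ∀ (K : Type) [Field K] [NumberField K]
    (W : WeierstrassCurve (𝓞 K)), W.Δ ≠ 0 → PairOrders W n₀ := by
  obtain ⟨n₀, hn₀⟩ := linear_rigid 4
  refine ⟨n₀, ?_⟩
  intro K _ _ W hΔ n M F _ _ τ hn hM hF hMF hlin H
  exact rigid_orders W hΔ τ hM hF hMF (hn₀ K n M F hn hF hlin) H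

/-- **Elliptic curves over linear extensions.** -/
theorem extensionOrders : ∃ n₀ : ℕ, ∀ (K : Type) [Field K] [NumberField K]
    (W : WeierstrassCurve (𝓞 K)), W.Δ ≠ 0 → ExtensionOrders W n₀ := by
  obtain ⟨n₀, hn₀⟩ := pairOrders
  obtain ⟨n₁, hn₁⟩ := ext_pair
  refine ⟨max n₀ n₁, ?_⟩
  intro K _ _ W hΔ n F _ τ hn hlin H
  obtain ⟨M, hMnf, hMg, hMF, hpair, hiff, hmax⟩ := hn₁ K n F ((le_max_right _ _).trans hn) hlin
  have hmain := hn₀ K W hΔ n M F τ ((le_max_left _ _).trans hn) hMg hlin.1 hMF hpair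
    (fun r χ hχ => H r χ ((hiff r χ).2 hχ))
  refine ⟨fun r χ hχ k hk => hmain.1 r χ ((hiff r χ).1 hχ) k hk, ?_⟩
  intro E₀ E _ _ hEF hE₀
  have he := hmax E₀ E hEF hE₀
  subst he
  exact hmain.2 E hEF

end Pool.Agent.TH820.LG.EC
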