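import Pool.Agent.TH820.LG.ExtDefs

/-!
# Towers of extensions with large linear or alternating groups: definitions

`K` is a number field; all the fields are finite Galois extensions of `K` in the algebraic closure.
-/

set_option autoImplicit false

namespace Pool.Agent.TH820.LG

open NumberField

/-- For a homomorphism `f` of the alternating group `A_n` to a group `Q` and `x ∈ Q`: there is a
permutation `a ∈ S_n` with `x f(s) x⁻¹ = f(a s a⁻¹)` for all `s ∈ A_n`.  (If `f` is injective, `n ≥ 7` and
`x` normalises `f(A_n)`, then this is always true, because every automorphism of `A_n` is the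
conjugation with an element of `S_n`.) -/
def ActsAsPermutation {n : ℕ} {Q : Type} [Group Q] (f : alternatingGroup (Fin n) →* Q) (x : Q) :
    Prop :=
  ∃ a : Equiv.Perm (Fin n), ∀ s t : alternatingGroup (Fin n),
    a * (s : Equiv.Perm (Fin n)) = (t : Equiv.Perm (Fin n)) * a → x * f s = f t * x

section
variable {K : Type} [Field K]

/-- `Gal(F/M)` is a quotient of the alternating group `A_n` (so `A_n` or trivial, if `n ≥ 5`), on which
every element of `Gal(F/K)` acts as a permutation. -/
def IsAlternatingPair (n : ℕ) (M F : IntermediateField K (AlgebraicClosure K)) : Prop :=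
  ∃ f : alternatingGroup (Fin n) →* Gal(F/K),
    (∀ σ : Gal(F/K), (∃ s, f s = σ) ↔ ∀ x : F, (x : AlgebraicClosure K) ∈ M → σ x = x) ∧
    ∀ σ : Gal(F/K), ActsAsPermutation f σ

/-- `F ⊇ M` is a finite Galois extension of `K`, and for some `m ≥ n` the group `Gal(F/M)` is a quotient
of `SL_m(k)`, `k` a finite field, on which `Gal(F/K)` acts through `GL_m(k)`, or a quotient of the
alternating group `A_m` on which `Gal(F/K)` acts through the symmetric group `S_m`. -/
def IsLargeStep (n : ℕ) (M F : IntermediateField K (AlgebraicClosure K)) : Prop :=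
  M ≤ F ∧ FiniteDimensional K F ∧ IsGalois K F ∧
    ∃ m : ℕ, n ≤ m ∧ (IsLinearPair m M F ∨ IsAlternatingPair m M F)

/-- There are fields `M = T_0 ⊆ T_1 ⊆ … ⊆ T_r = F` such that every step `T_j ⊆ T_{j+1}` is as in
`IsLargeStep`: the group `Gal(F/M)` has a series of normal subgroups of `Gal(F/K)` whose factors are
quotients of the groups `SL_m(k)` or `A_m` with `m ≥ n`. -/
def IsLargeTower (n : ℕ) (M F : IntermediateField K (AlgebraicClosure K)) : Prop :=
  ∃ (r : ℕ) (T : ℕ → IntermediateField K (AlgebraicClosure K)), T 0 = M ∧ T r = F ∧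
    ∀ j < r, IsLargeStep n (T j) (T (j + 1))

/-- There is a large tower from a finite abelian extension `M` of `K` to `F`.  For example `Gal(F/K)` is
the symmetric group `S_m`, `m ≥ n` (and `M` the quadratic field of the discriminant), or a group `H`
with `SL_m(k) ⊆ H ⊆ GL_m(k)`, `m ≥ n`, or the quotient of `H` by the scalar matrices (and `M` the field of
the determinant); or a direct product of such groups and of abelian groups. -/
def IsLargeExtension (n : ℕ) (F : IntermediateField K (AlgebraicClosure K)) : Prop :=
  ∃ M : IntermediateField K (AlgebraicClosure K), FiniteDimensional K M ∧ IsAbelianGalois K M ∧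
    IsLargeTower n M F

end

section
variable {K : Type} [Field K] [NumberField K] {l : ℕ}

/-- Let `n ≥ n₀`, let `M` be a finite Galois extension of `K`, let `F ⊇ M` be the top of a large tower
over `M` (`IsLargeTower n M F`), and `τ` real.  Suppose that `L(H^i(X) ⊗ χ, s)` has a meromorphic
continuation to a neighbourhood of `i/2 + 1 + iτ` for all irreducible representations `χ` of `Gal(F/K)`
that are not trivial on `Gal(F/M)`.
* All these functions have neither a zero nor a pole at `i/2 + 1 + iτ`.
* Let `E` be any field with `K ⊆ E ⊆ F`.  The difference between the values of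
`log |L(i/2 + 1 + iτ + ε)| / log(1/ε)` for `L(H^i(X_E), s)` and `L(H^i(X_{E ∩ M}), s)` tends to `0` as
`ε → 0+`, and the orders of these two functions at `i/2 + 1 + iτ`, if they exist, are equal. -/
def TowerOrders (X : Set (MvPolynomial (Fin l) (𝓞 K))) (d i N n₀ : ℕ) : Prop :=
  ∀ (n : ℕ) (M F : IntermediateField K (AlgebraicClosure K)) [NumberField M] [NumberField F]
    (τ : ℝ), n₀ ≤ n → IsGalois K M → IsLargeTower n M F →
    NewContinued X d i N M F τ →
    NewRegular X d i N M F τ ∧
    ∀ (E : IntermediateField K (AlgebraicClosure K)) [NumberField E] [NumberField ↥(E ⊓ M)],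
      E ≤ F → SameEdge X d i N τ E (E ⊓ M)

/-- Let `n ≥ n₀`, let `M` be a finite Galois extension of `K` and let `F ⊇ M` be the top of a large tower
over `M` (`IsLargeTower n M F`).  Suppose that the defect exists for all irreducible representations
`χ` of `Gal(F/K)` that are not trivial on `Gal(F/M)`.
* All these defects are zero.
* Let `E` be any field with `K ⊆ E ⊆ F`.  The difference between the values of
`log |L(m + 1 + ε)| / log(1/ε) - rank` for `L(H^{2m}(X_E), s)` and `L(H^{2m}(X_{E ∩ M}), s)` tends to `0` as
`ε → 0+`, and the defects over `E` and over `E ∩ M`, if they exist, are equal. -/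
def TowerDefects (X : Set (MvPolynomial (Fin l) (𝓞 K))) (d m N : ℕ) {V : Type}
    [AddCommGroup V] [Module ℚ V] (ρ : Representation ℚ Gal(AlgebraicClosure K/K) V)
    (n₀ : ℕ) : Prop :=
  ∀ (n : ℕ) (M F : IntermediateField K (AlgebraicClosure K)) [NumberField M] [NumberField F],
    n₀ ≤ n → IsGalois K M → IsLargeTower n M F →
    NewDefects X d m N ρ M F →
    NewDefectsZero X d m N ρ M F ∧
    ∀ (E : IntermediateField K (AlgebraicClosure K)) [NumberField E] [NumberField ↥(E ⊓ M)],
      E ≤ F → SameDefects X d m N ρ E (E ⊓ M)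

/-- Let `n ≥ n₀`, let `F` be the top of a large tower over an abelian extension of `K`
(`IsLargeExtension n F`), and `τ` real.  Suppose that `L(H^i(X) ⊗ χ, s)` has a meromorphic continuation
to a neighbourhood of `i/2 + 1 + iτ` for all irreducible representations `χ` of `Gal(F/K)` of dimension
`≠ 1`.
* All these functions have neither a zero nor a pole at `i/2 + 1 + iτ`.
* Let `E` be any field with `K ⊆ E ⊆ F` and `E₀` its largest subfield that is abelian over `K`.  The
difference between the values of `log |L(i/2 + 1 + iτ + ε)| / log(1/ε)` for `L(H^i(X_E), s)` and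
`L(H^i(X_{E₀}), s)` tends to `0` as `ε → 0+`, and the orders of these two functions at `i/2 + 1 + iτ`, if
they exist, are equal. -/
def LargeExtensionOrders (X : Set (MvPolynomial (Fin l) (𝓞 K))) (d i N n₀ : ℕ) : Prop :=
  ∀ (n : ℕ) (F : IntermediateField K (AlgebraicClosure K)) [NumberField F] (τ : ℝ), n₀ ≤ n →
    IsLargeExtension n F →
    (∀ (r : ℕ) (χ : Representation ℂ Gal(AlgebraicClosure K/K) (Fin r → ℂ)), IsNonabelian F χ →
      ∃ k : ℤ, W353.AT.TwistOrder X d i N χ τ k) →
    (∀ (r : ℕ) (χ : Representation ℂ Gal(AlgebraicClosure K/K) (Fin r → ℂ)), IsNonabelian F χ →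
      ∀ k : ℤ, W353.AT.TwistOrder X d i N χ τ k → k = 0) ∧
    ∀ (E₀ E : IntermediateField K (AlgebraicClosure K)) [NumberField E₀] [NumberField E], E ≤ F →
      IsMaxAbelian E₀ E → SameEdge X d i N τ E E₀

/-- Let `n ≥ n₀` and let `F` be the top of a large tower over an abelian extension of `K`
(`IsLargeExtension n F`).  Suppose that the defect exists for all irreducible representations `χ` of
`Gal(F/K)` of dimension `≠ 1`.
* All these defects are zero.
* Let `E` be any field with `K ⊆ E ⊆ F` and `E₀` its largest subfield that is abelian over `K`.  The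
difference between the values of `log |L(m + 1 + ε)| / log(1/ε) - rank` for `L(H^{2m}(X_E), s)` and
`L(H^{2m}(X_{E₀}), s)` tends to `0` as `ε → 0+`, and the defects over `E` and over `E₀`, if they exist,
are equal. -/
def LargeExtensionDefects (X : Set (MvPolynomial (Fin l) (𝓞 K))) (d m N : ℕ) {V : Type}
    [AddCommGroup V] [Module ℚ V] (ρ : Representation ℚ Gal(AlgebraicClosure K/K) V)
    (n₀ : ℕ) : Prop :=
  ∀ (n : ℕ) (F : IntermediateField K (AlgebraicClosure K)) [NumberField F], n₀ ≤ n →
    IsLargeExtension n F →
    (∀ (r : ℕ) (χ : Representation ℂ Gal(AlgebraicClosure K/K) (Fin r → ℂ)), IsNonabelian F χ →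
      ∃ δ : ℤ, W353.AT.TwistDefect X d m N ρ χ δ) →
    (∀ (r : ℕ) (χ : Representation ℂ Gal(AlgebraicClosure K/K) (Fin r → ℂ)), IsNonabelian F χ →
      ∀ δ : ℤ, W353.AT.TwistDefect X d m N ρ χ δ → δ = 0) ∧
    ∀ (E₀ E : IntermediateField K (AlgebraicClosure K)) [NumberField E₀] [NumberField E], E ≤ F →
      IsMaxAbelian E₀ E → SameDefects X d m N ρ E E₀

end

end Pool.Agent.TH820.LG
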