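import Mathlib
import Pool.Agent.TH820.LG.B
import Pool.Agent.TH820.LG.E

/-! # Bounded virtual characters on subgroups of index two of `S_n × P` -/

set_option autoImplicit false
set_option linter.unusedSectionVars false

namespace Pool.Agent.TH820.LG

open Pool.Agent.H541R3.ART Pool.Agent.W446.AS ComplexConjugate
open Equiv Equiv.Perm Pool.Agent.W353.SN

/-- **Symmetric groups, weak form.** -/
theorem sn_weak (N : ℝ) : ∃ n₀ : ℕ, ∀ (ι : Type) [Fintype ι] [DecidableEq ι],
    n₀ ≤ Fintype.card ι → ∀ (X : Type) [CommGroup X] [Finite X] (ϑ : Perm ι × X → ℂ),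
    (∀ g u x, ϑ (u * g * u⁻¹, x) = ϑ (g, x)) →
    (∀ (H : Subgroup (Perm ι)) (μ : X →* ℂˣ), ∃ k : ℤ,
      ∑ᶠ z : H × X, ϑ ((z.1 : Perm ι), z.2) * (((μ z.2)⁻¹ : ℂˣ) : ℂ) =
        k * (Nat.card H * Nat.card X)) →
    (∀ g, ‖ϑ g‖ ≤ N) → ∀ (π π' : Perm ι) (x : X), sign π = sign π' →
      ϑ (π, x) = ϑ (π', x) := by
  classical
  obtain ⟨n₀, hn₀⟩ := big N
  refine ⟨n₀, fun ι _ _ hι X _ _ ϑ hcl hint hN π π' x hπ => ?_⟩
  have : Fintype X := Fintype.ofFinite X
  have hX0 : (Fintype.card X : ℂ) ≠ 0 := by exact_mod_cast Fintype.card_ne_zero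
  have hX0' : (0 : ℝ) < Fintype.card X := by exact_mod_cast Fintype.card_pos
  suffices hz : ∀ y : X, (fun y => ϑ (π, y) - ϑ (π', y)) y = 0 from sub_eq_zero.1 (hz x)
  refine fourier_zero _ fun μ => ?_
  -- the coefficient
  set c : Perm ι → ℂ := fun g => (Fintype.card X : ℂ)⁻¹ * ∑ y, ϑ (g, y) * (((μ y)⁻¹ : ℂˣ) : ℂ)
    with hc
  have hμn : ∀ y, ‖(((μ y)⁻¹ : ℂˣ) : ℂ)‖ = 1 := by
    intro y
    have h1 : ((μ y)⁻¹) ^ (Fintype.card X) = 1 := by
      rw [inv_pow, ← map_pow, pow_card_eq_one, map_one, inv_one]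
    have h2 : ‖(((μ y)⁻¹ : ℂˣ) : ℂ)‖ ^ (Fintype.card X) = 1 := by
      rw [← norm_pow, ← Units.val_pow_eq_pow_val, h1]
      simp
    exact (pow_eq_one_iff_of_nonneg (norm_nonneg _) Fintype.card_ne_zero).1 h2
  have hcl' : ∀ g u, c (u * g * u⁻¹) = c g := by
    intro g u
    rw [hc]
    simp only
    congr 1
    exact Finset.sum_congr rfl fun y _ => by rw [hcl]
  have hbd : ∀ g, ‖c g‖ ≤ N := by
    intro g
    rw [hc]
    simp only
    rw [norm_mul, norm_inv, Complex.norm_natCast]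
    have h1 : ‖∑ y, ϑ (g, y) * (((μ y)⁻¹ : ℂˣ) : ℂ)‖ ≤ ∑ _y : X, N := by
      refine (norm_sum_le _ _).trans (Finset.sum_le_sum fun y _ => ?_)
      rw [norm_mul, hμn, mul_one]
      exact hN _
    rw [Finset.sum_const, Finset.card_univ, nsmul_eq_mul] at h1
    rw [inv_mul_le_iff₀ hX0']
    exact h1
  have hint' : ∀ H : Subgroup (Perm ι), ∃ k : ℤ, ∑ᶠ h : H, c h = k * Nat.card H := by
    intro H
    have : Fintype H := Fintype.ofFinite H
    obtain ⟨k, hk⟩ := hint H μ
    refine ⟨k, ?_⟩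
    rw [finsum_eq_sum_of_fintype] at hk ⊢
    rw [hc]
    simp only
    rw [← Finset.mul_sum]
    rw [Fintype.sum_prod_type] at hk
    simp only at hk
    rw [hk, Nat.card_eq_fintype_card (α := X)]
    field_simp
  have hre : c π = c π' := by
    apply Complex.ext
    · obtain ⟨a, b, hab⟩ := hn₀ ι hι (fun g => (c g).re) (fun g u => by simp only [hcl'])
        (fun r => by
          obtain ⟨k, hk⟩ := hint' (yg r)
          have : Fintype (yg r) := Fintype.ofFinite _
          refine ⟨k, ?_⟩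
          rw [finsum_eq_sum_of_fintype] at hk ⊢
          rw [← Complex.re_sum, hk]
          simp)
        (fun g => (Complex.abs_re_le_norm _).trans (hbd g))
      have h1 := hab π
      have h2 := hab π'
      rw [hπ] at h1
      simp only at h1 h2
      rw [h1, h2]
    · obtain ⟨a, b, hab⟩ := hn₀ ι hι (fun g => (c g).im) (fun g u => by simp only [hcl'])
        (fun r => by
          obtain ⟨k, hk⟩ := hint' (yg r)
          have : Fintype (yg r) := Fintype.ofFinite _
          refine ⟨0, ?_⟩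
          rw [finsum_eq_sum_of_fintype] at hk ⊢
          rw [← Complex.im_sum, hk]
          simp)
        (fun g => (Complex.abs_im_le_norm _).trans (hbd g))
      have h1 := hab π
      have h2 := hab π'
      rw [hπ] at h1
      simp only at h1 h2
      rw [h1, h2]
  rw [hc] at hre
  simp only at hre
  have h7 := mul_left_cancel₀ (inv_ne_zero hX0) hre
  simp only [sub_mul, Finset.sum_sub_distrib]
  rw [h7, sub_self]

section half
variable {ι : Type} [Fintype ι] [DecidableEq ι] {X : Type} [CommGroup X] [Finite X]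
  {D : Perm ι × X →* ℤˣ} {N : ℝ} {Ψ : Perm ι × X → ℂ}

lemma BV.conj1 (h : BV D ⊥ N Ψ) {x g : Perm ι × X} (hx : D x = 1) (hg : D g = 1) :
    Ψ (g * x * g⁻¹) = Ψ x :=
  h.conj (Subgroup.mem_bot.2 hx) (Subgroup.mem_bot.2 hg)

open Classical in
/-- the induced function -/
noncomputable def half (D : Perm ι × X →* ℤˣ) (Ψ : Perm ι × X → ℂ) (t : Perm ι × X)
    (w : Perm ι × X) : ℂ :=
  if D w = 1 then Ψ w + Ψ (t * w * t⁻¹) else 0

lemma half_class (h : BV D ⊥ N Ψ) {t : Perm ι × X} (ht : D t = -1) (g u : Perm ι) (x : X) :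
    half D Ψ t (u * g * u⁻¹, x) = half D Ψ t (g, x) := by
  classical
  set w : Perm ι × X := (g, x) with hw
  set v : Perm ι × X := (u, 1) with hv
  have e1 : ((u * g * u⁻¹, x) : Perm ι × X) = v * w * v⁻¹ := by
    rw [hw, hv]
    ext <;> simp
  have hDw : D (v * w * v⁻¹) = D w := by
    rw [map_mul, map_mul, map_inv, mul_comm (D v), mul_inv_cancel_right]
  rw [e1]
  unfold half
  rw [hDw]
  split_ifs with h1
  · rcases Int.units_eq_one_or (D v) with h2 | h2
    · rw [h.conj1 h1 h2]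
      have e2 : t * (v * w * v⁻¹) * t⁻¹ = (t * v * t⁻¹) * (t * w * t⁻¹) * (t * v * t⁻¹)⁻¹ := by
        group
      have h3 : D (t * v * t⁻¹) = 1 := by
        rw [map_mul, map_mul, map_inv, mul_comm (D t), mul_inv_cancel_right, h2]
      have h4 : D (t * w * t⁻¹) = 1 := by
        rw [map_mul, map_mul, map_inv, mul_comm (D t), mul_inv_cancel_right, h1]
      rw [e2, h.conj1 h4 h3]
    · have h4 : D (t * w * t⁻¹) = 1 := by
        rw [map_mul, map_mul, map_inv, mul_comm (D t), mul_inv_cancel_right, h1]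
      have e2 : v * w * v⁻¹ = (v * t⁻¹) * (t * w * t⁻¹) * (v * t⁻¹)⁻¹ := by group
      have h5 : D (v * t⁻¹) = 1 := by
        rw [map_mul, map_inv, h2, ht, mul_inv_cancel]
      have e3 : t * (v * w * v⁻¹) * t⁻¹ = (t * v) * w * (t * v)⁻¹ := by group
      have h6 : D (t * v) = 1 := by
        rw [map_mul, h2, ht]
        decide
      rw [e3, h.conj1 h1 h6, e2, h.conj1 h4 h5, add_comm]
  · rfl

lemma half_int (h : BV D ⊥ N Ψ) {t : Perm ι × X} (ht : D t = -1) (H : Subgroup (Perm ι))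
    (μ : X →* ℂˣ) : ∃ k : ℤ,
      ∑ᶠ z : H × X, half D Ψ t ((z.1 : Perm ι), z.2) * (((μ z.2)⁻¹ : ℂˣ) : ℂ) =
        k * (Nat.card H * Nat.card X) := by
  classical
  have : Fintype X := Fintype.ofFinite X
  have : Fintype H := Fintype.ofFinite H
  let φ : H × X →* Perm ι × X := MonoidHom.prodMap H.subtype (MonoidHom.id X)
  have hφ : ∀ z : H × X, φ z = ((z.1 : Perm ι), z.2) := fun z => rfl
  let B : Subgroup (H × X) := (D.comp φ).ker
  have : Fintype B := Fintype.ofFinite B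
  have hB : ∀ z, z ∈ B ↔ D (φ z) = 1 := fun z => MonoidHom.mem_ker
  have hcA : Nat.card (H × X) = Nat.card H * Nat.card X := Nat.card_prod _ _
  -- sums over `B`
  have hsum : ∀ f : H × X → ℂ, ∑ z, (if D (φ z) = 1 then f z else 0) = ∑ b : B, f b := by
    intro f
    rw [← Finset.sum_filter]
    exact Finset.sum_subtype _ (fun z => by
      rw [Finset.mem_filter]
      exact ⟨fun h => (hB z).2 h.2, fun h => ⟨Finset.mem_univ _, (hB z).1 h⟩⟩) f
  have hv1 : Virt (fun b : B => Ψ (φ b) * (((μ (b : H × X).2)⁻¹ : ℂˣ) : ℂ)) := by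
    have h2 : Virt (fun b : B => Ψ (φ b)) := h.virt B (φ.comp B.subtype) (fun b =>
      Subgroup.mem_bot.2 ((hB _).1 b.2))
    have h3 := virt_lin (((μ⁻¹).comp (MonoidHom.snd H X)).comp B.subtype)
    exact virt_mul h2 h3
  have hv2 : Virt (fun b : B => Ψ (t * φ b * t⁻¹) * (((μ (b : H × X).2)⁻¹ : ℂˣ) : ℂ)) := by
    have h2 : Virt (fun b : B => Ψ ((MulAut.conj t) (φ b))) :=
      h.virt B ((MulAut.conj t).toMonoidHom.comp (φ.comp B.subtype)) (fun b =>
        Subgroup.mem_bot.2 (by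
          change D (t * φ b * t⁻¹) = 1
          rw [map_mul, map_mul, map_inv, mul_comm (D t), mul_inv_cancel_right]
          exact (hB _).1 b.2))
    have h3 := virt_lin (((μ⁻¹).comp (MonoidHom.snd H X)).comp B.subtype)
    exact virt_mul h2 h3
  obtain ⟨k1, hk1⟩ := mean_int hv1
  obtain ⟨k2, hk2⟩ := mean_int hv2
  have hS : ∑ᶠ z : H × X, half D Ψ t ((z.1 : Perm ι), z.2) * (((μ z.2)⁻¹ : ℂˣ) : ℂ) =
      (k1 + k2) * Nat.card B := by
    rw [finsum_eq_sum_of_fintype]
    have e1 : ∀ z : H × X, half D Ψ t ((z.1 : Perm ι), z.2) * (((μ z.2)⁻¹ : ℂˣ) : ℂ) =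
        if D (φ z) = 1 then Ψ (φ z) * (((μ z.2)⁻¹ : ℂˣ) : ℂ) +
          Ψ (t * φ z * t⁻¹) * (((μ z.2)⁻¹ : ℂˣ) : ℂ) else 0 := by
      intro z
      unfold half
      rw [← hφ]
      split_ifs
      · ring
      · ring
    simp only [e1]
    rw [hsum, Finset.sum_add_distrib, hk1, hk2]
    ring
  by_cases hex : ∃ b₀ : H × X, D (φ b₀) = -1
  · obtain ⟨b₀, hb₀⟩ := hex
    have h12 : (k1 : ℂ) = k2 := by
      have hc : (Nat.card B : ℂ) ≠ 0 := by exact_mod_cast Nat.card_pos.ne'
      have e2 : ∑ b : B, Ψ (t * φ b * t⁻¹) * (((μ (b : H × X).2)⁻¹ : ℂˣ) : ℂ) =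
          ∑ b : B, Ψ (φ b) * (((μ (b : H × X).2)⁻¹ : ℂˣ) : ℂ) := by
        have hmem : ∀ (c : H × X) (z : H × X), z ∈ B → c * z * c⁻¹ ∈ B := by
          intro c z hz
          rw [hB] at hz ⊢
          rw [map_mul, map_mul, map_mul, map_mul, map_inv, map_inv, mul_comm (D (φ c)),
            mul_inv_cancel_right, hz]
        refine Finset.sum_bij' (fun b _ => (⟨b₀ * b * b₀⁻¹, hmem _ _ b.2⟩ : B))
          (fun b _ => (⟨b₀⁻¹ * b * b₀⁻¹⁻¹, hmem _ _ b.2⟩ : B)) (fun _ _ => Finset.mem_univ _)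
          (fun _ _ => Finset.mem_univ _) (fun b _ => Subtype.ext (by group))
          (fun b _ => Subtype.ext (by group)) (fun b _ => ?_)
        have e3 : ((b₀ * (b : H × X) * b₀⁻¹ : H × X)).2 = (b : H × X).2 := by
          change b₀.2 * (b : H × X).2 * b₀.2⁻¹ = _
          rw [mul_comm b₀.2, mul_inv_cancel_right]
        simp only
        rw [e3]
        congr 1
        have h5 : D (t * (φ b₀)⁻¹) = 1 := by
          rw [map_mul, map_inv, ht, hb₀, mul_inv_cancel]
        have h6 : D (φ (b₀ * (b : H × X) * b₀⁻¹)) = 1 := (hB _).1 (hmem _ _ b.2)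
        have e4 : t * φ (b : H × X) * t⁻¹ = (t * (φ b₀)⁻¹) * φ (b₀ * (b : H × X) * b₀⁻¹) *
            (t * (φ b₀)⁻¹)⁻¹ := by
          rw [map_mul, map_mul, map_inv]
          group
        rw [e4, h.conj1 h6 h5]
      rw [hk1, hk2] at e2
      exact (mul_right_cancel₀ hc e2).symm
    have hidx : Nat.card (H × X) = 2 * Nat.card B := by
      have h1 := Subgroup.card_mul_index B
      have h2 : B.index = Nat.card (D.comp φ).range := Subgroup.index_ker _
      have h3 : (D.comp φ).range = ⊤ := by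
        rw [eq_top_iff]
        rintro a -
        rcases Int.units_eq_one_or a with rfl | rfl
        · exact one_mem _
        · exact ⟨b₀, hb₀⟩
      have h4 : Nat.card (⊤ : Subgroup ℤˣ) = 2 := by
        rw [Subgroup.card_top, Nat.card_eq_fintype_card]
        rfl
      rw [h2, h3, h4] at h1
      omega
    refine ⟨k1, ?_⟩
    rw [hS, ← h12]
    have e5 : ((Nat.card H : ℂ) * Nat.card X) = 2 * Nat.card B := by
      exact_mod_cast hcA.symm.trans hidx
    rw [e5]
    ring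
  · push Not at hex
    have hall : B = ⊤ := by
      rw [eq_top_iff]
      rintro z -
      rw [hB]
      exact (Int.units_eq_one_or _).resolve_right (hex z)
    refine ⟨k1 + k2, ?_⟩
    rw [hS, hall, Subgroup.card_top, hcA]
    push_cast
    ring

end half

end Pool.Agent.TH820.LG
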