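import Mathlib
import Pool.Agent.TH820.LG.W1
import Pool.Agent.TH820.LG.S

/-! # Rigidity for alternating groups -/

set_option autoImplicit false
set_option linter.unusedSectionVars false

namespace Pool.Agent.TH820.LG

open Pool.Agent.H541R3.ART Pool.Agent.W446.AS ComplexConjugate
open Equiv Equiv.Perm

lemma virt_weak {ι : Type} [Fintype ι] [DecidableEq ι] {X : Type} [CommGroup X] [Finite X]
    {ϑ : Perm ι × X → ℂ} (hϑ : Virt ϑ) (H : Subgroup (Perm ι)) (μ : X →* ℂˣ) : ∃ k : ℤ,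
      ∑ᶠ z : H × X, ϑ ((z.1 : Perm ι), z.2) * (((μ z.2)⁻¹ : ℂˣ) : ℂ) =
        k * (Nat.card H * Nat.card X) := by
  classical
  have : Fintype X := Fintype.ofFinite X
  have : Fintype H := Fintype.ofFinite H
  have h1 : Virt (fun z : H × X => ϑ ((z.1 : Perm ι), z.2) * (((μ z.2)⁻¹ : ℂˣ) : ℂ)) := by
    have h2 : Virt (fun z : H × X => ϑ ((z.1 : Perm ι), z.2)) :=
      hϑ.comp (MonoidHom.prodMap H.subtype (MonoidHom.id X))
    have h3 := virt_lin ((μ⁻¹).comp (MonoidHom.snd H X))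
    exact virt_mul h2 h3
  obtain ⟨k, hk⟩ := mean_int h1
  refine ⟨k, ?_⟩
  rw [finsum_eq_sum_of_fintype, hk, Nat.card_prod]
  push_cast
  ring

/-- **Symmetric groups times an abelian group.** -/
theorem sn_ext (N : ℝ) : ∃ n₀ : ℕ, ∀ (ι : Type) [Fintype ι] [DecidableEq ι],
    n₀ ≤ Fintype.card ι → ∀ (X : Type) [CommGroup X] [Finite X] (D : Perm ι × X →* ℤˣ)
    (ϑ : Perm ι × X → ℂ), (∀ g, sign g = 1 → D (g, 1) = 1) → BV D ⊥ N ϑ →
    ∀ (x y : Perm ι) (p : X), D (x, p) = 1 → sign x = sign y → ϑ (x, p) = ϑ (y, p) := by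
  classical
  obtain ⟨n₁, h₁⟩ := sn_weak N
  obtain ⟨n₂, h₂⟩ := sn_weak (N + N)
  obtain ⟨n₃, h₃⟩ := sn_weak ((N + N) ^ 2 + (N + N) ^ 2)
  refine ⟨max n₁ (max n₂ n₃), ?_⟩
  intro ι _ _ hι X _ _ D ϑ hD h x y p hxp hxy
  have hn₁ : n₁ ≤ Fintype.card ι := (le_max_left _ _).trans hι
  have hn₂ : n₂ ≤ Fintype.card ι := ((le_max_left _ _).trans (le_max_right _ _)).trans hι
  have hn₃ : n₃ ≤ Fintype.card ι := ((le_max_right _ _).trans (le_max_right _ _)).trans hι
  have hsplit : ∀ (g : Perm ι) (z : X), D (g, z) = D (g, 1) * D (1, z) := by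
    intro g z
    rw [← map_mul]
    congr 1
    ext <;> simp
  by_cases hA : ∀ g, D (g, 1) = 1
  · -- the direct product
    let X' : Subgroup X := (D.comp (MonoidHom.inr (Perm ι) X)).ker
    have hX' : ∀ z : X, z ∈ X' ↔ D (1, z) = 1 := fun z => MonoidHom.mem_ker
    have hp : p ∈ X' := by
      rw [hX']
      rw [hsplit, hA, one_mul] at hxp
      exact hxp
    let φ : Perm ι × X' →* Perm ι × X := MonoidHom.prodMap (MonoidHom.id _) X'.subtype
    have hv : Virt (fun w : Perm ι × X' => ϑ (φ w)) := h.virt _ φ (fun b => by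
      refine Subgroup.mem_bot.2 ?_
      change D (b.1, (b.2 : X)) = 1
      rw [hsplit, hA, one_mul]
      exact (hX' _).1 b.2.2)
    exact h₁ ι hn₁ X' (fun w => ϑ (φ w)) (fun g u z => by
      have h1 := hv.conj (g, z) (u, 1)
      have h2 : ((u, 1) * (g, z) * (u, 1)⁻¹ : Perm ι × X') = (u * g * u⁻¹, z) := by
        ext <;> simp
      rw [h2] at h1
      exact h1) (fun H μ => virt_weak hv H μ) (fun w => h.bdd _ (by
      refine Subgroup.mem_bot.2 ?_
      change D (w.1, (w.2 : X)) = 1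
      rw [hsplit, hA, one_mul]
      exact (hX' _).1 w.2.2)) x y ⟨p, hp⟩ hxy
  · push Not at hA
    obtain ⟨g₀, hg₀⟩ := hA
    have hg₀' : D (g₀, 1) = -1 := (Int.units_eq_one_or _).resolve_left hg₀
    have hgs : sign g₀ = -1 := (Int.units_eq_one_or _).resolve_left fun h' => hg₀ (hD g₀ h')
    have hDs : ∀ g : Perm ι, D (g, 1) = sign g := by
      intro g
      rcases Int.units_eq_one_or (sign g) with h' | h'
      · rw [h', hD g h']
      · have h1 : D (g * g₀⁻¹, 1) = 1 := hD _ (by rw [map_mul, map_inv, h', hgs]; decide)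
        have h2 : D (g, 1) = D (g * g₀⁻¹, 1) * D (g₀, 1) := by
          rw [← map_mul]
          congr 1
          ext <;> simp
        rw [h2, h1, hg₀', h', one_mul]
    set t : Perm ι × X := (g₀, 1) with ht
    have htD : D t = -1 := hg₀'
    have hconj : ∀ w : Perm ι × X, D (t * w * t⁻¹) = D w := by
      intro w
      rw [map_mul, map_mul, map_inv, mul_comm (D t), mul_inv_cancel_right]
    -- the antisymmetric part
    set δ : Perm ι × X → ℂ := fun w => ϑ w - ϑ (t * w * t⁻¹) with hδ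
    set Ψ : Perm ι × X → ℂ := fun w => δ w * conj (δ w) with hΨ
    have hN0 : 0 ≤ N := (norm_nonneg _).trans (h.bdd (x, p) (Subgroup.mem_bot.2 hxp))
    have hδb : ∀ w, D w = 1 → ‖δ w‖ ≤ N + N := by
      intro w hw
      rw [hδ]
      exact (norm_sub_le _ _).trans (add_le_add (h.bdd _ (Subgroup.mem_bot.2 hw))
        (h.bdd _ (Subgroup.mem_bot.2 ((hconj w).trans hw))))
    have hΨb : ∀ w, D w = 1 → ‖Ψ w‖ ≤ (N + N) ^ 2 := by
      intro w hw
      rw [hΨ]
      simp only
      rw [norm_mul, RCLike.norm_conj, ← sq]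
      exact pow_le_pow_left₀ (norm_nonneg _) (hδb w hw) 2
    have hΨBV : BV D ⊥ ((N + N) ^ 2) Ψ := by
      refine ⟨fun B _ _ φ hφ => ?_, fun w hw => hΨb w (Subgroup.mem_bot.1 hw)⟩
      have h1 : Virt (fun b => ϑ (φ b)) := h.virt B φ hφ
      have h2 : Virt (fun b => ϑ ((MulAut.conj t) (φ b))) :=
        h.virt B ((MulAut.conj t).toMonoidHom.comp φ) (fun b => by
          have h3 := hφ b
          rw [Subgroup.mem_bot] at h3 ⊢
          change D (t * φ b * t⁻¹) = 1
          rw [hconj]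
          exact h3)
      have h4 : Virt (fun b => δ (φ b)) := virt_sub h1 h2
      exact virt_mul h4 (virt_conj h4)
    have hhalf : ∀ (Ξ : Perm ι × X → ℂ) (M : ℝ), 0 ≤ M → (∀ w, D w = 1 → ‖Ξ w‖ ≤ M) →
        ∀ w, ‖half D Ξ t w‖ ≤ M + M := by
      intro Ξ M hM0 hM w
      unfold half
      split_ifs with hw
      · exact (norm_add_le _ _).trans (add_le_add (hM w hw) (hM _ ((hconj w).trans hw)))
      · rw [norm_zero]
        linarith
    have hΨc := h₃ ι hn₃ X (half D Ψ t) (half_class hΨBV htD) (half_int hΨBV htD)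
      (hhalf Ψ _ (by positivity) hΨb)
    -- it vanishes
    have hδ0 : ∀ (g : Perm ι) (z : X), D (g, z) = 1 → δ (g, z) = 0 := by
      intro g z hgz
      rcases Int.units_eq_one_or (sign g) with hs | hs
      · have h1 := hΨc g 1 z (by rw [hs, Equiv.Perm.sign_one])
        have h2 : D (1, z) = 1 := by
          have := hsplit g z
          rw [hgz, hDs, hs, one_mul] at this
          exact this.symm
        have e1 : t * ((1, z) : Perm ι × X) * t⁻¹ = (1, z) := by
          rw [ht]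
          ext <;> simp
        have h3 : Ψ (1, z) = 0 := by
          rw [hΨ, hδ]
          simp only
          rw [e1, sub_self, zero_mul]
        unfold half at h1
        rw [if_pos hgz, if_pos h2, e1, h3, add_zero] at h1
        have h4 : ∀ w, Ψ w = ((‖δ w‖ ^ 2 : ℝ) : ℂ) := by
          intro w
          rw [hΨ]
          simp only
          rw [Complex.mul_conj, Complex.normSq_eq_norm_sq]
        rw [h4, h4, ← Complex.ofReal_add, Complex.ofReal_eq_zero] at h1
        have h5 : ‖δ (g, z)‖ ^ 2 = 0 := by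
          have := sq_nonneg ‖δ (g, z)‖
          have := sq_nonneg ‖δ (t * (g, z) * t⁻¹)‖
          linarith
        exact norm_eq_zero.1 (pow_eq_zero_iff (two_ne_zero)|>.1 h5)
      · have h1 : D ((g₀ * g⁻¹, 1) : Perm ι × X) = 1 := by
          rw [hDs, map_mul, map_inv, hgs, hs]
          decide
        have h2 := h.conj1 hgz h1
        have e1 : ((g₀ * g⁻¹, 1) : Perm ι × X) * (g, z) * (g₀ * g⁻¹, 1)⁻¹ =
            t * (g, z) * t⁻¹ := by
          rw [ht]
          ext
          · simp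
          · simp
        rw [e1] at h2
        rw [hδ]
        simp only
        rw [h2, sub_self]
    have hc := h₂ ι hn₂ X (half D ϑ t) (half_class h htD) (half_int h htD)
      (hhalf ϑ N hN0 fun w hw => h.bdd w (Subgroup.mem_bot.2 hw)) x y p hxy
    have hyp : D (y, p) = 1 := by
      rw [hsplit, hDs, ← hxy, ← hDs, ← hsplit]
      exact hxp
    have h5 := hδ0 x p hxp
    have h6 := hδ0 y p hyp
    rw [hδ] at h5 h6
    simp only at h5 h6
    unfold half at hc
    rw [if_pos hxp, if_pos hyp, ← sub_eq_zero.1 h5, ← sub_eq_zero.1 h6] at hc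
    have h7 : (2 : ℂ) * ϑ (x, p) = 2 * ϑ (y, p) := by linear_combination hc
    exact mul_left_cancel₀ two_ne_zero h7

/-- **Symmetric groups times an arbitrary group.** -/
theorem sn_G (N : ℝ) : ∃ n₀ : ℕ, ∀ (ι : Type) [Fintype ι] [DecidableEq ι],
    n₀ ≤ Fintype.card ι → ∀ (P : Type) [Group P] [Finite P] (D : Perm ι × P →* ℤˣ)
    (ϑ : Perm ι × P → ℂ), (∀ g, sign g = 1 → D (g, 1) = 1) → BV D ⊥ N ϑ →
    ∀ (x y : Perm ι) (p : P), D (x, p) = 1 → sign x = sign y → ϑ (x, p) = ϑ (y, p) := by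
  classical
  obtain ⟨n₀, h₀⟩ := sn_ext N
  refine ⟨n₀, ?_⟩
  intro ι _ _ hι P _ _ D ϑ hD h x y p hxp hxy
  let X : Subgroup P := Subgroup.zpowers p
  let _ : CommGroup X := { (inferInstance : Group X) with
    mul_comm := fun a b => Subtype.ext (setLike_mul_comm a.2 b.2) }
  let φ : Perm ι × X →* Perm ι × P := MonoidHom.prodMap (MonoidHom.id _) X.subtype
  have hBV : BV (D.comp φ) ⊥ N (fun w => ϑ (φ w)) :=
    ⟨fun B _ _ ψ hψ => h.virt B (φ.comp ψ) hψ, fun g hg => h.bdd _ hg⟩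
  exact h₀ ι hι X (D.comp φ) (fun w => ϑ (φ w)) (fun g hg => hD g hg) hBV x y
    ⟨p, Subgroup.mem_zpowers p⟩ hxp hxy

/-- **Rigidity for alternating groups.** -/
theorem rigid_alt (N : ℝ) : ∃ n₀ : ℕ, ∀ (n : ℕ) (Q : Type) [Group Q] [Finite Q]
    (f : alternatingGroup (Fin n) →* Q), n₀ ≤ n →
    (∀ x : Q, ∃ a : Perm (Fin n), ∀ s t : alternatingGroup (Fin n),
      a * (s : Perm (Fin n)) = (t : Perm (Fin n)) * a → x * f s = f t * x) →
    ∀ θ : Q → ℂ, Virt θ → (∀ g, ‖θ g‖ ≤ N) → ∀ x s, θ (x * f s) = θ x := by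
  classical
  obtain ⟨n₀, h₀⟩ := sn_G N
  refine ⟨n₀, ?_⟩
  intro n Q _ _ f hn hf θ hθ hN x s
  exact rigid_abs (G := Perm (Fin n)) (C := ℤˣ) (sign (α := Fin n)) N
    (fun P _ _ D ϑ hD hBV x y p hxp hxy => h₀ (Fin n) (by rwa [Fintype.card_fin]) P D ϑ hD hBV
      x y p hxp hxy)
    f (fun x => by
      obtain ⟨a, ha⟩ := hf x
      refine ⟨a, fun s => ?_⟩
      rw [mul_inv_eq_iff_eq_mul]
      refine ha s (MulAut.conjNormal a s) ?_
      have e : ((MulAut.conjNormal a s : (sign (α := Fin n)).ker) : Perm (Fin n)) =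
          a * ((s : (sign (α := Fin n)).ker) : Perm (Fin n)) * a⁻¹ :=
        MulAut.conjNormal_apply a s
      exact (eq_mul_inv_iff_mul_eq.1 e).symm) θ hθ hN x s

end Pool.Agent.TH820.LG
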