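import Mathlib
import Pool.Agent.TH820.LG.W2
import Pool.Agent.TH820.LG.Ext
import Pool.Agent.TH820.LG.TowerDefs

/-! # Towers of extensions with large linear or alternating groups -/

set_option autoImplicit false
set_option linter.unusedSectionVars false

namespace Pool.Agent.TH820.LG

open Complex Filter Topology ComplexConjugate NumberField IsDedekindDomain Polynomial
  Pool.Agent.W401.Cheb Pool.Agent.W540.BE Pool.Agent.W353.L1 Pool.Agent.W353.AT
open Pool.Agent.TH526.DS (IsNew normal_fix)
open Pool.Agent.W446.AS (Virt Irred irred_iff push_apply)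
open Pool.Agent.H302R5 (push)

section
variable {K : Type} [Field K] [NumberField K]

/-- **Alternating pairs are rigid.** -/
theorem alternating_rigid (c : ℝ) : ∃ n₀ : ℕ, ∀ (K : Type) [Field K] [NumberField K] (n : ℕ)
    (M F : IntermediateField K (AlgebraicClosure K)) [NumberField F], n₀ ≤ n → IsGalois K F →
    IsAlternatingPair n M F → RigidPair c M F := by
  classical
  obtain ⟨n₀, hn₀⟩ := rigid_alt c
  refine ⟨n₀, ?_⟩
  intro K _ _ n M F _ hn hF hlin hUn θ hθ hb g a ha
  obtain ⟨f, hrange, hconj⟩ := hlin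
  obtain ⟨hUo, -⟩ := normal_fix F hF
  have hfin : Finite (GK K ⧸ F.fixingSubgroup) := Subgroup.quotient_finite_of_isOpen _ hUo
  let r : GK K →* Gal(F/K) := AlgEquiv.restrictNormalHom F
  have hr : Function.Surjective r := AlgEquiv.restrictNormalHom_surjective _
  have hrker : r.ker = F.fixingSubgroup := IntermediateField.restrictNormalHom_ker F
  let e : GK K ⧸ F.fixingSubgroup ≃* Gal(F/K) :=
    (QuotientGroup.quotientMulEquivOfEq hrker.symm).trans
      (QuotientGroup.quotientKerEquivOfSurjective r hr)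
  have he : ∀ γ : GK K, e (QuotientGroup.mk γ) = r γ := fun γ => rfl
  have hfin2 : Finite Gal(F/K) := Finite.of_equiv _ e.toEquiv
  have hmain := hn₀ n Gal(F/K) f hn hconj (fun x => θ (e.symm x)) (virt_iso e hθ)
    (fun x => hb _)
  obtain ⟨s, hs⟩ := (hrange (r a)).2 (fun x hx => by
    apply Subtype.ext
    have h1 : ((r a x : F) : AlgebraicClosure K) = a (x : AlgebraicClosure K) :=
      AlgEquiv.restrictNormal_commutes a F x
    rw [h1]
    exact (IntermediateField.mem_fixingSubgroup_iff M a).1 ha _ hx)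
  have h1 := hmain (e g) s
  rw [hs] at h1
  simp only [map_mul, MulEquiv.symm_apply_apply] at h1
  have h2 : e.symm (r a) = QuotientGroup.mk a := by
    rw [MulEquiv.symm_apply_eq, he]
  rw [h2] at h1
  exact h1

/-- **Transitivity.** -/
theorem RigidPair.trans {c : ℝ} {M F F' : IntermediateField K (AlgebraicClosure K)}
    (hFn : F.fixingSubgroup.Normal) (hFF' : F ≤ F')
    (hfin : Finite (GK K ⧸ F'.fixingSubgroup))
    (h1 : RigidPair c M F) (h2 : RigidPair c F F') : RigidPair c M F' := by
  classical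
  intro hUn θ hθ hb g a ha
  have hle : F'.fixingSubgroup ≤ F.fixingSubgroup := IntermediateField.fixingSubgroup_le hFF'
  let π : GK K ⧸ F'.fixingSubgroup →* GK K ⧸ F.fixingSubgroup :=
    QuotientGroup.map _ _ (MonoidHom.id _) hle
  have hπ : Function.Surjective π := by
    intro y
    obtain ⟨y, rfl⟩ := QuotientGroup.mk_surjective y
    exact ⟨QuotientGroup.mk y, rfl⟩
  have hπmk : ∀ x : GK K, π (QuotientGroup.mk x) = QuotientGroup.mk x := fun x => rfl
  have hfin' : Finite (GK K ⧸ F.fixingSubgroup) := Finite.of_surjective π hπ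
  have : Fintype (GK K ⧸ F'.fixingSubgroup) := Fintype.ofFinite _
  have : Fintype π.ker := Fintype.ofFinite _
  have hconst : ∀ x : GK K ⧸ F'.fixingSubgroup, push π θ (π x) = θ x := by
    intro x
    rw [push_apply]
    have h3 : ∀ k : π.ker, θ (x * k) = θ x := by
      intro k
      obtain ⟨k, hk⟩ := k
      obtain ⟨b, rfl⟩ := QuotientGroup.mk_surjective k
      rw [MonoidHom.mem_ker, hπmk, QuotientGroup.eq_one_iff] at hk
      exact h2 hUn θ hθ hb x b hk
    rw [Finset.sum_congr rfl (fun k _ => h3 k), Finset.sum_const, Finset.card_univ,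
      nsmul_eq_mul, ← Nat.card_eq_fintype_card]
    have h4 : (Nat.card π.ker : ℂ) ≠ 0 := by exact_mod_cast Nat.card_pos.ne'
    field_simp
  have h3 := h1 hFn (push π θ) (hθ.push hπ) (fun y => by
    obtain ⟨x, rfl⟩ := hπ y
    rw [hconst]
    exact hb x) (π g) a ha
  rw [← hπmk a, ← map_mul, hconst, hconst] at h3
  exact h3

theorem RigidPair.refl (c : ℝ) (M : IntermediateField K (AlgebraicClosure K)) :
    RigidPair c M M := by
  intro hUn θ hθ hb g a ha
  have h1 : (QuotientGroup.mk a : GK K ⧸ M.fixingSubgroup) = 1 :=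
    (QuotientGroup.eq_one_iff a).2 ha
  rw [h1, mul_one]

end

/-- **Towers.** -/
theorem tower_rigid (c : ℝ) : ∃ n₀ : ℕ, ∀ (K : Type) [Field K] [NumberField K] (n : ℕ)
    (M F : IntermediateField K (AlgebraicClosure K)), n₀ ≤ n → IsGalois K M →
    IsLargeTower n M F → M ≤ F ∧ IsGalois K F ∧ RigidPair c M F := by
  classical
  obtain ⟨n₁, h₁⟩ := linear_rigid c
  obtain ⟨n₂, h₂⟩ := alternating_rigid c
  refine ⟨max n₁ n₂, ?_⟩
  rintro K _ _ n M F hn hM ⟨r, T, h0, rfl, hT⟩
  have hmain : ∀ j, j ≤ r → M ≤ T j ∧ IsGalois K (T j) ∧ RigidPair c M (T j) := by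
    intro j
    induction j with
    | zero =>
      intro _
      rw [h0]
      exact ⟨le_rfl, hM, RigidPair.refl c M⟩
    | succ j ih =>
      intro hj
      obtain ⟨hM1, hG1, hr1⟩ := ih (by omega)
      obtain ⟨hle, hfd, hG, m, hm, hpair⟩ := hT j (by omega)
      have hnf : NumberField (T (j + 1)) := NumberField.of_module_finite K _
      obtain ⟨hUo, hUn⟩ := normal_fix (T (j + 1)) hG
      have hfin : Finite (GK K ⧸ (T (j + 1)).fixingSubgroup) :=
        Subgroup.quotient_finite_of_isOpen _ hUo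
      have hr2 : RigidPair c (T j) (T (j + 1)) := by
        rcases hpair with hp | hp
        · exact h₁ K m (T j) (T (j + 1)) (((le_max_left _ _).trans hn).trans hm) hG hp
        · exact h₂ K m (T j) (T (j + 1)) (((le_max_right _ _).trans hn).trans hm) hG hp
      exact ⟨hM1.trans hle, hG, RigidPair.trans ((InfiniteGalois.normal_iff_isGalois (T j)).2 hG1)
        hle hfin hr1 hr2⟩
  exact hmain r le_rfl

section
variable {K : Type} [Field K] [NumberField K]

/-- commutators fix an abelian extension -/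
theorem comm_mem {M : IntermediateField K (AlgebraicClosure K)} (hM : IsAbelianGalois K M)
    (g h : GK K) : g * h * g⁻¹ * h⁻¹ ∈ M.fixingSubgroup := by
  have hMg : IsGalois K M := hM.toIsGalois
  rw [← IntermediateField.restrictNormalHom_ker M, MonoidHom.mem_ker]
  simp only [map_mul, map_inv]
  rw [hM.is_comm.comm (AlgEquiv.restrictNormalHom M g) (AlgEquiv.restrictNormalHom M h),
    mul_inv_cancel_right, mul_inv_cancel]

/-- **Abelian bottom.** -/
theorem abelian_bottom {M F : IntermediateField K (AlgebraicClosure K)} [NumberField F]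
    (hM : IsAbelianGalois K M) (hF : IsGalois K F) (hMF : M ≤ F) (hrig : RigidPair 1 M F) :
    (∀ (r : ℕ) (χ : Representation ℂ (GK K) (Fin r → ℂ)), IsNonabelian F χ ↔ IsNew M F χ) ∧
    ∀ E₀ E : IntermediateField K (AlgebraicClosure K), E ≤ F → IsMaxAbelian E₀ E →
      E₀ = E ⊓ M := by
  classical
  obtain ⟨hUo, hUn⟩ := normal_fix F hF
  have hfin : Finite (GK K ⧸ F.fixingSubgroup) := Subgroup.quotient_finite_of_isOpen _ hUo
  have hMg : IsGalois K M := hM.toIsGalois
  -- linear characters
  have hlin : ∀ d : GK K →* ℂˣ, (∀ u ∈ F.fixingSubgroup, d u = 1) → ∀ a ∈ M.fixingSubgroup,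
      d a = 1 := by
    intro d hd a ha
    let d' : GK K ⧸ F.fixingSubgroup →* ℂˣ := QuotientGroup.lift _ d hd
    have h1 := hrig hUn (fun x => ((d' x : ℂˣ) : ℂ)) (virt_lin d') (fun g => by
      have h2 : ((d' g : ℂˣ) : ℂ) ^ Nat.card (GK K ⧸ F.fixingSubgroup) = 1 := by
        rw [← Units.val_pow_eq_pow_val, ← map_pow, pow_card_eq_one', map_one, Units.val_one]
      exact (norm_eq_one_of_pow_eq_one h2 Nat.card_pos.ne').le) 1 a ha
    rw [one_mul, map_one] at h1
    exact Units.ext h1
  refine ⟨fun r χ => ⟨?_, ?_⟩, ?_⟩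
  · rintro ⟨hr, hirr, hU⟩
    refine ⟨hirr, hU, ?_⟩
    by_contra hcon
    push Not at hcon
    refine hr (dim_one χ hirr fun g h => ?_)
    have h1 : χ (g * h * g⁻¹ * h⁻¹) = 1 := hcon _ (comm_mem hM g h)
    have h2 : g * h = (g * h * g⁻¹ * h⁻¹) * (h * g) := by group
    rw [← map_mul, ← map_mul, h2, map_mul, h1, one_mul]
  · rintro ⟨hirr, hU, a, ha, haχ⟩
    refine ⟨?_, hirr, hU⟩
    rintro rfl
    let χu : GK K →* ((Fin 1 → ℂ) →ₗ[ℂ] (Fin 1 → ℂ))ˣ := MonoidHom.toHomUnits χ
    let d : GK K →* ℂˣ := (Units.map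
      (LinearMap.det : ((Fin 1 → ℂ) →ₗ[ℂ] (Fin 1 → ℂ)) →* ℂ)).comp χu
    have hd : ∀ g, ((d g : ℂˣ) : ℂ) = LinearMap.det (χ g) := fun g => rfl
    have h1 := hlin d (fun u hu => by
      apply Units.ext
      rw [hd, hU u hu, map_one]
      rfl) a ha
    refine haχ (one_of_det ?_)
    rw [← hd, h1]
    rfl
  · intro E₀ E hEF hE₀
    obtain ⟨h1, h2, h3⟩ := hE₀
    refine le_antisymm (le_inf h1 ?_) (h3 _ inf_le_left ?_)
    · have hE₀F : E₀ ≤ F := h1.trans hEF
      have hE₀g : IsGalois K E₀ := h2.toIsGalois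
      intro x hx
      rw [← InfiniteGalois.fixedField_fixingSubgroup M, IntermediateField.mem_fixedField_iff]
      intro g hg
      let π : GK K →* Gal(E₀/K) := AlgEquiv.restrictNormalHom E₀
      have hπs : Function.Surjective π := AlgEquiv.restrictNormalHom_surjective _
      have hker : F.fixingSubgroup ≤ π.ker := by
        rw [IntermediateField.restrictNormalHom_ker E₀]
        exact IntermediateField.fixingSubgroup_le hE₀F
      have hfinE : Finite Gal(E₀/K) := by
        refine Finite.of_surjective (QuotientGroup.lift F.fixingSubgroup π hker) ?_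
        intro y
        obtain ⟨z, rfl⟩ := hπs y
        exact ⟨QuotientGroup.mk z, rfl⟩
      have hπg : π g = 1 := by
        by_contra hne
        let _ : CommGroup Gal(E₀/K) := { (inferInstance : Group Gal(E₀/K)) with
          mul_comm := h2.is_comm.comm }
        obtain ⟨ψ, hψ⟩ := CommGroup.exists_apply_ne_one_of_hasEnoughRootsOfUnity
          Gal(E₀/K) ℂ hne
        refine hψ (hlin (ψ.comp π) (fun u hu => ?_) g hg)
        have h4 : π u = 1 := hker hu
        rw [MonoidHom.comp_apply, h4, map_one]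
      have h6 := congrArg (fun σ : Gal(E₀/K) => ((σ ⟨x, hx⟩ : E₀) : AlgebraicClosure K)) hπg
      have h7 : ((π g ⟨x, hx⟩ : E₀) : AlgebraicClosure K) = g x :=
        AlgEquiv.restrictNormal_commutes g E₀ ⟨x, hx⟩
      rw [← h7]
      exact h6
    · exact IsAbelianGalois.of_algHom (IntermediateField.inclusion
        (inf_le_right : E ⊓ M ≤ M))

end

end Pool.Agent.TH820.LG
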