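import Pool.Agent.TH820.LG.ECDefs

/-!
# Elliptic curves over layers of odd degree: definitions

`K` is a number field and `E` an elliptic curve over `K`, given by an integral Weierstrass equation `W`.
-/

set_option autoImplicit false

namespace Pool.Agent.TH820.LG

open NumberField IsDedekindDomain

/-- There is a homomorphism from the absolute Galois group of `M` to `ℂˣ` whose kernel is the absolute
Galois group of `C`.  So if `M ⊆ C` are finite extensions of `K`, then `C/M` is a cyclic extension. -/
def IsCyclicLayer {K : Type} [Field K] (M C : IntermediateField K (AlgebraicClosure K)) : Prop :=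
  ∃ μ : M.fixingSubgroup →* ℂˣ, ∀ g : M.fixingSubgroup,
    μ g = 1 ↔ (g : Gal(AlgebraicClosure K/K)) ∈ C.fixingSubgroup

namespace EC

open Pool.Agent.TH526.DS (IsNew)

/-- Let `M ⊆ F` be finite Galois extensions of `K` such that `[F : M]` is odd.  Suppose that
`L(E ⊗ χ, s)` has a meromorphic continuation to a neighbourhood of `3/2` for all irreducible
representations `χ` of `Gal(F/K)`.  Then there is a Galois extension `C/K` with `M ⊆ C ⊆ F`, cyclic over
`M`, with the following properties.
* `L(E ⊗ χ, s)` has neither a zero nor a pole at `3/2`, for every irreducible representation `χ` of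
`Gal(F/K)` that is not trivial on `Gal(F/C)`.
* For any field `F'` with `K ⊆ F' ⊆ F` the functions `L(E/F', s)` and `L(E/F' ∩ C, s)` are related as in
`SameEdge` at the point `3/2`. -/
def OddLayers {K : Type} [Field K] [NumberField K] (W : WeierstrassCurve (𝓞 K)) : Prop :=
  ∀ (M F : IntermediateField K (AlgebraicClosure K)) [NumberField M] [NumberField F],
    IsGalois K M → IsGalois K F → M ≤ F → Odd (Module.finrank K F / Module.finrank K M) →
    (∀ (r : ℕ) (χ : Representation ℂ Gal(AlgebraicClosure K/K) (Fin r → ℂ)), χ.IsIrreducible →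
      (∀ u ∈ F.fixingSubgroup, χ u = 1) → ∃ m : ℤ, TwistOrder W χ 0 m) →
    ∃ C : IntermediateField K (AlgebraicClosure K), M ≤ C ∧ C ≤ F ∧ IsGalois K C ∧
      IsCyclicLayer M C ∧
      (∀ (r : ℕ) (χ : Representation ℂ Gal(AlgebraicClosure K/K) (Fin r → ℂ)), IsNew C F χ →
        ∀ m : ℤ, TwistOrder W χ 0 m → m = 0) ∧
      ∀ (F' : IntermediateField K (AlgebraicClosure K)) [NumberField F'] [NumberField ↥(F' ⊓ C)],
        F' ≤ F → SameEdge W 0 F' (F' ⊓ C)

end EC

end Pool.Agent.TH820.LG
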