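import Mathlib
import Pool.Agent.TH820.LG.V1
import Pool.Agent.W446.AS.Main1

/-! # Real virtual characters of absolute value at most two on groups of odd order -/

set_option autoImplicit false
set_option linter.unusedSectionVars false

namespace Pool.Agent.TH820.LG

open Pool.Agent.H541R3.ART Pool.Agent.W446.AS ComplexConjugate

section
variable {G : Type} [Group G] [Finite G]

/-- character values are algebraic integers -/
lemma irr_integral {χ : G → ℂ} (h : χ ∈ Irr G) (g : G) : IsIntegral ℤ (χ g) := by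
  obtain ⟨n, ρ, hr, rfl⟩ := h
  unfold Representation.character
  rw [Module.End.trace_eq_sum_roots_charpoly_of_splits (IsAlgClosed.splits _)]
  have key : ∀ μ ∈ (LinearMap.charpoly (ρ g)).roots, IsIntegral ℤ μ := by
    intro μ hμ
    have h1 : (LinearMap.charpoly (ρ g)).IsRoot μ := (Polynomial.mem_roots'.mp hμ).2
    have h2 := (Module.End.hasEigenvalue_iff_isRoot_charpoly (ρ g) μ).mpr h1
    obtain ⟨v, hv⟩ := h2.exists_hasEigenvector
    have h3 : ∀ n : ℕ, ((ρ g) ^ n) v = μ ^ n • v := fun n => by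
      induction n with
      | zero => simp
      | succ n ih =>
        rw [pow_succ', Module.End.mul_apply, ih, map_smul, hv.apply_eq_smul, smul_smul, pow_succ]
    have h4 := h3 (orderOf g)
    rw [← map_pow, pow_orderOf_eq_one, map_one, Module.End.one_apply] at h4
    have h5 : μ ^ orderOf g = 1 := by
      have h6 : (μ ^ orderOf g - 1) • v = 0 := by
        rw [sub_smul, one_smul, ← h4, sub_self]
      rcases smul_eq_zero.mp h6 with h7 | h7
      · exact sub_eq_zero.mp h7
      · exact absurd h7 hv.2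
    refine ⟨Polynomial.X ^ orderOf g - 1, Polynomial.monic_X_pow_sub_C 1 (orderOf_pos g).ne' , ?_⟩
    simp [h5]
  generalize (LinearMap.charpoly (ρ g)).roots = s at key
  induction s using Multiset.induction_on with
  | empty => simpa using isIntegral_zero
  | cons a s ih =>
    rw [Multiset.sum_cons]
    exact (key a (Multiset.mem_cons_self a s)).add
      (ih (fun μ hμ => key μ (Multiset.mem_cons_of_mem hμ)))

lemma virt_integral {f : G → ℂ} (hf : Virt f) (g : G) : IsIntegral ℤ (f g) := by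
  induction hf using AddSubgroup.closure_induction with
  | mem χ hχ => exact irr_integral hχ g
  | zero => exact isIntegral_zero
  | add a b _ _ ha hb => exact ha.add hb
  | neg a _ ha => exact ha.neg

lemma virt_one_int {f : G → ℂ} (hf : Virt f) : ∃ k : ℤ, f 1 = k := by
  induction hf using AddSubgroup.closure_induction with
  | mem χ hχ =>
    obtain ⟨d, -, hd⟩ := irr_deg_pos hχ
    exact ⟨d, by rw [hd]; simp⟩
  | zero => exact ⟨0, by simp⟩
  | add a b _ _ ha hb =>
    obtain ⟨k, hk⟩ := ha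
    obtain ⟨l, hl⟩ := hb
    exact ⟨k + l, by rw [Pi.add_apply, hk, hl]; push_cast; rfl⟩
  | neg a _ ha =>
    obtain ⟨k, hk⟩ := ha
    exact ⟨-k, by rw [Pi.neg_apply, hk]; push_cast; rfl⟩

/-- half an integer that is an algebraic integer is an integer -/
lemma even_of_integral {k : ℤ} {x : ℂ} (hx : IsIntegral ℤ x) (h : (k : ℂ) = 2 * x) : Even k := by
  have h1 : x = algebraMap ℚ ℂ (k / 2 : ℚ) := by
    rw [map_div₀, map_intCast, map_ofNat, h]
    ring
  rw [h1] at hx
  have h2 : IsIntegral ℤ (k / 2 : ℚ) :=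
    (isIntegral_algebraMap_iff (FaithfulSMul.algebraMap_injective ℚ ℂ)).1 hx
  obtain ⟨y, hy⟩ := IsIntegrallyClosed.isIntegral_iff.1 h2
  refine ⟨y, ?_⟩
  have h3 : (y : ℚ) = k / 2 := hy
  have h4 : (k : ℚ) = y + y := by rw [h3]; ring
  exact_mod_cast h4

/-- the sum over a group of odd order of a real virtual character -/
lemma odd_sum [Fintype G] (hodd : Odd (Nat.card G)) {f : G → ℂ} (hf : Virt f)
    (hr : ∀ g, f g⁻¹ = f g) : ∃ x : ℂ, IsIntegral ℤ x ∧ ∑ g, f g = f 1 + 2 * x := by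
  classical
  let O := integralClosure ℤ ℂ
  let F : G → O := fun g => ⟨f g, virt_integral hf g⟩
  let I : Ideal O := Ideal.span {2}
  have hne : ∀ g : G, g ≠ 1 → g⁻¹ ≠ g := by
    intro g hg h
    have h1 : g ^ 2 = 1 := by
      rw [sq]
      nth_rewrite 1 [← h]
      exact inv_mul_cancel g
    have h2 : orderOf g ∣ 2 := orderOf_dvd_of_pow_eq_one h1
    have h3 : orderOf g ∣ Nat.card G := orderOf_dvd_natCard g
    have h4 : orderOf g ∣ 1 := by
      have h5 : Nat.Coprime 2 (Nat.card G) := (Nat.coprime_two_left).2 hodd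
      rw [← h5]
      exact Nat.dvd_gcd h2 h3
    exact hg (orderOf_eq_one_iff.1 (Nat.dvd_one.1 h4))
  have h1 : ∑ g ∈ Finset.univ.erase (1 : G), (Ideal.Quotient.mk I (F g)) = 0 := by
    refine Finset.sum_involution (fun g _ => g⁻¹) (fun g hg => ?_) (fun g hg _ => ?_)
      (fun g hg => ?_) (fun g hg => ?_)
    · have e : F g⁻¹ = F g := Subtype.ext (hr g)
      rw [e, ← map_add, Ideal.Quotient.eq_zero_iff_mem, ← two_mul]
      exact Ideal.mul_mem_right _ _ (Ideal.mem_span_singleton_self 2)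
    · exact hne g (Finset.ne_of_mem_erase hg)
    · rw [Finset.mem_erase]
      exact ⟨inv_ne_one.2 (Finset.ne_of_mem_erase hg), Finset.mem_univ _⟩
    · exact inv_inv g
  rw [← map_sum, Ideal.Quotient.eq_zero_iff_mem, Ideal.mem_span_singleton] at h1
  obtain ⟨y, hy⟩ := h1
  refine ⟨(y : ℂ), y.2, ?_⟩
  rw [← Finset.add_sum_erase _ _ (Finset.mem_univ (1 : G))]
  congr 1
  have h2 := congrArg (fun z : O => (z : ℂ)) hy
  have h3 : ((∑ g ∈ Finset.univ.erase (1 : G), F g : O) : ℂ) =
      ∑ g ∈ Finset.univ.erase (1 : G), f g := by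
    rw [AddSubmonoidClass.coe_finsetSum]
  rw [h3] at h2
  rw [h2]
  rfl

/-- parity -/
lemma odd_parity [Fintype G] (hodd : Odd (Nat.card G)) {f : G → ℂ} (hf : Virt f)
    (hr : ∀ g, f g⁻¹ = f g) {k l : ℤ} (hk : ∑ g, f g = k * Nat.card G) (hl : f 1 = l) :
    Even (k - l) := by
  obtain ⟨x, hx, h⟩ := odd_sum hodd hf hr
  have h1 : ((k * Nat.card G - l : ℤ) : ℂ) = 2 * x := by
    push_cast
    rw [← hk, ← hl, h]
    ring
  have h2 := even_of_integral hx h1
  have h3 : Odd ((Nat.card G : ℕ) : ℤ) := by exact_mod_cast hodd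
  rw [Int.even_sub, Int.even_mul] at h2
  rw [Int.even_sub]
  constructor
  · intro h4
    exact h2.1 (Or.inl h4)
  · intro h4
    rcases h2.2 h4 with h5 | h5
    · exact h5
    · exact absurd h5 (Int.not_even_iff_odd.2 h3)

/-- a virtual character of norm one and positive degree is irreducible -/
lemma irr_of_norm [Fintype G] {τ : G → ℂ} (hτ : Virt τ) (h1 : ∑ g, τ g * τ g⁻¹ = Nat.card G)
    (hd : 0 < (τ 1).re) : τ ∈ Irr G := by
  classical
  have h2 : pr τ τ = 1 := by
    rw [pr_eq, h1, inv_mul_cancel₀ card_ne]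
  rw [pr_self_expand hτ] at h2
  choose! k hk using fun ψ (hψ : ψ ∈ Irr G) => hτ.pr_int hψ
  have h3 : ∑ ψ ∈ irrF G, (k ψ) ^ 2 = 1 := by
    have h4 : ((∑ ψ ∈ irrF G, (k ψ) ^ 2 : ℤ) : ℂ) = 1 := by
      rw [← h2]
      push_cast
      exact Finset.sum_congr rfl fun ψ hψ => by rw [hk ψ (mem_irrF.1 hψ)]
    exact_mod_cast h4
  obtain ⟨ψ, hψ, hne⟩ : ∃ ψ ∈ irrF G, (k ψ) ^ 2 ≠ 0 := by
    by_contra hcon
    push Not at hcon
    rw [Finset.sum_eq_zero hcon] at h3
    exact zero_ne_one h3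
  have hψ' := mem_irrF.1 hψ
  have h4 : ∀ φ ∈ irrF G, φ ≠ ψ → k φ = 0 := by
    intro φ hφ hφψ
    by_contra hcon
    have h5 : (k φ) ^ 2 + (k ψ) ^ 2 ≤ 1 := by
      rw [← h3, ← Finset.sum_pair (f := fun χ => (k χ) ^ 2) hφψ]
      refine Finset.sum_le_sum_of_subset_of_nonneg (fun x hx => ?_) fun x _ _ => sq_nonneg _
      rw [Finset.mem_insert, Finset.mem_singleton] at hx
      rcases hx with rfl | rfl
      · exact hφ
      · exact hψ
    have h6 : 0 < (k φ) ^ 2 := by positivity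
    have h7 : 0 < (k ψ) ^ 2 := lt_of_le_of_ne (sq_nonneg _) (Ne.symm hne)
    omega
  have h5 : ∀ g, τ g = k ψ * ψ g := by
    intro g
    rw [hτ.expand g, Finset.sum_eq_single ψ]
    · rw [hk ψ hψ']
    · intro φ hφ hφψ
      rw [hk φ (mem_irrF.1 hφ), h4 φ hφ hφψ]
      simp
    · intro h
      exact absurd hψ h
  have h6 : (k ψ) ^ 2 = 1 := by
    rw [Finset.sum_eq_single ψ (fun φ hφ hφψ => by rw [h4 φ hφ hφψ]; rfl)
      (fun h => absurd hψ h)] at h3
    exact h3
  obtain ⟨d, hd0, hd1⟩ := irr_deg_pos hψ'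
  have h7 : k ψ = 1 := by
    rcases sq_eq_sq_iff_eq_or_eq_neg.1 (h6.trans (one_pow 2).symm) with h | h
    · exact h
    · rw [h5 1, h, hd1] at hd
      have e : (((-1 : ℤ) : ℂ) * (d : ℂ)).re = -(d : ℝ) := by simp
      rw [e] at hd
      have e2 : (0 : ℝ) ≤ d := Nat.cast_nonneg d
      linarith
  have h8 : τ = ψ := by
    funext g
    rw [h5 g, h7]
    simp
  rw [h8]
  exact hψ'

end

end Pool.Agent.TH820.LG
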