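import Mathlib
import Pool.Agent.TH820.LG.V4
import Pool.Agent.TH820.LG.OD1

/-! # The virtual character of the orders, and the sizes over the intermediate fields -/

set_option autoImplicit false
set_option linter.unusedSectionVars false

namespace Pool.Agent.TH820.LG

open Complex Filter Topology ComplexConjugate NumberField IsDedekindDomain Polynomial
  Pool.Agent.W401.Cheb Pool.Agent.W540.BE Pool.Agent.W353.L1 Pool.Agent.W353.AT
open Pool.Agent.W353.NF (act act_apply act_trans fixn fixn_inv cz abs_cz fixn_le SzH vx)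
open Pool.Agent.W353.TP (HX)
open Pool.Agent.H341R2 (lam)
open Pool.Agent.TH526.DS (heightFactor normal_fix sup1 exists_unit fd_of_nf)
open Pool.Agent.H541R3.ART (theta irrF mem_irrF theta_pair)
open Pool.Agent.W446.AS (Virt theta_virt)

section
variable {K : Type} [Field K] [NumberField K]

variable {T : HeightOneSpectrum (𝓞 K) → ℝ} {s : ℝ} (hs : 0 ≤ s) (hT : ∀ v, |T v| ≤ s)
  {σ : HeightOneSpectrum (𝓞 K) → GK K} (hσ : ∀ v, IsFrob v (σ v))
  {U : Subgroup (GK K)} [U.Normal] (hUo : IsOpen (U : Set (GK K)))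

include hs hT hσ hUo in
/-- **The virtual character of the limits.** -/
theorem twist_data [Finite (GK K ⧸ U)]
    (H : ∀ (n : ℕ) (χ : Representation ℂ (GK K) (Fin n → ℂ)), χ.IsIrreducible →
      (∀ u ∈ U, χ u = 1) → ∃ δ : ℤ, Lim T σ ⟨n, χ⟩ 0 δ) :
    ∃ m : (GK K ⧸ U → ℂ) → ℤ,
      (∀ ψ ∈ Pool.Agent.H541R3.ART.Irr (GK K ⧸ U), (fun g => ψ g⁻¹) ∈
        Pool.Agent.H541R3.ART.Irr (GK K ⧸ U) → m (fun g => ψ g⁻¹) = m ψ) ∧
      (∀ g, ‖(theta m : GK K ⧸ U → ℂ) g‖ ≤ s) ∧
      ∀ (n : ℕ) (χ : Representation ℂ (GK K) (Fin n → ℂ)) (_ : χ.IsIrreducible)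
        (h : ∀ u ∈ U, χ u = 1) (δ : ℝ), Lim T σ ⟨n, χ⟩ 0 δ →
        δ = m (qrep U χ h).character := by
  classical
  let _ : Fintype (GK K ⧸ U) := Fintype.ofFinite _
  set x : (GK K ⧸ U → ℂ) → MRep (GK K) := fun ψ => infl U (repM ψ) with hx
  have hxtriv : ∀ ψ, ∀ u ∈ U, (x ψ).2 u = 1 := fun ψ u hu => infl_triv _ _ u hu
  have hxchar : ∀ ψ ∈ Pool.Agent.H541R3.ART.Irr (GK K ⧸ U), ∀ g,
      (x ψ).2.character g = ψ (QuotientGroup.mk g) := by
    intro ψ hψ g
    have h1 : (x ψ).2.character g = (repM ψ).2.character (QuotientGroup.mk g) :=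
      infl_char U (repM ψ) g
    rw [h1]
    exact (congrFun (repM_spec hψ).2 (QuotientGroup.mk g)).symm
  have hxirr : ∀ ψ ∈ Pool.Agent.H541R3.ART.Irr (GK K ⧸ U), (x ψ).2.IsIrreducible :=
    fun ψ hψ => infl_irr _ _ (repM_spec hψ).1
  set m : (GK K ⧸ U → ℂ) → ℤ := fun ψ =>
    if hψ : ψ ∈ Pool.Agent.H541R3.ART.Irr (GK K ⧸ U) then
      (H _ _ (hxirr ψ hψ) (hxtriv ψ)).choose else 0 with hm
  have hmlim : ∀ ψ ∈ Pool.Agent.H541R3.ART.Irr (GK K ⧸ U), Lim T σ (x ψ) 0 (m ψ) := by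
    intro ψ hψ
    rw [hm]
    simp only
    rw [dif_pos hψ]
    exact (H _ _ (hxirr ψ hψ) (hxtriv ψ)).choose_spec
  have hRR : ∀ ψ ∈ Pool.Agent.H541R3.ART.Irr (GK K ⧸ U), ∀ v,
      RR (x ψ).2 0 σ v = (ψ (QuotientGroup.mk (σ v))⁻¹ * zz 0 v).re := by
    intro ψ hψ v
    unfold RR
    rw [hxchar ψ hψ]
    rfl
  have hz : ∀ v : HeightOneSpectrum (𝓞 K), zz (0 : ℝ) v = 1 := by
    intro v
    unfold zz
    simp
  refine ⟨m, ?_, ?_, ?_⟩
  · intro ψ hψ hψ'
    have h1 := hmlim ψ hψ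
    have h2 := hmlim _ hψ'
    have h3 : ∀ v, RR (x fun g => ψ g⁻¹).2 0 σ v = RR (x ψ).2 0 σ v := by
      intro v
      rw [hRR ψ hψ, hRR _ hψ', hz, mul_one, mul_one, inv_conj (AddSubgroup.subset_closure hψ),
        Complex.conj_re]
    unfold Lim at h1 h2
    simp only [h3] at h2
    exact_mod_cast tendsto_nhds_unique h2 h1
  · intro g
    obtain ⟨u, hu1, hu2⟩ := exists_unit ((theta m : GK K ⧸ U → ℂ) g)
    rw [← hu2]
    set c : (GK K ⧸ U → ℂ) → ℝ := fun ψ => (u * ψ g).re with hc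
    have h1 : (u * (theta m : GK K ⧸ U → ℂ) g).re = ∑ ψ ∈ irrF (GK K ⧸ U), c ψ * m ψ := by
      unfold theta
      rw [Finset.mul_sum, Complex.re_sum]
      refine Finset.sum_congr rfl fun ψ hψ => ?_
      rw [hc]
      simp only
      have e2 : u * ((m ψ : ℂ) * ψ g) = ((m ψ : ℝ) : ℂ) * (u * ψ g) := by
        push_cast
        ring
      rw [e2, Complex.re_ofReal_mul]
      ring
    rw [h1]
    have h2 : nrm U 0 (comb U (irrF (GK K ⧸ U)) (fun ψ => (x ψ).2) hxtriv c) ≤ 1 := by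
      refine (nrm_le _ 0 _).trans ?_
      have h3 : avR U (fun q => ‖comb U (irrF (GK K ⧸ U)) (fun ψ => (x ψ).2)
          hxtriv c q‖) ≤ 1 := by
        have h4 := comb_irr g u hu1
        have e3 : ∀ q, comb U (irrF (GK K ⧸ U)) (fun ψ => (x ψ).2) hxtriv c q =
            ∑ ψ ∈ irrF (GK K ⧸ U), (((u * ψ g).re : ℝ) : ℂ) * ψ q⁻¹ := by
          intro q
          unfold comb
          refine Finset.sum_congr rfl fun ψ hψ => ?_
          rw [hc]
          congr 1
          obtain ⟨w, rfl⟩ := QuotientGroup.mk_surjective q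
          have h5 := hxchar ψ (mem_irrF.1 hψ) w⁻¹
          exact h5
        unfold avR
        rw [finsum_eq_sum_of_fintype]
        simp only [e3]
        have h0 : (0 : ℝ) < Nat.card (GK K ⧸ U) := by exact_mod_cast Nat.card_pos
        rw [inv_mul_le_iff₀ h0, mul_one]
        exact h4
      rw [if_pos rfl, one_mul]
      exact h3
    refine le_trans (le_of_forall_pos_le_add fun η hη => ?_)
      (mul_le_of_le_one_right hs h2)
    have h4 := sup1 U hUo (irrF (GK K ⧸ U)) (fun ψ => (x ψ).2) hxtriv 0 σ hσ hs hT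
      (x := fun ψ ε => (EP (nm K) ε fun v => T v * RR (x ψ).2 0 σ v) / lam ε)
      (fun k _ => by
        simp only [sub_self]
        exact tendsto_const_nhds) c hη
    have h5 : Tendsto (fun ε : ℝ => ∑ ψ ∈ irrF (GK K ⧸ U), c ψ *
        ((EP (nm K) ε fun v => T v * RR (x ψ).2 0 σ v) / lam ε)) (𝓝[>] 0)
        (𝓝 (∑ ψ ∈ irrF (GK K ⧸ U), c ψ * m ψ)) :=
      tendsto_finsetSum _ fun ψ hψ => (hmlim ψ (mem_irrF.1 hψ)).const_mul _
    exact le_of_tendsto h5 (h4.mono fun ε hε => (le_abs_self _).trans hε)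
  · intro n χ hirr h δ hδ
    set ψ : GK K ⧸ U → ℂ := (qrep U χ h).character with hψd
    have hψ : ψ ∈ Pool.Agent.H541R3.ART.Irr (GK K ⧸ U) := ⟨n, qrep U χ h, qrep_irr _ χ h hirr, rfl⟩
    have hl := hmlim ψ hψ
    have hRR' : ∀ v, RR (x ψ).2 0 σ v = RR χ 0 σ v := by
      intro v
      unfold RR
      rw [hxchar ψ hψ]
      rfl
    unfold Lim at hl hδ
    simp only [hRR'] at hl
    exact tendsto_nhds_unique hδ hl

open Classical in
/-- the number of fixed embeddings, for elements of the quotient -/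
noncomputable def fixQ (U : Subgroup (GK K)) [U.Normal] (E : IntermediateField K (AlgebraicClosure K))
    [NumberField E] (h : ∀ u ∈ U, act K E u = 1) (q : GK K ⧸ U) : ℕ :=
  Nat.card {i : E →ₐ[K] AlgebraicClosure K // QuotientGroup.lift U (act K E) h q i = i}

lemma fixQ_mk (E : IntermediateField K (AlgebraicClosure K)) [NumberField E]
    (h : ∀ u ∈ U, act K E u = 1) (g : GK K) : fixQ U E h (QuotientGroup.mk g) = fixn K E g := rfl

include hs hT in
/-- **The mean values over the intermediate fields.** -/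
theorem size_data [Finite (GK K ⧸ U)] (E : IntermediateField K (AlgebraicClosure K))
    [NumberField E] (hE : ∀ u ∈ U, act K E u = 1)
    (H : ∀ (n : ℕ) (χ : Representation ℂ (GK K) (Fin n → ℂ)), χ.IsIrreducible →
      (∀ u ∈ U, χ u = 1) → ∃ δ : ℤ, Lim T σ ⟨n, χ⟩ 0 δ)
    (m : (GK K ⧸ U → ℂ) → ℤ)
    (hm : ∀ (n : ℕ) (χ : Representation ℂ (GK K) (Fin n → ℂ)) (_ : χ.IsIrreducible)
        (h : ∀ u ∈ U, χ u = 1) (δ : ℝ), Lim T σ ⟨n, χ⟩ 0 δ → δ = m (qrep U χ h).character) :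
    ∃ A : ℝ, Has (fun v => T v * (fixn K E (σ v) * cz 0 v)) A ∧
      (A : ℂ) * Nat.card (GK K ⧸ U) =
        ∑ᶠ q : GK K ⧸ U, (theta m : GK K ⧸ U → ℂ) q * (fixQ U E hE q : ℂ) := by
  classical
  let _ : Fintype (GK K ⧸ U) := Fintype.ofFinite _
  obtain ⟨L, hL, hfix⟩ := fix_decomp K E U hE
  set d : MRep (GK K) → ℝ := fun x => if h : ∀ u ∈ U, x.2 u = 1 then
    (m (qrep U x.2 h).character : ℝ) else 0 with hd
  have h1 := has_list hs hT σ U 0 d L (fun x hx => by
    refine ⟨(hL x hx).2, ?_⟩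
    obtain ⟨δ, hδ⟩ := H x.1 x.2 (hL x hx).1 (hL x hx).2
    have h2 := hm x.1 x.2 (hL x hx).1 (hL x hx).2 δ hδ
    have h3 : d x = δ := by
      rw [hd]
      simp only
      rw [dif_pos (hL x hx).2, h2]
    rw [h3]
    exact hδ)
  refine ⟨(L.map d).sum, h1.congr (fun v => ?_) rfl, ?_⟩
  · congr 1
    have e1 : ∀ L' : List (MRep (GK K)), (L'.map fun x => RR x.2 0 σ v).sum =
        ((L'.map fun x => x.2.character (σ v)⁻¹).sum * zz 0 v).re := by
      intro L'
      induction L' with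
      | nil => simp
      | cons x L' ih =>
        rw [List.map_cons, List.sum_cons, ih, List.map_cons, List.sum_cons, add_mul,
          Complex.add_re]
        rfl
    rw [e1, ← hfix, fixn_inv]
    unfold cz
    have e2 : ((fixn K E (σ v) : ℕ) : ℂ) = ((fixn K E (σ v) : ℝ) : ℂ) := by push_cast; rfl
    rw [e2, Complex.re_ofReal_mul]
  · rw [finsum_eq_sum_of_fintype]
    -- the sum over the list
    have e1 : ∀ L' : List (MRep (GK K)), (∀ x ∈ L', x ∈ L) →
        (((L'.map d).sum : ℝ) : ℂ) * Nat.card (GK K ⧸ U) =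
          ∑ q : GK K ⧸ U, (theta m : GK K ⧸ U → ℂ) q *
            (L'.map fun x => x.2.character (q⁻¹).out).sum := by
      intro L' hL'
      induction L' with
      | nil => simp
      | cons x L' ih =>
        have hx := hL x (hL' x List.mem_cons_self)
        have e2 := theta_pair m (χ := (qrep U x.2 hx.2).character)
          ⟨x.1, qrep U x.2 hx.2, qrep_irr U x.2 hx.2 hx.1, rfl⟩
        have e3 : d x = (m (qrep U x.2 hx.2).character : ℝ) := by
          rw [hd]
          simp only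
          rw [dif_pos hx.2]
        rw [List.map_cons, List.sum_cons]
        push_cast
        rw [add_mul, ih fun y hy => hL' y (List.mem_cons_of_mem _ hy), e3]
        push_cast
        rw [← e2, ← Finset.sum_add_distrib]
        refine Finset.sum_congr rfl fun q _ => ?_
        rw [List.map_cons, List.sum_cons, mul_add]
        congr 2
        conv_lhs => rw [← QuotientGroup.out_eq' q⁻¹]
        rfl
    rw [e1 L fun x hx => hx]
    refine Finset.sum_congr rfl fun q _ => ?_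
    rw [← hfix]
    congr 2
    obtain ⟨g, rfl⟩ := QuotientGroup.mk_surjective q
    rw [fixQ_mk, ← fixn_inv K E g]
    have h6 : (QuotientGroup.mk ((QuotientGroup.mk g : GK K ⧸ U)⁻¹).out : GK K ⧸ U) =
        QuotientGroup.mk g⁻¹ := QuotientGroup.out_eq' _
    rw [← fixQ_mk E hE, ← fixQ_mk E hE, h6]

end

end Pool.Agent.TH820.LG
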