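import Mathlib
import Pool.Agent.TH820.LG.OD1

/-! # Real virtual characters of absolute value at most two on groups of odd order: classification -/

set_option autoImplicit false
set_option linter.unusedSectionVars false

namespace Pool.Agent.TH820.LG

open Pool.Agent.H541R3.ART Pool.Agent.W446.AS ComplexConjugate

section
variable {G : Type} [Group G] [Finite G]

/-- the trivial character -/
lemma one_irr : (fun _ : G => (1 : ℂ)) ∈ Irr G := by
  classical
  have : Fintype G := Fintype.ofFinite G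
  refine irr_of_norm (by simpa using virt_lin (1 : G →* ℂˣ)) ?_ (by simp)
  simp

/-- the contragredient character -/
lemma inv_irr {χ : G → ℂ} (hχ : χ ∈ Irr G) : (fun g => χ g⁻¹) ∈ Irr G := by
  classical
  have : Fintype G := Fintype.ofFinite G
  refine irr_of_norm (virt_inv (AddSubgroup.subset_closure hχ)) ?_ ?_
  · rw [← pair_self hχ]
    refine Finset.sum_congr rfl fun g _ => ?_
    rw [inv_inv, mul_comm]
  · obtain ⟨d, hd0, hd1⟩ := irr_deg_pos hχ
    simp only [inv_one]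
    rw [hd1, Complex.natCast_re]
    exact_mod_cast hd0

/-- a group of odd order has no real irreducible character but the trivial one -/
lemma real_trivial (hodd : Odd (Nat.card G)) {χ : G → ℂ} (hχ : χ ∈ Irr G)
    (hr : ∀ g, χ g⁻¹ = χ g) : χ = fun _ => 1 := by
  classical
  have : Fintype G := Fintype.ofFinite G
  by_contra hne
  have hv : Virt χ := AddSubgroup.subset_closure hχ
  obtain ⟨d, hd0, hd1⟩ := irr_deg_pos hχ
  have h1 : ∑ g, χ g = ((0 : ℤ) : ℂ) * Nat.card G := by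
    have h2 := pair_ne hχ one_irr hne
    simp only [mul_one] at h2
    rw [h2]
    simp
  have h2 := odd_parity hodd hv hr h1 (l := d) (by rw [hd1]; simp)
  have h3 : ∑ g, (χ g * χ g) = ((1 : ℤ) : ℂ) * Nat.card G := by
    rw [Int.cast_one, one_mul, ← pair_self hχ]
    exact Finset.sum_congr rfl fun g _ => by rw [hr]
  have h4 := odd_parity hodd (virt_mul hv hv) (fun g => by simp only [hr]) h3 (l := d * d)
    (by rw [hd1]; push_cast; rfl)
  rw [zero_sub, even_neg] at h2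
  rw [Int.even_sub, Int.even_mul] at h4
  have h5 := h4.2 (Or.inl h2)
  exact absurd h5 (by decide)

lemma theta_norm [Fintype G] (m : (G → ℂ) → ℤ) :
    ∑ g, (theta m g : ℂ) * theta m g⁻¹ = ((∑ χ ∈ irrF G, (m χ) ^ 2 : ℤ) : ℂ) * Nat.card G := by
  have h1 : ∀ g : G, (theta m g : ℂ) * theta m g⁻¹ =
      ∑ χ ∈ irrF G, (m χ : ℂ) * (theta m g * χ g⁻¹) := by
    intro g
    conv_lhs => rw [theta, theta]
    rw [Finset.mul_sum]
    refine Finset.sum_congr rfl fun χ _ => ?_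
    rw [theta]
    ring
  rw [Finset.sum_congr rfl fun g _ => h1 g, Finset.sum_comm]
  push_cast
  rw [Finset.sum_mul]
  refine Finset.sum_congr rfl fun χ hχ => ?_
  rw [← Finset.mul_sum, theta_pair m (mem_irrF.1 hχ)]
  ring

lemma theta_real (m : (G → ℂ) → ℤ) (hm : ∀ χ ∈ Irr G, m (fun g => χ g⁻¹) = m χ) (g : G) :
    (theta m g⁻¹ : ℂ) = theta m g := by
  unfold theta
  refine Finset.sum_bij' (fun χ _ => fun g => χ g⁻¹) (fun χ _ => fun g => χ g⁻¹) ?_ ?_ ?_ ?_ ?_
  · exact fun χ hχ => mem_irrF.2 (inv_irr (mem_irrF.1 hχ))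
  · exact fun χ hχ => mem_irrF.2 (inv_irr (mem_irrF.1 hχ))
  · exact fun χ _ => by simp only [inv_inv]
  · exact fun χ _ => by simp only [inv_inv]
  · intro χ hχ
    simp only
    rw [hm χ (mem_irrF.1 hχ)]

/-- the value of a real virtual character is real -/
lemma theta_im (m : (G → ℂ) → ℤ) (hm : ∀ χ ∈ Irr G, m (fun g => χ g⁻¹) = m χ) (g : G) :
    (theta m g : ℂ) = ((theta m g : ℂ).re : ℂ) := by
  have h1 := theta_real m hm g
  rw [inv_conj (theta_virt m) g] at h1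
  exact (Complex.conj_eq_iff_real.1 h1).elim fun r hr => by rw [hr, Complex.ofReal_re]

lemma theta_norm_le (m : (G → ℂ) → ℤ) {b : ℕ} (hb : ∀ g, ‖(theta m g : ℂ)‖ ≤ b) :
    ∑ χ ∈ irrF G, (m χ) ^ 2 ≤ (b : ℤ) ^ 2 ∧
      (∑ χ ∈ irrF G, (m χ) ^ 2 = (b : ℤ) ^ 2 → ∀ g, ‖(theta m g : ℂ)‖ = b) := by
  classical
  have : Fintype G := Fintype.ofFinite G
  have h0 := theta_norm m
  have h1 : ∀ g, (theta m g : ℂ) * theta m g⁻¹ = ((‖(theta m g : ℂ)‖ ^ 2 : ℝ) : ℂ) := by
    intro g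
    rw [inv_conj (theta_virt m) g, Complex.mul_conj, Complex.normSq_eq_norm_sq]
  rw [Finset.sum_congr rfl fun g _ => h1 g] at h0
  have h2 : ∑ g, ‖(theta m g : ℂ)‖ ^ 2 = ((∑ χ ∈ irrF G, (m χ) ^ 2 : ℤ) : ℝ) * Nat.card G := by
    exact_mod_cast h0
  have hG : (0 : ℝ) < Nat.card G := by exact_mod_cast Nat.card_pos
  have h3 : ∀ g ∈ (Finset.univ : Finset G), ‖(theta m g : ℂ)‖ ^ 2 ≤ (b : ℝ) ^ 2 := fun g _ =>
    pow_le_pow_left₀ (norm_nonneg _) (hb g) 2
  have h4 : ∑ _g : G, (b : ℝ) ^ 2 = (b : ℝ) ^ 2 * Nat.card G := by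
    rw [Finset.sum_const, Finset.card_univ, Nat.card_eq_fintype_card, nsmul_eq_mul, mul_comm]
  refine ⟨?_, fun h g => ?_⟩
  · have h5 := Finset.sum_le_sum h3
    rw [h2, h4] at h5
    have h6 := le_of_mul_le_mul_right h5 hG
    exact_mod_cast h6
  · have h5 : ∑ g, ‖(theta m g : ℂ)‖ ^ 2 = ∑ _g : G, (b : ℝ) ^ 2 := by
      rw [h2, h4, h]
      push_cast
      ring
    have h6 := (Finset.sum_eq_sum_iff_of_le h3).1 h5 g (Finset.mem_univ g)
    have h7 : (0 : ℝ) ≤ b := Nat.cast_nonneg b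
    exact (sq_eq_sq₀ (norm_nonneg _) h7).1 h6

end

end Pool.Agent.TH820.LG
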