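import Mathlib
import Pool.Agent.TH820.LG.OD2

/-! # The classification of the real virtual characters bounded by two, groups of odd order -/

set_option autoImplicit false
set_option linter.unusedSectionVars false

namespace Pool.Agent.TH820.LG

open Pool.Agent.H541R3.ART Pool.Agent.W446.AS ComplexConjugate

section
variable {G : Type} [Group G] [Finite G]

lemma sum_pair_le {α : Type*} [DecidableEq α] (S T : Finset α) (f : α → ℤ)
    (h : T ⊆ S) : ∑ x ∈ T, (f x) ^ 2 ≤ ∑ x ∈ S, (f x) ^ 2 :=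
  Finset.sum_le_sum_of_subset_of_nonneg h fun _ _ _ => sq_nonneg _

/-- a function with values `2` and `-2` and mean value zero -/
lemma even_of_two [Fintype G] (f : G → ℂ) (h : ∀ g, f g = 2 ∨ f g = -2) (h0 : ∑ g, f g = 0) :
    Even (Nat.card G) := by
  classical
  set P := (Finset.univ : Finset G).filter fun g => f g = 2 with hP
  set Q := (Finset.univ : Finset G).filter fun g => ¬ f g = 2 with hQ
  have h1 : ∑ g, f g = 2 * P.card - 2 * Q.card := by
    rw [← Finset.sum_filter_add_sum_filter_not Finset.univ (fun g => f g = 2)]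
    rw [Finset.sum_congr rfl (g := fun _ => (2 : ℂ)) (fun g hg => (Finset.mem_filter.1 hg).2),
      Finset.sum_congr (s₁ := Finset.univ.filter fun g => ¬ f g = 2) rfl
        (g := fun _ => (-2 : ℂ)) (fun g hg => (h g).resolve_left (Finset.mem_filter.1 hg).2),
      Finset.sum_const, Finset.sum_const, nsmul_eq_mul, nsmul_eq_mul]
    ring
  rw [h0] at h1
  have h2 : (P.card : ℂ) = Q.card := by
    linear_combination (-1 / 2 : ℂ) * h1
  have h3 : P.card = Q.card := by exact_mod_cast h2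
  have h4 : P.card + Q.card = Nat.card G := by
    rw [hP, hQ, Finset.card_filter_add_card_filter_not, Finset.card_univ,
      Nat.card_eq_fintype_card]
  exact ⟨P.card, by omega⟩

/-- **The classification.** -/
theorem odd_class (hodd : Odd (Nat.card G)) (m : (G → ℂ) → ℤ)
    (hm : ∀ χ ∈ Irr G, m (fun g => χ g⁻¹) = m χ) (hb : ∀ g, ‖(theta m g : ℂ)‖ ≤ 2) :
    ∃ ψ ∈ Irr G, ψ 1 = 1 ∧ ∃ a c : ℤ, (∀ g, (theta m g : ℂ) = a + c * (ψ g + ψ g⁻¹)) ∧
      ((c = 0 ∧ |a| ≤ 2 ∧ ψ = fun _ => 1) ∨ (a = 0 ∧ |c| = 1 ∧ ψ ≠ fun _ => 1) ∨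
        (|a| = 1 ∧ c = -a ∧ (ψ ≠ fun _ => 1) ∧ ∀ g, ψ g ^ 3 = 1)) := by
  classical
  have : Fintype G := Fintype.ofFinite G
  set o : G → ℂ := fun _ => 1 with ho
  have hoI : o ∈ Irr G := one_irr
  obtain ⟨hk, hk4⟩ := theta_norm_le m (b := 2) (by exact_mod_cast hb)
  have hbr : ∀ g, |(theta m g : ℂ).re| ≤ 2 := fun g => (Complex.abs_re_le_norm _).trans (hb g)
  by_cases hS : ∃ χ ∈ Irr G, χ ≠ o ∧ m χ ≠ 0
  swap
  · -- a multiple of the trivial character
    push Not at hS
    have h1 : ∀ g, (theta m g : ℂ) = m o := by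
      intro g
      unfold theta
      rw [Finset.sum_eq_single o]
      · rw [ho, mul_one]
      · intro χ hχ hne
        rw [hS χ (mem_irrF.1 hχ) hne]
        simp
      · intro h
        exact absurd (mem_irrF.2 hoI) h
    refine ⟨o, hoI, rfl, m o, 0, fun g => by rw [h1]; simp, Or.inl ⟨rfl, ?_, rfl⟩⟩
    have h2 := hb 1
    rw [h1, Complex.norm_intCast] at h2
    exact_mod_cast h2
  obtain ⟨χ, hχ, hχo, hχm⟩ := hS
  set χ' : G → ℂ := fun g => χ g⁻¹ with hχ'
  have hχ'I : χ' ∈ Irr G := inv_irr hχ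
  have hne : ∀ φ ∈ Irr G, φ ≠ o → φ ≠ fun g => φ g⁻¹ := by
    intro φ hφ hφo h
    exact hφo (real_trivial hodd hφ fun g => (congrFun h g).symm)
  have hχχ' : χ ≠ χ' := hne χ hχ hχo
  have hχ'o : χ' ≠ o := by
    intro h
    apply hχo
    funext g
    have h1 := congrFun h g⁻¹
    simp only [hχ', inv_inv] at h1
    rw [h1]
  have hmχ' : m χ' = m χ := hm χ hχ
  have h3 : (m o) ^ 2 + 2 * (m χ) ^ 2 ≤ 4 := by
    have h1 : ∑ φ ∈ ({o, χ, χ'} : Finset (G → ℂ)), (m φ) ^ 2 ≤ ∑ φ ∈ irrF G, (m φ) ^ 2 := by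
      refine sum_pair_le _ _ m fun φ hφ => ?_
      rw [Finset.mem_insert, Finset.mem_insert, Finset.mem_singleton] at hφ
      rw [mem_irrF]
      rcases hφ with rfl | rfl | rfl
      · exact hoI
      · exact hχ
      · exact hχ'I
    rw [Finset.sum_insert (by simp [hχo.symm, hχ'o.symm]), Finset.sum_pair hχχ', hmχ'] at h1
    have h2 : ((2 : ℕ) : ℤ) ^ 2 = 4 := by norm_num
    rw [h2] at hk
    linarith
  have hmχ : |m χ| = 1 := by
    have h1 : 1 ≤ |m χ| := Int.one_le_abs hχm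
    have h2 : |m χ| ^ 2 = (m χ) ^ 2 := sq_abs _
    have h4 := sq_nonneg (m o)
    nlinarith
  have hmχ2 : (m χ) ^ 2 = 1 := by rw [← sq_abs, hmχ]; rfl
  have hmo : |m o| ≤ 1 := by
    have h2 : |m o| ^ 2 = (m o) ^ 2 := sq_abs _
    have h4 := abs_nonneg (m o)
    nlinarith
  -- all the other multiplicities are zero
  have hother : ∀ φ ∈ Irr G, φ ≠ o → φ ≠ χ → φ ≠ χ' → m φ = 0 := by
    intro φ hφ hφo hφχ hφχ'
    by_contra hφm
    set φ' : G → ℂ := fun g => φ g⁻¹ with hφ'
    have hφ'I : φ' ∈ Irr G := inv_irr hφ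
    have hφφ' : φ ≠ φ' := hne φ hφ hφo
    have hφ'' : φ = fun g => φ' g⁻¹ := by
      funext g
      simp only [hφ', inv_inv]
    have hφ'χ : φ' ≠ χ := by
      intro h
      apply hφχ'
      rw [hφ'', h]
    have hφ'χ' : φ' ≠ χ' := by
      intro h
      apply hφχ
      rw [hφ'', h]
      funext g
      simp only [hχ', inv_inv]
    have hφ'o : φ' ≠ o := by
      intro h
      apply hφo
      rw [hφ'', h]
    have hmφ' : m φ' = m φ := hm φ hφ
    have h1 : ∑ ψ ∈ ({o, χ, χ', φ, φ'} : Finset (G → ℂ)), (m ψ) ^ 2 ≤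
        ∑ ψ ∈ irrF G, (m ψ) ^ 2 := by
      refine sum_pair_le _ _ m fun ψ hψ => ?_
      simp only [Finset.mem_insert, Finset.mem_singleton] at hψ
      rw [mem_irrF]
      rcases hψ with rfl | rfl | rfl | rfl | rfl
      · exact hoI
      · exact hχ
      · exact hχ'I
      · exact hφ
      · exact hφ'I
    rw [Finset.sum_insert (by simp [hχo.symm, hχ'o.symm, hφo.symm, hφ'o.symm]),
      Finset.sum_insert (by simp [hχχ', hφχ.symm, hφ'χ.symm]),
      Finset.sum_insert (by simp [hφχ'.symm, hφ'χ'.symm]), Finset.sum_pair hφφ', hmφ',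
      hmχ', hmχ2] at h1
    have h2 : ((2 : ℕ) : ℤ) ^ 2 = 4 := by norm_num
    rw [h2] at hk hk4
    have h5 : 1 ≤ (m φ) ^ 2 := by
      have := sq_pos_of_ne_zero hφm
      omega
    have h6 := sq_nonneg (m o)
    have h7 : (m o) ^ 2 = 0 := by linarith
    have h8 : ∑ ψ ∈ irrF G, (m ψ) ^ 2 = 4 := le_antisymm hk (by linarith)
    have h9 := hk4 h8
    have h10 : m o = 0 := by simpa using h7
    refine absurd (even_of_two (fun g => (theta m g : ℂ)) (fun g => ?_) ?_)
      (Nat.not_even_iff_odd.2 hodd)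
    · have e1 := theta_im m hm g
      have e2 := h9 g
      rw [e1, Complex.norm_real, Real.norm_eq_abs] at e2
      rw [e1]
      rcases eq_or_eq_neg_of_abs_eq e2 with e3 | e3
      · left
        rw [e3]
        norm_num
      · right
        rw [e3]
        norm_num
    · have e1 := theta_pair m hoI
      rw [h10] at e1
      simpa [ho] using e1
  have hθ : ∀ g, (theta m g : ℂ) = m o + m χ * (χ g + χ g⁻¹) := by
    intro g
    have h1 : (theta m g : ℂ) = ∑ φ ∈ ({o, χ, χ'} : Finset (G → ℂ)), (m φ : ℂ) * φ g := by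
      unfold theta
      symm
      refine Finset.sum_subset (fun φ hφ => ?_) fun φ hφ hφn => ?_
      · rw [Finset.mem_insert, Finset.mem_insert, Finset.mem_singleton] at hφ
        rw [mem_irrF]
        rcases hφ with rfl | rfl | rfl
        · exact hoI
        · exact hχ
        · exact hχ'I
      · rw [Finset.mem_insert, Finset.mem_insert, Finset.mem_singleton] at hφn
        push Not at hφn
        rw [hother φ (mem_irrF.1 hφ) hφn.1 hφn.2.1 hφn.2.2]
        simp
    rw [h1, Finset.sum_insert (by simp [hχo.symm, hχ'o.symm]), Finset.sum_pair hχχ', hmχ']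
    simp only [ho, hχ']
    ring
  -- the degree
  obtain ⟨d, hd0, hd1⟩ := irr_deg_pos hχ
  have hdeg : |m o + 2 * (m χ * d)| ≤ 2 := by
    have h1 := hb 1
    rw [hθ 1, inv_one, hd1] at h1
    have h2 : ((m o : ℂ) + m χ * (d + d)) = ((m o + 2 * (m χ * d) : ℤ) : ℂ) := by
      push_cast
      ring
    rw [h2, Complex.norm_intCast] at h1
    exact_mod_cast h1
  have hd : d = 1 := by
    by_contra hne1
    have h2 : (2 : ℤ) ≤ d := by
      have : 2 ≤ d := by omega
      exact_mod_cast this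
    have h4 := abs_le.1 hdeg
    have h5 := abs_le.1 hmo
    rcases eq_or_eq_neg_of_abs_eq hmχ with h6 | h6
    · rw [h6] at h4
      omega
    · rw [h6] at h4
      omega
  subst hd
  have hχ1 : χ 1 = 1 := by rw [hd1]; simp
  refine ⟨χ, hχ, hχ1, m o, m χ, hθ, Or.inr ?_⟩
  by_cases hz : m o = 0
  · exact Or.inl ⟨hz, hmχ, hχo⟩
  right
  have hmo1 : |m o| = 1 := le_antisymm hmo (Int.one_le_abs hz)
  have hneg : m χ = - m o := by
    have h4 := abs_le.1 hdeg
    rcases eq_or_eq_neg_of_abs_eq hmχ with h6 | h6 <;>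
      rcases eq_or_eq_neg_of_abs_eq hmo1 with h7 | h7 <;> rw [h6, h7] at h4 ⊢ <;>
      first | rfl | (exfalso; revert h4; decide)
  refine ⟨hmo1, hneg, hχo, ?_⟩
  -- the values
  obtain ⟨μ, hμ⟩ := irr_one hχ hχ1
  have hinv : ∀ g, χ g * χ g⁻¹ = 1 := by
    intro g
    rw [hμ, hμ, map_inv, ← Units.val_mul, mul_inv_cancel, Units.val_one]
  set u : G → ℝ := fun g => (χ g + χ g⁻¹).re with hu
  have hureal : ∀ g, χ g + χ g⁻¹ = (u g : ℂ) := by
    intro g
    have h1 := inv_conj (AddSubgroup.subset_closure hχ) g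
    rw [hu]
    simp only
    rw [h1, Complex.add_conj, Complex.ofReal_re]
  have hnorm : ∀ g, ‖χ g‖ = 1 := by
    intro g
    have h1 := hinv g
    rw [inv_conj (AddSubgroup.subset_closure hχ) g, Complex.mul_conj,
      Complex.normSq_eq_norm_sq] at h1
    have h2 : ‖χ g‖ ^ 2 = 1 := by exact_mod_cast h1
    exact (sq_eq_sq₀ (norm_nonneg _) zero_le_one).1 (by rw [h2, one_pow])
  have hu2 : ∀ g, u g ≤ 2 := by
    intro g
    have h1 : u g = (χ g).re + (χ g⁻¹).re := by rw [hu]; simp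
    have h2 := Complex.re_le_norm (χ g)
    have h3' := Complex.re_le_norm (χ g⁻¹)
    rw [hnorm] at h2 h3'
    linarith
  have hu1 : ∀ g, -1 ≤ u g := by
    intro g
    have h1 := hb g
    rw [hθ g, hneg, hureal g] at h1
    have h2 : ((m o : ℂ) + ((-m o : ℤ) : ℂ) * (u g : ℂ)) = (m o : ℂ) * ((1 - u g : ℝ) : ℂ) := by
      push_cast
      ring
    rw [h2, norm_mul, Complex.norm_intCast, Complex.norm_real, Real.norm_eq_abs] at h1
    have h4 : |((m o : ℤ) : ℝ)| = 1 := by exact_mod_cast hmo1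
    rw [h4, one_mul] at h1
    have h5 := (abs_le.1 h1).2
    linarith
  have hs1 : ∑ g, χ g = 0 := by
    have h2 := pair_ne hχ hoI hχo
    simpa [ho] using h2
  have hs1' : ∑ g, χ g⁻¹ = 0 := by
    have h2 := pair_ne hχ'I hoI hχ'o
    simpa [ho, hχ'] using h2
  have hs2 : ∑ g, χ g * χ g = 0 := by
    have h2 := pair_ne hχ hχ'I hχχ'
    simpa [hχ'] using h2
  have hs2' : ∑ g, χ g⁻¹ * χ g⁻¹ = 0 := by
    rw [← hs2]
    exact Equiv.sum_comp (Equiv.inv G) (fun g => χ g * χ g)
  have hsum : ∑ g, ((u g) ^ 2 - u g - 2) = 0 := by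
    have h1 : ((∑ g, ((u g) ^ 2 - u g - 2) : ℝ) : ℂ) = 0 := by
      push_cast
      have h2 : ∀ g, ((u g : ℂ) ^ 2 - u g - 2) = χ g * χ g + χ g⁻¹ * χ g⁻¹ - (χ g + χ g⁻¹) := by
        intro g
        rw [← hureal g]
        linear_combination 2 * hinv g
      rw [Finset.sum_congr rfl fun g _ => h2 g, Finset.sum_sub_distrib, Finset.sum_add_distrib,
        Finset.sum_add_distrib, hs1, hs1', hs2, hs2']
      ring
    exact_mod_cast h1
  have hle : ∀ g ∈ (Finset.univ : Finset G), 0 ≤ -((u g) ^ 2 - u g - 2) := by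
    intro g _
    have h1 := hu1 g
    have h2 := hu2 g
    nlinarith
  have hz0 : ∀ g, (u g) ^ 2 - u g - 2 = 0 := by
    intro g
    have h1 := (Finset.sum_eq_zero_iff_of_nonneg hle).1 (by
      rw [Finset.sum_neg_distrib, hsum, neg_zero]) g (Finset.mem_univ g)
    linarith
  intro g
  have h1 : (u g - 2) * (u g + 1) = 0 := by
    have := hz0 g
    nlinarith
  have h2 := hinv g
  have h4 := hureal g
  rcases mul_eq_zero.1 h1 with h5 | h5
  · have h6 : u g = 2 := by linarith
    rw [h6] at h4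
    have h7 : (χ g - 1) ^ 2 = 0 := by
      have h8 : χ g⁻¹ = 2 - χ g := by
        have : χ g + χ g⁻¹ = 2 := by rw [h4]; norm_num
        linear_combination this
      rw [h8] at h2
      linear_combination -h2
    have h8 : χ g = 1 := by
      have := pow_eq_zero_iff (two_ne_zero) |>.1 h7
      exact sub_eq_zero.1 this
    rw [h8, one_pow]
  · have h6 : u g = -1 := by linarith
    rw [h6] at h4
    have h8 : χ g⁻¹ = -1 - χ g := by
      have : χ g + χ g⁻¹ = -1 := by rw [h4]; norm_num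
      linear_combination this
    rw [h8] at h2
    have h9 : (χ g) ^ 2 + χ g + 1 = 0 := by linear_combination -h2
    linear_combination (χ g - 1) * h9

end

end Pool.Agent.TH820.LG
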