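import Mathlib
import Pool.Agent.TH820.LG.OD3

/-! # Real virtual characters of absolute value at most two: a step of index two -/

set_option autoImplicit false
set_option linter.unusedSectionVars false

namespace Pool.Agent.TH820.LG

open Pool.Agent.H541R3.ART Pool.Agent.W446.AS ComplexConjugate

section
variable {G : Type} [Group G] [Finite G]

/-- the multiplicities of a virtual character -/
lemma exists_theta {f : G → ℂ} (hf : Virt f) (hr : ∀ g, f g⁻¹ = f g) :
    ∃ m : (G → ℂ) → ℤ, (∀ g, f g = theta m g) ∧ ∀ χ ∈ Irr G, m (fun g => χ g⁻¹) = m χ := by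
  classical
  have : Fintype G := Fintype.ofFinite G
  choose! k hk using fun χ (hχ : χ ∈ Irr G) => hf.pr_int hχ
  refine ⟨k, fun g => ?_, fun χ hχ => ?_⟩
  · rw [hf.expand g]
    unfold theta
    exact Finset.sum_congr rfl fun χ hχ => by rw [hk χ (mem_irrF.1 hχ)]
  · have h1 : pr f (fun g => χ g⁻¹) = pr f χ := by
      rw [pr_eq, pr_eq]
      congr 1
      rw [← Equiv.sum_comp (Equiv.inv G)]
      refine Finset.sum_congr rfl fun g _ => ?_
      simp only [Equiv.inv_apply, inv_inv]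
      rw [hr]
    rw [hk χ hχ, hk _ (inv_irr hχ)] at h1
    exact_mod_cast h1

/-- twist of an irreducible character by a linear character -/
lemma twist_irr {χ : G → ℂ} (hχ : χ ∈ Irr G) (ε : G →* ℂˣ) :
    (fun g => χ g * ((ε g : ℂˣ) : ℂ)) ∈ Irr G := by
  classical
  have : Fintype G := Fintype.ofFinite G
  refine irr_of_norm (virt_mul (AddSubgroup.subset_closure hχ) (virt_lin ε)) ?_ ?_
  · rw [← pair_self hχ]
    refine Finset.sum_congr rfl fun g _ => ?_
    have h1 : ((ε g : ℂˣ) : ℂ) * ((ε g⁻¹ : ℂˣ) : ℂ) = 1 := by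
      rw [map_inv, ← Units.val_mul, mul_inv_cancel, Units.val_one]
    linear_combination (χ g * χ g⁻¹) * h1
  · obtain ⟨d, hd0, hd1⟩ := irr_deg_pos hχ
    rw [map_one, Units.val_one, mul_one, hd1, Complex.natCast_re]
    exact_mod_cast hd0

lemma sq_eq_one_iff_of_ne_zero_aux {z : ℂ} (h : z ^ 2 = 1) : z = 1 ∨ z = -1 :=
  sq_eq_sq_iff_eq_or_eq_neg.1 (h.trans (one_pow 2).symm)

/-- a sum of an odd number of signs is not zero -/
lemma odd_signs {α : Type*} (S : Finset α) (f : α → ℂ) (h : ∀ x ∈ S, f x = 1 ∨ f x = -1)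
    (hS : Odd S.card) : ∑ x ∈ S, f x ≠ 0 := by
  classical
  intro h0
  have h1 : ∀ T : Finset α, (∀ x ∈ T, f x = 1 ∨ f x = -1) →
      ∃ k : ℤ, ∑ x ∈ T, f x = k ∧ Even (k - T.card) := by
    intro T hT
    induction T using Finset.induction_on with
    | empty => exact ⟨0, by simp, by simp⟩
    | insert a T ha ih =>
      obtain ⟨k, hk, hk2⟩ := ih fun x hx => hT x (Finset.mem_insert_of_mem hx)
      rw [Finset.sum_insert ha, Finset.card_insert_of_notMem ha]
      obtain ⟨l, hl⟩ := hk2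
      rcases hT a (Finset.mem_insert_self a T) with h2 | h2
      · refine ⟨k + 1, by rw [h2, hk]; push_cast; ring, l, ?_⟩
        push_cast
        linarith
      · refine ⟨k - 1, by rw [h2, hk]; push_cast; ring, l - 1, ?_⟩
        push_cast
        linarith
  obtain ⟨k, hk, hk2⟩ := h1 S h
  rw [h0] at hk
  have h3 : k = 0 := by exact_mod_cast hk.symm
  rw [h3, zero_sub, even_neg] at hk2
  have h4 : Even S.card := by exact_mod_cast hk2
  exact (Nat.not_even_iff_odd.2 hS) h4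

/-- **The step.** -/
theorem two_step (m : (G → ℂ) → ℤ) (hm : ∀ χ ∈ Irr G, m (fun g => χ g⁻¹) = m χ)
    (hb : ∀ g, ‖(theta m g : ℂ)‖ ≤ 2) (ε : G →* ℂˣ) (hε : ∀ g, ε g ^ 2 = 1) (y : G)
    (hy : ε y ≠ 1) (N : Subgroup G) [N.Normal] (hN : Odd (Nat.card N))
    (hNε : ∀ n ∈ N, ε n = 1) (hinv : ∀ g, ε g = 1 → ∀ n ∈ N, (theta m (n * g) : ℂ) = theta m g)
    {χ : G → ℂ} (hχ : χ ∈ Irr G) (hmχ : m χ ≠ 0) {x : G} (hxN : x ∈ N) (hx : χ x ≠ χ 1) :
    False := by
  classical
  have : Fintype G := Fintype.ofFinite G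
  have : Fintype N := Fintype.ofFinite N
  have hG0 : (Nat.card G : ℂ) ≠ 0 := by exact_mod_cast Nat.card_pos.ne'
  have hG1 : (0 : ℝ) < Nat.card G := by exact_mod_cast Nat.card_pos
  -- the values of `ε`
  have hval : ∀ g, ε g ≠ 1 → ((ε g : ℂˣ) : ℂ) = -1 := by
    intro g hg
    have h1 : ((ε g : ℂˣ) : ℂ) ^ 2 = 1 := by
      rw [← Units.val_pow_eq_pow_val, hε, Units.val_one]
    rcases sq_eq_one_iff_of_ne_zero_aux h1 with h | h
    · exact absurd (Units.ext (by rw [h, Units.val_one])) hg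
    · exact h
  have hinvε : ∀ g, ((ε g⁻¹ : ℂˣ) : ℂ) = ((ε g : ℂˣ) : ℂ) := by
    intro g
    have h1 : ε g⁻¹ = ε g := by
      rw [map_inv]
      exact inv_eq_of_mul_eq_one_left (by rw [← sq, hε])
    rw [h1]
  set A : G → ℂ := fun g => if ε g = 1 then theta m g else 0 with hA
  set B : G → ℂ := fun g => if ε g = 1 then 0 else theta m g with hB
  have hAB : ∀ g, (theta m g : ℂ) = A g + B g := by
    intro g
    simp only [hA, hB]
    split_ifs <;> simp
  have hAB' : ∀ g, (theta m g : ℂ) * ((ε g : ℂˣ) : ℂ) = A g - B g := by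
    intro g
    simp only [hA, hB]
    split_ifs with h
    · rw [h, Units.val_one, mul_one, sub_zero]
    · rw [hval g h]
      ring
  -- (a)
  have hS : ∑ g, A g * χ g⁻¹ = 0 := by
    refine pair_zero hχ N (fun n hn z => ?_) hxN hx
    simp only [hA]
    have h1 : ε (n * z) = ε z := by rw [map_mul, hNε n hn, one_mul]
    rw [h1]
    split_ifs with h
    · exact hinv z h n hn
    · rfl
  -- (b)
  set χ₁ : G → ℂ := fun g => χ g * ((ε g : ℂˣ) : ℂ) with hχ₁
  have hχ₁I : χ₁ ∈ Irr G := twist_irr hχ ε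
  have hT : ∑ g, B g * χ g⁻¹ = m χ * Nat.card G := by
    rw [← theta_pair m hχ]
    rw [← zero_add (∑ g, B g * χ g⁻¹), ← hS, ← Finset.sum_add_distrib]
    refine Finset.sum_congr rfl fun g _ => ?_
    rw [hAB g]
    ring
  have hT' : m χ₁ = - m χ := by
    have h1 := theta_pair m hχ₁I
    have h2 : ∑ g, (theta m g : ℂ) * χ₁ g⁻¹ = ∑ g, A g * χ g⁻¹ - ∑ g, B g * χ g⁻¹ := by
      rw [← Finset.sum_sub_distrib]
      refine Finset.sum_congr rfl fun g _ => ?_
      simp only [hχ₁]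
      rw [hinvε, ← sub_mul, ← hAB' g]
      ring
    rw [h2, hS, hT, zero_sub, ← neg_mul] at h1
    have h3 := mul_right_cancel₀ hG0 h1
    exact_mod_cast h3.symm
  have hne1 : χ₁ ≠ χ := by
    intro h
    rw [h] at hT'
    omega
  -- (c)
  set χ' : G → ℂ := fun g => χ g⁻¹ with hχ'
  have hχ'I : χ' ∈ Irr G := inv_irr hχ
  have hmχ' : m χ' = m χ := hm χ hχ
  have hreal : χ' = χ := by
    by_contra hcon
    set χ₁' : G → ℂ := fun g => χ₁ g⁻¹ with hχ₁'
    have hχ₁'I : χ₁' ∈ Irr G := inv_irr hχ₁I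
    have hmχ₁' : m χ₁' = m χ₁ := hm χ₁ hχ₁I
    have e1 : χ' ≠ χ₁ := by
      intro h
      rw [h] at hmχ'
      omega
    have e2 : χ₁' ≠ χ := by
      intro h
      rw [h] at hmχ₁'
      omega
    have e3 : χ₁' ≠ χ' := by
      intro h
      rw [h] at hmχ₁'
      omega
    have e4 : χ₁' ≠ χ₁ := by
      intro h
      apply hcon
      funext g
      have h1 := congrFun h g
      simp only [hχ₁', hχ₁] at h1
      rw [hinvε] at h1
      exact mul_right_cancel₀ (Units.ne_zero (ε g)) h1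
    obtain ⟨hk, hk4⟩ := theta_norm_le m (b := 2) (by exact_mod_cast hb)
    have h1 : ∑ φ ∈ ({χ, χ₁, χ', χ₁'} : Finset (G → ℂ)), (m φ) ^ 2 ≤
        ∑ φ ∈ irrF G, (m φ) ^ 2 := by
      refine sum_pair_le _ _ m fun φ hφ => ?_
      rw [Finset.mem_insert, Finset.mem_insert, Finset.mem_insert, Finset.mem_singleton] at hφ
      rw [mem_irrF]
      rcases hφ with rfl | rfl | rfl | rfl
      · exact hχ
      · exact hχ₁I
      · exact hχ'I
      · exact hχ₁'I
    rw [Finset.sum_insert (by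
        simp only [Finset.mem_insert, Finset.mem_singleton, not_or]
        exact ⟨hne1.symm, fun h => hcon h.symm, e2.symm⟩),
      Finset.sum_insert (by
        simp only [Finset.mem_insert, Finset.mem_singleton, not_or]
        exact ⟨e1.symm, e4.symm⟩), Finset.sum_pair e3.symm, hmχ', hmχ₁', hT'] at h1
    have h2 : 1 ≤ (m χ) ^ 2 := by
      have := Int.one_le_abs hmχ
      nlinarith [sq_abs (m χ)]
    have h3 : ((2 : ℕ) : ℤ) ^ 2 = 4 := by norm_num
    rw [h3] at hk hk4
    have h4 : ∑ φ ∈ irrF G, (m φ) ^ 2 = 4 := by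
      refine le_antisymm hk ?_
      nlinarith
    have h5 : (m χ) ^ 2 = 1 := by nlinarith
    -- the virtual character vanishes at one
    have h6 : ∀ φ ∈ irrF G, φ ∉ ({χ, χ₁, χ', χ₁'} : Finset (G → ℂ)) → m φ = 0 := by
      intro φ hφ hφ2
      by_contra h7
      have h8 : ∑ φ ∈ insert φ ({χ, χ₁, χ', χ₁'} : Finset (G → ℂ)), (m φ) ^ 2 ≤
          ∑ φ ∈ irrF G, (m φ) ^ 2 := by
        refine sum_pair_le _ _ m fun φ' hφ' => ?_
        rw [Finset.mem_insert, Finset.mem_insert, Finset.mem_insert, Finset.mem_insert,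
          Finset.mem_singleton] at hφ'
        rcases hφ' with rfl | rfl | rfl | rfl | rfl
        · exact hφ
        · exact mem_irrF.2 hχ
        · exact mem_irrF.2 hχ₁I
        · exact mem_irrF.2 hχ'I
        · exact mem_irrF.2 hχ₁'I
      rw [Finset.sum_insert hφ2, h4] at h8
      have h9 : 1 ≤ (m φ) ^ 2 := by
        have := Int.one_le_abs h7
        nlinarith [sq_abs (m φ)]
      have h10 : ∑ φ ∈ ({χ, χ₁, χ', χ₁'} : Finset (G → ℂ)), (m φ) ^ 2 = 4 := by
        rw [Finset.sum_insert (by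
            simp only [Finset.mem_insert, Finset.mem_singleton, not_or]
            exact ⟨hne1.symm, fun h => hcon h.symm, e2.symm⟩),
          Finset.sum_insert (by
            simp only [Finset.mem_insert, Finset.mem_singleton, not_or]
            exact ⟨e1.symm, e4.symm⟩), Finset.sum_pair e3.symm, hmχ', hmχ₁', hT']
        nlinarith
      rw [h10] at h8
      linarith
    have h7 : (theta m 1 : ℂ) = 0 := by
      have h8 : (theta m 1 : ℂ) = ∑ φ ∈ ({χ, χ₁, χ', χ₁'} : Finset (G → ℂ)), (m φ : ℂ) * φ 1 := by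
        unfold theta
        symm
        refine Finset.sum_subset (fun φ hφ => ?_) fun φ hφ hφ2 => by rw [h6 φ hφ hφ2]; simp
        rw [Finset.mem_insert, Finset.mem_insert, Finset.mem_insert, Finset.mem_singleton] at hφ
        rw [mem_irrF]
        rcases hφ with rfl | rfl | rfl | rfl
        · exact hχ
        · exact hχ₁I
        · exact hχ'I
        · exact hχ₁'I
      rw [h8, Finset.sum_insert (by
          simp only [Finset.mem_insert, Finset.mem_singleton, not_or]
          exact ⟨hne1.symm, fun h => hcon h.symm, e2.symm⟩),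
        Finset.sum_insert (by
          simp only [Finset.mem_insert, Finset.mem_singleton, not_or]
          exact ⟨e1.symm, e4.symm⟩), Finset.sum_pair e3.symm, hmχ', hmχ₁', hT']
      simp only [hχ₁, hχ', hχ₁', inv_one, map_one, Units.val_one, mul_one]
      push_cast
      ring
    have h8 := hk4 h4 1
    rw [h7] at h8
    norm_num at h8
  have hconj : ∀ g, conj (χ g) = χ g := by
    intro g
    have h1 := inv_conj (AddSubgroup.subset_closure hχ : Virt χ) g
    have h2 := congrFun hreal g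
    simp only [hχ'] at h2
    rw [h2] at h1
    exact h1.symm
  -- (d)
  have hmul : ∀ g, χ g * χ g⁻¹ = ((‖χ g‖ ^ 2 : ℝ) : ℂ) := by
    intro g
    rw [inv_conj (AddSubgroup.subset_closure hχ : Virt χ) g, Complex.mul_conj,
      Complex.normSq_eq_norm_sq]
  set P : Finset G := Finset.univ.filter fun g => ¬ ε g = 1 with hP
  have hsq1 : ∑ g, ‖χ g‖ ^ 2 = Nat.card G := by
    have h1 := pair_self hχ
    rw [Finset.sum_congr rfl fun g _ => hmul g] at h1
    exact_mod_cast h1
  have hsgn : ∀ g, ((ε g : ℂˣ) : ℂ) = (((if ε g = 1 then 1 else -1 : ℝ)) : ℂ) := by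
    intro g
    split_ifs with h
    · rw [h]
      simp
    · rw [hval g h]
      simp
  have hsq2 : ∑ g, ‖χ g‖ ^ 2 * (if ε g = 1 then 1 else -1 : ℝ) = 0 := by
    have h1 := pair_ne hχ hχ₁I hne1.symm
    have h2 : ∀ g, χ g * χ₁ g⁻¹ = ((‖χ g‖ ^ 2 * (if ε g = 1 then 1 else -1 : ℝ) : ℝ) : ℂ) := by
      intro g
      simp only [hχ₁]
      rw [hinvε, ← mul_assoc, hmul, hsgn]
      push_cast
      ring
    rw [Finset.sum_congr rfl fun g _ => h2 g] at h1
    exact_mod_cast h1
  have hone : ∑ g, (if ε g = 1 then 1 else -1 : ℝ) = 0 := by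
    have h1 : ∑ g, ((ε g : ℂˣ) : ℂ) = 0 := by
      have h2 : ∑ g, ((ε g : ℂˣ) : ℂ) = - ∑ g, ((ε g : ℂˣ) : ℂ) := by
        conv_lhs => rw [← Equiv.sum_comp (Equiv.mulLeft y)]
        rw [← Finset.sum_neg_distrib]
        refine Finset.sum_congr rfl fun g _ => ?_
        rw [Equiv.coe_mulLeft, map_mul, Units.val_mul, hval y hy]
        ring
      linear_combination (1 / 2 : ℂ) * h2
    rw [Finset.sum_congr rfl fun g _ => hsgn g] at h1
    exact_mod_cast h1
  have hP1 : ∑ g ∈ P, ‖χ g‖ ^ 2 = Nat.card G / 2 := by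
    have h1 : ∑ g ∈ P, ‖χ g‖ ^ 2 = ∑ g, (‖χ g‖ ^ 2 * (1 / 2) -
        ‖χ g‖ ^ 2 * (if ε g = 1 then 1 else -1 : ℝ) * (1 / 2)) := by
      rw [hP, Finset.sum_filter]
      refine Finset.sum_congr rfl fun g _ => ?_
      by_cases h : ε g = 1
      · rw [if_neg (not_not.2 h), if_pos h]
        ring
      · rw [if_pos h, if_neg h]
        ring
    rw [h1, Finset.sum_sub_distrib, ← Finset.sum_mul, ← Finset.sum_mul, hsq1, hsq2]
    ring
  have hP2 : (P.card : ℝ) = Nat.card G / 2 := by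
    have h1 : (P.card : ℝ) = ∑ g : G, ((1 : ℝ) * (1 / 2) -
        (if ε g = 1 then 1 else -1 : ℝ) * (1 / 2)) := by
      rw [hP, Finset.card_filter]
      push_cast
      refine Finset.sum_congr rfl fun g _ => ?_
      by_cases h : ε g = 1
      · rw [if_neg (not_not.2 h), if_pos h]
        ring
      · rw [if_pos h, if_neg h]
        ring
    rw [h1, Finset.sum_sub_distrib, ← Finset.sum_mul, ← Finset.sum_mul, hone, Finset.sum_const,
      Finset.card_univ, ← Nat.card_eq_fintype_card, nsmul_eq_mul]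
    ring
  have hP3 : (Nat.card G : ℝ) ≤ ∑ g ∈ P, 2 * ‖χ g‖ := by
    have h1 : ∑ g ∈ P, (theta m g : ℂ) * χ g⁻¹ = m χ * Nat.card G := by
      rw [← hT, hP, Finset.sum_filter]
      refine Finset.sum_congr rfl fun g _ => ?_
      simp only [hB]
      by_cases h : ε g = 1
      · rw [if_neg (not_not.2 h), if_pos h, zero_mul]
      · rw [if_pos h, if_neg h]
    have h2 : (Nat.card G : ℝ) ≤ ‖(m χ : ℂ) * Nat.card G‖ := by
      rw [norm_mul, Complex.norm_intCast, Complex.norm_natCast]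
      have h3 : (1 : ℝ) ≤ |(m χ : ℝ)| := by exact_mod_cast Int.one_le_abs hmχ
      nlinarith
    refine h2.trans ?_
    rw [← h1]
    refine (norm_sum_le _ _).trans (Finset.sum_le_sum fun g _ => ?_)
    rw [norm_mul]
    have h3 : ‖χ g⁻¹‖ = ‖χ g‖ := by
      rw [inv_conj (AddSubgroup.subset_closure hχ : Virt χ) g, Complex.norm_conj]
    rw [h3]
    exact mul_le_mul_of_nonneg_right (hb g) (norm_nonneg _)
  have hP4 : ∑ g ∈ P, (‖χ g‖ - 1) ^ 2 ≤ 0 := by
    have h1 : ∑ g ∈ P, (‖χ g‖ - 1) ^ 2 = ∑ g ∈ P, ‖χ g‖ ^ 2 - ∑ g ∈ P, 2 * ‖χ g‖ + P.card := by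
      have h2 : ∀ g ∈ P, (‖χ g‖ - 1) ^ 2 = ‖χ g‖ ^ 2 - 2 * ‖χ g‖ + 1 := fun g _ => by ring
      rw [Finset.sum_congr rfl h2, Finset.sum_add_distrib, Finset.sum_sub_distrib,
        Finset.sum_const, nsmul_eq_mul, mul_one]
    rw [h1, hP1, hP2]
    linarith
  have hP5 : ∀ g, ε g ≠ 1 → χ g = 1 ∨ χ g = -1 := by
    intro g hg
    have h1 : ∀ g ∈ P, (0 : ℝ) ≤ (‖χ g‖ - 1) ^ 2 := fun g _ => sq_nonneg _
    have h2 : (‖χ g‖ - 1) ^ 2 = 0 :=
      (Finset.sum_eq_zero_iff_of_nonneg h1).1 (le_antisymm hP4 (Finset.sum_nonneg h1)) g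
        (Finset.mem_filter.2 ⟨Finset.mem_univ _, hg⟩)
    have h3 : ‖χ g‖ = 1 := by
      have := pow_eq_zero_iff (two_ne_zero) |>.1 h2
      linarith
    obtain ⟨r, hr⟩ := Complex.conj_eq_iff_real.1 (hconj g)
    rw [hr, Complex.norm_real, Real.norm_eq_abs] at h3
    rcases abs_eq (zero_le_one' ℝ) |>.1 h3 with h | h
    · left
      rw [hr, h]
      simp
    · right
      rw [hr, h]
      simp
  -- (e)
  have h1 := sum_coset_zero hχ N hxN hx y
  rw [finsum_eq_sum_of_fintype] at h1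
  refine odd_signs (Finset.univ : Finset N) (fun n => χ (y * n)) (fun n _ => hP5 _ ?_) ?_ h1
  · rw [map_mul, hNε n n.2, mul_one]
    exact hy
  · rw [Finset.card_univ, ← Nat.card_eq_fintype_card]
    exact hN

end

end Pool.Agent.TH820.LG
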