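import Mathlib
import Pool.Agent.TH820.LG.OD7
import Pool.Agent.TH820.LG.V1
import Pool.Agent.W446.AS.Main1

/-! # Real virtual characters of absolute value at most two and normal subgroups of odd order -/

set_option autoImplicit false
set_option linter.unusedSectionVars false

namespace Pool.Agent.TH820.LG

open Pool.Agent.H541R3.ART Pool.Agent.W446.AS ComplexConjugate

lemma not_isN {G : Type} [Group G] [Fintype G] (N : Subgroup G) {χ : G → ℂ}
    (hχ : χ ∈ Irr G) (h : ∀ n ∈ N, χ n = χ 1) : ¬ isN N χ := by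
  classical
  intro hN
  have hS : (Nat.card N : ℂ) ≠ 0 := by exact_mod_cast Nat.card_pos.ne'
  have h2 := hN 1
  have h3 : ∀ x, (if x ∈ N then (1 : ℂ) else 0) * χ (1 * x) =
      (if x ∈ N then (1 : ℂ) else 0) * χ 1 := by
    intro x
    by_cases hx : x ∈ N
    · rw [one_mul, h x hx]
    · rw [if_neg hx, zero_mul, zero_mul]
  rw [Finset.sum_congr rfl fun x _ => h3 x, ← Finset.sum_mul, Finset.sum_boole] at h2
  obtain ⟨d, hd0, hd1⟩ := irr_deg_pos hχ
  rcases mul_eq_zero.1 h2 with h4 | h4
  · apply hS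
    rw [Nat.card_eq_fintype_card, Fintype.card_subtype]
    exact h4
  · rw [hd1] at h4
    have : d = 0 := by exact_mod_cast h4
    omega

/-- a linear character with real part one -/
lemma lin_val_one {G : Type} [Group G] [Finite G] {ψ : G → ℂ} (hψ : ψ ∈ Irr G) (hψ1 : ψ 1 = 1)
    {n : G} (h1 : ψ n + ψ n⁻¹ = 2) : ψ n = 1 := by
  obtain ⟨μ, hμ⟩ := irr_one hψ hψ1
  have h3 : ψ n⁻¹ = conj (ψ n) := inv_conj (AddSubgroup.subset_closure hψ : Virt ψ) n
  rw [h3, Complex.add_conj] at h1
  have h4 : (ψ n).re = 1 := by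
    have h5 : ((2 * (ψ n).re : ℝ) : ℂ) = ((2 : ℝ) : ℂ) := by rw [h1]; norm_num
    have h6 : 2 * (ψ n).re = 2 := by exact_mod_cast h5
    linarith
  have h5 : ‖ψ n‖ = 1 := by
    rw [hμ]
    refine Complex.norm_eq_one_of_pow_eq_one (n := Nat.card G) ?_ Nat.card_pos.ne'
    rw [← Units.val_pow_eq_pow_val, ← map_pow, pow_card_eq_one', map_one, Units.val_one]
  have h6 : ‖ψ n‖ ^ 2 = (ψ n).re ^ 2 + (ψ n).im ^ 2 := by
    rw [← Complex.normSq_eq_norm_sq, Complex.normSq_apply]
    ring
  rw [h5, h4] at h6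
  have h7 : (ψ n).im = 0 := by nlinarith
  exact Complex.ext (by rw [h4]; rfl) (by rw [h7]; rfl)

/-- a character which is constant on a normal subgroup -/
lemma irr_inv {G : Type} [Group G] [Finite G] (N : Subgroup G) [N.Normal] {χ : G → ℂ}
    (hχ : χ ∈ Irr G) (h : ∀ n ∈ N, χ n = χ 1) (g : G) {n : G} (hn : n ∈ N) :
    χ (n * g) = χ g := by
  classical
  have : Fintype G := Fintype.ofFinite G
  have hS : (Nat.card N : ℂ) ≠ 0 := by exact_mod_cast Nat.card_pos.ne'
  have h1 : ¬ isN N χ := not_isN N hχ h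
  have h2 : χ (n * g) = χ (g * n) := by
    have h3 := Pool.Agent.H541R3.ART.Irr.conj hχ (n * g) n⁻¹
    rw [← h3]
    congr 1
    group
  rw [h2]
  apply mul_left_cancel₀ hS
  rw [← old_sum N hχ h1 (g * n), ← old_sum N hχ h1 g]
  rw [← Equiv.sum_comp (Equiv.mulLeft n) (fun x => (if x ∈ N then (1 : ℂ) else 0) * χ (g * x))]
  refine Finset.sum_congr rfl fun x _ => ?_
  rw [Equiv.coe_mulLeft, mul_assoc]
  congr 1
  exact if_congr ⟨fun hx => N.mul_mem hn hx, fun hx => by
    have := N.mul_mem (N.inv_mem hn) hx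
    rwa [inv_mul_cancel_left] at this⟩ rfl rfl

theorem const_inv_aux (k : ℕ) : ∀ (G : Type) [Group G] [Finite G] (_ : Nat.card G < k)
    (N : Subgroup G) (_ : N.Normal) (_ : Odd (Nat.card N)) (f : G → ℂ) (_ : Virt f)
    (_ : ∀ g, f g⁻¹ = f g) (_ : ∀ g, ‖f g‖ ≤ 2) (_ : ∀ n ∈ N, f n = f 1),
    ∀ g, ∀ n ∈ N, f (n * g) = f g := by
  classical
  induction k with
  | zero => intro G _ _ h; omega
  | succ k ih =>
    intro G _ _ hcard N hNn hodd f hf hr hb hc g n hn
    -- proper subgroups containing `N`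
    have hsub : ∀ H : Subgroup G, H ≠ ⊤ → N ≤ H → ∀ h ∈ H, ∀ n ∈ N, f (n * h) = f h := by
      intro H hH hNH h hh n hn
      have hlt : Nat.card H < Nat.card G := by
        have h1 : Nat.card H ≤ Nat.card G := Subgroup.card_le_card_group H
        refine lt_of_le_of_ne h1 fun h2 => hH ?_
        exact Subgroup.eq_top_of_card_eq H h2
      have hN' : Nat.card (N.subgroupOf H) = Nat.card N :=
        Nat.card_congr (Subgroup.subgroupOfEquivOfLe hNH).toEquiv
      have h1 := ih H (by omega) (N.subgroupOf H) inferInstance (by rw [hN']; exact hodd)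
        (fun x => f (H.subtype x)) (hf.comp H.subtype) (fun x => by rw [map_inv]; exact hr _)
        (fun x => hb _) (fun x hx => by
          rw [map_one]
          exact hc _ (Subgroup.mem_subgroupOf.1 hx)) ⟨h, hh⟩ ⟨n, hNH hn⟩
        (Subgroup.mem_subgroupOf.2 hn)
      exact h1
    by_cases hH : Subgroup.zpowers g ⊔ N = ⊤
    swap
    · exact hsub _ hH le_sup_right g (le_sup_left (a := Subgroup.zpowers g) (Subgroup.mem_zpowers g))
        n hn
    obtain ⟨m, hm1, hm2⟩ := exists_theta hf hr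
    have hb' : ∀ g, ‖(theta m g : ℂ)‖ ≤ 2 := fun g => by rw [← hm1]; exact hb g
    rcases Nat.even_or_odd (Nat.card G) with hev | hod
    · -- the even case
      set π : G →* G ⧸ N := QuotientGroup.mk' N with hπ
      have hgen : ∀ q : G ⧸ N, q ∈ Subgroup.zpowers (π g) := by
        have h1 : Subgroup.map π (Subgroup.zpowers g ⊔ N) = ⊤ := by
          rw [hH, Subgroup.map_top_of_surjective π (QuotientGroup.mk'_surjective N)]
        rw [Subgroup.map_sup, MonoidHom.map_zpowers, QuotientGroup.map_mk'_self, sup_bot_eq] at h1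
        intro q
        rw [h1]
        exact Subgroup.mem_top q
      have hcyc : IsCyclic (G ⧸ N) := ⟨⟨π g, hgen⟩⟩
      obtain ⟨ω, hω⟩ := faithful_of_cyclic hcyc
      have hord : orderOf (π g) = Nat.card (G ⧸ N) := orderOf_eq_card_of_forall_mem_zpowers hgen
      have hpos : 0 < Nat.card (G ⧸ N) := Nat.card_pos
      have hkev : Even (Nat.card (G ⧸ N)) := by
        have h1 := Subgroup.card_eq_card_quotient_mul_card_subgroup N
        rw [h1, Nat.even_mul] at hev
        exact hev.resolve_right (Nat.not_even_iff_odd.2 hodd)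
      obtain ⟨l, hl⟩ := hkev
      set ε : G →* ℂˣ := (powMonoidHom l).comp (ω.comp π) with hε
      have hεv : ∀ x, ε x = ω (π x) ^ l := fun x => rfl
      have hε2 : ∀ x, ε x ^ 2 = 1 := by
        intro x
        rw [hεv, ← pow_mul, mul_comm l 2, two_mul, ← hl, ← map_pow, pow_card_eq_one', map_one]
      have hεN : ∀ n ∈ N, ε n = 1 := by
        intro n hn
        have h1 : π n = 1 := (QuotientGroup.eq_one_iff n).2 hn
        rw [hεv, h1, map_one, one_pow]
      have hεg : ε g ≠ 1 := by
        intro h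
        rw [hεv, ← map_pow, ← map_one ω] at h
        have h1 := hω h
        have h2 := orderOf_dvd_of_pow_eq_one h1
        rw [hord] at h2
        have h3 := Nat.le_of_dvd (by omega) h2
        omega
      have hinv : ∀ h, ε h = 1 → ∀ n ∈ N, (theta m (n * h) : ℂ) = theta m h := by
        intro h hh n hn
        rw [← hm1, ← hm1]
        refine hsub ε.ker (fun h1 => hεg ?_) (fun x hx => hεN x hx) h hh n hn
        have h2 : g ∈ ε.ker := by rw [h1]; exact Subgroup.mem_top g
        exact h2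
      have hker : ∀ χ ∈ Irr G, m χ ≠ 0 → ∀ x ∈ N, χ x = χ 1 := by
        intro χ hχ hmχ x hx
        by_contra hne
        exact two_step m hm2 hb' ε hε2 g hεg N hodd hεN hinv hχ hmχ hx hne
      rw [hm1, hm1]
      unfold theta
      refine Finset.sum_congr rfl fun χ hχ => ?_
      by_cases h0 : m χ = 0
      · rw [h0]
        simp
      · rw [irr_inv N (mem_irrF.1 hχ) (hker χ (mem_irrF.1 hχ) h0) g hn]
    · -- the odd case
      obtain ⟨ψ, hψ, hψ1, a, c, hθ, -⟩ := odd_class hod m hm2 hb'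
      obtain ⟨μ, hμ⟩ := irr_one hψ hψ1
      rw [hm1, hm1, hθ, hθ]
      by_cases hc0 : c = 0
      · rw [hc0]
        simp
      have h1 : ψ n + ψ n⁻¹ = 2 := by
        have h2 := hc n hn
        rw [hm1, hm1, hθ, hθ, inv_one, hψ1] at h2
        have h3 : (c : ℂ) ≠ 0 := by exact_mod_cast hc0
        apply mul_left_cancel₀ h3
        linear_combination h2
      have h2 : ψ n = 1 := lin_val_one hψ hψ1 h1
      have h3 : μ n = 1 := Units.ext (by rw [← hμ, h2, Units.val_one])
      have h4 : ψ (n * g) = ψ g := by rw [hμ, hμ, map_mul, h3, one_mul]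
      have h5 : ψ (n * g)⁻¹ = ψ g⁻¹ := by
        rw [hμ, hμ, map_inv, map_inv, map_mul, h3, one_mul]
      rw [h4, h5]

/-- **A real virtual character bounded by two which is constant on a normal subgroup `N` of odd order
is invariant under `N`.** -/
theorem const_inv {G : Type} [Group G] [Finite G] (N : Subgroup G) [hN : N.Normal]
    (hodd : Odd (Nat.card N)) {f : G → ℂ} (hf : Virt f) (hr : ∀ g, f g⁻¹ = f g)
    (hb : ∀ g, ‖f g‖ ≤ 2) (hc : ∀ n ∈ N, f n = f 1) (g : G) {n : G} (hn : n ∈ N) :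
    f (n * g) = f g :=
  const_inv_aux (Nat.card G + 1) G (Nat.lt_succ_self _) N hN hodd f hf hr hb hc g n hn

end Pool.Agent.TH820.LG
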