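import Mathlib
import Pool.Agent.TH820.LG.OD4
import Pool.Agent.TH820.LG.OD8

/-! # Layers of odd order -/

set_option autoImplicit false
set_option linter.unusedSectionVars false

namespace Pool.Agent.TH820.LG

open Complex Filter Topology ComplexConjugate NumberField IsDedekindDomain Polynomial
  Pool.Agent.W401.Cheb Pool.Agent.W540.BE Pool.Agent.W353.L1 Pool.Agent.W353.AT
open Pool.Agent.W353.NF (act act_apply act_trans fixn fixn_inv cz abs_cz fixn_le SzH vx)
open Pool.Agent.W353.TP (HX)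
open Pool.Agent.H341R2 (lam)
open Pool.Agent.TH526.DS (IsNew heightFactor normal_fix fd_of_nf)
open Pool.Agent.H541R3.ART (theta irrF mem_irrF theta_pair pair_zero)
open Pool.Agent.W446.AS (Virt theta_virt)

/-- **The group theorem.** -/
theorem layer_group {Q : Type} [Group Q] [Finite Q] (O : Subgroup Q) [hO : O.Normal]
    (hodd : Odd (Nat.card O)) {f : Q → ℂ} (hf : Virt f) (hr : ∀ g, f g⁻¹ = f g)
    (hb : ∀ g, ‖f g‖ ≤ 2) :
    ∃ (N : Subgroup Q) (μ : O →* ℂˣ), N.Normal ∧ N ≤ O ∧ (∀ x : O, μ x = 1 ↔ (x : Q) ∈ N) ∧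
      ∀ n ∈ N, ∀ g, f (n * g) = f g := by
  classical
  have hfc : ∀ g h, f (h * g * h⁻¹) = f g := by
    obtain ⟨m, hm, -⟩ := exists_theta hf hr
    intro g h
    rw [hm, hm]
    unfold theta
    exact Finset.sum_congr rfl fun χ hχ => by
      rw [Pool.Agent.H541R3.ART.Irr.conj (mem_irrF.1 hχ) g h]
  have hf' : Virt (fun x : O => f (O.subtype x)) := hf.comp O.subtype
  obtain ⟨m, hm1, hm2⟩ := exists_theta hf' (fun x => by rw [map_inv]; exact hr _)
  obtain ⟨ψ, hψ, hψ1, a, c, hθ, -⟩ := odd_class hodd m hm2 (fun g => by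
    rw [← hm1]; exact hb _)
  obtain ⟨μ₀, hμ₀⟩ := irr_one hψ hψ1
  have hval : ∀ x : O, f x = a + c * (ψ x + ψ x⁻¹) := by
    intro x
    rw [← hθ, ← hm1]
    rfl
  -- the homomorphism
  obtain ⟨μ, hμ⟩ : ∃ μ : O →* ℂˣ, ∀ x : O, μ x = 1 ↔ f x = f 1 := by
    by_cases hc : c = 0
    · refine ⟨1, fun x => ⟨fun _ => ?_, fun _ => rfl⟩⟩
      have h1 := hval x
      have h2 := hval 1
      rw [hc, Int.cast_zero, zero_mul] at h1 h2
      rw [OneMemClass.coe_one] at h2
      rw [h1, h2]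
    · refine ⟨μ₀, fun x => ⟨fun h => ?_, fun h => ?_⟩⟩
      · have h1 := hval x
        have h2 := hval 1
        rw [OneMemClass.coe_one] at h2
        rw [h1, h2, hμ₀, hμ₀, hμ₀, hμ₀, map_inv, h]
        simp
      · have h1 := hval x
        have h2 := hval 1
        rw [OneMemClass.coe_one] at h2
        have h3 : ψ x + ψ x⁻¹ = 2 := by
          rw [h1, h2, inv_one, hψ1] at h
          have h3 : (c : ℂ) ≠ 0 := by exact_mod_cast hc
          apply mul_left_cancel₀ h3
          linear_combination h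
        exact Units.ext (by rw [← hμ₀, Units.val_one]; exact lin_val_one hψ hψ1 h3)
  let N : Subgroup Q :=
    { carrier := {x | x ∈ O ∧ f x = f 1}
      one_mem' := ⟨O.one_mem, rfl⟩
      mul_mem' := fun {x y} hx hy => ⟨O.mul_mem hx.1 hy.1, by
        have h1 : μ ⟨x, hx.1⟩ = 1 := (hμ _).2 hx.2
        have h2 : μ ⟨y, hy.1⟩ = 1 := (hμ _).2 hy.2
        exact (hμ (⟨x, hx.1⟩ * ⟨y, hy.1⟩)).1 (by rw [map_mul, h1, h2, one_mul])⟩
      inv_mem' := fun {x} hx => ⟨O.inv_mem hx.1, by rw [hr]; exact hx.2⟩ }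
  have hN : ∀ x, x ∈ N ↔ x ∈ O ∧ f x = f 1 := fun x => Iff.rfl
  have hNO : N ≤ O := fun x hx => hx.1
  have hNn : N.Normal := ⟨fun x hx g => ⟨hO.conj_mem x hx.1 g, by rw [hfc]; exact hx.2⟩⟩
  have hNodd : Odd (Nat.card N) := by
    have h1 : Nat.card N ∣ Nat.card O := Subgroup.card_dvd_of_le hNO
    exact hodd.of_dvd_nat h1
  refine ⟨N, μ, hNn, hNO, fun x => ?_, fun n hn g => ?_⟩
  · rw [hμ, hN]
    exact ⟨fun h => ⟨x.2, h⟩, fun h => h.2⟩
  · exact const_inv N hNodd hf hr hb (fun x hx => hx.2) g hn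

section
variable {K : Type} [Field K] [NumberField K]

variable {T : HeightOneSpectrum (𝓞 K) → ℝ} {s : ℝ} (hs : 0 ≤ s) (hT : ∀ v, |T v| ≤ s)
  {σ : HeightOneSpectrum (𝓞 K) → GK K} (hσ : ∀ v, IsFrob v (σ v)) {τ : ℝ}
  {M F E : IntermediateField K (AlgebraicClosure K)} [NumberField M] [NumberField F]
  [NumberField E] [NumberField ↥(E ⊓ M)]
  (hM : IsGalois K M) (hF : IsGalois K F) (hMF : M ≤ F) (hEF : E ≤ F)

include hs hT hM hF hMF hEF in
/-- **The difference of the permutation characters.** -/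
theorem new_has0
    (H : ∀ (n : ℕ) (χ : Representation ℂ (GK K) (Fin n → ℂ)), IsNew M F χ →
      Lim T σ ⟨n, χ⟩ τ 0) :
    Has (fun v => T v * (((fixn K E (σ v) : ℝ) - fixn K ↥(E ⊓ M) (σ v)) * cz τ v)) 0 := by
  classical
  obtain ⟨hUo, hUn⟩ := normal_fix F hF
  have hfin : Finite (GK K ⧸ F.fixingSubgroup) := Subgroup.quotient_finite_of_isOpen _ hUo
  obtain ⟨Ls, hLs, hfix⟩ := exists_listE hM hF hMF hEF
  have h1 := has_list hs hT σ F.fixingSubgroup τ (fun _ => (0 : ℝ)) Ls (fun x hx =>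
    ⟨(hLs x hx).2.1, H x.1 x.2 (hLs x hx)⟩)
  refine h1.congr (fun v => ?_) ?_
  · congr 1
    have e1 : ∀ L' : List (MRep (GK K)), (L'.map fun x => RR x.2 τ σ v).sum =
        ((L'.map fun x => x.2.character (σ v)⁻¹).sum * zz τ v).re := by
      intro L'
      induction L' with
      | nil => simp
      | cons x L' ih =>
        rw [List.map_cons, List.sum_cons, ih, List.map_cons, List.sum_cons, add_mul,
          Complex.add_re]
        rfl
    rw [e1, ← hfix, fixn_inv, fixn_inv]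
    unfold cz
    have e2 : ((fixn K E (σ v) : ℕ) : ℂ) - ((fixn K ↥(E ⊓ M) (σ v) : ℕ) : ℂ) =
        (((fixn K E (σ v) : ℝ) - fixn K ↥(E ⊓ M) (σ v) : ℝ) : ℂ) := by push_cast; rfl
    rw [e2, Complex.re_ofReal_mul]
  · simp

include hs hT hM hF hMF hEF in
/-- **The difference of the sizes.** -/
theorem new_sizes0
    (H : ∀ (n : ℕ) (χ : Representation ℂ (GK K) (Fin n → ℂ)), IsNew M F χ →
      Lim T σ ⟨n, χ⟩ τ 0)
    {T' : HX K → ℝ} (hTT : ∀ x, T' x = T (vx x)) {A B : ℝ → ℝ}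
    (hA : SzH T' (fun v => fixn K E (σ v) * cz τ v) A)
    (hB : SzH T' (fun v => fixn K ↥(E ⊓ M) (σ v) * cz τ v) B) :
    Tendsto (fun ε => A ε - B ε) (𝓝[>] 0) (𝓝 0) := by
  have h1 := new_has0 hs hT hM hF hMF hEF H
  have h2 : SzH T' (fun v => (fixn K E (σ v) * cz τ v) + (-1) * (fixn K ↥(E ⊓ M) (σ v) * cz τ v))
      (fun ε => A ε + (-1) * B ε) := by
    refine hA.add (hB.const_mul (-1)) (N := s) (B := Module.finrank ℚ E * 1)
      (B' := Module.finrank ℚ ↥(E ⊓ M) * 1) (fun x => ?_) (fun v => ?_) (fun v => ?_)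
    · rw [hTT]
      exact hT _
    · rw [abs_mul, abs_of_nonneg (Nat.cast_nonneg _)]
      exact mul_le_mul (fixn_le _) (abs_cz _ _) (abs_nonneg _) (Nat.cast_nonneg _)
    · rw [abs_mul, abs_neg, abs_one, one_mul, abs_mul, abs_of_nonneg (Nat.cast_nonneg _)]
      exact mul_le_mul (fixn_le _) (abs_cz _ _) (abs_nonneg _) (Nat.cast_nonneg _)
  have h3 := lim_of_has (T' := T) hTT (h2.congr (Ψ' := fun v =>
    ((fixn K E (σ v) : ℝ) - fixn K ↥(E ⊓ M) (σ v)) * cz τ v) (X' := fun ε => A ε - B ε)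
    (fun v => by ring) (fun ε => by ring)) h1
  exact h3

end

section
variable {K : Type} [Field K] [NumberField K]

/-- the order of the Galois group of a finite Galois extension -/
lemma card_fix (F : IntermediateField K (AlgebraicClosure K)) [NumberField F]
    (hF : IsGalois K F) : Nat.card (GK K ⧸ F.fixingSubgroup) = Module.finrank K F := by
  have hnorm : Normal K F := hF.to_normal
  obtain ⟨hUo, hUn⟩ := normal_fix F hF
  let r : GK K →* Gal(F/K) := AlgEquiv.restrictNormalHom F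
  have hr : Function.Surjective r := AlgEquiv.restrictNormalHom_surjective _
  have hrker : r.ker = F.fixingSubgroup := IntermediateField.restrictNormalHom_ker F
  let e : GK K ⧸ F.fixingSubgroup ≃* Gal(F/K) :=
    (QuotientGroup.quotientMulEquivOfEq hrker.symm).trans
      (QuotientGroup.quotientKerEquivOfSurjective r hr)
  have hfd : FiniteDimensional K F := fd_of_nf F
  rw [Nat.card_congr e.toEquiv, IsGalois.card_aut_eq_finrank]

variable {T : HeightOneSpectrum (𝓞 K) → ℝ} (hT : ∀ v, |T v| ≤ 2)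
  {σ : HeightOneSpectrum (𝓞 K) → GK K} (hσ : ∀ v, IsFrob v (σ v))
  {M F : IntermediateField K (AlgebraicClosure K)} [NumberField M] [NumberField F]
  (hM : IsGalois K M) (hF : IsGalois K F) (hMF : M ≤ F)

include hT hσ hM hF hMF in
/-- **Layers of odd order.** -/
theorem layer_data (hodd : Odd (Module.finrank K F / Module.finrank K M))
    (H : ∀ (n : ℕ) (χ : Representation ℂ (GK K) (Fin n → ℂ)), χ.IsIrreducible →
      (∀ u ∈ F.fixingSubgroup, χ u = 1) → ∃ δ : ℤ, Lim T σ ⟨n, χ⟩ 0 δ) :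
    ∃ C : IntermediateField K (AlgebraicClosure K), M ≤ C ∧ C ≤ F ∧ IsGalois K C ∧
      (∃ μ : M.fixingSubgroup →* ℂˣ, ∀ g, μ g = 1 ↔ (g : GK K) ∈ C.fixingSubgroup) ∧
      ∀ (n : ℕ) (χ : Representation ℂ (GK K) (Fin n → ℂ)), IsNew C F χ →
        Lim T σ ⟨n, χ⟩ 0 0 := by
  classical
  obtain ⟨hUo, hUn⟩ := normal_fix F hF
  obtain ⟨hAo, hAn⟩ := normal_fix M hM
  have hcF := card_fix F hF
  have hcM := card_fix M hM
  have hUA : F.fixingSubgroup ≤ M.fixingSubgroup := IntermediateField.fixingSubgroup_le hMF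
  have hfin : Finite (GK K ⧸ F.fixingSubgroup) := Subgroup.quotient_finite_of_isOpen _ hUo
  let _ : Fintype (GK K ⧸ F.fixingSubgroup) := Fintype.ofFinite _
  set π : GK K →* GK K ⧸ F.fixingSubgroup := QuotientGroup.mk' F.fixingSubgroup with hπ
  have hπs : Function.Surjective π := QuotientGroup.mk'_surjective _
  have hπ1 : ∀ g, π g = 1 ↔ g ∈ F.fixingSubgroup := fun g => QuotientGroup.eq_one_iff g
  set O : Subgroup (GK K ⧸ F.fixingSubgroup) := M.fixingSubgroup.map π with hOd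
  have hOn : O.Normal := hAn.map _ hπs
  have hOodd : Odd (Nat.card O) := by
    have h1 : Nat.card ((GK K ⧸ F.fixingSubgroup) ⧸ O) = Nat.card (GK K ⧸ M.fixingSubgroup) :=
      Nat.card_congr
        (QuotientGroup.quotientQuotientEquivQuotient F.fixingSubgroup M.fixingSubgroup hUA).toEquiv
    have h2 := Subgroup.card_eq_card_quotient_mul_card_subgroup O
    rw [h1, hcM, hcF] at h2
    have h3 : 0 < Module.finrank K M := by
      rw [← hcM]
      have : Finite (GK K ⧸ M.fixingSubgroup) := Subgroup.quotient_finite_of_isOpen _ hAo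
      exact Nat.card_pos
    rwa [h2, Nat.mul_div_cancel_left _ h3] at hodd
  obtain ⟨m, hm1, hm2, hm3⟩ := twist_data (by norm_num : (0 : ℝ) ≤ 2) hT hσ hUo H
  have hreal := theta_real m fun χ hχ => hm1 χ hχ (inv_irr hχ)
  obtain ⟨N, μ, hNn, hNO, hμ, hinv⟩ := layer_group O hOodd (theta_virt m) hreal hm2
  -- the field
  set S : Subgroup (GK K) := N.comap π with hS
  have hSn : S.Normal := hNn.comap π
  have hUS : F.fixingSubgroup ≤ S := fun u hu => by
    rw [hS, Subgroup.mem_comap, (hπ1 u).2 hu]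
    exact N.one_mem
  have hSA : S ≤ M.fixingSubgroup := by
    intro g hg
    have h1 : π g ∈ O := hNO hg
    obtain ⟨a, ha, hag⟩ := h1
    have h2 : a⁻¹ * g ∈ F.fixingSubgroup := (hπ1 _).1 (by rw [map_mul, map_inv, hag]; group)
    have h3 := M.fixingSubgroup.mul_mem ha (hUA h2)
    rwa [mul_inv_cancel_left] at h3
  have hSo : IsOpen (S : Set (GK K)) := Subgroup.isOpen_mono hUS hUo
  let C' : ClosedSubgroup (GK K) := ⟨S, Subgroup.isClosed_of_isOpen _ hSo⟩
  set C : IntermediateField K (AlgebraicClosure K) := IntermediateField.fixedField C'.1 with hC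
  have h1 : C.fixingSubgroup = S := InfiniteGalois.fixingSubgroup_fixedField C'
  refine ⟨C, ?_, ?_, ?_, ?_, ?_⟩
  · have h3 := IntermediateField.fixedField_le (F := K) (E := AlgebraicClosure K)
      (H1 := S) (H2 := M.fixingSubgroup) hSA
    rwa [InfiniteGalois.fixedField_fixingSubgroup] at h3
  · have h3 := IntermediateField.fixedField_le (F := K) (E := AlgebraicClosure K)
      (H1 := F.fixingSubgroup) (H2 := S) hUS
    rwa [InfiniteGalois.fixedField_fixingSubgroup] at h3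
  · rw [← InfiniteGalois.normal_iff_isGalois, h1]
    exact hSn
  · have hmem : ∀ g : M.fixingSubgroup, π g ∈ O := fun g => ⟨g, g.2, rfl⟩
    refine ⟨μ.comp ((π.comp M.fixingSubgroup.subtype).codRestrict O hmem), fun g => ?_⟩
    rw [h1]
    exact hμ _
  · intro n χ hχ
    obtain ⟨hirr, htriv, a, ha, hane⟩ := hχ
    obtain ⟨δ, hδ⟩ := H n χ hirr htriv
    have h2 := hm3 n χ hirr htriv δ hδ
    set φ : GK K ⧸ F.fixingSubgroup → ℂ := (qrep F.fixingSubgroup χ htriv).character with hφ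
    have hφI : φ ∈ Pool.Agent.H541R3.ART.Irr (GK K ⧸ F.fixingSubgroup) :=
      ⟨n, qrep F.fixingSubgroup χ htriv, qrep_irr _ χ htriv hirr, rfl⟩
    have h3 : isN N φ := by
      intro g
      refine Pool.Agent.TH526.DS.char_sum_zero _ (qrep_irr _ χ htriv hirr) N
        ⟨π a, ?_, fun h => hane h⟩ g
      rw [h1] at ha
      exact ha
    obtain ⟨x, hxN, hx⟩ : ∃ x ∈ N, φ x ≠ φ 1 := by
      by_contra hcon
      push Not at hcon
      exact not_isN N hφI hcon h3
    have h4 := pair_zero hφI N (fun n hn g => hinv n hn g) hxN hx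
    rw [theta_pair m hφI] at h4
    have h5 : m φ = 0 := by
      rcases mul_eq_zero.1 h4 with h | h
      · exact_mod_cast h
      · exact absurd h (by exact_mod_cast Nat.card_pos.ne')
    rw [h2, h5, Int.cast_zero] at hδ
    exact hδ

end

end Pool.Agent.TH820.LG
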