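import Mathlib
import Pool.Agent.TH820.LG.EC
import Pool.Agent.TH820.LG.OD9
import Pool.Agent.TH820.LG.LayerDefs

/-! # Elliptic curves over layers of odd degree -/

set_option autoImplicit false
set_option linter.unusedSectionVars false

namespace Pool.Agent.TH820.LG.EC

open Complex Filter Topology ComplexConjugate NumberField IsDedekindDomain Polynomial
  Pool.Agent.W401.Cheb Pool.Agent.W540.BE Pool.Agent.W353.L1 Pool.Agent.W353.AT
open Pool.Agent
open Pool.Agent.W353.NF (act fixn cz TT size_fix SzH vx)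
open Pool.Agent.W353.TP (HX)
open Pool.Agent.W353.AB (tE tEH syE norm_tE tE_ker)
open Pool.Agent.TH526.DS (IsNew normal_fix fd_of_nf)

section
variable {K : Type} [Field K] [NumberField K]

/-- **Elliptic curves over layers of odd degree.** -/
theorem oddLayers (W : WeierstrassCurve (𝓞 K)) (hΔ : W.Δ ≠ 0) : OddLayers W := by
  classical
  intro M F _ _ hM hF hMF hodd H
  choose σ hσ using exists_isFrob (F := K)
  have hT : ∀ v, |tW W v| ≤ (2 : ℝ) := abs_tW W
  have hs0 : (0 : ℝ) ≤ 2 := by norm_num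
  obtain ⟨hUo, hUn⟩ := normal_fix F hF
  have hfin : Finite (GK K ⧸ F.fixingSubgroup) := Subgroup.quotient_finite_of_isOpen _ hUo
  have hlimk : ∀ (r : ℕ) (χ : Representation ℂ (GK K) (Fin r → ℂ)),
      (∀ u ∈ F.fixingSubgroup, χ u = 1) → ∀ m : ℤ,
      TwistOrder W χ 0 m → Lim (tW W) σ ⟨r, χ⟩ 0 ((-m : ℤ) : ℝ) :=
    fun r χ hχ m hm => lim_twist W hΔ F.fixingSubgroup χ hχ hm hσ
  have H' : ∀ (r : ℕ) (χ : Representation ℂ (GK K) (Fin r → ℂ)), χ.IsIrreducible →
      (∀ u ∈ F.fixingSubgroup, χ u = 1) → ∃ δ : ℤ, Lim (tW W) σ ⟨r, χ⟩ 0 δ := by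
    intro r χ hirr hχ
    obtain ⟨k, hk⟩ := H r χ hirr hχ
    exact ⟨-k, hlimk r χ hχ k hk⟩
  obtain ⟨C, hMC, hCF, hC, hcyc, hnew⟩ := layer_data hT hσ hM hF hMF hodd H'
  have hFfd : FiniteDimensional K F := fd_of_nf F
  have hCfd : FiniteDimensional K C := FiniteDimensional.of_injective (IntermediateField.inclusion hCF).toLinearMap
    (IntermediateField.inclusion hCF).injective
  have hCnf : NumberField C := NumberField.of_module_finite K C
  refine ⟨C, hMC, hCF, hC, hcyc, fun r χ hχ k hk => ?_, fun E _ _ hEF => ?_⟩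
  · have h1 := hnew r χ hχ
    have h2 := hlimk r χ hχ.2.1 k hk
    have h3 := tendsto_nhds_unique h1 h2
    have h4 : (0 : ℤ) = -k := by exact_mod_cast h3
    omega
  · have hsz : ∀ (E : IntermediateField K (AlgebraicClosure K)) [NumberField E]
        (V : HeightOneSpectrum (𝓞 E) → WeierstrassCurve (𝓞 E)),
        MinimalModels (baseChange W E) V →
        (∀ᶠ ε : ℝ in 𝓝[>] 0, LSeries V (3 / 2 + (0 : ℝ) * I + ε) ≠ 0) ∧
        SzH (TT (syE W.c₄ W.c₆)) (fun v => fixn K E (σ v) * cz 0 v) (size (LSeries V) 0) := by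
      intro E _ V hV
      have h := W353.NF.size_EF (F := E) (W.map (algebraMap (𝓞 K) K)) (l := 1) (P := W.c₄)
        (Q := W.c₆) one_ne_zero (by rw [WeierstrassCurve.map_c₄]; simp)
        (by rw [WeierstrassCurve.map_c₆]; simp) (disc_ne W hΔ) V hV 0
      exact ⟨h.1, size_fix _ (W353.NF.syE_real _ _) σ hσ h.2⟩
    have hTT : ∀ x, TT (syE W.c₄ W.c₆) x = tW W (vx x) := by
      intro x
      have e3 : TT (syE W.c₄ W.c₆) x =
          ∑ _j ∈ ({()} : Finset Unit), (tEH W.c₄ W.c₆ x).re := rfl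
      rw [e3, Finset.sum_singleton]
      unfold tW vx
      rcases x with ⟨p, ψ⟩
      have h1 := tE_ker (RingHom.id (𝓞 K)) W.c₄ W.c₆ p ψ
      rw [RingHom.comp_id] at h1
      rw [← h1]
      rfl
    have hmain : ∀ (V : HeightOneSpectrum (𝓞 E) → WeierstrassCurve (𝓞 E))
        (V' : HeightOneSpectrum (𝓞 ↥(E ⊓ C)) → WeierstrassCurve (𝓞 ↥(E ⊓ C))),
        MinimalModels (baseChange W E) V → MinimalModels (baseChange W (E ⊓ C)) V' →
        Tendsto (fun ε : ℝ => size (LSeries V) 0 ε - size (LSeries V') 0 ε) (𝓝[>] 0) (𝓝 0) :=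
      fun V V' hV hV' => new_sizes0 hs0 hT hC hF hCF hEF hnew hTT (hsz E V hV).2
        (hsz (E ⊓ C) V' hV').2
    refine ⟨hmain, ?_⟩
    rintro k k' ⟨V, hV, h1⟩ ⟨V', hV', h2⟩
    have h3 := hmain V V' hV hV'
    have h4 := (lim_size (hsz E V hV).1 h1).sub (lim_size (hsz (E ⊓ C) V' hV').1 h2)
    have h5 := tendsto_nhds_unique h3 h4
    have h6 : (k : ℝ) = k' := by linarith
    exact_mod_cast h6

end

end Pool.Agent.TH820.LG.EC
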