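import Pool.Agent.TH820.LG.Defs
import Pool.Agent.TH820.LG.LayerDefs

/-!
# The defects over layers of odd degree: definitions

`K` is a number field and `X` a smooth projective variety over `K`.
-/

set_option autoImplicit false

namespace Pool.Agent.TH820.LG

open NumberField
open Pool.Agent.TH526.DS (IsNew)

/-- Let `M ⊆ F` be finite Galois extensions of `K` such that `[F : M]` is odd.  Suppose that the defect
exists for all irreducible representations `χ` of `Gal(F/K)`.  Then there is a Galois extension `C/K`
with `M ⊆ C ⊆ F`, cyclic over `M`, with the following properties.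
* The defects of all irreducible representations of `Gal(F/K)` that are not trivial on `Gal(F/C)` are
zero.
* Let `E` be any field with `K ⊆ E ⊆ F`.  The difference between the values of
`log |L(m + 1 + ε)| / log(1/ε) - rank` for `L(H^{2m}(X_E), s)` and `L(H^{2m}(X_{E ∩ C}), s)` tends to `0` as
`ε → 0+`, and the defects over `E` and over `E ∩ C`, if they exist, are equal. -/
def OddLayerDefects {K : Type} [Field K] [NumberField K] {l : ℕ}
    (X : Set (MvPolynomial (Fin l) (𝓞 K))) (d m N : ℕ) {V : Type}
    [AddCommGroup V] [Module ℚ V] (ρ : Representation ℚ Gal(AlgebraicClosure K/K) V) : Prop :=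
  ∀ (M F : IntermediateField K (AlgebraicClosure K)) [NumberField M] [NumberField F],
    IsGalois K M → IsGalois K F → M ≤ F → Odd (Module.finrank K F / Module.finrank K M) →
    (∀ (r : ℕ) (χ : Representation ℂ Gal(AlgebraicClosure K/K) (Fin r → ℂ)), χ.IsIrreducible →
      (∀ u ∈ F.fixingSubgroup, χ u = 1) → ∃ δ : ℤ, W353.AT.TwistDefect X d m N ρ χ δ) →
    ∃ C : IntermediateField K (AlgebraicClosure K), M ≤ C ∧ C ≤ F ∧ IsGalois K C ∧
      IsCyclicLayer M C ∧ NewDefectsZero X d m N ρ C F ∧
      ∀ (E : IntermediateField K (AlgebraicClosure K)) [NumberField E] [NumberField ↥(E ⊓ C)],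
        E ≤ F → SameDefects X d m N ρ E (E ⊓ C)

end Pool.Agent.TH820.LG
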