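import Mathlib
import Pool.Agent.TH820.LG.Main
import Pool.Agent.TH820.LG.OD9
import Pool.Agent.TH820.LG.LayerTDefs

/-! # The defects over layers of odd degree -/

set_option autoImplicit false
set_option linter.unusedSectionVars false

namespace Pool.Agent.TH820.LG

open Complex Filter Topology ComplexConjugate NumberField IsDedekindDomain Polynomial
  Pool.Agent.W401.Cheb Pool.Agent.W540.BE Pool.Agent.W353.L1 Pool.Agent.W353.AT
open Pool.Agent.W353.NF (act fixn cz TT size_fix SzH vx)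
open Pool.Agent.W353.TP (HX)
open Pool.Agent.H341R2 (lam)
open Pool.Agent.W353.EF (LFun)
open Pool.Agent.W353.EH (edgePoint size)
open Pool.Agent.W353.TD (ch rank IsPart Defect syD syD_real size_D tF_sub_le)
open Pool.Agent.W353.PV (tF size_X size_X0 syX syX_real lim_ord)
open Pool.Agent.TH526.DS (IsNew heightFactor normal_fix isNew_artin heightFactor_zero fd_of_nf)

section
variable {K : Type} [Field K] [NumberField K] {l : ℕ} {X : Set (MvPolynomial (Fin l) (𝓞 K))}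
  {d m i N : ℕ} {V : Type} [AddCommGroup V] [Module ℚ V] [FiniteDimensional ℚ V]
  {ρ : Representation ℚ (GK K) V}

/-- **The defects over layers of odd degree.** -/
theorem oddLayerDefects (hmd : m ≤ d) (hpart : IsPart X d m N ρ)
    (hN : N ≤ Module.finrank ℚ V + 2) : OddLayerDefects X d m N ρ := by
  classical
  intro M F _ _ hM hF hMF hodd H
  have hi : 2 * m ≤ 2 * d := by omega
  choose σ hσ using exists_isFrob (F := K)
  obtain ⟨hρ, hV⟩ := hpart
  have hgood : ∀ᶠ v in cofinite, |tF X d (2 * m) N K v - ch ρ (σ v)⁻¹| ≤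
      (N - Module.finrank ℚ V : ℕ) := by
    refine hV.mono fun v hv => ?_
    obtain ⟨α, h1, h2⟩ := hv (σ v) (hσ v)
    exact tF_sub_le (ρ := ρ) hi (σ := σ v) h1 h2
  set s : ℕ := N - Module.finrank ℚ V with hs
  have hs2 : (s : ℝ) ≤ 2 := by exact_mod_cast (by omega : s ≤ 2)
  have hTs : ∀ v, |tC ρ X d (2 * m) N s σ v| ≤ (s : ℝ) := fun v => abs_tC _ _ _ _ _ _ _ _
  have hT : ∀ v, |tC ρ X d (2 * m) N s σ v| ≤ (2 : ℝ) := fun v => (hTs v).trans hs2
  have hs0 : (0 : ℝ) ≤ 2 := by norm_num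
  have hart : ∀ {r : ℕ} (χ : Representation ℂ (GK K) (Fin r → ℂ)),
      (∀ u ∈ F.fixingSubgroup, χ u = 1) → IsArtin χ :=
    fun χ hχ => ⟨F.fixingSubgroup, (normal_fix F hF).1, hχ⟩
  -- the defects as limits
  have hlimδ : ∀ (r : ℕ) (χ : Representation ℂ (GK K) (Fin r → ℂ)),
      (∀ u ∈ F.fixingSubgroup, χ u = 1) → ∀ δ : ℤ, TwistDefect X d m N ρ χ δ →
      Lim (tC ρ X d (2 * m) N s σ) σ ⟨r, χ⟩ 0 ((-δ : ℤ) : ℝ) := by
    intro r χ hχ δ hδ
    obtain ⟨B, hB, hlim⟩ := hδ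
    have h1 := (tw_C (s := s) hi hσ hgood hρ ⟨r, χ⟩ (hart χ hχ) B hB).2
    have h2 := h1.add (hlim.sub_const (twistRank ρ χ : ℝ))
    unfold Lim
    have e : (0 : ℝ) + ((twistRank ρ χ : ℝ) - δ - twistRank ρ χ) = ((-δ : ℤ) : ℝ) := by
      push_cast
      ring
    rw [e] at h2
    refine h2.congr fun ε => ?_
    ring
  have H' : ∀ (r : ℕ) (χ : Representation ℂ (GK K) (Fin r → ℂ)), χ.IsIrreducible →
      (∀ u ∈ F.fixingSubgroup, χ u = 1) →
      ∃ δ : ℤ, Lim (tC ρ X d (2 * m) N s σ) σ ⟨r, χ⟩ 0 δ := by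
    intro r χ hirr hχ
    obtain ⟨δ, hδ⟩ := H r χ hirr hχ
    exact ⟨-δ, hlimδ r χ hχ δ hδ⟩
  obtain ⟨C, hMC, hCF, hC, hcyc, hnew⟩ := layer_data hT hσ hM hF hMF hodd H'
  have hFfd : FiniteDimensional K F := fd_of_nf F
  have hCfd : FiniteDimensional K C :=
    FiniteDimensional.of_injective (IntermediateField.inclusion hCF).toLinearMap
      (IntermediateField.inclusion hCF).injective
  have hCnf : NumberField C := NumberField.of_module_finite K C
  refine ⟨C, hMC, hCF, hC, hcyc, fun r χ hχ δ hδ => ?_, fun E _ _ hEF => ?_⟩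
  · have h1 := hnew r χ hχ
    have h2 := hlimδ r χ hχ.2.1 δ hδ
    have h3 := tendsto_nhds_unique h1 h2
    have h4 : (0 : ℤ) = -δ := by exact_mod_cast h3
    omega
  · have hSz : ∀ (E : IntermediateField K (AlgebraicClosure K)) [NumberField E]
        (B : HeightOneSpectrum (𝓞 E) → ℂ[X]), W353.EF.IsEulerSystem X d (2 * m) N B →
        SzH (TT (syD ρ X d (2 * m) N s σ)) (fun v => fixn K E (σ v) * cz 0 v)
          (fun ε => W353.EF.size (2 * m) B ε - rank ρ E) := by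
      intro E _ B hB
      have h1 := size_X0 hi B hB.1 hB.2 (fun _ : Fin 0 => (1 : 𝓞 E))
      have h2 := size_D ρ X d (2 * m) N s σ hσ hgood hρ _ _ h1.2 E.val
      have h3 := size_fix _ (syD_real ρ X d (2 * m) N s σ) σ hσ h2
      have hr : rank ρ E = Module.finrank ℚ (W353.TD.inv ρ E.val.fieldRange.fixingSubgroup) := by
        rw [W353.TD.inv_eq, IntermediateField.fieldRange_val]
        rfl
      refine h3.congr (fun v => rfl) (fun ε => ?_)
      rw [hr]
      rfl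
    have hTT : ∀ x, TT (syD ρ X d (2 * m) N s σ) x = tC ρ X d (2 * m) N s σ (vx x) := by
      intro x
      have e3 : TT (syD ρ X d (2 * m) N s σ) x =
          ∑ _j ∈ ({()} : Finset Unit), (((W353.TD.tD ρ X d (2 * m) N s σ x : ℝ) : ℂ)).re := rfl
      rw [e3, Finset.sum_singleton, Complex.ofReal_re]
      rfl
    have hmain : ∀ (B : HeightOneSpectrum (𝓞 E) → ℂ[X])
        (B' : HeightOneSpectrum (𝓞 ↥(E ⊓ C)) → ℂ[X]),
        W353.EF.IsEulerSystem X d (2 * m) N B → W353.EF.IsEulerSystem X d (2 * m) N B' →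
        Tendsto (fun ε : ℝ => (W353.EF.size (2 * m) B ε - rank ρ E) -
          (W353.EF.size (2 * m) B' ε - rank ρ (E ⊓ C))) (𝓝[>] 0) (𝓝 0) := fun B B' hB hB' =>
      new_sizes0 hs0 hT hC hF hCF hEF hnew hTT (hSz E B hB) (hSz (E ⊓ C) B' hB')
    refine ⟨hmain, ?_⟩
    rintro δ δ' ⟨hn1, B, hB, h1⟩ ⟨hn2, B', hB', h2⟩
    have h3 := hmain B B' hB hB'
    have h4 := (h1.sub_const (rank ρ E : ℝ)).sub (h2.sub_const (rank ρ (E ⊓ C) : ℝ))
    have h5 := tendsto_nhds_unique h3 h4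
    have h6 : (δ : ℝ) = δ' := by linarith
    exact_mod_cast h6

end

end Pool.Agent.TH820.LG
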