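import Mathlib
import Pool.Agent.TH820.LG.OD8

/-! # Bounded virtual characters of nilpotent groups without small prime divisors -/

set_option autoImplicit false
set_option linter.unusedSectionVars false

namespace Pool.Agent.TH820.LG

open Pool.Agent.H541R3.ART Pool.Agent.W446.AS ComplexConjugate Pool.Agent.W540.BE

/-- the multiplicities of a virtual character -/
lemma exists_mult {G : Type} [Group G] [Finite G] {f : G → ℂ} (hf : Virt f) :
    ∃ m : (G → ℂ) → ℤ, ∀ g, f g = theta m g := by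
  classical
  have : Fintype G := Fintype.ofFinite G
  choose! k hk using fun χ (hχ : χ ∈ Irr G) => hf.pr_int hχ
  refine ⟨k, fun g => ?_⟩
  rw [hf.expand g]
  unfold theta
  exact Finset.sum_congr rfl fun χ hχ => by rw [hk χ (mem_irrF.1 hχ)]

/-- irreducible characters trivial on the commutator subgroup are linear -/
lemma irr_comm {A : Type} [Group A] [Finite A] {χ : A → ℂ} (hχ : χ ∈ Irr A)
    (h : ∀ x ∈ commutator A, χ x = χ 1) : χ 1 = 1 := by
  classical
  have : Fintype A := Fintype.ofFinite A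
  obtain ⟨n, ρ, hρ, rfl⟩ := hχ
  have h1 : ∀ a ∈ commutator A, ρ a = 1 := by
    by_contra hcon
    push Not at hcon
    have h2 : isN (commutator A) ρ.character := fun g =>
      Pool.Agent.TH526.DS.char_sum_zero ρ hρ (commutator A) hcon g
    exact not_isN (commutator A) ⟨n, ρ, hρ, rfl⟩ h h2
  have h2 := qrep_irr (commutator A) ρ h1 hρ
  have hc : IsMulCommutative (A ⧸ commutator A) := by
    refine ⟨⟨fun a b => ?_⟩⟩
    exact @mul_comm (Abelianization A) _ a b
  have h3 := Representation.IsIrreducible.finrank_eq_one_of_isMulCommutative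
    (qrep (commutator A) ρ h1)
  rw [Representation.char_one, h3, Nat.cast_one]

/-- conjugate characters -/
lemma conj_irr {G : Type} [Group G] [Finite G] (A : Subgroup G) [A.Normal] (g : G) {χ : A → ℂ}
    (hχ : χ ∈ Irr A) : (fun a => χ (MulAut.conjNormal g a)) ∈ Irr A := by
  classical
  have : Fintype A := Fintype.ofFinite A
  have hv0 : Virt χ := AddSubgroup.subset_closure hχ
  have hv : Virt (fun a => χ (MulAut.conjNormal g a)) :=
    hv0.comp (MulAut.conjNormal g : A ≃* A).toMonoidHom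
  refine irr_of_norm hv ?_ ?_
  · rw [← pair_self hχ, ← Equiv.sum_comp (MulAut.conjNormal g : A ≃* A).toEquiv
      (fun a => χ a * χ a⁻¹)]
    refine Finset.sum_congr rfl fun a _ => ?_
    rw [map_inv]
    rfl
  · obtain ⟨d, hd0, hd1⟩ := irr_deg_pos hχ
    rw [map_one, hd1, Complex.natCast_re]
    exact_mod_cast hd0

/-- the multiplicities of a class function of the big group are invariant -/
lemma mult_conj {G : Type} [Group G] [Finite G] (A : Subgroup G) [A.Normal] {f : G → ℂ}
    (hfc : ∀ g h, f (h * g * h⁻¹) = f g) {m : (A → ℂ) → ℤ} (hm : ∀ a : A, f a = theta m a)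
    (g : G) {χ : A → ℂ} (hχ : χ ∈ Irr A) : m (fun a => χ (MulAut.conjNormal g a)) = m χ := by
  classical
  have : Fintype A := Fintype.ofFinite A
  have h1 := theta_pair m (conj_irr A g hχ)
  have h2 := theta_pair m hχ
  have h3 : ∑ a : A, (theta m a : ℂ) * χ (MulAut.conjNormal g a⁻¹) =
      ∑ a : A, (theta m a : ℂ) * χ a⁻¹ := by
    rw [← Equiv.sum_comp (MulAut.conjNormal g : A ≃* A).toEquiv
      (fun a => (theta m a : ℂ) * χ a⁻¹)]
    refine Finset.sum_congr rfl fun a _ => ?_
    simp only [MulEquiv.toEquiv_eq_coe, EquivLike.coe_coe]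
    rw [← hm, ← hm, MulAut.conjNormal_apply, hfc, map_inv]
  rw [h3, h2] at h1
  have h4 : (Nat.card A : ℂ) ≠ 0 := by exact_mod_cast Nat.card_pos.ne'
  exact_mod_cast (mul_right_cancel₀ h4 h1).symm

/-- **characters of small multiplicity are invariant** -/
lemma mult_inv {G : Type} [Group G] [Finite G] (A : Subgroup G) [A.Normal] {f : G → ℂ}
    (hfc : ∀ g h, f (h * g * h⁻¹) = f g) {m : (A → ℂ) → ℤ} (hm : ∀ a : A, f a = theta m a)
    {s : ℕ} (hs : ∑ χ ∈ irrF A, (m χ) ^ 2 ≤ (s : ℤ) ^ 2)
    (hG : ∀ p : ℕ, p.Prime → p ∣ (Subgroup.center G).index → s ^ 2 < p) {χ : A → ℂ} (hχ : χ ∈ Irr A)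
    (hmχ : m χ ≠ 0) (g : G) (a : A) : χ (MulAut.conjNormal g a) = χ a := by
  classical
  have : Fintype A := Fintype.ofFinite A
  let S : Subgroup G :=
    { carrier := {g | ∀ a : A, χ (MulAut.conjNormal g a) = χ a}
      one_mem' := fun a => by rw [map_one]; rfl
      mul_mem' := fun {g h} hg hh a => by
        rw [map_mul, MulAut.mul_apply, hg, hh]
      inv_mem' := fun {g} hg a => by
        have h1 := hg (MulAut.conjNormal g⁻¹ a)
        rw [← MulAut.mul_apply, ← map_mul, mul_inv_cancel, map_one] at h1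
        exact h1.symm }
  have hSm : ∀ g, g ∈ S ↔ ∀ a : A, χ (MulAut.conjNormal g a) = χ a := fun g => Iff.rfl
  by_contra hne
  have hST : S.index ≠ 1 := by
    intro h
    rw [Subgroup.index_eq_one] at h
    have h1 : g ∈ S := by rw [h]; exact Subgroup.mem_top g
    exact hne (h1 a)
  have hZS : Subgroup.center G ≤ S := by
    intro z hz a
    have h1 : MulAut.conjNormal z a = a := by
      apply Subtype.ext
      rw [MulAut.conjNormal_apply, (Subgroup.mem_center_iff.1 hz (a : G)).symm,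
        mul_inv_cancel_right]
    rw [h1]
  obtain ⟨p, hp, hpS⟩ := Nat.exists_prime_and_dvd hST
  have hpG := hG p hp (hpS.trans (Subgroup.index_dvd_of_le hZS))
  have hind : s ^ 2 < S.index :=
    lt_of_lt_of_le hpG (Nat.le_of_dvd (Nat.pos_of_ne_zero (Subgroup.index_ne_zero_of_finite)) hpS)
  -- the conjugates
  let φ : G ⧸ S → (A → ℂ) := fun q => fun a => χ (MulAut.conjNormal (q.out)⁻¹ a)
  have hφinj : Function.Injective φ := by
    intro q q' h
    have h1 : q.out⁻¹ * q'.out ∈ S := by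
      rw [hSm]
      intro a
      have h2 := congrFun h (MulAut.conjNormal q'.out a)
      simp only [φ] at h2
      rw [← MulAut.mul_apply, ← map_mul, ← MulAut.mul_apply, ← map_mul, inv_mul_cancel, map_one]
        at h2
      exact h2
    rw [← QuotientGroup.out_eq' q, ← QuotientGroup.out_eq' q']
    exact QuotientGroup.eq.2 h1
  have hφI : ∀ q, φ q ∈ Irr A := fun q => conj_irr A _ hχ
  have hφm : ∀ q, m (φ q) = m χ := fun q => mult_conj A hfc hm _ hχ
  have : Fintype (G ⧸ S) := Fintype.ofFinite _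
  have h1 : ∑ ψ ∈ (Finset.univ : Finset (G ⧸ S)).image φ, (m ψ) ^ 2 ≤ ∑ ψ ∈ irrF A, (m ψ) ^ 2 := by
    refine sum_pair_le _ _ m fun ψ hψ => ?_
    obtain ⟨q, -, rfl⟩ := Finset.mem_image.1 hψ
    exact mem_irrF.2 (hφI q)
  rw [Finset.sum_image fun q _ q' _ h => hφinj h, Finset.sum_congr rfl fun q _ => by rw [hφm q],
    Finset.sum_const, Finset.card_univ, ← Nat.card_eq_fintype_card] at h1
  have h2 : (1 : ℤ) ≤ (m χ) ^ 2 := by
    have := Int.one_le_abs hmχ
    nlinarith [sq_abs (m χ)]
  have h3 : ((S.index : ℕ) : ℤ) ≤ (s : ℤ) ^ 2 := by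
    refine le_trans ?_ (h1.trans hs)
    rw [nsmul_eq_mul]
    have h4 : (0 : ℤ) ≤ (Nat.card (G ⧸ S) : ℤ) := Int.natCast_nonneg _
    change ((Nat.card (G ⧸ S) : ℕ) : ℤ) ≤ _
    nlinarith
  have h4 : S.index ≤ s ^ 2 := by exact_mod_cast h3
  omega

/-- **Bounded virtual characters of nilpotent groups without small prime divisors.** -/
theorem nil_inv_aux (k s : ℕ) : ∀ (G : Type) [Group G] [Finite G] (_ : Nat.card G < k)
    (_ : Group.IsNilpotent G)
    (_ : ∀ p : ℕ, p.Prime → p ∣ (Subgroup.center G).index → s ^ 2 < p) (f : G → ℂ)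
    (_ : Virt f) (_ : ∀ g, ‖f g‖ ≤ s), ∀ g, ∀ n ∈ commutator G, f (n * g) = f g := by
  classical
  induction k with
  | zero => intro G _ _ h; omega
  | succ k ih =>
    intro G _ _ hcard hnil hG f hf hb g n hn
    by_cases hz : Subgroup.zpowers g = ⊤
    · -- a cyclic group
      have hcyc : IsCyclic G := ⟨⟨g, fun x => by
        have h1 : x ∈ Subgroup.zpowers g := by rw [hz]; exact Subgroup.mem_top x
        exact h1⟩⟩
      have hcomm : commutator G = ⊥ := by
        rw [commutator_def, Subgroup.commutator_eq_bot_iff_le_centralizer]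
        intro x _
        rw [Subgroup.mem_centralizer_iff]
        intro y _
        exact (IsCyclic.isMulCommutative (α := G)).is_comm.comm _ _
      rw [hcomm, Subgroup.mem_bot] at hn
      rw [hn, one_mul]
    obtain ⟨A, hA, hgA⟩ := (eq_top_or_exists_le_coatom (Subgroup.zpowers g)).resolve_left hz
    have hAn : A.Normal := Subgroup.NormalizerCondition.normal_of_coatom A
      Group.normalizerCondition_of_isNilpotent hA
    have hg : g ∈ A := hgA (Subgroup.mem_zpowers g)
    have hlt : Nat.card A < Nat.card G := by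
      refine lt_of_le_of_ne (Subgroup.card_le_card_group A) fun h2 => hA.1 ?_
      exact Subgroup.eq_top_of_card_eq A h2
    have hfA : Virt (fun a : A => f (A.subtype a)) := hf.comp A.subtype
    obtain ⟨m, hm⟩ := exists_mult hfA
    have hm' : ∀ a : A, f a = theta m a := hm
    have hZ : (Subgroup.center A).index ∣ (Subgroup.center G).index := by
      have h1 : (Subgroup.center G).subgroupOf A ≤ Subgroup.center A := by
        intro z hz
        rw [Subgroup.mem_center_iff]
        intro a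
        apply Subtype.ext
        exact Subgroup.mem_center_iff.1 (Subgroup.mem_subgroupOf.1 hz) (a : G)
      exact (Subgroup.index_dvd_of_le h1).trans
        (Subgroup.relIndex_dvd_index_of_normal (Subgroup.center G) A)
    have hIH := ih A (by omega) inferInstance (fun p hp hpA => hG p hp (hpA.trans hZ)) _ hfA
      (fun a => hb _)
    have hfc : ∀ g h, f (h * g * h⁻¹) = f g := by
      obtain ⟨m', hm'⟩ := exists_mult hf
      intro g h
      rw [hm', hm']
      unfold theta
      exact Finset.sum_congr rfl fun χ hχ => by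
        rw [Pool.Agent.H541R3.ART.Irr.conj (mem_irrF.1 hχ) g h]
    have : Fintype A := Fintype.ofFinite A
    -- the characters that occur are linear
    have hlin : ∀ χ ∈ Irr A, m χ ≠ 0 → ∃ μ : A →* ℂˣ, ∀ a, χ a = ((μ a : ℂˣ) : ℂ) := by
      intro χ hχ hmχ
      refine irr_one hχ (irr_comm hχ ?_)
      by_contra hcon
      push Not at hcon
      obtain ⟨x, hxN, hx⟩ := hcon
      have h4 := pair_zero (θ := fun a : A => f (A.subtype a)) hχ (commutator A)
        (fun n hn g => hIH g n hn) hxN hx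
      rw [Finset.sum_congr rfl fun a _ => by rw [hm a], theta_pair m hχ] at h4
      rcases mul_eq_zero.1 h4 with h | h
      · exact hmχ (by exact_mod_cast h)
      · exact absurd h (by exact_mod_cast Nat.card_pos.ne')
    have hs := (theta_norm_le m (b := s) (fun a => by rw [← hm]; exact hb _)).1
    have hinv : ∀ χ ∈ Irr A, m χ ≠ 0 → ∀ (g : G) (a : A), χ (MulAut.conjNormal g a) = χ a :=
      fun χ hχ hmχ g a => mult_inv A hfc hm' hs hG hχ hmχ g a
    -- the common kernel
    let B : Subgroup G :=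
      { carrier := {x | ∃ hx : x ∈ A, ∀ χ ∈ Irr A, m χ ≠ 0 → χ ⟨x, hx⟩ = 1}
        one_mem' := ⟨A.one_mem, fun χ hχ hmχ => by
          obtain ⟨μ, hμ⟩ := hlin χ hχ hmχ
          rw [hμ]
          have : (⟨1, A.one_mem⟩ : A) = 1 := rfl
          rw [this, map_one, Units.val_one]⟩
        mul_mem' := fun {x y} hx hy => ⟨A.mul_mem hx.1 hy.1, fun χ hχ hmχ => by
          obtain ⟨μ, hμ⟩ := hlin χ hχ hmχ
          have h1 := hx.2 χ hχ hmχ
          have h2 := hy.2 χ hχ hmχ
          have h3 : (⟨x * y, A.mul_mem hx.1 hy.1⟩ : A) = ⟨x, hx.1⟩ * ⟨y, hy.1⟩ := rfl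
          rw [hμ] at h1 h2 ⊢
          rw [h3, map_mul, Units.val_mul, h1, h2, one_mul]⟩
        inv_mem' := fun {x} hx => ⟨A.inv_mem hx.1, fun χ hχ hmχ => by
          obtain ⟨μ, hμ⟩ := hlin χ hχ hmχ
          have h1 := hx.2 χ hχ hmχ
          have h3 : (⟨x⁻¹, A.inv_mem hx.1⟩ : A) = (⟨x, hx.1⟩ : A)⁻¹ := rfl
          rw [hμ] at h1 ⊢
          rw [h3, map_inv, Units.val_inv_eq_inv_val, h1, inv_one]⟩ }
    have hBm : ∀ x, x ∈ B ↔ ∃ hx : x ∈ A, ∀ χ ∈ Irr A, m χ ≠ 0 → χ ⟨x, hx⟩ = 1 := fun x => Iff.rfl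
    have hBn : B.Normal := by
      refine ⟨fun x hx h => ?_⟩
      obtain ⟨hxA, hx2⟩ := hx
      refine ⟨hAn.conj_mem x hxA h, fun χ hχ hmχ => ?_⟩
      have h1 := hinv χ hχ hmχ h ⟨x, hxA⟩
      rw [hx2 χ hχ hmχ] at h1
      exact h1
    have hcm : ∀ a ∈ A, ∀ h : G, a * h * a⁻¹ * h⁻¹ ∈ B := by
      intro a ha h
      have h1 : h * a⁻¹ * h⁻¹ ∈ A := hAn.conj_mem _ (A.inv_mem ha) h
      have h2 : a * h * a⁻¹ * h⁻¹ = a * (h * a⁻¹ * h⁻¹) := by group
      refine ⟨by rw [h2]; exact A.mul_mem ha h1, fun χ hχ hmχ => ?_⟩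
      obtain ⟨μ, hμ⟩ := hlin χ hχ hmχ
      have h3 : (⟨a * h * a⁻¹ * h⁻¹, by rw [h2]; exact A.mul_mem ha h1⟩ : A) =
          ⟨a, ha⟩ * MulAut.conjNormal h (⟨a, ha⟩ : A)⁻¹ := by
        apply Subtype.ext
        rw [Subgroup.coe_mul, MulAut.conjNormal_apply]
        exact h2
      have h4 := hinv χ hχ hmχ h (⟨a, ha⟩ : A)⁻¹
      rw [hμ, hμ] at h4
      rw [hμ, h3, map_mul, Units.val_mul, h4, ← Units.val_mul, ← map_mul, mul_inv_cancel, map_one,
        Units.val_one]
    -- the quotient is abelian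
    have hBA : B ≤ A := fun x hx => hx.1
    have hcycA : IsCyclic (G ⧸ A) := by
      obtain ⟨h, hh⟩ : ∃ h : G, h ∉ A := by
        by_contra hcon
        push Not at hcon
        exact hA.1 (eq_top_iff.2 fun x _ => hcon x)
      have h1 : Subgroup.zpowers h ⊔ A = ⊤ := by
        refine hA.2 _ (lt_of_le_of_ne le_sup_right fun h2 => hh ?_)
        rw [h2]
        exact le_sup_left (a := Subgroup.zpowers h) (Subgroup.mem_zpowers h)
      refine ⟨⟨QuotientGroup.mk' A h, fun q => ?_⟩⟩
      have h2 : Subgroup.map (QuotientGroup.mk' A) (Subgroup.zpowers h ⊔ A) = ⊤ := by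
        rw [h1, Subgroup.map_top_of_surjective _ (QuotientGroup.mk'_surjective A)]
      rw [Subgroup.map_sup, MonoidHom.map_zpowers, QuotientGroup.map_mk'_self, sup_bot_eq] at h2
      have h3 : q ∈ Subgroup.zpowers (QuotientGroup.mk' A h) := by
        rw [h2]
        exact Subgroup.mem_top q
      exact h3
    have hcommB : commutator G ≤ B := by
      let π : G ⧸ B →* G ⧸ A := QuotientGroup.map B A (MonoidHom.id G) (fun x hx => hBA hx)
      have hker : π.ker ≤ Subgroup.center (G ⧸ B) := by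
        intro q hq
        obtain ⟨a, rfl⟩ := QuotientGroup.mk_surjective q
        have ha : a ∈ A := by
          have h1 : π (QuotientGroup.mk a) = QuotientGroup.mk a := rfl
          rw [MonoidHom.mem_ker, h1] at hq
          exact (QuotientGroup.eq_one_iff a).1 hq
        rw [Subgroup.mem_center_iff]
        intro q'
        obtain ⟨h, rfl⟩ := QuotientGroup.mk_surjective q'
        rw [← QuotientGroup.mk_mul, ← QuotientGroup.mk_mul]
        apply QuotientGroup.eq.2
        have h1 := hcm a⁻¹ (A.inv_mem ha) h⁻¹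
        have h2 : (h * a)⁻¹ * (a * h) = a⁻¹ * h⁻¹ * a⁻¹⁻¹ * h⁻¹⁻¹ := by group
        rw [h2]
        exact h1
      have h2' := MonoidHom.isMulCommutative_of_isCyclic_of_ker_le_center π hker
      have h2 : ∀ a b : G ⧸ B, a * b = b * a := fun a b => h2'.is_comm.comm a b
      rw [commutator_def, Subgroup.commutator_le]
      intro x _ y _
      rw [← QuotientGroup.eq_one_iff]
      rw [commutatorElement_def, QuotientGroup.mk_mul, QuotientGroup.mk_mul, QuotientGroup.mk_mul,
        h2 (QuotientGroup.mk x) (QuotientGroup.mk y)]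
      rw [← QuotientGroup.mk_mul, ← QuotientGroup.mk_mul, ← QuotientGroup.mk_mul,
        QuotientGroup.eq_one_iff]
      have : y * x * x⁻¹ * y⁻¹ = 1 := by group
      rw [this]
      exact B.one_mem
    obtain ⟨hnA, hn2⟩ := hcommB hn
    have e1 := hm' (⟨n, hnA⟩ * ⟨g, hg⟩)
    have e2 := hm' ⟨g, hg⟩
    have e3 : (theta m ((⟨n, hnA⟩ : A) * ⟨g, hg⟩) : ℂ) = theta m (⟨g, hg⟩ : A) := by
      unfold theta
      refine Finset.sum_congr rfl fun χ hχ => ?_
      by_cases h0 : m χ = 0
      · rw [h0]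
        simp
      · obtain ⟨μ, hμ⟩ := hlin χ (mem_irrF.1 hχ) h0
        have h1 := hn2 χ (mem_irrF.1 hχ) h0
        rw [hμ] at h1
        rw [hμ, hμ, map_mul, Units.val_mul, h1, one_mul]
    rw [e3, ← e2] at e1
    exact e1

/-- **Bounded virtual characters of nilpotent groups without small prime divisors.** -/
theorem nil_inv {G : Type} [Group G] [Finite G] {s : ℕ} (hnil : Group.IsNilpotent G)
    (hG : ∀ p : ℕ, p.Prime → p ∣ (Subgroup.center G).index → s ^ 2 < p) {f : G → ℂ} (hf : Virt f)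
    (hb : ∀ g, ‖f g‖ ≤ s) (g : G) {n : G} (hn : n ∈ commutator G) : f (n * g) = f g :=
  nil_inv_aux (Nat.card G + 1) s G (Nat.lt_succ_self _) hnil hG f hf hb g n hn

end Pool.Agent.TH820.LG
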