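import Pool.Agent.TH820.LG.ExtDefs
import Pool.Agent.TH820.LG.ECDefs

/-!
# Nilpotent extensions: definitions

`F` is a finite Galois extension of the number field `K` with nilpotent Galois group, such that the order
of the quotient of this group by its centre has no small prime divisors.
-/

set_option autoImplicit false

namespace Pool.Agent.TH820.LG

open NumberField

section
variable {K : Type} [Field K]

/-- `F/K` is a Galois extension with nilpotent group `G`, and every prime that divides the order of
`G / Z(G)` is larger than `c`.  (The Sylow subgroups of `G` for the primes `≤ c` are then abelian.)  For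
example `G` can be any `p`-group with `p > c`. -/
def IsNilpotentExtension (c : ℕ) (F : IntermediateField K (AlgebraicClosure K)) : Prop :=
  IsGalois K F ∧ Group.IsNilpotent Gal(F/K) ∧
    ∀ p : ℕ, p.Prime → p ∣ (Subgroup.center Gal(F/K)).index → c < p

end

section
variable {K : Type} [Field K] [NumberField K] {l : ℕ}

/-- Let `F/K` be a nilpotent extension, all primes dividing the order of `G / Z(G)`, `G = Gal(F/K)`, being
larger than `4N²`, and `τ` real.  Suppose that `L(H^i(X) ⊗ χ, s)` has a meromorphic continuation to a
neighbourhood of `i/2 + 1 + iτ` for all irreducible representations `χ` of `Gal(F/K)` of dimension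
`≠ 1`.
* All these functions have neither a zero nor a pole at `i/2 + 1 + iτ`.
* Let `E` be any field with `K ⊆ E ⊆ F` and `E₀` its largest subfield that is abelian over `K`.  The
difference between the values of `log |L(i/2 + 1 + iτ + ε)| / log(1/ε)` for `L(H^i(X_E), s)` and
`L(H^i(X_{E₀}), s)` tends to `0` as `ε → 0+`, and the orders of these two functions at `i/2 + 1 + iτ`, if
they exist, are equal. -/
def NilpotentOrders (X : Set (MvPolynomial (Fin l) (𝓞 K))) (d i N : ℕ) : Prop :=
  ∀ (F : IntermediateField K (AlgebraicClosure K)) [NumberField F] (τ : ℝ),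
    IsNilpotentExtension (4 * N ^ 2) F →
    (∀ (r : ℕ) (χ : Representation ℂ Gal(AlgebraicClosure K/K) (Fin r → ℂ)), IsNonabelian F χ →
      ∃ k : ℤ, W353.AT.TwistOrder X d i N χ τ k) →
    (∀ (r : ℕ) (χ : Representation ℂ Gal(AlgebraicClosure K/K) (Fin r → ℂ)), IsNonabelian F χ →
      ∀ k : ℤ, W353.AT.TwistOrder X d i N χ τ k → k = 0) ∧
    ∀ (E₀ E : IntermediateField K (AlgebraicClosure K)) [NumberField E₀] [NumberField E], E ≤ F →
      IsMaxAbelian E₀ E → SameEdge X d i N τ E E₀

/-- Let `F/K` be a nilpotent extension, all primes dividing the order of `G / Z(G)`, `G = Gal(F/K)`, being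
larger than `4s²`.  Suppose that the defect exists for all irreducible representations `χ` of `Gal(F/K)`
of dimension `≠ 1`.
* All these defects are zero.
* Let `E` be any field with `K ⊆ E ⊆ F` and `E₀` its largest subfield that is abelian over `K`.  The
difference between the values of `log |L(m + 1 + ε)| / log(1/ε) - rank` for `L(H^{2m}(X_E), s)` and
`L(H^{2m}(X_{E₀}), s)` tends to `0` as `ε → 0+`, and the defects over `E` and over `E₀`, if they exist,
are equal. -/
def NilpotentDefects (X : Set (MvPolynomial (Fin l) (𝓞 K))) (d m N : ℕ) {V : Type}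
    [AddCommGroup V] [Module ℚ V] (ρ : Representation ℚ Gal(AlgebraicClosure K/K) V)
    (s : ℕ) : Prop :=
  ∀ (F : IntermediateField K (AlgebraicClosure K)) [NumberField F],
    IsNilpotentExtension (4 * s ^ 2) F →
    (∀ (r : ℕ) (χ : Representation ℂ Gal(AlgebraicClosure K/K) (Fin r → ℂ)), IsNonabelian F χ →
      ∃ δ : ℤ, W353.AT.TwistDefect X d m N ρ χ δ) →
    (∀ (r : ℕ) (χ : Representation ℂ Gal(AlgebraicClosure K/K) (Fin r → ℂ)), IsNonabelian F χ →
      ∀ δ : ℤ, W353.AT.TwistDefect X d m N ρ χ δ → δ = 0) ∧
    ∀ (E₀ E : IntermediateField K (AlgebraicClosure K)) [NumberField E₀] [NumberField E], E ≤ F →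
      IsMaxAbelian E₀ E → SameDefects X d m N ρ E E₀

end

end Pool.Agent.TH820.LG
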