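import Mathlib
import Pool.Agent.TH820.LG.NP1
import Pool.Agent.TH820.LG.W3
import Pool.Agent.TH820.LG.Main
import Pool.Agent.TH820.LG.NilDefs

/-! # Nilpotent extensions without small primes: orders and defects -/

set_option autoImplicit false
set_option linter.unusedSectionVars false

namespace Pool.Agent.TH820.LG

open Complex Filter Topology ComplexConjugate NumberField IsDedekindDomain Polynomial
  Pool.Agent.W401.Cheb Pool.Agent.W540.BE Pool.Agent.W353.L1 Pool.Agent.W353.AT
open Pool.Agent.TH526.DS (IsNew normal_fix)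
open Pool.Agent.W446.AS (Virt)
open Pool.Agent.W353.TD (IsPart)

section
variable {K : Type} [Field K] [NumberField K]

/-- **Nilpotent extensions are rigid over their largest abelian subextension.** -/
theorem nil_rigid (F : IntermediateField K (AlgebraicClosure K)) [NumberField F] {c : ℕ}
    (hF : IsNilpotentExtension c F) :
    ∃ (M : IntermediateField K (AlgebraicClosure K)) (_ : NumberField M), IsAbelianGalois K M ∧
      M ≤ F ∧ ∀ s : ℕ, s ^ 2 ≤ max c 1 → RigidPair s M F := by
  classical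
  obtain ⟨hFg, hnil, hp⟩ := hF
  obtain ⟨hUo, hUn⟩ := normal_fix F hFg
  have hfin : Finite (GK K ⧸ F.fixingSubgroup) := Subgroup.quotient_finite_of_isOpen _ hUo
  let ρ : GK K →* Gal(F/K) := AlgEquiv.restrictNormalHom F
  have hρ : Function.Surjective ρ := AlgEquiv.restrictNormalHom_surjective _
  have hρker : ρ.ker = F.fixingSubgroup := IntermediateField.restrictNormalHom_ker F
  let e : GK K ⧸ F.fixingSubgroup ≃* Gal(F/K) :=
    (QuotientGroup.quotientMulEquivOfEq hρker.symm).trans
      (QuotientGroup.quotientKerEquivOfSurjective ρ hρ)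
  have he : ∀ γ : GK K, e (QuotientGroup.mk γ) = ρ γ := fun γ => rfl
  have hfinG : Finite Gal(F/K) := Finite.of_equiv _ e.toEquiv
  let N : Subgroup (GK K) := (commutator Gal(F/K)).comap ρ
  have hUN : F.fixingSubgroup ≤ N := by
    intro g hg
    rw [← hρker, MonoidHom.mem_ker] at hg
    change ρ g ∈ commutator Gal(F/K)
    rw [hg]
    exact one_mem _
  have hNo : IsOpen (N : Set (GK K)) := Subgroup.isOpen_mono hUN hUo
  have hNc : ∀ g h : GK K, g * h * g⁻¹ * h⁻¹ ∈ N := by
    intro g h
    change ρ (g * h * g⁻¹ * h⁻¹) ∈ commutator Gal(F/K)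
    simp only [map_mul, map_inv]
    rw [← commutatorElement_def]
    exact Subgroup.commutator_mem_commutator (Subgroup.mem_top _) (Subgroup.mem_top _)
  have hNn : N.Normal := by
    constructor
    intro m hm g
    have h1 := N.mul_mem (hNc g m) hm
    rwa [inv_mul_cancel_right] at h1
  have hNcl : IsClosed (N : Set (GK K)) := Subgroup.isClosed_of_isOpen N hNo
  let M : IntermediateField K (AlgebraicClosure K) := IntermediateField.fixedField N
  have hMfix : M.fixingSubgroup = N :=
    InfiniteGalois.fixingSubgroup_fixedField (⟨N, hNcl⟩ : ClosedSubgroup (GK K))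
  have hMo := (InfiniteGalois.isOpen_and_normal_iff_finite_and_isGalois M).1
    (by rw [hMfix]; exact ⟨hNo, hNn⟩)
  have hMfd : FiniteDimensional K M := hMo.1
  have hMg : IsGalois K M := hMo.2
  have hMnf : NumberField M := NumberField.of_module_finite K M
  have hMF : M ≤ F := by
    intro x hx
    rw [← InfiniteGalois.fixedField_fixingSubgroup F, IntermediateField.mem_fixedField_iff]
    intro g hg
    exact (IntermediateField.mem_fixedField_iff N x).1 hx g (hUN hg)
  have hcommM : ∀ a b : Gal(M/K), a * b = b * a := by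
    intro a b
    obtain ⟨g, rfl⟩ := AlgEquiv.restrictNormalHom_surjective (F := K) (K₁ := M)
      (AlgebraicClosure K) a
    obtain ⟨h, rfl⟩ := AlgEquiv.restrictNormalHom_surjective (F := K) (K₁ := M)
      (AlgebraicClosure K) b
    rw [← map_mul, ← map_mul]
    have h1 : (AlgEquiv.restrictNormalHom M) (g * h * g⁻¹ * h⁻¹) = (1 : Gal(M/K)) := by
      rw [← MonoidHom.mem_ker, IntermediateField.restrictNormalHom_ker M, hMfix]
      exact hNc g h
    have h2 : g * h = (g * h * g⁻¹ * h⁻¹) * (h * g) := by group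
    rw [h2, map_mul, h1, one_mul]
  have hMab : IsAbelianGalois K M := { hMg with is_comm := ⟨hcommM⟩ }
  refine ⟨M, hMnf, hMab, hMF, fun s hs => ?_⟩
  intro _ θ hθ hb g a ha
  have hG : ∀ p : ℕ, p.Prime → p ∣ (Subgroup.center Gal(F/K)).index → s ^ 2 < p := by
    intro p hp1 hp2
    have h1 := hp p hp1 hp2
    have h2 := hp1.one_lt
    exact lt_of_le_of_lt hs (max_lt h1 h2)
  have hmain := fun x y hy => nil_inv (f := fun x => θ (e.symm x)) hnil hG (virt_iso e hθ)
    (fun x => hb _) x (n := y) hy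
  rw [hMfix] at ha
  have h1 := hmain (ρ a * e g * (ρ a)⁻¹) (ρ a) ha
  -- class functions
  obtain ⟨m, hm⟩ := exists_mult hθ
  have hfc : ∀ g h, θ (h * g * h⁻¹) = θ g := by
    intro g h
    rw [hm, hm]
    unfold Pool.Agent.H541R3.ART.theta
    exact Finset.sum_congr rfl fun χ hχ => by
      rw [Pool.Agent.H541R3.ART.Irr.conj (Pool.Agent.H541R3.ART.mem_irrF.1 hχ) g h]
  have h2 : e.symm (ρ a) = QuotientGroup.mk a := by
    rw [MulEquiv.symm_apply_eq, he]
  simp only [map_mul, map_inv, MulEquiv.symm_apply_apply] at h1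
  rw [h2] at h1
  have e1 := hfc (g * QuotientGroup.mk a) (QuotientGroup.mk a * QuotientGroup.mk a)
  have e2 := hfc g (QuotientGroup.mk a)
  have e3 := hfc (g * QuotientGroup.mk a) (QuotientGroup.mk a)
  rw [e2] at h1
  have e4 : (QuotientGroup.mk a : GK K ⧸ F.fixingSubgroup) *
      (QuotientGroup.mk a * g * (QuotientGroup.mk a)⁻¹) =
      (QuotientGroup.mk a * QuotientGroup.mk a) * (g * QuotientGroup.mk a) *
        (QuotientGroup.mk a * QuotientGroup.mk a)⁻¹ := by group
  rw [e4, e1] at h1
  exact h1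

/-- **The orders over nilpotent extensions.** -/
theorem nilpotentOrders {l : ℕ} (d i N : ℕ) (X : Set (MvPolynomial (Fin l) (𝓞 K)))
    (hi : i ≤ 2 * d) : NilpotentOrders X d i N := by
  rintro F _ τ hF H
  obtain ⟨M, hMnf, hMab, hMF, hrig⟩ := nil_rigid F hF
  have hM : IsGalois K M := hMab.toIsGalois
  have hrig1 : RigidPair 1 M F := by
    have h1 := hrig 1 (by simp)
    rwa [Nat.cast_one] at h1
  have hrigN : RigidPair (2 * N) M F := by
    have h1 := hrig (2 * N) (by rw [mul_pow]; exact le_max_left _ _)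
    rwa [Nat.cast_mul, Nat.cast_ofNat] at h1
  obtain ⟨hiff, hmax⟩ := abelian_bottom hMab hF.1 hMF hrig1
  have hmain := rigid_orders hi τ hM hF.1 hMF hrigN (fun r χ hχ => H r χ ((hiff r χ).2 hχ))
  refine ⟨fun r χ hχ k hk => hmain.1 r χ ((hiff r χ).1 hχ) k hk, ?_⟩
  intro E₀ E _ _ hEF hE₀
  have he := hmax E₀ E hEF hE₀
  subst he
  exact hmain.2 E hEF

/-- **The defects over nilpotent extensions.** -/
theorem nilpotentDefects {l : ℕ} (d m N s : ℕ) (X : Set (MvPolynomial (Fin l) (𝓞 K)))
    {V : Type} [AddCommGroup V] [Module ℚ V] [FiniteDimensional ℚ V]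
    (ρ : Representation ℚ (GK K) V) (hmd : m ≤ d) (hpart : IsPart X d m N ρ)
    (hNs : N ≤ Module.finrank ℚ V + s) : NilpotentDefects X d m N ρ s := by
  rintro F _ hF H
  obtain ⟨M, hMnf, hMab, hMF, hrig⟩ := nil_rigid F hF
  have hM : IsGalois K M := hMab.toIsGalois
  have hrig1 : RigidPair 1 M F := by
    have h1 := hrig 1 (by simp)
    rwa [Nat.cast_one] at h1
  have hrigN : RigidPair (2 * s) M F := by
    have h1 := hrig (2 * s) (by rw [mul_pow]; exact le_max_left _ _)
    rwa [Nat.cast_mul, Nat.cast_ofNat] at h1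
  obtain ⟨hiff, hmax⟩ := abelian_bottom hMab hF.1 hMF hrig1
  have h1 : ((N - Module.finrank ℚ V : ℕ) : ℝ) ≤ s := by
    exact_mod_cast (by omega : N - Module.finrank ℚ V ≤ s)
  have hmain := rigid_defects hmd hpart hM hF.1 hMF (hrigN.mono (by linarith))
    (fun r χ hχ => H r χ ((hiff r χ).2 hχ))
  refine ⟨fun r χ hχ δ hδ => hmain.1 r χ ((hiff r χ).1 hχ) δ hδ, ?_⟩
  intro E₀ E _ _ hEF hE₀
  have he := hmax E₀ E hEF hE₀
  subst he
  exact hmain.2 E hEF

end

end Pool.Agent.TH820.LG
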