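import Pool.Agent.TH820.LG.TowerDefs
import Pool.Agent.TH820.LG.NilDefs

/-!
# Large towers over nilpotent extensions: definitions
-/

set_option autoImplicit false

namespace Pool.Agent.TH820.LG

/-- There is a large tower from a nilpotent extension `F₀` of `K` to `F`, such that the primes dividing
the order of the quotient of `Gal(F₀/K)` by its centre are larger than `c`: the group `Gal(F/K)` has a
series of normal subgroups whose factors are quotients of the groups `SL_m(k)` or `A_m` with `m ≥ n`, down
to the nilpotent quotient `Gal(F₀/K)`.  For example `Gal(F/K)` is the symmetric group `S_m`, `m ≥ n`, or a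
group `H` with `SL_m(k) ⊆ H ⊆ GL_m(k)`, `m ≥ n`, or a `p`-group, `p > c`, or a direct product of such groups
and of abelian groups. -/
def IsNilpotentTower {K : Type} [Field K] (n c : ℕ)
    (F : IntermediateField K (AlgebraicClosure K)) : Prop :=
  ∃ F₀ : IntermediateField K (AlgebraicClosure K), FiniteDimensional K F₀ ∧
    IsNilpotentExtension c F₀ ∧ IsLargeTower n F₀ F

end Pool.Agent.TH820.LG
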