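import Pool.Agent.W353.FB.Defs

/-!
# Residues over the intermediate fields of a Galois extension: definitions

`P` is a local value over a number field `K` (a real number for almost every prime of every number field
`F ⊇ K`), for instance `nagaoValue` or `degreeTwoValue` of a fibration; `ρ` is a representation of the
absolute Galois group of `K` on a space `W` over `ℚ`.
-/

set_option autoImplicit false

namespace Pool.Agent.TH820.LG

open NumberField IsDedekindDomain Filter Topology
open Pool.Agent.W353.FB (LocalValue IsSystem IsTwistedSystem residue)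
open Pool.Agent.W353.TD (rank)
open Pool.Agent.W353.AT (twistRank)

section
variable {K : Type} [Field K] [NumberField K] {W : Type} [AddCommGroup W] [Module ℚ W]

/-- `(s - 1) ∑ b_v (log q_v) q_v^{-s}`, the sum over the primes `v` of `K` outside a finite set, with `b_v`
the value at `v` times `Re χ(Frob_v)`, tends to `twistRank ρ χ - δ` for `s → 1+`. -/
def TwistResidue (P : LocalValue K) (ρ : Representation ℚ Gal(AlgebraicClosure K/K) W) {n : ℕ}
    (χ : Representation ℂ Gal(AlgebraicClosure K/K) (Fin n → ℂ)) (δ : ℤ) : Prop :=
  ∃ (R : Finset (HeightOneSpectrum (𝓞 K))) (b : HeightOneSpectrum (𝓞 K) → ℝ),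
    IsTwistedSystem P χ R b ∧
    Tendsto (fun s : ℝ => residue R b s) (𝓝[>] 1) (𝓝 ((twistRank ρ χ : ℝ) - δ))

/-- The difference between the numbers `(s - 1) ∑ b_w (log q_w) q_w^{-s} - rank` for the fields `E` and
`E'`, `b_w` the values at the primes `w` of `E` and of `E'`, tends to `0` for `s → 1+`. -/
def SameResidues (P : LocalValue K) (ρ : Representation ℚ Gal(AlgebraicClosure K/K) W)
    (E E' : IntermediateField K (AlgebraicClosure K)) [NumberField E] [NumberField E'] : Prop :=
  ∀ (R : Finset (HeightOneSpectrum (𝓞 E))) (b : HeightOneSpectrum (𝓞 E) → ℝ)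
    (R' : Finset (HeightOneSpectrum (𝓞 E'))) (b' : HeightOneSpectrum (𝓞 E') → ℝ),
    IsSystem P R b → IsSystem P R' b' →
    Tendsto (fun s : ℝ => (residue R b s - rank ρ E) - (residue R' b' s - rank ρ E')) (𝓝[>] 1)
      (𝓝 0)

end

end Pool.Agent.TH820.LG
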