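import Pool.Agent.TH820.LG.ResDefs
import Pool.Agent.TH820.LG.LayerDefs

/-!
# Residues over layers of odd degree: definitions
-/

set_option autoImplicit false

namespace Pool.Agent.TH820.LG

open Pool.Agent.W353.FB (LocalValue)
open Pool.Agent.TH526.DS (IsNew)

/-- Let `M ⊆ F` be finite Galois extensions of `K` such that `[F : M]` is odd.  Suppose that the residues
of the Dirichlet series twisted by `χ` exist (as limits from the right) and are integers, for all
irreducible representations `χ` of `Gal(F/K)`.  Then there is a Galois extension `C/K` with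
`M ⊆ C ⊆ F`, cyclic over `M`, with the following properties.
* The residues for all irreducible representations of `Gal(F/K)` that are not trivial on `Gal(F/C)` are
the ranks: `δ = 0` in `TwistResidue`.
* For any field `E` with `K ⊆ E ⊆ F` the difference between the values of `residue - rank` over `E` and
over `E ∩ C` tends to `0`. -/
def OddLayerResidues {K : Type} [Field K] [NumberField K] (P : LocalValue K) {W : Type}
    [AddCommGroup W] [Module ℚ W] (ρ : Representation ℚ Gal(AlgebraicClosure K/K) W) : Prop :=
  ∀ (M F : IntermediateField K (AlgebraicClosure K)) [NumberField M] [NumberField F],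
    IsGalois K M → IsGalois K F → M ≤ F → Odd (Module.finrank K F / Module.finrank K M) →
    (∀ (r : ℕ) (χ : Representation ℂ Gal(AlgebraicClosure K/K) (Fin r → ℂ)), χ.IsIrreducible →
      (∀ u ∈ F.fixingSubgroup, χ u = 1) → ∃ δ : ℤ, TwistResidue P ρ χ δ) →
    ∃ C : IntermediateField K (AlgebraicClosure K), M ≤ C ∧ C ≤ F ∧ IsGalois K C ∧
      IsCyclicLayer M C ∧
      (∀ (r : ℕ) (χ : Representation ℂ Gal(AlgebraicClosure K/K) (Fin r → ℂ)), IsNew C F χ →
        ∀ δ : ℤ, TwistResidue P ρ χ δ → δ = 0) ∧
      ∀ (E : IntermediateField K (AlgebraicClosure K)) [NumberField E] [NumberField ↥(E ⊓ C)],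
        E ≤ F → SameResidues P ρ E (E ⊓ C)

end Pool.Agent.TH820.LG
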