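import Pool.Agent.TH820.LG.ResDefs
import Pool.Agent.TH820.LG.NilTowerDefs

/-!
# Residues over towers over nilpotent extensions: definitions
-/

set_option autoImplicit false

namespace Pool.Agent.TH820.LG

open Pool.Agent.W353.FB (LocalValue)

/-- Let `n ≥ n₀` and let `F` be the top of a large tower over a nilpotent extension of `K`
(`IsNilpotentTower n (4s²) F`).  Suppose that the residues of the Dirichlet series twisted by `χ` exist
(as limits from the right) and are integers, for all irreducible representations `χ` of `Gal(F/K)` of
dimension `≠ 1`.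
* All these residues are the ranks: `δ = 0` in `TwistResidue`.
* Let `E` be any field with `K ⊆ E ⊆ F` and `E₀` its largest subfield that is abelian over `K`.  The
difference between the values of `residue - rank` over `E` and over `E₀` tends to `0`. -/
def NilpotentTowerResidues {K : Type} [Field K] [NumberField K] (P : LocalValue K) {W : Type}
    [AddCommGroup W] [Module ℚ W] (ρ : Representation ℚ Gal(AlgebraicClosure K/K) W)
    (s n₀ : ℕ) : Prop :=
  ∀ (n : ℕ) (F : IntermediateField K (AlgebraicClosure K)) [NumberField F], n₀ ≤ n →
    IsNilpotentTower n (4 * s ^ 2) F →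
    (∀ (r : ℕ) (χ : Representation ℂ Gal(AlgebraicClosure K/K) (Fin r → ℂ)), IsNonabelian F χ →
      ∃ δ : ℤ, TwistResidue P ρ χ δ) →
    (∀ (r : ℕ) (χ : Representation ℂ Gal(AlgebraicClosure K/K) (Fin r → ℂ)), IsNonabelian F χ →
      ∀ δ : ℤ, TwistResidue P ρ χ δ → δ = 0) ∧
    ∀ (E₀ E : IntermediateField K (AlgebraicClosure K)) [NumberField E₀] [NumberField E], E ≤ F →
      IsMaxAbelian E₀ E → SameResidues P ρ E E₀

end Pool.Agent.TH820.LG
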