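import Mathlib
import Pool.Agent.TH820.LG.V4
import Pool.Agent.TH820.LG.W3
import Pool.Agent.W353.SP.NMain

/-! # Mean values of the twists by the new characters -/

set_option autoImplicit false
set_option linter.unusedSectionVars false

namespace Pool.Agent.TH820.LG

open Complex Filter Topology ComplexConjugate NumberField IsDedekindDomain Polynomial
  Pool.Agent.W401.Cheb Pool.Agent.W540.BE Pool.Agent.W353.L1 Pool.Agent.W353.AT
open Pool.Agent.W353.NF (act act_apply fixn fixn_inv fixn_le)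
open Pool.Agent.TH526.DS (IsNew normal_fix exists_unit char_sum_zero)
open Pool.Agent.H541R3.ART (theta irrF mem_irrF)
open Pool.Agent.W446.AS (Virt theta_virt)
open Pool.Agent.W353.SP (Mn Hs Bd bd_RR)

section
variable {K : Type} [Field K] [NumberField K] {ι : Type} {l : Filter ι}
  {E : ι → (HeightOneSpectrum (𝓞 K) → ℝ) → ℝ}

/-- the real part of a character without height -/
theorem RR_zero {n : ℕ} (χ : Representation ℂ (GK K) (Fin n → ℂ))
    (σ : HeightOneSpectrum (𝓞 K) → GK K) (v : HeightOneSpectrum (𝓞 K)) :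
    RR χ 0 σ v = (χ.character (σ v)⁻¹).re := by
  unfold RR zz
  rw [Complex.ofReal_zero, zero_mul, neg_zero, Complex.cpow_zero, mul_one]

variable {T : HeightOneSpectrum (𝓞 K) → ℝ} {s : ℝ} (hs : 0 ≤ s) (hT : ∀ v, |T v| ≤ s)
  {σ : HeightOneSpectrum (𝓞 K) → GK K} (hσ : ∀ v, IsFrob v (σ v))

include hs hT hσ in
/-- **The sup-norm inequality for mean values.** -/
theorem mn_comb [l.NeBot] (h : Mn l E) (U : Subgroup (GK K)) [U.Normal]
    (hU : IsOpen (U : Set (GK K))) [Finite (GK K ⧸ U)] {κ : Type*} (S : Finset κ) {n : κ → ℕ}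
    (ρ : ∀ k, Representation ℂ (GK K) (Fin (n k) → ℂ)) (hρ : ∀ k, ∀ u ∈ U, ρ k u = 1)
    (c : κ → ℝ) {y : κ → ℝ} (hy : ∀ k ∈ S, Hs l E (fun v => T v * RR (ρ k) 0 σ v) (y k)) :
    ∑ k ∈ S, c k * y k ≤ s * avR U (fun q => ‖comb U S ρ hρ c q‖) := by
  classical
  let _ : Fintype (GK K ⧸ U) := Fintype.ofFinite _
  set f := comb U S ρ hρ c with hf
  have hfc : ∀ a x, f (x * a * x⁻¹) = f a := by
    intro a x
    rw [hf]
    unfold comb
    refine Finset.sum_congr rfl fun k _ => ?_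
    have h1 : (x * a * x⁻¹)⁻¹ = x * a⁻¹ * x⁻¹ := by group
    rw [h1, Representation.char_conj]
  have hN : Hs l E (fun v => ‖f (QuotientGroup.mk (σ v))‖) (avR U fun q => ‖f q‖) := by
    refine ⟨⟨∑ q, ‖f q‖, fun v => ?_⟩, ?_⟩
    · rw [abs_of_nonneg (norm_nonneg _)]
      exact Finset.single_le_sum (f := fun q => ‖f q‖) (fun q _ => norm_nonneg _)
        (Finset.mem_univ _)
    · have h1 := h.cheb U hU (fun q => ((‖f q‖ : ℝ) : ℂ)) (fun a g => by rw [hfc]) _
        (avC_ofReal U fun q => ‖f q‖) σ hσ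
      refine h1.congr fun i => ?_
      congr 1
  have hL : Hs l E (fun v => T v * ∑ k ∈ S, c k * RR (ρ k) 0 σ v) (∑ k ∈ S, c k * y k) := by
    refine (h.hsSum S fun k hk => h.hsMul (hy k hk) (c k)).congr (fun v => ?_) rfl
    rw [Finset.mul_sum]
    exact Finset.sum_congr rfl fun k _ => by ring
  refine Hs.le h hL (h.hsMul hN s) fun v => ?_
  have e1 : ∑ k ∈ S, c k * RR (ρ k) 0 σ v = (f (QuotientGroup.mk (σ v))).re := by
    rw [hf]
    unfold comb
    rw [Complex.re_sum]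
    refine Finset.sum_congr rfl fun k _ => ?_
    rw [Complex.re_ofReal_mul, RR_zero]
    rfl
  rw [e1]
  calc T v * (f (QuotientGroup.mk (σ v))).re ≤ |T v * (f (QuotientGroup.mk (σ v))).re| :=
        le_abs_self _
    _ = |T v| * |(f (QuotientGroup.mk (σ v))).re| := abs_mul _ _
    _ ≤ s * ‖f (QuotientGroup.mk (σ v))‖ :=
      mul_le_mul (hT v) (Complex.abs_re_le_norm _) (abs_nonneg _) hs

variable {M F : IntermediateField K (AlgebraicClosure K)} [NumberField M] [NumberField F]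
  (hM : IsGalois K M) (hF : IsGalois K F) (hMF : M ≤ F)

include hs hT hσ hM hF hMF in
/-- **Integral mean values of the new characters are zero.** -/
theorem mn_zero [l.NeBot] (h : Mn l E) (hrig : RigidPair (2 * s) M F)
    (H : ∀ (n : ℕ) (χ : Representation ℂ (GK K) (Fin n → ℂ)), IsNew M F χ →
      ∃ δ : ℤ, Hs l E (fun v => T v * RR χ 0 σ v) δ) {n : ℕ}
    (χ : Representation ℂ (GK K) (Fin n → ℂ)) (hχ : IsNew M F χ) {δ : ℤ}
    (hδ : Hs l E (fun v => T v * RR χ 0 σ v) δ) : δ = 0 := by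
  classical
  obtain ⟨hUo, hUn⟩ := normal_fix F hF
  obtain ⟨hAo, hAn⟩ := normal_fix M hM
  have hfin : Finite (GK K ⧸ F.fixingSubgroup) := Subgroup.quotient_finite_of_isOpen _ hUo
  let _ : Fintype (GK K ⧸ F.fixingSubgroup) := Fintype.ofFinite _
  set Ab : Subgroup (GK K ⧸ F.fixingSubgroup) :=
    M.fixingSubgroup.map (QuotientGroup.mk' F.fixingSubgroup) with hAb
  have hAbn : Ab.Normal := hAn.map _ (QuotientGroup.mk'_surjective _)
  set x : (GK K ⧸ F.fixingSubgroup → ℂ) → MRep (GK K) := fun ψ => infl F.fixingSubgroup (repM ψ)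
    with hx
  have hxtriv : ∀ ψ, ∀ u ∈ F.fixingSubgroup, (x ψ).2 u = 1 := fun ψ u hu => infl_triv _ _ u hu
  have hxchar : ∀ ψ ∈ Pool.Agent.H541R3.ART.Irr (GK K ⧸ F.fixingSubgroup), ∀ g,
      (x ψ).2.character g = ψ (QuotientGroup.mk g) := by
    intro ψ hψ g
    have h1 : (x ψ).2.character g = (repM ψ).2.character (QuotientGroup.mk g) :=
      infl_char F.fixingSubgroup (repM ψ) g
    rw [h1]
    exact (congrFun (repM_spec hψ).2 (QuotientGroup.mk g)).symm
  have hnew : ∀ ψ ∈ Pool.Agent.H541R3.ART.Irr (GK K ⧸ F.fixingSubgroup), isN Ab ψ →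
      IsNew M F (x ψ).2 := by
    intro ψ hψ hN
    refine ⟨infl_irr _ _ (repM_spec hψ).1, hxtriv ψ, ?_⟩
    by_contra hcon
    push Not at hcon
    have h1 := hN 1
    have h2 : ∀ y, (if y ∈ Ab then (1 : ℂ) else 0) * ψ (1 * y) =
        (if y ∈ Ab then (1 : ℂ) else 0) * ψ 1 := by
      intro y
      by_cases hy : y ∈ Ab
      · obtain ⟨a, ha, rfl⟩ := hy
        rw [one_mul]
        have h3 : ψ (QuotientGroup.mk' F.fixingSubgroup a) = ψ 1 := by
          have h4 := hxchar ψ hψ a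
          have h5 := hxchar ψ hψ 1
          change ψ (QuotientGroup.mk a) = ψ (QuotientGroup.mk 1)
          have h6 : (x ψ).2 a = (x ψ).2 1 := by rw [hcon a ha, map_one]
          rw [← h4, ← h5]
          unfold Representation.character
          rw [h6]
        rw [h3]
      · rw [if_neg hy, zero_mul, zero_mul]
    rw [Finset.sum_congr rfl fun y _ => h2 y, ← Finset.sum_mul, mul_eq_zero] at h1
    rcases h1 with h1 | h1
    · rw [Finset.sum_boole, Nat.cast_eq_zero, Finset.card_eq_zero,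
        Finset.filter_eq_empty_iff] at h1
      exact h1 (Finset.mem_univ 1) Ab.one_mem
    · rw [repM_one hψ, Nat.cast_eq_zero] at h1
      have h3 := (repM_spec hψ).1
      have h4 : 0 < (repM ψ).1 := by
        have h5 := dim_pos F.fixingSubgroup (fun _ : Unit => (x ψ).2) (fun _ => hxtriv ψ)
          (k := ()) (infl_irr _ _ (repM_spec hψ).1)
        exact h5
      omega
  -- the multiplicities
  set m : (GK K ⧸ F.fixingSubgroup → ℂ) → ℤ := fun ψ =>
    if hψ : ψ ∈ Pool.Agent.H541R3.ART.Irr (GK K ⧸ F.fixingSubgroup) ∧ isN Ab ψ then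
      (H _ _ (hnew ψ hψ.1 hψ.2)).choose else 0 with hm
  have hmlim : ∀ ψ, ∀ hψ : ψ ∈ Pool.Agent.H541R3.ART.Irr (GK K ⧸ F.fixingSubgroup) ∧ isN Ab ψ,
      Hs l E (fun v => T v * RR (x ψ).2 0 σ v) (m ψ) := by
    intro ψ hψ
    rw [hm]
    simp only
    rw [dif_pos hψ]
    exact (H _ _ (hnew ψ hψ.1 hψ.2)).choose_spec
  have hm0 : ∀ ψ ∈ Pool.Agent.H541R3.ART.Irr (GK K ⧸ F.fixingSubgroup), ¬ isN Ab ψ →
      m ψ = 0 := fun ψ _ hN => dif_neg fun h => hN h.2
  set S := (irrF (GK K ⧸ F.fixingSubgroup)).filter (isN Ab) with hS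
  have hSmem : ∀ ψ ∈ S, ψ ∈ Pool.Agent.H541R3.ART.Irr (GK K ⧸ F.fixingSubgroup) ∧ isN Ab ψ :=
    fun ψ hψ => ⟨mem_irrF.1 (Finset.mem_filter.1 hψ).1, (Finset.mem_filter.1 hψ).2⟩
  have hbound : ∀ g, ‖(theta m : GK K ⧸ F.fixingSubgroup → ℂ) g‖ ≤ 2 * s := by
    intro g
    obtain ⟨u, hu1, hu2⟩ := exists_unit ((theta m : GK K ⧸ F.fixingSubgroup → ℂ) g)
    rw [← hu2]
    set c : (GK K ⧸ F.fixingSubgroup → ℂ) → ℝ := fun ψ => (u * ψ g).re with hc
    have h1 : (u * (theta m : GK K ⧸ F.fixingSubgroup → ℂ) g).re = ∑ ψ ∈ S, c ψ * m ψ := by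
      unfold theta
      rw [Finset.mul_sum, Complex.re_sum, hS, Finset.sum_filter]
      refine Finset.sum_congr rfl fun ψ hψ => ?_
      by_cases hN : isN Ab ψ
      · rw [if_pos hN, hc]
        simp only
        have e2 : u * ((m ψ : ℂ) * ψ g) = ((m ψ : ℝ) : ℂ) * (u * ψ g) := by
          push_cast
          ring
        rw [e2, Complex.re_ofReal_mul]
        ring
      · rw [if_neg hN, hm0 ψ (mem_irrF.1 hψ) hN]
        simp
    rw [h1]
    have h3 : avR F.fixingSubgroup (fun q => ‖comb F.fixingSubgroup S (fun ψ => (x ψ).2)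
        hxtriv c q‖) ≤ 2 := by
      have h4 := comb_new Ab g u hu1
      have e3 : ∀ q, comb F.fixingSubgroup S (fun ψ => (x ψ).2) hxtriv c q =
          ∑ ψ ∈ (irrF (GK K ⧸ F.fixingSubgroup)).filter (isN Ab),
            (((u * ψ g).re : ℝ) : ℂ) * ψ q⁻¹ := by
        intro q
        unfold comb
        refine Finset.sum_congr rfl fun ψ hψ => ?_
        rw [hc]
        congr 1
        obtain ⟨w, rfl⟩ := QuotientGroup.mk_surjective q
        have h5 := hxchar ψ (hSmem ψ hψ).1 w⁻¹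
        exact h5
      unfold avR
      rw [finsum_eq_sum_of_fintype]
      simp only [e3]
      have h0 : (0 : ℝ) < Nat.card (GK K ⧸ F.fixingSubgroup) := by exact_mod_cast Nat.card_pos
      rw [inv_mul_le_iff₀ h0, mul_comm]
      exact h4
    have h5 := mn_comb hs hT hσ h F.fixingSubgroup hUo S (fun ψ => (x ψ).2) hxtriv c
      (y := fun ψ => (m ψ : ℝ)) fun ψ hψ => hmlim ψ (hSmem ψ hψ)
    calc ∑ ψ ∈ S, c ψ * m ψ ≤ s * avR F.fixingSubgroup (fun q => ‖comb F.fixingSubgroup S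
          (fun ψ => (x ψ).2) hxtriv c q‖) := h5
      _ ≤ s * 2 := mul_le_mul_of_nonneg_left h3 hs
      _ = 2 * s := by ring
  have hconst : ∀ g, ∀ a ∈ Ab, (theta m : GK K ⧸ F.fixingSubgroup → ℂ) (g * a) =
      theta m g := by
    rintro g _ ⟨a, ha, rfl⟩
    exact hrig hUn (theta m) (theta_virt m) hbound g a ha
  -- the given representation
  set ψ : GK K ⧸ F.fixingSubgroup → ℂ := (qrep F.fixingSubgroup χ hχ.2.1).character with hψd
  have hψ : ψ ∈ Pool.Agent.H541R3.ART.Irr (GK K ⧸ F.fixingSubgroup) :=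
    ⟨n, qrep F.fixingSubgroup χ hχ.2.1, qrep_irr _ χ hχ.2.1 hχ.1, rfl⟩
  have hN : isN Ab ψ := by
    obtain ⟨a, ha, hane⟩ := hχ.2.2
    intro g
    convert char_sum_zero (qrep F.fixingSubgroup χ hχ.2.1) (qrep_irr _ χ hχ.2.1 hχ.1) Ab
      ⟨QuotientGroup.mk a, ⟨a, ha, rfl⟩, hane⟩ g
  have hz := zero_of_const Ab m hm0 hconst ψ hψ
  have hl := hmlim ψ ⟨hψ, hN⟩
  rw [hz] at hl
  have hRR : ∀ v, T v * RR χ 0 σ v = T v * RR (x ψ).2 0 σ v := by
    intro v
    unfold RR
    rw [hxchar ψ hψ]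
    rfl
  have h9 := hδ.unique hl hRR
  exact_mod_cast h9

/-- sums over lists -/
theorem mn_list (h : Mn l E) {y : MRep (GK K) → HeightOneSpectrum (𝓞 K) → ℝ} :
    ∀ L : List (MRep (GK K)), (∀ x ∈ L, Hs l E (fun v => T v * y x v) 0) →
      Hs l E (fun v => T v * (L.map fun x => y x v).sum) 0 := by
  intro L
  induction L with
  | nil =>
    intro _
    exact h.hsZero.congr (fun v => by simp) rfl
  | cons a L ih =>
    intro hL
    refine (h.hsAdd (hL a List.mem_cons_self) (ih fun x hx =>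
      hL x (List.mem_cons_of_mem _ hx))).congr (fun v => ?_) (by ring)
    rw [List.map_cons, List.sum_cons]
    ring

variable {E' : IntermediateField K (AlgebraicClosure K)} [NumberField E']
  [NumberField ↥(E' ⊓ M)] (hEF : E' ≤ F)

include hM hF hMF hEF in
/-- **The difference of the permutation characters.** -/
theorem mn_has0 (h : Mn l E)
    (H : ∀ (n : ℕ) (χ : Representation ℂ (GK K) (Fin n → ℂ)), IsNew M F χ →
      Hs l E (fun v => T v * RR χ 0 σ v) 0) :
    Hs l E (fun v => T v * ((fixn K E' (σ v) : ℝ) - fixn K ↥(E' ⊓ M) (σ v))) 0 := by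
  classical
  obtain ⟨Ls, hLs, hfix⟩ := exists_listE hM hF hMF hEF
  have h1 := mn_list (T := T) h (y := fun x v => RR x.2 0 σ v) Ls
    (fun x hx => H x.1 x.2 (hLs x hx))
  refine h1.congr (fun v => ?_) rfl
  congr 1
  have e1 : ∀ L' : List (MRep (GK K)), (L'.map fun x => RR x.2 0 σ v).sum =
      ((L'.map fun x : MRep (GK K) => x.2.character (σ v)⁻¹).sum : ℂ).re := by
    intro L'
    induction L' with
    | nil => simp
    | cons x L' ih =>
      rw [List.map_cons, List.sum_cons, ih, List.map_cons, List.sum_cons, Complex.add_re,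
        RR_zero]
  rw [e1, ← hfix, fixn_inv, fixn_inv]
  have e2 : ((fixn K E' (σ v) : ℕ) : ℂ) - ((fixn K ↥(E' ⊓ M) (σ v) : ℕ) : ℂ) =
      (((fixn K E' (σ v) : ℝ) - fixn K ↥(E' ⊓ M) (σ v) : ℝ) : ℂ) := by push_cast; rfl
  rw [e2, Complex.ofReal_re]

end

end Pool.Agent.TH820.LG
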