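import Pool.Agent.TH820.LG.AvDefs
import Pool.Agent.TH820.LG.TowerDefs
import Pool.Agent.TH820.LG.NilDefs
import Pool.Agent.TH820.LG.LayerDefs

/-!
# Tauberian averages over the intermediate fields of a Galois extension: definitions

`X` is a smooth projective variety over a number field `K`, of dimension `d`, and `m` an integer,
`0 ≤ m ≤ d`; `ρ` is the representation on the algebraic classes.
-/

set_option autoImplicit false

namespace Pool.Agent.TH820.LG

open NumberField IsDedekindDomain Filter Topology
open Pool.Agent.W353.SP (IsTrace IsTwistedTrace average)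
open Pool.Agent.W353.TD (rank)
open Pool.Agent.W353.AT (twistRank)
open Pool.Agent.TH526.DS (IsNew)

section
variable {K : Type} [Field K] [NumberField K] {l : ℕ} {V : Type} [AddCommGroup V] [Module ℚ V]

/-- Let `n ≥ n₀`, let `M` be a finite Galois extension of `K` and let `F ⊇ M` be the top of a large tower
over `M` (`IsLargeTower n M F`).  Suppose that for all irreducible representations `χ` of `Gal(F/K)` that
are not trivial on `Gal(F/M)` the averages of the traces on `H^{2m}(X) ⊗ χ` have integral limits.
* All these limits are the ranks: `δ = 0` in `TwistAverage`.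
* For any field `E` with `K ⊆ E ⊆ F` the difference between the values of `average - rank` over `E` and
over `E ∩ M` tends to `0`. -/
def TowerAverages (X : Set (MvPolynomial (Fin l) (𝓞 K))) (d m N : ℕ)
    (ρ : Representation ℚ Gal(AlgebraicClosure K/K) V) (n₀ : ℕ) : Prop :=
  ∀ (n : ℕ) (M F : IntermediateField K (AlgebraicClosure K)) [NumberField M] [NumberField F],
    n₀ ≤ n → IsGalois K M → IsLargeTower n M F →
    (∀ (r : ℕ) (χ : Representation ℂ Gal(AlgebraicClosure K/K) (Fin r → ℂ)), IsNew M F χ →
      ∃ δ : ℤ, TwistAverage X d m N ρ χ δ) →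
    (∀ (r : ℕ) (χ : Representation ℂ Gal(AlgebraicClosure K/K) (Fin r → ℂ)), IsNew M F χ →
      ∀ δ : ℤ, TwistAverage X d m N ρ χ δ → δ = 0) ∧
    ∀ (E : IntermediateField K (AlgebraicClosure K)) [NumberField E] [NumberField ↥(E ⊓ M)],
      E ≤ F → SameAverages X d m N ρ E (E ⊓ M)

/-- Let `F/K` be a nilpotent extension, all primes dividing the order of `G / Z(G)`, `G = Gal(F/K)`, being
larger than `4s²`.  Suppose that for all irreducible representations `χ` of `Gal(F/K)` of dimension `≠ 1`
the averages of the traces on `H^{2m}(X) ⊗ χ` have integral limits.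
* All these limits are the ranks: `δ = 0` in `TwistAverage`.
* Let `E` be any field with `K ⊆ E ⊆ F` and `E₀` its largest subfield that is abelian over `K`.  The
difference between the values of `average - rank` over `E` and over `E₀` tends to `0`. -/
def NilpotentAverages (X : Set (MvPolynomial (Fin l) (𝓞 K))) (d m N : ℕ)
    (ρ : Representation ℚ Gal(AlgebraicClosure K/K) V) (s : ℕ) : Prop :=
  ∀ (F : IntermediateField K (AlgebraicClosure K)) [NumberField F],
    IsNilpotentExtension (4 * s ^ 2) F →
    (∀ (r : ℕ) (χ : Representation ℂ Gal(AlgebraicClosure K/K) (Fin r → ℂ)), IsNonabelian F χ →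
      ∃ δ : ℤ, TwistAverage X d m N ρ χ δ) →
    (∀ (r : ℕ) (χ : Representation ℂ Gal(AlgebraicClosure K/K) (Fin r → ℂ)), IsNonabelian F χ →
      ∀ δ : ℤ, TwistAverage X d m N ρ χ δ → δ = 0) ∧
    ∀ (E₀ E : IntermediateField K (AlgebraicClosure K)) [NumberField E₀] [NumberField E], E ≤ F →
      IsMaxAbelian E₀ E → SameAverages X d m N ρ E E₀

/-- Let `M ⊆ F` be finite Galois extensions of `K` such that `[F : M]` is odd.  Suppose that for all
irreducible representations `χ` of `Gal(F/K)` the averages of the traces on `H^{2m}(X) ⊗ χ` have integral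
limits.  Then there is a Galois extension `C/K` with `M ⊆ C ⊆ F`, cyclic over `M`, with the following
properties.
* The limits for all irreducible representations of `Gal(F/K)` that are not trivial on `Gal(F/C)` are
the ranks: `δ = 0` in `TwistAverage`.
* For any field `E` with `K ⊆ E ⊆ F` the difference between the values of `average - rank` over `E` and
over `E ∩ C` tends to `0`. -/
def OddLayerAverages (X : Set (MvPolynomial (Fin l) (𝓞 K))) (d m N : ℕ)
    (ρ : Representation ℚ Gal(AlgebraicClosure K/K) V) : Prop :=
  ∀ (M F : IntermediateField K (AlgebraicClosure K)) [NumberField M] [NumberField F],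
    IsGalois K M → IsGalois K F → M ≤ F → Odd (Module.finrank K F / Module.finrank K M) →
    (∀ (r : ℕ) (χ : Representation ℂ Gal(AlgebraicClosure K/K) (Fin r → ℂ)), χ.IsIrreducible →
      (∀ u ∈ F.fixingSubgroup, χ u = 1) → ∃ δ : ℤ, TwistAverage X d m N ρ χ δ) →
    ∃ C : IntermediateField K (AlgebraicClosure K), M ≤ C ∧ C ≤ F ∧ IsGalois K C ∧
      IsCyclicLayer M C ∧
      (∀ (r : ℕ) (χ : Representation ℂ Gal(AlgebraicClosure K/K) (Fin r → ℂ)), IsNew C F χ →
        ∀ δ : ℤ, TwistAverage X d m N ρ χ δ → δ = 0) ∧
      ∀ (E : IntermediateField K (AlgebraicClosure K)) [NumberField E] [NumberField ↥(E ⊓ C)],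
        E ≤ F → SameAverages X d m N ρ E (E ⊓ C)

end

end Pool.Agent.TH820.LG
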