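import Mathlib
import Pool.Agent.TH820.LG.TA1
import Pool.Agent.TH820.LG.NP2
import Pool.Agent.TH820.LG.OD9
import Pool.Agent.TH820.LG.TADefs

/-! # Tauberian averages over the intermediate fields of a Galois extension -/

set_option autoImplicit false
set_option linter.unusedSectionVars false

namespace Pool.Agent.TH820.LG

open Complex Filter Topology ComplexConjugate NumberField IsDedekindDomain Polynomial
  Pool.Agent.W401.Cheb Pool.Agent.W540.BE Pool.Agent.W353.L1 Pool.Agent.W353.AT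
open Pool.Agent.W353.NF (act fixn fixn_le)
open Pool.Agent.TH526.DS (IsNew normal_fix fd_of_nf)
open Pool.Agent.W353.TD (ch rank IsPart tF_sub_le)
open Pool.Agent.W353.PV (tF Eig)
open Pool.Agent.W353.SP (Mn Hs Bd bd_RR bd_fixn mnN EN LA_EN EN_F average average_eq trace_tF
  IsTrace IsTwistedTrace)

section
variable {K : Type} [Field K] [NumberField K] {l : ℕ} {X : Set (MvPolynomial (Fin l) (𝓞 K))}
  {d m N : ℕ} {V : Type} [AddCommGroup V] [Module ℚ V] [FiniteDimensional ℚ V]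
  {ρ : Representation ℚ (GK K) V} {σ : HeightOneSpectrum (𝓞 K) → GK K}

/-- The complement of the algebraic part: it differs from the whole cohomology at finitely many
primes. -/
theorem part_fin (hmd : m ≤ d) (hσ : ∀ v, IsFrob v (σ v)) (hpart : IsPart X d m N ρ) :
    {v | ¬ tC ρ X d (2 * m) N (N - Module.finrank ℚ V) σ v =
      tF X d (2 * m) N K v - ch ρ (σ v)⁻¹}.Finite := by
  have hi : 2 * m ≤ 2 * d := by omega
  obtain ⟨hρ, hV⟩ := hpart
  have hgood : ∀ᶠ v in cofinite, tC ρ X d (2 * m) N (N - Module.finrank ℚ V) σ v =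
      tF X d (2 * m) N K v - ch ρ (σ v)⁻¹ := by
    refine hV.mono fun v hv => ?_
    obtain ⟨α, h1, h2⟩ := hv (σ v) (hσ v)
    have h3 := tF_sub_le (ρ := ρ) hi (σ := σ v) h1 h2
    unfold tC
    rw [if_pos h3]
  rwa [Filter.eventually_cofinite] at hgood

/-- from the whole cohomology to the complement -/
theorem to_part (hmd : m ≤ d) (hσ : ∀ v, IsFrob v (σ v)) (hpart : IsPart X d m N ρ)
    {g : HeightOneSpectrum (𝓞 K) → ℝ} {a b : ℝ} (hg : Bd g)
    (ha : Hs atTop (EN K) (fun v => tF X d (2 * m) N K v * g v) a)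
    (hb : Hs atTop (EN K) (fun v => ch ρ (σ v)⁻¹ * g v) b) :
    Hs atTop (EN K) (fun v => tC ρ X d (2 * m) N (N - Module.finrank ℚ V) σ v * g v) (a - b) := by
  have hT : Bd fun v => tC ρ X d (2 * m) N (N - Module.finrank ℚ V) σ v :=
    ⟨_, fun v => abs_tC _ _ _ _ _ _ _ _⟩
  have hψ : Hs atTop (EN K) (fun v => tC ρ X d (2 * m) N (N - Module.finrank ℚ V) σ v * g v +
      ((-1) * (tF X d (2 * m) N K v * g v) + ch ρ (σ v)⁻¹ * g v)) 0 := by
    refine (mnN K).hsFin ((hT.mul hg).add (((Bd.const (-1)).mul ha.1).add hb.1))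
      ((part_fin hmd hσ hpart).subset fun v hv => ?_)
    by_contra hcon
    rw [Set.mem_ofPred_eq, not_not] at hcon
    apply hv
    rw [hcon]
    ring
  have h1 := (mnN K).hsAdd hψ ((mnN K).hsAdd ha ((mnN K).hsMul hb (-1)))
  exact h1.congr (fun v => by ring) (by ring)

/-- from the complement to the whole cohomology -/
theorem of_part (hmd : m ≤ d) (hσ : ∀ v, IsFrob v (σ v)) (hpart : IsPart X d m N ρ)
    {g : HeightOneSpectrum (𝓞 K) → ℝ} {a b : ℝ} (hg : Bd g)
    (ha : Hs atTop (EN K) (fun v =>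
      tC ρ X d (2 * m) N (N - Module.finrank ℚ V) σ v * g v) a)
    (hb : Hs atTop (EN K) (fun v => ch ρ (σ v)⁻¹ * g v) b) :
    Hs atTop (EN K) (fun v => tF X d (2 * m) N K v * g v) (a + b) := by
  have hT : Bd fun v => tF X d (2 * m) N K v := ⟨N, fun v => abs_tr_le _ _ _⟩
  have hψ : Hs atTop (EN K) (fun v => tF X d (2 * m) N K v * g v +
      ((-1) * (tC ρ X d (2 * m) N (N - Module.finrank ℚ V) σ v * g v) +
        (-1) * (ch ρ (σ v)⁻¹ * g v))) 0 := by
    refine (mnN K).hsFin ((hT.mul hg).add (((Bd.const (-1)).mul ha.1).add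
        ((Bd.const (-1)).mul hb.1)))
      ((part_fin hmd hσ hpart).subset fun v hv => ?_)
    by_contra hcon
    rw [Set.mem_ofPred_eq, not_not] at hcon
    apply hv
    rw [hcon]
    ring
  have h1 := (mnN K).hsAdd hψ ((mnN K).hsAdd ha hb)
  exact h1.congr (fun v => by ring) (by ring)

/-- the twisted averages and the mean values -/
theorem twist_EN (hmd : m ≤ d) (hσ : ∀ v, IsFrob v (σ v)) {r : ℕ}
    (χ : Representation ℂ (GK K) (Fin r → ℂ)) (hχ : IsArtin χ)
    {R : Finset (HeightOneSpectrum (𝓞 K))} {b : HeightOneSpectrum (𝓞 K) → ℂ}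
    (hb : IsTwistedTrace X d (2 * m) N χ R b) :
    Tendsto (fun T : ℕ => average m R b T -
      EN K T fun v => tF X d (2 * m) N K v * RR χ 0 σ v) atTop (𝓝 0) := by
  have hi : 2 * m ≤ 2 * d := by omega
  have hφ1 : ∀ v, v ∉ R → (b v).re / (Ideal.absNorm v.asIdeal : ℝ) ^ m =
      tF X d (2 * m) N K v * RR χ 0 σ v := by
    intro v hv
    obtain ⟨α, hα, hbv⟩ := hb v hv
    have hα' : Eig X d (2 * m) v α := hα
    have hq : (1 : ℝ) < (Ideal.absNorm v.asIdeal : ℝ) := Pool.Agent.W353.PV.one_lt_norm v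
    have hq0 : (0 : ℝ) < (Ideal.absNorm v.asIdeal : ℝ) ^ m := by positivity
    rw [hbv (σ v) (hσ v), trace_tF hi hα', Complex.re_ofReal_mul, mul_assoc,
      mul_div_cancel_left₀ _ hq0.ne', RR_zero]
  have hbd : Bd fun v => tF X d (2 * m) N K v * RR χ 0 σ v :=
    Bd.mul (f := fun v => tF X d (2 * m) N K v) (g := fun v => RR χ 0 σ v)
      ⟨N, fun v => abs_tr_le _ _ _⟩ (bd_RR (x := ⟨r, χ⟩) hχ σ)
  have h6 := LA_EN R (φ := fun v => (b v).re / (Ideal.absNorm v.asIdeal : ℝ) ^ m)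
    (ψ := fun v => tF X d (2 * m) N K v * RR χ 0 σ v) hbd hφ1
  refine h6.congr fun T => ?_
  rw [average_eq]

/-- the averages over an extension and the mean values -/
theorem field_EN (hmd : m ≤ d) (hσ : ∀ v, IsFrob v (σ v))
    (E : IntermediateField K (AlgebraicClosure K)) [NumberField E]
    {R : Finset (HeightOneSpectrum (𝓞 E))} {b : HeightOneSpectrum (𝓞 E) → ℂ}
    (hb : IsTrace X d (2 * m) N R b) :
    Tendsto (fun T : ℕ => average m R b T -
      EN K T fun v => tF X d (2 * m) N K v * fixn K E (σ v)) atTop (𝓝 0) := by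
  have hi : 2 * m ≤ 2 * d := by omega
  have hφ1 : ∀ v, v ∉ R → (b v).re / (Ideal.absNorm v.asIdeal : ℝ) ^ m =
      tF X d (2 * m) N E v := by
    intro v hv
    obtain ⟨α, hα, hbv⟩ := hb v hv
    have hα' : Eig X d (2 * m) v α := hα
    have hq : (1 : ℝ) < (Ideal.absNorm v.asIdeal : ℝ) := Pool.Agent.W353.PV.one_lt_norm v
    have hq0 : (0 : ℝ) < (Ideal.absNorm v.asIdeal : ℝ) ^ m := by positivity
    rw [hbv, trace_tF hi hα', Complex.ofReal_re, mul_div_cancel_left₀ _ hq0.ne']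
  have h6 := LA_EN R (φ := fun v => (b v).re / (Ideal.absNorm v.asIdeal : ℝ) ^ m)
    (ψ := fun v => tF X d (2 * m) N E v) ⟨N, fun v => abs_tr_le _ _ _⟩ hφ1
  have h7 := EN_F (K := K) (F := E) (X := X) (d := d) (i := 2 * m) (N := N) σ hσ
  have h9 := h6.add h7
  rw [add_zero] at h9
  refine h9.congr fun T => ?_
  rw [average_eq]
  ring

/-- **The limits of the twisted averages as mean values.** -/
theorem hs_of_average (hmd : m ≤ d) (hσ : ∀ v, IsFrob v (σ v)) (hpart : IsPart X d m N ρ) {r : ℕ}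
    (χ : Representation ℂ (GK K) (Fin r → ℂ)) (hχ : IsArtin χ) {δ : ℤ}
    (h : TwistAverage X d m N ρ χ δ) :
    Hs atTop (EN K) (fun v => tC ρ X d (2 * m) N (N - Module.finrank ℚ V) σ v * RR χ 0 σ v)
      ((-δ : ℤ) : ℝ) := by
  obtain ⟨R, b, hb, hlim⟩ := h
  have h1 := twist_EN hmd hσ χ hχ hb
  have h2 := hlim.sub h1
  rw [sub_zero] at h2
  have hbd : Bd fun v => tF X d (2 * m) N K v * RR χ 0 σ v :=
    Bd.mul (f := fun v => tF X d (2 * m) N K v) (g := fun v => RR χ 0 σ v)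
      ⟨N, fun v => abs_tr_le _ _ _⟩ (bd_RR (x := ⟨r, χ⟩) hχ σ)
  have h3 : Hs atTop (EN K) (fun v => tF X d (2 * m) N K v * RR χ 0 σ v)
      ((twistRank ρ χ : ℝ) - δ) := ⟨hbd, h2.congr fun T => by ring⟩
  have h4 := (mnN K).twMean ρ hpart.1 ⟨r, χ⟩ hχ σ hσ
  refine (to_part hmd hσ hpart (bd_RR (x := ⟨r, χ⟩) hχ σ) h3 h4).congr (fun v => rfl) ?_
  push_cast
  ring

/-- **The averages over the intermediate fields.** -/
theorem same_averages (hmd : m ≤ d) (hσ : ∀ v, IsFrob v (σ v)) (hpart : IsPart X d m N ρ)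
    (E E' : IntermediateField K (AlgebraicClosure K)) [NumberField E] [NumberField E']
    (h : Hs atTop (EN K) (fun v => tC ρ X d (2 * m) N (N - Module.finrank ℚ V) σ v *
      ((fixn K E (σ v) : ℝ) - fixn K E' (σ v))) 0) :
    SameAverages X d m N ρ E E' := by
  intro R b R' b' hb hb'
  have hr : ∀ (E : IntermediateField K (AlgebraicClosure K)) [NumberField E],
      Hs atTop (EN K) (fun v => ch ρ (σ v)⁻¹ * fixn K E (σ v)) (rank ρ E) := by
    intro E _
    have h6 := (mnN K).fixMean ρ hpart.1 E.val σ hσ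
    have hr : rank ρ E = Module.finrank ℚ (W353.TD.inv ρ E.val.fieldRange.fixingSubgroup) := by
      rw [W353.TD.inv_eq, IntermediateField.fieldRange_val]
      rfl
    rw [hr]
    exact h6
  have h1 : Hs atTop (EN K) (fun v => ch ρ (σ v)⁻¹ *
      ((fixn K E (σ v) : ℝ) - fixn K E' (σ v))) ((rank ρ E : ℝ) - rank ρ E') :=
    ((mnN K).hsAdd (hr E) ((mnN K).hsMul (hr E') (-1))).congr (fun v => by ring) (by ring)
  have hbd : Bd fun v => ((fixn K E (σ v) : ℝ) - fixn K E' (σ v)) := by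
    have h2 : Bd fun v => ((fixn K E (σ v) : ℝ) + -(fixn K E' (σ v) : ℝ)) :=
      Bd.add (bd_fixn σ) (Bd.neg (bd_fixn σ))
    obtain ⟨B, hB⟩ := h2
    refine ⟨B, fun v => ?_⟩
    change |(fixn K E (σ v) : ℝ) - fixn K E' (σ v)| ≤ B
    rw [sub_eq_add_neg]
    exact hB v
  have h2 := (of_part hmd hσ hpart hbd h h1).2
  have h3 := ((field_EN hmd hσ E hb).sub (field_EN hmd hσ E' hb')).add h2
  have h4 : Tendsto (fun T : ℕ => (average m R b T - EN K T fun v =>
      tF X d (2 * m) N K v * fixn K E (σ v)) - (average m R' b' T - EN K T fun v =>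
      tF X d (2 * m) N K v * fixn K E' (σ v)) + (EN K T fun v => tF X d (2 * m) N K v *
      ((fixn K E (σ v) : ℝ) - fixn K E' (σ v))) - ((rank ρ E : ℝ) - rank ρ E')) atTop (𝓝 0) := by
    have h5 := h3.sub_const ((rank ρ E : ℝ) - rank ρ E')
    simpa using h5
  refine h4.congr fun T => ?_
  have h5 : (EN K T fun v => tF X d (2 * m) N K v *
      ((fixn K E (σ v) : ℝ) - fixn K E' (σ v))) =
      (EN K T fun v => tF X d (2 * m) N K v * fixn K E (σ v)) -
        EN K T fun v => tF X d (2 * m) N K v * fixn K E' (σ v) := by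
    unfold EN
    rw [← sub_div, ← Finset.sum_sub_distrib]
    congr 1
    exact Finset.sum_congr rfl fun v _ => by ring
  rw [h5]
  ring

end

end Pool.Agent.TH820.LG
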