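import Mathlib
import Pool.Agent.TH820.LG.TA2

/-! # Tauberian averages: towers and nilpotent extensions -/

set_option autoImplicit false
set_option linter.unusedSectionVars false

namespace Pool.Agent.TH820.LG

open Complex Filter Topology ComplexConjugate NumberField IsDedekindDomain Polynomial
  Pool.Agent.W401.Cheb Pool.Agent.W540.BE Pool.Agent.W353.L1 Pool.Agent.W353.AT
open Pool.Agent.W353.NF (act fixn fixn_le)
open Pool.Agent.TH526.DS (IsNew normal_fix fd_of_nf)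
open Pool.Agent.W353.TD (ch rank IsPart)
open Pool.Agent.W353.PV (tF)
open Pool.Agent.W353.SP (Mn Hs Bd mnN EN)

section
variable {K : Type} [Field K] [NumberField K] {l : ℕ} {X : Set (MvPolynomial (Fin l) (𝓞 K))}
  {d m N : ℕ} {V : Type} [AddCommGroup V] [Module ℚ V] [FiniteDimensional ℚ V]
  {ρ : Representation ℚ (GK K) V}

/-- **The averages over a rigid pair.** -/
theorem rigid_averages {M F : IntermediateField K (AlgebraicClosure K)} [NumberField M]
    [NumberField F] (hmd : m ≤ d) (hpart : IsPart X d m N ρ) (hM : IsGalois K M)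
    (hF : IsGalois K F) (hMF : M ≤ F)
    (hrig : RigidPair (2 * ((N - Module.finrank ℚ V : ℕ) : ℝ)) M F)
    (H : ∀ (r : ℕ) (χ : Representation ℂ (GK K) (Fin r → ℂ)), IsNew M F χ →
      ∃ δ : ℤ, TwistAverage X d m N ρ χ δ) :
    (∀ (r : ℕ) (χ : Representation ℂ (GK K) (Fin r → ℂ)), IsNew M F χ →
      ∀ δ : ℤ, TwistAverage X d m N ρ χ δ → δ = 0) ∧
    ∀ (E : IntermediateField K (AlgebraicClosure K)) [NumberField E] [NumberField ↥(E ⊓ M)],
      E ≤ F → SameAverages X d m N ρ E (E ⊓ M) := by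
  choose σ hσ using exists_isFrob (F := K)
  have hTs : ∀ v, |tC ρ X d (2 * m) N (N - Module.finrank ℚ V) σ v| ≤
      ((N - Module.finrank ℚ V : ℕ) : ℝ) := fun v => abs_tC _ _ _ _ _ _ _ _
  have hs0 : (0 : ℝ) ≤ ((N - Module.finrank ℚ V : ℕ) : ℝ) := Nat.cast_nonneg _
  have hart : ∀ {r : ℕ} (χ : Representation ℂ (GK K) (Fin r → ℂ)), IsNew M F χ → IsArtin χ :=
    fun χ hχ => ⟨F.fixingSubgroup, (normal_fix F hF).1, hχ.2.1⟩
  have H' : ∀ (r : ℕ) (χ : Representation ℂ (GK K) (Fin r → ℂ)), IsNew M F χ →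
      ∃ δ : ℤ, Hs atTop (EN K) (fun v =>
        tC ρ X d (2 * m) N (N - Module.finrank ℚ V) σ v * RR χ 0 σ v) δ := by
    intro r χ hχ
    obtain ⟨δ, hδ⟩ := H r χ hχ
    exact ⟨-δ, hs_of_average hmd hσ hpart χ (hart χ hχ) hδ⟩
  have hzero : ∀ (r : ℕ) (χ : Representation ℂ (GK K) (Fin r → ℂ)), IsNew M F χ →
      ∀ δ : ℤ, TwistAverage X d m N ρ χ δ → δ = 0 := by
    intro r χ hχ δ hδ
    have h1 := hs_of_average hmd hσ hpart χ (hart χ hχ) hδ
    have h2 := mn_zero hs0 hTs hσ hM hF hMF (mnN K) hrig H' χ hχ h1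
    omega
  refine ⟨hzero, fun E _ _ hEF => same_averages hmd hσ hpart E (E ⊓ M) ?_⟩
  refine mn_has0 hM hF hMF hEF (mnN K) fun r χ hχ => ?_
  obtain ⟨δ, hδ⟩ := H r χ hχ
  have h1 := hs_of_average hmd hσ hpart χ (hart χ hχ) hδ
  rw [hzero r χ hχ δ hδ, neg_zero, Int.cast_zero] at h1
  exact h1

end

/-- **Large towers.** -/
theorem towerAverages (s : ℕ) : ∃ n₀ : ℕ, ∀ (K : Type) [Field K] [NumberField K] (l d m N : ℕ)
    (X : Set (MvPolynomial (Fin l) (𝓞 K))) (V : Type) [AddCommGroup V] [Module ℚ V]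
    [FiniteDimensional ℚ V] (ρ : Representation ℚ (GK K) V), m ≤ d → IsPart X d m N ρ →
    N ≤ Module.finrank ℚ V + s → TowerAverages X d m N ρ n₀ := by
  obtain ⟨n₀, hn₀⟩ := tower_rigid (2 * s)
  refine ⟨n₀, ?_⟩
  intro K _ _ l d m N X V _ _ _ ρ hmd hpart hNs n M F _ _ hn hM htower H
  obtain ⟨hMF, hF, hrig⟩ := hn₀ K n M F hn hM htower
  refine rigid_averages hmd hpart hM hF hMF (hrig.mono ?_) H
  have h1 : ((N - Module.finrank ℚ V : ℕ) : ℝ) ≤ s := by
    exact_mod_cast (by omega : N - Module.finrank ℚ V ≤ s)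
  linarith

section
variable {K : Type} [Field K] [NumberField K]

/-- **Nilpotent extensions.** -/
theorem nilpotentAverages {l : ℕ} (d m N s : ℕ) (X : Set (MvPolynomial (Fin l) (𝓞 K)))
    {V : Type} [AddCommGroup V] [Module ℚ V] [FiniteDimensional ℚ V]
    (ρ : Representation ℚ (GK K) V) (hmd : m ≤ d) (hpart : IsPart X d m N ρ)
    (hNs : N ≤ Module.finrank ℚ V + s) : NilpotentAverages X d m N ρ s := by
  rintro F _ hF H
  obtain ⟨M, hMnf, hMab, hMF, hrig⟩ := nil_rigid F hF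
  have hM : IsGalois K M := hMab.toIsGalois
  have hrig1 : RigidPair 1 M F := by
    have h1 := hrig 1 (by simp)
    rwa [Nat.cast_one] at h1
  have hrigN : RigidPair (2 * s) M F := by
    have h1 := hrig (2 * s) (by rw [mul_pow]; exact le_max_left _ _)
    rwa [Nat.cast_mul, Nat.cast_ofNat] at h1
  obtain ⟨hiff, hmax⟩ := abelian_bottom hMab hF.1 hMF hrig1
  have h1 : ((N - Module.finrank ℚ V : ℕ) : ℝ) ≤ s := by
    exact_mod_cast (by omega : N - Module.finrank ℚ V ≤ s)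
  have hmain := rigid_averages hmd hpart hM hF.1 hMF (hrigN.mono (by linarith))
    (fun r χ hχ => H r χ ((hiff r χ).2 hχ))
  refine ⟨fun r χ hχ δ hδ => hmain.1 r χ ((hiff r χ).1 hχ) δ hδ, ?_⟩
  intro E₀ E _ _ hEF hE₀
  have he := hmax E₀ E hEF hE₀
  subst he
  exact hmain.2 E hEF

end

end Pool.Agent.TH820.LG
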