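import Mathlib
import Pool.Agent.TH820.LG.TA3

/-! # Tauberian averages: layers of odd degree -/

set_option autoImplicit false
set_option linter.unusedSectionVars false

namespace Pool.Agent.TH820.LG

open Complex Filter Topology ComplexConjugate NumberField IsDedekindDomain Polynomial
  Pool.Agent.W401.Cheb Pool.Agent.W540.BE Pool.Agent.W353.L1 Pool.Agent.W353.AT
open Pool.Agent.W353.NF (act fixn fixn_le)
open Pool.Agent.TH526.DS (IsNew normal_fix exists_unit fd_of_nf)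
open Pool.Agent.H541R3.ART (theta irrF mem_irrF theta_pair pair_zero)
open Pool.Agent.W446.AS (Virt theta_virt)
open Pool.Agent.W353.TD (ch rank IsPart)
open Pool.Agent.W353.PV (tF)
open Pool.Agent.W353.SP (Mn Hs Bd mnN EN)

section
variable {K : Type} [Field K] [NumberField K] {ι : Type} {l : Filter ι} [l.NeBot]
  {E : ι → (HeightOneSpectrum (𝓞 K) → ℝ) → ℝ} (hE : Mn l E)

variable {T : HeightOneSpectrum (𝓞 K) → ℝ} {s : ℝ} (hs : 0 ≤ s) (hT : ∀ v, |T v| ≤ s)
  {σ : HeightOneSpectrum (𝓞 K) → GK K} (hσ : ∀ v, IsFrob v (σ v))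
  {U : Subgroup (GK K)} [U.Normal] (hUo : IsOpen (U : Set (GK K)))

include hE hs hT hσ hUo in
/-- **The virtual character of the mean values.** -/
theorem mn_data [Finite (GK K ⧸ U)]
    (H : ∀ (n : ℕ) (χ : Representation ℂ (GK K) (Fin n → ℂ)), χ.IsIrreducible →
      (∀ u ∈ U, χ u = 1) → ∃ δ : ℤ, Hs l E (fun v => T v * RR χ 0 σ v) δ) :
    ∃ m : (GK K ⧸ U → ℂ) → ℤ,
      (∀ ψ ∈ Pool.Agent.H541R3.ART.Irr (GK K ⧸ U), (fun g => ψ g⁻¹) ∈
        Pool.Agent.H541R3.ART.Irr (GK K ⧸ U) → m (fun g => ψ g⁻¹) = m ψ) ∧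
      (∀ g, ‖(theta m : GK K ⧸ U → ℂ) g‖ ≤ s) ∧
      ∀ (n : ℕ) (χ : Representation ℂ (GK K) (Fin n → ℂ)) (_ : χ.IsIrreducible)
        (h : ∀ u ∈ U, χ u = 1) (δ : ℝ), Hs l E (fun v => T v * RR χ 0 σ v) δ →
        δ = m (qrep U χ h).character := by
  classical
  let _ : Fintype (GK K ⧸ U) := Fintype.ofFinite _
  set x : (GK K ⧸ U → ℂ) → MRep (GK K) := fun ψ => infl U (repM ψ) with hx
  have hxtriv : ∀ ψ, ∀ u ∈ U, (x ψ).2 u = 1 := fun ψ u hu => infl_triv _ _ u hu
  have hxchar : ∀ ψ ∈ Pool.Agent.H541R3.ART.Irr (GK K ⧸ U), ∀ g,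
      (x ψ).2.character g = ψ (QuotientGroup.mk g) := by
    intro ψ hψ g
    have h1 : (x ψ).2.character g = (repM ψ).2.character (QuotientGroup.mk g) :=
      infl_char U (repM ψ) g
    rw [h1]
    exact (congrFun (repM_spec hψ).2 (QuotientGroup.mk g)).symm
  have hxirr : ∀ ψ ∈ Pool.Agent.H541R3.ART.Irr (GK K ⧸ U), (x ψ).2.IsIrreducible :=
    fun ψ hψ => infl_irr _ _ (repM_spec hψ).1
  set m : (GK K ⧸ U → ℂ) → ℤ := fun ψ =>
    if hψ : ψ ∈ Pool.Agent.H541R3.ART.Irr (GK K ⧸ U) then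
      (H _ _ (hxirr ψ hψ) (hxtriv ψ)).choose else 0 with hm
  have hmlim : ∀ ψ ∈ Pool.Agent.H541R3.ART.Irr (GK K ⧸ U),
      Hs l E (fun v => T v * RR (x ψ).2 0 σ v) (m ψ) := by
    intro ψ hψ
    rw [hm]
    simp only
    rw [dif_pos hψ]
    exact (H _ _ (hxirr ψ hψ) (hxtriv ψ)).choose_spec
  have hRR : ∀ ψ ∈ Pool.Agent.H541R3.ART.Irr (GK K ⧸ U), ∀ v,
      RR (x ψ).2 0 σ v = (ψ (QuotientGroup.mk (σ v))⁻¹).re := by
    intro ψ hψ v
    rw [RR_zero, hxchar ψ hψ]
    rfl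
  refine ⟨m, ?_, ?_, ?_⟩
  · intro ψ hψ hψ'
    have h1 := hmlim ψ hψ
    have h2 := hmlim _ hψ'
    have h3 : ∀ v, T v * RR (x fun g => ψ g⁻¹).2 0 σ v = T v * RR (x ψ).2 0 σ v := by
      intro v
      rw [hRR ψ hψ, hRR _ hψ', inv_conj (AddSubgroup.subset_closure hψ), Complex.conj_re]
    have h4 := h2.unique h1 h3
    exact_mod_cast h4
  · intro g
    obtain ⟨u, hu1, hu2⟩ := exists_unit ((theta m : GK K ⧸ U → ℂ) g)
    rw [← hu2]
    set c : (GK K ⧸ U → ℂ) → ℝ := fun ψ => (u * ψ g).re with hc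
    have h1 : (u * (theta m : GK K ⧸ U → ℂ) g).re = ∑ ψ ∈ irrF (GK K ⧸ U), c ψ * m ψ := by
      unfold theta
      rw [Finset.mul_sum, Complex.re_sum]
      refine Finset.sum_congr rfl fun ψ hψ => ?_
      rw [hc]
      simp only
      have e2 : u * ((m ψ : ℂ) * ψ g) = ((m ψ : ℝ) : ℂ) * (u * ψ g) := by
        push_cast
        ring
      rw [e2, Complex.re_ofReal_mul]
      ring
    rw [h1]
    have h3 : avR U (fun q => ‖comb U (irrF (GK K ⧸ U)) (fun ψ => (x ψ).2)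
        hxtriv c q‖) ≤ 1 := by
      have h4 := comb_irr g u hu1
      have e3 : ∀ q, comb U (irrF (GK K ⧸ U)) (fun ψ => (x ψ).2) hxtriv c q =
          ∑ ψ ∈ irrF (GK K ⧸ U), (((u * ψ g).re : ℝ) : ℂ) * ψ q⁻¹ := by
        intro q
        unfold comb
        refine Finset.sum_congr rfl fun ψ hψ => ?_
        rw [hc]
        congr 1
        obtain ⟨w, rfl⟩ := QuotientGroup.mk_surjective q
        have h5 := hxchar ψ (mem_irrF.1 hψ) w⁻¹
        exact h5
      unfold avR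
      rw [finsum_eq_sum_of_fintype]
      simp only [e3]
      have h0 : (0 : ℝ) < Nat.card (GK K ⧸ U) := by exact_mod_cast Nat.card_pos
      rw [inv_mul_le_iff₀ h0, mul_one]
      exact h4
    exact (mn_comb hs hT hσ hE U hUo (irrF (GK K ⧸ U)) (fun ψ => (x ψ).2) hxtriv c
      (y := fun ψ => (m ψ : ℝ)) fun ψ hψ => hmlim ψ (mem_irrF.1 hψ)).trans
      (mul_le_of_le_one_right hs h3)
  · intro n χ hirr h δ hδ
    set ψ : GK K ⧸ U → ℂ := (qrep U χ h).character with hψd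
    have hψ : ψ ∈ Pool.Agent.H541R3.ART.Irr (GK K ⧸ U) := ⟨n, qrep U χ h, qrep_irr _ χ h hirr, rfl⟩
    have hl := hmlim ψ hψ
    have hRR' : ∀ v, T v * RR χ 0 σ v = T v * RR (x ψ).2 0 σ v := by
      intro v
      unfold RR
      rw [hxchar ψ hψ]
      rfl
    exact hδ.unique hl hRR'

end

section
variable {K : Type} [Field K] [NumberField K] {ι : Type} {l : Filter ι} [l.NeBot]
  {E : ι → (HeightOneSpectrum (𝓞 K) → ℝ) → ℝ} (hE : Mn l E)

variable {T : HeightOneSpectrum (𝓞 K) → ℝ} (hT : ∀ v, |T v| ≤ 2)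
  {σ : HeightOneSpectrum (𝓞 K) → GK K} (hσ : ∀ v, IsFrob v (σ v))
  {M F : IntermediateField K (AlgebraicClosure K)} [NumberField M] [NumberField F]
  (hM : IsGalois K M) (hF : IsGalois K F) (hMF : M ≤ F)

include hE hT hσ hM hF hMF in
/-- **Layers of odd order.** -/
theorem layer_mn (hodd : Odd (Module.finrank K F / Module.finrank K M))
    (H : ∀ (n : ℕ) (χ : Representation ℂ (GK K) (Fin n → ℂ)), χ.IsIrreducible →
      (∀ u ∈ F.fixingSubgroup, χ u = 1) → ∃ δ : ℤ, Hs l E (fun v => T v * RR χ 0 σ v) δ) :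
    ∃ C : IntermediateField K (AlgebraicClosure K), M ≤ C ∧ C ≤ F ∧ IsGalois K C ∧
      (∃ μ : M.fixingSubgroup →* ℂˣ, ∀ g, μ g = 1 ↔ (g : GK K) ∈ C.fixingSubgroup) ∧
      ∀ (n : ℕ) (χ : Representation ℂ (GK K) (Fin n → ℂ)), IsNew C F χ →
        Hs l E (fun v => T v * RR χ 0 σ v) 0 := by
  classical
  obtain ⟨hUo, hUn⟩ := normal_fix F hF
  obtain ⟨hAo, hAn⟩ := normal_fix M hM
  have hcF := card_fix F hF
  have hcM := card_fix M hM
  have hUA : F.fixingSubgroup ≤ M.fixingSubgroup := IntermediateField.fixingSubgroup_le hMF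
  have hfin : Finite (GK K ⧸ F.fixingSubgroup) := Subgroup.quotient_finite_of_isOpen _ hUo
  let _ : Fintype (GK K ⧸ F.fixingSubgroup) := Fintype.ofFinite _
  set π : GK K →* GK K ⧸ F.fixingSubgroup := QuotientGroup.mk' F.fixingSubgroup with hπ
  have hπs : Function.Surjective π := QuotientGroup.mk'_surjective _
  have hπ1 : ∀ g, π g = 1 ↔ g ∈ F.fixingSubgroup := fun g => QuotientGroup.eq_one_iff g
  set O : Subgroup (GK K ⧸ F.fixingSubgroup) := M.fixingSubgroup.map π with hOd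
  have hOn : O.Normal := hAn.map _ hπs
  have hOodd : Odd (Nat.card O) := by
    have h1 : Nat.card ((GK K ⧸ F.fixingSubgroup) ⧸ O) = Nat.card (GK K ⧸ M.fixingSubgroup) :=
      Nat.card_congr
        (QuotientGroup.quotientQuotientEquivQuotient F.fixingSubgroup M.fixingSubgroup hUA).toEquiv
    have h2 := Subgroup.card_eq_card_quotient_mul_card_subgroup O
    rw [h1, hcM, hcF] at h2
    have h3 : 0 < Module.finrank K M := by
      rw [← hcM]
      have : Finite (GK K ⧸ M.fixingSubgroup) := Subgroup.quotient_finite_of_isOpen _ hAo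
      exact Nat.card_pos
    rwa [h2, Nat.mul_div_cancel_left _ h3] at hodd
  obtain ⟨m, hm1, hm2, hm3⟩ := mn_data hE (by norm_num : (0 : ℝ) ≤ 2) hT hσ hUo H
  have hreal := theta_real m fun χ hχ => hm1 χ hχ (inv_irr hχ)
  obtain ⟨N, μ, hNn, hNO, hμ, hinv⟩ := layer_group O hOodd (theta_virt m) hreal hm2
  -- the field
  set S : Subgroup (GK K) := N.comap π with hS
  have hSn : S.Normal := hNn.comap π
  have hUS : F.fixingSubgroup ≤ S := fun u hu => by
    rw [hS, Subgroup.mem_comap, (hπ1 u).2 hu]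
    exact N.one_mem
  have hSA : S ≤ M.fixingSubgroup := by
    intro g hg
    have h1 : π g ∈ O := hNO hg
    obtain ⟨a, ha, hag⟩ := h1
    have h2 : a⁻¹ * g ∈ F.fixingSubgroup := (hπ1 _).1 (by rw [map_mul, map_inv, hag]; group)
    have h3 := M.fixingSubgroup.mul_mem ha (hUA h2)
    rwa [mul_inv_cancel_left] at h3
  have hSo : IsOpen (S : Set (GK K)) := Subgroup.isOpen_mono hUS hUo
  let C' : ClosedSubgroup (GK K) := ⟨S, Subgroup.isClosed_of_isOpen _ hSo⟩
  set C : IntermediateField K (AlgebraicClosure K) := IntermediateField.fixedField C'.1 with hC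
  have h1 : C.fixingSubgroup = S := InfiniteGalois.fixingSubgroup_fixedField C'
  refine ⟨C, ?_, ?_, ?_, ?_, ?_⟩
  · have h3 := IntermediateField.fixedField_le (F := K) (E := AlgebraicClosure K)
      (H1 := S) (H2 := M.fixingSubgroup) hSA
    rwa [InfiniteGalois.fixedField_fixingSubgroup] at h3
  · have h3 := IntermediateField.fixedField_le (F := K) (E := AlgebraicClosure K)
      (H1 := F.fixingSubgroup) (H2 := S) hUS
    rwa [InfiniteGalois.fixedField_fixingSubgroup] at h3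
  · rw [← InfiniteGalois.normal_iff_isGalois, h1]
    exact hSn
  · have hmem : ∀ g : M.fixingSubgroup, π g ∈ O := fun g => ⟨g, g.2, rfl⟩
    refine ⟨μ.comp ((π.comp M.fixingSubgroup.subtype).codRestrict O hmem), fun g => ?_⟩
    rw [h1]
    exact hμ _
  · intro n χ hχ
    obtain ⟨hirr, htriv, a, ha, hane⟩ := hχ
    obtain ⟨δ, hδ⟩ := H n χ hirr htriv
    have h2 := hm3 n χ hirr htriv δ hδ
    set φ : GK K ⧸ F.fixingSubgroup → ℂ := (qrep F.fixingSubgroup χ htriv).character with hφ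
    have hφI : φ ∈ Pool.Agent.H541R3.ART.Irr (GK K ⧸ F.fixingSubgroup) :=
      ⟨n, qrep F.fixingSubgroup χ htriv, qrep_irr _ χ htriv hirr, rfl⟩
    have h3 : isN N φ := by
      intro g
      refine Pool.Agent.TH526.DS.char_sum_zero _ (qrep_irr _ χ htriv hirr) N
        ⟨π a, ?_, fun h => hane h⟩ g
      rw [h1] at ha
      exact ha
    obtain ⟨x, hxN, hx⟩ : ∃ x ∈ N, φ x ≠ φ 1 := by
      by_contra hcon
      push Not at hcon
      exact not_isN N hφI hcon h3
    have h4 := pair_zero hφI N (fun n hn g => hinv n hn g) hxN hx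
    rw [theta_pair m hφI] at h4
    have h5 : m φ = 0 := by
      rcases mul_eq_zero.1 h4 with h | h
      · exact_mod_cast h
      · exact absurd h (by exact_mod_cast Nat.card_pos.ne')
    rw [h2, h5, Int.cast_zero] at hδ
    exact hδ

end

section
variable {K : Type} [Field K] [NumberField K] {l : ℕ} {X : Set (MvPolynomial (Fin l) (𝓞 K))}
  {d m N : ℕ} {V : Type} [AddCommGroup V] [Module ℚ V] [FiniteDimensional ℚ V]
  {ρ : Representation ℚ (GK K) V}

/-- **The averages over layers of odd degree.** -/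
theorem oddLayerAverages (hmd : m ≤ d) (hpart : IsPart X d m N ρ)
    (hN : N ≤ Module.finrank ℚ V + 2) : OddLayerAverages X d m N ρ := by
  classical
  intro M F _ _ hM hF hMF hodd H
  choose σ hσ using exists_isFrob (F := K)
  have hs2 : ((N - Module.finrank ℚ V : ℕ) : ℝ) ≤ 2 := by
    exact_mod_cast (by omega : N - Module.finrank ℚ V ≤ 2)
  have hT : ∀ v, |tC ρ X d (2 * m) N (N - Module.finrank ℚ V) σ v| ≤ (2 : ℝ) :=
    fun v => (abs_tC _ _ _ _ _ _ _ _).trans hs2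
  have hart : ∀ {r : ℕ} (χ : Representation ℂ (GK K) (Fin r → ℂ)),
      (∀ u ∈ F.fixingSubgroup, χ u = 1) → IsArtin χ :=
    fun χ hχ => ⟨F.fixingSubgroup, (normal_fix F hF).1, hχ⟩
  have H' : ∀ (r : ℕ) (χ : Representation ℂ (GK K) (Fin r → ℂ)), χ.IsIrreducible →
      (∀ u ∈ F.fixingSubgroup, χ u = 1) → ∃ δ : ℤ, Hs atTop (EN K) (fun v =>
        tC ρ X d (2 * m) N (N - Module.finrank ℚ V) σ v * RR χ 0 σ v) δ := by
    intro r χ hirr hχ
    obtain ⟨δ, hδ⟩ := H r χ hirr hχ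
    exact ⟨-δ, hs_of_average hmd hσ hpart χ (hart χ hχ) hδ⟩
  obtain ⟨C, hMC, hCF, hC, hcyc, hnew⟩ := layer_mn (mnN K) hT hσ hM hF hMF hodd H'
  have hFfd : FiniteDimensional K F := fd_of_nf F
  have hCfd : FiniteDimensional K C :=
    FiniteDimensional.of_injective (IntermediateField.inclusion hCF).toLinearMap
      (IntermediateField.inclusion hCF).injective
  have hCnf : NumberField C := NumberField.of_module_finite K C
  refine ⟨C, hMC, hCF, hC, hcyc, fun r χ hχ δ hδ => ?_, fun E _ _ hEF =>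
    same_averages hmd hσ hpart E (E ⊓ C) (mn_has0 hC hF hCF hEF (mnN K) hnew)⟩
  have h1 := hnew r χ hχ
  have h2 := hs_of_average hmd hσ hpart χ (hart χ hχ.2.1) hδ
  have h3 := h1.unique h2 fun _ => rfl
  have h4 : (0 : ℤ) = -δ := by exact_mod_cast h3
  omega

end

end Pool.Agent.TH820.LG
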