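import Mathlib
import Pool.Agent.TH820.LG.NP2
import Pool.Agent.TH820.LG.NilTowerDefs

/-! # Large towers over nilpotent extensions are rigid over the largest abelian subextension -/

set_option autoImplicit false
set_option linter.unusedSectionVars false

namespace Pool.Agent.TH820.LG

open Complex Filter Topology ComplexConjugate NumberField IsDedekindDomain Polynomial
  Pool.Agent.W401.Cheb Pool.Agent.W540.BE Pool.Agent.W353.L1 Pool.Agent.W353.AT
open Pool.Agent.TH526.DS (IsNew normal_fix)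

/-- **Large towers over nilpotent extensions.** -/
theorem nilTower_rigid (s : ℕ) : ∃ n₀ : ℕ, ∀ (K : Type) [Field K] [NumberField K] (n : ℕ)
    (F : IntermediateField K (AlgebraicClosure K)) [NumberField F], n₀ ≤ n →
    IsNilpotentTower n (4 * s ^ 2) F →
    IsGalois K F ∧ ∃ (M : IntermediateField K (AlgebraicClosure K)) (_ : NumberField M),
      IsAbelianGalois K M ∧ M ≤ F ∧ RigidPair (2 * s) M F ∧ RigidPair 1 M F := by
  obtain ⟨n₁, hn₁⟩ := tower_rigid (2 * s)
  obtain ⟨n₂, hn₂⟩ := tower_rigid 1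
  refine ⟨max n₁ n₂, ?_⟩
  rintro K _ _ n F _ hn ⟨F₀, hfd, hnil, htower⟩
  have hF₀nf : NumberField F₀ := NumberField.of_module_finite K _
  obtain ⟨M, hMnf, hMab, hMF₀, hrig⟩ := nil_rigid F₀ hnil
  obtain ⟨hle, hF, h1⟩ := hn₁ K n F₀ F ((le_max_left _ _).trans hn) hnil.1 htower
  obtain ⟨-, -, h2⟩ := hn₂ K n F₀ F ((le_max_right _ _).trans hn) hnil.1 htower
  obtain ⟨hUo, hUn⟩ := normal_fix F hF
  have hfin : Finite (GK K ⧸ F.fixingSubgroup) := Subgroup.quotient_finite_of_isOpen _ hUo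
  have hnorm : F₀.fixingSubgroup.Normal := (InfiniteGalois.normal_iff_isGalois F₀).2 hnil.1
  have h3 : RigidPair (2 * s) M F₀ := by
    have h4 := hrig (2 * s) (by rw [mul_pow]; exact le_max_left _ _)
    rwa [Nat.cast_mul, Nat.cast_ofNat] at h4
  have h4 : RigidPair 1 M F₀ := by
    have h5 := hrig 1 (by simp)
    rwa [Nat.cast_one] at h5
  exact ⟨hF, M, hMnf, hMab, hMF₀.trans hle, RigidPair.trans hnorm hle hfin h3 h1,
    RigidPair.trans hnorm hle hfin h4 h2⟩

end Pool.Agent.TH820.LG
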