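import Mathlib
import Pool.Agent.W353.FB.Final
import Pool.Agent.TH820.LG.TA1
import Pool.Agent.TH820.LG.ResDefs

/-! # Residues over the intermediate fields of a Galois extension: the link with the mean values -/

set_option autoImplicit false
set_option linter.unusedSectionVars false

namespace Pool.Agent.TH820.LG

open Complex Filter Topology ComplexConjugate NumberField IsDedekindDomain Polynomial
  Pool.Agent.W401.Cheb Pool.Agent.W540.BE Pool.Agent.W353.L1 Pool.Agent.W353.AT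
open Pool.Agent.W353.NF (act fixn fixn_le)
open Pool.Agent.TH526.DS (IsNew normal_fix fd_of_nf)
open Pool.Agent.W353.TD (ch rank)
open Pool.Agent.W353.SP (Mn Hs Bd bd_RR bd_fixn)
open Pool.Agent.W353.FB (cut abs_cut cut_sub hsSmall EA mnA LocalValue Uniq IsPartOf exists_t
  exists_a exists_tw EN_FT DS_diff residue residue_eq IsSystem ValueAt)

section
variable {K : Type} [Field K] [NumberField K] {ι : Type} {l : Filter ι}
  {E : ι → (HeightOneSpectrum (𝓞 K) → ℝ) → ℝ} (h : Mn l E)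
  {W : Type} [AddCommGroup W] [Module ℚ W] [FiniteDimensional ℚ W]
  {ρ : Representation ℚ (GK K) W} {t : HeightOneSpectrum (𝓞 K) → ℝ} (ht : Bd t) {s : ℕ}
  {σ : HeightOneSpectrum (𝓞 K) → GK K}
  (hs : ∀ η : ℝ, 0 < η → ∀ᶠ v in cofinite, |t v - ch ρ (σ v)⁻¹| ≤ s + η)

include h ht hs in
/-- the truncated complement -/
theorem cut_hs {g : HeightOneSpectrum (𝓞 K) → ℝ} (hg : Bd g)
    (hb : Bd fun v => ch ρ (σ v)⁻¹ * g v) :
    Hs l E (fun v => t v * g v + ((-1) * (cut s (t v - ch ρ (σ v)⁻¹) * g v) +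
      (-1) * (ch ρ (σ v)⁻¹ * g v))) 0 := by
  have hT : Bd fun v => cut s (t v - ch ρ (σ v)⁻¹) := ⟨s, fun v => abs_cut (Nat.cast_nonneg s) _⟩
  refine hsSmall h ((ht.mul hg).add (((Bd.const (-1)).mul (hT.mul hg)).add
    ((Bd.const (-1)).mul hb))) fun η hη => ?_
  obtain ⟨G, hG⟩ := hg
  have hG0 : 0 < |G| + 1 := by positivity
  filter_upwards [hs (η / (|G| + 1)) (by positivity)] with v hv
  have h6 := cut_sub (Nat.cast_nonneg s) (by positivity : 0 ≤ η / (|G| + 1)) hv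
  have e : t v * g v + ((-1) * (cut s (t v - ch ρ (σ v)⁻¹) * g v) +
      (-1) * (ch ρ (σ v)⁻¹ * g v)) =
      ((t v - ch ρ (σ v)⁻¹) - cut s (t v - ch ρ (σ v)⁻¹)) * g v := by
    ring
  rw [e, abs_mul]
  calc _ ≤ η / (|G| + 1) * (|G| + 1) := by
        refine mul_le_mul h6 ?_ (abs_nonneg _) (by positivity)
        exact ((hG v).trans (le_abs_self G)).trans (by linarith)
    _ = η := div_mul_cancel₀ _ hG0.ne'

include h ht hs in
theorem to_cut {g : HeightOneSpectrum (𝓞 K) → ℝ} {a b : ℝ} (hg : Bd g)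
    (ha : Hs l E (fun v => t v * g v) a) (hb : Hs l E (fun v => ch ρ (σ v)⁻¹ * g v) b) :
    Hs l E (fun v => cut s (t v - ch ρ (σ v)⁻¹) * g v) (a - b) := by
  have h1 := h.hsMul (cut_hs h ht hs hg hb.1) (-1)
  have h2 := h.hsAdd h1 (h.hsAdd ha (h.hsMul hb (-1)))
  exact h2.congr (fun v => by ring) (by ring)

include h ht hs in
theorem of_cut {g : HeightOneSpectrum (𝓞 K) → ℝ} {a b : ℝ} (hg : Bd g)
    (ha : Hs l E (fun v => cut s (t v - ch ρ (σ v)⁻¹) * g v) a)
    (hb : Hs l E (fun v => ch ρ (σ v)⁻¹ * g v) b) :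
    Hs l E (fun v => t v * g v) (a + b) := by
  have h1 := cut_hs h ht hs hg hb.1
  have h2 := h.hsAdd h1 (h.hsAdd ha hb)
  exact h2.congr (fun v => by ring) (by ring)

end

section
variable {K : Type} [Field K] [NumberField K] {W : Type} [AddCommGroup W] [Module ℚ W]
  [FiniteDimensional ℚ W] {ρ : Representation ℚ (GK K) W} {P : LocalValue K} {N : ℕ}
  (hu : Uniq P) {t : HeightOneSpectrum (𝓞 K) → ℝ} (ht : Bd t)
  (htv : ∀ᶠ v in cofinite, ValueAt P v (t v))
  {σ : HeightOneSpectrum (𝓞 K) → GK K} (hσ : ∀ v, IsFrob v (σ v))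
  (hρ : ∃ U : Subgroup (GK K), IsOpen (U : Set (GK K)) ∧ ∀ u ∈ U, ρ u = 1) {s : ℕ}
  (hs : ∀ η : ℝ, 0 < η → ∀ᶠ v in cofinite, |t v - ch ρ (σ v)⁻¹| ≤ s + η)

include hu ht htv hσ hρ hs in
/-- **The twisted residues as mean values.** -/
theorem hs_of_residue {r : ℕ} (χ : Representation ℂ (GK K) (Fin r → ℂ)) (hχ : IsArtin χ) {δ : ℤ}
    (hδ : TwistResidue P ρ χ δ) :
    Hs (𝓝[>] 1) (EA K) (fun v => cut s (t v - ch ρ (σ v)⁻¹) * RR χ 0 σ v) ((-δ : ℤ) : ℝ) := by
  obtain ⟨R, b, hb, hlim⟩ := hδ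
  obtain ⟨hbd, hbR, hev⟩ := exists_tw hu ht htv σ hσ hχ hb
  have h7 := DS_diff hbR hbd hbd hev (by simp)
  have h8 := hlim.sub h7
  rw [sub_zero] at h8
  have h3 : Hs (𝓝[>] 1) (EA K) (fun v => t v * RR χ 0 σ v) ((twistRank ρ χ : ℝ) - δ) := by
    refine ⟨hbd, h8.congr fun x => ?_⟩
    rw [residue_eq]
    ring
  have h4 := (mnA K).twMean ρ hρ ⟨r, χ⟩ hχ σ hσ
  refine (to_cut (mnA K) ht hs (bd_RR (x := ⟨r, χ⟩) hχ σ) h3 h4).congr (fun v => rfl) ?_
  push_cast
  ring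

include hu ht htv hσ hρ hs in
/-- **The residues over the intermediate fields.** -/
theorem same_residues (E E' : IntermediateField K (AlgebraicClosure K)) [NumberField E]
    [NumberField E']
    (h : Hs (𝓝[>] 1) (EA K) (fun v => cut s (t v - ch ρ (σ v)⁻¹) *
      ((fixn K E (σ v) : ℝ) - fixn K E' (σ v))) 0) :
    SameResidues P ρ E E' := by
  intro R b R' b' hb hb'
  have hr : ∀ (E : IntermediateField K (AlgebraicClosure K)) [NumberField E],
      Hs (𝓝[>] 1) (EA K) (fun v => ch ρ (σ v)⁻¹ * fixn K E (σ v)) (rank ρ E) := by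
    intro E _
    have h6 := (mnA K).fixMean ρ hρ E.val σ hσ
    have hr : rank ρ E = Module.finrank ℚ (W353.TD.inv ρ E.val.fieldRange.fixingSubgroup) := by
      rw [W353.TD.inv_eq, IntermediateField.fieldRange_val]
      rfl
    rw [hr]
    exact h6
  have h1 : Hs (𝓝[>] 1) (EA K) (fun v => ch ρ (σ v)⁻¹ *
      ((fixn K E (σ v) : ℝ) - fixn K E' (σ v))) ((rank ρ E : ℝ) - rank ρ E') :=
    ((mnA K).hsAdd (hr E) ((mnA K).hsMul (hr E') (-1))).congr (fun v => by ring) (by ring)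
  have hbd : Bd fun v => ((fixn K E (σ v) : ℝ) - fixn K E' (σ v)) := by
    have h2 : Bd fun v => ((fixn K E (σ v) : ℝ) + -(fixn K E' (σ v) : ℝ)) :=
      Bd.add (bd_fixn σ) (Bd.neg (bd_fixn σ))
    obtain ⟨B, hB⟩ := h2
    refine ⟨B, fun v => ?_⟩
    change |(fixn K E (σ v) : ℝ) - fixn K E' (σ v)| ≤ B
    rw [sub_eq_add_neg]
    exact hB v
  have h2 := of_cut (mnA K) ht hs hbd h h1
  rw [zero_add] at h2
  have hfield : ∀ (E : IntermediateField K (AlgebraicClosure K)) [NumberField E]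
      (R : Finset (HeightOneSpectrum (𝓞 E))) (b : HeightOneSpectrum (𝓞 E) → ℝ),
      IsSystem P R b → Tendsto (fun x : ℝ => residue R b x -
        EA K x fun v => t v * fixn K E (σ v)) (𝓝[>] 1) (𝓝 0) := by
    intro E _ R b hb
    obtain ⟨a, ha, hbR, hba, hcomp⟩ := exists_a hu htv hb
    have h6 := EN_FT σ hσ ht ha hcomp
    have hg : Bd fun v => t v * (fixn K E (σ v) : ℝ) := ht.mul (bd_fixn σ)
    have h7 := DS_diff hbR ha hg hba h6
    refine h7.congr fun x => ?_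
    rw [residue_eq]
  have hg : ∀ (E : IntermediateField K (AlgebraicClosure K)) [NumberField E],
      Bd fun v => t v * (fixn K E (σ v) : ℝ) := fun E _ => ht.mul (bd_fixn σ)
  have h3 := ((hfield E R b hb).sub (hfield E' R' b' hb')).add h2.2
  have h4 := h3.sub_const ((rank ρ E : ℝ) - rank ρ E')
  rw [sub_self, zero_add, sub_self] at h4
  refine h4.congr' ?_
  filter_upwards [(mnA K).add _ _ ((ht.mul hbd)) (hg E')] with x hx
  have e : (fun v => t v * ((fixn K E (σ v) : ℝ) - fixn K E' (σ v)) +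
      t v * (fixn K E' (σ v) : ℝ)) = fun v => t v * (fixn K E (σ v) : ℝ) := by
    funext v
    ring
  rw [e] at hx
  rw [hx]
  ring

end

end Pool.Agent.TH820.LG
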