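import Mathlib
import Pool.Agent.TH820.LG.TC1
import Pool.Agent.TH820.LG.TA4
import Pool.Agent.TH820.LG.TB0
import Pool.Agent.TH820.LG.ResTowerDefs
import Pool.Agent.TH820.LG.ResLayerDefs

/-! # Residues over the intermediate fields of a Galois extension -/

set_option autoImplicit false
set_option linter.unusedSectionVars false

namespace Pool.Agent.TH820.LG

open Complex Filter Topology ComplexConjugate NumberField IsDedekindDomain Polynomial
  Pool.Agent.W401.Cheb Pool.Agent.W540.BE Pool.Agent.W353.L1 Pool.Agent.W353.AT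
open Pool.Agent.W353.NF (act fixn fixn_le)
open Pool.Agent.TH526.DS (IsNew normal_fix fd_of_nf)
open Pool.Agent.W353.TD (ch rank)
open Pool.Agent.W353.SP (Mn Hs Bd)
open Pool.Agent.W353.FB (cut abs_cut EA mnA LocalValue Uniq IsPartOf exists_t ValueAt)

section
variable {K : Type} [Field K] [NumberField K] {W : Type} [AddCommGroup W] [Module ℚ W]
  [FiniteDimensional ℚ W] {ρ : Representation ℚ (GK K) W} {P : LocalValue K} {N : ℕ}

/-- **The residues over a rigid pair.** -/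
theorem rigid_residues {M F : IntermediateField K (AlgebraicClosure K)} [NumberField M]
    [NumberField F] (hu : Uniq P) (hP : IsPartOf P N ρ) (hM : IsGalois K M)
    (hF : IsGalois K F) (hMF : M ≤ F)
    (hrig : RigidPair (2 * ((N - Module.finrank ℚ W : ℕ) : ℝ)) M F)
    (H : ∀ (r : ℕ) (χ : Representation ℂ (GK K) (Fin r → ℂ)), IsNew M F χ →
      ∃ δ : ℤ, TwistResidue P ρ χ δ) :
    (∀ (r : ℕ) (χ : Representation ℂ (GK K) (Fin r → ℂ)), IsNew M F χ →
      ∀ δ : ℤ, TwistResidue P ρ χ δ → δ = 0) ∧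
    ∀ (E : IntermediateField K (AlgebraicClosure K)) [NumberField E] [NumberField ↥(E ⊓ M)],
      E ≤ F → SameResidues P ρ E (E ⊓ M) := by
  choose σ hσ using exists_isFrob (F := K)
  obtain ⟨t, ht, htv, hts⟩ := exists_t hP σ hσ
  have hs0 : (0 : ℝ) ≤ ((N - Module.finrank ℚ W : ℕ) : ℝ) := Nat.cast_nonneg _
  have hTs : ∀ v, |cut ((N - Module.finrank ℚ W : ℕ) : ℝ) (t v - ch ρ (σ v)⁻¹)| ≤
      ((N - Module.finrank ℚ W : ℕ) : ℝ) := fun v => abs_cut hs0 _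
  have hart : ∀ {r : ℕ} (χ : Representation ℂ (GK K) (Fin r → ℂ)), IsNew M F χ → IsArtin χ :=
    fun χ hχ => ⟨F.fixingSubgroup, (normal_fix F hF).1, hχ.2.1⟩
  have H' : ∀ (r : ℕ) (χ : Representation ℂ (GK K) (Fin r → ℂ)), IsNew M F χ →
      ∃ δ : ℤ, Hs (𝓝[>] 1) (EA K) (fun v =>
        cut ((N - Module.finrank ℚ W : ℕ) : ℝ) (t v - ch ρ (σ v)⁻¹) * RR χ 0 σ v) δ := by
    intro r χ hχ
    obtain ⟨δ, hδ⟩ := H r χ hχ
    exact ⟨-δ, hs_of_residue hu ht htv hσ hP.1 hts χ (hart χ hχ) hδ⟩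
  have hzero : ∀ (r : ℕ) (χ : Representation ℂ (GK K) (Fin r → ℂ)), IsNew M F χ →
      ∀ δ : ℤ, TwistResidue P ρ χ δ → δ = 0 := by
    intro r χ hχ δ hδ
    have h1 := hs_of_residue hu ht htv hσ hP.1 hts χ (hart χ hχ) hδ
    have h2 := mn_zero hs0 hTs hσ hM hF hMF (mnA K) hrig H' χ hχ h1
    omega
  refine ⟨hzero, fun E _ _ hEF => same_residues hu ht htv hσ hP.1 hts E (E ⊓ M) ?_⟩
  refine mn_has0 hM hF hMF hEF (mnA K) fun r χ hχ => ?_
  obtain ⟨δ, hδ⟩ := H r χ hχ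
  have h1 := hs_of_residue hu ht htv hσ hP.1 hts χ (hart χ hχ) hδ
  rw [hzero r χ hχ δ hδ, neg_zero, Int.cast_zero] at h1
  exact h1

/-- **Layers of odd degree.** -/
theorem oddLayerResidues (hu : Uniq P) (hP : IsPartOf P N ρ)
    (hN : N ≤ Module.finrank ℚ W + 2) : OddLayerResidues P ρ := by
  classical
  intro M F _ _ hM hF hMF hodd H
  choose σ hσ using exists_isFrob (F := K)
  obtain ⟨t, ht, htv, hts⟩ := exists_t hP σ hσ
  have hs0 : (0 : ℝ) ≤ ((N - Module.finrank ℚ W : ℕ) : ℝ) := Nat.cast_nonneg _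
  have hs2 : ((N - Module.finrank ℚ W : ℕ) : ℝ) ≤ 2 := by
    exact_mod_cast (by omega : N - Module.finrank ℚ W ≤ 2)
  have hT : ∀ v, |cut ((N - Module.finrank ℚ W : ℕ) : ℝ) (t v - ch ρ (σ v)⁻¹)| ≤ (2 : ℝ) :=
    fun v => (abs_cut hs0 _).trans hs2
  have hart : ∀ {r : ℕ} (χ : Representation ℂ (GK K) (Fin r → ℂ)),
      (∀ u ∈ F.fixingSubgroup, χ u = 1) → IsArtin χ :=
    fun χ hχ => ⟨F.fixingSubgroup, (normal_fix F hF).1, hχ⟩
  have H' : ∀ (r : ℕ) (χ : Representation ℂ (GK K) (Fin r → ℂ)), χ.IsIrreducible →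
      (∀ u ∈ F.fixingSubgroup, χ u = 1) → ∃ δ : ℤ, Hs (𝓝[>] 1) (EA K) (fun v =>
        cut ((N - Module.finrank ℚ W : ℕ) : ℝ) (t v - ch ρ (σ v)⁻¹) * RR χ 0 σ v) δ := by
    intro r χ hirr hχ
    obtain ⟨δ, hδ⟩ := H r χ hirr hχ
    exact ⟨-δ, hs_of_residue hu ht htv hσ hP.1 hts χ (hart χ hχ) hδ⟩
  obtain ⟨C, hMC, hCF, hC, hcyc, hnew⟩ := layer_mn (mnA K) hT hσ hM hF hMF hodd H'
  have hFfd : FiniteDimensional K F := fd_of_nf F
  have hCfd : FiniteDimensional K C :=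
    FiniteDimensional.of_injective (IntermediateField.inclusion hCF).toLinearMap
      (IntermediateField.inclusion hCF).injective
  have hCnf : NumberField C := NumberField.of_module_finite K C
  refine ⟨C, hMC, hCF, hC, hcyc, fun r χ hχ δ hδ => ?_, fun E _ _ hEF =>
    same_residues hu ht htv hσ hP.1 hts E (E ⊓ C) (mn_has0 hC hF hCF hEF (mnA K) hnew)⟩
  have h1 := hnew r χ hχ
  have h2 := hs_of_residue hu ht htv hσ hP.1 hts χ (hart χ hχ.2.1) hδ
  have h3 := h1.unique h2 fun _ => rfl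
  have h4 : (0 : ℤ) = -δ := by exact_mod_cast h3
  omega

end

/-- **Towers over nilpotent extensions.** -/
theorem nilTowerResidues (s : ℕ) : ∃ n₀ : ℕ, ∀ (K : Type) [Field K] [NumberField K] (N : ℕ)
    (P : LocalValue K) (W : Type) [AddCommGroup W] [Module ℚ W] [FiniteDimensional ℚ W]
    (ρ : Representation ℚ (GK K) W), Uniq P → IsPartOf P N ρ →
    N ≤ Module.finrank ℚ W + s → NilpotentTowerResidues P ρ s n₀ := by
  obtain ⟨n₀, hn₀⟩ := nilTower_rigid s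
  refine ⟨n₀, ?_⟩
  rintro K _ _ N P W _ _ _ ρ hu hpart hNs n F _ hn hF H
  obtain ⟨hFg, M, hMnf, hMab, hMF, hrig, hrig1⟩ := hn₀ K n F hn hF
  have hM : IsGalois K M := hMab.toIsGalois
  obtain ⟨hiff, hmax⟩ := abelian_bottom hMab hFg hMF hrig1
  have h1 : ((N - Module.finrank ℚ W : ℕ) : ℝ) ≤ s := by
    exact_mod_cast (by omega : N - Module.finrank ℚ W ≤ s)
  have hmain := rigid_residues hu hpart hM hFg hMF (hrig.mono (by linarith))
    (fun r χ hχ => H r χ ((hiff r χ).2 hχ))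
  refine ⟨fun r χ hχ δ hδ => hmain.1 r χ ((hiff r χ).1 hχ) δ hδ, ?_⟩
  intro E₀ E _ _ hEF hE₀
  have he := hmax E₀ E hEF hE₀
  subst he
  exact hmain.2 E hEF

end Pool.Agent.TH820.LG
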