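import Pool.Agent.TH820.LG.NilTowerDefs

/-!
# Towers over nilpotent extensions: the orders of the poles
-/

set_option autoImplicit false

namespace Pool.Agent.TH820.LG

open NumberField

/-- Let `n ≥ n₀` and let `F` be the top of a large tower over a nilpotent extension of `K`
(`IsNilpotentTower n (4s²) F`).  Suppose that the defect exists for all irreducible representations `χ` of
`Gal(F/K)` of dimension `≠ 1`.
* All these defects are zero.
* Let `E` be any field with `K ⊆ E ⊆ F` and `E₀` its largest subfield that is abelian over `K`.  The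
difference between the values of `log |L(m + 1 + ε)| / log(1/ε) - rank` for `L(H^{2m}(X_E), s)` and
`L(H^{2m}(X_{E₀}), s)` tends to `0` as `ε → 0+`, and the defects over `E` and over `E₀`, if they exist,
are equal. -/
def NilpotentTowerDefects {K : Type} [Field K] [NumberField K] {l : ℕ}
    (X : Set (MvPolynomial (Fin l) (𝓞 K))) (d m N : ℕ) {V : Type} [AddCommGroup V] [Module ℚ V]
    (ρ : Representation ℚ Gal(AlgebraicClosure K/K) V) (s n₀ : ℕ) : Prop :=
  ∀ (n : ℕ) (F : IntermediateField K (AlgebraicClosure K)) [NumberField F], n₀ ≤ n →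
    IsNilpotentTower n (4 * s ^ 2) F →
    (∀ (r : ℕ) (χ : Representation ℂ Gal(AlgebraicClosure K/K) (Fin r → ℂ)), IsNonabelian F χ →
      ∃ δ : ℤ, W353.AT.TwistDefect X d m N ρ χ δ) →
    (∀ (r : ℕ) (χ : Representation ℂ Gal(AlgebraicClosure K/K) (Fin r → ℂ)), IsNonabelian F χ →
      ∀ δ : ℤ, W353.AT.TwistDefect X d m N ρ χ δ → δ = 0) ∧
    ∀ (E₀ E : IntermediateField K (AlgebraicClosure K)) [NumberField E₀] [NumberField E], E ≤ F →
      IsMaxAbelian E₀ E → SameDefects X d m N ρ E E₀

end Pool.Agent.TH820.LG
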