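import Mathlib
import Pool.Agent.TH820.LG.TB0
import Pool.Agent.TH820.LG.TDDefs

/-! # Orders of poles over towers over nilpotent extensions -/

set_option autoImplicit false
set_option linter.unusedSectionVars false

namespace Pool.Agent.TH820.LG

open Complex Filter Topology ComplexConjugate NumberField IsDedekindDomain Polynomial
  Pool.Agent.W401.Cheb Pool.Agent.W540.BE Pool.Agent.W353.L1 Pool.Agent.W353.AT
open Pool.Agent.W353.TD (IsPart)

/-- **Towers over nilpotent extensions.** -/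
theorem nilTowerDefects (s : ℕ) : ∃ n₀ : ℕ, ∀ (K : Type) [Field K] [NumberField K]
    (l d m N : ℕ) (X : Set (MvPolynomial (Fin l) (𝓞 K))) (V : Type) [AddCommGroup V] [Module ℚ V]
    [FiniteDimensional ℚ V] (ρ : Representation ℚ (GK K) V), m ≤ d → IsPart X d m N ρ →
    N ≤ Module.finrank ℚ V + s → NilpotentTowerDefects X d m N ρ s n₀ := by
  obtain ⟨n₀, hn₀⟩ := nilTower_rigid s
  refine ⟨n₀, ?_⟩
  rintro K _ _ l d m N X V _ _ _ ρ hmd hpart hNs n F _ hn hF H
  obtain ⟨hFg, M, hMnf, hMab, hMF, hrig, hrig1⟩ := hn₀ K n F hn hF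
  have hM : IsGalois K M := hMab.toIsGalois
  obtain ⟨hiff, hmax⟩ := abelian_bottom hMab hFg hMF hrig1
  have h1 : ((N - Module.finrank ℚ V : ℕ) : ℝ) ≤ s := by
    exact_mod_cast (by omega : N - Module.finrank ℚ V ≤ s)
  have hmain := rigid_defects hmd hpart hM hFg hMF (hrig.mono (by linarith))
    (fun r χ hχ => H r χ ((hiff r χ).2 hχ))
  refine ⟨fun r χ hχ δ hδ => hmain.1 r χ ((hiff r χ).1 hχ) δ hδ, ?_⟩
  intro E₀ E _ _ hEF hE₀
  have he := hmax E₀ E hEF hE₀
  subst he
  exact hmain.2 E hEF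

end Pool.Agent.TH820.LG
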