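import Mathlib
import Pool.Agent.TH820.LG.W3
import Pool.Agent.TH820.LG.Main

/-! # Towers of extensions with large linear or alternating groups: orders and defects -/

set_option autoImplicit false
set_option linter.unusedSectionVars false

namespace Pool.Agent.TH820.LG

open Complex Filter Topology ComplexConjugate NumberField IsDedekindDomain Polynomial
  Pool.Agent.W401.Cheb Pool.Agent.W540.BE Pool.Agent.W353.L1 Pool.Agent.W353.AT
open Pool.Agent.W353.TD (IsPart)

/-- **The orders over large towers.** -/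
theorem towerOrders (N : ℕ) : ∃ n₀ : ℕ, ∀ (K : Type) [Field K] [NumberField K] (l d i : ℕ)
    (X : Set (MvPolynomial (Fin l) (𝓞 K))), i ≤ 2 * d → TowerOrders X d i N n₀ := by
  obtain ⟨n₀, hn₀⟩ := tower_rigid (2 * N)
  refine ⟨n₀, ?_⟩
  intro K _ _ l d i X hi n M F _ _ τ hn hM htower H
  obtain ⟨hMF, hF, hrig⟩ := hn₀ K n M F hn hM htower
  exact rigid_orders hi τ hM hF hMF hrig H

/-- **The defects over large towers.** -/
theorem towerDefects (s : ℕ) : ∃ n₀ : ℕ, ∀ (K : Type) [Field K] [NumberField K] (l d m N : ℕ)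
    (X : Set (MvPolynomial (Fin l) (𝓞 K))) (V : Type) [AddCommGroup V] [Module ℚ V]
    [FiniteDimensional ℚ V] (ρ : Representation ℚ (GK K) V), m ≤ d → IsPart X d m N ρ →
    N ≤ Module.finrank ℚ V + s → TowerDefects X d m N ρ n₀ := by
  obtain ⟨n₀, hn₀⟩ := tower_rigid (2 * s)
  refine ⟨n₀, ?_⟩
  intro K _ _ l d m N X V _ _ _ ρ hmd hpart hNs n M F _ _ hn hM htower H
  obtain ⟨hMF, hF, hrig⟩ := hn₀ K n M F hn hM htower
  refine rigid_defects hmd hpart hM hF hMF (hrig.mono ?_) H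
  have h1 : ((N - Module.finrank ℚ V : ℕ) : ℝ) ≤ s := by
    exact_mod_cast (by omega : N - Module.finrank ℚ V ≤ s)
  linarith

/-- **The orders over large extensions.** -/
theorem largeExtensionOrders (N : ℕ) : ∃ n₀ : ℕ, ∀ (K : Type) [Field K] [NumberField K]
    (l d i : ℕ) (X : Set (MvPolynomial (Fin l) (𝓞 K))), i ≤ 2 * d →
    LargeExtensionOrders X d i N n₀ := by
  obtain ⟨n₀, hn₀⟩ := tower_rigid (2 * N)
  obtain ⟨n₁, hn₁⟩ := tower_rigid 1
  refine ⟨max n₀ n₁, ?_⟩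
  rintro K _ _ l d i X hi n F _ τ hn ⟨M, hMfd, hMab, htower⟩ H
  have hMnf : NumberField M := NumberField.of_module_finite K M
  have hM : IsGalois K M := hMab.toIsGalois
  obtain ⟨hMF, hF, hrig⟩ := hn₀ K n M F ((le_max_left _ _).trans hn) hM htower
  obtain ⟨-, -, hrig1⟩ := hn₁ K n M F ((le_max_right _ _).trans hn) hM htower
  obtain ⟨hiff, hmax⟩ := abelian_bottom hMab hF hMF hrig1
  have hmain := rigid_orders hi τ hM hF hMF hrig (fun r χ hχ => H r χ ((hiff r χ).2 hχ))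
  refine ⟨fun r χ hχ k hk => hmain.1 r χ ((hiff r χ).1 hχ) k hk, ?_⟩
  intro E₀ E _ _ hEF hE₀
  have he := hmax E₀ E hEF hE₀
  subst he
  exact hmain.2 E hEF

/-- **The defects over large extensions.** -/
theorem largeExtensionDefects (s : ℕ) : ∃ n₀ : ℕ, ∀ (K : Type) [Field K] [NumberField K]
    (l d m N : ℕ) (X : Set (MvPolynomial (Fin l) (𝓞 K))) (V : Type) [AddCommGroup V] [Module ℚ V]
    [FiniteDimensional ℚ V] (ρ : Representation ℚ (GK K) V), m ≤ d → IsPart X d m N ρ →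
    N ≤ Module.finrank ℚ V + s → LargeExtensionDefects X d m N ρ n₀ := by
  obtain ⟨n₀, hn₀⟩ := tower_rigid (2 * s)
  obtain ⟨n₁, hn₁⟩ := tower_rigid 1
  refine ⟨max n₀ n₁, ?_⟩
  rintro K _ _ l d m N X V _ _ _ ρ hmd hpart hNs n F _ hn ⟨M, hMfd, hMab, htower⟩ H
  have hMnf : NumberField M := NumberField.of_module_finite K M
  have hM : IsGalois K M := hMab.toIsGalois
  obtain ⟨hMF, hF, hrig⟩ := hn₀ K n M F ((le_max_left _ _).trans hn) hM htower
  obtain ⟨-, -, hrig1⟩ := hn₁ K n M F ((le_max_right _ _).trans hn) hM htower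
  obtain ⟨hiff, hmax⟩ := abelian_bottom hMab hF hMF hrig1
  have h1 : ((N - Module.finrank ℚ V : ℕ) : ℝ) ≤ s := by
    exact_mod_cast (by omega : N - Module.finrank ℚ V ≤ s)
  have hmain := rigid_defects hmd hpart hM hF hMF (hrig.mono (by linarith))
    (fun r χ hχ => H r χ ((hiff r χ).2 hχ))
  refine ⟨fun r χ hχ δ hδ => hmain.1 r χ ((hiff r χ).1 hχ) δ hδ, ?_⟩
  intro E₀ E _ _ hEF hE₀
  have he := hmax E₀ E hEF hE₀
  subst he
  exact hmain.2 E hEF

end Pool.Agent.TH820.LG
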